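import Pool.Agent.Work.MP_4c5ddc_co.FP.ADefs

/-!
# FP/ABas (S-M: basic facts about the bodies)

PROOF.
`bd_iff`: `Finset.mem_filter`.
`not_int`, `int_of`: `CO.mem_interior_poly` (unit vectors are not zero, `hF.unit`).
`compact_K`: closed (`CO.isClosed_poly`) and contained in a closed ball (`hF.fat`), E3 is a proper space.
`ridge_indep`: two different tight unit normals `ν ≠ μ` of the body `i` at a point `x ∈ K i` are linearly
independent: otherwise `μ = -ν` (unit vectors, `μ = r • ν`, `|r| = 1`, `r ≠ 1`), and for every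
`y ∈ K i`: `⟪ν, y⟫ ≤ h ν`, `-⟪ν, y⟫ = ⟪μ, y⟫ ≤ h μ = ⟪μ, x⟫ = -⟪ν, x⟫ = -h ν`, so `⟪ν, y⟫ = h ν` on `K i`; but
`K i` contains a closed ball of radius `r > 0` with centre `o` (`hF.fat`), take `y = o` and `y = o + r • ν`.
`prp_unique`: the definition of `Prp`. `tight_ex`: the definition of `bd`.
`prp_indep`: if `F.bd x = {a, b, c}` (three different bodies) with tight normals `α, β, γ` and `Prp F x` then
`![α, β, γ]` is linearly independent: otherwise there is `w ≠ 0` orthogonal to `α, β, γ` (the span has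
dimension at most 2, its orthogonal complement in `E3` is not zero; or: use
`Submodule.orthogonal_eq_bot_iff` as in `CO/Dich`), against `hF.nodir` (every tight normal of a body of
`bd x` at `x` is `α`, `β` or `γ`).
`triple_imp`: if `(F.bd x).card = 3`, `F.bd x ⊆ S` and not `Prp F x` then some `i ∈ F.bd x` has two tight normals
`ν ≠ μ`, linearly independent by `ridge_indep`. Let `w ≠ 0` be orthogonal to `ν` and `μ` (exists: dimension).
`hF.nodir` gives `j ∈ F.bd x` and a tight normal `κ` of `j` with `⟪κ, w⟫ ≠ 0`, so `κ` is not in the span of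
`ν, μ` and `![ν, μ, κ]` is linearly independent (`linearIndependent_fin_succ'` or by hand: if
`a ν + b μ + c κ = 0` pair with `w`: `c = 0`).
-/

set_option autoImplicit false

namespace UF.FP

variable {n : ℕ} {α : ℝ} {s : ℕ} {F : Fam n}

theorem bd_iff {x : E3} {i : Fin n} : i ∈ F.bd x ↔ F.Bd i x := by
  simp [Fam.bd]

private theorem unit_ne (hF : Good α s F) {i : Fin n} : ∀ ν ∈ F.N i, ν ≠ 0 := by
  intro ν hν h0
  have h1 := hF.unit i ν hν
  rw [h0, norm_zero] at h1
  exact zero_ne_one h1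

theorem not_int (hF : Good α s F) {i : Fin n} {ν x : E3} (h : F.Tight i ν x) :
    x ∉ interior (F.K i) := by
  intro hx
  have h1 := (CO.mem_interior_poly (unit_ne hF)).1 hx ν h.1
  exact absurd h.2 h1.ne

theorem int_of (hF : Good α s F) {i : Fin n} {x : E3} (h : x ∈ F.K i) (h' : ∀ ν, ¬ F.Tight i ν x) :
    x ∈ interior (F.K i) := by
  refine (CO.mem_interior_poly (unit_ne hF)).2 fun ν hν => ?_
  refine lt_of_le_of_ne (h ν hν) fun h1 => h' ν ⟨hν, h1⟩

theorem compact_K (hF : Good α s F) (i : Fin n) : IsCompact (F.K i) := by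
  obtain ⟨x, y, r, R, _, _, _, h4⟩ := hF.fat i
  exact Metric.isCompact_of_isClosed_isBounded (CO.isClosed_poly _ _)
    (Metric.isBounded_closedBall.subset h4)

theorem ridge_indep (hF : Good α s F) {i : Fin n} {x ν μ : E3} (hx : x ∈ F.K i)
    (h1 : F.Tight i ν x) (h2 : F.Tight i μ x) (hne : ν ≠ μ) : LinearIndependent ℝ ![ν, μ] := by
  rw [LinearIndependent.pair_iff' (unit_ne hF ν h1.1)]
  intro a ha
  have n1 := hF.unit i ν h1.1
  have n2 := hF.unit i μ h2.1
  rw [← ha, norm_smul, n1, mul_one, Real.norm_eq_abs] at n2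
  rcases (abs_eq zero_le_one).1 n2 with h3 | h3
  · rw [h3, one_smul] at ha
    exact hne ha
  · rw [h3, neg_smul, one_smul] at ha
    obtain ⟨o, y, r, R, hr, _, hb, _⟩ := hF.fat i
    have key : ∀ y ∈ F.K i, inner ℝ ν y = inner ℝ ν x := by
      intro y hy
      have e1 : inner ℝ ν y ≤ F.h i ν := hy ν h1.1
      have e2 : inner ℝ μ y ≤ F.h i μ := hy μ h2.1
      rw [← h1.2] at e1
      rw [← h2.2, ← ha, inner_neg_left, inner_neg_left] at e2
      linarith
    have k1 := key o (hb (Metric.mem_closedBall_self hr.le))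
    have k2 := key (o + r • ν) (hb (by
      rw [Metric.mem_closedBall, dist_eq_norm, add_sub_cancel_left, norm_smul, n1, mul_one,
        Real.norm_eq_abs, abs_of_pos hr]))
    rw [inner_add_right, inner_smul_right, k1, real_inner_self_eq_norm_sq, n1] at k2
    linarith

private theorem span_top (hF : Good α s F) {x : E3} (h3 : (F.bd x).card = 3) :
    Submodule.span ℝ {ν : E3 | ∃ i ∈ F.bd x, F.Tight i ν x} = ⊤ := by
  rw [← Submodule.orthogonal_eq_bot_iff, Submodule.eq_bot_iff]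
  intro w hw
  by_contra hw0
  obtain ⟨i, hi, ν, hν, h2⟩ := hF.nodir x h3 w hw0
  exact h2 ((Submodule.mem_orthogonal _ w).1 hw ν (Submodule.subset_span ⟨i, hi, hν⟩))

private theorem finrank3 : Module.finrank ℝ E3 = 3 := by
  simp [E3]

theorem prp_indep (hF : Good α s F) {x : E3} (hx : Prp F x) {a b c : Fin n} (hab : a ≠ b)
    (hac : a ≠ c) (hbc : b ≠ c) (ha : a ∈ F.bd x) (hb : b ∈ F.bd x) (hc : c ∈ F.bd x)
    {ν₁ ν₂ ν₃ : E3} (h1 : F.Tight a ν₁ x) (h2 : F.Tight b ν₂ x) (h3 : F.Tight c ν₃ x) :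
    LinearIndependent ℝ ![ν₁, ν₂, ν₃] := by
  have hbd : {a, b, c} = F.bd x := by
    refine Finset.eq_of_subset_of_card_le ?_ ?_
    · intro i hi
      rw [Finset.mem_insert, Finset.mem_insert, Finset.mem_singleton] at hi
      rcases hi with rfl | rfl | rfl
      exacts [ha, hb, hc]
    · rw [hx.1, Finset.card_eq_three.2 ⟨a, b, c, hab, hac, hbc, rfl⟩]
  refine linearIndependent_of_top_le_span_of_card_eq_finrank ?_ ?_
  · rw [← span_top hF hx.1, Submodule.span_le]
    rintro l ⟨i, hi, hl⟩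
    have hi' := hi
    rw [← hbd, Finset.mem_insert, Finset.mem_insert, Finset.mem_singleton] at hi'
    rcases hi' with rfl | rfl | rfl
    · rw [hx.2 i hi l ν₁ hl h1]
      exact Submodule.subset_span ⟨0, rfl⟩
    · rw [hx.2 i hi l ν₂ hl h2]
      exact Submodule.subset_span ⟨1, rfl⟩
    · rw [hx.2 i hi l ν₃ hl h3]
      exact Submodule.subset_span ⟨2, rfl⟩
  · rw [finrank3, Fintype.card_fin]

theorem triple_imp (hF : Good α s F) {S : Finset (Fin n)} {x : E3} (h3 : (F.bd x).card = 3)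
    (hS : F.bd x ⊆ S) (hx : ¬ Prp F x) : x ∈ ImpS F S := by
  have hA : ∃ i ∈ F.bd x, ∃ ν μ, F.Tight i ν x ∧ F.Tight i μ x ∧ ν ≠ μ := by
    by_contra hno
    apply hx
    refine ⟨h3, fun i hi ν μ h1 h2 => ?_⟩
    by_contra h4
    exact hno ⟨i, hi, ν, μ, h1, h2, h4⟩
  obtain ⟨i, hi, ν, μ, h1, h2, hne⟩ := hA
  have hLI2 := ridge_indep hF (bd_iff.1 hi).1 h1 h2 hne
  have hex : ∃ l : E3, (∃ j ∈ F.bd x, F.Tight j l x) ∧
      l ∉ Submodule.span ℝ (Set.range ![ν, μ]) := by
    by_contra hno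
    push Not at hno
    have h1 : (⊤ : Submodule ℝ E3) ≤ Submodule.span ℝ (Set.range ![ν, μ]) := by
      rw [← span_top hF h3, Submodule.span_le]
      intro l hl
      exact hno l hl
    have h2 : Submodule.span ℝ (Set.range ![ν, μ]) = ⊤ := top_le_iff.1 h1
    have h4 := finrank_range_le_card (R := ℝ) ![ν, μ]
    rw [Set.finrank, h2, finrank_top, finrank3, Fintype.card_fin] at h4
    omega
  obtain ⟨l, ⟨j, hj, hlt⟩, hl⟩ := hex
  have hLI3 : LinearIndependent ℝ (Fin.cons l ![ν, μ] : Fin 3 → E3) :=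
    linearIndependent_finCons.2 ⟨hLI2, hl⟩
  have hLI4 := hLI3.comp ![1, 2, 0] (by decide)
  refine ⟨i, hS hi, j, hS hj, ν, μ, l, ?_, h1, h2, hlt⟩
  convert hLI4 using 1
  funext x
  fin_cases x <;> rfl

end UF.FP
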