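import Pool.Agent.Work.MP_4c5ddc_co.FP.ADefs

/-!
# FP/AMom (M: the moment of the size of a random sample)

PROOF. `m = k + 1`, `N = S.card`, `λ = N / m ≥ 1`. For real `x ≥ 0`: `x ^ (2 + ε) ≤ λ ^ (2 + ε) * (1 + (x / λ) ^ 3)` (if `x ≤ λ` by
monotonicity; if `x > λ` because `(x / λ) ^ (2 + ε) ≤ (x / λ) ^ 3`, `ε ≤ 1`). So it is enough that
`∑ c, (colr S c).card ^ 3 ≤ 8 * λ ^ 3 * m ^ n`. Now `(colr S c).card ^ 3` is the number of the triples `(i, j, l) ∈ S ^ 3` with
`c i = c j = c l = 0`, and for a triple with `r` different members the number of `c` is `m ^ (n - r)` (as in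
`ACol`: `Fintype.piFinset`). The numbers of triples with 1, 2, 3 different members are at most `N`, `3 N ^ 2`, `N ^ 3`
(`N`, `3 N (N - 1)`, `N (N-1) (N-2)`). So the sum is at most `m ^ n * (N / m + 3 * (N / m) ^ 2 + (N / m) ^ 3) ≤ 7 λ ^ 3 m ^ n`.
(Alternative: with `B c = (colr S c).card`, `B ^ 3 = 6 * B.choose 3 + 6 * B.choose 2 + B.choose 1` and
`∑ c, (B c).choose r = N.choose r * m ^ (n - r)`.)
-/

set_option autoImplicit false

namespace UF.FP

variable {n : ℕ}

private theorem momCnt {k : ℕ} (A : Finset (Fin n)) :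
    (Finset.univ.filter fun c : Fin n → Fin (k + 1) => ∀ i ∈ A, c i = 0).card * (k + 1) ^ A.card =
      (k + 1) ^ n := by
  classical
  have h1 : (Finset.univ.filter fun c : Fin n → Fin (k + 1) => ∀ i ∈ A, c i = 0) =
      Fintype.piFinset (fun i => if i ∈ A then ({0} : Finset (Fin (k + 1))) else Finset.univ) := by
    ext c
    rw [Finset.mem_filter, Fintype.mem_piFinset]
    constructor
    · rintro ⟨-, h⟩ i
      by_cases hi : i ∈ A
      · rw [if_pos hi, Finset.mem_singleton]; exact h i hi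
      · rw [if_neg hi]; exact Finset.mem_univ _
    · intro h
      refine ⟨Finset.mem_univ _, fun i hi => ?_⟩
      have := h i
      rwa [if_pos hi, Finset.mem_singleton] at this
  have h2 : ((k : ℕ) + 1) ^ A.card = ∏ i : Fin n, if i ∈ A then (k + 1) else 1 := by
    rw [Finset.prod_ite_mem, Finset.univ_inter, Finset.prod_const]
  rw [h1, Fintype.card_piFinset, h2, ← Finset.prod_mul_distrib]
  have h3 : ∀ i : Fin n, (if i ∈ A then ({0} : Finset (Fin (k + 1))) else Finset.univ).card *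
      (if i ∈ A then (k + 1) else 1) = k + 1 := by
    intro i
    by_cases hi : i ∈ A
    · rw [if_pos hi, if_pos hi, Finset.card_singleton, one_mul]
    · rw [if_neg hi, if_neg hi, Finset.card_univ, Fintype.card_fin, mul_one]
  rw [Finset.prod_congr rfl fun i _ => h3 i, Finset.prod_const, Finset.card_univ, Fintype.card_fin]

private theorem momDbl (S : Finset (Fin n)) (k r : ℕ) :
    (∑ c : Fin n → Fin (k + 1), (colr S c).card.choose r) * (k + 1) ^ r =
      S.card.choose r * (k + 1) ^ n := by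
  classical
  have h1 : ∀ c : Fin n → Fin (k + 1), (colr S c).card.choose r =
      ((S.powersetCard r).bipartiteAbove (fun (c : Fin n → Fin (k + 1)) (A : Finset (Fin n)) =>
        ∀ i ∈ A, c i = 0) c).card := by
    intro c
    rw [← Finset.card_powersetCard]
    congr 1
    ext A
    rw [Finset.mem_powersetCard, Finset.bipartiteAbove, Finset.mem_filter, Finset.mem_powersetCard]
    constructor
    · rintro ⟨h, h'⟩
      exact ⟨⟨fun i hi => (Finset.mem_filter.1 (h hi)).1, h'⟩, fun i hi =>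
        (Finset.mem_filter.1 (h hi)).2⟩
    · rintro ⟨⟨h, h'⟩, h2⟩
      exact ⟨fun i hi => Finset.mem_filter.2 ⟨h hi, h2 i hi⟩, h'⟩
  rw [Finset.sum_congr rfl fun c _ => h1 c,
    Finset.sum_card_bipartiteAbove_eq_sum_card_bipartiteBelow, Finset.sum_mul]
  have h2 : ∀ A ∈ S.powersetCard r, ((Finset.univ : Finset (Fin n → Fin (k + 1))).bipartiteBelow
      (fun (c : Fin n → Fin (k + 1)) (A : Finset (Fin n)) => ∀ i ∈ A, c i = 0) A).card *
      (k + 1) ^ r = (k + 1) ^ n := by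
    intro A hA
    rw [← (Finset.mem_powersetCard.1 hA).2]
    exact momCnt A
  rw [Finset.sum_congr rfl h2, Finset.sum_const, Finset.card_powersetCard, smul_eq_mul]

private theorem momCh2 (B : ℕ) : 2 * B.choose 2 + B = B ^ 2 := by
  induction B with
  | zero => rfl
  | succ B ih =>
    rw [Nat.choose_succ_succ' B 1, Nat.choose_one_right]
    nlinarith

private theorem momCh3 (B : ℕ) : 6 * B.choose 3 + 6 * B.choose 2 + B.choose 1 = B ^ 3 := by
  induction B with
  | zero => rfl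
  | succ B ih =>
    have h2 := momCh2 B
    rw [Nat.choose_one_right] at ih
    rw [Nat.choose_succ_succ' B 2, Nat.choose_succ_succ' B 1, Nat.choose_one_right,
      Nat.choose_one_right]
    nlinarith

private theorem momPt {x L ε : ℝ} (hx : 0 ≤ x) (hL : 0 < L) (h0 : 0 < ε) (h1 : ε ≤ 1) :
    x ^ (2 + ε) ≤ L ^ (2 + ε) * (1 + (x / L) ^ 3) := by
  have e : x = L * (x / L) := by field_simp
  have hu : 0 ≤ x / L := div_nonneg hx hL.le
  have h2 : (x / L) ^ (2 + ε) ≤ 1 + (x / L) ^ 3 := by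
    rcases le_total (x / L) 1 with h | h
    · have := Real.rpow_le_one hu h (by linarith : 0 ≤ 2 + ε)
      have := pow_nonneg hu 3
      linarith
    · have h3 : (x / L) ^ (2 + ε) ≤ (x / L) ^ (3 : ℝ) :=
        Real.rpow_le_rpow_of_exponent_le h (by linarith)
      have h4 : (x / L) ^ (3 : ℝ) = (x / L) ^ 3 := by
        rw [← Real.rpow_natCast]
        norm_num
      rw [h4] at h3
      exact h3.trans (le_add_of_nonneg_left zero_le_one)
  calc x ^ (2 + ε) = (L * (x / L)) ^ (2 + ε) := by rw [← e]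
    _ = L ^ (2 + ε) * (x / L) ^ (2 + ε) := Real.mul_rpow hL.le hu
    _ ≤ _ := mul_le_mul_of_nonneg_left h2 (Real.rpow_nonneg hL.le _)

theorem moment (S : Finset (Fin n)) (k : ℕ) (hk : k + 1 ≤ S.card) (ε : ℝ) (h0 : 0 < ε)
    (h1 : ε ≤ 1) :
    ∑ c : Fin n → Fin (k + 1), ((colr S c).card : ℝ) ^ (2 + ε)
      ≤ 9 * ((S.card : ℝ) / (k + 1)) ^ (2 + ε) * ((k : ℝ) + 1) ^ n := by
  have hm : (0 : ℝ) < (k : ℝ) + 1 := by positivity
  obtain ⟨L, hL⟩ : ∃ L : ℝ, L = (S.card : ℝ) / (k + 1) := ⟨_, rfl⟩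
  have hL1 : 1 ≤ L := by
    rw [hL, le_div_iff₀ hm, one_mul]
    exact_mod_cast hk
  have hL0 : 0 < L := by linarith
  have hr : ∀ r : ℕ, ∑ c : Fin n → Fin (k + 1), ((colr S c).card.choose r : ℝ) ≤
      L ^ r / (r.factorial : ℝ) * ((k : ℝ) + 1) ^ n := by
    intro r
    have e1 : (∑ c : Fin n → Fin (k + 1), ((colr S c).card.choose r : ℝ)) * ((k : ℝ) + 1) ^ r =
        (S.card.choose r : ℝ) * ((k : ℝ) + 1) ^ n := by
      exact_mod_cast momDbl S k r
    have e2 : (S.card.choose r : ℝ) ≤ (S.card : ℝ) ^ r / (r.factorial : ℝ) :=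
      Nat.choose_le_pow_div r S.card
    have e3 : 0 < ((k : ℝ) + 1) ^ r := by positivity
    have e4 : (∑ c : Fin n → Fin (k + 1), ((colr S c).card.choose r : ℝ)) =
        (S.card.choose r : ℝ) * ((k : ℝ) + 1) ^ n / ((k : ℝ) + 1) ^ r := by
      rw [eq_div_iff e3.ne']; exact e1
    rw [e4, hL, div_pow]
    calc (S.card.choose r : ℝ) * ((k : ℝ) + 1) ^ n / ((k : ℝ) + 1) ^ r
        ≤ (S.card : ℝ) ^ r / (r.factorial : ℝ) * ((k : ℝ) + 1) ^ n / ((k : ℝ) + 1) ^ r := by
          refine div_le_div_of_nonneg_right ?_ e3.le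
          exact mul_le_mul_of_nonneg_right e2 (by positivity)
      _ = _ := by ring
  have hcube : ∑ c : Fin n → Fin (k + 1), ((colr S c).card : ℝ) ^ 3 ≤
      5 * L ^ 3 * ((k : ℝ) + 1) ^ n := by
    have e : ∀ c : Fin n → Fin (k + 1), ((colr S c).card : ℝ) ^ 3 =
        6 * ((colr S c).card.choose 3 : ℝ) + 6 * ((colr S c).card.choose 2 : ℝ) +
          ((colr S c).card.choose 1 : ℝ) := by
      intro c
      exact_mod_cast (momCh3 (colr S c).card).symm
    rw [Finset.sum_congr rfl fun c _ => e c, Finset.sum_add_distrib, Finset.sum_add_distrib,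
      ← Finset.mul_sum, ← Finset.mul_sum]
    have r1 := hr 1
    have r2 := hr 2
    have r3 := hr 3
    have f1 : ((1 : ℕ).factorial : ℝ) = 1 := by norm_num [Nat.factorial]
    have f2 : ((2 : ℕ).factorial : ℝ) = 2 := by norm_num [Nat.factorial]
    have f3 : ((3 : ℕ).factorial : ℝ) = 6 := by norm_num [Nat.factorial]
    rw [f1] at r1
    rw [f2] at r2
    rw [f3] at r3
    have hP : 0 < ((k : ℝ) + 1) ^ n := by positivity
    have g1 : L ≤ L ^ 3 := by nlinarith [mul_pos hL0 hL0, mul_nonneg hL0.le (sub_nonneg.2 hL1)]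
    have g2 : L ^ 2 ≤ L ^ 3 := by nlinarith [mul_pos hL0 hL0]
    have g3 : L * ((k : ℝ) + 1) ^ n ≤ L ^ 3 * ((k : ℝ) + 1) ^ n :=
      mul_le_mul_of_nonneg_right g1 hP.le
    have g4 : L ^ 2 * ((k : ℝ) + 1) ^ n ≤ L ^ 3 * ((k : ℝ) + 1) ^ n :=
      mul_le_mul_of_nonneg_right g2 hP.le
    have q1 : L ^ 1 / 1 * ((k : ℝ) + 1) ^ n = L * ((k : ℝ) + 1) ^ n := by ring
    have q2 : 6 * (L ^ 2 / 2 * ((k : ℝ) + 1) ^ n) = 3 * (L ^ 2 * ((k : ℝ) + 1) ^ n) := by ring
    have q3 : 6 * (L ^ 3 / 6 * ((k : ℝ) + 1) ^ n) = L ^ 3 * ((k : ℝ) + 1) ^ n := by ring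
    linarith
  rw [← hL]
  have hLp : 0 < L ^ (2 + ε) := Real.rpow_pos_of_pos hL0 _
  calc ∑ c : Fin n → Fin (k + 1), ((colr S c).card : ℝ) ^ (2 + ε)
      ≤ ∑ c : Fin n → Fin (k + 1), L ^ (2 + ε) * (1 + ((colr S c).card / L : ℝ) ^ 3) :=
        Finset.sum_le_sum fun c _ => momPt (Nat.cast_nonneg _) hL0 h0 h1
    _ = L ^ (2 + ε) * (((k : ℝ) + 1) ^ n +
          (∑ c : Fin n → Fin (k + 1), ((colr S c).card : ℝ) ^ 3) / L ^ 3) := by
        rw [← Finset.mul_sum, Finset.sum_add_distrib, Finset.sum_const, Finset.card_univ,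
          Fintype.card_fun, Fintype.card_fin, Fintype.card_fin, nsmul_eq_mul, mul_one,
          Finset.sum_div]
        congr 2
        · push_cast
          ring
        · exact Finset.sum_congr rfl fun c _ => div_pow _ _ _
    _ ≤ L ^ (2 + ε) * (((k : ℝ) + 1) ^ n + 5 * ((k : ℝ) + 1) ^ n) := by
        refine mul_le_mul_of_nonneg_left ?_ hLp.le
        refine add_le_add le_rfl ?_
        rw [div_le_iff₀ (by positivity)]
        linarith
    _ ≤ 9 * L ^ (2 + ε) * ((k : ℝ) + 1) ^ n := by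
        have : 0 < L ^ (2 + ε) * ((k : ℝ) + 1) ^ n := by positivity
        nlinarith

end UF.FP
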