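import Pool.Agent.Work.MP_4c5ddc_co.FP.ACol
import Pool.Agent.Work.MP_4c5ddc_co.FP.AMom

/-!
# FP/ACS (S: Clarkson-Shor bound)

PROOF. `colour_count`, the hypothesis for the samples `colr S c ⊆ S` (if the sample is empty then `Vs F ∅ 0 = ∅`: `F.bd x ⊆ ∅` is
impossible for `(F.bd x).card = 3`; this is also contained in the hypothesis `hA` for `S' = ∅`, as `0 ^ (2 + ε) = 0`), `moment`:
`(k+1) ^ n * v ≤ 3 (k+1) ^ 3 * A * 9 * (N / (k+1)) ^ (2+ε) * (k+1) ^ n`; divide by `(k+1) ^ n`, and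
`(k+1) ^ 3 / (k+1) ^ (2 + ε) = (k+1) ^ (1 - ε)` (`Real.rpow_sub`, `Real.div_rpow`).
-/

set_option autoImplicit false

namespace UF.FP

variable {n : ℕ} {α : ℝ} {s : ℕ} {F : Fam n}

theorem clarkson_shor (hF : Good α s F) (S : Finset (Fin n)) (ε A : ℝ) (h0 : 0 < ε) (h1 : ε ≤ 1)
    (hA0 : 0 ≤ A)
    (hA : ∀ S' ⊆ S, ((Vs F S' 0).ncard : ℝ) ≤ A * (S'.card : ℝ) ^ (2 + ε)) (k : ℕ)
    (hk : k + 1 ≤ S.card) :
    ((Vs F S k).ncard : ℝ) ≤ 27 * A * ((k : ℝ) + 1) ^ (1 - ε) * (S.card : ℝ) ^ (2 + ε) := by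
  have hk0 : (0 : ℝ) < (k : ℝ) + 1 := by positivity
  have hc := colour_count hF S k
  have hs : ∑ c : Fin n → Fin (k + 1), ((Vs F (colr S c) 0).ncard : ℝ)
      ≤ A * (9 * ((S.card : ℝ) / (k + 1)) ^ (2 + ε) * ((k : ℝ) + 1) ^ n) := by
    calc ∑ c : Fin n → Fin (k + 1), ((Vs F (colr S c) 0).ncard : ℝ)
        ≤ ∑ c : Fin n → Fin (k + 1), A * ((colr S c).card : ℝ) ^ (2 + ε) :=
          Finset.sum_le_sum fun c _ => hA _ (Finset.filter_subset _ _)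
      _ = A * ∑ c : Fin n → Fin (k + 1), ((colr S c).card : ℝ) ^ (2 + ε) := by
          rw [Finset.mul_sum]
      _ ≤ _ := mul_le_mul_of_nonneg_left (moment S k hk ε h0 h1) hA0
  have hpn : (0 : ℝ) < ((k : ℝ) + 1) ^ n := by positivity
  have h2 : ((k : ℝ) + 1) ^ n * ((Vs F S k).ncard : ℝ)
      ≤ ((k : ℝ) + 1) ^ n * (27 * A * (((k : ℝ) + 1) ^ 3 * ((S.card : ℝ) / (k + 1)) ^ (2 + ε))) := by
    calc ((k : ℝ) + 1) ^ n * ((Vs F S k).ncard : ℝ)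
        ≤ 3 * ((k : ℝ) + 1) ^ 3 * ∑ c : Fin n → Fin (k + 1), ((Vs F (colr S c) 0).ncard : ℝ) := hc
      _ ≤ 3 * ((k : ℝ) + 1) ^ 3
          * (A * (9 * ((S.card : ℝ) / (k + 1)) ^ (2 + ε) * ((k : ℝ) + 1) ^ n)) := by gcongr
      _ = _ := by ring
  have h3 := le_of_mul_le_mul_left h2 hpn
  refine h3.trans (le_of_eq ?_)
  have h4 : ((k : ℝ) + 1) ^ 3 * ((S.card : ℝ) / (k + 1)) ^ (2 + ε)
      = ((k : ℝ) + 1) ^ (1 - ε) * (S.card : ℝ) ^ (2 + ε) := by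
    rw [Real.div_rpow (by positivity) hk0.le]
    have h5 : ((k : ℝ) + 1) ^ (1 - ε) * ((k : ℝ) + 1) ^ (2 + ε) = ((k : ℝ) + 1) ^ 3 := by
      rw [← Real.rpow_add hk0, ← Real.rpow_natCast]
      congr 1
      push_cast
      ring
    have h6 : ((k : ℝ) + 1) ^ (2 + ε) ≠ 0 := (Real.rpow_pos_of_pos hk0 _).ne'
    rw [← h5]
    field_simp
  rw [h4]
  ring

end UF.FP
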