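import Pool.Agent.Work.MP_4c5ddc_co.FP.ABas
import Pool.Agent.Work.MP_4c5ddc_co.CO.Imp

/-!
# FP/ACnt (S-M: the numbers of proper points of a triple and of improper points)

PROOF.
`Vt_count`: let `t.card = 3`, `t = {a, b, c}` (`Finset.card_eq_three`). Map `x ∈ Vt F t` to the triple of its (unique)
tight normals `(ν₁, ν₂, ν₃) ∈ N a × N b × N c`. The map is injective by `CO.coord_inj` (`prp_indep`), so
`Vt F t` is finite and has at most `s ^ 3` elements (`hF.card`). (Finiteness also from `hF.fin`.)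
`Imp_count`: as in `CO/Imp` (`improper_bound`): the set is contained in the image of the finite set
`{(i, j, ν₁, ν₂, ν₃) : i, j ∈ S, ν₁, ν₂ ∈ N i, ν₃ ∈ N j}` (a `Finset.sigma`, or the union over `(i, j) ∈ S ×ˢ S` of
images of `N i ×ˢ N i ×ˢ N j`) under a function which chooses the unique point with the three
equations; the number of the data is at most `S.card ^ 2 * s ^ 3`.
`cp_dep`: for `x ∈ Vt F t`, `t ⊆ S`: a body `d ∈ S` with `x ∈ interior (K d)` is not in `t` (`not_int`, `bd_iff`),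
and a body `d ∈ S \ t` with `x ∈ K d` has `x` in the interior, because otherwise `d ∈ F.bd x = t` (`int_of`). So the two
finsets are equal.
-/

set_option autoImplicit false

namespace UF.FP

variable {n : ℕ} {α : ℝ} {s : ℕ} {F : Fam n}

theorem Vt_count (hF : Good α s F) {t : Finset (Fin n)} (ht : t.card = 3) :
    (Vt F t).Finite ∧ (Vt F t).ncard ≤ s ^ 3 := by
  classical
  obtain ⟨a, b, c, hab, hac, hbc, rfl⟩ := Finset.card_eq_three.1 ht
  have hfin : (Vt F {a, b, c}).Finite := hF.fin.subset fun x hx => hx.1.1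
  refine ⟨hfin, ?_⟩
  have hK : ∀ x ∈ Vt F {a, b, c}, ∀ i ∈ ({a, b, c} : Finset (Fin n)), ∃ ν, F.Tight i ν x :=
    fun x hx i hi => (bd_iff.1 (by rw [hx.2]; exact hi)).2
  let φ : Fin n → E3 → E3 := fun i x => if h : ∃ ν, F.Tight i ν x then h.choose else 0
  have hφ : ∀ x ∈ Vt F {a, b, c}, ∀ i ∈ ({a, b, c} : Finset (Fin n)), F.Tight i (φ i x) x := by
    intro x hx i hi
    have h := hK x hx i hi
    have : φ i x = h.choose := dif_pos h
    rw [this]
    exact h.choose_spec
  have ha : a ∈ ({a, b, c} : Finset (Fin n)) := by simp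
  have hb : b ∈ ({a, b, c} : Finset (Fin n)) := by simp
  have hc : c ∈ ({a, b, c} : Finset (Fin n)) := by simp
  let Φ : E3 → E3 × E3 × E3 := fun x => (φ a x, φ b x, φ c x)
  have hinj : Set.InjOn Φ (Vt F {a, b, c}) := by
    intro x hx y hy hxy
    have e1 : φ a x = φ a y := congrArg (fun p : E3 × E3 × E3 => p.1) hxy
    have e2 : φ b x = φ b y := congrArg (fun p : E3 × E3 × E3 => p.2.1) hxy
    have e3 : φ c x = φ c y := congrArg (fun p : E3 × E3 × E3 => p.2.2) hxy
    have hli := prp_indep hF hx.1 hab hac hbc (by rw [hx.2]; exact ha) (by rw [hx.2]; exact hb)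
      (by rw [hx.2]; exact hc) (hφ x hx a ha) (hφ x hx b hb) (hφ x hx c hc)
    refine CO.coord_inj hli ?_ ?_ ?_
    · rw [(hφ x hx a ha).2]
      have := (hφ y hy a ha).2
      rw [← e1] at this
      exact this.symm
    · rw [(hφ x hx b hb).2]
      have := (hφ y hy b hb).2
      rw [← e2] at this
      exact this.symm
    · rw [(hφ x hx c hc).2]
      have := (hφ y hy c hc).2
      rw [← e3] at this
      exact this.symm
  let X : Finset (E3 × E3 × E3) := F.N a ×ˢ (F.N b ×ˢ F.N c)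
  have hmaps : ∀ x ∈ Vt F {a, b, c}, Φ x ∈ (X : Set (E3 × E3 × E3)) := by
    intro x hx
    rw [Finset.mem_coe, Finset.mem_product, Finset.mem_product]
    exact ⟨(hφ x hx a ha).1, (hφ x hx b hb).1, (hφ x hx c hc).1⟩
  calc (Vt F {a, b, c}).ncard ≤ (X : Set (E3 × E3 × E3)).ncard :=
        Set.ncard_le_ncard_of_injOn Φ hmaps hinj X.finite_toSet
    _ = X.card := Set.ncard_coe_finset _
    _ = (F.N a).card * ((F.N b).card * (F.N c).card) := by
        rw [Finset.card_product, Finset.card_product]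
    _ ≤ s * (s * s) := Nat.mul_le_mul (hF.card a) (Nat.mul_le_mul (hF.card b) (hF.card c))
    _ = s ^ 3 := by ring

theorem Imp_count (hF : Good α s F) (S : Finset (Fin n)) :
    (ImpS F S).Finite ∧ (ImpS F S).ncard ≤ s ^ 3 * S.card ^ 2 := by
  classical
  let R : Fin n × Fin n → E3 × E3 × E3 → E3 → Prop := fun e m v =>
    LinearIndependent ℝ ![m.1, m.2.1, m.2.2] ∧ F.Tight e.1 m.1 v ∧ F.Tight e.1 m.2.1 v ∧
      F.Tight e.2 m.2.2 v
  let G : Fin n × Fin n → E3 × E3 × E3 → E3 := fun e m =>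
    if hv : ∃ v, R e m v then hv.choose else 0
  let X : Fin n × Fin n → Finset E3 := fun e =>
    (F.N e.1 ×ˢ (F.N e.1 ×ˢ F.N e.2)).image (G e)
  have hsub : ImpS F S ⊆ (((S ×ˢ S).biUnion X : Finset E3) : Set E3) := by
    rintro v ⟨i, hi, j, hj, ν₁, ν₂, ν₃, hl, h1, h2, h3⟩
    rw [Finset.mem_coe, Finset.mem_biUnion]
    refine ⟨(i, j), Finset.mem_product.2 ⟨hi, hj⟩, Finset.mem_image.2 ⟨(ν₁, ν₂, ν₃), ?_, ?_⟩⟩
    · rw [Finset.mem_product, Finset.mem_product]
      exact ⟨h1.1, h2.1, h3.1⟩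
    · have hv : ∃ w, R (i, j) (ν₁, ν₂, ν₃) w := ⟨v, hl, h1, h2, h3⟩
      have hG : G (i, j) (ν₁, ν₂, ν₃) = hv.choose := dif_pos hv
      rw [hG]
      obtain ⟨-, f1, f2, f3⟩ := hv.choose_spec
      exact CO.coord_inj hl (f1.2.trans h1.2.symm) (f2.2.trans h2.2.symm) (f3.2.trans h3.2.symm)
  have hfin : (((S ×ˢ S).biUnion X : Finset E3) : Set E3).Finite := Finset.finite_toSet _
  refine ⟨hfin.subset hsub, ?_⟩
  calc (ImpS F S).ncard ≤ (((S ×ˢ S).biUnion X : Finset E3) : Set E3).ncard :=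
        Set.ncard_le_ncard hsub hfin
    _ = ((S ×ˢ S).biUnion X).card := Set.ncard_coe_finset _
    _ ≤ ∑ e ∈ S ×ˢ S, (X e).card := Finset.card_biUnion_le
    _ ≤ ∑ _e ∈ S ×ˢ S, s ^ 3 := by
        refine Finset.sum_le_sum fun e _ => ?_
        calc (X e).card ≤ (F.N e.1 ×ˢ (F.N e.1 ×ˢ F.N e.2)).card := Finset.card_image_le
          _ = (F.N e.1).card * ((F.N e.1).card * (F.N e.2).card) := by
              rw [Finset.card_product, Finset.card_product]
          _ ≤ s * (s * s) :=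
              Nat.mul_le_mul (hF.card _) (Nat.mul_le_mul (hF.card _) (hF.card _))
          _ = s ^ 3 := by ring
    _ = s ^ 3 * S.card ^ 2 := by
        rw [Finset.sum_const, smul_eq_mul, Finset.card_product]
        ring

theorem cp_dep (hF : Good α s F) {S t : Finset (Fin n)} (ht : t ⊆ S) {x : E3} (hx : x ∈ Vt F t) :
    cp F S t {x} = dep F S x := by
  classical
  have h : ((S \ t).filter fun d => (F.K d ∩ {x}).Nonempty)
      = S.filter fun d => x ∈ interior (F.K d) := by
    ext d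
    simp only [Finset.mem_filter, Finset.mem_sdiff]
    constructor
    · rintro ⟨⟨h1, h2⟩, z, hz1, hz2⟩
      have hzx : z = x := hz2
      subst hzx
      refine ⟨h1, int_of hF hz1 fun ν hν => h2 ?_⟩
      rw [← hx.2]
      exact bd_iff.2 ⟨hz1, ν, hν⟩
    · rintro ⟨h1, h2⟩
      refine ⟨⟨h1, fun h3 => ?_⟩, x, interior_subset h2, rfl⟩
      rw [← hx.2] at h3
      obtain ⟨-, ν, hν⟩ := bd_iff.1 h3
      exact not_int hF hν h2
  calc cp F S t {x} = ((S \ t).filter fun d => (F.K d ∩ {x}).Nonempty).card := rfl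
    _ = (S.filter fun d => x ∈ interior (F.K d)).card := by rw [h]
    _ = dep F S x := rfl

end UF.FP
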