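import Pool.Agent.Work.MP_4c5ddc_co.FP.ASk
import Pool.Agent.Work.MP_4c5ddc_co.FP.ACnt

/-!
# FP/ACf (S-M: few bodies meet the skeleton)

PROOF. Every `d ∈ S \ t` with `K d ∩ Skel F t ≠ ∅` meets some edge `[w, y]`, `w ∈ Vt F t`, `c ∈ t` (`skel_cover`); `y` is determined by
`(w, c)` (`edge_uniq`). There are at most `s ^ 3 * 3` pairs `(w, c)` (`Vt_count`), and for each of them fewer than `T`
bodies `d ∈ S \ t` meet the edge. So the number is at most `3 * s ^ 3 * T` (`Finset.card_biUnion_le`).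
-/

set_option autoImplicit false

namespace UF.FP

variable {n : ℕ} {α : ℝ} {s : ℕ} {F : Fam n}

theorem conf_bound (hF : Good α s F) {S t : Finset (Fin n)} (ht : t.card = 3) (hRF : RF F t)
    {T : ℕ} (h : ∀ w c y, Edge F t c w y → cp F S t (segment ℝ w y) < T) :
    cp F S t (Skel F t) ≤ 3 * s ^ 3 * T := by
  classical
  obtain ⟨hfin, hcard⟩ := Vt_count hF ht
  let Q : E3 × Fin n → Finset (Fin n) := fun e =>
    (S \ t).filter fun d => ∃ y, Edge F t e.2 e.1 y ∧ (F.K d ∩ segment ℝ e.1 y).Nonempty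
  have hQ : ∀ e, (Q e).card ≤ T := by
    intro e
    rcases (Q e).eq_empty_or_nonempty with h0 | ⟨d, hd⟩
    · rw [h0]; simp
    · obtain ⟨-, y, he, -⟩ := Finset.mem_filter.1 hd
      have hsub : Q e ⊆ (S \ t).filter fun d => (F.K d ∩ segment ℝ e.1 y).Nonempty := by
        intro d' hd'
        obtain ⟨hd1, y', he', hn⟩ := Finset.mem_filter.1 hd'
        rw [← edge_uniq he he'] at hn
        exact Finset.mem_filter.2 ⟨hd1, hn⟩
      have h2 := h _ _ _ he
      refine (Finset.card_le_card hsub).trans (le_of_lt ?_)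
      exact h2
  have hcov : ((S \ t).filter fun d => (F.K d ∩ Skel F t).Nonempty)
      ⊆ (hfin.toFinset ×ˢ t).biUnion Q := by
    intro d hd
    obtain ⟨hd1, z, hz1, hz2⟩ := Finset.mem_filter.1 hd
    obtain ⟨w, c, y, he, hz⟩ := skel_cover hF ht hRF hz2
    rw [Finset.mem_biUnion]
    refine ⟨(w, c), Finset.mem_product.2 ⟨hfin.mem_toFinset.2 he.vt, he.mem⟩, ?_⟩
    exact Finset.mem_filter.2 ⟨hd1, y, he, z, hz1, hz⟩
  calc cp F S t (Skel F t) = ((S \ t).filter fun d => (F.K d ∩ Skel F t).Nonempty).card := rfl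
    _ ≤ ((hfin.toFinset ×ˢ t).biUnion Q).card := Finset.card_le_card hcov
    _ ≤ ∑ e ∈ hfin.toFinset ×ˢ t, (Q e).card := Finset.card_biUnion_le
    _ ≤ ∑ _e ∈ hfin.toFinset ×ˢ t, T := Finset.sum_le_sum fun e _ => hQ e
    _ = (Vt F t).ncard * 3 * T := by
        rw [Finset.sum_const, smul_eq_mul, Finset.card_product, ht,
          Set.ncard_eq_toFinset_card _ hfin]
    _ ≤ s ^ 3 * 3 * T := by gcongr
    _ = 3 * s ^ 3 * T := by ring

end UF.FP
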