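import Pool.Agent.Work.MP_4c5ddc_co.FP.ABas

/-!
# FP/ACol (M: Clarkson-Shor, the probability that a point survives)

PROOF. All colourings `c : Fin n → Fin (k + 1)` of the bodies, `S' = colr S c` (colour 0). Double counting:
`∑ c, (Vs F (colr S c) 0).ncard ≥ ∑ x ∈ Vs F S k, #{c : x ∈ Vs F (colr S c) 0}` (all `Vs` are finite, `hF.fin`).
For `x ∈ Vs F S k` let `B = F.bd x` (3 elements, `⊆ S`), `D = {d ∈ S : x ∈ interior (K d)}` (`D.card ≤ k`, disjoint from `B` by
`not_int`). If `c i = 0` for `i ∈ B` and `c d ≠ 0` for `d ∈ D` then `x ∈ Vs F (colr S c) 0`. The number of these `c` is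
`1 ^ 3 * k ^ D.card * (k + 1) ^ (n - 3 - D.card)` (`Fintype.card_pi` / `Fintype.piFinset`: the set of these `c` is
`Fintype.piFinset fun i => if i ∈ B then {0} else if i ∈ D then univ.erase 0 else univ`, `Fintype.card_piFinset`). So
`3 * (k + 1) ^ 3 * #{c} ≥ (k + 1) ^ n`, because `3 * k ^ D.card ≥ (k + 1) ^ D.card` for `D.card ≤ k`:
`((k + 1) / k) ^ k ≤ e < 3` (for `k = 0`: `D = ∅`; for `k ≥ 1`: `(1 + 1 / k) ^ k ≤ Real.exp 1 < 3`,
`Real.exp_one_lt_d9` resp. `Real.exp_one_lt_three`, `Real.add_one_le_exp`).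
-/

set_option autoImplicit false

namespace UF.FP

variable {n : ℕ} {α : ℝ} {s : ℕ} {F : Fam n}

private theorem colNum {k j : ℕ} (hj : j ≤ k) : ((k : ℝ) + 1) ^ j ≤ 3 * (k : ℝ) ^ j := by
  rcases Nat.eq_zero_or_pos k with rfl | hk
  · have : j = 0 := by omega
    subst this
    norm_num
  · have hk' : (0 : ℝ) < k := by exact_mod_cast hk
    have h1 : (1 + 1 / (k : ℝ)) ^ j ≤ 3 := by
      have h2 : (1 + 1 / (k : ℝ)) ^ j ≤ (1 + 1 / (k : ℝ)) ^ k :=
        pow_le_pow_right₀ (by have : 0 < 1 / (k : ℝ) := by positivity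
                              linarith) hj
      have h3 : (1 + 1 / (k : ℝ)) ^ k ≤ (Real.exp (1 / (k : ℝ))) ^ k := by
        refine pow_le_pow_left₀ (by positivity) ?_ k
        have := Real.add_one_le_exp (1 / (k : ℝ))
        linarith
      have h4 : (Real.exp (1 / (k : ℝ))) ^ k = Real.exp 1 := by
        rw [← Real.exp_nat_mul]
        congr 1
        field_simp
      have h5 : Real.exp 1 ≤ 3 := by
        have := Real.exp_one_lt_d9
        linarith
      linarith
    have h6 : ((k : ℝ) + 1) ^ j = (1 + 1 / (k : ℝ)) ^ j * (k : ℝ) ^ j := by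
      rw [← mul_pow]
      congr 1
      field_simp
    rw [h6]
    exact mul_le_mul_of_nonneg_right h1 (by positivity)

private theorem colCnt {k : ℕ} (B D : Finset (Fin n)) (hBD : Disjoint B D) :
    (Finset.univ.filter fun c : Fin n → Fin (k + 1) => (∀ i ∈ B, c i = 0) ∧ ∀ i ∈ D, c i ≠ 0).card *
      ((k + 1) ^ B.card * (k + 1) ^ D.card) = k ^ D.card * (k + 1) ^ n := by
  classical
  have h1 : (Finset.univ.filter fun c : Fin n → Fin (k + 1) =>
      (∀ i ∈ B, c i = 0) ∧ ∀ i ∈ D, c i ≠ 0) =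
      Fintype.piFinset (fun i => if i ∈ B then ({0} : Finset (Fin (k + 1))) else
        if i ∈ D then Finset.univ.erase 0 else Finset.univ) := by
    ext c
    rw [Finset.mem_filter, Fintype.mem_piFinset]
    constructor
    · rintro ⟨-, h, h'⟩ i
      by_cases hi : i ∈ B
      · rw [if_pos hi, Finset.mem_singleton]; exact h i hi
      · rw [if_neg hi]
        by_cases hi' : i ∈ D
        · rw [if_pos hi', Finset.mem_erase]
          exact ⟨h' i hi', Finset.mem_univ _⟩
        · rw [if_neg hi']; exact Finset.mem_univ _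
    · intro h
      refine ⟨Finset.mem_univ _, fun i hi => ?_, fun i hi => ?_⟩
      · have := h i
        rwa [if_pos hi, Finset.mem_singleton] at this
      · have := h i
        rw [if_neg (fun hb => Finset.disjoint_left.1 hBD hb hi), if_pos hi, Finset.mem_erase] at this
        exact this.1
  have hp : ∀ (A : Finset (Fin n)) (a : ℕ), a ^ A.card = ∏ i : Fin n, if i ∈ A then a else 1 := by
    intro A a
    rw [Finset.prod_ite_mem, Finset.univ_inter, Finset.prod_const]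
  have hn : (k + 1) ^ n = ∏ _i : Fin n, (k + 1) := by
    rw [Finset.prod_const, Finset.card_univ, Fintype.card_fin]
  rw [h1, Fintype.card_piFinset, hp B, hp D, hp D, hn, ← Finset.prod_mul_distrib,
    ← Finset.prod_mul_distrib, ← Finset.prod_mul_distrib]
  refine Finset.prod_congr rfl fun i _ => ?_
  by_cases hi : i ∈ B
  · have hi' : i ∉ D := fun h => Finset.disjoint_left.1 hBD hi h
    rw [if_pos hi, if_pos hi, if_neg hi', if_neg hi', Finset.card_singleton]
    ring
  · rw [if_neg hi, if_neg hi]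
    by_cases hi' : i ∈ D
    · rw [if_pos hi', if_pos hi', if_pos hi', Finset.card_erase_of_mem (Finset.mem_univ _),
        Finset.card_univ, Fintype.card_fin]
      simp only [Nat.add_sub_cancel]
      ring
    · rw [if_neg hi', if_neg hi', if_neg hi', Finset.card_univ, Fintype.card_fin]
      ring

private theorem colPt (hF : Good α s F) (S : Finset (Fin n)) (k : ℕ) {x : E3} (hx : x ∈ Vs F S k) :
    ((k : ℝ) + 1) ^ n ≤ 3 * ((k : ℝ) + 1) ^ 3 *
      ({c : Fin n → Fin (k + 1) | x ∈ Vs F (colr S c) 0}.ncard : ℝ) := by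
  classical
  obtain ⟨hP, hBS, hdep⟩ := hx
  obtain ⟨D, hD⟩ : ∃ D : Finset (Fin n), D = S.filter fun d => x ∈ interior (F.K d) := ⟨_, rfl⟩
  have hDc : D.card ≤ k := by
    rw [hD]
    refine le_trans (le_of_eq ?_) hdep
    rw [dep]
  have hdis : Disjoint (F.bd x) D := by
    rw [Finset.disjoint_left]
    intro i hi hiD
    obtain ⟨-, ν, hν⟩ := bd_iff.1 hi
    rw [hD] at hiD
    exact not_int hF hν (Finset.mem_filter.1 hiD).2
  have hsub : ((Finset.univ.filter fun c : Fin n → Fin (k + 1) =>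
      (∀ i ∈ F.bd x, c i = 0) ∧ ∀ i ∈ D, c i ≠ 0 : Finset (Fin n → Fin (k + 1))) :
        Set (Fin n → Fin (k + 1))) ⊆ {c : Fin n → Fin (k + 1) | x ∈ Vs F (colr S c) 0} := by
    intro c hc
    obtain ⟨-, h1, h2⟩ := Finset.mem_filter.1 (Finset.mem_coe.1 hc)
    refine ⟨hP, fun i hi => Finset.mem_filter.2 ⟨hBS hi, h1 i hi⟩, ?_⟩
    rw [dep, Nat.le_zero, Finset.card_eq_zero, Finset.filter_eq_empty_iff]
    intro d hd hint
    obtain ⟨hdS, hd0⟩ := Finset.mem_filter.1 hd
    refine h2 d ?_ hd0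
    rw [hD]
    exact Finset.mem_filter.2 ⟨hdS, hint⟩
  have hle := Set.ncard_le_ncard hsub (Set.toFinite _)
  rw [Set.ncard_coe_finset] at hle
  have hcnt := colCnt (k := k) (F.bd x) D hdis
  rw [hP.1] at hcnt
  have hcnt' : ((Finset.univ.filter fun c : Fin n → Fin (k + 1) =>
      (∀ i ∈ F.bd x, c i = 0) ∧ ∀ i ∈ D, c i ≠ 0).card : ℝ) *
      (((k : ℝ) + 1) ^ 3 * ((k : ℝ) + 1) ^ D.card) = (k : ℝ) ^ D.card * ((k : ℝ) + 1) ^ n := by
    exact_mod_cast hcnt
  have hle' : ((Finset.univ.filter fun c : Fin n → Fin (k + 1) =>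
      (∀ i ∈ F.bd x, c i = 0) ∧ ∀ i ∈ D, c i ≠ 0).card : ℝ) ≤
      ({c : Fin n → Fin (k + 1) | x ∈ Vs F (colr S c) 0}.ncard : ℝ) := by exact_mod_cast hle
  have hnum := colNum hDc
  have hpos : 0 < ((k : ℝ) + 1) ^ D.card := by positivity
  have hpos3 : 0 < ((k : ℝ) + 1) ^ 3 := by positivity
  have hposn : 0 < ((k : ℝ) + 1) ^ n := by positivity
  refine le_of_mul_le_mul_right ?_ hpos
  calc ((k : ℝ) + 1) ^ n * ((k : ℝ) + 1) ^ D.card
      ≤ ((k : ℝ) + 1) ^ n * (3 * (k : ℝ) ^ D.card) := mul_le_mul_of_nonneg_left hnum hposn.le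
    _ = 3 * ((k : ℝ) ^ D.card * ((k : ℝ) + 1) ^ n) := by ring
    _ = 3 * (((Finset.univ.filter fun c : Fin n → Fin (k + 1) =>
          (∀ i ∈ F.bd x, c i = 0) ∧ ∀ i ∈ D, c i ≠ 0).card : ℝ) *
          (((k : ℝ) + 1) ^ 3 * ((k : ℝ) + 1) ^ D.card)) := by rw [hcnt']
    _ ≤ 3 * (({c : Fin n → Fin (k + 1) | x ∈ Vs F (colr S c) 0}.ncard : ℝ) *
          (((k : ℝ) + 1) ^ 3 * ((k : ℝ) + 1) ^ D.card)) := by
        refine mul_le_mul_of_nonneg_left ?_ (by norm_num)
        exact mul_le_mul_of_nonneg_right hle' (by positivity)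
    _ = _ := by ring

theorem colour_count (hF : Good α s F) (S : Finset (Fin n)) (k : ℕ) :
    ((k : ℝ) + 1) ^ n * (Vs F S k).ncard
      ≤ 3 * ((k : ℝ) + 1) ^ 3 * ∑ c : Fin n → Fin (k + 1), ((Vs F (colr S c) 0).ncard : ℝ) := by
  classical
  have hfin : ∀ (S' : Finset (Fin n)) (j : ℕ), (Vs F S' j).Finite := fun S' j =>
    hF.fin.subset fun x hx => hx.1.1
  have h1 : ∀ c : Fin n → Fin (k + 1),
      (((hfin S k).toFinset.bipartiteAbove (fun (c : Fin n → Fin (k + 1)) (x : E3) =>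
        x ∈ Vs F (colr S c) 0) c).card : ℝ) ≤ ((Vs F (colr S c) 0).ncard : ℝ) := by
    intro c
    have : ((hfin S k).toFinset.bipartiteAbove (fun (c : Fin n → Fin (k + 1)) (x : E3) =>
        x ∈ Vs F (colr S c) 0) c : Set E3) ⊆ Vs F (colr S c) 0 := by
      intro x hx
      exact (Finset.mem_filter.1 (Finset.mem_coe.1 hx)).2
    have h2 := Set.ncard_le_ncard this (hfin _ _)
    rw [Set.ncard_coe_finset] at h2
    exact_mod_cast h2
  have h2 : ∀ x ∈ (hfin S k).toFinset, ((k : ℝ) + 1) ^ n ≤ 3 * ((k : ℝ) + 1) ^ 3 *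
      (((Finset.univ : Finset (Fin n → Fin (k + 1))).bipartiteBelow
        (fun (c : Fin n → Fin (k + 1)) (x : E3) => x ∈ Vs F (colr S c) 0) x).card : ℝ) := by
    intro x hx
    have h3 := colPt hF S k ((hfin S k).mem_toFinset.1 hx)
    have h4 : ({c : Fin n → Fin (k + 1) | x ∈ Vs F (colr S c) 0}.ncard : ℕ) =
        ((Finset.univ : Finset (Fin n → Fin (k + 1))).bipartiteBelow
        (fun (c : Fin n → Fin (k + 1)) (x : E3) => x ∈ Vs F (colr S c) 0) x).card := by
      rw [← Set.ncard_coe_finset]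
      congr 1
      ext c
      rw [Finset.mem_coe, Finset.bipartiteBelow, Finset.mem_filter]
      exact ⟨fun h => ⟨Finset.mem_univ _, h⟩, fun h => h.2⟩
    rw [← h4]
    exact h3
  have hd := Finset.sum_card_bipartiteAbove_eq_sum_card_bipartiteBelow
    (s := (Finset.univ : Finset (Fin n → Fin (k + 1)))) (t := (hfin S k).toFinset)
    (fun (c : Fin n → Fin (k + 1)) (x : E3) => x ∈ Vs F (colr S c) 0)
  have hd' : ∑ c : Fin n → Fin (k + 1),
      (((hfin S k).toFinset.bipartiteAbove (fun (c : Fin n → Fin (k + 1)) (x : E3) =>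
        x ∈ Vs F (colr S c) 0) c).card : ℝ) = ∑ x ∈ (hfin S k).toFinset,
      (((Finset.univ : Finset (Fin n → Fin (k + 1))).bipartiteBelow
        (fun (c : Fin n → Fin (k + 1)) (x : E3) => x ∈ Vs F (colr S c) 0) x).card : ℝ) := by
    exact_mod_cast hd
  have hnc : (Vs F S k).ncard = (hfin S k).toFinset.card :=
    Set.ncard_eq_toFinset_card _ (hfin S k)
  calc ((k : ℝ) + 1) ^ n * (Vs F S k).ncard
      = ∑ x ∈ (hfin S k).toFinset, ((k : ℝ) + 1) ^ n := by
        rw [Finset.sum_const, nsmul_eq_mul, hnc, mul_comm]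
    _ ≤ ∑ x ∈ (hfin S k).toFinset, 3 * ((k : ℝ) + 1) ^ 3 *
      (((Finset.univ : Finset (Fin n → Fin (k + 1))).bipartiteBelow
        (fun (c : Fin n → Fin (k + 1)) (x : E3) => x ∈ Vs F (colr S c) 0) x).card : ℝ) :=
        Finset.sum_le_sum h2
    _ = 3 * ((k : ℝ) + 1) ^ 3 * ∑ c : Fin n → Fin (k + 1),
      (((hfin S k).toFinset.bipartiteAbove (fun (c : Fin n → Fin (k + 1)) (x : E3) =>
        x ∈ Vs F (colr S c) 0) c).card : ℝ) := by rw [← Finset.mul_sum, hd']
    _ ≤ _ := mul_le_mul_of_nonneg_left (Finset.sum_le_sum fun c _ => h1 c) (by positivity)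

end UF.FP
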