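import Pool.Agent.Work.MP_4c5ddc_co.FP.Defs

/-!
# FP/ADefs (FIXED): definitions for part (A)

`Vt F t`: the proper points of the triple `t`. For `x ∈ Vt F t` and `c ∈ t` the set `Ln F t c x` is the
intersection of the line in the two tight planes of the other two bodies with the intersection of the
bodies of `t`; it is a segment `[x, y]` which starts in `x` (`Edge F t c x y`, the edge which leaves `x` and
the facet of `c`). `cp F S t X`: the number of bodies of `S` outside of `t` which meet `X`. `Hv F S a b`: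
the heavy edges (`x`, `c`): fewer than `a` bodies contain `x`, at least `b` bodies meet the edge.
-/

set_option autoImplicit false

namespace UF.FP

variable {n : ℕ}

/-- The proper points of the triple `t`. -/
def Vt (F : Fam n) (t : Finset (Fin n)) : Set E3 := {x | Prp F x ∧ F.bd x = t}

/-- The edge which leaves `x` and the facet of `c`. -/
def Ln (F : Fam n) (t : Finset (Fin n)) (c : Fin n) (x : E3) : Set E3 :=
  {z | z ∈ Int3 F t ∧ ∀ i ∈ t, i ≠ c → ∀ ν, F.Tight i ν x → F.Tight i ν z}

/-- `[x, y]` is the edge of the intersection of the bodies of `t` which starts in the proper point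
`x` and leaves the facet of `c`. -/
structure Edge (F : Fam n) (t : Finset (Fin n)) (c : Fin n) (x y : E3) : Prop where
  vt : x ∈ Vt F t
  mem : c ∈ t
  ne : y ≠ x
  seg : Ln F t c x = segment ℝ x y

open scoped Classical in
/-- The number of bodies of `S` outside of `t` which meet `X`. -/
noncomputable def cp (F : Fam n) (S t : Finset (Fin n)) (X : Set E3) : ℕ :=
  ((S \ t).filter fun d => (F.K d ∩ X).Nonempty).card

/-- The improper points of bodies of `S`. -/
def ImpS (F : Fam n) (S : Finset (Fin n)) : Set E3 :=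
  {x | ∃ i ∈ S, ∃ j ∈ S, ∃ ν₁ ν₂ ν₃ : E3, LinearIndependent ℝ ![ν₁, ν₂, ν₃] ∧ F.Tight i ν₁ x ∧
    F.Tight i ν₂ x ∧ F.Tight j ν₃ x}

/-- The heavy edges. -/
def Hv (F : Fam n) (S : Finset (Fin n)) (a b : ℕ) : Set (E3 × Fin n) :=
  {e | F.bd e.1 ⊆ S ∧ ∃ y, Edge F (F.bd e.1) e.2 e.1 y ∧ cp F S (F.bd e.1) {e.1} < a ∧
    b ≤ cp F S (F.bd e.1) (segment ℝ e.1 y)}

/-- The triple point `p` is charged by the edge `(x, c)`. -/
structure Chg (F : Fam n) (S : Finset (Fin n)) (a : ℕ) (p x : E3) (c : Fin n) : Prop where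
  sub : F.bd x ⊆ S
  sub' : F.bd p ⊆ S
  three : (F.bd p).card = 3
  erase : (F.bd x).erase c ⊆ F.bd p
  ne : p ≠ x
  light : cp F S (F.bd x) {x} < a
  edge : ∃ y, Edge F (F.bd x) c x y ∧ p ∈ segment ℝ x y

/-- The triple `t` has a light ridge hit. -/
def LR (F : Fam n) (S : Finset (Fin n)) (T : ℕ) (t : Finset (Fin n)) : Prop :=
  ∃ p ∈ ImpS F t, p ∈ Int3 F t ∧ (∃ i ∈ t, ∃ j ∈ t, i ≠ j ∧ i ∈ F.bd p ∧ j ∈ F.bd p) ∧
    cp F S t {p} < T

/-- The set of the members `i` of `S` with colour `c i = 0`. -/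
def colr {m : ℕ} (S : Finset (Fin n)) (c : Fin n → Fin (m + 1)) : Finset (Fin n) :=
  S.filter fun i => c i = 0

end UF.FP
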