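import Pool.Agent.Work.MP_4c5ddc_co.FP.APar

/-!
# FP/AEdg (M: existence of edges)

PROOF. Let `d, γ` be as in `edge_par`. `Ln F t c x = {x + τ • d ∈ Int3 F t}`: `⊆` by `edge_par` (`τ = h c γ - ⟪γ, z⟫ ≥ 0` because
`z ∈ K c`), `⊇` because `⟪ν, d⟫ = 0` for the tight normals of the bodies `≠ c`. Every normal `ν` of a body `i ∈ t` which is not tight at
`x` has positive slack `h ν - ⟪ν, x⟫`, and `γ` has slack `τ` at `x + τ • d`; so `x + τ • d ∈ Int3 F t` for small `τ > 0`
(finitely many normals; the tight normals of `c` at `x` are only `γ`, `Prp`). The set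
`{τ : x + τ • d ∈ Int3 F t}` is compact (`Int3 F t ⊆ K c` is compact, `d ≠ 0`) and convex, contained in `[0, ∞)`,
contains `0` and small positive numbers: it is `[0, τ₁]` with `τ₁ > 0`. `edge_ex`: `y = x + τ₁ • d`.
`edge_uniq`: `segment ℝ x y = segment ℝ x y'` gives `y = y'` (`y ∈ [x, y']`, `y' ∈ [x, y]`, so
`dist x y ≤ dist x y' ≤ dist x y`, and equality in `dist x y + dist y y' = dist x y'`).
`edge_in`: `z ∈ segment ℝ x y = Ln F t c x`; for `i ∈ t = F.bd x` there is a tight normal of `i` at `x`, tight at `z` too.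
`edge_line`: the tight normals at `x` resp. `x'` are unique by `Prp`, so the conditions in `Ln` are the same.
-/

set_option autoImplicit false

namespace UF.FP

variable {n : ℕ} {α : ℝ} {s : ℕ} {F : Fam n}

private theorem ae_small {t : Finset (Fin n)} {x d : E3} (hx : x ∈ Int3 F t)
    (hd : ∀ i ∈ t, ∀ ν, F.Tight i ν x → inner ℝ ν d ≤ 0) :
    ∀ᶠ τ : ℝ in nhdsWithin 0 (Set.Ioi 0), x + τ • d ∈ Int3 F t := by
  have h1 : ∀ᶠ τ : ℝ in nhdsWithin 0 (Set.Ioi 0), ∀ i ∈ t, ∀ ν ∈ F.N i,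
      inner ℝ ν (x + τ • d) ≤ F.h i ν := by
    rw [Filter.eventually_all_finset]
    intro i hi
    rw [Filter.eventually_all_finset]
    intro ν hν
    rcases lt_or_eq_of_le (hx i hi ν hν) with hlt | heq
    · have hc : Continuous fun τ : ℝ => inner ℝ ν (x + τ • d) := by fun_prop
      have h2 : inner ℝ ν (x + (0 : ℝ) • d) < F.h i ν := by simpa using hlt
      exact ((hc.continuousAt.eventually_lt continuousAt_const h2).mono
        fun τ hτ => hτ.le).filter_mono nhdsWithin_le_nhds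
    · refine Filter.eventually_of_mem self_mem_nhdsWithin fun τ hτ => ?_
      have h3 := hd i hi ν ⟨hν, heq⟩
      rw [inner_add_right, inner_smul_right, heq]
      have h4 : τ * inner ℝ ν d ≤ 0 := mul_nonpos_of_nonneg_of_nonpos (le_of_lt hτ) h3
      linarith
  refine h1.mono fun τ hτ i hi ν hν => hτ i hi ν hν

private theorem ae_closed (F : Fam n) (t : Finset (Fin n)) : IsClosed (Int3 F t) := by
  have : Int3 F t = ⋂ i ∈ t, F.K i := by
    ext z
    simp [Int3]
  rw [this]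
  exact isClosed_biInter fun i _ => CO.isClosed_poly _ _

private theorem ae_conv (F : Fam n) (t : Finset (Fin n)) : Convex ℝ (Int3 F t) := by
  have : Int3 F t = ⋂ i ∈ t, F.K i := by
    ext z
    simp [Int3]
  rw [this]
  exact convex_iInter₂ fun i _ => CO.convex_poly _ _

theorem edge_ex (hF : Good α s F) {t : Finset (Fin n)} (ht : t.card = 3) {c : Fin n} {x : E3}
    (hx : x ∈ Vt F t) (hc : c ∈ t) : ∃ y, Edge F t c x y := by
  obtain ⟨d, γ, hd0, hd, hγ, hγd, hpar⟩ := edge_par hF ht hx hc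
  have hxI : x ∈ Int3 F t := by
    intro i hi
    rw [← hx.2] at hi
    exact (bd_iff.1 hi).1
  set T : Set ℝ := {τ | x + τ • d ∈ Int3 F t} with hT
  have hTc : IsClosed T := (ae_closed F t).preimage (by fun_prop)
  have hT0 : (0 : ℝ) ∈ T := by
    change x + (0 : ℝ) • d ∈ Int3 F t
    rw [zero_smul, add_zero]
    exact hxI
  have hTn : ∀ τ ∈ T, 0 ≤ τ := by
    intro τ hτ
    have h1 : inner ℝ γ (x + τ • d) ≤ F.h c γ := hτ c hc γ hγ.1
    rw [inner_add_right, inner_smul_right, hγd, hγ.2] at h1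
    linarith
  have hTb : BddAbove T := by
    obtain ⟨R, hR⟩ := (compact_K hF c).isBounded.exists_norm_le
    refine ⟨(R + ‖x‖) / ‖d‖, fun τ hτ => ?_⟩
    rw [le_div_iff₀ (norm_pos_iff.2 hd0)]
    have h1 := hR _ (hτ c hc)
    have h2 : ‖τ • d‖ ≤ ‖x + τ • d‖ + ‖x‖ := by
      have := norm_sub_le (x + τ • d) x
      rwa [add_sub_cancel_left] at this
    rw [norm_smul, Real.norm_eq_abs, abs_of_nonneg (hTn τ hτ)] at h2
    linarith
  set τ₁ := sSup T with hτ₁
  have h1T : τ₁ ∈ T := hTc.csSup_mem ⟨0, hT0⟩ hTb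
  have hpos : 0 < τ₁ := by
    have h1 := ae_small (F := F) (t := t) (d := d) hxI (by
      intro i hi ν hν
      by_cases hic : i = c
      · subst hic
        have hi' : i ∈ F.bd x := by rw [hx.2]; exact hi
        rw [hx.1.2 i hi' ν γ hν hγ, hγd]
        norm_num
      · rw [hd i hi hic ν hν])
    have h2 := h1.and self_mem_nhdsWithin
    obtain ⟨τ, h3, h4⟩ := h2.exists
    exact lt_of_lt_of_le h4 (le_csSup hTb h3)
  refine ⟨x + τ₁ • d, ⟨hx, hc, ?_, ?_⟩⟩
  · intro h
    rw [add_eq_left] at h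
    rcases smul_eq_zero.1 h with h' | h'
    · exact hpos.ne' h'
    · exact hd0 h'
  · ext z
    constructor
    · rintro ⟨hz, hzt⟩
      have h1 := hpar z hzt
      set τ := F.h c γ - inner ℝ γ z with hτ
      have h2 : τ ∈ T := by
        change x + τ • d ∈ Int3 F t
        rw [← h1]
        exact hz
      have h3 := le_csSup hTb h2
      rw [h1, segment_eq_image']
      refine ⟨τ / τ₁, ⟨div_nonneg (hTn τ h2) hpos.le, (div_le_one hpos).2 h3⟩, ?_⟩
      change x + (τ / τ₁) • (x + τ₁ • d - x) = x + τ • d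
      rw [add_sub_cancel_left, smul_smul, div_mul_cancel₀ _ hpos.ne']
    · intro hz
      have h1 : z ∈ Int3 F t := (ae_conv F t).segment_subset hxI h1T hz
      rw [segment_eq_image'] at hz
      obtain ⟨θ, _, rfl⟩ := hz
      refine ⟨h1, fun i hi hic ν hν => ⟨hν.1, ?_⟩⟩
      change inner ℝ ν (x + θ • (x + τ₁ • d - x)) = F.h i ν
      rw [add_sub_cancel_left, inner_add_right, inner_smul_right, inner_smul_right,
        hd i hi hic ν hν, mul_zero, mul_zero, add_zero]
      exact hν.2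

theorem edge_uniq {t : Finset (Fin n)} {c : Fin n} {x y y' : E3}
    (h : Edge F t c x y) (h' : Edge F t c x y') : y = y' := by
  have h1 : segment ℝ x y = segment ℝ x y' := by rw [← h.seg, ← h'.seg]
  have h2 : y ∈ segment ℝ x y' := h1 ▸ right_mem_segment ℝ x y
  have h3 : y' ∈ segment ℝ x y := h1 ▸ right_mem_segment ℝ x y'
  rw [segment_eq_image'] at h2 h3
  obtain ⟨a, ⟨a0, a1⟩, ha⟩ := h2
  obtain ⟨b, ⟨b0, b1⟩, hb⟩ := h3
  change x + a • (y' - x) = y at ha
  change x + b • (y - x) = y' at hb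
  have h4 : (1 - a * b) • (y - x) = 0 := by
    have e1 : y - x = a • (y' - x) := by rw [← ha, add_sub_cancel_left]
    have e2 : y' - x = b • (y - x) := by rw [← hb, add_sub_cancel_left]
    rw [sub_smul, one_smul, mul_smul, ← e2, ← e1, sub_self]
  rcases smul_eq_zero.1 h4 with h5 | h5
  · have h6 : b = 1 := by nlinarith
    rw [h6, one_smul, add_sub_cancel] at hb
    exact hb
  · exact absurd (sub_eq_zero.1 h5) h.ne

theorem edge_in {t : Finset (Fin n)} {c : Fin n} {x y z : E3}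
    (h : Edge F t c x y) (hz : z ∈ segment ℝ x y) :
    z ∈ Int3 F t ∧ (∀ i ∈ t, i ≠ c → ∀ ν, F.Tight i ν x → F.Tight i ν z) ∧
      (∀ i ∈ t, i ≠ c → i ∈ F.bd z) := by
  rw [← h.seg] at hz
  refine ⟨hz.1, hz.2, fun i hi hic => ?_⟩
  have hi' : i ∈ F.bd x := by rw [h.vt.2]; exact hi
  obtain ⟨ν, hν⟩ := (bd_iff.1 hi').2
  exact bd_iff.2 ⟨hz.1 i hi, ν, hz.2 i hi hic ν hν⟩

theorem edge_line {t : Finset (Fin n)} {c : Fin n} {x x' : E3} (hx : x ∈ Vt F t)
    (hx' : x' ∈ Vt F t)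
    (h : ∀ i ∈ t, i ≠ c → ∃ ν, F.Tight i ν x ∧ F.Tight i ν x') : Ln F t c x = Ln F t c x' := by
  ext z
  constructor
  · rintro ⟨hz, hzt⟩
    refine ⟨hz, fun i hi hic ν hν => ?_⟩
    obtain ⟨μ, h1, h2⟩ := h i hi hic
    have hi' : i ∈ F.bd x' := by rw [hx'.2]; exact hi
    rw [hx'.1.2 i hi' ν μ hν h2]
    exact hzt i hi hic μ h1
  · rintro ⟨hz, hzt⟩
    refine ⟨hz, fun i hi hic ν hν => ?_⟩
    obtain ⟨μ, h1, h2⟩ := h i hi hic
    have hi' : i ∈ F.bd x := by rw [hx.2]; exact hi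
    rw [hx.1.2 i hi' ν μ hν h1]
    exact hzt i hi hic μ h2

end UF.FP
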