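import Pool.Agent.Work.MP_4c5ddc_co.FP.AEdg

/-!
# FP/AEnd (M: the end of an edge)

PROOF. Let `d, γ` be as in `edge_par`, `t = {a, b, c}`, `ν₁, ν₂` the tight normals of `a, b` at `x`. `y = x + τ₁ • d`,
`τ₁ = h c γ - ⟪γ, y⟫ > 0` (`y ∈ Ln F t c x`, `y ≠ x`; `γ` is not tight at `y`).
There are a body `i ∈ t` and a normal `ν` of `i` which is tight at `y` with `⟪ν, d⟫ > 0`: otherwise
`x + (τ₁ + δ) • d ∈ Int3 F t` for small `δ > 0` (finitely many normals), so it would be in `Ln F t c x = segment ℝ x y`.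
Case 1: `i = a` (`i = b` is the same). `ν₁, ν ∈ N a` are tight at `y`, `ν₂ ∈ N b` too, `![ν₁, ν, ν₂]` is linearly
independent (pair a relation with `d`: the coefficient of `ν` is `0`; `ν₁, ν₂` are independent, part of `prp_indep`). So
`y ∈ ImpS F t`.
Case 2: all such `ν` are normals of `c`, and two different ones `ν ≠ ν'` exist. They are independent (`ridge_indep`).
One of `ν₁, ν₂` is not in their span: otherwise `ν₁, ν₂` span the same plane and `ν` would be in `span {ν₁, ν₂}`, so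
`⟪ν, d⟫ = 0`. So `y ∈ ImpS F t`.
Case 3: exactly one such `ν`, a normal of `c`. Let `μ` be any normal of a body `j ∈ t` tight at `y` with
`⟪μ, d⟫ ≤ 0`: its slack at `x` is `τ₁ * ⟪μ, d⟫ ≤ 0`, so it is tight at `x` and `⟪μ, d⟫ = 0`; so `μ ≠ γ` and `μ = ν₁` or `ν₂` (`Prp` at
`x`). So at `y` each body of `t` has exactly one tight normal (`ν₁`, `ν₂`, `ν`), `t ⊆ F.bd y` (`y ∈ Int3 F t`), and `hF.three` gives
`F.bd y = t`, so `Prp F y` and `y ∈ Vt F t`.
-/

set_option autoImplicit false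

namespace UF.FP

variable {n : ℕ} {α : ℝ} {s : ℕ} {F : Fam n}

private theorem an_li {a b c : E3} (h : ∀ r s u : ℝ, r • a + s • b + u • c = 0 →
    r = 0 ∧ s = 0 ∧ u = 0) : LinearIndependent ℝ ![a, b, c] := by
  rw [Fintype.linearIndependent_iff]
  intro g hg
  rw [Fin.sum_univ_three] at hg
  obtain ⟨h0, h1, h2⟩ := h (g 0) (g 1) (g 2) hg
  intro i
  fin_cases i
  exacts [h0, h1, h2]

private theorem an_li2 {a b c : E3} (h : LinearIndependent ℝ ![a, b, c]) {r s : ℝ}
    (h' : r • a + s • b = 0) : r = 0 ∧ s = 0 := by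
  rw [Fintype.linearIndependent_iff] at h
  have h1 := h ![r, s, 0] (by
    rw [Fin.sum_univ_three]
    change r • a + s • b + (0 : ℝ) • c = 0
    rw [zero_smul, add_zero, h'])
  exact ⟨h1 0, h1 1⟩

private theorem an_small {t : Finset (Fin n)} {x d : E3} (hx : x ∈ Int3 F t)
    (hd : ∀ i ∈ t, ∀ ν, F.Tight i ν x → inner ℝ ν d ≤ 0) :
    ∀ᶠ τ : ℝ in nhdsWithin 0 (Set.Ioi 0), x + τ • d ∈ Int3 F t := by
  have h1 : ∀ᶠ τ : ℝ in nhdsWithin 0 (Set.Ioi 0), ∀ i ∈ t, ∀ ν ∈ F.N i,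
      inner ℝ ν (x + τ • d) ≤ F.h i ν := by
    rw [Filter.eventually_all_finset]
    intro i hi
    rw [Filter.eventually_all_finset]
    intro ν hν
    rcases lt_or_eq_of_le (hx i hi ν hν) with hlt | heq
    · have hc : Continuous fun τ : ℝ => inner ℝ ν (x + τ • d) := by fun_prop
      have h2 : inner ℝ ν (x + (0 : ℝ) • d) < F.h i ν := by simpa using hlt
      exact ((hc.continuousAt.eventually_lt continuousAt_const h2).mono
        fun τ hτ => hτ.le).filter_mono nhdsWithin_le_nhds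
    · refine Filter.eventually_of_mem self_mem_nhdsWithin fun τ hτ => ?_
      have h3 := hd i hi ν ⟨hν, heq⟩
      rw [inner_add_right, inner_smul_right, heq]
      have h4 : τ * inner ℝ ν d ≤ 0 := mul_nonpos_of_nonneg_of_nonpos (le_of_lt hτ) h3
      linarith
  refine h1.mono fun τ hτ i hi ν hν => hτ i hi ν hν

theorem edge_end (hF : Good α s F) {t : Finset (Fin n)} (ht : t.card = 3) {c : Fin n} {x y : E3}
    (h : Edge F t c x y) : y ∈ Vt F t ∨ y ∈ ImpS F t := by
  have hc := h.mem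
  have hx := h.vt
  obtain ⟨d, γ, hd0, hd, hγ, hγd, hpar⟩ := edge_par hF ht hx hc
  have hyL : y ∈ Ln F t c x := by
    rw [h.seg]
    exact right_mem_segment ℝ x y
  obtain ⟨hyI, hyt⟩ := hyL
  have hy := hpar y hyt
  set τ₁ := F.h c γ - inner ℝ γ y with hτ₁
  have hτn : 0 ≤ τ₁ := by
    have h1 : inner ℝ γ y ≤ F.h c γ := hyI c hc γ hγ.1
    linarith
  have hpos : 0 < τ₁ := by
    refine lt_of_le_of_ne hτn fun h0 => h.ne ?_
    rw [hy, ← h0, zero_smul, add_zero]
  have hbdx : ∀ i ∈ t, i ∈ F.bd x := fun i hi => by rw [hx.2]; exact hi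
  have hxI : x ∈ Int3 F t := fun i hi => (bd_iff.1 (hbdx i hi)).1
  -- a tight normal which stops the edge
  have hstop : ∃ i ∈ t, ∃ ν, F.Tight i ν y ∧ 0 < inner ℝ ν d := by
    by_contra hno
    push Not at hno
    have h1 := an_small (F := F) (t := t) (d := d) hyI (fun i hi ν hν => hno i hi ν hν)
    have h2 := h1.and self_mem_nhdsWithin
    obtain ⟨δ, h3, h4⟩ := h2.exists
    have hδ : 0 < δ := h4
    have h5 : y + δ • d ∈ Ln F t c x := by
      refine ⟨h3, fun i hi hic ν hν => ⟨hν.1, ?_⟩⟩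
      rw [inner_add_right, inner_smul_right, hd i hi hic ν hν, mul_zero, add_zero]
      exact (hyt i hi hic ν hν).2
    rw [h.seg, segment_eq_image'] at h5
    obtain ⟨θ, ⟨θ0, θ1⟩, hθ⟩ := h5
    change x + θ • (y - x) = y + δ • d at hθ
    have h6 : (θ * τ₁) • d = (τ₁ + δ) • d := by
      have e1 : y - x = τ₁ • d := by
        nth_rewrite 1 [hy]
        rw [add_sub_cancel_left]
      have e2 : θ • (y - x) = (y - x) + δ • d := by
        have : x + θ • (y - x) - x = y + δ • d - x := by rw [hθ]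
        rw [add_sub_cancel_left] at this
        rw [this]
        abel
      rw [e1, smul_smul, ← add_smul] at e2
      exact e2
    have h7 : θ * τ₁ = τ₁ + δ := smul_left_injective ℝ hd0 h6
    nlinarith
  -- tight normals of the bodies at x
  have hN : ∀ i ∈ t, ∃ ν, F.Tight i ν x := fun i hi => (bd_iff.1 (hbdx i hi)).2
  -- slack formula
  have hsl : ∀ i ∈ t, ∀ μ, F.Tight i μ y → inner ℝ μ d ≤ 0 → F.Tight i μ x ∧ inner ℝ μ d = 0 := by
    intro i hi μ hμ hle
    have h1 : inner ℝ μ x ≤ F.h i μ := hxI i hi μ hμ.1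
    have h2 := hμ.2
    rw [hy, inner_add_right, inner_smul_right] at h2
    have h3 : τ₁ * inner ℝ μ d ≤ 0 := mul_nonpos_of_nonneg_of_nonpos hτn hle
    have h4 : τ₁ * inner ℝ μ d = 0 := by linarith
    refine ⟨⟨hμ.1, by linarith⟩, ?_⟩
    rcases mul_eq_zero.1 h4 with h5 | h5
    · exact absurd h5 hpos.ne'
    · exact h5
  by_cases himp : y ∈ ImpS F t
  · exact Or.inr himp
  left
  -- another body
  have hoth : ∀ i ∈ t, i ≠ c → ∃ j ∈ t, j ≠ i ∧ j ≠ c := by
    intro i hi hic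
    have h1 : ((t.erase c).erase i).card = 1 := by
      rw [Finset.card_erase_of_mem (Finset.mem_erase.2 ⟨hic, hi⟩), Finset.card_erase_of_mem hc, ht]
    obtain ⟨j, hj⟩ := Finset.card_pos.1 (by rw [h1]; exact one_pos)
    rw [Finset.mem_erase, Finset.mem_erase] at hj
    exact ⟨j, hj.2.2, hj.1, hj.2.1⟩
  -- case 1
  have hcase1 : ∀ i ∈ t, i ≠ c → ∀ ν, F.Tight i ν y → inner ℝ ν d ≤ 0 := by
    intro i hi hic ν hν
    by_contra hpos'
    rw [not_le] at hpos'
    apply himp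
    obtain ⟨j, hj, hji, hjc⟩ := hoth i hi hic
    obtain ⟨ν₁, h1⟩ := hN i hi
    obtain ⟨ν₂, h2⟩ := hN j hj
    have hLI := prp_indep hF hx.1 (Ne.symm hji) hic hjc (hbdx i hi) (hbdx j hj) (hbdx c hc) h1 h2 hγ
    refine ⟨i, hi, j, hj, ν₁, ν, ν₂, an_li ?_, hyt i hi hic ν₁ h1, hν, hyt j hj hjc ν₂ h2⟩
    intro r s u hrsu
    have h3 : inner ℝ (r • ν₁ + s • ν + u • ν₂) d = (0 : ℝ) := by rw [hrsu, inner_zero_left]
    rw [inner_add_left, inner_add_left, real_inner_smul_left, real_inner_smul_left,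
      real_inner_smul_left, hd i hi hic ν₁ h1, hd j hj hjc ν₂ h2, mul_zero, mul_zero, zero_add,
      add_zero] at h3
    have hs : s = 0 := by
      rcases mul_eq_zero.1 h3 with h4 | h4
      · exact h4
      · exact absurd h4 hpos'.ne'
    rw [hs, zero_smul, add_zero] at hrsu
    obtain ⟨h5, h6⟩ := an_li2 hLI hrsu
    exact ⟨h5, hs, h6⟩
  -- case 2
  have hcase2 : ∀ ν ν', F.Tight c ν y → F.Tight c ν' y → 0 < inner ℝ ν d → 0 < inner ℝ ν' d →
      ν = ν' := by
    intro ν ν' hν hν' hp hp'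
    by_contra hne
    apply himp
    obtain ⟨a, ha, hac⟩ : ∃ a ∈ t, a ≠ c := by
      have h1 : (t.erase c).card = 2 := by rw [Finset.card_erase_of_mem hc, ht]
      obtain ⟨j, hj⟩ := Finset.card_pos.1 (by rw [h1]; exact two_pos)
      rw [Finset.mem_erase] at hj
      exact ⟨j, hj.2, hj.1⟩
    obtain ⟨b, hb, hba, hbc⟩ := hoth a ha hac
    obtain ⟨ν₁, h1⟩ := hN a ha
    obtain ⟨ν₂, h2⟩ := hN b hb
    have hLI := prp_indep hF hx.1 (Ne.symm hba) hac hbc (hbdx a ha) (hbdx b hb) (hbdx c hc) h1 h2 hγ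
    have hLI2 := ridge_indep hF (hyI c hc) hν hν' hne
    rw [LinearIndependent.pair_iff] at hLI2
    have key : ∀ κ, inner ℝ κ d = 0 → ¬ LinearIndependent ℝ ![ν, ν', κ] →
        ∃ q : ℝ, κ = q • (inner ℝ ν' d • ν - inner ℝ ν d • ν') := by
      intro κ hκ hnl
      by_contra hq
      apply hnl
      apply an_li
      intro r s u hrsu
      have hu : u = 0 := by
        by_contra hu
        apply hq
        have h3 : inner ℝ (r • ν + s • ν' + u • κ) d = (0 : ℝ) := by rw [hrsu, inner_zero_left]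
        rw [inner_add_left, inner_add_left, real_inner_smul_left, real_inner_smul_left,
          real_inner_smul_left, hκ, mul_zero, add_zero] at h3
        refine ⟨-(r / (u * inner ℝ ν' d)), ?_⟩
        have h4 : κ = -(r / u) • ν + -(s / u) • ν' := by
          have h5 : u • κ = -(r • ν + s • ν') := by
            rw [eq_neg_iff_add_eq_zero, add_comm]
            exact hrsu
          have h6 : κ = u⁻¹ • (u • κ) := by rw [smul_smul, inv_mul_cancel₀ hu, one_smul]
          rw [h6, h5, smul_neg, smul_add, smul_smul, smul_smul, neg_smul, neg_smul, neg_add,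
            inv_mul_eq_div, inv_mul_eq_div]
        rw [h4, smul_sub, smul_smul, smul_smul, sub_eq_add_neg, ← neg_smul]
        have e1 : -(r / (u * inner ℝ ν' d)) * inner ℝ ν' d = -(r / u) := by
          field_simp
        have e2 : -(-(r / (u * inner ℝ ν' d)) * inner ℝ ν d) = -(s / u) := by
          have : s * inner ℝ ν' d = -(r * inner ℝ ν d) := by linarith
          field_simp
          linarith
        rw [e1, e2]
      rw [hu, zero_smul, add_zero] at hrsu
      obtain ⟨h5, h6⟩ := hLI2 r s hrsu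
      exact ⟨h5, h6, hu⟩
    by_cases hl1 : LinearIndependent ℝ ![ν, ν', ν₁]
    · exact ⟨c, hc, a, ha, ν, ν', ν₁, hl1, hν, hν', hyt a ha hac ν₁ h1⟩
    by_cases hl2 : LinearIndependent ℝ ![ν, ν', ν₂]
    · exact ⟨c, hc, b, hb, ν, ν', ν₂, hl2, hν, hν', hyt b hb hbc ν₂ h2⟩
    exfalso
    obtain ⟨q, hq⟩ := key ν₁ (hd a ha hac ν₁ h1) hl1
    obtain ⟨q', hq'⟩ := key ν₂ (hd b hb hbc ν₂ h2) hl2
    have h7 : q' • ν₁ + (-q) • ν₂ = 0 := by
      rw [hq, hq', smul_smul, smul_smul, ← add_smul, mul_comm q' q, neg_mul, add_neg_cancel,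
        zero_smul]
    obtain ⟨h8, h9⟩ := an_li2 hLI h7
    have hq0 : q = 0 := neg_eq_zero.1 h9
    rw [hq0, zero_smul] at hq
    have h10 := hF.unit a ν₁ h1.1
    rw [hq, norm_zero] at h10
    exact zero_ne_one h10
  -- the stopping normal belongs to c
  obtain ⟨i₀, hi₀, ν₀, hν₀, hp₀⟩ := hstop
  have hi₀c : i₀ = c := by
    by_contra hne
    exact absurd (hcase1 i₀ hi₀ hne ν₀ hν₀) (not_le.2 hp₀)
  subst hi₀c
  have hsub : t ⊆ F.bd y := by
    intro j hj
    by_cases hjc : j = i₀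
    · subst hjc
      exact bd_iff.2 ⟨hyI j hj, ν₀, hν₀⟩
    · obtain ⟨ν, hν⟩ := hN j hj
      exact bd_iff.2 ⟨hyI j hj, ν, hyt j hj hjc ν hν⟩
  have heq : t = F.bd y :=
    Finset.eq_of_subset_of_card_le hsub (by rw [ht]; exact hF.three y)
  refine ⟨⟨by rw [← heq, ht], ?_⟩, heq.symm⟩
  intro j hj ν μ h1 h2
  rw [← heq] at hj
  by_cases hjc : j = i₀
  · subst hjc
    have hposc : ∀ μ, F.Tight j μ y → 0 < inner ℝ μ d := by
      intro μ hμ
      by_contra hle
      rw [not_lt] at hle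
      obtain ⟨h3, h4⟩ := hsl j hj μ hμ hle
      rw [hx.1.2 j (hbdx j hj) μ γ h3 hγ, hγd] at h4
      norm_num at h4
    exact hcase2 ν μ h1 h2 (hposc ν h1) (hposc μ h2)
  · have h3 := (hsl j hj ν h1 (hcase1 j hj hjc ν h1)).1
    have h4 := (hsl j hj μ h2 (hcase1 j hj hjc μ h2)).1
    exact hx.1.2 j (hbdx j hj) ν μ h3 h4

end UF.FP
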