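import Pool.Agent.Work.MP_4c5ddc_co.FP.AEnd
import Pool.Agent.Work.MP_4c5ddc_co.FP.ACnt

/-!
# FP/AExp (M: exploration of the edges from a vertex of the union)

PROOF. `R 0 = {x}`, `R (j+1) = R j ∪ {y | ∃ w ∈ R j, ∃ c, Edge F t c w y}`. Claim for `j ≤ s ^ 3 + 1`: `R j ⊆ Vt F t` and
`cp F S t {w} < tt j` for `w ∈ R j`. `j = 0`: hypothesis. Step (`j ≤ s ^ 3`): let `w ∈ R j`, `Edge F t c w y`. By `H1`
`cp F S t [w, y] < tt (j + 1)`, so `cp F S t {y} < tt (j + 1)` (`cp` is monotone in the set, `y ∈ [w, y]`). If `y` were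
not in `Vt F t` then `y ∈ ImpS F t` (`edge_end`), `y ∈ Int3 F t` and the two bodies `≠ c` of `t` are in `F.bd y` (`edge_in`), so
`H2` gives `tt (s ^ 3 + 1) ≤ cp F S t {y} < tt (j + 1)`, against monotonicity. The old points: `tt j ≤ tt (j + 1)`.
`Vt F t` has at most `s ^ 3` elements (`Vt_count`). If `R j ≠ R (j + 1)` for all `j ≤ s ^ 3` then
`(R j).ncard ≥ j + 1` for `j ≤ s ^ 3 + 1`, in particular `(R (s ^ 3)).ncard ≥ s ^ 3 + 1`, against `Vt_count`. So `R j = R (j + 1)`
for some `j ≤ s ^ 3`; `L = R j`.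
-/

set_option autoImplicit false

namespace UF.FP

variable {n : ℕ} {α : ℝ} {s : ℕ} {F : Fam n}

private theorem exp_mono {S t : Finset (Fin n)} {X Y : Set E3} (h : X ⊆ Y) :
    cp F S t X ≤ cp F S t Y := by
  classical
  refine Finset.card_le_card fun d hd => ?_
  obtain ⟨h1, z, hz1, hz2⟩ := Finset.mem_filter.1 hd
  exact Finset.mem_filter.2 ⟨h1, z, hz1, h hz2⟩

private def Rr (F : Fam n) (t : Finset (Fin n)) (x : E3) : ℕ → Set E3
  | 0 => {x}
  | j + 1 => Rr F t x j ∪ {y | ∃ w ∈ Rr F t x j, ∃ c, Edge F t c w y}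

theorem explore (hF : Good α s F) {S t : Finset (Fin n)} (ht : t.card = 3) {x : E3}
    (hx : x ∈ Vt F t) (tt : ℕ → ℕ) (hmono : Monotone tt) (h0 : cp F S t {x} < tt 0)
    (H1 : ∀ j ≤ s ^ 3, ∀ w c y, Edge F t c w y → cp F S t {w} < tt j →
      cp F S t (segment ℝ w y) < tt (j + 1))
    (H2 : ¬ LR F S (tt (s ^ 3 + 1)) t) :
    ∃ L : Set E3, x ∈ L ∧ L ⊆ Vt F t ∧ ∀ w ∈ L, ∀ c y, Edge F t c w y →
      y ∈ L ∧ cp F S t (segment ℝ w y) < tt (s ^ 3 + 1) := by
  classical
  have hstep : ∀ j, j ≤ s ^ 3 + 1 → ∀ w ∈ Rr F t x j, w ∈ Vt F t ∧ cp F S t {w} < tt j := by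
    intro j
    induction j with
    | zero =>
      intro _ w hw
      have : w = x := hw
      rw [this]
      exact ⟨hx, h0⟩
    | succ j ih =>
      intro hj w hw
      rcases hw with hw | ⟨v, hv, c, he⟩
      · obtain ⟨h1, h2⟩ := ih (by omega) w hw
        exact ⟨h1, h2.trans_le (hmono (Nat.le_succ j))⟩
      · obtain ⟨h1, h2⟩ := ih (by omega) v hv
        have h3 := H1 j (by omega) v c w he h2
        have h4 : cp F S t {w} < tt (j + 1) := by
          refine lt_of_le_of_lt (exp_mono ?_) h3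
          rw [Set.singleton_subset_iff]
          exact right_mem_segment ℝ v w
        refine ⟨?_, h4⟩
        rcases edge_end hF ht he with h | h
        · exact h
        · exfalso
          obtain ⟨i1, -, i3⟩ := edge_in he (right_mem_segment ℝ v w)
          have h2' : (t.erase c).card = 2 := by rw [Finset.card_erase_of_mem he.mem, ht]
          obtain ⟨a, b, hab, he'⟩ := Finset.card_eq_two.1 h2'
          have ha : a ∈ t.erase c := by rw [he']; simp
          have hb : b ∈ t.erase c := by rw [he']; simp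
          refine H2 ⟨w, h, i1, ⟨a, Finset.mem_of_mem_erase ha, b, Finset.mem_of_mem_erase hb, hab,
            i3 a (Finset.mem_of_mem_erase ha) (Finset.ne_of_mem_erase ha),
            i3 b (Finset.mem_of_mem_erase hb) (Finset.ne_of_mem_erase hb)⟩, ?_⟩
          exact h4.trans_le (hmono hj)
  obtain ⟨hVfin, hVcard⟩ := Vt_count hF ht
  have hsubV : ∀ j, j ≤ s ^ 3 + 1 → Rr F t x j ⊆ Vt F t := fun j hj w hw => (hstep j hj w hw).1
  have hx0 : ∀ j, x ∈ Rr F t x j := by
    intro j
    induction j with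
    | zero => exact rfl
    | succ j ih => exact Or.inl ih
  obtain ⟨j, hj, hjeq⟩ : ∃ j ≤ s ^ 3, Rr F t x (j + 1) = Rr F t x j := by
    by_contra hcon
    push Not at hcon
    have hgrow : ∀ j, j ≤ s ^ 3 + 1 → j + 1 ≤ (Rr F t x j).ncard := by
      intro j
      induction j with
      | zero =>
        intro _
        show 1 ≤ ({x} : Set E3).ncard
        rw [Set.ncard_singleton]
      | succ j ih =>
        intro hj
        have h1 := ih (by omega)
        have hss : Rr F t x j ⊂ Rr F t x (j + 1) := by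
          refine ⟨fun w hw => Or.inl hw, fun h => ?_⟩
          exact hcon j (by omega) (Set.Subset.antisymm h fun w hw => Or.inl hw)
        have h2 := Set.ncard_lt_ncard hss (hVfin.subset (hsubV (j + 1) hj))
        omega
    have h1 := hgrow (s ^ 3) (by omega)
    have h2 := Set.ncard_le_ncard (hsubV (s ^ 3) (by omega)) hVfin
    omega
  refine ⟨Rr F t x j, hx0 j, hsubV j (by omega), fun w hw c y he => ⟨?_, ?_⟩⟩
  · rw [← hjeq]
    exact Or.inr ⟨w, hw, c, he⟩
  · have h1 := H1 j hj w c y he (hstep j (by omega) w hw).2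
    exact h1.trans_le (hmono (by omega))

end UF.FP
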