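import Pool.Agent.Work.MP_4c5ddc_co.FP.ADefs

/-!
# FP/AHlf (M: sampling for the clean triples)

PROOF. Let `G` be the finset on the left, `N = S.card`. Double counting of the pairs `(t, S')`, `t ∈ G`, `S' ∈ S.powerset`, `t` clean in
`S'`. For `t ∈ G` let `Q = {d ∈ S \ t : K d ∩ Skel F t ≠ ∅}`, `Q.card = cp F S t (Skel F t) ≤ T`. Every `S' ⊆ S` with
`t ⊆ S'` and `S' ∩ Q = ∅` has `Clean F S' t`; the number of these `S'` is `2 ^ (N - 3 - Q.card) ≥ 2 ^ (N - 3 - T)` resp.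
`2 ^ (3 + T) * #{S'} ≥ 2 ^ N` (they correspond to the subsets of `S \ (t ∪ Q)`: `S' ↦ S' \ t`, `Finset.card_powerset`).
On the other side `∑ S', nClean F S' ≤ 2 ^ N * C₀ * N ^ 2` (`S'.card ≤ N`, `0 ≤ C₀`). So
`2 ^ N * G.card ≤ 2 ^ (3 + T) * ∑ S', nClean F S' ≤ 2 ^ (3 + T) * 2 ^ N * C₀ * N ^ 2`.
-/

set_option autoImplicit false

namespace UF.FP

variable {n : ℕ}

open scoped Classical in
private theorem hlfPt (F : Fam n) (S : Finset (Fin n)) (T : ℕ) {t : Finset (Fin n)} (hts : t ⊆ S)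
    (ht3 : t.card = 3) (hrf : RF F t) (hne : (Vt F t).Nonempty) (hcp : cp F S t (Skel F t) ≤ T) :
    2 ^ S.card ≤ 2 ^ (3 + T) * (S.powerset.filter fun S' => Clean F S' t).card := by
  obtain ⟨Q, hQ⟩ : ∃ Q : Finset (Fin n), Q = (S \ t).filter fun d => (F.K d ∩ Skel F t).Nonempty :=
    ⟨_, rfl⟩
  have hQc : Q.card ≤ T := by
    rw [hQ]
    exact hcp
  have h1 : (S \ (t ∪ Q)).powerset.card ≤ (S.powerset.filter fun S' => Clean F S' t).card := by
    refine Finset.card_le_card_of_injOn (fun U => U ∪ t) ?_ ?_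
    · intro U hU
      have hU' : U ⊆ S \ (t ∪ Q) := Finset.mem_powerset.1 (Finset.mem_coe.1 hU)
      refine Finset.mem_coe.2 (Finset.mem_filter.2 ⟨Finset.mem_powerset.2 ?_, ?_⟩)
      · exact Finset.union_subset (hU'.trans Finset.sdiff_subset) hts
      · obtain ⟨x, hx⟩ := hne
        refine ⟨Finset.subset_union_right, ht3, hrf, ⟨x, hx⟩, ?_⟩
        intro d hd hdt y hy hyd
        have hdU : d ∈ U := (Finset.mem_union.1 hd).resolve_right hdt
        have hd' := Finset.mem_sdiff.1 (hU' hdU)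
        refine hd'.2 (Finset.mem_union_right _ ?_)
        rw [hQ]
        exact Finset.mem_filter.2 ⟨Finset.mem_sdiff.2 ⟨hd'.1, hdt⟩, ⟨y, hyd, hy⟩⟩
    · intro U hU U' hU' hUU
      have hd : ∀ V : Finset (Fin n), V ∈ (((S \ (t ∪ Q)).powerset : Finset (Finset (Fin n))) :
          Set (Finset (Fin n))) → (V ∪ t) \ t = V := by
        intro V hV
        have hV' : V ⊆ S \ (t ∪ Q) := Finset.mem_powerset.1 (Finset.mem_coe.1 hV)
        rw [Finset.union_sdiff_right]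
        refine Finset.sdiff_eq_self_of_disjoint ?_
        rw [Finset.disjoint_left]
        intro i hi hit
        exact (Finset.mem_sdiff.1 (hV' hi)).2 (Finset.mem_union_left _ hit)
      rw [← hd U hU, ← hd U' hU']
      simp only at hUU
      rw [hUU]
  rw [Finset.card_powerset] at h1
  have h2 : S.card ≤ (3 + T) + (S \ (t ∪ Q)).card := by
    have h3 := Finset.le_card_sdiff (t ∪ Q) S
    have h4 := Finset.card_union_le t Q
    omega
  calc 2 ^ S.card ≤ 2 ^ ((3 + T) + (S \ (t ∪ Q)).card) := Nat.pow_le_pow_right (by norm_num) h2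
    _ = 2 ^ (3 + T) * 2 ^ (S \ (t ∪ Q)).card := pow_add _ _ _
    _ ≤ _ := Nat.mul_le_mul_left _ h1

open scoped Classical in
theorem clean_sample (F : Fam n) (S : Finset (Fin n)) (T : ℕ) (C₀ : ℝ) (hC : 0 ≤ C₀)
    (h : ∀ S' ⊆ S, (nClean F S' : ℝ) ≤ C₀ * (S'.card : ℝ) ^ 2) :
    (((S.powersetCard 3).filter fun t => RF F t ∧ (Vt F t).Nonempty ∧
      cp F S t (Skel F t) ≤ T).card : ℝ) ≤ 2 ^ (3 + T) * C₀ * (S.card : ℝ) ^ 2 := by
  obtain ⟨G, hG⟩ : ∃ G : Finset (Finset (Fin n)), G = (S.powersetCard 3).filter fun t =>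
    RF F t ∧ (Vt F t).Nonempty ∧ cp F S t (Skel F t) ≤ T := ⟨_, rfl⟩
  rw [← hG]
  have hd := Finset.sum_card_bipartiteAbove_eq_sum_card_bipartiteBelow
    (s := S.powerset) (t := G) (fun (S' t : Finset (Fin n)) => Clean F S' t)
  have h1 : ∀ t ∈ G, 2 ^ S.card ≤ 2 ^ (3 + T) *
      (S.powerset.bipartiteBelow (fun (S' t : Finset (Fin n)) => Clean F S' t) t).card := by
    intro t ht
    rw [hG] at ht
    obtain ⟨ht1, ht2, ht3, ht4⟩ := Finset.mem_filter.1 ht
    obtain ⟨ht5, ht6⟩ := Finset.mem_powersetCard.1 ht1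
    exact hlfPt F S T ht5 ht6 ht2 ht3 ht4
  have h2 : ∀ S' ∈ S.powerset,
      ((G.bipartiteAbove (fun (S' t : Finset (Fin n)) => Clean F S' t) S').card : ℝ) ≤
      C₀ * (S.card : ℝ) ^ 2 := by
    intro S' hS'
    have hS1 : S' ⊆ S := Finset.mem_powerset.1 hS'
    have h3 : (G.bipartiteAbove (fun (S' t : Finset (Fin n)) => Clean F S' t) S').card ≤
        nClean F S' := by
      rw [nClean]
      refine Finset.card_le_card fun t ht => ?_
      have ht' : Clean F S' t := (Finset.mem_filter.1 ht).2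
      exact Finset.mem_filter.2 ⟨Finset.mem_powersetCard.2 ⟨ht'.sub, ht'.card⟩, ht'⟩
    have h4 : (S'.card : ℝ) ≤ S.card := by exact_mod_cast Finset.card_le_card hS1
    calc ((G.bipartiteAbove (fun (S' t : Finset (Fin n)) => Clean F S' t) S').card : ℝ)
        ≤ (nClean F S' : ℝ) := by exact_mod_cast h3
      _ ≤ C₀ * (S'.card : ℝ) ^ 2 := h S' hS1
      _ ≤ C₀ * (S.card : ℝ) ^ 2 :=
        mul_le_mul_of_nonneg_left (pow_le_pow_left₀ (Nat.cast_nonneg _) h4 2) hC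
  have h5 : (2 : ℝ) ^ S.card * G.card ≤ 2 ^ (3 + T) * (2 ^ S.card * (C₀ * (S.card : ℝ) ^ 2)) := by
    calc (2 : ℝ) ^ S.card * G.card = ∑ _t ∈ G, (2 : ℝ) ^ S.card := by
          rw [Finset.sum_const, nsmul_eq_mul, mul_comm]
      _ ≤ ∑ t ∈ G, 2 ^ (3 + T) *
          ((S.powerset.bipartiteBelow (fun (S' t : Finset (Fin n)) => Clean F S' t) t).card : ℝ) :=
          Finset.sum_le_sum fun t ht => by exact_mod_cast h1 t ht
      _ = 2 ^ (3 + T) * ∑ S' ∈ S.powerset,
          ((G.bipartiteAbove (fun (S' t : Finset (Fin n)) => Clean F S' t) S').card : ℝ) := by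
          rw [← Finset.mul_sum]
          congr 1
          exact_mod_cast hd.symm
      _ ≤ 2 ^ (3 + T) * ∑ _S' ∈ S.powerset, C₀ * (S.card : ℝ) ^ 2 :=
          mul_le_mul_of_nonneg_left (Finset.sum_le_sum h2) (by positivity)
      _ = _ := by
          rw [Finset.sum_const, nsmul_eq_mul, Finset.card_powerset]
          push_cast
          ring
  have h6 : (0 : ℝ) < 2 ^ S.card := by positivity
  refine le_of_mul_le_mul_left ?_ h6
  calc (2 : ℝ) ^ S.card * G.card ≤ 2 ^ (3 + T) * (2 ^ S.card * (C₀ * (S.card : ℝ) ^ 2)) := h5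
    _ = _ := by ring

end UF.FP
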