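import Pool.Agent.Work.MP_4c5ddc_co.FP.AHvB

/-!
# FP/AHvC (M: a triple point is charged by few edges)

PROOF. If `Chg F S a p x c` then `(F.bd x).erase c` is a two-element subset of `F.bd p` (three elements: at most 3
choices), say `{X, Y}` with `X ≠ Y`; `μ₁, μ₂` the tight normals of `X, Y` at `x` are tight at `p` too (`edge_in`), so
there are at most `s ^ 2` choices, and only one choice if `Prp F p`. For given `X, Y, μ₁, μ₂` which are linearly
independent (`prp_indep` at `x`) choose `u ≠ 0` orthogonal to both (`u` depends on `μ₁, μ₂` only). `x` is on the line through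
`p` in direction `u` (see `AHvB`), `x ≠ p`, so `⟪u, p - x⟫ ≠ 0`: it is positive for `u` or for `-u`. So the set of
the charging pairs is contained in the union over at most `3 * s ^ 2 * 2` data (`3 * 1 * 2` if `Prp F p`) of the sets of
`line_charges`, each with at most `a` elements. (`s ≥ 1` here as soon as there is a charging edge; if there is
none the number is `0`.)
-/

set_option autoImplicit false

namespace UF.FP

variable {n : ℕ} {α : ℝ} {s : ℕ} {F : Fam n}

private theorem hvc_orth (μ₁ μ₂ : E3) : ∃ u : E3, u ≠ 0 ∧ inner ℝ μ₁ u = 0 ∧ inner ℝ μ₂ u = 0 := by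
  have h1 : Module.finrank ℝ (Submodule.span ℝ (Set.range ![μ₁, μ₂])) ≤ 2 := by
    refine (finrank_range_le_card (R := ℝ) ![μ₁, μ₂]).trans ?_
    simp
  have h2 : (Submodule.span ℝ (Set.range ![μ₁, μ₂]))ᗮ ≠ ⊥ := by
    intro h
    have h3 := Submodule.finrank_add_finrank_orthogonal (Submodule.span ℝ (Set.range ![μ₁, μ₂]))
    rw [h, finrank_bot] at h3
    have h4 : Module.finrank ℝ E3 = 3 := by simp [E3]
    omega
  obtain ⟨u, hu, hu0⟩ := Submodule.exists_mem_ne_zero_of_ne_bot h2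
  refine ⟨u, hu0, ?_, ?_⟩
  · exact (Submodule.mem_orthogonal _ _).1 hu μ₁ (Submodule.subset_span ⟨0, rfl⟩)
  · exact (Submodule.mem_orthogonal _ _).1 hu μ₂ (Submodule.subset_span ⟨1, rfl⟩)

private theorem hvc_line {μ₁ μ₂ ν₃ u v : E3} (hl : LinearIndependent ℝ ![μ₁, μ₂, ν₃])
    (hu : u ≠ 0) (h1 : inner ℝ μ₁ u = 0) (h2 : inner ℝ μ₂ u = 0) (h3 : inner ℝ μ₁ v = 0)
    (h4 : inner ℝ μ₂ v = 0) : ∃ r : ℝ, v = r • u := by
  have h5 : inner ℝ ν₃ u ≠ (0 : ℝ) := by
    intro h5
    apply hu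
    apply CO.coord_inj hl <;> simp [h1, h2, h5]
  refine ⟨inner ℝ ν₃ v / inner ℝ ν₃ u, ?_⟩
  apply CO.coord_inj hl
  · rw [inner_smul_right, h1, h3, mul_zero]
  · rw [inner_smul_right, h2, h4, mul_zero]
  · rw [inner_smul_right, div_mul_cancel₀ _ h5]

open scoped Classical in
private theorem hvc_main (hF : Good α s F) {S : Finset (Fin n)} {a k : ℕ} {p : E3}
    (hk : ∀ i ∈ F.bd p, ((F.N i).filter fun ν => F.Tight i ν p).card ≤ k) :
    {e : E3 × Fin n | Chg F S a p e.1 e.2}.ncard ≤ 6 * k ^ 2 * a := by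
  set E := {e : E3 × Fin n | Chg F S a p e.1 e.2} with hE
  have hTfin : ({x | (F.bd x).card = 3} ×ˢ (Set.univ : Set (Fin n))).Finite :=
    hF.fin.prod (Set.finite_univ (α := Fin n))
  have hET : E ⊆ {x | (F.bd x).card = 3} ×ˢ (Set.univ : Set (Fin n)) := by
    intro e he
    obtain ⟨y, hy, -⟩ := he.edge
    exact ⟨hy.vt.1.1, Set.mem_univ _⟩
  have hfin : E.Finite := hTfin.subset hET
  rcases E.eq_empty_or_nonempty with hemp | hne
  · rw [hemp, Set.ncard_empty]; exact Nat.zero_le _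
  have h3 : (F.bd p).card = 3 := by
    obtain ⟨e, he⟩ := hne
    exact he.three
  set t := F.bd p with ht
  have hXY : ∀ z, ∃ X Y : Fin n, z ∈ t → X ≠ Y ∧ t.erase z = {X, Y} := by
    intro z
    by_cases hz : z ∈ t
    · have : (t.erase z).card = 2 := by rw [Finset.card_erase_of_mem hz, h3]
      obtain ⟨X, Y, h1, h2⟩ := Finset.card_eq_two.1 this
      exact ⟨X, Y, fun _ => ⟨h1, h2⟩⟩
    · exact ⟨z, z, fun h => absurd h hz⟩
  choose Xf Yf hXYf using hXY
  choose U hU0 hU1 hU2 using hvc_orth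
  set P := hTfin.toFinset with hP
  let G : Fin n → E3 → E3 → E3 → Finset (E3 × Fin n) := fun z μ₁ μ₂ u =>
    P.filter fun e => Chg F S a p e.1 e.2 ∧ (F.bd e.1).erase e.2 = {Xf z, Yf z} ∧
      F.Tight (Xf z) μ₁ e.1 ∧ F.Tight (Yf z) μ₂ e.1 ∧ 0 < inner ℝ u (p - e.1)
  have hG : ∀ z ∈ t, ∀ μ₁ μ₂ u : E3, inner ℝ μ₁ u = 0 → inner ℝ μ₂ u = 0 →
      (G z μ₁ μ₂ u).card ≤ a := by
    intro z hz μ₁ μ₂ u h1 h2
    rw [← Set.ncard_coe_finset]
    refine le_trans (le_of_eq ?_) (line_charges (S := S) (a := a) (p := p) hF (hXYf z hz).1 h1 h2)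
    congr 1
    ext e
    rw [Finset.mem_coe, Finset.mem_filter, hP, Set.Finite.mem_toFinset]
    constructor
    · rintro ⟨-, h⟩; exact h
    · intro h; exact ⟨hET h.1, h⟩
  let Q : Finset (E3 × Fin n) := t.biUnion fun z =>
    ((F.N (Xf z)).filter fun ν => F.Tight (Xf z) ν p).biUnion fun μ₁ =>
      ((F.N (Yf z)).filter fun ν => F.Tight (Yf z) ν p).biUnion fun μ₂ =>
        G z μ₁ μ₂ (U μ₁ μ₂) ∪ G z μ₁ μ₂ (-U μ₁ μ₂)
  have hQ : Q.card ≤ t.card * (k * (k * (a + a))) := by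
    apply Finset.card_biUnion_le_card_mul
    intro z hz
    have hXm : Xf z ∈ t := by
      have : Xf z ∈ t.erase z := by rw [(hXYf z hz).2]; simp
      exact Finset.mem_of_mem_erase this
    have hYm : Yf z ∈ t := by
      have : Yf z ∈ t.erase z := by rw [(hXYf z hz).2]; simp
      exact Finset.mem_of_mem_erase this
    refine (Finset.card_biUnion_le_card_mul _ _ (k * (a + a)) ?_).trans
      (Nat.mul_le_mul_right _ (hk _ hXm))
    intro μ₁ hμ₁
    refine (Finset.card_biUnion_le_card_mul _ _ (a + a) ?_).trans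
      (Nat.mul_le_mul_right _ (hk _ hYm))
    intro μ₂ hμ₂
    refine (Finset.card_union_le _ _).trans (Nat.add_le_add ?_ ?_)
    · exact hG z hz _ _ _ (hU1 _ _) (hU2 _ _)
    · apply hG z hz
      · rw [inner_neg_right, hU1, neg_zero]
      · rw [inner_neg_right, hU2, neg_zero]
  have hEQ : E ⊆ (Q : Set (E3 × Fin n)) := by
    rintro ⟨x, c⟩ he
    have he' : Chg F S a p x c := he
    obtain ⟨y, hy, hp⟩ := he'.edge
    have hc : c ∈ F.bd x := hy.mem
    have hx3 : (F.bd x).card = 3 := hy.vt.1.1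
    have hx2 : ((F.bd x).erase c).card = 2 := by rw [Finset.card_erase_of_mem hc, hx3]
    have hsub : (F.bd x).erase c ⊆ t := he'.erase
    have hdiff : (t \ (F.bd x).erase c).Nonempty := by
      rw [← Finset.card_pos, Finset.card_sdiff_of_subset hsub]
      omega
    obtain ⟨z, hz⟩ := hdiff
    rw [Finset.mem_sdiff] at hz
    have hez : (F.bd x).erase c = t.erase z := by
      apply Finset.eq_of_subset_of_card_le
      · intro w hw
        rw [Finset.mem_erase]
        exact ⟨fun h => hz.2 (h ▸ hw), hsub hw⟩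
      · rw [Finset.card_erase_of_mem hz.1, h3, hx2]
    have hpair : (F.bd x).erase c = {Xf z, Yf z} := by rw [hez, (hXYf z hz.1).2]
    have hXe : Xf z ∈ (F.bd x).erase c := by rw [hpair]; simp
    have hYe : Yf z ∈ (F.bd x).erase c := by rw [hpair]; simp
    obtain ⟨hXc, hXb⟩ := Finset.mem_erase.1 hXe
    obtain ⟨hYc, hYb⟩ := Finset.mem_erase.1 hYe
    have hXB := hXb
    have hYB := hYb
    have hcB := hc
    rw [bd_iff] at hXB hYB hcB
    obtain ⟨μ₁, h1⟩ := hXB.2
    obtain ⟨μ₂, h2⟩ := hYB.2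
    obtain ⟨γ, hγ⟩ := hcB.2
    have hin := edge_in hy hp
    have ht1 := hin.2.1 _ hXb hXc μ₁ h1
    have ht2 := hin.2.1 _ hYb hYc μ₂ h2
    have hli := prp_indep hF hy.vt.1 (hXYf z hz.1).1 hXc hYc hXb hYb hc h1 h2 hγ
    obtain ⟨r, hr⟩ := hvc_line (v := p - x) hli (hU0 μ₁ μ₂) (hU1 _ _) (hU2 _ _)
      (by rw [inner_sub_right, ht1.2, h1.2, sub_self])
      (by rw [inner_sub_right, ht2.2, h2.2, sub_self])
    have hr0 : r ≠ 0 := by
      rintro rfl
      rw [zero_smul, sub_eq_zero] at hr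
      exact he'.ne hr
    have hval : (inner ℝ (U μ₁ μ₂) (p - x) : ℝ) ≠ 0 := by
      rw [hr, inner_smul_right, real_inner_self_eq_norm_sq]
      have := norm_pos_iff.2 (hU0 μ₁ μ₂)
      positivity
    rw [Finset.mem_coe, Finset.mem_biUnion]
    refine ⟨z, hz.1, ?_⟩
    rw [Finset.mem_biUnion]
    refine ⟨μ₁, Finset.mem_filter.2 ⟨ht1.1, ht1⟩, ?_⟩
    rw [Finset.mem_biUnion]
    refine ⟨μ₂, Finset.mem_filter.2 ⟨ht2.1, ht2⟩, ?_⟩
    have hPm : (x, c) ∈ P := by
      rw [hP, Set.Finite.mem_toFinset]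
      exact hET he
    rcases lt_or_gt_of_ne hval with hlt | hgt
    · apply Finset.mem_union_right
      rw [Finset.mem_filter]
      refine ⟨hPm, he', hpair, h1, h2, ?_⟩
      rw [inner_neg_left]
      simpa using hlt
    · apply Finset.mem_union_left
      rw [Finset.mem_filter]
      exact ⟨hPm, he', hpair, h1, h2, hgt⟩
  refine (Set.ncard_le_ncard hEQ (Finset.finite_toSet _)).trans ?_
  rw [Set.ncard_coe_finset]
  refine hQ.trans (le_of_eq ?_)
  rw [h3]
  ring

theorem point_charges (hF : Good α s F) {S : Finset (Fin n)} {a : ℕ} {p : E3} :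
    {e : E3 × Fin n | Chg F S a p e.1 e.2}.ncard ≤ 6 * s ^ 2 * a := by
  classical
  apply hvc_main hF
  intro i _
  exact (Finset.card_filter_le _ _).trans (hF.card i)

theorem point_charges_prp (hF : Good α s F) {S : Finset (Fin n)} {a : ℕ} {p : E3}
    (hp : Prp F p) : {e : E3 × Fin n | Chg F S a p e.1 e.2}.ncard ≤ 6 * a := by
  classical
  have h := hvc_main (S := S) (a := a) (k := 1) hF (p := p) ?_
  · simpa using h
  · intro i hi
    rw [Finset.card_le_one]
    intro ν hν μ hμ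
    rw [Finset.mem_filter] at hν hμ
    exact hp.2 i hi ν μ hν.2 hμ.2

end UF.FP
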