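import Pool.Agent.Work.MP_4c5ddc_co.FP.AHvA
import Pool.Agent.Work.MP_4c5ddc_co.FP.AHvC
import Pool.Agent.Work.MP_4c5ddc_co.FP.ACnt

/-!
# FP/AHv (S-M: the number of heavy edges (double counting))

PROOF. `Hv F S a b` is finite: `e.1` is a triple point (`hF.fin`), `e.2 ∈ Fin n`. Let `P` be the finite set of triple
points `p` (`(F.bd p).card = 3`) with `F.bd p ⊆ S` and `dep F S p ≤ b + 1`. Count the pairs `(e, p)`, `e ∈ Hv F S a b`,
`p ∈ P`, `Chg F S a p e.1 e.2`. For each `e` there are at least `b - a` (`heavy_charges`; `Chg` gives `(F.bd p).card = 3`,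
`F.bd p ⊆ S`). For each `p` there are at most `6 * a` if `Prp F p` (then `p ∈ Vs F S (b + 1)`), and at most
`6 * s ^ 2 * a` otherwise (then `p ∈ ImpS F S` by `triple_imp`). (`Finset.sum_card_bipartiteAbove_eq_sum_card_bipartiteBelow`
or `Finset.card_mul_le_card_mul`.)
-/

set_option autoImplicit false

namespace UF.FP

variable {n : ℕ} {α : ℝ} {s : ℕ} {F : Fam n}

theorem heavy_bound (hF : Good α s F) (S : Finset (Fin n)) {a b : ℕ} (ha : 1 ≤ a) (hab : a ≤ b) :
    (Hv F S a b).Finite ∧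
      (b - a) * (Hv F S a b).ncard
        ≤ 6 * a * ((Vs F S (b + 1)).ncard + s ^ 2 * (ImpS F S).ncard) := by
  classical
  have hTfin : ({x | (F.bd x).card = 3} ×ˢ (Set.univ : Set (Fin n))).Finite :=
    hF.fin.prod (Set.finite_univ (α := Fin n))
  have hHfin : (Hv F S a b).Finite := by
    apply hTfin.subset
    rintro e ⟨-, y, hy, -⟩
    exact ⟨hy.vt.1.1, Set.mem_univ _⟩
  refine ⟨hHfin, ?_⟩
  set H := hHfin.toFinset with hH
  set P : Finset E3 := hF.fin.toFinset.filter fun p => F.bd p ⊆ S ∧ dep F S p ≤ b + 1 with hP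
  have hPm : ∀ p, p ∈ P ↔ (F.bd p).card = 3 ∧ F.bd p ⊆ S ∧ dep F S p ≤ b + 1 := by
    intro p
    rw [hP, Finset.mem_filter, Set.Finite.mem_toFinset, Set.mem_ofPred_eq]
  have h1 : ∀ e ∈ H, b - a ≤ (P.filter fun p => Chg F S a p e.1 e.2).card := by
    intro e he
    rw [hH, Set.Finite.mem_toFinset] at he
    obtain ⟨hS, y, hy, hl, hh⟩ := he
    refine (heavy_charges hF ha hab hS hy hl hh).trans (le_of_eq ?_)
    rw [← Set.ncard_coe_finset]
    congr 1
    ext p
    rw [Finset.mem_coe, Finset.mem_filter, hPm]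
    constructor
    · rintro ⟨k1, k2⟩
      exact ⟨⟨k1.three, k1.sub', k2⟩, k1⟩
    · rintro ⟨⟨-, -, k2⟩, k1⟩
      exact ⟨k1, k2⟩
  have hEfin : ∀ p, {e : E3 × Fin n | Chg F S a p e.1 e.2}.Finite := by
    intro p
    apply hTfin.subset
    intro e he
    obtain ⟨y, hy, -⟩ := he.edge
    exact ⟨hy.vt.1.1, Set.mem_univ _⟩
  have h2 : ∀ p, (H.filter fun e => Chg F S a p e.1 e.2).card
      ≤ {e : E3 × Fin n | Chg F S a p e.1 e.2}.ncard := by
    intro p
    rw [← Set.ncard_coe_finset]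
    apply Set.ncard_le_ncard _ (hEfin p)
    intro e he
    rw [Finset.mem_coe, Finset.mem_filter] at he
    exact he.2
  have h3 := Finset.sum_card_bipartiteAbove_eq_sum_card_bipartiteBelow
    (s := H) (t := P) (fun (e : E3 × Fin n) (p : E3) => Chg F S a p e.1 e.2)
  have h4 : (b - a) * H.card ≤ ∑ e ∈ H, (P.filter fun p => Chg F S a p e.1 e.2).card := by
    have := Finset.card_nsmul_le_sum H (fun e => (P.filter fun p => Chg F S a p e.1 e.2).card)
      (b - a) h1
    rw [smul_eq_mul] at this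
    linarith
  have h5 : ∑ p ∈ P, (H.filter fun e => Chg F S a p e.1 e.2).card
      ≤ ∑ p ∈ P, (if Prp F p then 6 * a else 6 * s ^ 2 * a) := by
    apply Finset.sum_le_sum
    intro p _
    split_ifs with hp
    · exact (h2 p).trans (point_charges_prp hF hp)
    · exact (h2 p).trans (point_charges hF)
  rw [← Finset.sum_filter_add_sum_filter_not P (fun p => Prp F p)
    (fun p => if Prp F p then 6 * a else 6 * s ^ 2 * a)] at h5
  have h6 : ∑ p ∈ P with Prp F p, (if Prp F p then 6 * a else 6 * s ^ 2 * a)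
      = (P.filter fun p => Prp F p).card * (6 * a) := by
    rw [Finset.sum_congr rfl (g := fun _ => 6 * a), Finset.sum_const, smul_eq_mul]
    intro p hp
    rw [if_pos (Finset.mem_filter.1 hp).2]
  have h7 : ∑ p ∈ P with ¬ Prp F p, (if Prp F p then 6 * a else 6 * s ^ 2 * a)
      = (P.filter fun p => ¬ Prp F p).card * (6 * s ^ 2 * a) := by
    rw [Finset.sum_congr rfl (g := fun _ => 6 * s ^ 2 * a), Finset.sum_const, smul_eq_mul]
    intro p hp
    rw [if_neg (Finset.mem_filter.1 hp).2]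
  rw [h6, h7] at h5
  have hVfin : (Vs F S (b + 1)).Finite := hF.fin.subset fun p hp => hp.1.1
  have h8 : (P.filter fun p => Prp F p).card ≤ (Vs F S (b + 1)).ncard := by
    rw [← Set.ncard_coe_finset]
    apply Set.ncard_le_ncard _ hVfin
    intro p hp
    rw [Finset.mem_coe, Finset.mem_filter, hPm] at hp
    exact ⟨hp.2, hp.1.2.1, hp.1.2.2⟩
  have h9 : (P.filter fun p => ¬ Prp F p).card ≤ (ImpS F S).ncard := by
    rw [← Set.ncard_coe_finset]
    apply Set.ncard_le_ncard _ (Imp_count hF S).1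
    intro p hp
    rw [Finset.mem_coe, Finset.mem_filter, hPm] at hp
    exact triple_imp hF hp.1.1 hp.1.2.1 hp.2
  have h10 : (Hv F S a b).ncard = H.card := by
    rw [hH, Set.ncard_eq_toFinset_card _ hHfin]
  rw [h10]
  have h11 : (b - a) * H.card ≤ (P.filter fun p => Prp F p).card * (6 * a)
      + (P.filter fun p => ¬ Prp F p).card * (6 * s ^ 2 * a) := by
    refine h4.trans (le_trans (le_of_eq h3) h5)
  refine h11.trans ?_
  calc (P.filter fun p => Prp F p).card * (6 * a)
      + (P.filter fun p => ¬ Prp F p).card * (6 * s ^ 2 * a)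
      ≤ (Vs F S (b + 1)).ncard * (6 * a) + (ImpS F S).ncard * (6 * s ^ 2 * a) :=
        Nat.add_le_add (Nat.mul_le_mul_right _ h8) (Nat.mul_le_mul_right _ h9)
    _ = 6 * a * ((Vs F S (b + 1)).ncard + s ^ 2 * (ImpS F S).ncard) := by ring

end UF.FP
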