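import Pool.Agent.Work.MP_4c5ddc_co.FP.AEdg

/-!
# FP/AHvA (M: a heavy edge charges many triple points)

PROOF. `t := F.bd x` (three elements, `Prp F x`). For `d ∈ S \ t` with `K d ∩ [x, y] ≠ ∅` and `x ∉ K d`
let `p d` be the point of the compact convex set `K d ∩ [x, y]` nearest to `x`
(`IsCompact.exists_isMinOn` for `dist x`), `p d ≠ x`. Then
`d ∈ F.bd (p d)`: if no normal of `d` were tight at `p d` then `p d ∈ interior (K d)` (`int_of`) and points of
`[x, y]` slightly nearer to `x` would be in `K d`. `i ∈ F.bd (p d)` for the two `i ∈ t`, `i ≠ c` (`edge_in`). So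
`F.bd (p d) = t.erase c ∪ {d}` by `hF.three` (these are three different bodies), in particular it has exactly three
elements, it is contained in `S`, and different `d` have different `p d`.
Number of these `d`: at least `b - a + 1` (those which meet `[x, y]`: at least `b`, those with `x ∈ K d`: fewer than `a`).
Order them by `dist x (p d)` (the distances are different: two points of `[x, y]` with the same distance from `x` are
equal) and take the `b - a` nearest ones (for instance: by induction a finset of `m` elements contains for each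
`k ≤ m` a subset `D` with `k` elements such that `dist x (p d) < dist x (p e)` for `d ∈ D`, `e ∉ D`;
or sort with `Finset.orderEmbOfFin` of the image in `ℝ`). Depth of `p d`, `d ∈ D`: let `e ∈ S` with `p d ∈ interior (K e)`.
`e ∉ F.bd (p d)` (`not_int`). If `e = c`: one body. If `e ∈ S \ t`: `K e` meets `[x, y]`; either `x ∈ K e` (fewer than
`a` bodies) or `p e` is defined and `dist x (p e) ≤ dist x (p d)`, `e ≠ d`, so `e ∈ D` (at most `b - a` bodies). So
the depth is at most `1 + (a - 1) + (b - a) ≤ b`.
-/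

set_option autoImplicit false

namespace UF.FP

variable {n : ℕ} {α : ℝ} {s : ℕ} {F : Fam n}

private theorem hva_order (M : Finset (Fin n)) (f : Fin n → ℝ) (hf : Set.InjOn f (M : Set (Fin n)))
    (k : ℕ) (hk : k ≤ M.card) :
    ∃ D : Finset (Fin n), D ⊆ M ∧ D.card = k ∧ ∀ d ∈ D, ∀ e ∈ M, e ∉ D → f d < f e := by
  classical
  induction k with
  | zero => exact ⟨∅, Finset.empty_subset _, rfl, fun d hd => absurd hd (Finset.notMem_empty d)⟩
  | succ k ih =>
    obtain ⟨D, hD1, hD2, hD3⟩ := ih (by omega)
    have hne : (M \ D).Nonempty := by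
      rw [← Finset.card_pos, Finset.card_sdiff_of_subset hD1]
      omega
    obtain ⟨m, hm, hmin⟩ := Finset.exists_min_image (M \ D) f hne
    rw [Finset.mem_sdiff] at hm
    refine ⟨insert m D, ?_, ?_, ?_⟩
    · intro z hz
      rcases Finset.mem_insert.1 hz with h | h
      · rw [h]; exact hm.1
      · exact hD1 h
    · rw [Finset.card_insert_of_notMem hm.2, hD2]
    · intro d hd e he hed
      have he1 : e ≠ m := fun h => hed (h ▸ Finset.mem_insert_self _ _)
      have he2 : e ∉ D := fun h => hed (Finset.mem_insert_of_mem h)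
      rcases Finset.mem_insert.1 hd with h | h
      · subst h
        refine lt_of_le_of_ne (hmin e (Finset.mem_sdiff.2 ⟨he, he2⟩)) ?_
        intro h'
        exact he1 (hf he hm.1 h'.symm)
      · exact hD3 d h e he he2

private theorem hva_seg {x y z w : E3} (hz : z ∈ segment ℝ x y) (hw : w ∈ segment ℝ x y)
    (h : dist x z = dist x w) : z = w := by
  rw [segment_eq_image'] at hz hw
  obtain ⟨r, hr, rfl⟩ := hz
  obtain ⟨r', hr', rfl⟩ := hw
  simp only [dist_self_add_right, norm_smul, Real.norm_eq_abs, abs_of_nonneg hr.1,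
    abs_of_nonneg hr'.1] at h
  by_cases hyx : y - x = 0
  · simp [hyx]
  · have h0 : ‖y - x‖ ≠ 0 := by rwa [norm_ne_zero_iff]
    have := mul_right_cancel₀ h0 h
    rw [this]

private theorem hva_near {K : Set E3} {x y : E3} (hK : IsCompact K)
    (hne : (K ∩ segment ℝ x y).Nonempty) :
    ∃ p, p ∈ K ∧ p ∈ segment ℝ x y ∧ (∀ q ∈ K, q ∈ segment ℝ x y → dist x p ≤ dist x q) ∧
      (x ∉ K → p ∉ interior K) := by
  have hcl : IsClosed (segment ℝ x y) := by
    rw [segment_eq_image']
    exact (isCompact_Icc.image (by fun_prop)).isClosed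
  obtain ⟨p, hp, hmin⟩ := (hK.inter_right hcl).exists_isMinOn hne
    (f := fun q => dist x q) (by fun_prop)
  have hmin' : ∀ q ∈ K, q ∈ segment ℝ x y → dist x p ≤ dist x q :=
    fun q h1 h2 => hmin ⟨h1, h2⟩
  refine ⟨p, hp.1, hp.2, hmin', ?_⟩
  intro hx hint
  have hpx : p ≠ x := fun h => hx (h ▸ hp.1)
  have hcont : Filter.Tendsto (fun t : ℝ => p + t • (x - p)) (nhds 0)
      (nhds (p + (0 : ℝ) • (x - p))) := Continuous.tendsto (by fun_prop) 0
  rw [zero_smul, add_zero] at hcont
  have hev : ∀ᶠ t : ℝ in nhds 0, p + t • (x - p) ∈ K :=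
    hcont.eventually (mem_interior_iff_mem_nhds.1 hint)
  obtain ⟨δ, hδ, hball⟩ := Metric.eventually_nhds_iff.1 hev
  have hm : 0 < min (δ / 2) (1 / 2) := lt_min (by positivity) (by norm_num)
  have hm1 : min (δ / 2) (1 / 2) ≤ 1 / 2 := min_le_right _ _
  have hm2 : min (δ / 2) (1 / 2) ≤ δ / 2 := min_le_left _ _
  have h1 : p + (min (δ / 2) (1 / 2)) • (x - p) ∈ K := by
    apply hball
    rw [Real.dist_eq, sub_zero, abs_of_pos hm]
    linarith
  have h2 : p + (min (δ / 2) (1 / 2)) • (x - p) ∈ segment ℝ x y := by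
    have hconv := convex_segment (𝕜 := ℝ) x y
    exact hconv.add_smul_sub_mem hp.2 (left_mem_segment ℝ x y) ⟨hm.le, by linarith⟩
  have h3 := hmin' _ h1 h2
  have h4 : dist x (p + (min (δ / 2) (1 / 2)) • (x - p))
      = (1 - min (δ / 2) (1 / 2)) * dist x p := by
    rw [dist_eq_norm, dist_eq_norm]
    have : x - (p + (min (δ / 2) (1 / 2)) • (x - p))
        = (1 - min (δ / 2) (1 / 2)) • (x - p) := by
      module
    rw [this, norm_smul, Real.norm_eq_abs, abs_of_nonneg (by linarith)]
  rw [h4] at h3
  have h5 : 0 < dist x p := dist_pos.2 hpx.symm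
  nlinarith

theorem heavy_charges (hF : Good α s F) {S : Finset (Fin n)} {a b : ℕ} (ha : 1 ≤ a) (hab : a ≤ b)
    {x y : E3} {c : Fin n} (hS : F.bd x ⊆ S) (h : Edge F (F.bd x) c x y)
    (h1 : cp F S (F.bd x) {x} < a) (h2 : b ≤ cp F S (F.bd x) (segment ℝ x y)) :
    b - a ≤ {p | Chg F S a p x c ∧ dep F S p ≤ b + 1}.ncard := by
  classical
  set t := F.bd x with ht
  have hprp : Prp F x := h.vt.1
  have h3 : t.card = 3 := hprp.1
  have hc : c ∈ t := h.mem
  -- the bodies which meet the edge and do not contain x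
  set A := (S \ t).filter (fun d => (F.K d ∩ segment ℝ x y).Nonempty) with hA
  set B := (S \ t).filter (fun d => (F.K d ∩ {x}).Nonempty) with hB
  have hAc : b ≤ A.card := by
    have := h2
    unfold cp at this
    refine this.trans (le_of_eq ?_)
    congr 1
  have hBc : B.card < a := by
    have := h1
    unfold cp at this
    refine lt_of_le_of_lt (le_of_eq ?_) this
    congr 1
  have hBx : ∀ d, d ∈ B ↔ d ∈ S ∧ d ∉ t ∧ x ∈ F.K d := by
    intro d
    rw [hB, Finset.mem_filter, Finset.mem_sdiff, Set.inter_singleton_nonempty, and_assoc]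
  set M := A \ B with hM
  have hMc : b - a ≤ M.card := by
    have := Finset.le_card_sdiff B A
    rw [← hM] at this
    omega
  have hMx : ∀ d, d ∈ M ↔ d ∈ S ∧ d ∉ t ∧ (F.K d ∩ segment ℝ x y).Nonempty ∧ x ∉ F.K d := by
    intro d
    rw [hM, Finset.mem_sdiff, hBx, hA, Finset.mem_filter, Finset.mem_sdiff]
    tauto
  have hex : ∀ d, ∃ p, d ∈ M → p ∈ F.K d ∧ p ∈ segment ℝ x y ∧
      (∀ q ∈ F.K d, q ∈ segment ℝ x y → dist x p ≤ dist x q) ∧ p ∉ interior (F.K d) := by
    intro d
    by_cases hd : d ∈ M
    · obtain ⟨p, h1, h2, h3, h4⟩ := hva_near (compact_K hF d) ((hMx d).1 hd).2.2.1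
      exact ⟨p, fun _ => ⟨h1, h2, h3, h4 ((hMx d).1 hd).2.2.2⟩⟩
    · exact ⟨x, fun h => absurd h hd⟩
  choose p hp using hex
  have hbd : ∀ d ∈ M, F.bd (p d) = insert d (t.erase c) := by
    intro d hd
    obtain ⟨h1, h2, h4, h5⟩ := hp d hd
    symm
    apply Finset.eq_of_subset_of_card_le
    · intro z hz
      rcases Finset.mem_insert.1 hz with hz | hz
      · subst hz
        rw [bd_iff]
        refine ⟨h1, ?_⟩
        by_contra hno
        push Not at hno
        exact h5 (int_of hF h1 hno)
      · obtain ⟨hz1, hz2⟩ := Finset.mem_erase.1 hz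
        exact (edge_in h h2).2.2 z hz2 hz1
    · have hnot : d ∉ t.erase c := fun h => ((hMx d).1 hd).2.1 (Finset.mem_of_mem_erase h)
      rw [Finset.card_insert_of_notMem hnot, Finset.card_erase_of_mem hc, h3]
      exact hF.three _
  have hinj : Set.InjOn p (M : Set (Fin n)) := by
    intro d hd e he hde
    have h1 := hbd d hd
    rw [hde, hbd e he] at h1
    have h2 : d ∈ insert e (t.erase c) := by
      rw [h1]; exact Finset.mem_insert_self _ _
    rcases Finset.mem_insert.1 h2 with h2 | h2
    · exact h2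
    · exact absurd (Finset.mem_of_mem_erase h2) ((hMx d).1 hd).2.1
  have hfinj : Set.InjOn (fun d => dist x (p d)) (M : Set (Fin n)) := by
    intro d hd e he hde
    exact hinj hd he (hva_seg (hp d hd).2.1 (hp e he).2.1 hde)
  obtain ⟨D, hD1, hD2, hD3⟩ := hva_order M _ hfinj (b - a) hMc
  have hsub : p '' (D : Set (Fin n)) ⊆ {p | Chg F S a p x c ∧ dep F S p ≤ b + 1} := by
    rintro _ ⟨d, hd, rfl⟩
    have hd' : d ∈ D := hd
    have hdM : d ∈ M := hD1 hd'
    have hb := hbd d hdM
    have hdt : d ∉ t := ((hMx d).1 hdM).2.1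
    have hdK : x ∉ F.K d := ((hMx d).1 hdM).2.2.2
    have hcard : (F.bd (p d)).card = 3 := by
      have hnot : d ∉ t.erase c := fun h => hdt (Finset.mem_of_mem_erase h)
      rw [hb, Finset.card_insert_of_notMem hnot, Finset.card_erase_of_mem hc, h3]
    refine ⟨⟨hS, ?_, hcard, ?_, ?_, h1, ?_⟩, ?_⟩
    · rw [hb]
      intro z hz
      rcases Finset.mem_insert.1 hz with hz | hz
      · rw [hz]; exact ((hMx d).1 hdM).1
      · exact hS (Finset.mem_of_mem_erase hz)
    · rw [hb]; exact Finset.subset_insert _ _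
    · intro hpx
      exact hdK (hpx ▸ (hp d hdM).1)
    · exact ⟨y, h, (hp d hdM).2.1⟩
    · have hle : (S.filter fun e => p d ∈ interior (F.K e)) ⊆ insert c (B ∪ D) := by
        intro e he
        obtain ⟨heS, hei⟩ := Finset.mem_filter.1 he
        have hek : p d ∈ F.K e := interior_subset hei
        by_cases het : e ∈ t
        · by_cases hec : e = c
          · rw [hec]; exact Finset.mem_insert_self _ _
          · exfalso
            have := (edge_in h (hp d hdM).2.1).2.2 e het hec
            rw [bd_iff] at this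
            obtain ⟨ν, hν⟩ := this.2
            exact not_int hF hν hei
        · apply Finset.mem_insert_of_mem
          by_cases hxe : x ∈ F.K e
          · exact Finset.mem_union_left _ ((hBx e).2 ⟨heS, het, hxe⟩)
          · apply Finset.mem_union_right
            have heM : e ∈ M := (hMx e).2 ⟨heS, het, ⟨p d, hek, (hp d hdM).2.1⟩, hxe⟩
            by_contra heD
            have h6 := hD3 d hd' e heM heD
            have h7 := (hp e heM).2.2.1 (p d) hek (hp d hdM).2.1
            exact absurd h6 (not_lt.2 h7)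
      have h8 : dep F S (p d) ≤ (insert c (B ∪ D)).card := by
        unfold dep
        refine le_trans (le_of_eq ?_) (Finset.card_le_card hle)
        congr 1
      have h9 := Finset.card_insert_le c (B ∪ D)
      have h10 := Finset.card_union_le B D
      omega
  have hfin : {p | Chg F S a p x c ∧ dep F S p ≤ b + 1}.Finite :=
    hF.fin.subset fun q hq => hq.1.three
  calc b - a = D.card := hD2.symm
    _ = (p '' (D : Set (Fin n))).ncard := by
        rw [Set.InjOn.ncard_image (hinj.mono fun z hz => hD1 hz), Set.ncard_coe_finset]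
    _ ≤ _ := Set.ncard_le_ncard hsub hfin

end UF.FP
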