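import Pool.Agent.Work.MP_4c5ddc_co.FP.AEdg

/-!
# FP/AHvB (M: a triple point is charged by few edges, one line and one orientation)

PROOF. `X ≠ Y` are two bodies, `μ₁, μ₂` normals, `u` a vector, `p` a point. Consider the pairs `(x, c)` with `Chg F S a p x c`,
`(F.bd x).erase c = {X, Y}`, `μ₁` tight for `X` at `x`, `μ₂` tight for `Y` at `x`, `0 < ⟪u, p - x⟫`, where `u` is
orthogonal to `μ₁` and `μ₂`. `F.bd x = {X, Y, c}`, `c ≠ X, Y`. Let `[x, y]` be the edge, `p ∈ [x, y]`. All these `x`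
and `p` are on the line `{⟪μ₁, z⟫ = h X μ₁, ⟪μ₂, z⟫ = h Y μ₂}` (`edge_in`), on which (if there is such a pair)
`z = p + r • u`, because `μ₁, μ₂` are linearly independent (`prp_indep`) and `u ≠ 0`, `u ⟂ μ₁, μ₂`: so `x = p - r • u`
with `r = ⟪u, p - x⟫ / ⟪u, u⟫ > 0`.
(1) `c` determines `x`: if `(x, c), (x', c)` are two pairs then `F.bd x = F.bd x' = {X, Y, c}`, by `edge_line`
`[x, y] = Ln F t c x = Ln F t c x' = [x', y']`; `x` is an end point of the first segment, `x'` of the
second one; `x, x'` are both on the same side of `p` (strictly), so `x = x'` (if `x' = y` and `y' = x` then `p ∈ [x, y]`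
lies between `x` and `x'`, against `0 < ⟪u, p - x⟫`, `0 < ⟪u, p - x'⟫`).
(2) Choose the pair `(x₁, c₁)` with `r₁` minimal (the set of pairs is finite: `x` is a triple point,
`hF.fin`; if it is empty there is nothing to prove). For any other pair `(x, c)`: `x₁ ∈ [x, p] ⊆ [x, y] ⊆ K c`, and
`c ∉ F.bd x₁ = {X, Y, c₁}` by (1) (`c ≠ c₁`). So `c` is counted in `cp F S (F.bd x₁) {x₁} < a`. Hence there are at most `a`
different `c`, and by (1) at most `a` pairs.
-/

set_option autoImplicit false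

namespace UF.FP

variable {n : ℕ} {α : ℝ} {s : ℕ} {F : Fam n}

private theorem hvb_line {μ₁ μ₂ ν₃ u v : E3} (hl : LinearIndependent ℝ ![μ₁, μ₂, ν₃])
    (hu : u ≠ 0) (h1 : inner ℝ μ₁ u = 0) (h2 : inner ℝ μ₂ u = 0) (h3 : inner ℝ μ₁ v = 0)
    (h4 : inner ℝ μ₂ v = 0) : ∃ r : ℝ, v = r • u := by
  have h5 : inner ℝ ν₃ u ≠ (0 : ℝ) := by
    intro h5
    apply hu
    apply CO.coord_inj hl <;> simp [h1, h2, h5]
  refine ⟨inner ℝ ν₃ v / inner ℝ ν₃ u, ?_⟩
  apply CO.coord_inj hl
  · rw [inner_smul_right, h1, h3, mul_zero]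
  · rw [inner_smul_right, h2, h4, mul_zero]
  · rw [inner_smul_right, div_mul_cancel₀ _ h5]

private theorem hvb_end {u x y x' p : E3} (hx' : x' ∈ segment ℝ x y) (hp : p ∈ segment ℝ x y)
    (h : inner ℝ u x < (inner ℝ u p : ℝ)) : (inner ℝ u x : ℝ) ≤ inner ℝ u x' := by
  rw [segment_eq_image'] at hx' hp
  obtain ⟨r, hr, rfl⟩ := hx'
  obtain ⟨r', hr', rfl⟩ := hp
  simp only [inner_add_right, inner_smul_right] at h ⊢
  have h1 : 0 < r' * inner ℝ u (y - x) := by linarith
  have h2 : (0 : ℝ) ≤ inner ℝ u (y - x) := by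
    by_contra h2
    push Not at h2
    have := mul_nonpos_of_nonneg_of_nonpos hr'.1 h2.le
    linarith
  have := mul_nonneg hr.1 h2
  linarith

private theorem hvb_data (hF : Good α s F) {S : Finset (Fin n)} {a : ℕ} {p u μ₁ μ₂ x : E3}
    {X Y c : Fin n} (hXY : X ≠ Y) (hu1 : inner ℝ μ₁ u = 0) (hu2 : inner ℝ μ₂ u = 0)
    (h : Chg F S a p x c) (he : (F.bd x).erase c = {X, Y}) (h1 : F.Tight X μ₁ x)
    (h2 : F.Tight Y μ₂ x) (h3 : 0 < inner ℝ u (p - x)) :
    F.bd x = {c, X, Y} ∧ c ≠ X ∧ c ≠ Y ∧ ∃ r : ℝ, 0 < r ∧ x = p - r • u := by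
  obtain ⟨y, hy, hp⟩ := h.edge
  have hc : c ∈ F.bd x := hy.mem
  have hbd : F.bd x = {c, X, Y} := by
    rw [← Finset.insert_erase hc, he]
  have hcX : c ≠ X := by
    intro hcX
    have : X ∈ (F.bd x).erase c := by rw [he]; simp
    exact (Finset.mem_erase.1 this).1 hcX.symm
  have hcY : c ≠ Y := by
    intro hcY
    have : Y ∈ (F.bd x).erase c := by rw [he]; simp
    exact (Finset.mem_erase.1 this).1 hcY.symm
  refine ⟨hbd, hcX, hcY, ?_⟩
  have hXb : X ∈ F.bd x := by rw [hbd]; simp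
  have hYb : Y ∈ F.bd x := by rw [hbd]; simp
  have hcB := hc
  rw [bd_iff] at hcB
  obtain ⟨γ, hγ⟩ := hcB.2
  have hli := prp_indep hF hy.vt.1 hXY hcX.symm hcY.symm hXb hYb hc h1 h2 hγ
  have hin := edge_in hy hp
  have ht1 := hin.2.1 X hXb hcX.symm μ₁ h1
  have ht2 := hin.2.1 Y hYb hcY.symm μ₂ h2
  have hu : u ≠ 0 := by
    rintro rfl
    simp at h3
  obtain ⟨r, hr⟩ := hvb_line (v := p - x) hli hu hu1 hu2
    (by rw [inner_sub_right, ht1.2, h1.2, sub_self]) (by rw [inner_sub_right, ht2.2, h2.2, sub_self])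
  refine ⟨r, ?_, ?_⟩
  · rw [hr, inner_smul_right, real_inner_self_eq_norm_sq] at h3
    have : 0 < ‖u‖ ^ 2 := by
      have := norm_pos_iff.2 hu
      positivity
    exact pos_of_mul_pos_left h3 this.le
  · rw [← hr]; abel

theorem line_charges (hF : Good α s F) {S : Finset (Fin n)} {a : ℕ} {p u μ₁ μ₂ : E3}
    {X Y : Fin n} (hXY : X ≠ Y) (hu1 : inner ℝ μ₁ u = 0) (hu2 : inner ℝ μ₂ u = 0) :
    {e : E3 × Fin n | Chg F S a p e.1 e.2 ∧ (F.bd e.1).erase e.2 = {X, Y} ∧ F.Tight X μ₁ e.1 ∧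
      F.Tight Y μ₂ e.1 ∧ 0 < inner ℝ u (p - e.1)}.ncard ≤ a := by
  classical
  set E := {e : E3 × Fin n | Chg F S a p e.1 e.2 ∧ (F.bd e.1).erase e.2 = {X, Y} ∧
    F.Tight X μ₁ e.1 ∧ F.Tight Y μ₂ e.1 ∧ 0 < inner ℝ u (p - e.1)} with hE
  have hfin : E.Finite := by
    apply (hF.fin.prod (Set.finite_univ (α := Fin n))).subset
    intro e he
    obtain ⟨y, hy, -⟩ := he.1.edge
    exact ⟨hy.vt.1.1, Set.mem_univ _⟩
  have hinj : ∀ e ∈ E, ∀ e' ∈ E, e.2 = e'.2 → e = e' := by
    rintro ⟨x, c⟩ ⟨h1, h2, h3, h4, h5⟩ ⟨x', c'⟩ ⟨h1', h2', h3', h4', h5'⟩ hcc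
    simp only at hcc h1 h2 h3 h4 h5 h1' h2' h3' h4' h5'
    subst hcc
    obtain ⟨hb, hcX, hcY, r, hr, hx⟩ := hvb_data hF hXY hu1 hu2 h1 h2 h3 h4 h5
    obtain ⟨hb', -, -, r', hr', hx'⟩ := hvb_data hF hXY hu1 hu2 h1' h2' h3' h4' h5'
    obtain ⟨y, hy, hp⟩ := h1.edge
    obtain ⟨y', hy', hp'⟩ := h1'.edge
    have hbb : F.bd x' = F.bd x := by rw [hb, hb']
    rw [hbb] at hy'
    have hLn : Ln F (F.bd x) c x = Ln F (F.bd x) c x' := by
      apply edge_line hy.vt hy'.vt
      intro i hi hic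
      rw [hb] at hi
      rcases Finset.mem_insert.1 hi with hi | hi
      · exact absurd hi hic
      · rcases Finset.mem_insert.1 hi with hi | hi
        · rw [hi]; exact ⟨μ₁, h3, h3'⟩
        · rw [Finset.mem_singleton] at hi
          rw [hi]; exact ⟨μ₂, h4, h4'⟩
    rw [hy.seg, hy'.seg] at hLn
    have hxx' : x' ∈ segment ℝ x y := by rw [hLn]; exact left_mem_segment ℝ x' y'
    have hx'x : x ∈ segment ℝ x' y' := by rw [← hLn]; exact left_mem_segment ℝ x y
    rw [inner_sub_right] at h5 h5'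
    have h6 := hvb_end (u := u) hxx' hp (by linarith)
    have h7 := hvb_end (u := u) hx'x hp' (by linarith)
    have h8 : (inner ℝ u x : ℝ) = inner ℝ u x' := le_antisymm h6 h7
    rw [hx, hx', inner_sub_right, inner_sub_right, inner_smul_right, inner_smul_right] at h8
    have hu : u ≠ 0 := by
      rintro rfl
      simp at h5
    have h9 : (inner ℝ u u : ℝ) ≠ 0 := by
      rw [real_inner_self_eq_norm_sq]
      have := norm_pos_iff.2 hu
      positivity
    have h10 : r = r' := by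
      apply mul_right_cancel₀ h9
      linarith
    have : x = x' := by rw [hx, hx', h10]
    rw [this]
  rcases E.eq_empty_or_nonempty with hemp | hne
  · rw [hemp, Set.ncard_empty]; exact Nat.zero_le _
  obtain ⟨e₁, he₁, hmax⟩ := Set.exists_max_image E (fun e => (inner ℝ u e.1 : ℝ)) hfin hne
  obtain ⟨x₁, c₁⟩ := e₁
  obtain ⟨k1, k2, k3, k4, k5⟩ := he₁
  simp only at k1 k2 k3 k4 k5
  obtain ⟨hb₁, hcX₁, hcY₁, r₁, hr₁, hx₁⟩ := hvb_data hF hXY hu1 hu2 k1 k2 k3 k4 k5
  have hlight := k1.light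
  unfold cp at hlight
  have himg : Prod.snd '' E ⊆ ((insert c₁ ((S \ F.bd x₁).filter
      fun d => (F.K d ∩ {x₁}).Nonempty) : Finset (Fin n)) : Set (Fin n)) := by
    rintro _ ⟨⟨x, c⟩, he, rfl⟩
    obtain ⟨h1, h2, h3, h4, h5⟩ := he
    simp only at h1 h2 h3 h4 h5
    obtain ⟨hb, hcX, hcY, r, hr, hx⟩ := hvb_data hF hXY hu1 hu2 h1 h2 h3 h4 h5
    obtain ⟨y, hy, hp⟩ := h1.edge
    rw [Finset.mem_coe]
    by_cases hcc : c = c₁
    · exact Finset.mem_insert.2 (Or.inl hcc)
    · apply Finset.mem_insert_of_mem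
      rw [Finset.mem_filter, Finset.mem_sdiff, Set.inter_singleton_nonempty]
      refine ⟨⟨h1.sub hy.mem, ?_⟩, ?_⟩
      · rw [hb₁]
        intro hmem
        rcases Finset.mem_insert.1 hmem with hi | hi
        · exact hcc hi
        · rcases Finset.mem_insert.1 hi with hi | hi
          · exact hcX hi
          · exact hcY (Finset.mem_singleton.1 hi)
      · have hle : (inner ℝ u x : ℝ) ≤ inner ℝ u x₁ :=
          hmax (x, c) ⟨h1, h2, h3, h4, h5⟩
        have hu : u ≠ 0 := by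
          rintro rfl
          simp at h5
        have h9 : 0 < (inner ℝ u u : ℝ) := by
          rw [real_inner_self_eq_norm_sq]
          have := norm_pos_iff.2 hu
          positivity
        have hrr : r₁ ≤ r := by
          rw [hx, hx₁, inner_sub_right, inner_sub_right, inner_smul_right,
            inner_smul_right] at hle
          by_contra hlt
          push Not at hlt
          have := mul_lt_mul_of_pos_right hlt h9
          linarith
        have hseg : x₁ ∈ segment ℝ x y := by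
          have hconv := convex_segment (𝕜 := ℝ) x y
          have h11 : x + (1 - r₁ / r) • (p - x) ∈ segment ℝ x y := by
            apply hconv.add_smul_sub_mem (left_mem_segment ℝ x y) hp
            constructor
            · have : r₁ / r ≤ 1 := by rw [div_le_one hr]; exact hrr
              linarith
            · have : 0 ≤ r₁ / r := by positivity
              linarith
          have h12 : x + (1 - r₁ / r) • (p - x) = x₁ := by
            have h13 : p - x = r • u := by rw [hx]; abel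
            rw [h13, smul_smul, sub_mul, div_mul_cancel₀ _ hr.ne', one_mul, hx, hx₁, sub_smul]
            abel
          rw [← h12]; exact h11
        exact (edge_in hy hseg).1 c hy.mem
  have hcard : (Prod.snd '' E).ncard = E.ncard := by
    apply Set.InjOn.ncard_image
    intro e he e' he' hh
    exact hinj e he e' he' hh
  rw [← hcard]
  refine (Set.ncard_le_ncard himg (Finset.finite_toSet _)).trans ?_
  rw [Set.ncard_coe_finset]
  refine (Finset.card_insert_le _ _).trans ?_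
  refine le_trans (Nat.succ_le_of_lt (lt_of_le_of_lt (le_of_eq ?_) hlight)) le_rfl
  congr 1

end UF.FP
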