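import Pool.Agent.Work.MP_4c5ddc_co.FP.ABas
import Pool.Agent.Work.MP_4c5ddc_co.CO.Coord

/-!
# FP/APar (S-M: the direction of an edge)

PROOF. `t = {a, b, c}` (`t.card = 3`, `c ∈ t`), `F.bd x = t`, `ν₁, ν₂, ν₃` the unique (`Prp`) tight normals of `a, b, c` at `x`;
`![ν₁, ν₂, ν₃]` is linearly independent (`prp_indep`). There is `d` with `⟪ν₁, d⟫ = ⟪ν₂, d⟫ = 0`, `⟪ν₃, d⟫ = -1`: the
orthogonal complement of `span {ν₁, ν₂}` is not contained in the orthogonal complement of `ν₃` (otherwise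
`ν₃ ∈ span {ν₁, ν₂}`, `Submodule.orthogonal_orthogonal`); rescale. (Or: the linear map
`p ↦ (⟪ν₁, p⟫, ⟪ν₂, p⟫, ⟪ν₃, p⟫)` from `E3` to `Fin 3 → ℝ` is injective by `CO.coord_inj`, so surjective.) Let `z` satisfy the
two equations (`⟪ν₁, z⟫ = h a ν₁ = ⟪ν₁, x⟫`, `⟪ν₂, z⟫ = ⟪ν₂, x⟫`), `τ = ⟪ν₃, x⟫ - ⟪ν₃, z⟫`: `z = x + τ • d` by `CO.coord_inj`.
-/

set_option autoImplicit false

namespace UF.FP

variable {n : ℕ} {α : ℝ} {s : ℕ} {F : Fam n}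

private theorem par_dual {ν₁ ν₂ ν₃ : E3} (hl : LinearIndependent ℝ ![ν₁, ν₂, ν₃]) (r₁ r₂ r₃ : ℝ) :
    ∃ d : E3, inner ℝ ν₁ d = r₁ ∧ inner ℝ ν₂ d = r₂ ∧ inner ℝ ν₃ d = r₃ := by
  let L : E3 →ₗ[ℝ] (Fin 3 → ℝ) :=
    LinearMap.pi (fun i => (innerSL ℝ ((![ν₁, ν₂, ν₃] : Fin 3 → E3) i)).toLinearMap)
  have hL0 : ∀ p, L p 0 = inner ℝ ν₁ p := fun p => rfl
  have hL1 : ∀ p, L p 1 = inner ℝ ν₂ p := fun p => rfl
  have hL2 : ∀ p, L p 2 = inner ℝ ν₃ p := fun p => rfl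
  have hinj : Function.Injective L := by
    intro p q h
    refine CO.coord_inj hl ?_ ?_ ?_
    · rw [← hL0, ← hL0, h]
    · rw [← hL1, ← hL1, h]
    · rw [← hL2, ← hL2, h]
  have hsurj : Function.Surjective L := by
    rw [← LinearMap.injective_iff_surjective_of_finrank_eq_finrank]
    · exact hinj
    · simp [E3]
  obtain ⟨d, hd⟩ := hsurj ![r₁, r₂, r₃]
  refine ⟨d, ?_, ?_, ?_⟩
  · rw [← hL0, hd]; rfl
  · rw [← hL1, hd]; rfl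
  · rw [← hL2, hd]; rfl

theorem edge_par (hF : Good α s F) {t : Finset (Fin n)} (ht : t.card = 3) {c : Fin n} {x : E3}
    (hx : x ∈ Vt F t) (hc : c ∈ t) : ∃ d γ : E3, d ≠ 0 ∧
      (∀ i ∈ t, i ≠ c → ∀ ν, F.Tight i ν x → inner ℝ ν d = 0) ∧ F.Tight c γ x ∧
      inner ℝ γ d = -1 ∧
      ∀ z : E3, (∀ i ∈ t, i ≠ c → ∀ ν, F.Tight i ν x → F.Tight i ν z) →
        z = x + (F.h c γ - inner ℝ γ z) • d := by
  classical
  have h2 : (t.erase c).card = 2 := by rw [Finset.card_erase_of_mem hc, ht]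
  obtain ⟨a, b, hab, he⟩ := Finset.card_eq_two.1 h2
  have ha : a ∈ t.erase c := by rw [he]; simp
  have hb : b ∈ t.erase c := by rw [he]; simp
  have hat := Finset.mem_of_mem_erase ha
  have hbt := Finset.mem_of_mem_erase hb
  have hac := Finset.ne_of_mem_erase ha
  have hbc := Finset.ne_of_mem_erase hb
  have hK : ∀ i ∈ t, ∃ ν, F.Tight i ν x := fun i hi =>
    (bd_iff.1 (by rw [hx.2]; exact hi)).2
  obtain ⟨ν₁, h1⟩ := hK a hat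
  obtain ⟨ν₂, h2⟩ := hK b hbt
  obtain ⟨γ, h3⟩ := hK c hc
  have hli := prp_indep hF hx.1 hab hac hbc (by rw [hx.2]; exact hat) (by rw [hx.2]; exact hbt)
    (by rw [hx.2]; exact hc) h1 h2 h3
  obtain ⟨d, e1, e2, e3⟩ := par_dual hli 0 0 (-1)
  refine ⟨d, γ, ?_, ?_, h3, e3, ?_⟩
  · rintro rfl
    rw [inner_zero_right] at e3
    norm_num at e3
  · intro i hi hic ν hν
    have hie : i ∈ t.erase c := Finset.mem_erase.2 ⟨hic, hi⟩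
    rw [he, Finset.mem_insert, Finset.mem_singleton] at hie
    rcases hie with rfl | rfl
    · rw [hx.1.2 i (by rw [hx.2]; exact hi) ν ν₁ hν h1, e1]
    · rw [hx.1.2 i (by rw [hx.2]; exact hi) ν ν₂ hν h2, e2]
  · intro z hz
    refine CO.coord_inj hli ?_ ?_ ?_
    · rw [inner_add_right, inner_smul_right, e1, (hz a hat hac ν₁ h1).2, h1.2]
      ring
    · rw [inner_add_right, inner_smul_right, e2, (hz b hbt hbc ν₂ h2).2, h2.2]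
      ring
    · rw [inner_add_right, inner_smul_right, e3, h3.2]
      ring

/-- Dual directions: `z - x` in terms of the slacks. -/
theorem dual_par (hF : Good α s F) {x : E3} (hx : Prp F x) {a b c : Fin n} (hab : a ≠ b)
    (hac : a ≠ c) (hbc : b ≠ c) (ha : a ∈ F.bd x) (hb : b ∈ F.bd x) (hc : c ∈ F.bd x)
    {ν₁ ν₂ ν₃ : E3} (h1 : F.Tight a ν₁ x) (h2 : F.Tight b ν₂ x) (h3 : F.Tight c ν₃ x) :
    ∃ d₁ d₂ d₃ : E3, (inner ℝ ν₁ d₁ = (-1 : ℝ) ∧ inner ℝ ν₂ d₁ = (0 : ℝ) ∧ inner ℝ ν₃ d₁ = (0 : ℝ)) ∧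
      (inner ℝ ν₁ d₂ = (0 : ℝ) ∧ inner ℝ ν₂ d₂ = (-1 : ℝ) ∧ inner ℝ ν₃ d₂ = (0 : ℝ)) ∧
      (inner ℝ ν₁ d₃ = (0 : ℝ) ∧ inner ℝ ν₂ d₃ = (0 : ℝ) ∧ inner ℝ ν₃ d₃ = (-1 : ℝ)) ∧
      ∀ z : E3, z - x = (F.h a ν₁ - inner ℝ ν₁ z) • d₁ + (F.h b ν₂ - inner ℝ ν₂ z) • d₂
        + (F.h c ν₃ - inner ℝ ν₃ z) • d₃ := by
  have hli := prp_indep hF hx hab hac hbc ha hb hc h1 h2 h3
  obtain ⟨d₁, p1, p2, p3⟩ := par_dual hli (-1) 0 0
  obtain ⟨d₂, q1, q2, q3⟩ := par_dual hli 0 (-1) 0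
  obtain ⟨d₃, r1, r2, r3⟩ := par_dual hli 0 0 (-1)
  refine ⟨d₁, d₂, d₃, ⟨p1, p2, p3⟩, ⟨q1, q2, q3⟩, ⟨r1, r2, r3⟩, fun z => ?_⟩
  refine CO.coord_inj hli ?_ ?_ ?_
  · simp only [inner_add_right, inner_sub_right, inner_smul_right, p1, q1, r1, h1.2]
    ring
  · simp only [inner_add_right, inner_sub_right, inner_smul_right, p2, q2, r2, h2.2]
    ring
  · simp only [inner_add_right, inner_sub_right, inner_smul_right, p3, q3, r3, h3.2]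
    ring

end UF.FP
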