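import Pool.Agent.Work.MP_4c5ddc_co.FP.AStr
import Pool.Agent.Work.MP_4c5ddc_co.FP.ACnt

/-!
# FP/ARF (S-M: closed sets of vertices)

PROOF. `L` is finite (`Vt_count`) and nonempty. For `g : E3` let `w ∈ L` with `⟪g, w⟫` maximal. Then
`⟪g, z⟫ ≤ ⟪g, w⟫` for all `z ∈ Int3 F t`: otherwise `star` gives an edge `[w, y]` with `⟪g, y⟫ > ⟪g, w⟫`, but `y ∈ L`.
(1) `RF F t`: let `z ∈ Int3 F t`, `i ∈ t`, `ν ≠ μ` tight normals of `i` at `z`. `g = ν + μ`: `⟪g, z⟫ = h ν + h μ ≤ ⟪g, w⟫`, and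
`⟪ν, w⟫ ≤ h ν`, `⟪μ, w⟫ ≤ h μ` (`w ∈ K i`), so both are tight at `w`: against `Prp F w`.
(2) `L = Vt F t`: let `w₀ ∈ Vt F t` with tight normals `ν₁, ν₂, ν₃` of the three bodies, `g` their sum. As in (1) all three are
tight at the maximal `w ∈ L`, so `w = w₀` by `prp_indep` and `CO.coord_inj`.
-/

set_option autoImplicit false

namespace UF.FP

variable {n : ℕ} {α : ℝ} {s : ℕ} {F : Fam n}

private theorem arf_max (hF : Good α s F) {t : Finset (Fin n)} (ht : t.card = 3) {L : Set E3}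
    (hne : L.Nonempty) (hL : L ⊆ Vt F t)
    (hcl : ∀ w ∈ L, ∀ c y, Edge F t c w y → y ∈ L) (g : E3) :
    ∃ w ∈ L, ∀ z ∈ Int3 F t, (inner ℝ g z : ℝ) ≤ inner ℝ g w := by
  have hfin : L.Finite := (Vt_count hF ht).1.subset hL
  obtain ⟨w, hw, hmax⟩ := Set.exists_max_image L (fun w => (inner ℝ g w : ℝ)) hfin hne
  refine ⟨w, hw, fun z hz => ?_⟩
  by_contra hcon
  push Not at hcon
  obtain ⟨c, -, y, he, hy⟩ := star hF ht (hL hw) hz hcon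
  exact absurd (hmax y (hcl w hw c y he)) (not_le.2 hy)

theorem closed_all (hF : Good α s F) {t : Finset (Fin n)} (ht : t.card = 3) {L : Set E3}
    (hne : L.Nonempty) (hL : L ⊆ Vt F t)
    (hcl : ∀ w ∈ L, ∀ c y, Edge F t c w y → y ∈ L) : RF F t ∧ L = Vt F t := by
  have hK : ∀ w ∈ Vt F t, ∀ i ∈ t, w ∈ F.K i ∧ ∃ ν, F.Tight i ν w := by
    intro w hw i hi
    exact bd_iff.1 (by rw [hw.2]; exact hi)
  refine ⟨?_, ?_⟩
  · intro z hz i hi ν μ hν hμ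
    by_contra hne'
    obtain ⟨w, hw, hmax⟩ := arf_max hF ht hne hL hcl (ν + μ)
    have h1 := hmax z hz
    have hwK := (hK w (hL hw) i hi).1
    rw [inner_add_left, inner_add_left, hν.2, hμ.2] at h1
    have h2 : (inner ℝ ν w : ℝ) ≤ F.h i ν := hwK ν hν.1
    have h3 : (inner ℝ μ w : ℝ) ≤ F.h i μ := hwK μ hμ.1
    have h4 : F.Tight i ν w := ⟨hν.1, by linarith⟩
    have h5 : F.Tight i μ w := ⟨hμ.1, by linarith⟩
    have h6 : i ∈ F.bd w := by rw [(hL hw).2]; exact hi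
    exact hne' ((hL hw).1.2 i h6 ν μ h4 h5)
  · refine Set.Subset.antisymm hL fun w₀ hw₀ => ?_
    obtain ⟨a, b, c, hab, hac, hbc, rfl⟩ := Finset.card_eq_three.1 ht
    have ha : a ∈ ({a, b, c} : Finset (Fin n)) := by simp
    have hb : b ∈ ({a, b, c} : Finset (Fin n)) := by simp
    have hc : c ∈ ({a, b, c} : Finset (Fin n)) := by simp
    obtain ⟨-, ν₁, h1⟩ := hK w₀ hw₀ a ha
    obtain ⟨-, ν₂, h2⟩ := hK w₀ hw₀ b hb
    obtain ⟨-, ν₃, h3⟩ := hK w₀ hw₀ c hc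
    obtain ⟨w, hw, hmax⟩ := arf_max hF ht hne hL hcl (ν₁ + ν₂ + ν₃)
    have hw₀I : w₀ ∈ Int3 F {a, b, c} := fun i hi => (hK w₀ hw₀ i hi).1
    have h4 := hmax w₀ hw₀I
    rw [inner_add_left, inner_add_left, inner_add_left, inner_add_left, h1.2, h2.2, h3.2] at h4
    have e1 : (inner ℝ ν₁ w : ℝ) ≤ F.h a ν₁ := (hK w (hL hw) a ha).1 ν₁ h1.1
    have e2 : (inner ℝ ν₂ w : ℝ) ≤ F.h b ν₂ := (hK w (hL hw) b hb).1 ν₂ h2.1
    have e3 : (inner ℝ ν₃ w : ℝ) ≤ F.h c ν₃ := (hK w (hL hw) c hc).1 ν₃ h3.1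
    have hli := prp_indep hF hw₀.1 hab hac hbc (by rw [hw₀.2]; exact ha) (by rw [hw₀.2]; exact hb)
      (by rw [hw₀.2]; exact hc) h1 h2 h3
    have : w₀ = w := CO.coord_inj hli (by rw [h1.2]; linarith) (by rw [h2.2]; linarith)
      (by rw [h3.2]; linarith)
    rw [this]
    exact hw

end UF.FP
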