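import Pool.Agent.Work.MP_4c5ddc_co.FP.ACnt

/-!
# FP/ARdg (S-M: the number of triples with a light ridge hit)

PROOF. For each `t` of the set choose a `p` as in `LR`; `p ∈ ImpS F S` (as `t ⊆ S`), which is finite. It is enough to
show that for each `p` at most `3 * (T + 2)` triples `t` belong to `p`. `F.bd p` has at most three elements
(`hF.three`), so at most 3 two-element subsets `{i, j}`. `t = {i, j, c}`, where `p ∈ K c` (`p ∈ Int3 F t`), `c ∈ S`. All bodies `d ∈ S` with
`p ∈ K d` are in `t` or counted in `cp F S t {p} < T`: the set `D = {d ∈ S : p ∈ K d}` has at most `T - 1 + 3 = T + 2`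
elements (if there is at least one such `t`). So there are at most `3 * (T + 2)` triples.
-/

set_option autoImplicit false

namespace UF.FP

variable {n : ℕ} {α : ℝ} {s : ℕ} {F : Fam n}

open scoped Classical in
theorem ridge_hits (hF : Good α s F) (S : Finset (Fin n)) (T : ℕ) :
    ((S.powersetCard 3).filter fun t => LR F S T t).card ≤ 3 * (T + 2) * (ImpS F S).ncard := by
  obtain ⟨hfin, -⟩ := Imp_count hF S
  let D : E3 → Finset (Fin n) := fun p => S.filter fun d => p ∈ F.K d
  let P : E3 → Finset (Fin n) → Prop := fun p t => p ∈ Int3 F t ∧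
    (∃ i ∈ t, ∃ j ∈ t, i ≠ j ∧ i ∈ F.bd p ∧ j ∈ F.bd p) ∧ cp F S t {p} < T
  let G : E3 → Finset (Finset (Fin n)) := fun p => (S.powersetCard 3).filter (P p)
  have hcov : ((S.powersetCard 3).filter fun t => LR F S T t) ⊆ hfin.toFinset.biUnion G := by
    intro t ht
    obtain ⟨hmem, p, hp, h1, h2, h3⟩ := Finset.mem_filter.1 ht
    rw [Finset.mem_biUnion]
    refine ⟨p, hfin.mem_toFinset.2 ?_, Finset.mem_filter.2 ⟨hmem, h1, h2, h3⟩⟩
    have htS := (Finset.mem_powersetCard.1 hmem).1
    obtain ⟨i, hi, j, hj, ν₁, ν₂, ν₃, h⟩ := hp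
    exact ⟨i, htS hi, j, htS hj, ν₁, ν₂, ν₃, h⟩
  have hG : ∀ p, (G p).card ≤ 3 * (T + 2) := by
    intro p
    rcases (G p).eq_empty_or_nonempty with h0 | ⟨t₀, ht₀⟩
    · rw [h0]; simp
    · have hD : (D p).card ≤ T + 2 := by
        obtain ⟨hmem, h1, h2, h3⟩ := Finset.mem_filter.1 ht₀
        have hc := (Finset.mem_powersetCard.1 hmem).2
        have hsub : D p ⊆ t₀ ∪ (S \ t₀).filter fun d => (F.K d ∩ {p}).Nonempty := by
          intro d hd
          obtain ⟨hd1, hd2⟩ := Finset.mem_filter.1 hd
          rw [Finset.mem_union]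
          by_cases h : d ∈ t₀
          · left; exact h
          · right
            exact Finset.mem_filter.2 ⟨Finset.mem_sdiff.2 ⟨hd1, h⟩, p, hd2, rfl⟩
        have h4 := (Finset.card_le_card hsub).trans (Finset.card_union_le _ _)
        have h5 : ((S \ t₀).filter fun d => (F.K d ∩ {p}).Nonempty).card < T := h3
        omega
      have hsub : G p ⊆ ((F.bd p).powersetCard 2 ×ˢ D p).image fun e => insert e.2 e.1 := by
        intro t ht
        obtain ⟨hmem, h1, ⟨i, hi, j, hj, hij, hi', hj'⟩, h3⟩ := Finset.mem_filter.1 ht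
        obtain ⟨htS, hc⟩ := Finset.mem_powersetCard.1 hmem
        have hsub2 : ({i, j} : Finset (Fin n)) ⊆ t := by
          intro a ha
          rw [Finset.mem_insert, Finset.mem_singleton] at ha
          rcases ha with rfl | rfl
          · exact hi
          · exact hj
        have hc2 : ({i, j} : Finset (Fin n)).card = 2 := Finset.card_pair hij
        obtain ⟨k, hk, hk'⟩ := Finset.exists_mem_notMem_of_card_lt_card
          (s := ({i, j} : Finset (Fin n))) (t := t) (by omega)
        rw [Finset.mem_image]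
        refine ⟨({i, j}, k), Finset.mem_product.2 ⟨Finset.mem_powersetCard.2 ⟨?_, hc2⟩,
          Finset.mem_filter.2 ⟨htS hk, h1 k hk⟩⟩, ?_⟩
        · intro a ha
          rw [Finset.mem_insert, Finset.mem_singleton] at ha
          rcases ha with rfl | rfl
          · exact hi'
          · exact hj'
        · refine Finset.eq_of_subset_of_card_le (Finset.insert_subset hk hsub2) ?_
          rw [Finset.card_insert_of_notMem hk', hc2, hc]
      calc (G p).card ≤ _ := Finset.card_le_card hsub
        _ ≤ ((F.bd p).powersetCard 2 ×ˢ D p).card := Finset.card_image_le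
        _ = (F.bd p).card.choose 2 * (D p).card := by
            rw [Finset.card_product, Finset.card_powersetCard]
        _ ≤ 3 * (T + 2) := by
            refine Nat.mul_le_mul ?_ hD
            calc (F.bd p).card.choose 2 ≤ Nat.choose 3 2 := Nat.choose_le_choose 2 (hF.three p)
              _ = 3 := rfl
  calc ((S.powersetCard 3).filter fun t => LR F S T t).card
      ≤ (hfin.toFinset.biUnion G).card := Finset.card_le_card hcov
    _ ≤ ∑ p ∈ hfin.toFinset, (G p).card := Finset.card_biUnion_le
    _ ≤ ∑ _p ∈ hfin.toFinset, 3 * (T + 2) := Finset.sum_le_sum fun p _ => hG p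
    _ = 3 * (T + 2) * (ImpS F S).ncard := by
        rw [Finset.sum_const, smul_eq_mul, Set.ncard_eq_toFinset_card _ hfin, mul_comm]

end UF.FP
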