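import Pool.Agent.Work.MP_4c5ddc_co.FP.AEdg

/-!
# FP/ASk (M: the skeleton is covered by the edges)

PROOF. Let `z ∈ Skel F t`: `z ∈ Int3 F t`, `ν` tight for `i`, `μ` tight for `j`, independent, `i, j ∈ t`. `i ≠ j` (`RF`: `i = j` would
give `ν = μ`). Let `u ≠ 0` be orthogonal to `ν` and `μ`, `k` the third body. The set `{τ : z + τ • u ∈ Int3 F t}` is
compact, convex, contains `0`; let `τ₀ ≤ 0` be its minimum, `w = z + τ₀ • u`. Some normal `κ` of some body `l ∈ t` is tight at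
`w` with `⟪κ, u⟫ < 0` (otherwise `w - small • u` would be in `Int3 F t`). `ν, μ` are tight at `w` (orthogonal to
`u`), so `l ≠ i, j` by `RF` (`κ ≠ ν, μ`), `l = k`. So at `w` the bodies `i, j, k` have the tight normals `ν, μ, κ` and no others
(`RF`); `F.bd w ⊇ t` has at most three elements: `F.bd w = t`, `Prp F w`, `w ∈ Vt F t`. Let `[w, y]` be the edge which
leaves `k` (`edge_ex`). `z ∈ Ln F t k w = segment ℝ w y` because the tight normals of `i, j` at `w` are `ν, μ` (unique), which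
are tight at `z`.
-/

set_option autoImplicit false

namespace UF.FP

variable {n : ℕ} {α : ℝ} {s : ℕ} {F : Fam n}

/-- A nonzero vector orthogonal to two vectors. -/
private theorem sk_orth (ν μ : E3) : ∃ u : E3, u ≠ 0 ∧ inner ℝ ν u = (0 : ℝ) ∧
    inner ℝ μ u = (0 : ℝ) := by
  let L : E3 →ₗ[ℝ] (Fin 2 → ℝ) :=
    LinearMap.pi (fun i => (innerSL ℝ ((![ν, μ] : Fin 2 → E3) i)).toLinearMap)
  have hL0 : ∀ p, L p 0 = inner ℝ ν p := fun p => rfl
  have hL1 : ∀ p, L p 1 = inner ℝ μ p := fun p => rfl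
  have hker : LinearMap.ker L ≠ ⊥ := by
    apply LinearMap.ker_ne_bot_of_finrank_lt
    simp [E3]
  obtain ⟨u, hu, hu0⟩ := Submodule.exists_mem_ne_zero_of_ne_bot hker
  rw [LinearMap.mem_ker] at hu
  refine ⟨u, hu0, ?_, ?_⟩
  · rw [← hL0, hu]; rfl
  · rw [← hL1, hu]; rfl

theorem skel_cover (hF : Good α s F) {t : Finset (Fin n)} (ht : t.card = 3) (hRF : RF F t)
    {z : E3} (hz : z ∈ Skel F t) : ∃ w c y, Edge F t c w y ∧ z ∈ segment ℝ w y := by
  classical
  obtain ⟨hzI, i, hi, j, hj, ν, μ, hν, hμ, hli⟩ := hz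
  have hij : i ≠ j := by
    rintro rfl
    have h := hRF z hzI i hi ν μ hν hμ
    subst h
    have := hli.injective
    have h01 : (0 : Fin 2) = 1 := this rfl
    exact absurd h01 (by decide)
  have hsub : ({i, j} : Finset (Fin n)) ⊆ t := by
    intro a ha
    rw [Finset.mem_insert, Finset.mem_singleton] at ha
    rcases ha with rfl | rfl
    · exact hi
    · exact hj
  have hc2 : ({i, j} : Finset (Fin n)).card = 2 := Finset.card_pair hij
  obtain ⟨k, hk, hk'⟩ := Finset.exists_mem_notMem_of_card_lt_card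
    (s := ({i, j} : Finset (Fin n))) (t := t) (by omega)
  have hki : k ≠ i := by rintro rfl; exact hk' (by simp)
  have hkj : k ≠ j := by rintro rfl; exact hk' (by simp)
  have hteq : ∀ l ∈ t, l = i ∨ l = j ∨ l = k := by
    have : t = insert k {i, j} := by
      refine (Finset.eq_of_subset_of_card_le (Finset.insert_subset hk hsub) ?_).symm
      rw [Finset.card_insert_of_notMem hk', hc2, ht]
    intro l hl
    rw [this, Finset.mem_insert, Finset.mem_insert, Finset.mem_singleton] at hl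
    tauto
  obtain ⟨u, hu0, hu1, hu2⟩ := sk_orth ν μ
  -- the parameters of the line
  let P : Set ℝ := {τ | z + τ • u ∈ Int3 F t}
  have hPcl : IsClosed P := by
    have h1 : IsClosed (Int3 F t) := by
      have : Int3 F t = ⋂ i ∈ t, F.K i := by
        ext x; simp [Int3]
      rw [this]
      exact isClosed_biInter fun i _ => CO.isClosed_poly _ _
    exact h1.preimage (by fun_prop)
  have hPbd : BddBelow P := by
    obtain ⟨R, hR⟩ := (compact_K hF i).isBounded.subset_closedBall z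
    refine ⟨-(R / ‖u‖), fun τ hτ => ?_⟩
    have h1 := hR (hτ i hi)
    rw [Metric.mem_closedBall, dist_eq_norm, add_sub_cancel_left, norm_smul] at h1
    have hup : 0 < ‖u‖ := norm_pos_iff.2 hu0
    have h2 : |τ| ≤ R / ‖u‖ := by
      rw [le_div_iff₀ hup]
      simpa using h1
    have := neg_abs_le τ
    linarith
  have hP0 : (0 : ℝ) ∈ P := by
    show z + (0 : ℝ) • u ∈ Int3 F t
    rw [zero_smul, add_zero]
    exact hzI
  obtain ⟨τ₀, hτ₀⟩ : ∃ τ₀, τ₀ = sInf P := ⟨_, rfl⟩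
  have hτP : τ₀ ∈ P := by
    rw [hτ₀]
    exact hPcl.csInf_mem ⟨0, hP0⟩ hPbd
  have hτmin : ∀ τ ∈ P, τ₀ ≤ τ := fun τ hτ => by
    rw [hτ₀]
    exact csInf_le hPbd hτ
  obtain ⟨w, hw⟩ : ∃ w, w = z + τ₀ • u := ⟨_, rfl⟩
  have hwI : w ∈ Int3 F t := by rw [hw]; exact hτP
  have hνw : F.Tight i ν w := by
    refine ⟨hν.1, ?_⟩
    rw [hw, inner_add_right, inner_smul_right, hu1, mul_zero, add_zero, hν.2]
  have hμw : F.Tight j μ w := by
    refine ⟨hμ.1, ?_⟩
    rw [hw, inner_add_right, inner_smul_right, hu2, mul_zero, add_zero, hμ.2]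
  -- a blocking normal
  obtain ⟨l, hl, κ, hκ, hκu⟩ : ∃ l ∈ t, ∃ κ, F.Tight l κ w ∧ (inner ℝ κ u : ℝ) < 0 := by
    by_contra hcon
    push Not at hcon
    -- all constraints allow a small step
    have hev : ∀ l ∈ t, ∀ κ ∈ F.N l, ∀ᶠ δ in nhdsWithin (0 : ℝ) (Set.Ioi 0),
        (inner ℝ κ (w - δ • u) : ℝ) ≤ F.h l κ := by
      intro l hl κ hκ
      by_cases hT : F.Tight l κ w
      · have h1 := hcon l hl κ hT
        filter_upwards [self_mem_nhdsWithin] with δ hδ
        rw [inner_sub_right, inner_smul_right, hT.2]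
        have : 0 ≤ δ * (inner ℝ κ u : ℝ) := mul_nonneg (le_of_lt hδ) h1
        linarith
      · have h1 : (inner ℝ κ w : ℝ) < F.h l κ :=
          lt_of_le_of_ne (hwI l hl κ hκ) fun h => hT ⟨hκ, h⟩
        have hcont : Filter.Tendsto (fun δ : ℝ => (inner ℝ κ (w - δ • u) : ℝ)) (nhds 0)
            (nhds (inner ℝ κ (w - (0 : ℝ) • u))) :=
          Continuous.tendsto (by fun_prop) 0
        rw [zero_smul, sub_zero] at hcont
        have h2 := hcont.eventually (gt_mem_nhds h1)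
        have h3 : ∀ᶠ δ in nhdsWithin (0 : ℝ) (Set.Ioi 0), (inner ℝ κ (w - δ • u) : ℝ) < F.h l κ :=
          nhdsWithin_le_nhds h2
        exact h3.mono fun δ hδ => le_of_lt hδ
    have hev' : ∀ᶠ δ in nhdsWithin (0 : ℝ) (Set.Ioi 0), ∀ l ∈ t, ∀ κ ∈ F.N l,
        (inner ℝ κ (w - δ • u) : ℝ) ≤ F.h l κ := by
      rw [Filter.eventually_all_finset]
      intro l hl
      rw [Filter.eventually_all_finset]
      exact hev l hl
    obtain ⟨δ, hδ, hδ0⟩ := (hev'.and self_mem_nhdsWithin).exists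
    have h3 : τ₀ - δ ∈ P := by
      show z + (τ₀ - δ) • u ∈ Int3 F t
      have : z + (τ₀ - δ) • u = w - δ • u := by rw [hw, sub_smul]; abel
      rw [this]
      exact fun l hl κ hκ => hδ l hl κ hκ
    have h4 := hτmin _ h3
    have h5 : (0 : ℝ) < δ := hδ0
    linarith
  have hlk : l = k := by
    rcases hteq l hl with rfl | rfl | rfl
    · exfalso
      rw [hRF w hwI l hl κ ν hκ hνw, hu1] at hκu
      exact lt_irrefl _ hκu
    · exfalso
      rw [hRF w hwI l hl κ μ hκ hμw, hu2] at hκu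
      exact lt_irrefl _ hκu
    · rfl
  subst hlk
  have htbd : t ⊆ F.bd w := by
    intro m hm
    rw [bd_iff]
    refine ⟨hwI m hm, ?_⟩
    rcases hteq m hm with rfl | rfl | rfl
    · exact ⟨ν, hνw⟩
    · exact ⟨μ, hμw⟩
    · exact ⟨κ, hκ⟩
  have hbd : F.bd w = t := by
    refine (Finset.eq_of_subset_of_card_le htbd ?_).symm
    rw [ht]
    exact hF.three w
  have hwV : w ∈ Vt F t := by
    refine ⟨⟨by rw [hbd, ht], fun m hm ν' μ' h1 h2 => ?_⟩, hbd⟩
    exact hRF w hwI m (by rw [← hbd]; exact hm) ν' μ' h1 h2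
  obtain ⟨y, he⟩ := edge_ex hF ht hwV hl
  refine ⟨w, l, y, he, ?_⟩
  rw [← he.seg]
  refine ⟨hzI, fun m hm hml ν' h' => ?_⟩
  rcases hteq m hm with rfl | rfl | rfl
  · rw [hRF w hwI m hm ν' ν h' hνw]
    exact hν
  · rw [hRF w hwI m hm ν' μ h' hμw]
    exact hμ
  · exact absurd rfl hml

end UF.FP
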