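import Pool.Agent.Work.MP_4c5ddc_co.FP.AExp
import Pool.Agent.Work.MP_4c5ddc_co.FP.ARF
import Pool.Agent.Work.MP_4c5ddc_co.FP.ACf
import Pool.Agent.Work.MP_4c5ddc_co.FP.AHv
import Pool.Agent.Work.MP_4c5ddc_co.FP.ARdg

/-!
# FP/ASpl (M: the vertices of the union are of three kinds)

PROOF. Let `x ∈ Vs F S 0`, `t = F.bd x ∈ S.powersetCard 3`, `x ∈ Vt F t`. `cp F S t {x} = dep F S x = 0 < tt 0` (`cp_dep`).
Either (1) some `j ≤ s ^ 3` and some edge `Edge F t c w y` has `cp F S t {w} < tt j`, `tt (j+1) ≤ cp F S t [w, y]`: then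
`(w, c) ∈ Hv F S (tt j) (tt (j + 1))` with `F.bd w = t`; or (2) `LR F S (tt (s ^ 3 + 1)) t`; or (3) neither: `explore` gives `L`,
`closed_all` gives `RF F t` and `L = Vt F t`, all edges of `t` are light, `conf_bound` gives
`cp F S t (Skel F t) ≤ 3 * s ^ 3 * tt (s ^ 3 + 1)`. So `Vs F S 0` is contained in the union of the `Vt F t` over the
triples `t` of the kinds (1), (2), (3), each `Vt F t` has at most `s ^ 3` elements (`Vt_count`); the number of the
`t` of kind (1) is at most `∑ j, (Hv ..).ncard` (image of `Hv` under `e ↦ F.bd e.1`), the number of kind (2) is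
bounded by `ridge_hits`.
-/

set_option autoImplicit false

namespace UF.FP

variable {n : ℕ} {α : ℝ} {s : ℕ} {F : Fam n}

private theorem spl_vs_card {S : Finset (Fin n)} {k : ℕ} {x : E3} (hx : x ∈ Vs F S k) :
    F.bd x ∈ S.powersetCard 3 ∧ x ∈ Vt F (F.bd x) := by
  refine ⟨Finset.mem_powersetCard.2 ⟨hx.2.1, hx.1.1⟩, hx.1, rfl⟩

private theorem spl_cover (hF : Good α s F) {X : Set E3} {𝒯 : Finset (Finset (Fin n))}
    (h3 : ∀ t ∈ 𝒯, t.card = 3) (h : X ⊆ ⋃ t ∈ 𝒯, Vt F t) : X.ncard ≤ s ^ 3 * 𝒯.card := by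
  have hfin : (⋃ t ∈ 𝒯, Vt F t).Finite :=
    Set.Finite.biUnion 𝒯.finite_toSet fun t ht => (Vt_count hF (h3 t ht)).1
  calc X.ncard ≤ (⋃ t ∈ 𝒯, Vt F t).ncard := Set.ncard_le_ncard h hfin
    _ ≤ ∑ t ∈ 𝒯, (Vt F t).ncard := Finset.set_ncard_biUnion_le _ _
    _ ≤ ∑ t ∈ 𝒯, s ^ 3 := Finset.sum_le_sum fun t ht => (Vt_count hF (h3 t ht)).2
    _ = s ^ 3 * 𝒯.card := by rw [Finset.sum_const, smul_eq_mul, mul_comm]

open scoped Classical in
theorem split_bound (hF : Good α s F) (S : Finset (Fin n)) (tt : ℕ → ℕ) (hmono : StrictMono tt)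
    (h0 : tt 0 = 1) :
    (Vs F S 0).ncard ≤ s ^ 3 * (∑ j ∈ Finset.range (s ^ 3 + 1), (Hv F S (tt j) (tt (j + 1))).ncard
      + 3 * (tt (s ^ 3 + 1) + 2) * (ImpS F S).ncard
      + ((S.powersetCard 3).filter fun t => RF F t ∧ (Vt F t).Nonempty ∧
          cp F S t (Skel F t) ≤ 3 * s ^ 3 * tt (s ^ 3 + 1)).card) := by
  have tpos : ∀ j, 1 ≤ tt j := fun j => by
    have := hmono.monotone (Nat.zero_le j)
    omega
  have hHfin : ∀ j, (Hv F S (tt j) (tt (j + 1))).Finite := fun j =>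
    (heavy_bound hF S (tpos j) (hmono.monotone (Nat.le_succ j))).1
  let P1 : Finset (Fin n) → Prop := fun t =>
    ∃ j ∈ Finset.range (s ^ 3 + 1), ∃ e ∈ Hv F S (tt j) (tt (j + 1)), F.bd e.1 = t
  let T1 : Finset (Finset (Fin n)) := (S.powersetCard 3).filter P1
  let T2 : Finset (Finset (Fin n)) := (S.powersetCard 3).filter fun t => LR F S (tt (s ^ 3 + 1)) t
  let T3 : Finset (Finset (Fin n)) := (S.powersetCard 3).filter fun t =>
    RF F t ∧ (Vt F t).Nonempty ∧ cp F S t (Skel F t) ≤ 3 * s ^ 3 * tt (s ^ 3 + 1)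
  have hT1 : T1.card ≤ ∑ j ∈ Finset.range (s ^ 3 + 1), (Hv F S (tt j) (tt (j + 1))).ncard := by
    have hsub : T1 ⊆ (Finset.range (s ^ 3 + 1)).biUnion fun j =>
        (hHfin j).toFinset.image fun e => F.bd e.1 := by
      intro t ht
      obtain ⟨-, j, hj, e, he, h⟩ := Finset.mem_filter.1 ht
      rw [Finset.mem_biUnion]
      refine ⟨j, hj, Finset.mem_image.2 ⟨e, (hHfin j).mem_toFinset.2 he, h⟩⟩
    calc T1.card ≤ _ := Finset.card_le_card hsub
      _ ≤ ∑ j ∈ Finset.range (s ^ 3 + 1),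
          ((hHfin j).toFinset.image fun e => F.bd e.1).card := Finset.card_biUnion_le
      _ ≤ _ := Finset.sum_le_sum fun j _ => by
          rw [Set.ncard_eq_toFinset_card _ (hHfin j)]
          exact Finset.card_image_le
  have hT2 : T2.card ≤ 3 * (tt (s ^ 3 + 1) + 2) * (ImpS F S).ncard := ridge_hits hF S _
  have hcov : Vs F S 0 ⊆ ⋃ t ∈ T1 ∪ T2 ∪ T3, Vt F t := by
    intro x hx
    obtain ⟨hmem, hxt⟩ := spl_vs_card hx
    obtain ⟨t, ht⟩ : ∃ t, t = F.bd x := ⟨_, rfl⟩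
    rw [← ht] at hmem hxt
    have htS : t ⊆ S := (Finset.mem_powersetCard.1 hmem).1
    have htc : t.card = 3 := (Finset.mem_powersetCard.1 hmem).2
    rw [Set.mem_iUnion₂]
    refine ⟨t, ?_, hxt⟩
    rw [Finset.mem_union, Finset.mem_union]
    by_cases c1 : ∃ j ∈ Finset.range (s ^ 3 + 1), ∃ w c y, Edge F t c w y ∧
        cp F S t {w} < tt j ∧ tt (j + 1) ≤ cp F S t (segment ℝ w y)
    · left; left
      obtain ⟨j, hj, w, c, y, he, h1, h2⟩ := c1
      refine Finset.mem_filter.2 ⟨hmem, j, hj, (w, c), ?_, he.vt.2⟩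
      have hw : F.bd w = t := he.vt.2
      refine ⟨?_, y, ?_, ?_, ?_⟩
      · show F.bd w ⊆ S
        rw [hw]; exact htS
      · show Edge F (F.bd w) c w y
        rw [hw]; exact he
      · show cp F S (F.bd w) {w} < tt j
        rw [hw]; exact h1
      · show tt (j + 1) ≤ cp F S (F.bd w) (segment ℝ w y)
        rw [hw]; exact h2
    · by_cases c2 : LR F S (tt (s ^ 3 + 1)) t
      · left; right
        exact Finset.mem_filter.2 ⟨hmem, c2⟩
      · right
        have hcp0 : cp F S t {x} < tt 0 := by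
          rw [cp_dep hF htS hxt, h0]
          have := hx.2.2
          omega
        obtain ⟨L, hxL, hLV, hL⟩ := explore hF htc hxt tt hmono.monotone hcp0
          (fun j hj w c y he h1 => by
            by_contra hcon
            push Not at hcon
            exact c1 ⟨j, Finset.mem_range.2 (by omega), w, c, y, he, h1, hcon⟩) c2
        obtain ⟨hRF, hLeq⟩ := closed_all hF htc ⟨x, hxL⟩ hLV
          (fun w hw c y he => (hL w hw c y he).1)
        refine Finset.mem_filter.2 ⟨hmem, hRF, ⟨x, hxt⟩, ?_⟩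
        refine conf_bound hF htc hRF fun w c y he => ?_
        exact (hL w (by rw [hLeq]; exact he.vt) c y he).2
  have h3 : ∀ t ∈ T1 ∪ T2 ∪ T3, t.card = 3 := by
    intro t ht
    rw [Finset.mem_union, Finset.mem_union] at ht
    rcases ht with (h | h) | h
    · exact (Finset.mem_powersetCard.1 (Finset.mem_filter.1 h).1).2
    · exact (Finset.mem_powersetCard.1 (Finset.mem_filter.1 h).1).2
    · exact (Finset.mem_powersetCard.1 (Finset.mem_filter.1 h).1).2
  refine (spl_cover hF h3 hcov).trans (Nat.mul_le_mul_left _ ?_)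
  calc (T1 ∪ T2 ∪ T3).card ≤ T1.card + T2.card + T3.card :=
        (Finset.card_union_le _ _).trans (Nat.add_le_add_right (Finset.card_union_le _ _) _)
    _ ≤ _ := by
        refine Nat.add_le_add_right ?_ _
        exact Nat.add_le_add hT1 hT2

theorem trivial_bound (hF : Good α s F) (S : Finset (Fin n)) :
    (Vs F S 0).ncard ≤ s ^ 3 * S.card ^ 3 := by
  have h := spl_cover hF (X := Vs F S 0) (𝒯 := S.powersetCard 3)
    (fun t ht => (Finset.mem_powersetCard.1 ht).2) (by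
      intro x hx
      obtain ⟨hmem, hxt⟩ := spl_vs_card hx
      rw [Set.mem_iUnion₂]
      exact ⟨_, hmem, hxt⟩)
  refine h.trans (Nat.mul_le_mul_left _ ?_)
  rw [Finset.card_powersetCard]
  exact Nat.choose_le_pow _ _

end UF.FP
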