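import Pool.Agent.Work.MP_4c5ddc_co.FP.ADefs

/-!
# FP/AThr (S: the thresholds)

PROOF. Recursively `tt 0 = 1`, `tt (j + 1) = max (2 * tt j) ⌈(c * tt j) ^ (1 / ε)⌉₊`. `2 * tt j ≤ tt (j + 1)` is clear, and
`(tt (j + 1) : ℝ) ^ ε ≥ ((c * tt j) ^ (1 / ε)) ^ ε = c * tt j` (`Nat.le_ceil`, `Real.rpow_le_rpow`, `Real.rpow_mul`).
-/

set_option autoImplicit false

namespace UF.FP

private noncomputable def thr (ε c : ℝ) : ℕ → ℕ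
  | 0 => 1
  | j + 1 => max (2 * thr ε c j) ⌈(c * (thr ε c j : ℝ)) ^ (1 / ε)⌉₊

theorem thresholds (ε c : ℝ) (hε : 0 < ε) (hc : 0 ≤ c) : ∃ tt : ℕ → ℕ, tt 0 = 1 ∧
    (∀ j, 2 * tt j ≤ tt (j + 1)) ∧ ∀ j, c * (tt j : ℝ) ≤ (tt (j + 1) : ℝ) ^ ε := by
  refine ⟨thr ε c, rfl, fun j => le_max_left _ _, fun j => ?_⟩
  have h0 : 0 ≤ c * (thr ε c j : ℝ) := by positivity
  have h1 : (c * (thr ε c j : ℝ)) ^ (1 / ε) ≤ (thr ε c (j + 1) : ℝ) := by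
    refine (Nat.le_ceil _).trans ?_
    exact_mod_cast le_max_right (2 * thr ε c j) ⌈(c * (thr ε c j : ℝ)) ^ (1 / ε)⌉₊
  calc c * (thr ε c j : ℝ) = ((c * (thr ε c j : ℝ)) ^ (1 / ε)) ^ ε := by
        rw [← Real.rpow_mul h0, one_div, inv_mul_cancel₀ hε.ne', Real.rpow_one]
    _ ≤ (thr ε c (j + 1) : ℝ) ^ ε := Real.rpow_le_rpow (by positivity) h1 hε.le

end UF.FP
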