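import Pool.Agent.Work.MP_4c5ddc_co.FP.ASpl
import Pool.Agent.Work.MP_4c5ddc_co.FP.ACS
import Pool.Agent.Work.MP_4c5ddc_co.FP.AHlf
import Pool.Agent.Work.MP_4c5ddc_co.FP.AThr

/-!
# FP/AStp (M: one step of the recursion)

PROOF. `M = s ^ 3`, `c = 4 * 972 * (s ^ 3 + 1) * (s ^ 3 + 1)` (so `c ≥ 4 * 972 * s ^ 3 * (M + 1)`), `tt` from `thresholds ε c`
(strictly monotone: `tt j ≥ 1` by induction and `2 * tt j ≤ tt (j + 1)`), `T = tt (M + 1)`, `N = S.card`.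
If `N < T + 2`: `trivial_bound`: `v ≤ s ^ 3 * N ^ 3 ≤ s ^ 3 * (T + 2) * N ^ 2`.
Let `N ≥ T + 2`. For `j ≤ M` let `a = tt j`, `b = tt (j + 1) ≤ T`, `2 a ≤ b`, so `b - a ≥ b / 2`. `heavy_bound`:
`(b / 2) * Hv_j ≤ 6 a (F + s ^ 2 I)`, `I = (ImpS F S).ncard ≤ s ^ 3 N ^ 2` (`Imp_count`), `F = (Vs F S (b + 1)).ncard ≤
27 A (b + 2) ^ (1 - ε) N ^ (2 + ε)` (`clarkson_shor` with `k = b + 1`, `k + 1 = b + 2 ≤ N`), and
`(b + 2) ^ (1 - ε) ≤ (3 b) ^ (1 - ε) ≤ 3 b ^ (1 - ε)`. So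
`Hv_j ≤ 12 (a / b) (81 A b ^ (1 - ε) N ^ (2 + ε) + s ^ 5 N ^ 2) ≤ 972 A (a / b ^ ε) N ^ (2 + ε) + 6 s ^ 5 N ^ 2`, and
`a / b ^ ε ≤ 1 / c`. Sum over the `M + 1` values of `j`, times `s ^ 3`: `≤ (A / 4) N ^ (2 + ε) + 6 (M + 1) s ^ 8 N ^ 2`. The other two terms of
`split_bound`: `s ^ 3 * 3 (T + 2) s ^ 3 N ^ 2` and `s ^ 3 * 2 ^ (3 + 3 s ^ 3 T) C₀ N ^ 2` (`clean_sample`).
So `C` = the sum of all these constants (it depends on `s, ε, C₀` only).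
-/

set_option autoImplicit false

namespace UF.FP

private theorem hv_real {a b c A P V I s N ε H : ℝ} (ha : 1 ≤ a) (hab : 2 * a ≤ b) (hc : 0 < c)
    (hA : 0 ≤ A) (hP : 0 ≤ P) (hs : 0 ≤ s) (hH : 0 ≤ H)
    (hcb : c * a ≤ b ^ ε) (h1 : (b - a) * H ≤ 6 * a * (V + s ^ 2 * I))
    (hV : V ≤ 27 * A * (b + 2) ^ (1 - ε) * P) (hI : I ≤ s ^ 3 * N ^ 2) (hε0 : 0 < ε) (hε : ε ≤ 1) :
    H ≤ 972 * A / c * P + 6 * s ^ 5 * N ^ 2 := by
  have hb : 0 < b := by linarith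
  have hbe : 0 < b ^ ε := Real.rpow_pos_of_pos hb _
  have h2 : (b + 2) ^ (1 - ε) ≤ 3 * (b / b ^ ε) := by
    have e1 : (b + 2) ^ (1 - ε) ≤ (3 * b) ^ (1 - ε) :=
      Real.rpow_le_rpow (by linarith) (by linarith) (by linarith)
    have e2 : (3 * b) ^ (1 - ε) = 3 ^ (1 - ε) * b ^ (1 - ε) :=
      Real.mul_rpow (by norm_num) hb.le
    have e3 : (3 : ℝ) ^ (1 - ε) ≤ 3 := by
      calc (3 : ℝ) ^ (1 - ε) ≤ 3 ^ (1 : ℝ) :=
            Real.rpow_le_rpow_of_exponent_le (by norm_num) (by linarith)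
        _ = 3 := Real.rpow_one _
    have e4 : b ^ (1 - ε) = b / b ^ ε := by
      rw [Real.rpow_sub hb, Real.rpow_one]
    rw [e2, e4] at e1
    have h0 : 0 ≤ b / b ^ ε := by positivity
    exact e1.trans (mul_le_mul_of_nonneg_right e3 h0)
  have h3 : V ≤ 81 * A * (b / b ^ ε) * P := by
    calc V ≤ 27 * A * (b + 2) ^ (1 - ε) * P := hV
      _ ≤ 27 * A * (3 * (b / b ^ ε)) * P := by gcongr
      _ = 81 * A * (b / b ^ ε) * P := by ring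
  have h4 : (b - a) * H ≤ 6 * a * (81 * A * (b / b ^ ε) * P + s ^ 5 * N ^ 2) := by
    calc (b - a) * H ≤ 6 * a * (V + s ^ 2 * I) := h1
      _ ≤ 6 * a * (81 * A * (b / b ^ ε) * P + s ^ 2 * (s ^ 3 * N ^ 2)) := by gcongr
      _ = _ := by ring
  have h5 : b / 2 * H ≤ (b - a) * H := mul_le_mul_of_nonneg_right (by linarith) hH
  have h6 : b / 2 * H ≤ 6 * a * (81 * A * (b / b ^ ε) * P + s ^ 5 * N ^ 2) := h5.trans h4
  have h7 : H ≤ 972 * A * (a / b ^ ε) * P + 12 * (a / b) * s ^ 5 * N ^ 2 := by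
    have h8 : H = (2 / b) * (b / 2 * H) := by field_simp
    rw [h8]
    calc (2 / b) * (b / 2 * H)
        ≤ (2 / b) * (6 * a * (81 * A * (b / b ^ ε) * P + s ^ 5 * N ^ 2)) := by gcongr
      _ = 972 * A * (a / b ^ ε) * P + 12 * (a / b) * s ^ 5 * N ^ 2 := by
          field_simp
          ring
  have h9 : a / b ^ ε ≤ 1 / c := by
    rw [div_le_div_iff₀ hbe hc]
    linarith
  have h10 : a / b ≤ 1 / 2 := by
    rw [div_le_div_iff₀ hb (by norm_num)]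
    linarith
  calc H ≤ 972 * A * (a / b ^ ε) * P + 12 * (a / b) * s ^ 5 * N ^ 2 := h7
    _ ≤ 972 * A * (1 / c) * P + 12 * (1 / 2) * s ^ 5 * N ^ 2 := by gcongr
    _ = 972 * A / c * P + 6 * s ^ 5 * N ^ 2 := by ring

theorem step (s : ℕ) (ε C₀ : ℝ) (h0 : 0 < ε) (h1 : ε ≤ 1) (hC : 0 ≤ C₀) : ∃ C : ℝ, 0 ≤ C ∧
    ∀ (α : ℝ) (n : ℕ) (F : Fam n), Good α s F →
    (∀ S : Finset (Fin n), (nClean F S : ℝ) ≤ C₀ * (S.card : ℝ) ^ 2) →
    ∀ A : ℝ, 0 ≤ A →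
      (∀ S : Finset (Fin n), ((Vs F S 0).ncard : ℝ) ≤ A * (S.card : ℝ) ^ (2 + ε)) →
      ∀ S : Finset (Fin n), ((Vs F S 0).ncard : ℝ)
        ≤ A / 4 * (S.card : ℝ) ^ (2 + ε) + C * (S.card : ℝ) ^ 2 := by
  classical
  obtain ⟨tt, t0, t2, tε⟩ := thresholds ε (4 * 972 * ((s : ℝ) ^ 3 + 1) ^ 2) h0 (by positivity)
  have tpos : ∀ j, 1 ≤ tt j := by
    intro j
    induction j with
    | zero => omega
    | succ j ih => have := t2 j; omega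
  have tmono : StrictMono tt := strictMono_nat_of_lt_succ (fun j => by
    have := t2 j; have := tpos j; omega)
  obtain ⟨T, hT⟩ : ∃ T, T = tt (s ^ 3 + 1) := ⟨_, rfl⟩
  refine ⟨(s : ℝ) ^ 3 * (T + 2) + (s : ℝ) ^ 3 * (((s : ℝ) ^ 3 + 1) * (6 * (s : ℝ) ^ 5)
    + 3 * (T + 2) * (s : ℝ) ^ 3 + 2 ^ (3 + 3 * s ^ 3 * T) * C₀), by positivity, ?_⟩
  intro α n F hF hcl A hA hAS S
  obtain ⟨N, hN⟩ : ∃ N : ℝ, N = (S.card : ℝ) := ⟨_, rfl⟩
  have hN0 : 0 ≤ N := by rw [hN]; positivity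
  rw [← hN]
  have hP0 : 0 ≤ N ^ (2 + ε) := Real.rpow_nonneg hN0 _
  by_cases hsmall : S.card < T + 2
  · have h2 : ((Vs F S 0).ncard : ℝ) ≤ (s : ℝ) ^ 3 * N ^ 3 := by
      rw [hN]
      exact_mod_cast trivial_bound hF S
    have h3 : N ≤ T + 2 := by
      rw [hN]
      have : S.card ≤ T + 2 := hsmall.le
      exact_mod_cast this
    have h4 : (s : ℝ) ^ 3 * N ^ 3 ≤ (s : ℝ) ^ 3 * (T + 2) * N ^ 2 := by
      calc (s : ℝ) ^ 3 * N ^ 3 = (s : ℝ) ^ 3 * N * N ^ 2 := by ring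
        _ ≤ (s : ℝ) ^ 3 * (T + 2) * N ^ 2 := by gcongr
    have h5 : 0 ≤ A / 4 * N ^ (2 + ε) := by positivity
    have h6 : 0 ≤ (s : ℝ) ^ 3 * (((s : ℝ) ^ 3 + 1) * (6 * (s : ℝ) ^ 5)
      + 3 * (T + 2) * (s : ℝ) ^ 3 + 2 ^ (3 + 3 * s ^ 3 * T) * C₀) * N ^ 2 := by positivity
    rw [add_mul]
    linarith
  · push Not at hsmall
    have hI : ((ImpS F S).ncard : ℝ) ≤ (s : ℝ) ^ 3 * N ^ 2 := by
      rw [hN]
      exact_mod_cast (Imp_count hF S).2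
    have hHv : ∀ j ∈ Finset.range (s ^ 3 + 1), ((Hv F S (tt j) (tt (j + 1))).ncard : ℝ)
        ≤ 972 * A / (4 * 972 * ((s : ℝ) ^ 3 + 1) ^ 2) * N ^ (2 + ε) + 6 * (s : ℝ) ^ 5 * N ^ 2 := by
      intro j hj
      have hj' : j + 1 ≤ s ^ 3 + 1 := by
        have := Finset.mem_range.1 hj
        omega
      have hbT : tt (j + 1) ≤ T := by rw [hT]; exact tmono.monotone hj'
      have hab := t2 j
      have ha := tpos j
      have hh := (heavy_bound hF S ha (by omega : tt j ≤ tt (j + 1))).2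
      have hh' : (((tt (j + 1) : ℕ) : ℝ) - (tt j : ℕ)) * ((Hv F S (tt j) (tt (j + 1))).ncard : ℝ)
          ≤ 6 * (tt j : ℝ) * (((Vs F S (tt (j + 1) + 1)).ncard : ℝ)
            + (s : ℝ) ^ 2 * ((ImpS F S).ncard : ℝ)) := by
        rw [← Nat.cast_sub (by omega : tt j ≤ tt (j + 1))]
        exact_mod_cast hh
      have hcs := clarkson_shor hF S ε A h0 h1 hA (fun S' _ => hAS S') (tt (j + 1) + 1) (by omega)
      rw [← hN] at hcs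
      have hcs' : ((Vs F S (tt (j + 1) + 1)).ncard : ℝ)
          ≤ 27 * A * ((tt (j + 1) : ℝ) + 2) ^ (1 - ε) * N ^ (2 + ε) := by
        refine hcs.trans (le_of_eq ?_)
        push_cast
        ring_nf
      exact hv_real (by exact_mod_cast ha) (by exact_mod_cast hab) (by positivity) hA hP0
        (by positivity) (by positivity) (tε j) hh' hcs' hI h0 h1
    have hcl' := clean_sample F S (3 * s ^ 3 * T) C₀ hC (fun S' _ => hcl S')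
    rw [← hN] at hcl'
    have hsp := split_bound hF S tt tmono t0
    rw [← hT] at hsp
    have hsp' : ((Vs F S 0).ncard : ℝ) ≤ (s : ℝ) ^ 3 *
        (∑ j ∈ Finset.range (s ^ 3 + 1), ((Hv F S (tt j) (tt (j + 1))).ncard : ℝ)
      + 3 * (T + 2) * ((ImpS F S).ncard : ℝ)
      + (((S.powersetCard 3).filter fun t => RF F t ∧ (Vt F t).Nonempty ∧
          cp F S t (Skel F t) ≤ 3 * s ^ 3 * T).card : ℝ)) := by
      exact_mod_cast hsp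
    have hsum := Finset.sum_le_sum hHv
    rw [Finset.sum_const, Finset.card_range, nsmul_eq_mul] at hsum
    push_cast at hsum
    have hM : (s : ℝ) ^ 3 * (((s : ℝ) ^ 3 + 1) *
        (972 * A / (4 * 972 * ((s : ℝ) ^ 3 + 1) ^ 2))) ≤ A / 4 := by
      have h2 : (s : ℝ) ^ 3 * (((s : ℝ) ^ 3 + 1) *
        (972 * A / (4 * 972 * ((s : ℝ) ^ 3 + 1) ^ 2)))
          = (s : ℝ) ^ 3 / ((s : ℝ) ^ 3 + 1) * (A / 4) := by
        field_simp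
      rw [h2]
      have h3 : (s : ℝ) ^ 3 / ((s : ℝ) ^ 3 + 1) ≤ 1 := by
        rw [div_le_one (by positivity)]
        linarith
      calc (s : ℝ) ^ 3 / ((s : ℝ) ^ 3 + 1) * (A / 4) ≤ 1 * (A / 4) := by gcongr
        _ = A / 4 := one_mul _
    calc ((Vs F S 0).ncard : ℝ)
        ≤ (s : ℝ) ^ 3 * (((s : ℝ) ^ 3 + 1) * (972 * A / (4 * 972 * ((s : ℝ) ^ 3 + 1) ^ 2)
            * N ^ (2 + ε) + 6 * (s : ℝ) ^ 5 * N ^ 2)
          + 3 * (T + 2) * ((s : ℝ) ^ 3 * N ^ 2)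
          + 2 ^ (3 + 3 * s ^ 3 * T) * C₀ * N ^ 2) := by
          refine hsp'.trans ?_
          gcongr
      _ = (s : ℝ) ^ 3 * (((s : ℝ) ^ 3 + 1) *
            (972 * A / (4 * 972 * ((s : ℝ) ^ 3 + 1) ^ 2))) * N ^ (2 + ε)
          + (s : ℝ) ^ 3 * (((s : ℝ) ^ 3 + 1) * (6 * (s : ℝ) ^ 5)
            + 3 * (T + 2) * (s : ℝ) ^ 3 + 2 ^ (3 + 3 * s ^ 3 * T) * C₀) * N ^ 2 := by ring
      _ ≤ A / 4 * N ^ (2 + ε)
          + (s : ℝ) ^ 3 * (((s : ℝ) ^ 3 + 1) * (6 * (s : ℝ) ^ 5)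
            + 3 * (T + 2) * (s : ℝ) ^ 3 + 2 ^ (3 + 3 * s ^ 3 * T) * C₀) * N ^ 2 := by gcongr
      _ ≤ _ := by
          rw [add_mul ((s : ℝ) ^ 3 * (T + 2))]
          have : 0 ≤ (s : ℝ) ^ 3 * (T + 2) * N ^ 2 := by positivity
          linarith

end UF.FP
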