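import Pool.Agent.Work.MP_4c5ddc_co.FP.AEdg

/-!
# FP/AStr (S-M: the local optimality principle)

PROOF. Let `t = {a, b, c}`, `ν₁, ν₂, ν₃` the tight normals at `x`, `d₁, d₂, d₃` from `dual_par`. `z ∈ Int3 F t` has slacks
`σ_i = h(ν_i) - ⟪ν_i, z⟫ ≥ 0`, `z - x = ∑ σ_i • d_i`. So `0 < ⟪g, z - x⟫ = ∑ σ_i ⟪g, d_i⟫`, some `i` has
`⟪g, d_i⟫ > 0`. Let `[x, y]` be the edge which leaves the body of `ν_i` (`edge_ex`). `dual_par` for `z = y`: the slacks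
of the other two normals at `y` are `0` (`edge_in` with `right_mem_segment`), so `y - x = σ • d_i` with
`σ = h(ν_i) - ⟪ν_i, y⟫ ≥ 0`, and `σ ≠ 0` as `y ≠ x`. So `⟪g, y⟫ > ⟪g, x⟫`.
-/

set_option autoImplicit false

namespace UF.FP

variable {n : ℕ} {α : ℝ} {s : ℕ} {F : Fam n}

private theorem str_one (hF : Good α s F) {t : Finset (Fin n)} (ht : t.card = 3) {x g : E3}
    (hx : x ∈ Vt F t) {a b c : Fin n} (hab : a ≠ b) (hac : a ≠ c) (hbc : b ≠ c)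
    (ha : a ∈ t) (hb : b ∈ t) (hc : c ∈ t) {ν₁ ν₂ ν₃ d : E3} (h1 : F.Tight a ν₁ x)
    (h2 : F.Tight b ν₂ x) (h3 : F.Tight c ν₃ x) (hd1 : inner ℝ ν₁ d = (0 : ℝ))
    (hd2 : inner ℝ ν₂ d = (0 : ℝ)) (hd3 : inner ℝ ν₃ d = (-1 : ℝ)) (hg : 0 < (inner ℝ g d : ℝ)) :
    ∃ y, Edge F t c x y ∧ (inner ℝ g x : ℝ) < inner ℝ g y := by
  obtain ⟨y, he⟩ := edge_ex hF ht hx hc
  obtain ⟨hy1, hy2, -⟩ := edge_in he (right_mem_segment ℝ x y)
  have hli := prp_indep hF hx.1 hab hac hbc (by rw [hx.2]; exact ha) (by rw [hx.2]; exact hb)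
    (by rw [hx.2]; exact hc) h1 h2 h3
  have e1 := (hy2 a ha hac ν₁ h1).2
  have e2 := (hy2 b hb hbc ν₂ h2).2
  have hyx : y = x + (F.h c ν₃ - inner ℝ ν₃ y) • d := by
    refine CO.coord_inj hli ?_ ?_ ?_
    · rw [inner_add_right, inner_smul_right, hd1, e1, h1.2]
      ring
    · rw [inner_add_right, inner_smul_right, hd2, e2, h2.2]
      ring
    · rw [inner_add_right, inner_smul_right, hd3, h3.2]
      ring
  have hs0 : 0 ≤ F.h c ν₃ - inner ℝ ν₃ y := sub_nonneg.2 (hy1 c hc ν₃ h3.1)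
  have hs1 : F.h c ν₃ - inner ℝ ν₃ y ≠ 0 := by
    intro h
    rw [h, zero_smul, add_zero] at hyx
    exact he.ne hyx
  have hs : 0 < F.h c ν₃ - inner ℝ ν₃ y := lt_of_le_of_ne hs0 hs1.symm
  refine ⟨y, he, ?_⟩
  rw [hyx, inner_add_right, inner_smul_right]
  have := mul_pos hs hg
  linarith

theorem star (hF : Good α s F) {t : Finset (Fin n)} (ht : t.card = 3) {x z g : E3}
    (hx : x ∈ Vt F t) (hz : z ∈ Int3 F t) (hg : inner ℝ g x < inner ℝ g z) :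
    ∃ c ∈ t, ∃ y, Edge F t c x y ∧ inner ℝ g x < inner ℝ g y := by
  classical
  obtain ⟨a, b, c, hab, hac, hbc, rfl⟩ := Finset.card_eq_three.1 ht
  have ha : a ∈ ({a, b, c} : Finset (Fin n)) := by simp
  have hb : b ∈ ({a, b, c} : Finset (Fin n)) := by simp
  have hc : c ∈ ({a, b, c} : Finset (Fin n)) := by simp
  have hK : ∀ i ∈ ({a, b, c} : Finset (Fin n)), ∃ ν, F.Tight i ν x := fun i hi =>
    (bd_iff.1 (by rw [hx.2]; exact hi)).2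
  obtain ⟨ν₁, h1⟩ := hK a ha
  obtain ⟨ν₂, h2⟩ := hK b hb
  obtain ⟨ν₃, h3⟩ := hK c hc
  obtain ⟨d₁, d₂, d₃, ⟨p1, p2, p3⟩, ⟨q1, q2, q3⟩, ⟨r1, r2, r3⟩, hz'⟩ := dual_par hF hx.1 hab hac
    hbc (by rw [hx.2]; exact ha) (by rw [hx.2]; exact hb) (by rw [hx.2]; exact hc) h1 h2 h3
  have s1 : 0 ≤ F.h a ν₁ - inner ℝ ν₁ z := sub_nonneg.2 (hz a ha ν₁ h1.1)
  have s2 : 0 ≤ F.h b ν₂ - inner ℝ ν₂ z := sub_nonneg.2 (hz b hb ν₂ h2.1)
  have s3 : 0 ≤ F.h c ν₃ - inner ℝ ν₃ z := sub_nonneg.2 (hz c hc ν₃ h3.1)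
  have hsum : (0 : ℝ) < inner ℝ g (z - x) := by
    rw [inner_sub_right]
    linarith
  rw [hz' z, inner_add_right, inner_add_right, inner_smul_right, inner_smul_right,
    inner_smul_right] at hsum
  by_cases g3 : 0 < (inner ℝ g d₃ : ℝ)
  · obtain ⟨y, h⟩ := str_one hF ht hx hab hac hbc ha hb hc h1 h2 h3 r1 r2 r3 g3
    exact ⟨c, hc, y, h⟩
  · by_cases g2 : 0 < (inner ℝ g d₂ : ℝ)
    · obtain ⟨y, h⟩ := str_one hF ht hx hac hab hbc.symm ha hc hb h1 h3 h2 q1 q3 q2 g2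
      exact ⟨b, hb, y, h⟩
    · by_cases g1 : 0 < (inner ℝ g d₁ : ℝ)
      · obtain ⟨y, h⟩ := str_one hF ht hx hbc hab.symm hac.symm hb hc ha h2 h3 h1 p2 p3 p1 g1
        exact ⟨a, ha, y, h⟩
      · exfalso
        have k1 := mul_nonpos_of_nonneg_of_nonpos s1 (not_lt.1 g1)
        have k2 := mul_nonpos_of_nonneg_of_nonpos s2 (not_lt.1 g2)
        have k3 := mul_nonpos_of_nonneg_of_nonpos s3 (not_lt.1 g3)
        linarith

end UF.FP
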