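import Pool.Agent.Work.MP_4c5ddc_co.FP.Vin

/-!
# FP/CmpE (S-M): comparable frames of the mixed type (T, M)

PROOF. Take `m = true`, `m' = false`. `cr f (y 0) = ‖cr f (y 0)‖ • X` (from `hX`, up to the sign
`e`): `dt f (y 0) (z k) = inner (cr f (y 0)) (z k)` (`cr_inner`), so
`|‖cr f (y 0)‖⁻¹ * dt f (y 0) (z k)| = |inner X (z k)| ≤ C₁ * w`. `|‖cr f (y 1)‖⁻¹ * dt f (y 1) (z k)| ≤
C₁ * w / c₃`. `|σ 0 * σ 1 * dt f (y 0) (y 1)| = |inner X (y 1)| / ‖cr f (y 1)‖ ≥ c₄ * w`, because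
`‖cr f (y 1)‖ ≤ ‖f‖ * ‖y 1‖ = 1`. So the right side is at least
`C * c₄ * w * c₅ * w` with `C = C₁ ^ 2 / (c₃ ^ 2 * c₄ * c₅)` and the left side at most
`(C₁ * w / c₃) ^ 2` (`c₃ ≤ 1`).
-/

set_option autoImplicit false

namespace UF.FP

theorem cmp_of_E {w C₁ c₃ c₄ c₅ : ℝ} (hw : 0 ≤ w) (hC : 0 < C₁) (h3 : 0 < c₃) (h3' : c₃ ≤ 1)
    (h4 : 0 < c₄) (h5 : 0 < c₅) {f X : E3} {y z : Fin 2 → E3} (hf : ‖f‖ = 1)
    (hy : ∀ j, ‖y j‖ = 1) (e : ℝ) (he : e = 1 ∨ e = -1) (hX : cr f (y 0) = (e * ‖cr f (y 0)‖) • X)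
    (h0 : cr f (y 0) ≠ 0) (hX1 : ∀ k, |inner ℝ X (z k)| ≤ C₁ * w)
    (hY1 : ∀ k, |dt f (y 1) (z k)| ≤ C₁ * w) (hc3 : c₃ ≤ ‖cr f (y 1)‖)
    (hc4 : c₄ * w ≤ |inner ℝ X (y 1)|) (hc5 : c₅ * w ≤ |dt f (z 0) (z 1)|) :
    Frm (C₁ ^ 2 / (c₃ ^ 2 * c₄ * c₅)) f y z := by
  have hsT : ∀ i : Fin 2, sc true f y i = ‖cr f (y i)‖⁻¹ := fun i => by
    unfold sc
    exact if_pos rfl
  have hsF : ∀ i : Fin 2, sc false f z i = 1 := fun i => by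
    unfold sc
    exact if_neg Bool.false_ne_true
  have hn0 : 0 < ‖cr f (y 0)‖ := norm_pos_iff.2 h0
  have hn1 : 0 < ‖cr f (y 1)‖ := h3.trans_le hc3
  have hn1' : ‖cr f (y 1)‖ ≤ 1 := by
    have := norm_cr_le f (y 1)
    rwa [hf, hy 1, one_mul] at this
  have hae : |e| = 1 := by
    rcases he with rfl | rfl
    · exact abs_one
    · rw [abs_neg, abs_one]
  have hin : ∀ v : E3, |‖cr f (y 0)‖⁻¹ * dt f (y 0) v| = |inner ℝ X v| := by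
    intro v
    have h1 : dt f (y 0) v = (e * ‖cr f (y 0)‖) * inner ℝ X v := by
      rw [← cr_inner]
      nth_rewrite 1 [hX]
      rw [real_inner_smul_left]
    rw [h1, ← mul_assoc, mul_comm e, ← mul_assoc, inv_mul_cancel₀ hn0.ne', one_mul, abs_mul, hae,
      one_mul]
  have hcw : 0 ≤ C₁ * w := by positivity
  have hB : (C₁ * w / c₃) ^ 2 ≤ C₁ ^ 2 / (c₃ ^ 2 * c₄ * c₅) *
      (|sc true f y 0 * sc true f y 1 * dt f (y 0) (y 1)| *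
        |sc false f z 0 * sc false f z 1 * dt f (z 0) (z 1)|) := by
    rw [hsT, hsT, hsF, hsF, one_mul, one_mul]
    have h6 : c₄ * w ≤ |‖cr f (y 0)‖⁻¹ * ‖cr f (y 1)‖⁻¹ * dt f (y 0) (y 1)| := by
      have h7 : ‖cr f (y 0)‖⁻¹ * ‖cr f (y 1)‖⁻¹ * dt f (y 0) (y 1) =
          ‖cr f (y 1)‖⁻¹ * (‖cr f (y 0)‖⁻¹ * dt f (y 0) (y 1)) := by ring
      rw [h7, abs_mul, hin, abs_of_pos (inv_pos.2 hn1)]
      have h8 : 1 ≤ ‖cr f (y 1)‖⁻¹ := (one_le_inv₀ hn1).2 hn1'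
      exact hc4.trans (le_mul_of_one_le_left (abs_nonneg _) h8)
    have h9 : (c₄ * w) * (c₅ * w) ≤
        |‖cr f (y 0)‖⁻¹ * ‖cr f (y 1)‖⁻¹ * dt f (y 0) (y 1)| * |dt f (z 0) (z 1)| :=
      mul_le_mul h6 hc5 (by positivity) (abs_nonneg _)
    have h10 : (C₁ * w / c₃) ^ 2 = C₁ ^ 2 / (c₃ ^ 2 * c₄ * c₅) * ((c₄ * w) * (c₅ * w)) := by
      field_simp
    rw [h10]
    exact mul_le_mul_of_nonneg_left h9 (by positivity)
  refine ⟨true, false, ?_⟩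
  intro j k
  refine le_trans ?_ hB
  rw [hsT, hsF, mul_one, ← sq_abs]
  refine pow_le_pow_left₀ (abs_nonneg _) ?_ 2
  have hj : j = 0 ∨ j = 1 := by
    fin_cases j
    · exact Or.inl rfl
    · exact Or.inr rfl
  rcases hj with rfl | rfl
  · rw [hin]
    refine (hX1 k).trans ?_
    rw [le_div_iff₀ h3]
    exact mul_le_of_le_one_right hcw h3'
  · rw [abs_mul, abs_of_pos (inv_pos.2 hn1), inv_mul_eq_div]
    calc |dt f (y 1) (z k)| / ‖cr f (y 1)‖ ≤ (C₁ * w) / ‖cr f (y 1)‖ :=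
          div_le_div_of_nonneg_right (hY1 k) hn1.le
      _ ≤ C₁ * w / c₃ := div_le_div_of_nonneg_left hcw h3 hc3

end UF.FP
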