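import Pool.Agent.Work.MP_4c5ddc_co.FP.Vin

/-!
# FP/CmpN (S-M): the transversality condition (N) gives comparable frames

PROOF. Take `m = m' = false` in `Frm` (`sc false f y j = 1`). By `abs_dt_le_add`
`|dt f (y j) (z k)| ≤ |inner f g| + ‖cr g g'‖ ≤ (1 + 1 / κ) * |inner f g|`, and the same with `g, g'`
exchanged (`dt f y z = - dt f z y`, `norm_cr_comm`) `≤ (1 + 1 / κ) * |inner f g'|`. The product of the two bounds is
a bound for the square. By `abs_dt_eq` `m * |inner f g| ≤ |dt f (y 0) (y 1)|`, and the same for `z`.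
-/

set_option autoImplicit false

namespace UF.FP

theorem cmp_of_N {m κ : ℝ} (hm : 0 < m) (hκ : 0 < κ) {f g g' : E3} {y z : Fin 2 → E3}
    (hf : ‖f‖ = 1) (hy : Rg m y g) (hz : Rg m z g') (h : Nn κ f g g') :
    Frm ((1 + 1 / κ) ^ 2 / m ^ 2) f y z := by
  refine ⟨false, false, ?_⟩
  intro j k
  have hs : ∀ (x : Fin 2 → E3) (i : Fin 2), sc false f x i = 1 := fun x i => by
    unfold sc
    exact if_neg Bool.false_ne_true
  simp only [hs, one_mul]
  have hK : (0 : ℝ) < 1 + 1 / κ := by positivity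
  have hq : ‖cr g g'‖ ≤ 1 / κ * |inner ℝ f g| := by
    rw [one_div, inv_mul_eq_div, le_div_iff₀ hκ, mul_comm]
    exact h.1
  have hq' : ‖cr g g'‖ ≤ 1 / κ * |inner ℝ f g'| := by
    rw [one_div, inv_mul_eq_div, le_div_iff₀ hκ, mul_comm]
    exact h.2
  have h1 : |dt f (y j) (z k)| ≤ (1 + 1 / κ) * |inner ℝ f g| := by
    have := abs_dt_le_add hf (hy.u j) (hz.u k) hy.ug hz.ug (hy.o j) (hz.o k)
    linarith
  have h2 : |dt f (y j) (z k)| ≤ (1 + 1 / κ) * |inner ℝ f g'| := by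
    have := abs_dt_le_add hf (hz.u k) (hy.u j) hz.ug hy.ug (hz.o k) (hy.o j)
    rw [dt_swap23, abs_neg, norm_cr_comm] at this
    linarith
  have h3 : m * |inner ℝ f g| ≤ |dt f (y 0) (y 1)| := by
    rw [abs_dt_eq hy.ug (hy.o 0) (hy.o 1)]
    exact mul_le_mul_of_nonneg_right hy.low (abs_nonneg _)
  have h4 : m * |inner ℝ f g'| ≤ |dt f (z 0) (z 1)| := by
    rw [abs_dt_eq hz.ug (hz.o 0) (hz.o 1)]
    exact mul_le_mul_of_nonneg_right hz.low (abs_nonneg _)
  have h5 : (dt f (y j) (z k)) ^ 2 ≤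
      ((1 + 1 / κ) * |inner ℝ f g|) * ((1 + 1 / κ) * |inner ℝ f g'|) := by
    rw [← sq_abs, sq]
    exact mul_le_mul h1 h2 (abs_nonneg _) (by positivity)
  have h6 : (m * |inner ℝ f g|) * (m * |inner ℝ f g'|) ≤
      |dt f (y 0) (y 1)| * |dt f (z 0) (z 1)| :=
    mul_le_mul h3 h4 (by positivity) (abs_nonneg _)
  refine h5.trans ?_
  have h7 : ((1 + 1 / κ) * |inner ℝ f g|) * ((1 + 1 / κ) * |inner ℝ f g'|) =
      (1 + 1 / κ) ^ 2 / m ^ 2 * ((m * |inner ℝ f g|) * (m * |inner ℝ f g'|)) := by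
    field_simp
  rw [h7]
  exact mul_le_mul_of_nonneg_left h6 (by positivity)

end UF.FP
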