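import Pool.Agent.Work.MP_4c5ddc_co.FP.Vin

/-!
# FP/FEta (M): one flat body: the scale η

Here `a` is flat (`‖a 0 - a 1‖ ≤ m ^ 2 / 200`), `b, c` are not; `b j`, `c k` are transversal to `a 0`,
`u` is the unit direction of `cr (b j) (c k)`, `η = |inner (a 0 - a 1) u|`.

PROOF. Let `Δ = a 0 - a 1`, `ϑ = m ^ 2 / 200`, `τ = m / 2`. (0) For all `j', k'` and the unit direction `u'` of
`cr (b j') (c k')`: `(a 0 · u') (a 1 · u') < 0` by `Lin.sa` (`dt (a i) (b j') (c k') = ‖cr (b j') (c k')‖ * (a i · u')`, `dt_rot`), so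
`|a 0 · u'| + |a 1 · u'| = |Δ · u'|`. In particular `0 < η ≤ ϑ` and `|a i · u| ≤ η`.
(1) Let `c k'` be the other normal of `c` (`k' = 1 - k`), `u₁` the direction of `cr (b j) (c k')`. `u, u₁` are orthogonal to `b j`, so by
`cr_norm_of_orth` (`β = b j`, the vector `a 0`): `‖cr u u₁‖ * τ ≤ |a 0 · u| + |a 0 · u₁| ≤ η + |Δ · u₁|`. With a sign `e`
(`exists_sign`) `‖u - e • u₁‖ ≤ 2 ‖cr u u₁‖`, so `|Δ · u₁| ≤ η + 2 ϑ ‖cr u u₁‖`; so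
`‖cr u u₁‖ (τ - 2 ϑ) ≤ 2 η`, `τ - 2 ϑ ≥ m / 2 - m / 100`, so `‖cr u u₁‖ ≤ 5 η / m`. The same for `u₂`, the direction of
`cr (b j') (c k)`, `j' = 1 - j` (both `u, u₂` are orthogonal to `c k`): `‖cr u u₂‖ ≤ 5 η / m`.
(2) `norm_cr_mul` for `b` and `v = u₂` (`b j' · u₂ = 0`): `m ‖cr u₂ gb‖ ≤ |b j · u₂| = |b j · (u₂ - e • u)| ≤ 10 η / m` (`b j · u = 0`), so
`‖cr gb u‖ ≤ ‖cr gb u₂‖ + ‖cr u₂ u‖ ≤ 10 η / m ^ 2 + 5 η / m ≤ 15 η / m ^ 2`. The same for `gc` with `u₁`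
(`c k' · u₁ = 0`, `|c k · u₁| = |c k · (u₁ - e • u)| ≤ 10 η / m`).
(3) With a sign `e`: `‖gb - e • u‖ ≤ 30 η / m ^ 2`, so `|Δ · gb| ≥ η - ϑ * 30 η / m ^ 2 ≥ η / 2`; the same for `gc`.
`|a i · gb| ≤ |a i · u| + 30 η / m ^ 2 ≤ 31 η / m ^ 2`, `‖cr gb gc‖ ≤ 30 η / m ^ 2`, and `abs_dt_le_add` gives the last claim
(`dt (a i) (b j') (c k')` with `f = a i`, `x = b j'`, `g = gb`, `y = c k'`, `g' = gc`).
-/

set_option autoImplicit false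

namespace UF.FP

private theorem fe_abs {x y : ℝ} (h : x * y < 0) : |x| + |y| = |x - y| := by
  rcases mul_neg_iff.1 h with ⟨h1, h2⟩ | ⟨h1, h2⟩
  · rw [abs_of_pos h1, abs_of_neg h2, abs_of_pos (by linarith)]
    ring
  · rw [abs_of_neg h1, abs_of_pos h2, abs_of_neg (by linarith)]
    ring

private theorem fe_ne {a b c : Fin 2 → E3} (hl : Lin a b c) (j k : Fin 2) :
    cr (b j) (c k) ≠ 0 := by
  intro h
  have hs := hl.sa j k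
  rw [← inner_cr, h, inner_zero_right, zero_mul] at hs
  exact lt_irrefl _ hs

private theorem fe_0 {a b c : Fin 2 → E3} (hl : Lin a b c) {j k : Fin 2} {u : E3}
    (hu : Dir (b j) (c k) u) : inner ℝ (a 0) u * inner ℝ (a 1) u < 0 := by
  obtain ⟨h1, h2, h3, h4, h5⟩ := hu
  have hs := hl.sa j k
  have e : ∀ i, dt (a i) (b j) (c k) = ‖cr (b j) (c k)‖ * inner ℝ (a i) u := by
    intro i
    rw [← inner_cr]
    conv_lhs => rw [h5]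
    rw [inner_smul_right]
  rw [e, e] at hs
  have e1 : ‖cr (b j) (c k)‖ * inner ℝ (a 0) u * (‖cr (b j) (c k)‖ * inner ℝ (a 1) u) =
      ‖cr (b j) (c k)‖ ^ 2 * (inner ℝ (a 0) u * inner ℝ (a 1) u) := by ring
  rw [e1] at hs
  by_contra hcon
  push Not at hcon
  have h6 := mul_nonneg (sq_nonneg ‖cr (b j) (c k)‖) hcon
  linarith

private theorem fe_c (D : E3) {u v : E3} (hu : ‖u‖ = 1) (hv : ‖v‖ = 1) :
    |inner ℝ D v| ≤ |inner ℝ D u| + ‖D‖ * (2 * ‖cr u v‖) := by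
  obtain ⟨e, he, h⟩ := exists_sign hv hu
  rw [norm_cr_comm u v] at h
  have h1 : inner ℝ D v = e * inner ℝ D u + inner ℝ D (v - e • u) := by
    rw [inner_sub_right, inner_smul_right]
    ring
  have h2 : |inner ℝ D (v - e • u)| ≤ ‖D‖ * ‖v - e • u‖ := abs_real_inner_le_norm _ _
  have h3 : |e * inner ℝ D u| = |inner ℝ D u| := by
    rw [abs_mul]
    rcases he with he | he
    · rw [he, abs_one, one_mul]
    · rw [he, abs_neg, abs_one, one_mul]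
  have h4 : ‖D‖ * ‖v - e • u‖ ≤ ‖D‖ * (2 * ‖cr u v‖) :=
    mul_le_mul_of_nonneg_left h (norm_nonneg _)
  rw [h1]
  refine (abs_add_le _ _).trans ?_
  rw [h3]
  linarith

private theorem fe_1 {D a0 β u v : E3} {m η : ℝ} (hm : 0 < m) (hm1 : m ≤ 1)
    (hD : ‖D‖ ≤ m ^ 2 / 200) (hβ : ‖β‖ = 1) (hu : ‖u‖ = 1) (hv : ‖v‖ = 1)
    (huβ : inner ℝ u β = 0) (hvβ : inner ℝ v β = 0)
    (hcr : m / 2 ≤ ‖cr a0 β‖) (hη : |inner ℝ D u| = η) (h1 : |inner ℝ a0 u| ≤ η)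
    (h2 : |inner ℝ a0 v| ≤ |inner ℝ D v|) : m * ‖cr u v‖ ≤ 5 * η := by
  have h3 := cr_norm_of_orth (a := a0) hβ hu hv huβ hvβ
  have h4 := fe_c D hu hv
  have hP := norm_nonneg (cr u v)
  have h5 : ‖cr u v‖ * (m / 2) ≤ ‖cr u v‖ * ‖cr a0 β‖ := mul_le_mul_of_nonneg_left hcr hP
  have h6 : ‖D‖ * (2 * ‖cr u v‖) ≤ m ^ 2 / 200 * (2 * ‖cr u v‖) :=
    mul_le_mul_of_nonneg_right hD (by positivity)
  have h7 : m ^ 2 * ‖cr u v‖ ≤ m * ‖cr u v‖ := mul_le_mul_of_nonneg_right (by nlinarith) hP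
  rw [hη] at h4
  have hη0 : 0 ≤ η := by
    rw [← hη]
    exact abs_nonneg _
  linarith

private theorem fe_2 {m η : ℝ} {b : Fin 2 → E3} {gb u u₂ : E3} (hm : 0 < m) (hm1 : m ≤ 1)
    (hb : Rg m b gb) (j : Fin 2) (hu : ‖u‖ = 1) (hu2 : ‖u₂‖ = 1) (h1 : inner ℝ (b j) u = 0)
    (h2 : inner ℝ (b (1 - j)) u₂ = 0) (h3 : m * ‖cr u u₂‖ ≤ 5 * η) :
    ‖cr gb u‖ ≤ 15 / m ^ 2 * η := by
  have h4 := norm_cr_mul (hb.u 0) (hb.u 1) hb.ug (hb.o 0) (hb.o 1) u₂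
  have h5 : |inner ℝ (b 0) u₂| + |inner ℝ (b 1) u₂| = |inner ℝ (b j) u₂| := by
    rcases (show j = 0 ∨ j = 1 by omega) with hj | hj
    · rw [hj] at h2 ⊢
      have h6 : inner ℝ (b 1) u₂ = 0 := h2
      rw [h6, abs_zero, add_zero]
    · rw [hj] at h2 ⊢
      have h6 : inner ℝ (b 0) u₂ = 0 := h2
      rw [h6, abs_zero, zero_add]
  have h6 := fe_c (b j) hu hu2
  rw [h1, abs_zero, zero_add, hb.u j, one_mul] at h6
  have h7 : m * ‖cr u₂ gb‖ ≤ ‖cr (b 0) (b 1)‖ * ‖cr u₂ gb‖ :=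
    mul_le_mul_of_nonneg_right hb.low (norm_nonneg _)
  have h8 := cr_tri hb.ug hu hu2
  rw [norm_cr_comm u u₂] at h8
  rw [norm_cr_comm gb u₂] at h7 h4
  rw [h5] at h4
  have hP := norm_nonneg (cr u u₂)
  have h9 : m * (m * ‖cr gb u₂‖) ≤ m * (2 * ‖cr u u₂‖) :=
    mul_le_mul_of_nonneg_left (by linarith) hm.le
  have h10 : m ^ 2 * ‖cr u u₂‖ ≤ m * ‖cr u u₂‖ := mul_le_mul_of_nonneg_right (by nlinarith) hP
  have h11 : m ^ 2 * ‖cr gb u‖ ≤ m ^ 2 * (‖cr gb u₂‖ + ‖cr u u₂‖) :=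
    mul_le_mul_of_nonneg_left h8 (by positivity)
  rw [div_mul_eq_mul_div, le_div_iff₀ (by positivity)]
  linarith

theorem f_eta {m : ℝ} {a b c : Fin 2 → E3} {gb gc u : E3} (hl : Lin a b c) (hm : 0 < m)
    (hm1 : m ≤ 1) (hfl : ‖a 0 - a 1‖ ≤ m ^ 2 / 200) (hb : Rg m b gb) (hc : Rg m c gc)
    {j k : Fin 2} (hj : m / 2 ≤ ‖cr (a 0) (b j)‖) (hk : m / 2 ≤ ‖cr (a 0) (c k)‖)
    (hu : Dir (b j) (c k) u) :
    0 < |inner ℝ (a 0 - a 1) u| ∧ (∀ i, |inner ℝ (a i) u| ≤ |inner ℝ (a 0 - a 1) u|) ∧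
      ‖cr gb u‖ ≤ 15 / m ^ 2 * |inner ℝ (a 0 - a 1) u| ∧
      ‖cr gc u‖ ≤ 15 / m ^ 2 * |inner ℝ (a 0 - a 1) u| ∧
      |inner ℝ (a 0 - a 1) u| / 2 ≤ |inner ℝ (a 0 - a 1) gb| ∧
      |inner ℝ (a 0 - a 1) u| / 2 ≤ |inner ℝ (a 0 - a 1) gc| ∧
      ∀ i j' k', |dt (a i) (b j') (c k')| ≤ 61 / m ^ 2 * |inner ℝ (a 0 - a 1) u| := by
  obtain ⟨D, hD⟩ : ∃ D : E3, D = a 0 - a 1 := ⟨_, rfl⟩
  rw [← hD] at hfl ⊢
  have hDi : ∀ v, inner ℝ D v = inner ℝ (a 0) v - inner ℝ (a 1) v := fun v => by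
    rw [hD, inner_sub_left]
  have key : ∀ {j' k' : Fin 2} {v : E3}, Dir (b j') (c k') v →
      |inner ℝ (a 0) v| + |inner ℝ (a 1) v| = |inner ℝ D v| ∧ 0 < |inner ℝ D v| := by
    intro j' k' v hv
    have h := fe_0 hl hv
    rw [hDi]
    refine ⟨fe_abs h, ?_⟩
    rw [← fe_abs h]
    have h1 : inner ℝ (a 0) v ≠ 0 := by
      intro h0
      rw [h0, zero_mul] at h
      exact lt_irrefl _ h
    have h2 := abs_pos.2 h1
    have h3 := abs_nonneg (inner ℝ (a 1) v)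
    linarith
  obtain ⟨η, hη⟩ : ∃ η : ℝ, |inner ℝ D u| = η := ⟨_, rfl⟩
  obtain ⟨k0, k1⟩ := key hu
  rw [hη] at k0 k1 ⊢
  have hai : ∀ i, |inner ℝ (a i) u| ≤ η := by
    intro i
    have h1 := abs_nonneg (inner ℝ (a 0) u)
    have h2 := abs_nonneg (inner ℝ (a 1) u)
    rcases (show i = 0 ∨ i = 1 by omega) with hi | hi
    · rw [hi]
      linarith
    · rw [hi]
      linarith
  obtain ⟨u₁, hu1⟩ := exists_dir (fe_ne hl j (1 - k))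
  obtain ⟨u₂, hu2⟩ := exists_dir (fe_ne hl (1 - j) k)
  have hcomm : ∀ {x y : E3}, inner ℝ x y = (0 : ℝ) → inner ℝ y x = (0 : ℝ) := by
    intro x y h
    rw [real_inner_comm]
    exact h
  have e1 : m * ‖cr u u₁‖ ≤ 5 * η := by
    refine fe_1 hm hm1 hfl (hl.ub j) hu.1 hu1.1 (hcomm hu.2.1) (hcomm hu1.2.1) hj hη (hai 0) ?_
    have h1 := (key hu1).1
    have h2 := abs_nonneg (inner ℝ (a 1) u₁)
    linarith
  have e2 : m * ‖cr u u₂‖ ≤ 5 * η := by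
    refine fe_1 hm hm1 hfl (hl.uc k) hu.1 hu2.1 (hcomm hu.2.2.1) (hcomm hu2.2.2.1) hk hη (hai 0) ?_
    have h1 := (key hu2).1
    have h2 := abs_nonneg (inner ℝ (a 1) u₂)
    linarith
  have f1 : ‖cr gb u‖ ≤ 15 / m ^ 2 * η := fe_2 hm hm1 hb j hu.1 hu2.1 hu.2.1 hu2.2.1 e2
  have f2 : ‖cr gc u‖ ≤ 15 / m ^ 2 * η := fe_2 hm hm1 hc k hu.1 hu1.1 hu.2.2.1 hu1.2.2.1 e1
  have hm2 : 0 < m ^ 2 := by positivity
  have hgen : ∀ {g : E3}, ‖g‖ = 1 → ‖cr g u‖ ≤ 15 / m ^ 2 * η → η / 2 ≤ |inner ℝ D g| := by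
    intro g hg h
    have h1 := fe_c D hg hu.1
    rw [hη] at h1
    have h2 : ‖D‖ * (2 * ‖cr g u‖) ≤ m ^ 2 / 200 * (2 * (15 / m ^ 2 * η)) :=
      mul_le_mul hfl (by linarith) (by positivity) (by positivity)
    have h3 : m ^ 2 / 200 * (2 * (15 / m ^ 2 * η)) = 3 / 20 * η := by
      field_simp
      ring
    rw [h3] at h2
    linarith
  refine ⟨k1, hai, f1, f2, hgen hb.ug f1, hgen hc.ug f2, ?_⟩
  intro i j' k'
  have g1 := abs_dt_le_add (hl.ua i) (hl.ub j') (hl.uc k') hb.ug hc.ug (hb.o j') (hc.o k')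
  have g2 := fe_c (a i) hu.1 hb.ug
  rw [hl.ua i, one_mul, norm_cr_comm gb u] at g2
  have g3 := cr_tri hb.ug hc.ug hu.1
  rw [norm_cr_comm gc u] at g3
  have g4 := hai i
  have g5 : η ≤ 1 / m ^ 2 * η := by
    have h1 : (1 : ℝ) ≤ 1 / m ^ 2 := by
      rw [le_div_iff₀ hm2]
      nlinarith
    nlinarith
  have g6 : 61 / m ^ 2 * η = 1 / m ^ 2 * η + 4 * (15 / m ^ 2 * η) := by ring
  rw [g6]
  linarith

end UF.FP
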