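import Pool.Agent.Work.MP_4c5ddc_co.FP.Vin

/-!
# FP/FLow (M): one flat body: lower bound for the frame of the flat body

Notation of `FP/FEta`; `b j'` is any normal of `b` with `m / 8 ≤ ‖cr (a 0) (b j')‖` (possibly `j' = j`).

PROOF. `Δ = a 0 - a 1`, `ϑ = m ^ 2 / 200`, `η = |Δ · u|`, `t = ‖cr (a 0) (b j')‖ ≥ m / 8`. Let `v = u` if `j' = j` and otherwise the unit
direction of `cr (b j') (c k)`. As in (0), (1) of `FP/FEta`: `|a 0 · v| ≤ |Δ · v|`, `‖cr u v‖ ≤ 5 η / m`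
(both orthogonal to `c k`; zero if `v = u`), so with a sign `e`: `| |Δ · v| - η | ≤ ϑ * 10 η / m ≤ η / 20`; hence
`|a 0 · v| ≤ 2 η` and `|Δ · v| ≥ 3 η / 4`. Let `T = t⁻¹ • cr (a 0) (b j')`, a unit vector. As `b j' · v = 0`,
`cr (cr (a 0) (b j')) v = (a 0 · v) • b j' ` (`cr_cr_left`), so `‖cr T v‖ ≤ 2 η / t ≤ 16 η / m`, and with a sign
`‖T - e • v‖ ≤ 32 η / m`, `|Δ · T| ≥ 3 η / 4 - ϑ * 32 η / m ≥ 3 η / 4 - 4 η / 25 ≥ η / 2`. Finally
`cr (a 0) (a 1) = - cr (a 0) Δ` (as `a 1 = a 0 - Δ`), so `|dt (b j') (a 0) (a 1)| = |dt (b j') (a 0) Δ| = |Δ · cr (b j') (a 0)| = t |Δ · T| ≥ t η / 2`.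
The second claim (for `c`) is the first one for `Lin a c b` (permute, `Dir (c k) (b j) (-u)`), or by the same proof.
-/

set_option autoImplicit false

namespace UF.FP

private theorem fo_abs {x y : ℝ} (h : x * y < 0) : |x| ≤ |x - y| := by
  rcases mul_neg_iff.1 h with ⟨h1, h2⟩ | ⟨h1, h2⟩
  · rw [abs_of_pos h1, abs_of_pos (by linarith)]
    linarith
  · rw [abs_of_neg h1, abs_of_neg (by linarith)]
    linarith

private theorem fo_0 {x0 x1 β γ u : E3} (hs : dt x0 β γ * dt x1 β γ < 0) (hu : Dir β γ u) :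
    |inner ℝ x0 u| ≤ |inner ℝ (x0 - x1) u| := by
  obtain ⟨_, _, _, _, h5⟩ := hu
  have e : ∀ x : E3, dt x β γ = ‖cr β γ‖ * inner ℝ x u := by
    intro x
    rw [← inner_cr]
    conv_lhs => rw [h5]
    rw [inner_smul_right]
  rw [e, e] at hs
  have e1 : ‖cr β γ‖ * inner ℝ x0 u * (‖cr β γ‖ * inner ℝ x1 u) =
      ‖cr β γ‖ ^ 2 * (inner ℝ x0 u * inner ℝ x1 u) := by ring
  rw [e1] at hs
  rw [inner_sub_left]
  apply fo_abs
  by_contra hcon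
  push Not at hcon
  have h6 := mul_nonneg (sq_nonneg ‖cr β γ‖) hcon
  linarith

private theorem fo_c (D : E3) {u v : E3} (hu : ‖u‖ = 1) (hv : ‖v‖ = 1) :
    |inner ℝ D v| ≤ |inner ℝ D u| + ‖D‖ * (2 * ‖cr u v‖) := by
  obtain ⟨e, he, h⟩ := exists_sign hv hu
  rw [norm_cr_comm u v] at h
  have h1 : inner ℝ D v = e * inner ℝ D u + inner ℝ D (v - e • u) := by
    rw [inner_sub_right, inner_smul_right]
    ring
  have h2 : |inner ℝ D (v - e • u)| ≤ ‖D‖ * ‖v - e • u‖ := abs_real_inner_le_norm _ _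
  have h3 : |e * inner ℝ D u| = |inner ℝ D u| := by
    rw [abs_mul]
    rcases he with he | he
    · rw [he, abs_one, one_mul]
    · rw [he, abs_neg, abs_one, one_mul]
  have h4 : ‖D‖ * ‖v - e • u‖ ≤ ‖D‖ * (2 * ‖cr u v‖) :=
    mul_le_mul_of_nonneg_left h (norm_nonneg _)
  rw [h1]
  refine (abs_add_le _ _).trans ?_
  rw [h3]
  linarith

/-- the main computation: `β'` is transversal, `v` is orthogonal to it and near `u`. -/
private theorem fo_main {D x0 x1 β' u v : E3} {m η : ℝ} (hm : 0 < m) (hm1 : m ≤ 1)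
    (hDe : D = x0 - x1) (hD : ‖D‖ ≤ m ^ 2 / 200) (hη : |inner ℝ D u| = η) (hu : ‖u‖ = 1)
    (hv : ‖v‖ = 1) (hv1 : inner ℝ β' v = 0) (hβ : ‖β'‖ = 1) (hav : |inner ℝ x0 v| ≤ |inner ℝ D v|)
    (huv : m * ‖cr u v‖ ≤ 5 * η) (ht : m / 8 ≤ ‖cr x0 β'‖) :
    m / 16 * η ≤ |dt β' x0 x1| := by
  have hη0 : 0 ≤ η := by rw [← hη]; exact abs_nonneg _
  have ht0 : 0 < ‖cr x0 β'‖ := lt_of_lt_of_le (by positivity) ht
  -- comparison of `D · v` and `η`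
  have hP := norm_nonneg (cr u v)
  have h1 := fo_c D hu hv
  have h2 := fo_c D hv hu
  rw [norm_cr_comm u v] at h2
  rw [hη] at h1 h2
  have h3 : ‖D‖ * (2 * ‖cr u v‖) ≤ η / 20 := by
    have h4 : ‖D‖ * (2 * ‖cr u v‖) ≤ m ^ 2 / 200 * (2 * ‖cr u v‖) :=
      mul_le_mul_of_nonneg_right hD (by positivity)
    have h5 : m ^ 2 * ‖cr u v‖ ≤ m * (5 * η) := by
      have : m * (m * ‖cr u v‖) ≤ m * (5 * η) := mul_le_mul_of_nonneg_left huv hm.le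
      linarith [this, show m * (m * ‖cr u v‖) = m ^ 2 * ‖cr u v‖ by ring]
    have h6 : m * (5 * η) ≤ 5 * η := by nlinarith
    linarith
  have hDv1 : |inner ℝ D v| ≤ 21 / 20 * η := by linarith
  have hDv2 : 19 / 20 * η ≤ |inner ℝ D v| := by linarith
  -- the unit vector `T`
  obtain ⟨T, hT⟩ : ∃ T : E3, T = ‖cr x0 β'‖⁻¹ • cr x0 β' := ⟨_, rfl⟩
  have hTn : ‖T‖ = 1 := by
    rw [hT, norm_smul, norm_inv, norm_norm, inv_mul_cancel₀ ht0.ne']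
  have hTv : ‖cr x0 β'‖ * ‖cr T v‖ = |inner ℝ x0 v| := by
    rw [hT, cr_smul_left, norm_smul, norm_inv, norm_norm, ← mul_assoc, mul_inv_cancel₀ ht0.ne', one_mul,
      cr_cr_left, hv1, zero_smul, sub_zero, norm_smul, hβ, mul_one, Real.norm_eq_abs]
  have h7 : m / 8 * ‖cr T v‖ ≤ 21 / 20 * η := by
    have h8 : m / 8 * ‖cr T v‖ ≤ ‖cr x0 β'‖ * ‖cr T v‖ :=
      mul_le_mul_of_nonneg_right ht (norm_nonneg _)
    linarith
  have h9 := fo_c D hTn hv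
  have h10 : ‖D‖ * (2 * ‖cr T v‖) ≤ m ^ 2 / 200 * (2 * ‖cr T v‖) :=
    mul_le_mul_of_nonneg_right hD (by positivity)
  have h11 : m ^ 2 * ‖cr T v‖ ≤ m * (42 / 5 * η) := by
    have : m * (m / 8 * ‖cr T v‖) ≤ m * (21 / 20 * η) := mul_le_mul_of_nonneg_left h7 hm.le
    linarith [this, show m * (m / 8 * ‖cr T v‖) = m ^ 2 * ‖cr T v‖ / 8 by ring]
  have h12 : m * (42 / 5 * η) ≤ 42 / 5 * η := by nlinarith
  have h13 : η / 2 ≤ |inner ℝ D T| := by linarith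
  -- conclusion
  have e1 : dt β' x0 x1 = ‖cr x0 β'‖ * inner ℝ D T := by
    have e2 : x1 = x0 - D := by rw [hDe]; abel
    rw [hT, inner_smul_right, ← mul_assoc, mul_inv_cancel₀ ht0.ne', one_mul, inner_cr, e2, dt_sub3,
      dt_self23, zero_sub]
    unfold dt
    ring
  rw [e1, abs_mul, abs_of_pos ht0]
  have h14 : m / 8 * (η / 2) ≤ ‖cr x0 β'‖ * |inner ℝ D T| :=
    mul_le_mul ht h13 (by positivity) ht0.le
  linarith

theorem f_low {m : ℝ} {a b c : Fin 2 → E3} {u : E3} (hl : Lin a b c) (hm : 0 < m)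
    (hm1 : m ≤ 1) (hfl : ‖a 0 - a 1‖ ≤ m ^ 2 / 200)
    {j k : Fin 2} (hj : m / 2 ≤ ‖cr (a 0) (b j)‖) (hk : m / 2 ≤ ‖cr (a 0) (c k)‖)
    (hu : Dir (b j) (c k) u) :
    (∀ j', m / 8 ≤ ‖cr (a 0) (b j')‖ →
      m / 16 * |inner ℝ (a 0 - a 1) u| ≤ |dt (b j') (a 0) (a 1)|) ∧
    (∀ k', m / 8 ≤ ‖cr (a 0) (c k')‖ →
      m / 16 * |inner ℝ (a 0 - a 1) u| ≤ |dt (c k') (a 0) (a 1)|) := by
  have hcomm : ∀ {x y : E3}, inner ℝ x y = (0 : ℝ) → inner ℝ y x = (0 : ℝ) := by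
    intro x y h
    rw [real_inner_comm]
    exact h
  obtain ⟨D, hD⟩ : ∃ D : E3, D = a 0 - a 1 := ⟨_, rfl⟩
  have hsl := hl.sa
  rw [← hD] at hfl ⊢
  obtain ⟨η, hη⟩ : ∃ η : ℝ, |inner ℝ D u| = η := ⟨_, rfl⟩
  rw [hη]
  have hη0 : 0 ≤ η := by rw [← hη]; exact abs_nonneg _
  have hai : |inner ℝ (a 0) u| ≤ η := by
    rw [← hη, hD]
    exact fo_0 (hsl j k) hu
  -- nearness of `u` and `v`, both orthogonal to a transversal unit vector `β`
  have near : ∀ {β v : E3}, ‖β‖ = 1 → ‖v‖ = 1 → inner ℝ u β = 0 → inner ℝ v β = 0 →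
      m / 2 ≤ ‖cr (a 0) β‖ → |inner ℝ (a 0) v| ≤ |inner ℝ D v| → m * ‖cr u v‖ ≤ 5 * η := by
    intro β v hβ hv huβ hvβ hcr h2
    have h3 := cr_norm_of_orth (a := a 0) hβ hu.1 hv huβ hvβ
    have h4 := fo_c D hu.1 hv
    have hP := norm_nonneg (cr u v)
    have h5 : ‖cr u v‖ * (m / 2) ≤ ‖cr u v‖ * ‖cr (a 0) β‖ := mul_le_mul_of_nonneg_left hcr hP
    have h6 : ‖D‖ * (2 * ‖cr u v‖) ≤ m ^ 2 / 200 * (2 * ‖cr u v‖) :=
      mul_le_mul_of_nonneg_right hfl (by positivity)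
    have h7 : m ^ 2 * ‖cr u v‖ ≤ m * ‖cr u v‖ := mul_le_mul_of_nonneg_right (by nlinarith) hP
    rw [hη] at h4
    linarith
  have hne : ∀ j' k', cr (b j') (c k') ≠ 0 := by
    intro j' k' h0
    have hs := hsl j' k'
    rw [← inner_cr, h0, inner_zero_right, zero_mul] at hs
    exact lt_irrefl _ hs
  have huu : m * ‖cr u u‖ ≤ 5 * η := by
    rw [cr_self, norm_zero, mul_zero]
    positivity
  constructor
  · intro j' ht
    by_cases hjj : j' = j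
    · rw [hjj] at ht ⊢
      exact fo_main hm hm1 hD hfl hη hu.1 hu.1 hu.2.1 (hl.ub j) (by rw [hη]; exact hai) huu ht
    · obtain ⟨v, hv⟩ := exists_dir (hne j' k)
      have h2 : |inner ℝ (a 0) v| ≤ |inner ℝ D v| := by
        rw [hD]
        exact fo_0 (hsl j' k) hv
      exact fo_main hm hm1 hD hfl hη hu.1 hv.1 hv.2.1 (hl.ub j') h2
        (near (hl.uc k) hv.1 (hcomm hu.2.2.1) (hcomm hv.2.2.1) hk h2) ht
  · intro k' ht
    by_cases hkk : k' = k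
    · rw [hkk] at ht ⊢
      exact fo_main hm hm1 hD hfl hη hu.1 hu.1 hu.2.2.1 (hl.uc k) (by rw [hη]; exact hai) huu ht
    · obtain ⟨v, hv⟩ := exists_dir (hne j k')
      have h2 : |inner ℝ (a 0) v| ≤ |inner ℝ D v| := by
        rw [hD]
        exact fo_0 (hsl j k') hv
      exact fo_main hm hm1 hD hfl hη hu.1 hv.1 hv.2.2.1 (hl.uc k') h2
        (near (hl.ub j) hv.1 (hcomm hu.2.1) (hcomm hv.2.1) hj h2) ht

end UF.FP
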