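import Pool.Agent.Work.MP_4c5ddc_co.FP.Sym
import Pool.Agent.Work.MP_4c5ddc_co.FP.CmpN
import Pool.Agent.Work.MP_4c5ddc_co.FP.CmpE
import Pool.Agent.Work.MP_4c5ddc_co.FP.FEta
import Pool.Agent.Work.MP_4c5ddc_co.FP.FLow

/-!
# FP/FCase (M-L): the local lemma if one body is flat

PROOF. `exists_rg` gives `gb, gc`. As `m ≤ ‖cr (b 0) (b 1)‖ ≤ ‖cr (a 0) (b 0)‖ + ‖cr (a 0) (b 1)‖` (`cr_tri`) there is `j` with
`‖cr (a 0) (b j)‖ ≥ m / 2`, and `k` with `‖cr (a 0) (c k)‖ ≥ m / 2`. `u` = direction of `cr (b j) (c k)` (nonzero by `Lin.sa`),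
`η = |(a 0 - a 1) · u|`, `w = ‖cr gb gc‖ ≤ 30 η / m ^ 2` (`f_eta`, `cr_tri`).
1. `w ≤ η / 16`: `|a 0 · gb| + |a 1 · gb| ≥ η / 2`, so some `i` has `|a i · gb| ≥ η / 4`. With a sign `e`, `‖gb - e • gc‖ ≤ 2 w`, so
`|a i · gc| ≥ η / 4 - 2 w ≥ η / 8 ≥ w`. So `Nn 1 (a i) gb gc`, `cmp_of_N`.
2. `w > η / 16`. (i) Suppose that some `j'` has `‖cr (a 0) (b j')‖ ≥ m / 8` and `|b j' · gc| ≥ (m / 2) w`. Then `Cmp` for `f = b j'`, `y = a`, `z = c` with the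
scalings `1`: `|dt (b j') (a i) (c k')| = |dt (a i) (b j') (c k')| ≤ 61 η / m ^ 2`; `|dt (b j') (a 0) (a 1)| ≥ (m / 16) η` (`f_low`);
`|dt (b j') (c 0) (c 1)| = ‖cr (c 0) (c 1)‖ |b j' · gc| ≥ (m ^ 2 / 2) w ≥ (m ^ 2 / 32) η` (`abs_dt_eq`). So the constant
`(61 / m ^ 2) ^ 2 * (16 / m) * (32 / m ^ 2)` works. The same with `b, c` exchanged: some `k'` with `‖cr (a 0) (c k')‖ ≥ m / 8`,
`|c k' · gb| ≥ (m / 2) w`: `Frm K (c k') a b`.
(ii) Otherwise: for every `j'`: `‖cr (a 0) (b j')‖ < m / 8` or `|b j' · gc| < (m / 2) w`. Not both `j'` have the first property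
(`m ≤` sum), not both the second one (`norm_cr_mul`: `m w ≤ |b 0 · gc| + |b 1 · gc|`). So `b j` (transversal) has `|b j · gc| < (m / 2) w` and
`b (1 - j)` has `‖cr (a 0) (b (1 - j))‖ < m / 8`. The same for `c`: `‖cr (a 0) (c (1 - k))‖ < m / 8`. By `cr_tri` one of
`‖cr u gc‖, ‖cr u gb‖` is at least `w / 3`.
Case `‖cr u gc‖ ≥ w / 3`: `cmp_of_E` with `f = b j`, `X = u`, `y = (c k, c (1 - k))` (that is `c` or `flp c`), `z = a`:
`|u · a i| ≤ η ≤ 16 w`; `|dt (b j) (c (1 - k)) (a i)| ≤ 61 η / m ^ 2 ≤ 976 w / m ^ 2`;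
`‖cr (b j) (c (1 - k))‖ ≥ ‖cr (a 0) (b j)‖ - ‖cr (a 0) (c (1 - k))‖ ≥ m / 2 - m / 8 ≥ m / 4` (`cr_tri`); `|u · c (1 - k)| ≥ m ‖cr u gc‖ ≥ m w / 3`
(`norm_cr_mul`, `c k · u = 0`); `|dt (b j) (a 0) (a 1)| ≥ (m / 16) η ≥ (m / 16) (m ^ 2 / 30) w`. So `Frm K (b j) y a`, hence
`Frm K (b j) a c` (`Frm.symm`, `Frm.flip`).
Case `‖cr u gb‖ ≥ w / 3`: the same with `b` and `c` exchanged, `f = c k`, `cr (c k) (b j) = - cr (b j) (c k)` (`e = -1`).
-/

set_option autoImplicit false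

namespace UF.FP

private theorem fs_c (D : E3) {u v : E3} (hu : ‖u‖ = 1) (hv : ‖v‖ = 1) :
    |inner ℝ D v| ≤ |inner ℝ D u| + ‖D‖ * (2 * ‖cr u v‖) := by
  obtain ⟨e, he, h⟩ := exists_sign hv hu
  rw [norm_cr_comm u v] at h
  have h1 : inner ℝ D v = e * inner ℝ D u + inner ℝ D (v - e • u) := by
    rw [inner_sub_right, inner_smul_right]
    ring
  have h2 : |inner ℝ D (v - e • u)| ≤ ‖D‖ * ‖v - e • u‖ := abs_real_inner_le_norm _ _
  have h3 : |e * inner ℝ D u| = |inner ℝ D u| := by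
    rw [abs_mul]
    rcases he with he | he
    · rw [he, abs_one, one_mul]
    · rw [he, abs_neg, abs_one, one_mul]
  have h4 : ‖D‖ * ‖v - e • u‖ ≤ ‖D‖ * (2 * ‖cr u v‖) :=
    mul_le_mul_of_nonneg_left h (norm_nonneg _)
  rw [h1]
  refine (abs_add_le _ _).trans ?_
  rw [h3]
  linarith

private theorem fs_two (j : Fin 2) (P : Fin 2 → Prop) (h1 : P j) (h2 : P (1 - j)) :
    P 0 ∧ P 1 := by
  rcases (show j = 0 ∨ j = 1 by omega) with hj | hj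
  · rw [hj] at h1 h2
    exact ⟨h1, h2⟩
  · rw [hj] at h1 h2
    exact ⟨h2, h1⟩

private theorem fs_1 {m η w : ℝ} {a c : Fin 2 → E3} {f gc : E3} (hm : 0 < m) (hη : 0 ≤ η)
    (hw : η / 16 ≤ w) (hc : Rg m c gc) (h1 : ∀ i k, |dt (a i) f (c k)| ≤ 61 / m ^ 2 * η)
    (h2 : m / 16 * η ≤ |dt f (a 0) (a 1)|) (h3 : m / 2 * w ≤ |inner ℝ f gc|) :
    Frm ((61 / m ^ 2) ^ 2 * (16 / m) * (32 / m ^ 2)) f a c := by
  refine ⟨false, false, fun i k => ?_⟩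
  have hs : ∀ (y : Fin 2 → E3) (j : Fin 2), sc false f y j = 1 := by
    intro y j
    unfold sc
    rw [if_neg (by decide)]
  simp only [hs, one_mul]
  have h4 : |dt f (a i) (c k)| ≤ 61 / m ^ 2 * η := by
    rw [dt_swap12 (a i) f (c k), abs_neg]
    exact h1 i k
  have h5 : m ^ 2 / 32 * η ≤ |dt f (c 0) (c 1)| := by
    rw [abs_dt_eq hc.ug (hc.o 0) (hc.o 1)]
    have h6 : m * (m / 2 * w) ≤ ‖cr (c 0) (c 1)‖ * |inner ℝ f gc| :=
      mul_le_mul hc.low h3 (by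
        have : 0 ≤ w := by linarith
        positivity) (norm_nonneg _)
    have h7 : m ^ 2 / 2 * (η / 16) ≤ m ^ 2 / 2 * w := mul_le_mul_of_nonneg_left hw (by positivity)
    nlinarith
  have h6 : (dt f (a i) (c k)) ^ 2 ≤ (61 / m ^ 2 * η) ^ 2 := by
    rw [← sq_abs]
    exact pow_le_pow_left₀ (abs_nonneg _) h4 2
  have h7 : m / 16 * η * (m ^ 2 / 32 * η) ≤ |dt f (a 0) (a 1)| * |dt f (c 0) (c 1)| :=
    mul_le_mul h2 h5 (by positivity) (abs_nonneg _)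
  have h8 : (61 / m ^ 2 * η) ^ 2 = (61 / m ^ 2) ^ 2 * (16 / m) * (32 / m ^ 2) *
      (m / 16 * η * (m ^ 2 / 32 * η)) := by
    field_simp
  rw [h8] at h6
  exact h6.trans (mul_le_mul_of_nonneg_left h7 (by positivity))

private theorem fs_2 {m η w : ℝ} {a c : Fin 2 → E3} {f u gc : E3} {k : Fin 2} (hm : 0 < m)
    (hm1 : m ≤ 1) (hη : 0 ≤ η) (hw : η / 16 ≤ w) (hw2 : w ≤ 30 / m ^ 2 * η) (hf : ‖f‖ = 1)
    (ha : ‖a 0‖ = 1) (hc : Rg m c gc) (e : ℝ) (he : e = 1 ∨ e = -1)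
    (hX : cr f (c k) = (e * ‖cr f (c k)‖) • u) (h0 : cr f (c k) ≠ 0)
    (hku : inner ℝ (c k) u = 0) (hau : ∀ i, |inner ℝ (a i) u| ≤ η)
    (h1 : ∀ i k, |dt (a i) f (c k)| ≤ 61 / m ^ 2 * η)
    (h2 : m / 16 * η ≤ |dt f (a 0) (a 1)|)
    (h3 : m / 2 ≤ ‖cr (a 0) f‖) (h4 : ‖cr (a 0) (c (1 - k))‖ ≤ m / 8)
    (h5 : w / 3 ≤ ‖cr u gc‖) :
    Frm ((976 / m ^ 2) ^ 2 / ((m / 4) ^ 2 * (m / 3) * (m ^ 3 / 480))) f a c := by
  have hw0 : 0 ≤ w := by linarith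
  have hm2 : 0 < m ^ 2 := by positivity
  have g0 : 61 / m ^ 2 * η ≤ 976 / m ^ 2 * w := by
    have e1 : 976 / m ^ 2 * w = 61 / m ^ 2 * (16 * w) := by ring
    rw [e1]
    exact mul_le_mul_of_nonneg_left (by linarith) (by positivity)
  have g1 : η ≤ 976 / m ^ 2 * w := by
    refine le_trans ?_ g0
    have e1 : (1 : ℝ) ≤ 61 / m ^ 2 := by
      rw [le_div_iff₀ hm2]
      nlinarith
    nlinarith
  have gen : ∀ y : Fin 2 → E3, y 0 = c k → y 1 = c (1 - k) →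
      Frm ((976 / m ^ 2) ^ 2 / ((m / 4) ^ 2 * (m / 3) * (m ^ 3 / 480))) f y a := by
    intro y y0 y1
    refine cmp_of_E (w := w) (X := u) hw0 (by positivity) (by positivity) (by linarith)
      (by positivity) (by positivity) hf ?_ e he ?_ ?_ ?_ ?_ ?_ ?_ ?_
    · intro i
      rcases (show i = 0 ∨ i = 1 by omega) with hi | hi
      · rw [hi, y0]
        exact hc.u k
      · rw [hi, y1]
        exact hc.u (1 - k)
    · rw [y0]
      exact hX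
    · rw [y0]
      exact h0
    · intro i
      rw [real_inner_comm]
      exact (hau i).trans g1
    · intro i
      rw [y1, dt_rot (a i) f (c (1 - k))]
      exact (h1 i (1 - k)).trans g0
    · rw [y1]
      have h6 := cr_tri ha hf (hc.u (1 - k))
      rw [norm_cr_comm f (c (1 - k))] at h6
      linarith
    · rw [y1, real_inner_comm]
      have h6 := norm_cr_mul (hc.u 0) (hc.u 1) hc.ug (hc.o 0) (hc.o 1) u
      have h7 : |inner ℝ (c 0) u| + |inner ℝ (c 1) u| = |inner ℝ (c (1 - k)) u| := by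
        rcases (show k = 0 ∨ k = 1 by omega) with hi | hi
        · rw [hi] at hku ⊢
          have h8 : |inner ℝ (c (1 - 0)) u| = |inner ℝ (c 1) u| := rfl
          rw [h8, hku, abs_zero, zero_add]
        · rw [hi] at hku ⊢
          have h8 : |inner ℝ (c (1 - 1)) u| = |inner ℝ (c 0) u| := rfl
          rw [h8, hku, abs_zero, add_zero]
      rw [h7] at h6
      have h8 : m * (w / 3) ≤ ‖cr (c 0) (c 1)‖ * ‖cr u gc‖ :=
        mul_le_mul hc.low h5 (by positivity) (norm_nonneg _)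
      linarith
    · have h6 : m ^ 3 / 480 * w ≤ m ^ 3 / 480 * (30 / m ^ 2 * η) :=
        mul_le_mul_of_nonneg_left hw2 (by positivity)
      have h7 : m ^ 3 / 480 * (30 / m ^ 2 * η) = m / 16 * η := by
        field_simp
        ring
      linarith
  rcases (show k = 0 ∨ k = 1 by omega) with hi | hi
  · exact (gen c (by rw [hi]) (by rw [hi]; rfl)).symm
  · exact (Frm.flip (gen (flp c) (by rw [hi]; rfl) (by rw [hi]; rfl))).symm

theorem f_case {m : ℝ} (hm : 0 < m) (hm1 : m ≤ 1) : ∃ K : ℝ, ∀ (a b c : Fin 2 → E3),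
    Lin a b c → ‖a 0 - a 1‖ ≤ m ^ 2 / 200 → m ≤ ‖cr (b 0) (b 1)‖ → m ≤ ‖cr (c 0) (c 1)‖ →
    Fr K a b c := by
  obtain ⟨K0, hK0⟩ : ∃ K0 : ℝ, K0 = (1 + 1 / 1) ^ 2 / m ^ 2 := ⟨_, rfl⟩
  obtain ⟨K1, hK1⟩ : ∃ K1 : ℝ, K1 = (61 / m ^ 2) ^ 2 * (16 / m) * (32 / m ^ 2) := ⟨_, rfl⟩
  obtain ⟨K2, hK2⟩ : ∃ K2 : ℝ,
      K2 = (976 / m ^ 2) ^ 2 / ((m / 4) ^ 2 * (m / 3) * (m ^ 3 / 480)) := ⟨_, rfl⟩
  have p0 : 0 ≤ K0 := by rw [hK0]; positivity
  have p1 : 0 ≤ K1 := by rw [hK1]; positivity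
  have p2 : 0 ≤ K2 := by rw [hK2]; positivity
  refine ⟨K0 + K1 + K2, ?_⟩
  intro a b c hl hfl hbm hcm
  obtain ⟨gb, hb⟩ := exists_rg hl.ub hm hbm
  obtain ⟨gc, hc⟩ := exists_rg hl.uc hm hcm
  have tr : ∀ {y : Fin 2 → E3}, (∀ i, ‖y i‖ = 1) → m ≤ ‖cr (y 0) (y 1)‖ →
      ∃ j, m / 2 ≤ ‖cr (a 0) (y j)‖ := by
    intro y hy h
    have h1 := cr_tri (hy 0) (hy 1) (hl.ua 0)
    rw [norm_cr_comm (a 0) (y 0)] at h1
    by_cases h2 : m / 2 ≤ ‖cr (a 0) (y 0)‖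
    · exact ⟨0, h2⟩
    · push Not at h2
      exact ⟨1, by linarith⟩
  obtain ⟨j, hj⟩ := tr hl.ub hbm
  obtain ⟨k, hk⟩ := tr hl.uc hcm
  have hne : cr (b j) (c k) ≠ 0 := by
    intro h
    have hs := hl.sa j k
    rw [← inner_cr, h, inner_zero_right, zero_mul] at hs
    exact lt_irrefl _ hs
  obtain ⟨u, hu⟩ := exists_dir hne
  obtain ⟨e0, e1, e2, e3, e4, e5, e6⟩ := f_eta hl hm hm1 hfl hb hc hj hk hu
  obtain ⟨l1, l2⟩ := f_low hl hm hm1 hfl hj hk hu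
  obtain ⟨η, hη⟩ : ∃ η : ℝ, |inner ℝ (a 0 - a 1) u| = η := ⟨_, rfl⟩
  rw [hη] at e0 e1 e2 e3 e4 e5 e6 l1 l2
  obtain ⟨w, hw⟩ : ∃ w : ℝ, ‖cr gb gc‖ = w := ⟨_, rfl⟩
  have htri := cr_tri hb.ug hc.ug hu.1
  rw [hw, norm_cr_comm gc u] at htri
  have hw2 : w ≤ 30 / m ^ 2 * η := by
    have h1 : 30 / m ^ 2 * η = 15 / m ^ 2 * η + 15 / m ^ 2 * η := by ring
    rw [h1]
    linarith
  by_cases hcase : w ≤ η / 16
  · left
    have h1 : ∃ i, η / 4 ≤ |inner ℝ (a i) gb| := by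
      by_contra hcon
      push Not at hcon
      have h2 := hcon 0
      have h3 := hcon 1
      have h4 : |inner ℝ (a 0 - a 1) gb| ≤ |inner ℝ (a 0) gb| + |inner ℝ (a 1) gb| := by
        rw [inner_sub_left]
        exact abs_sub _ _
      linarith
    obtain ⟨i, hi⟩ := h1
    have h2 := fs_c (a i) hc.ug hb.ug
    rw [hl.ua i, one_mul, norm_cr_comm gb gc, hw] at h2
    have h3 : Nn 1 (a i) gb gc := by
      constructor
      · rw [hw, one_mul]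
        linarith
      · rw [hw, one_mul]
        linarith
    have h4 := cmp_of_N hm one_pos (hl.ua i) hb hc h3
    rw [← hK0] at h4
    exact ⟨i, h4.mono (by linarith)⟩
  · push Not at hcase
    have hw1 : η / 16 ≤ w := hcase.le
    have hwp : 0 < w := by linarith
    have e6' : ∀ i k' j', |dt (a i) (c k') (b j')| ≤ 61 / m ^ 2 * η := by
      intro i k' j'
      rw [dt_swap23 (a i) (b j') (c k'), abs_neg]
      exact e6 i j' k'
    by_cases i1 : ∃ j', m / 8 ≤ ‖cr (a 0) (b j')‖ ∧ m / 2 * w ≤ |inner ℝ (b j') gc|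
    · obtain ⟨j', hj1, hj2⟩ := i1
      right
      left
      have h4 := fs_1 (a := a) hm e0.le hw1 hc (fun i k => e6 i j' k) (l1 j' hj1) hj2
      rw [← hK1] at h4
      exact ⟨j', h4.mono (by linarith)⟩
    by_cases i2 : ∃ k', m / 8 ≤ ‖cr (a 0) (c k')‖ ∧ m / 2 * w ≤ |inner ℝ (c k') gb|
    · obtain ⟨k', hk1, hk2⟩ := i2
      right
      right
      have h4 := fs_1 (a := a) hm e0.le hw1 hb (fun i j => e6' i k' j) (l2 k' hk1) hk2
      rw [← hK1] at h4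
      exact ⟨k', h4.mono (by linarith)⟩
    push Not at i1 i2
    have b1 : ‖cr (a 0) (b (1 - j))‖ ≤ m / 8 := by
      by_contra hcon
      push Not at hcon
      obtain ⟨h1, h2⟩ := fs_two j (fun x => |inner ℝ (b x) gc| < m / 2 * w)
        (i1 j (by linarith)) (i1 (1 - j) hcon.le)
      have h3 := norm_cr_mul (hb.u 0) (hb.u 1) hb.ug (hb.o 0) (hb.o 1) gc
      rw [norm_cr_comm gb gc, hw] at h3
      have h4 : m * w ≤ ‖cr (b 0) (b 1)‖ * w := mul_le_mul_of_nonneg_right hb.low hwp.le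
      linarith
    have c1 : ‖cr (a 0) (c (1 - k))‖ ≤ m / 8 := by
      by_contra hcon
      push Not at hcon
      obtain ⟨h1, h2⟩ := fs_two k (fun x => |inner ℝ (c x) gb| < m / 2 * w)
        (i2 k (by linarith)) (i2 (1 - k) hcon.le)
      have h3 := norm_cr_mul (hc.u 0) (hc.u 1) hc.ug (hc.o 0) (hc.o 1) gb
      rw [hw] at h3
      have h4 : m * w ≤ ‖cr (c 0) (c 1)‖ * w := mul_le_mul_of_nonneg_right hc.low hwp.le
      linarith
    by_cases hA : w / 3 ≤ ‖cr u gc‖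
    · right
      left
      have h4 := fs_2 (a := a) (c := c) (f := b j) (k := k) hm hm1 e0.le hw1 hw2 (hl.ub j)
        (hl.ua 0) hc 1 (Or.inl rfl) (by rw [one_mul]; exact hu.2.2.2.2) hne hu.2.2.1 e1
        (fun i k => e6 i j k) (l1 j (by linarith)) hj c1 hA
      rw [← hK2] at h4
      exact ⟨j, h4.mono (by linarith)⟩
    · push Not at hA
      right
      right
      have hB : w / 3 ≤ ‖cr u gb‖ := by
        rw [norm_cr_comm gb u]
        rw [norm_cr_comm gc u] at hA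
        linarith
      have hX : cr (c k) (b j) = (-1 * ‖cr (c k) (b j)‖) • u := by
        rw [norm_cr_comm (b j) (c k), cr_anti (b j) (c k)]
        conv_lhs => rw [hu.2.2.2.2]
        rw [neg_one_mul, neg_smul]
      have hne' : cr (c k) (b j) ≠ 0 := by
        rw [cr_anti (b j) (c k)]
        exact neg_ne_zero.2 hne
      have h4 := fs_2 (a := a) (c := b) (f := c k) (k := j) hm hm1 e0.le hw1 hw2 (hl.uc k)
        (hl.ua 0) hb (-1) (Or.inr rfl) hX hne' hu.2.1 e1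
        (fun i j => e6' i k j) (l2 k (by linarith)) hk b1 hB
      rw [← hK2] at h4
      exact ⟨k, h4.mono (by linarith)⟩

end UF.FP
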