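import Pool.Agent.Work.MP_4c5ddc_co.FP.RLow
import Pool.Agent.Work.MP_4c5ddc_co.FP.CmpE

/-!
# FP/RE (M): aligned position, the middle range

PROOF. Apply `cmp_of_E` with `f = a 0`, `y = flp b` (so `y 0 = b 1`, `y 1 = b 0`), `z = c`, and then
`Frm.flip`-like: if `FP/Sym` is not yet proved, state the result for `flp b` as here. Constants:
`C₁ = 2 + 1 / c₂`, `c₃ = m / 2`, `c₄ = m * c₂`, `c₅ = m ^ 3 / 8`.
`hX`: from `Dir` with `e = 1`. `|X · c k| ≤ ‖cr X gc‖ ≤ ‖cr X gb‖ + ‖cr gb gc‖ ≤ w / c₂ + w` (`abs_inner_le_cr`,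
`cr_tri`). `|dt (a 0) (b 0) (c k)| ≤ |a 0 · gb| + ‖cr gb gc‖ ≤ κ w + w` (`abs_dt_le_add`).
`‖cr (a 0) (b 0)‖ ≥ ‖cr (b 1) (b 0)‖ - ‖cr (a 0) (b 1)‖ ≥ m - 8 κ / m ≥ m / 2` (`cr_tri`, `aln_cr`,
`κ ≤ m ^ 2 / 16`). `|X · b 0| ≥ m * ‖cr X gb‖ ≥ m c₂ w` by `norm_cr_mul` for `b`, `v = X`, as `b 1 · X = 0`.
`|dt (a 0) (c 0) (c 1)| = ‖cr (c 0) (c 1)‖ * |a 0 · gc| ≥ m * (m ^ 2 / 8) w` (`abs_dt_eq`, `aln_low`).
-/

set_option autoImplicit false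

namespace UF.FP

theorem r_E {m c₂ : ℝ} (hm : 0 < m) (hm1 : m ≤ 1) (hc : 0 < c₂) : ∃ K : ℝ, ∀ (κ w : ℝ)
    (a b c : Fin 2 → E3) (ga gb gc X : E3), Aln m κ w a b c ga gb gc → 0 ≤ κ → κ ≤ m ^ 2 / 16 →
    Dir (a 0) (b 1) X → c₂ * w ≤ ‖cr X gb‖ → ‖cr X gb‖ ≤ w / c₂ → Frm K (a 0) (flp b) c := by
  refine ⟨(2 + 1 / c₂) ^ 2 / ((m / 2) ^ 2 * (m * c₂) * (m ^ 3 / 8)), ?_⟩
  intro κ w a b c ga gb gc X h hκ0 hκ hX hl hu
  have hw := h.wpos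
  have hm2 : m ^ 2 ≤ 1 := pow_le_one₀ hm.le hm1
  have hκ1 : κ ≤ 1 := by linarith
  have hκ2 : κ ≤ m ^ 2 / 8 := by linarith [sq_nonneg m]
  obtain ⟨x1, x2, x3, x4, x5⟩ := hX
  have f0 : flp b 0 = b 1 := rfl
  have f1 : flp b 1 = b 0 := rfl
  have hCw : (2 + 1 / c₂) * w = w + w + w / c₂ := by ring
  have hwc : 0 < w / c₂ := by positivity
  refine cmp_of_E (w := w) hw.le (by positivity) (by positivity) (by linarith) (by positivity)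
    (by positivity) (X := X) (h.rga.u 0) ?_ 1 (Or.inl rfl) ?_ ?_ ?_ ?_ ?_ ?_ ?_
  · intro j
    exact h.rgb.u (1 - j)
  · rw [f0, one_mul]
    exact x5
  · rw [f0]
    exact x4
  · intro k
    have h1 := abs_inner_le_cr (v := X) (h.rgc.u k) h.rgc.ug (h.rgc.o k)
    have h2 := cr_tri x1 h.rgc.ug h.rgb.ug
    have h3 := h.bc.2
    rw [real_inner_comm]
    linarith
  · intro k
    rw [f1]
    have h1 := abs_dt_le_add (h.rga.u 0) (h.rgb.u 0) (h.rgc.u k) h.rgb.ug h.rgc.ug (h.rgb.o 0)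
      (h.rgc.o k)
    have h2 := h.a0
    have h3 := h.bc.2
    have h4 : κ * w ≤ 1 * w := mul_le_mul_of_nonneg_right hκ1 hw.le
    linarith
  · rw [f1]
    have h1 := cr_tri (h.rgb.u 1) (h.rgb.u 0) (h.rga.u 0)
    have h2 := aln_cr h hm hκ0
    have h3 := h.rgb.low
    rw [norm_cr_comm (b 0) (b 1), norm_cr_comm (a 0) (b 1)] at h1
    have h4 : 8 * κ / m ≤ m / 2 := by
      rw [div_le_iff₀ hm]
      linarith [sq_nonneg m]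
    linarith
  · rw [f1]
    have h1 := norm_cr_mul (h.rgb.u 0) (h.rgb.u 1) h.rgb.ug (h.rgb.o 0) (h.rgb.o 1) X
    rw [x3, abs_zero, add_zero] at h1
    rw [real_inner_comm]
    refine le_trans ?_ h1
    rw [mul_assoc]
    exact mul_le_mul h.rgb.low hl (by positivity) (norm_nonneg _)
  · have h1 := abs_dt_eq h.rgc.ug (h.rgc.o 0) (h.rgc.o 1) (a 0)
    rw [h1]
    have h2 := (aln_low h hm hκ2).1
    have h3 : m ^ 3 / 8 * w = m * (m ^ 2 / 8 * w) := by ring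
    rw [h3]
    exact mul_le_mul h.rgc.low h2 (by positivity) (norm_nonneg _)

end UF.FP
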