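import Pool.Agent.Work.MP_4c5ddc_co.FP.RLow

/-!
# FP/RExt (M-L): the extents argument (one sign differs)

PROOF. For a vector `v` put `A(v) = dt v gb gc`, `B(v) = dt ga v gc`, `Γ(v) = dt ga gb v`,
`D = dt ga gb gc ≠ 0` (`aln_det`); by `cramer` `D • v = A(v) • ga + B(v) • gb + Γ(v) • gc`, so e.g.
`D * (b 0 · v) = A(v) (b 0 · ga) + Γ(v) (b 0 · gc)` (as `b 0 · gb = 0`),
`D * (c 1 · v) = A(v) (c 1 · ga) + B(v) (c 1 · gb)`, `D * (a 1 · v) = B(v) (a 1 · gb) + Γ(v) (a 1 · gc)`,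
`D * (c 0 · v) = A(v) (c 0 · ga) + B(v) (c 0 · gb)`. Let `M` be the maximum of `|A(v)|, |B(v)|, |Γ(v)|` over all
differences `v` of two vertices `p i j k`. `λ = (m ^ 2 / 8) w`; by `aln_low` (rotated) the six numbers
`a 0 · gc, a 1 · gb, b 0 · ga, b 1 · gc, c 0 · gb, c 1 · ga` have absolute value `≥ λ`; put
`δ = κ w / λ = 8 κ / m ^ 2 ≤ 1 / 25`.
1. `|A(v)| ≤ 2 δ M` for all differences of vertices. Let `x₀ = p 0 0 1` (tight: `a 0, b 0, c 1`) and `x` any vertex,
`v = x - x₀`. `b 0 · v ≤ 0` and `c 1 · v ≤ 0` (`x₀` is tight there, `x` satisfies the inequalities). The numbers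
`b 0 · ga` and `c 1 · ga` have opposite signs: `c 1 · ga` has the sign of `c 0 · gb` (`hC`), and `hBC`.
Multiply the two inequalities by the sign of `D`: with `s` the sign of `D * (b 0 · ga)`: `s A(v) λ ≤ |Γ(v)| κ w` and
`- s A(v) λ ≤ |B(v)| κ w`. So `|A(v)| ≤ δ M`; for two vertices `2 δ M`.
2. `|B(v)| ≤ 2 δ M`: the same with `x₀ = p 1 0 0` (tight `a 1, c 0`), the functionals `a 1` (`B(v) (a 1 · gb) + Γ(v) (a 1 · gc)`)
and `c 0` (`A(v) (c 0 · ga) + B(v) (c 0 · gb)`); `a 1 · gb` has the sign of `a 0 · gc` (`hA`), opposite to that of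
`c 0 · gb` (`hAC`).
3. If `a 0 · v = 0` then `B(v) (a 0 · gb) + Γ(v) (a 0 · gc) = 0`, so `|Γ(v)| ≤ δ |B(v)|`. If `b 1 · v = 0` then
`A(v) (b 1 · ga) + Γ(v) (b 1 · gc) = 0`, so `|Γ(v)| ≤ δ |A(v)|`.
4. Let `q = p 0 1 0` (tight `a 0, b 1, c 0`). For every vertex `x`: `|Γ(x - q)| ≤ 5 δ M`: if `x` has `a 0` tight or `b 1` tight by 3.;
otherwise `x = p 1 0 k`: for `k = 1` go to `p 0 0 1` (the difference is orthogonal to `b 0`, `c 1`, so `|Γ| ≤ 2 |B| ≤ 4 δ M`
by `hbc`), for `k = 0` go to `p 1 1 0` (the difference is orthogonal to `c 0`, `a 1`, so `|Γ| ≤ 2 |A| ≤ 4 δ M` by `hca`).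
So for two vertices `|Γ(v)| ≤ 10 δ M ≤ (2 / 5) M`; with 1., 2.: `M ≤ (2 / 5) M`, so `M = 0`, and then all
vertices are equal (`D • v = 0`), against `la` (`p 0 0 0` and `p 1 0 0`).
-/

set_option autoImplicit false

namespace UF.FP

private theorem re_one {m κ w : ℝ} {x y g v : E3} (hm : 0 < m) (hx : ‖x‖ = 1) (hy : ‖y‖ = 1)
    (hg : ‖g‖ = 1) (hxg : inner ℝ x g = 0) (hyg : inner ℝ y g = 0) (hlow : m ≤ ‖cr x y‖)
    (hv : m / 4 * w ≤ ‖cr v g‖) (hyv : |inner ℝ y v| ≤ κ * w) :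
    m * (m / 4 * w) ≤ |inner ℝ x v| + κ * w := by
  have h1 := norm_cr_mul hx hy hg hxg hyg v
  have h2 : m * (m / 4 * w) ≤ ‖cr x y‖ * ‖cr v g‖ :=
    (mul_le_mul_of_nonneg_left hv hm.le).trans
      (mul_le_mul_of_nonneg_right hlow (norm_nonneg _))
  linarith

/-- the six lower bounds. -/
private theorem re_low {m κ w : ℝ} {a b c : Fin 2 → E3} {ga gb gc : E3}
    (h : Aln m κ w a b c ga gb gc) (hm : 0 < m) :
    (m * (m / 4 * w) ≤ |inner ℝ (a 0) gc| + κ * w ∧ m * (m / 4 * w) ≤ |inner ℝ (a 1) gb| + κ * w) ∧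
    (m * (m / 4 * w) ≤ |inner ℝ (b 0) ga| + κ * w ∧ m * (m / 4 * w) ≤ |inner ℝ (b 1) gc| + κ * w) ∧
    (m * (m / 4 * w) ≤ |inner ℝ (c 0) gb| + κ * w ∧
      m * (m / 4 * w) ≤ |inner ℝ (c 1) ga| + κ * w) := by
  have hab' : m / 4 * w ≤ ‖cr gb ga‖ := by rw [norm_cr_comm]; exact h.ab.1
  have hbc' : m / 4 * w ≤ ‖cr gc gb‖ := by rw [norm_cr_comm]; exact h.bc.1
  have hca' : m / 4 * w ≤ ‖cr ga gc‖ := by rw [norm_cr_comm]; exact h.ca.1
  have la' : m ≤ ‖cr (a 1) (a 0)‖ := by rw [norm_cr_comm]; exact h.rga.low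
  have lb' : m ≤ ‖cr (b 1) (b 0)‖ := by rw [norm_cr_comm]; exact h.rgb.low
  have lc' : m ≤ ‖cr (c 1) (c 0)‖ := by rw [norm_cr_comm]; exact h.rgc.low
  refine ⟨⟨?_, ?_⟩, ⟨?_, ?_⟩, ?_, ?_⟩
  · exact re_one hm (h.rga.u 0) (h.rga.u 1) h.rga.ug (h.rga.o 0) (h.rga.o 1) h.rga.low h.ca.1 h.a1
  · exact re_one hm (h.rga.u 1) (h.rga.u 0) h.rga.ug (h.rga.o 1) (h.rga.o 0) la' hab' h.a0
  · exact re_one hm (h.rgb.u 0) (h.rgb.u 1) h.rgb.ug (h.rgb.o 0) (h.rgb.o 1) h.rgb.low h.ab.1 h.b1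
  · exact re_one hm (h.rgb.u 1) (h.rgb.u 0) h.rgb.ug (h.rgb.o 1) (h.rgb.o 0) lb' hbc' h.b0
  · exact re_one hm (h.rgc.u 0) (h.rgc.u 1) h.rgc.ug (h.rgc.o 0) (h.rgc.o 1) h.rgc.low h.bc.1 h.c1
  · exact re_one hm (h.rgc.u 1) (h.rgc.u 0) h.rgc.ug (h.rgc.o 1) (h.rgc.o 0) lc' hca' h.c0

private theorem re_abs {D α P Q s t e f l E : ℝ} (hD : D ≠ 0) (hPQ : P * Q < 0)
    (h1 : D * s = α * P + e) (h2 : D * t = α * Q + f) (hs : s ≤ 0) (ht : t ≤ 0) (he : |e| ≤ E)
    (hf : |f| ≤ E) (hP : l ≤ |P|) (hQ : l ≤ |Q|) : |α| * l ≤ E := by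
  rw [abs_le] at he hf
  have key : ∀ T : ℝ, l ≤ |T| → |α * T| ≤ E → |α| * l ≤ E := by
    intro T hT hT2
    rw [abs_mul] at hT2
    exact (mul_le_mul_of_nonneg_left hT (abs_nonneg _)).trans hT2
  -- the two products have opposite signs or are small
  rcases lt_or_gt_of_ne hD with hD | hD
  · have e1 : 0 ≤ D * s := mul_nonneg_of_nonpos_of_nonpos hD.le hs
    have e2 : 0 ≤ D * t := mul_nonneg_of_nonpos_of_nonpos hD.le ht
    by_cases h3 : α * P ≤ 0
    · refine key P hP ?_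
      rw [abs_le]
      constructor <;> linarith
    · refine key Q hQ ?_
      push Not at h3
      have h4 : α * Q ≤ 0 := by
        by_contra hcon
        push Not at hcon
        have h5 := mul_pos h3 hcon
        have h6 : α * P * (α * Q) = α * α * (P * Q) := by ring
        rw [h6] at h5
        linarith [mul_nonpos_of_nonneg_of_nonpos (mul_self_nonneg α) hPQ.le]
      rw [abs_le]
      constructor <;> linarith
  · have e1 : D * s ≤ 0 := mul_nonpos_of_nonneg_of_nonpos hD.le hs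
    have e2 : D * t ≤ 0 := mul_nonpos_of_nonneg_of_nonpos hD.le ht
    by_cases h3 : 0 ≤ α * P
    · refine key P hP ?_
      rw [abs_le]
      constructor <;> linarith
    · refine key Q hQ ?_
      push Not at h3
      have h4 : 0 ≤ α * Q := by
        by_contra hcon
        push Not at hcon
        have h5 := mul_pos_of_neg_of_neg h3 hcon
        have h6 : α * P * (α * Q) = α * α * (P * Q) := by ring
        rw [h6] at h5
        linarith [mul_nonpos_of_nonneg_of_nonpos (mul_self_nonneg α) hPQ.le]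
      rw [abs_le]
      constructor <;> linarith

private theorem re_zero {α γ P Q k l M : ℝ} (h : α * P + γ * Q = 0) (hP : |P| ≤ k)
    (hQ : l ≤ |Q|) (hα : |α| ≤ M) (hk : k ≤ l / 25) (hl : 0 < l) : |γ| ≤ M / 25 := by
  have h1 : |γ| * l ≤ M * (l / 25) := by
    calc |γ| * l ≤ |γ| * |Q| := mul_le_mul_of_nonneg_left hQ (abs_nonneg _)
      _ = |γ * Q| := (abs_mul _ _).symm
      _ = |α * P| := by
        rw [show γ * Q = -(α * P) by linarith, abs_neg]
      _ = |α| * |P| := abs_mul _ _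
      _ ≤ M * (l / 25) := mul_le_mul hα (hP.trans hk) (abs_nonneg _)
          ((abs_nonneg _).trans hα)
  have h2 : |γ| * l ≤ M / 25 * l := by linarith
  exact le_of_mul_le_mul_right h2 hl

theorem r_ext {m κ w : ℝ} {a b c : Fin 2 → E3} {A B C : Fin 2 → ℝ}
    {p : Fin 2 → Fin 2 → Fin 2 → E3} {ga gb gc : E3} (hc : Cube a b c A B C p)
    (h : Aln m κ w a b c ga gb gc) (hm : 0 < m) (hm1 : m ≤ 1) (hκ0 : 0 ≤ κ)
    (hκ : κ ≤ m ^ 3 / 200) (hA : 0 < inner ℝ (a 0) gc * inner ℝ (a 1) gb)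
    (hC : 0 < inner ℝ (c 0) gb * inner ℝ (c 1) ga)
    (hAC : inner ℝ (a 0) gc * inner ℝ (c 0) gb < 0) (hBC : inner ℝ (b 0) ga * inner ℝ (c 0) gb < 0)
    (hbc : ∀ v : E3, inner ℝ (b 0) v = 0 → inner ℝ (c 1) v = 0 →
      |dt ga gb v| ≤ 2 * |dt ga v gc|)
    (hca : ∀ v : E3, inner ℝ (c 0) v = 0 → inner ℝ (a 1) v = 0 →
      |dt ga gb v| ≤ 2 * |dt v gb gc|) : False := by
  have hw := h.wpos
  obtain ⟨⟨la0, la1⟩, ⟨lb0, lb1⟩, lc0, lc1⟩ := re_low h hm
  have hm3 : m ^ 3 ≤ m ^ 2 := pow_le_pow_of_le_one hm.le hm1 (by norm_num)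
  set l : ℝ := m ^ 2 / 8 * w with hl
  have hl0 : 0 < l := by positivity
  have hκl : κ * w ≤ l / 25 := by
    have h1 : κ * w ≤ m ^ 3 / 200 * w := mul_le_mul_of_nonneg_right hκ hw.le
    have h2 : m ^ 3 / 200 * w ≤ m ^ 2 / 200 * w :=
      mul_le_mul_of_nonneg_right (by linarith) hw.le
    rw [hl]
    linarith
  have hmm : m * (m / 4 * w) = 2 * l := by rw [hl]; ring
  rw [hmm] at la0 la1 lb0 lb1 lc0 lc1
  replace la0 : l ≤ |inner ℝ (a 0) gc| := by linarith
  replace la1 : l ≤ |inner ℝ (a 1) gb| := by linarith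
  replace lb0 : l ≤ |inner ℝ (b 0) ga| := by linarith
  replace lb1 : l ≤ |inner ℝ (b 1) gc| := by linarith
  replace lc0 : l ≤ |inner ℝ (c 0) gb| := by linarith
  replace lc1 : l ≤ |inner ℝ (c 1) ga| := by linarith
  set D := dt ga gb gc with hDdef
  have hD : D ≠ 0 := by
    have h1 := (aln_det h hm hm1 hκ0 (by
      have : 0 ≤ m ^ 3 := by positivity
      linarith)).1
    intro h0
    rw [← hDdef, h0, abs_zero] at h1
    have : 0 < m ^ 3 / 128 * w ^ 2 := by positivity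
    linarith
  have hcr : ∀ x v : E3, D * inner ℝ x v = dt v gb gc * inner ℝ x ga +
      dt ga v gc * inner ℝ x gb + dt ga gb v * inner ℝ x gc := by
    intro x v
    have e := congrArg (fun v => inner ℝ x v) (cramer ga gb gc v)
    simp only [inner_add_right, inner_smul_right] at e
    exact e
  -- inequalities at the vertices
  have leA : ∀ i' i j k, inner ℝ (a i') (p i j k) ≤ A i' := by
    intro i' i j k
    by_cases hi : i' = i
    · rw [hi, hc.ta]
    · exact (hc.la i i' j k hi).le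
  have leB : ∀ j' i j k, inner ℝ (b j') (p i j k) ≤ B j' := by
    intro j' i j k
    by_cases hi : j' = j
    · rw [hi, hc.tb]
    · exact (hc.lb i j j' k hi).le
  have leC : ∀ k' i j k, inner ℝ (c k') (p i j k) ≤ C k' := by
    intro k' i j k
    by_cases hi : k' = k
    · rw [hi, hc.tc]
    · exact (hc.lc i j k k' hi).le
  -- the maximum
  let V := Fin 2 × Fin 2 × Fin 2
  let P : V → E3 := fun x => p x.1 x.2.1 x.2.2
  obtain ⟨z0, hz0⟩ := Finite.exists_max (fun z : V × V =>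
    max |dt (P z.1 - P z.2) gb gc| (max |dt ga (P z.1 - P z.2) gc| |dt ga gb (P z.1 - P z.2)|))
  set M := max |dt (P z0.1 - P z0.2) gb gc| (max |dt ga (P z0.1 - P z0.2) gc|
    |dt ga gb (P z0.1 - P z0.2)|) with hM
  have mA : ∀ x y : V, |dt (P x - P y) gb gc| ≤ M := fun x y =>
    (le_max_left _ _).trans (hz0 (x, y))
  have mB : ∀ x y : V, |dt ga (P x - P y) gc| ≤ M := fun x y =>
    ((le_max_left _ _).trans (le_max_right _ _)).trans (hz0 (x, y))
  have mG : ∀ x y : V, |dt ga gb (P x - P y)| ≤ M := fun x y =>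
    ((le_max_right _ _).trans (le_max_right _ _)).trans (hz0 (x, y))
  have hM0 : 0 ≤ M := (abs_nonneg _).trans (mA z0.1 z0.2)
  have fin25 : ∀ t : ℝ, |t| * l ≤ κ * w * M → |t| ≤ M / 25 := by
    intro t ht
    have h1 : κ * w * M ≤ l / 25 * M := mul_le_mul_of_nonneg_right hκl hM0
    have h2 : |t| * l ≤ M / 25 * l := by linarith
    exact le_of_mul_le_mul_right h2 hl0
  -- step 1
  have sgn1 : inner ℝ (b 0) ga * inner ℝ (c 1) ga < 0 := by
    by_contra hcon
    push Not at hcon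
    have h1 : inner ℝ (b 0) ga * inner ℝ (c 0) gb * (inner ℝ (c 0) gb * inner ℝ (c 1) ga) < 0 :=
      mul_neg_of_neg_of_pos hBC hC
    have h2 : inner ℝ (b 0) ga * inner ℝ (c 0) gb * (inner ℝ (c 0) gb * inner ℝ (c 1) ga) =
        inner ℝ (c 0) gb * inner ℝ (c 0) gb * (inner ℝ (b 0) ga * inner ℝ (c 1) ga) := by ring
    rw [h2] at h1
    linarith [mul_nonneg (mul_self_nonneg (inner ℝ (c 0) gb)) hcon]
  have st1 : ∀ x : V, |dt (P x - P (0, 0, 1)) gb gc| ≤ M / 25 := by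
    intro x
    apply fin25
    have h1 := hcr (b 0) (P x - P (0, 0, 1))
    have h2 := hcr (c 1) (P x - P (0, 0, 1))
    rw [h.rgb.o 0, mul_zero, add_zero] at h1
    rw [h.rgc.o 1, mul_zero, add_zero] at h2
    refine re_abs hD sgn1 h1 h2 ?_ ?_ ?_ ?_ lb0 lc1
    · rw [inner_sub_right]
      have h3 : inner ℝ (b 0) (P (0, 0, 1)) = B 0 := hc.tb 0 0 1
      have h4 : inner ℝ (b 0) (P x) ≤ B 0 := leB 0 _ _ _
      linarith
    · rw [inner_sub_right]
      have h3 : inner ℝ (c 1) (P (0, 0, 1)) = C 1 := hc.tc 0 0 1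
      have h4 : inner ℝ (c 1) (P x) ≤ C 1 := leC 1 _ _ _
      linarith
    · rw [abs_mul, mul_comm]
      exact mul_le_mul h.b0 (mG _ _) (abs_nonneg _) (by positivity)
    · rw [abs_mul, mul_comm]
      exact mul_le_mul h.c1 (mB _ _) (abs_nonneg _) (by positivity)
  -- step 2
  have sgn2 : inner ℝ (a 1) gb * inner ℝ (c 0) gb < 0 := by
    by_contra hcon
    push Not at hcon
    have h1 : inner ℝ (a 0) gc * inner ℝ (c 0) gb * (inner ℝ (a 0) gc * inner ℝ (a 1) gb) < 0 :=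
      mul_neg_of_neg_of_pos hAC hA
    have h2 : inner ℝ (a 0) gc * inner ℝ (c 0) gb * (inner ℝ (a 0) gc * inner ℝ (a 1) gb) =
        inner ℝ (a 0) gc * inner ℝ (a 0) gc * (inner ℝ (a 1) gb * inner ℝ (c 0) gb) := by ring
    rw [h2] at h1
    linarith [mul_nonneg (mul_self_nonneg (inner ℝ (a 0) gc)) hcon]
  have st2 : ∀ x : V, |dt ga (P x - P (1, 0, 0)) gc| ≤ M / 25 := by
    intro x
    apply fin25
    have h1 := hcr (a 1) (P x - P (1, 0, 0))
    have h2 := hcr (c 0) (P x - P (1, 0, 0))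
    rw [h.rga.o 1, mul_zero, zero_add] at h1
    rw [h.rgc.o 0, mul_zero, add_zero, add_comm] at h2
    refine re_abs hD sgn2 h1 h2 ?_ ?_ ?_ ?_ la1 lc0
    · rw [inner_sub_right]
      have h3 : inner ℝ (a 1) (P (1, 0, 0)) = A 1 := hc.ta 1 0 0
      have h4 : inner ℝ (a 1) (P x) ≤ A 1 := leA 1 _ _ _
      linarith
    · rw [inner_sub_right]
      have h3 : inner ℝ (c 0) (P (1, 0, 0)) = C 0 := hc.tc 1 0 0
      have h4 : inner ℝ (c 0) (P x) ≤ C 0 := leC 0 _ _ _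
      linarith
    · rw [abs_mul, mul_comm]
      exact mul_le_mul h.a1 (mG _ _) (abs_nonneg _) (by positivity)
    · rw [abs_mul, mul_comm]
      exact mul_le_mul h.c0 (mA _ _) (abs_nonneg _) (by positivity)
  have dA : ∀ x y : V, |dt (P x - P y) gb gc| ≤ 2 * M / 25 := by
    intro x y
    have h1 : dt (P x - P y) gb gc = dt (P x - P (0, 0, 1)) gb gc - dt (P y - P (0, 0, 1)) gb gc := by
      rw [← dt_sub1]
      congr 1
      abel
    rw [h1]
    exact (abs_sub _ _).trans (by linarith [st1 x, st1 y])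
  have dB : ∀ x y : V, |dt ga (P x - P y) gc| ≤ 2 * M / 25 := by
    intro x y
    have h1 : dt ga (P x - P y) gc = dt ga (P x - P (1, 0, 0)) gc - dt ga (P y - P (1, 0, 0)) gc := by
      rw [← dt_sub2]
      congr 1
      abel
    rw [h1]
    exact (abs_sub _ _).trans (by linarith [st2 x, st2 y])
  -- step 3
  have st3a : ∀ x y : V, inner ℝ (a 0) (P x - P y) = 0 → |dt ga gb (P x - P y)| ≤ M / 25 := by
    intro x y hxy
    have h1 := hcr (a 0) (P x - P y)
    rw [hxy, mul_zero, h.rga.o 0, mul_zero, zero_add] at h1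
    exact re_zero h1.symm h.a0 la0 (mB x y) hκl hl0
  have st3b : ∀ x y : V, inner ℝ (b 1) (P x - P y) = 0 → |dt ga gb (P x - P y)| ≤ M / 25 := by
    intro x y hxy
    have h1 := hcr (b 1) (P x - P y)
    rw [hxy, mul_zero, h.rgb.o 1, mul_zero, add_zero] at h1
    exact re_zero h1.symm h.b1 lb1 (mA x y) hκl hl0
  have dsp : ∀ x y z : V, dt ga gb (P x - P z) = dt ga gb (P x - P y) + dt ga gb (P y - P z) := by
    intro x y z
    rw [dt_sub3, dt_sub3, dt_sub3]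
    ring
  -- step 4
  have st4 : ∀ x : V, |dt ga gb (P x - P (0, 1, 0))| ≤ 5 * M / 25 := by
    rintro ⟨i, j, k⟩
    have hi : i = 0 ∨ i = 1 := by omega
    have hj : j = 0 ∨ j = 1 := by omega
    have hk : k = 0 ∨ k = 1 := by omega
    rcases hi with rfl | rfl
    · have h1 := st3a (0, j, k) (0, 1, 0) (by
        rw [inner_sub_right]
        have h3 : inner ℝ (a 0) (P (0, j, k)) = A 0 := hc.ta 0 j k
        have h4 : inner ℝ (a 0) (P (0, 1, 0)) = A 0 := hc.ta 0 1 0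
        rw [h3, h4, sub_self])
      linarith
    rcases hj with rfl | rfl
    · rcases hk with rfl | rfl
      · -- p 1 0 0, via p 1 1 0
        rw [dsp (1, 0, 0) (1, 1, 0) (0, 1, 0)]
        have h1 := st3b (1, 1, 0) (0, 1, 0) (by
          rw [inner_sub_right]
          have h3 : inner ℝ (b 1) (P (1, 1, 0)) = B 1 := hc.tb 1 1 0
          have h4 : inner ℝ (b 1) (P (0, 1, 0)) = B 1 := hc.tb 0 1 0
          rw [h3, h4, sub_self])
        have h2 := hca (P (1, 0, 0) - P (1, 1, 0)) (by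
          rw [inner_sub_right]
          have h3 : inner ℝ (c 0) (P (1, 0, 0)) = C 0 := hc.tc 1 0 0
          have h4 : inner ℝ (c 0) (P (1, 1, 0)) = C 0 := hc.tc 1 1 0
          rw [h3, h4, sub_self]) (by
          rw [inner_sub_right]
          have h3 : inner ℝ (a 1) (P (1, 0, 0)) = A 1 := hc.ta 1 0 0
          have h4 : inner ℝ (a 1) (P (1, 1, 0)) = A 1 := hc.ta 1 1 0
          rw [h3, h4, sub_self])
        have h5 := dA (1, 0, 0) (1, 1, 0)
        exact (abs_add_le _ _).trans (by linarith)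
      · -- p 1 0 1, via p 0 0 1
        rw [dsp (1, 0, 1) (0, 0, 1) (0, 1, 0)]
        have h1 := st3a (0, 0, 1) (0, 1, 0) (by
          rw [inner_sub_right]
          have h3 : inner ℝ (a 0) (P (0, 0, 1)) = A 0 := hc.ta 0 0 1
          have h4 : inner ℝ (a 0) (P (0, 1, 0)) = A 0 := hc.ta 0 1 0
          rw [h3, h4, sub_self])
        have h2 := hbc (P (1, 0, 1) - P (0, 0, 1)) (by
          rw [inner_sub_right]
          have h3 : inner ℝ (b 0) (P (1, 0, 1)) = B 0 := hc.tb 1 0 1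
          have h4 : inner ℝ (b 0) (P (0, 0, 1)) = B 0 := hc.tb 0 0 1
          rw [h3, h4, sub_self]) (by
          rw [inner_sub_right]
          have h3 : inner ℝ (c 1) (P (1, 0, 1)) = C 1 := hc.tc 1 0 1
          have h4 : inner ℝ (c 1) (P (0, 0, 1)) = C 1 := hc.tc 0 0 1
          rw [h3, h4, sub_self])
        have h5 := dB (1, 0, 1) (0, 0, 1)
        exact (abs_add_le _ _).trans (by linarith)
    · have h1 := st3b (1, 1, k) (0, 1, 0) (by
        rw [inner_sub_right]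
        have h3 : inner ℝ (b 1) (P (1, 1, k)) = B 1 := hc.tb 1 1 k
        have h4 : inner ℝ (b 1) (P (0, 1, 0)) = B 1 := hc.tb 0 1 0
        rw [h3, h4, sub_self])
      linarith
  have dG : ∀ x y : V, |dt ga gb (P x - P y)| ≤ 10 * M / 25 := by
    intro x y
    have h1 : dt ga gb (P x - P y) = dt ga gb (P x - P (0, 1, 0)) - dt ga gb (P y - P (0, 1, 0)) := by
      rw [dt_sub3, dt_sub3, dt_sub3]
      ring
    rw [h1]
    exact (abs_sub _ _).trans (by linarith [st4 x, st4 y])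
  have hMle : M ≤ 10 * M / 25 := by
    rw [hM]
    refine max_le ?_ (max_le ?_ ?_)
    · have h1 := dA z0.1 z0.2
      rw [← hM]
      linarith
    · have h1 := dB z0.1 z0.2
      rw [← hM]
      linarith
    · exact dG z0.1 z0.2
  have hMz : M = 0 := by linarith
  -- all vertices are equal
  have eA := abs_eq_zero.1 (le_antisymm ((mA (0, 0, 0) (1, 0, 0)).trans_eq hMz) (abs_nonneg _))
  have eB := abs_eq_zero.1 (le_antisymm ((mB (0, 0, 0) (1, 0, 0)).trans_eq hMz) (abs_nonneg _))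
  have eG := abs_eq_zero.1 (le_antisymm ((mG (0, 0, 0) (1, 0, 0)).trans_eq hMz) (abs_nonneg _))
  have e := hcr (a 1) (P (0, 0, 0) - P (1, 0, 0))
  rw [eA, eB, eG, zero_mul, zero_mul, zero_mul, add_zero, add_zero] at e
  have e2 := (mul_eq_zero.1 e).resolve_left hD
  rw [inner_sub_right] at e2
  have h3 : inner ℝ (a 1) (P (1, 0, 0)) = A 1 := hc.ta 1 0 0
  have h4 : inner ℝ (a 1) (P (0, 0, 0)) < A 1 := hc.la 0 1 0 0 (by decide)
  linarith

end UF.FP
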