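import Pool.Agent.Work.MP_4c5ddc_co.FP.RLow

/-!
# FP/RFar (M): aligned position, the far range

Here `A = dt X gb gc`, `B = dt ga X gc`, `Γ = dt ga gb X`, `D = dt ga gb gc`; by `cramer`
`D • X = A • ga + B • gb + Γ • gc`.

PROOF. First: `far_of`: if `‖cr X gb‖ < c₂ w` then `‖cr X ga‖ ≥ ‖cr ga gb‖ - ‖cr X gb‖ ≥ (m / 4 - c₂) w ≥ c₂ w` and
`‖cr X ga‖ ≤ w + c₂ w ≤ w / c₂`, against `h2`; so by `h1` `‖cr X gb‖ > w / c₂`; symmetrically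
`‖cr X ga‖ > w / c₂`. As they are at most `1`: `w < c₂`.
`|Γ| ≤ κ w ‖cr X ga‖` by `aln_gam`; symmetrically `|Γ| ≤ κ w ‖cr X gb‖` (from `b 1 · X = 0`, `|b 1 · ga| ≤ κ w`; or
`aln_gam` for the reflected position, `Aln.refl` of `FP/Sym`).
Taking the cross product of `D • X = ...` with `ga`: `D • cr X ga = B • cr gb ga + Γ • cr gc ga`, so
`|B| ‖cr gb ga‖ ≥ |D| ‖cr X ga‖ - |Γ| ‖cr gc ga‖ ≥ (m ^ 3 / 128 - κ) w ^ 2 ‖cr X ga‖` (`aln_det`; `|Γ| w ≤ κ w ^ 2 ‖cr X ga‖`), so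
`|B| ≥ (m ^ 3 / 256) w ‖cr X ga‖` (`κ ≤ m ^ 3 / 2048`, `‖cr gb ga‖ ≤ w`), which is positive. Hence `|Γ| ≤ (256 κ / m ^ 3) |B| ≤ |B| / 8`,
`|D| ≤ w ^ 2 ≤ c₂ w ‖cr X ga‖ ≤ (256 c₂ / m ^ 3) |B| ≤ |B| / 8`. Symmetrically `|A| > 0`. Now
`|A + B| = ‖A • ga + B • ga‖ ≤ ‖A • ga + B • gb‖ + |B| ‖gb - ga‖ ≤ |D| + |Γ| + |B| * 2 * ‖cr ga gb‖`
(`norm_sub_le_cr`, here `0 ≤ inner ga gb` is used) `≤ |B| / 8 + |B| / 8 + 2 c₂ |B| ≤ |B| / 2`. So `A` lies between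
`- 3 B / 2` and `- B / 2`.
-/

set_option autoImplicit false

namespace UF.FP

theorem far_of {m κ w c₂ : ℝ} {a b c : Fin 2 → E3} {ga gb gc X : E3}
    (h : Aln m κ w a b c ga gb gc) (hm : 0 < m) (hm1 : m ≤ 1) (hc : 0 < c₂) (hc2 : c₂ ≤ m / 8)
    (hX : Dir (a 0) (b 1) X) (h1 : ¬(c₂ * w ≤ ‖cr X gb‖ ∧ ‖cr X gb‖ ≤ w / c₂))
    (h2 : ¬(c₂ * w ≤ ‖cr X ga‖ ∧ ‖cr X ga‖ ≤ w / c₂)) :
    w / c₂ < ‖cr X gb‖ ∧ w / c₂ < ‖cr X ga‖ ∧ w < c₂ := by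
  have hw := h.wpos
  obtain ⟨x1, x2, x3, x4, x5⟩ := hX
  have hcw : c₂ * w ≤ m / 8 * w := mul_le_mul_of_nonneg_right hc2 hw.le
  have hmw : m * w ≤ 1 * w := mul_le_mul_of_nonneg_right hm1 hw.le
  have h8 : 8 * w ≤ w / c₂ := by
    rw [le_div_iff₀ hc]
    have : 8 * w * c₂ = 8 * (c₂ * w) := by ring
    rw [this]
    linarith
  have key : ∀ u v : E3, ‖u‖ = 1 → ‖v‖ = 1 → m / 4 * w ≤ ‖cr u v‖ → ‖cr u v‖ ≤ w →
      ¬(c₂ * w ≤ ‖cr X u‖ ∧ ‖cr X u‖ ≤ w / c₂) → ¬(c₂ * w ≤ ‖cr X v‖ ∧ ‖cr X v‖ ≤ w / c₂) →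
      w / c₂ < ‖cr X v‖ := by
    intro u v hu hv h3 h4 h5 h6
    by_contra h7
    rw [not_lt] at h7
    have h8' : ‖cr X v‖ < c₂ * w := by
      by_contra h9
      exact h6 ⟨not_lt.mp h9, h7⟩
    have h9 := cr_tri hu hv x1
    rw [norm_cr_comm X u] at h9
    have h10 := cr_tri x1 hu hv
    rw [norm_cr_comm u v] at h10
    refine h5 ⟨?_, ?_⟩
    · linarith
    · linarith
  have e1 := key ga gb h.rga.ug h.rgb.ug h.ab.1 h.ab.2 h2 h1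
  have e2 := key gb ga h.rgb.ug h.rga.ug (by rw [norm_cr_comm]; exact h.ab.1)
    (by rw [norm_cr_comm]; exact h.ab.2) h1 h2
  refine ⟨e1, e2, ?_⟩
  have h3 := norm_cr_le X gb
  rw [x1, h.rgb.ug, one_mul] at h3
  have h4 : w / c₂ < 1 := lt_of_lt_of_le e1 h3
  rwa [div_lt_one hc] at h4

theorem r_far {m κ w c₂ : ℝ} {a b c : Fin 2 → E3} {ga gb gc X : E3}
    (h : Aln m κ w a b c ga gb gc) (hm : 0 < m) (hm1 : m ≤ 1) (hκ0 : 0 ≤ κ)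
    (hκ : κ ≤ m ^ 3 / 2048) (hc : 0 < c₂) (hc2 : c₂ ≤ m ^ 3 / 2048) (hX : Dir (a 0) (b 1) X)
    (h1 : w / c₂ < ‖cr X gb‖) (h2 : w / c₂ < ‖cr X ga‖) (hor : 0 ≤ inner ℝ ga gb) :
    dt X gb gc * dt ga X gc < 0 ∧ |dt X gb gc| ≤ 2 * |dt ga X gc| ∧
      |dt ga X gc| ≤ 2 * |dt X gb gc| := by
  have hw := h.wpos
  obtain ⟨x1, x2, x3, x4, x5⟩ := hX
  have hm3 : m ^ 3 ≤ 1 := pow_le_one₀ hm.le hm1
  have hm3' : 0 < m ^ 3 := by positivity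
  have hΓ := aln_gam h x2
  obtain ⟨hD1, hD2⟩ := aln_det h hm hm1 hκ0 (by linarith)
  have hcram := cramer ga gb gc X
  have hwc : w < c₂ := by
    have h3 := norm_cr_le X gb
    rw [x1, h.rgb.ug, one_mul] at h3
    have h4 : w / c₂ < 1 := lt_of_lt_of_le h1 h3
    rwa [div_lt_one hc] at h4
  have hab := norm_sub_le_cr h.rga.ug h.rgb.ug hor
  have hab2 := h.ab.2
  have hca2 := h.ca.2
  have hab' : ‖cr gb ga‖ ≤ w := by rw [norm_cr_comm]; exact hab2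
  obtain ⟨t, ht⟩ : ∃ t : ℝ, t = ‖cr X ga‖ := ⟨_, rfl⟩
  obtain ⟨A, hA⟩ : ∃ A : ℝ, A = dt X gb gc := ⟨_, rfl⟩
  obtain ⟨B, hB⟩ : ∃ B : ℝ, B = dt ga X gc := ⟨_, rfl⟩
  obtain ⟨D, hD⟩ : ∃ D : ℝ, D = dt ga gb gc := ⟨_, rfl⟩
  obtain ⟨Γ, hG⟩ : ∃ Γ : ℝ, Γ = dt ga gb X := ⟨_, rfl⟩
  rw [← ht] at h2 hΓ
  rw [← hD] at hD1 hD2 hcram
  rw [← hG] at hΓ hcram
  rw [← hA, ← hB] at hcram
  rw [← hA, ← hB]
  have htw : w < c₂ * t := by
    rw [div_lt_iff₀ hc] at h2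
    linarith
  have ht0 : 0 < t := by
    by_contra h5
    rw [not_lt] at h5
    have : c₂ * t ≤ 0 := mul_nonpos_of_nonneg_of_nonpos hc.le h5
    linarith
  have hwt : 0 < w * t := mul_pos hw ht0
  have hΓ2 : |Γ| ≤ m ^ 3 / 2048 * (w * t) := by
    have : κ * w * t = κ * (w * t) := by ring
    rw [this] at hΓ
    exact hΓ.trans (mul_le_mul_of_nonneg_right hκ hwt.le)
  have hD3 : |D| ≤ m ^ 3 / 2048 * (w * t) := by
    have h5 : w ^ 2 ≤ w * (c₂ * t) := by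
      rw [sq]
      exact mul_le_mul_of_nonneg_left htw.le hw.le
    have h6 : w * (c₂ * t) = c₂ * (w * t) := by ring
    have h7 : c₂ * (w * t) ≤ m ^ 3 / 2048 * (w * t) := mul_le_mul_of_nonneg_right hc2 hwt.le
    linarith
  have hB1 : m ^ 3 / 256 * (w * t) ≤ |B| := by
    have h5 : D • cr X ga = B • cr gb ga + Γ • cr gc ga := by
      rw [← cr_smul_left, hcram, cr_add_left, cr_add_left, cr_smul_left, cr_smul_left, cr_smul_left,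
        cr_self, smul_zero, zero_add]
    have h6 : |D| * t ≤ |B| * ‖cr gb ga‖ + |Γ| * ‖cr gc ga‖ := by
      have h7 := norm_add_le (B • cr gb ga) (Γ • cr gc ga)
      rw [← h5, norm_smul, norm_smul, norm_smul, Real.norm_eq_abs, Real.norm_eq_abs,
        Real.norm_eq_abs, ← ht] at h7
      exact h7
    have h7 : |B| * ‖cr gb ga‖ ≤ |B| * w := mul_le_mul_of_nonneg_left hab' (abs_nonneg _)
    have h8 : |Γ| * ‖cr gc ga‖ ≤ m ^ 3 / 2048 * (w * t) * w :=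
      mul_le_mul hΓ2 hca2 (norm_nonneg _) (by positivity)
    have h9 : m ^ 3 / 128 * w ^ 2 * t ≤ |D| * t := mul_le_mul_of_nonneg_right hD1 ht0.le
    have h10 : m ^ 3 / 256 * (w * t) * w ≤ |B| * w := by
      have e1 : m ^ 3 / 128 * w ^ 2 * t = 16 * (m ^ 3 / 2048 * (w * t) * w) := by ring
      have e2 : m ^ 3 / 256 * (w * t) * w = 8 * (m ^ 3 / 2048 * (w * t) * w) := by ring
      have e3 : 0 ≤ m ^ 3 / 2048 * (w * t) * w := by positivity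
      linarith
    exact le_of_mul_le_mul_right h10 hw
  have hB0 : 0 < |B| := by
    have : 0 < m ^ 3 / 256 * (w * t) := by positivity
    linarith
  have hAB : |A + B| ≤ |D| + |Γ| + |B| * ‖ga - gb‖ := by
    have h5 : (A + B) • ga = D • X - Γ • gc + B • (ga - gb) := by
      rw [hcram, add_smul, smul_sub]
      abel
    have h6 : |A + B| = ‖(A + B) • ga‖ := by
      rw [norm_smul, h.rga.ug, mul_one, Real.norm_eq_abs]
    rw [h6, h5]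
    refine (norm_add_le _ _).trans ?_
    have h7 := norm_sub_le (D • X) (Γ • gc)
    rw [norm_smul, norm_smul, x1, h.rgc.ug, mul_one, mul_one, Real.norm_eq_abs,
      Real.norm_eq_abs] at h7
    rw [norm_smul, Real.norm_eq_abs]
    linarith
  have hAB2 : |A + B| ≤ |B| / 2 := by
    have h5 : |B| * ‖ga - gb‖ ≤ |B| * (1 / 8) := by
      refine mul_le_mul_of_nonneg_left ?_ (abs_nonneg _)
      linarith
    have h6 : m ^ 3 / 2048 * (w * t) = (m ^ 3 / 256 * (w * t)) / 8 := by ring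
    linarith
  refine ⟨?_, ?_, ?_⟩
  · have h5 : A * B = (A + B) * B - |B| ^ 2 := by
      rw [sq_abs]
      ring
    have h6 : (A + B) * B ≤ |B| / 2 * |B| := by
      refine (le_abs_self _).trans ?_
      rw [abs_mul]
      exact mul_le_mul_of_nonneg_right hAB2 (abs_nonneg _)
    have h7 : 0 < |B| ^ 2 := by positivity
    have h8 : |B| / 2 * |B| = |B| ^ 2 / 2 := by ring
    linarith
  · have h5 : |A| ≤ |A + B| + |B| := by
      have := abs_sub (A + B) B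
      rwa [add_sub_cancel_right] at this
    linarith
  · have h5 : |B| ≤ |A + B| + |A| := by
      have := abs_sub (A + B) A
      rwa [add_sub_cancel_left] at this
    linarith

end UF.FP
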