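import Pool.Agent.Work.MP_4c5ddc_co.FP.Vin

/-!
# FP/RMix (M): either (N) holds at a facet or the normals are aligned

PROOF. Let `wab = ‖cr ga gb‖` etc. and `w` the largest of the three. Suppose that (N) holds at no facet:
(*) for every colour `x` with the other colours `y, z` and every `i`: `|x_i · g_y| < κ w_yz` or
`|x_i · g_z| < κ w_yz`. (So all three `w_xy` are positive.)
By `norm_cr_mul` (**) `m * ‖cr v g_x‖ ≤ |x_0 · v| + |x_1 · v|` for all `v`; in particular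
`m * w_xy ≤ |x_0 · g_y| + |x_1 · g_y|`.
1. By `cr_tri` there is a colour `z` (others `x, y`) with `w_zx ≥ w / 2`, `w_zy ≥ w / 2` (the largest is one of the three and at least one of the
two others is at least half of it; they share a colour). `z` is MIXED: not both indices `i` have the small product with the
same `g`: if `|z_i · g_x| < κ w_xy` for both `i` then `m w / 2 ≤ m w_zx ≤ 2 κ w_xy ≤ 2 κ w`, but `κ < m / 4`;
the same with `g_y`. So for one index, `z_p`, `|z_p · g_x| < κ w_xy` and for the other one, `z_q`,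
`|z_q · g_y| < κ w_xy`. By (**) `m w / 2 ≤ |z_p · g_x| + |z_q · g_x|` and by `abs_inner_le_add`
`|z_q · g_x| ≤ |z_q · g_y| + w_xy`. So `m w / 2 ≤ (2 κ + 1) w_xy ≤ 2 w_xy`. Hence all three `w_xy`
are at least `(m / 4) w`.
2. Now every colour `x` (others `y, z`) is mixed: if `|x_i · g_y| < κ w_yz ≤ κ w` for both `i` then `m (m / 4) w ≤ 2 κ w`,
but `κ < m ^ 2 / 8`. Choose the flips `ea, eb, ec` such that the index `0` of `a` (after the flip) is the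
one with the small product with `gb` and the index `1` the one with `gc`, and so on as in `Aln`.
-/

set_option autoImplicit false

namespace UF.FP

/-- flip if `e`. -/
def flb {X : Type*} (e : Bool) (x : Fin 2 → X) : Fin 2 → X := if e then flp x else x

private theorem mix1 {m κ w : ℝ} (hm : 0 < m) (hm1 : m ≤ 1) (hκ : 0 < κ) (hκ' : κ ≤ m ^ 2 / 16)
    {z : Fin 2 → E3} {gx gy gz : E3} (hz : Rg m z gz) (ux : ‖gx‖ = 1) (uy : ‖gy‖ = 1)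
    (h : ∀ i, |inner ℝ (z i) gx| < κ * ‖cr gx gy‖ ∨ |inner ℝ (z i) gy| < κ * ‖cr gx gy‖)
    (hx : w / 2 ≤ ‖cr gx gz‖) (hy : w / 2 ≤ ‖cr gy gz‖) (hw : ‖cr gx gy‖ ≤ w) :
    m / 4 * w ≤ ‖cr gx gy‖ := by
  have hm2 : m ^ 2 ≤ 1 := pow_le_one₀ hm.le hm1
  have hκ1 : κ ≤ 1 / 16 := by linarith
  have hW := norm_nonneg (cr gx gy)
  have hκW : κ * ‖cr gx gy‖ ≤ 1 / 16 * ‖cr gx gy‖ := mul_le_mul_of_nonneg_right hκ1 hW
  have hw0 : 0 ≤ w := hW.trans hw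
  have b1 := norm_cr_mul (hz.u 0) (hz.u 1) hz.ug (hz.o 0) (hz.o 1) gx
  have b2 := norm_cr_mul (hz.u 0) (hz.u 1) hz.ug (hz.o 0) (hz.o 1) gy
  have b1' : m * (w / 2) ≤ ‖cr (z 0) (z 1)‖ * ‖cr gx gz‖ :=
    mul_le_mul hz.low hx (by positivity) (norm_nonneg _)
  have b2' : m * (w / 2) ≤ ‖cr (z 0) (z 1)‖ * ‖cr gy gz‖ :=
    mul_le_mul hz.low hy (by positivity) (norm_nonneg _)
  have c0 := abs_inner_le_add (hz.u 0) ux uy
  have c1 := abs_inner_le_add (hz.u 1) ux uy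
  have e1 : m / 4 * w = m * (w / 2) / 2 := by ring
  rw [e1]
  rcases h 0 with h0 | h0 <;> rcases h 1 with h1 | h1 <;> linarith

private theorem mix2 {m κ w W : ℝ} (hm : 0 < m) (hκ : 0 < κ) (hκ' : κ ≤ m ^ 2 / 16)
    {x : Fin 2 → E3} {gx gy gz : E3} (hx : Rg m x gx) (hw : 0 < w) (hW : W ≤ w)
    (h : ∀ i, |inner ℝ (x i) gy| < κ * W ∨ |inner ℝ (x i) gz| < κ * W)
    (hy : m / 4 * w ≤ ‖cr gy gx‖) (hz : m / 4 * w ≤ ‖cr gz gx‖) :
    ∃ e : Bool, |inner ℝ (flb e x 0) gy| ≤ κ * w ∧ |inner ℝ (flb e x 1) gz| ≤ κ * w := by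
  have hκW : κ * W ≤ κ * w := mul_le_mul_of_nonneg_left hW hκ.le
  have hκw : κ * w ≤ m ^ 2 / 16 * w := mul_le_mul_of_nonneg_right hκ' hw.le
  have hmw : 0 < m ^ 2 / 16 * w := by positivity
  have b1 := norm_cr_mul (hx.u 0) (hx.u 1) hx.ug (hx.o 0) (hx.o 1) gy
  have b2 := norm_cr_mul (hx.u 0) (hx.u 1) hx.ug (hx.o 0) (hx.o 1) gz
  have b1' : m * (m / 4 * w) ≤ ‖cr (x 0) (x 1)‖ * ‖cr gy gx‖ :=
    mul_le_mul hx.low hy (by positivity) (norm_nonneg _)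
  have b2' : m * (m / 4 * w) ≤ ‖cr (x 0) (x 1)‖ * ‖cr gz gx‖ :=
    mul_le_mul hx.low hz (by positivity) (norm_nonneg _)
  have e1 : m * (m / 4 * w) = 4 * (m ^ 2 / 16 * w) := by ring
  rw [e1] at b1' b2'
  have f00 : flb false x 0 = x 0 := rfl
  have f01 : flb false x 1 = x 1 := rfl
  have f10 : flb true x 0 = x 1 := rfl
  have f11 : flb true x 1 = x 0 := rfl
  rcases h 0 with h0 | h0 <;> rcases h 1 with h1 | h1
  · exfalso
    linarith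
  · refine ⟨false, ?_, ?_⟩
    · rw [f00]
      linarith
    · rw [f01]
      linarith
  · refine ⟨true, ?_, ?_⟩
    · rw [f10]
      linarith
    · rw [f11]
      linarith
  · exfalso
    linarith

private theorem mix3 {m w A B C : ℝ} (hm : 0 < m) (hm1 : m ≤ 1) (hw0 : 0 < w)
    (hw : w = A ∨ w = B ∨ w = C) (tA : A ≤ B + C) (tB : B ≤ A + C) (tC : C ≤ A + B)
    (iA : w / 2 ≤ B → w / 2 ≤ C → m / 4 * w ≤ A) (iB : w / 2 ≤ A → w / 2 ≤ C → m / 4 * w ≤ B)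
    (iC : w / 2 ≤ A → w / 2 ≤ B → m / 4 * w ≤ C) :
    m / 4 * w ≤ A ∧ m / 4 * w ≤ B ∧ m / 4 * w ≤ C := by
  have hmw : m / 4 * w ≤ w / 2 := by
    have : m * w ≤ 1 * w := mul_le_mul_of_nonneg_right hm1 hw0.le
    linarith
  rcases hw with hw | hw | hw
  · rcases le_or_gt (w / 2) B with hB | hB
    · exact ⟨by linarith, by linarith, iC (by linarith) hB⟩
    · exact ⟨by linarith, iB (by linarith) (by linarith), by linarith⟩
  · rcases le_or_gt (w / 2) A with hA | hA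
    · exact ⟨by linarith, by linarith, iC hA (by linarith)⟩
    · exact ⟨iA (by linarith) (by linarith), by linarith, by linarith⟩
  · rcases le_or_gt (w / 2) A with hA | hA
    · exact ⟨by linarith, iB hA (by linarith), by linarith⟩
    · exact ⟨iA (by linarith) (by linarith), by linarith, by linarith⟩

private theorem rg_flb {m : ℝ} {x : Fin 2 → E3} {g : E3} (h : Rg m x g) (e : Bool) :
    Rg m (flb e x) g := by
  cases e
  · exact h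
  · refine ⟨fun i => h.u (1 - i), h.ug, fun i => h.o (1 - i), ?_⟩
    have e0 : flb true x 0 = x 1 := rfl
    have e1 : flb true x 1 = x 0 := rfl
    rw [e0, e1, norm_cr_comm]
    exact h.low

private theorem not_nn {κ : ℝ} {f g g' : E3} (h : ¬Nn κ f g g') :
    |inner ℝ f g| < κ * ‖cr g g'‖ ∨ |inner ℝ f g'| < κ * ‖cr g g'‖ := by
  by_contra h1
  rw [not_or, not_lt, not_lt] at h1
  exact h h1

theorem r_mix {m κ : ℝ} (hm : 0 < m) (hm1 : m ≤ 1) (hκ : 0 < κ) (hκ' : κ ≤ m ^ 2 / 16)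
    {a b c : Fin 2 → E3} {ga gb gc : E3} (ha : Rg m a ga) (hb : Rg m b gb) (hc : Rg m c gc) :
    (∃ i, Nn κ (a i) gb gc) ∨ (∃ j, Nn κ (b j) gc ga) ∨ (∃ k, Nn κ (c k) ga gb) ∨
      ∃ (w : ℝ) (ea eb ec : Bool), Aln m κ w (flb ea a) (flb eb b) (flb ec c) ga gb gc := by
  by_cases h1 : ∃ i, Nn κ (a i) gb gc
  · exact Or.inl h1
  by_cases h2 : ∃ j, Nn κ (b j) gc ga
  · exact Or.inr (Or.inl h2)
  by_cases h3 : ∃ k, Nn κ (c k) ga gb
  · exact Or.inr (Or.inr (Or.inl h3))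
  refine Or.inr (Or.inr (Or.inr ?_))
  have H1 : ∀ i, |inner ℝ (a i) gb| < κ * ‖cr gb gc‖ ∨ |inner ℝ (a i) gc| < κ * ‖cr gb gc‖ :=
    fun i => not_nn fun h => h1 ⟨i, h⟩
  have H2 : ∀ i, |inner ℝ (b i) gc| < κ * ‖cr gc ga‖ ∨ |inner ℝ (b i) ga| < κ * ‖cr gc ga‖ :=
    fun i => not_nn fun h => h2 ⟨i, h⟩
  have H3 : ∀ i, |inner ℝ (c i) ga| < κ * ‖cr ga gb‖ ∨ |inner ℝ (c i) gb| < κ * ‖cr ga gb‖ :=
    fun i => not_nn fun h => h3 ⟨i, h⟩
  have hpos : 0 < ‖cr gb gc‖ := by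
    rcases (norm_nonneg (cr gb gc)).eq_or_lt with h | h
    · rw [← h, mul_zero] at H1
      exfalso
      rcases H1 0 with h4 | h4
      · exact absurd h4 (not_lt.mpr (abs_nonneg _))
      · exact absurd h4 (not_lt.mpr (abs_nonneg _))
    · exact h
  obtain ⟨w, hwA, hwB, hwC, hw⟩ : ∃ w : ℝ, ‖cr gb gc‖ ≤ w ∧ ‖cr gc ga‖ ≤ w ∧ ‖cr ga gb‖ ≤ w ∧
      (w = ‖cr gb gc‖ ∨ w = ‖cr gc ga‖ ∨ w = ‖cr ga gb‖) := by
    rcases le_total ‖cr gb gc‖ ‖cr gc ga‖ with k1 | k1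
    · rcases le_total ‖cr gc ga‖ ‖cr ga gb‖ with k2 | k2
      · exact ⟨_, k1.trans k2, k2, le_rfl, Or.inr (Or.inr rfl)⟩
      · exact ⟨_, k1, le_rfl, k2, Or.inr (Or.inl rfl)⟩
    · rcases le_total ‖cr gb gc‖ ‖cr ga gb‖ with k2 | k2
      · exact ⟨_, k2, k1.trans k2, le_rfl, Or.inr (Or.inr rfl)⟩
      · exact ⟨_, le_rfl, k1, k2, Or.inl rfl⟩
  have hw0 : 0 < w := lt_of_lt_of_le hpos hwA
  have tA := cr_tri hb.ug hc.ug ha.ug
  have tB := cr_tri hc.ug ha.ug hb.ug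
  have tC := cr_tri ha.ug hb.ug hc.ug
  rw [norm_cr_comm ga gb, norm_cr_comm gc ga] at tA
  rw [norm_cr_comm gb gc, norm_cr_comm ga gb] at tB
  rw [norm_cr_comm gc ga, norm_cr_comm gb gc] at tC
  have iA : w / 2 ≤ ‖cr gc ga‖ → w / 2 ≤ ‖cr ga gb‖ → m / 4 * w ≤ ‖cr gb gc‖ := fun x y =>
    mix1 hm hm1 hκ hκ' ha hb.ug hc.ug H1 (by rw [norm_cr_comm]; exact y) x hwA
  have iB : w / 2 ≤ ‖cr gb gc‖ → w / 2 ≤ ‖cr ga gb‖ → m / 4 * w ≤ ‖cr gc ga‖ := fun x y =>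
    mix1 hm hm1 hκ hκ' hb hc.ug ha.ug H2 (by rw [norm_cr_comm]; exact x) y hwB
  have iC : w / 2 ≤ ‖cr gb gc‖ → w / 2 ≤ ‖cr gc ga‖ → m / 4 * w ≤ ‖cr ga gb‖ := fun x y =>
    mix1 hm hm1 hκ hκ' hc ha.ug hb.ug H3 (by rw [norm_cr_comm]; exact y) x hwC
  obtain ⟨lA, lB, lC⟩ := mix3 hm hm1 hw0 hw (by linarith) (by linarith) (by linarith) iA iB iC
  obtain ⟨ea, ea0, ea1⟩ := mix2 hm hκ hκ' ha hw0 hwA H1 (by rw [norm_cr_comm]; exact lC) lB
  obtain ⟨eb, eb0, eb1⟩ := mix2 hm hκ hκ' hb hw0 hwB H2 (by rw [norm_cr_comm]; exact lA) lC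
  obtain ⟨ec, ec0, ec1⟩ := mix2 hm hκ hκ' hc hw0 hwC H3 (by rw [norm_cr_comm]; exact lB) lA
  exact ⟨w, ea, eb, ec, rg_flb ha ea, rg_flb hb eb, rg_flb hc ec, hw0, ⟨lC, hwC⟩, ⟨lA, hwA⟩,
    ⟨lB, hwB⟩, ea0, ea1, eb0, eb1, ec0, ec1⟩

end UF.FP
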