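import Pool.Agent.Work.MP_4c5ddc_co.FP.RLow

/-!
# FP/RSign (M): signs in the far case

PROOF. `r_sign`: let `D = dt ga gb gc`, `A = dt X gb gc`, `B = dt ga X gc`. By `cramer` and `c k · gc = 0`:
`D * (c 0 · X) = A * (c 0 · ga) + B * (c 0 · gb)`, `D * (c 1 · X) = A * (c 1 · ga) + B * (c 1 · gb)`.
By `aln_low` for the rotated position (`Aln.rot` twice, or directly with `norm_cr_mul` for `c`):
`|c 0 · gb| ≥ (m ^ 2 / 8) w`, `|c 1 · ga| ≥ (m ^ 2 / 8) w`. So `|A * (c 0 · ga)| ≤ 2 |B| κ w < |B * (c 0 · gb)|` and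
`|B * (c 1 · gb)| ≤ 2 |A| κ w < |A * (c 1 · ga)|` (`κ < m ^ 2 / 16`, `A, B ≠ 0`). So `D * (c 0 · X)` has the sign of
`B * (c 0 · gb)` and `D * (c 1 · X)` the sign of `A * (c 1 · ga)`. By `Lin.sc 0 1` and `Dir`
(`dt (a 0) (b 1) (c k) = ‖cr (a 0) (b 1)‖ * (X · c k)`) the product `(c 0 · X) (c 1 · X)` is negative, so
`B * (c 0 · gb) * (A * (c 1 · ga)) < 0`, and `A * B < 0`.
`r_all`: let `G = ga + gb + gc`. `a 0 · G = a 0 · gb + a 0 · gc` has the sign of `a 0 · gc` (`|a 0 · gb| ≤ κ w`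
is smaller), `a 1 · G` the sign of `a 1 · gb`; `b 0 · G` that of `b 0 · ga`, `b 1 · G` that of `b 1 · gc`, `c 0 · G` that of
`c 0 · gb`, `c 1 · G` that of `c 1 · ga`. By the hypotheses all are equal, so `G` or `- G` contradicts `Lin.bd`.
-/

set_option autoImplicit false

namespace UF.FP

variable {m κ w : ℝ} {a b c : Fin 2 → E3} {ga gb gc X : E3}

private theorem rs_one {m κ w : ℝ} {x y g v g' : E3} (hm : 0 < m) (hx : ‖x‖ = 1) (hy : ‖y‖ = 1)
    (hg : ‖g‖ = 1) (hxg : inner ℝ x g = 0) (hyg : inner ℝ y g = 0) (hlow : m ≤ ‖cr x y‖)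
    (hv : m / 4 * w ≤ ‖cr v g‖) (hyv : |inner ℝ y v| ≤ κ * w) :
    m * (m / 4 * w) ≤ |inner ℝ x v| + κ * w := by
  have _ := g'
  have h1 := norm_cr_mul hx hy hg hxg hyg v
  have h2 : m * (m / 4 * w) ≤ ‖cr x y‖ * ‖cr v g‖ :=
    (mul_le_mul_of_nonneg_left hv hm.le).trans
      (mul_le_mul_of_nonneg_right hlow (norm_nonneg _))
  linarith

/-- the six lower bounds. -/
private theorem rs_low (h : Aln m κ w a b c ga gb gc) (hm : 0 < m) :
    (m * (m / 4 * w) ≤ |inner ℝ (a 0) gc| + κ * w ∧ m * (m / 4 * w) ≤ |inner ℝ (a 1) gb| + κ * w) ∧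
    (m * (m / 4 * w) ≤ |inner ℝ (b 0) ga| + κ * w ∧ m * (m / 4 * w) ≤ |inner ℝ (b 1) gc| + κ * w) ∧
    (m * (m / 4 * w) ≤ |inner ℝ (c 0) gb| + κ * w ∧
      m * (m / 4 * w) ≤ |inner ℝ (c 1) ga| + κ * w) := by
  have hab' : m / 4 * w ≤ ‖cr gb ga‖ := by rw [norm_cr_comm]; exact h.ab.1
  have hbc' : m / 4 * w ≤ ‖cr gc gb‖ := by rw [norm_cr_comm]; exact h.bc.1
  have hca' : m / 4 * w ≤ ‖cr ga gc‖ := by rw [norm_cr_comm]; exact h.ca.1
  have la' : m ≤ ‖cr (a 1) (a 0)‖ := by rw [norm_cr_comm]; exact h.rga.low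
  have lb' : m ≤ ‖cr (b 1) (b 0)‖ := by rw [norm_cr_comm]; exact h.rgb.low
  have lc' : m ≤ ‖cr (c 1) (c 0)‖ := by rw [norm_cr_comm]; exact h.rgc.low
  refine ⟨⟨?_, ?_⟩, ⟨?_, ?_⟩, ?_, ?_⟩
  · exact rs_one (g' := ga) hm (h.rga.u 0) (h.rga.u 1) h.rga.ug (h.rga.o 0) (h.rga.o 1) h.rga.low
      h.ca.1 h.a1
  · exact rs_one (g' := ga) hm (h.rga.u 1) (h.rga.u 0) h.rga.ug (h.rga.o 1) (h.rga.o 0) la'
      hab' h.a0
  · exact rs_one (g' := ga) hm (h.rgb.u 0) (h.rgb.u 1) h.rgb.ug (h.rgb.o 0) (h.rgb.o 1) h.rgb.low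
      h.ab.1 h.b1
  · exact rs_one (g' := ga) hm (h.rgb.u 1) (h.rgb.u 0) h.rgb.ug (h.rgb.o 1) (h.rgb.o 0) lb'
      hbc' h.b0
  · exact rs_one (g' := ga) hm (h.rgc.u 0) (h.rgc.u 1) h.rgc.ug (h.rgc.o 0) (h.rgc.o 1) h.rgc.low
      h.bc.1 h.c1
  · exact rs_one (g' := ga) hm (h.rgc.u 1) (h.rgc.u 0) h.rgc.ug (h.rgc.o 1) (h.rgc.o 0) lc'
      hca' h.c0

private theorem rs_dom {s t : ℝ} (h : |s| < |t|) : 0 < t * (t + s) := by
  have h1 : |t * s| < |t| * |t| := by
    rw [abs_mul]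
    exact mul_lt_mul_of_pos_left h ((abs_nonneg s).trans_lt h)
  have h2 := (abs_lt.1 h1).1
  rw [abs_mul_abs_self] at h2
  linarith

theorem r_sign (h : Aln m κ w a b c ga gb gc) (hl : Lin a b c) (hm : 0 < m) (hκ0 : 0 ≤ κ)
    (hκ : κ ≤ m ^ 2 / 32) (hX : Dir (a 0) (b 1) X) (h1 : dt X gb gc * dt ga X gc < 0)
    (h2 : |dt X gb gc| ≤ 2 * |dt ga X gc|) (h3 : |dt ga X gc| ≤ 2 * |dt X gb gc|) :
    0 < inner ℝ (c 0) gb * inner ℝ (c 1) ga := by
  have hw := h.wpos
  obtain ⟨-, -, hc0, hc1⟩ := rs_low h hm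
  set A := dt X gb gc with hA
  set B := dt ga X gc with hB
  set D := dt ga gb gc with hD
  have hA0 : A ≠ 0 := fun h0 => by rw [h0, zero_mul] at h1; exact lt_irrefl _ h1
  have hB0 : B ≠ 0 := fun h0 => by rw [h0, mul_zero] at h1; exact lt_irrefl _ h1
  have hcr : ∀ k, D * inner ℝ (c k) X = A * inner ℝ (c k) ga + B * inner ℝ (c k) gb := by
    intro k
    have e := congrArg (fun v => inner ℝ (c k) v) (cramer ga gb gc X)
    simp only [inner_add_right, inner_smul_right] at e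
    rw [h.rgc.o k, mul_zero, add_zero] at e
    exact e
  have hmw : 0 < m ^ 2 * w := by positivity
  have hκw : κ * w ≤ m ^ 2 / 32 * w := mul_le_mul_of_nonneg_right hκ hw.le
  -- the dominating terms
  have d0 : |A * inner ℝ (c 0) ga| < |B * inner ℝ (c 0) gb| := by
    rw [abs_mul, abs_mul]
    have e1 : |A| * |inner ℝ (c 0) ga| ≤ 2 * |B| * (m ^ 2 / 32 * w) :=
      mul_le_mul h2 (h.c0.trans hκw) (abs_nonneg _) (by positivity)
    have e2 : |B| * (m ^ 2 / 8 * w) ≤ |B| * |inner ℝ (c 0) gb| := by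
      refine mul_le_mul_of_nonneg_left ?_ (abs_nonneg _)
      nlinarith
    have e3 : 0 < |B| * (m ^ 2 * w) := mul_pos (abs_pos.2 hB0) hmw
    linarith
  have d1 : |B * inner ℝ (c 1) gb| < |A * inner ℝ (c 1) ga| := by
    rw [abs_mul, abs_mul]
    have e1 : |B| * |inner ℝ (c 1) gb| ≤ 2 * |A| * (m ^ 2 / 32 * w) :=
      mul_le_mul h3 (h.c1.trans hκw) (abs_nonneg _) (by positivity)
    have e2 : |A| * (m ^ 2 / 8 * w) ≤ |A| * |inner ℝ (c 1) ga| := by
      refine mul_le_mul_of_nonneg_left ?_ (abs_nonneg _)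
      nlinarith
    have e3 : 0 < |A| * (m ^ 2 * w) := mul_pos (abs_pos.2 hA0) hmw
    linarith
  have f0 := rs_dom d0
  have f1 := rs_dom d1
  rw [add_comm, ← hcr 0] at f0
  rw [← hcr 1] at f1
  -- the sign of the product
  have hsc := hl.sc 0 1
  obtain ⟨-, -, -, -, hXc⟩ := hX
  have e0 : ∀ k, dt (a 0) (b 1) (c k) = ‖cr (a 0) (b 1)‖ * inner ℝ X (c k) := by
    intro k
    rw [← cr_inner]
    conv_lhs => rw [hXc]
    rw [real_inner_smul_left]
  rw [e0, e0] at hsc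
  have hneg : inner ℝ (c 0) X * inner ℝ (c 1) X < 0 := by
    rw [real_inner_comm X (c 0), real_inner_comm X (c 1)] at *
    by_contra hcon
    push Not at hcon
    have e1 : 0 ≤ ‖cr (a 0) (b 1)‖ * ‖cr (a 0) (b 1)‖ * (inner ℝ X (c 0) * inner ℝ X (c 1)) :=
      mul_nonneg (mul_nonneg (norm_nonneg _) (norm_nonneg _)) (by linarith)
    nlinarith
  by_contra hcon
  push Not at hcon
  have g1 := mul_pos f0 f1
  have g2 : 0 ≤ A * B * (inner ℝ (c 0) gb * inner ℝ (c 1) ga) :=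
    mul_nonneg_of_nonpos_of_nonpos h1.le hcon
  have g3 : 0 ≤ A * B * (inner ℝ (c 0) gb * inner ℝ (c 1) ga) *
      (D * D * -(inner ℝ (c 0) X * inner ℝ (c 1) X)) :=
    mul_nonneg g2 (mul_nonneg (mul_self_nonneg D) (by linarith))
  have g4 : B * inner ℝ (c 0) gb * (D * inner ℝ (c 0) X) *
      (A * inner ℝ (c 1) ga * (D * inner ℝ (c 1) X)) =
      - (A * B * (inner ℝ (c 0) gb * inner ℝ (c 1) ga) *
      (D * D * -(inner ℝ (c 0) X * inner ℝ (c 1) X))) := by ring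
  linarith

theorem r_all (h : Aln m κ w a b c ga gb gc) (hl : Lin a b c) (hm : 0 < m) (hκ0 : 0 ≤ κ)
    (hκ : κ ≤ m ^ 2 / 32) (hA : 0 < inner ℝ (a 0) gc * inner ℝ (a 1) gb)
    (hB : 0 < inner ℝ (b 0) ga * inner ℝ (b 1) gc) (hC : 0 < inner ℝ (c 0) gb * inner ℝ (c 1) ga)
    (hAB : 0 < inner ℝ (a 0) gc * inner ℝ (b 0) ga)
    (hBC : 0 < inner ℝ (b 0) ga * inner ℝ (c 0) gb) : False := by
  have hw := h.wpos
  obtain ⟨⟨ha0, ha1⟩, ⟨hb0, hb1⟩, hc0, hc1⟩ := rs_low h hm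
  have hmw : 0 < m ^ 2 * w := by positivity
  have hκw : κ * w ≤ m ^ 2 / 32 * w := mul_le_mul_of_nonneg_right hκ hw.le
  have k0 := h.a0
  have k1 := h.a1
  have k2 := h.b0
  have k3 := h.b1
  have k4 := h.c0
  have k5 := h.c1
  have j0 : inner ℝ (a 0) (ga + gb + gc) = inner ℝ (a 0) gb + inner ℝ (a 0) gc := by
    rw [inner_add_right, inner_add_right, h.rga.o 0, zero_add]
  have j1 : inner ℝ (a 1) (ga + gb + gc) = inner ℝ (a 1) gb + inner ℝ (a 1) gc := by
    rw [inner_add_right, inner_add_right, h.rga.o 1, zero_add]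
  have j2 : inner ℝ (b 0) (ga + gb + gc) = inner ℝ (b 0) ga + inner ℝ (b 0) gc := by
    rw [inner_add_right, inner_add_right, h.rgb.o 0, add_zero]
  have j3 : inner ℝ (b 1) (ga + gb + gc) = inner ℝ (b 1) ga + inner ℝ (b 1) gc := by
    rw [inner_add_right, inner_add_right, h.rgb.o 1, add_zero]
  have j4 : inner ℝ (c 0) (ga + gb + gc) = inner ℝ (c 0) ga + inner ℝ (c 0) gb := by
    rw [inner_add_right, inner_add_right, h.rgc.o 0, add_zero]
  have j5 : inner ℝ (c 1) (ga + gb + gc) = inner ℝ (c 1) ga + inner ℝ (c 1) gb := by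
    rw [inner_add_right, inner_add_right, h.rgc.o 1, add_zero]
  rw [abs_le] at k0 k1 k2 k3 k4 k5
  rcases lt_or_gt_of_ne (show inner ℝ (a 0) gc ≠ 0 from fun h0 => by
    rw [h0, zero_mul] at hA; exact lt_irrefl _ hA) with hs | hs
  · -- all negative
    have s1 : inner ℝ (a 1) gb < 0 := by
      by_contra hcon; push Not at hcon
      linarith [mul_nonpos_of_nonpos_of_nonneg hs.le hcon]
    have s2 : inner ℝ (b 0) ga < 0 := by
      by_contra hcon; push Not at hcon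
      linarith [mul_nonpos_of_nonpos_of_nonneg hs.le hcon]
    have s3 : inner ℝ (b 1) gc < 0 := by
      by_contra hcon; push Not at hcon
      linarith [mul_nonpos_of_nonpos_of_nonneg s2.le hcon]
    have s4 : inner ℝ (c 0) gb < 0 := by
      by_contra hcon; push Not at hcon
      linarith [mul_nonpos_of_nonpos_of_nonneg s2.le hcon]
    have s5 : inner ℝ (c 1) ga < 0 := by
      by_contra hcon; push Not at hcon
      linarith [mul_nonpos_of_nonpos_of_nonneg s4.le hcon]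
    rw [abs_of_neg hs] at ha0
    rw [abs_of_neg s1] at ha1
    rw [abs_of_neg s2] at hb0
    rw [abs_of_neg s3] at hb1
    rw [abs_of_neg s4] at hc0
    rw [abs_of_neg s5] at hc1
    have i0 : inner ℝ (a 0) (ga + gb + gc) < 0 := by
      rw [j0]
      nlinarith [k0.2]
    refine hl.bd (ga + gb + gc) (fun h0 => ?_) ?_ ?_ ?_
    · rw [h0, inner_zero_right] at i0
      exact lt_irrefl _ i0
    · intro i
      fin_cases i
      · exact i0.le
      · change inner ℝ (a 1) (ga + gb + gc) ≤ 0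
        rw [j1]
        nlinarith [k1.2]
    · intro i
      fin_cases i
      · change inner ℝ (b 0) (ga + gb + gc) ≤ 0
        rw [j2]
        nlinarith [k2.2]
      · change inner ℝ (b 1) (ga + gb + gc) ≤ 0
        rw [j3]
        nlinarith [k3.2]
    · intro i
      fin_cases i
      · change inner ℝ (c 0) (ga + gb + gc) ≤ 0
        rw [j4]
        nlinarith [k4.2]
      · change inner ℝ (c 1) (ga + gb + gc) ≤ 0
        rw [j5]
        nlinarith [k5.2]
  · -- all positive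
    have s1 : 0 < inner ℝ (a 1) gb := by
      by_contra hcon; push Not at hcon
      linarith [mul_nonpos_of_nonneg_of_nonpos hs.le hcon]
    have s2 : 0 < inner ℝ (b 0) ga := by
      by_contra hcon; push Not at hcon
      linarith [mul_nonpos_of_nonneg_of_nonpos hs.le hcon]
    have s3 : 0 < inner ℝ (b 1) gc := by
      by_contra hcon; push Not at hcon
      linarith [mul_nonpos_of_nonneg_of_nonpos s2.le hcon]
    have s4 : 0 < inner ℝ (c 0) gb := by
      by_contra hcon; push Not at hcon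
      linarith [mul_nonpos_of_nonneg_of_nonpos s2.le hcon]
    have s5 : 0 < inner ℝ (c 1) ga := by
      by_contra hcon; push Not at hcon
      linarith [mul_nonpos_of_nonneg_of_nonpos s4.le hcon]
    rw [abs_of_pos hs] at ha0
    rw [abs_of_pos s1] at ha1
    rw [abs_of_pos s2] at hb0
    rw [abs_of_pos s3] at hb1
    rw [abs_of_pos s4] at hc0
    rw [abs_of_pos s5] at hc1
    have i0 : 0 < inner ℝ (a 0) (ga + gb + gc) := by
      rw [j0]
      nlinarith [k0.1]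
    refine hl.bd (-(ga + gb + gc)) (fun h0 => ?_) ?_ ?_ ?_
    · rw [neg_eq_zero.1 h0, inner_zero_right] at i0
      exact lt_irrefl _ i0
    · intro i
      rw [inner_neg_right, neg_nonpos]
      fin_cases i
      · exact i0.le
      · change 0 ≤ inner ℝ (a 1) (ga + gb + gc)
        rw [j1]
        nlinarith [k1.1]
    · intro i
      rw [inner_neg_right, neg_nonpos]
      fin_cases i
      · change 0 ≤ inner ℝ (b 0) (ga + gb + gc)
        rw [j2]
        nlinarith [k2.1]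
      · change 0 ≤ inner ℝ (b 1) (ga + gb + gc)
        rw [j3]
        nlinarith [k3.1]
    · intro i
      rw [inner_neg_right, neg_nonpos]
      fin_cases i
      · change 0 ≤ inner ℝ (c 0) (ga + gb + gc)
        rw [j4]
        nlinarith [k4.1]
      · change 0 ≤ inner ℝ (c 1) (ga + gb + gc)
        rw [j5]
        nlinarith [k5.1]

end UF.FP
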