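import Pool.Agent.Work.MP_4c5ddc_co.FP.Vec

/-!
# FP/Vli (S-M): linear independence and determinants

PROOF. `linInd3`: if `dt u v w ≠ 0` and `x • u + y • v + z • w = 0` then `x * dt u v w = 0` etc.
(`dt` is multilinear and alternating; `linearIndependent_fin3` or `Fintype.linearIndependent_iff`). Conversely if
`dt u v w = 0` but the three vectors are independent, they span `E3` (finrank 3), so every vector `x`
is a combination and `dt x v w = 0` for... : use instead: `cr v w` is orthogonal to `v, w` and (as `dt u v w = 0`)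
to `u`, hence `cr v w = 0` (orthogonal to the span); then `norm_cr_sq` and the equality case of
Cauchy-Schwarz (`v`, `w` dependent: `cr v (cr v w) = 0` gives `(inner v w) • v = ‖v‖ ^ 2 • w`), a contradiction.
`linInd2`: the same with `cr`. `exists_orth2`: `w = cr u v` if it is not zero; otherwise `u, v` are multiples
of one vector and any nonzero vector orthogonal to it works (`exists_orth1` by coordinates).
`zero_of_three`: Cramer for `inner`: `dt u v w • x = ...` or: if `inner u x = inner v x = inner w x = 0` then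
`dt u v w * ‖x‖ ^ 2 = 0`; use `cramer` with `v := x`: `dt u v w • x = dt x v w • u + dt u x w • v + dt u v x • w`,
take the inner product with `x`. `unit_pair`: for unit vectors `cr u v = 0` iff `v = u` or `v = -u`
(`‖cr u v‖ ^ 2 = 1 - (inner u v) ^ 2`, equality in Cauchy-Schwarz `inner_eq_one_iff_of_norm_one`).
-/

set_option autoImplicit false

namespace UF.FP

private theorem e3' {u v : E3} (h0 : u 0 = v 0) (h1 : u 1 = v 1) (h2 : u 2 = v 2) : u = v := by
  ext i
  fin_cases i
  · exact h0
  · exact h1
  · exact h2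

theorem linInd3 {u v w : E3} : LinearIndependent ℝ ![u, v, w] ↔ dt u v w ≠ 0 := by
  have hdet : (!![u 0, u 1, u 2; v 0, v 1, v 2; w 0, w 1, w 2] : Matrix (Fin 3) (Fin 3) ℝ).det =
      dt u v w := by
    rw [Matrix.det_fin_three]
    simp only [dt, Matrix.of_apply, Matrix.cons_val', Matrix.cons_val_zero, Matrix.cons_val_one,
      Matrix.cons_val, Matrix.cons_val_fin_one]
    ring
  have hrel : ∀ g : Fin 3 → ℝ, ∑ i, g i • (![u, v, w] : Fin 3 → E3) i = 0 ↔
      Matrix.vecMul g (!![u 0, u 1, u 2; v 0, v 1, v 2; w 0, w 1, w 2] :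
        Matrix (Fin 3) (Fin 3) ℝ) = 0 := by
    intro g
    have h1 : ∀ j : Fin 3, (∑ i, g i • (![u, v, w] : Fin 3 → E3) i) j =
        Matrix.vecMul g (!![u 0, u 1, u 2; v 0, v 1, v 2; w 0, w 1, w 2] :
          Matrix (Fin 3) (Fin 3) ℝ) j := by
      intro j
      fin_cases j <;>
      simp [Fin.sum_univ_three, Matrix.vecMul, dotProduct]
    constructor
    · intro h
      funext j
      rw [← h1 j, h]
      rfl
    · intro h
      ext j
      rw [h1 j, h]
      rfl
  rw [Fintype.linearIndependent_iff, ← hdet]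
  rw [Ne, ← Matrix.exists_vecMul_eq_zero_iff]
  constructor
  · rintro h ⟨g, hg, hg'⟩
    exact hg (funext (h g ((hrel g).2 hg')))
  · intro h g hg
    by_contra hc
    refine h ⟨g, ?_, (hrel g).1 hg⟩
    rintro rfl
    exact hc fun _ => rfl

theorem linInd2 {u v : E3} : LinearIndependent ℝ ![u, v] ↔ cr u v ≠ 0 := by
  rw [LinearIndependent.pair_iff]
  constructor
  · intro h h0
    have h1 := cr_cr_right v u v
    have hz : cr v (0 : E3) = 0 := by
      have := cr_smul_right 0 v v
      rwa [zero_smul, zero_smul] at this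
    rw [h0, hz] at h1
    have h2 := h (inner ℝ v v) (-inner ℝ v u) (by rw [neg_smul, ← sub_eq_add_neg, ← h1])
    have h3 : v = 0 := inner_self_eq_zero.1 h2.1
    have h4 := h 0 1 (by rw [h3, zero_smul, smul_zero, add_zero])
    exact one_ne_zero h4.2
  · intro h s t hst
    constructor
    · have h1 : cr (s • u + t • v) v = s • cr u v := by
        rw [cr_add_left, cr_smul_left, cr_smul_left, cr_self, smul_zero, add_zero]
      have hz : cr (0 : E3) v = 0 := by
        have := cr_smul_left 0 v v
        rwa [zero_smul, zero_smul] at this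
      rw [hst, hz] at h1
      exact (smul_eq_zero.1 h1.symm).resolve_right h
    · have h1 : cr u (s • u + t • v) = t • cr u v := by
        rw [cr_add_right, cr_smul_right, cr_smul_right, cr_self, smul_zero, zero_add]
      have hz : cr u (0 : E3) = 0 := by
        have := cr_smul_right 0 u u
        rwa [zero_smul, zero_smul] at this
      rw [hst, hz] at h1
      exact (smul_eq_zero.1 h1.symm).resolve_right h

theorem exists_orth2 (u v : E3) : ∃ w : E3, w ≠ 0 ∧ inner ℝ u w = 0 ∧ inner ℝ v w = 0 := by
  set f : E3 →ₗ[ℝ] (ℝ × ℝ) := (innerₗ E3 u).prod (innerₗ E3 v) with hf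
  have h1 : Module.finrank ℝ (ℝ × ℝ) < Module.finrank ℝ E3 := by
    rw [Module.finrank_prod, Module.finrank_self, finrank_euclideanSpace_fin]
    norm_num
  have h2 := LinearMap.ker_ne_bot_of_finrank_lt (f := f) h1
  obtain ⟨w, hw, hw0⟩ := (Submodule.ne_bot_iff _).1 h2
  rw [LinearMap.mem_ker] at hw
  refine ⟨w, hw0, ?_, ?_⟩
  · exact congrArg Prod.fst hw
  · exact congrArg Prod.snd hw

theorem zero_of_three {u v w x : E3} (h : dt u v w ≠ 0) (hu : inner ℝ u x = 0)
    (hv : inner ℝ v x = 0) (hw : inner ℝ w x = 0) : x = 0 := by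
  have h1 := congrArg (fun y : E3 => inner ℝ y x) (cramer u v w x)
  simp only [inner_add_left, inner_smul_left, conj_trivial, hu, hv, hw, mul_zero, add_zero] at h1
  exact inner_self_eq_zero.1 ((mul_eq_zero.1 h1).resolve_left h)

theorem unit_pair {u v : E3} (hu : ‖u‖ = 1) (hv : ‖v‖ = 1) : cr u v = 0 ↔ v = u ∨ v = -u := by
  constructor
  · intro h
    have h1 := cr_cr_right u u v
    have hz : cr u (0 : E3) = 0 := by
      have := cr_smul_right 0 u u
      rwa [zero_smul, zero_smul] at this
    rw [h, hz, real_inner_self_eq_norm_sq, hu, one_pow, one_smul] at h1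
    have h2 : v = (inner ℝ u v) • u := (sub_eq_zero.1 h1.symm).symm
    have h3 : |inner ℝ u v| = 1 := by
      have := congrArg norm h2
      rw [norm_smul, hu, hv, mul_one, Real.norm_eq_abs] at this
      exact this.symm
    rcases (abs_eq zero_le_one).1 h3 with h4 | h4
    · left
      rw [h2, h4, one_smul]
    · right
      rw [h2, h4, neg_smul, one_smul]
  · rintro (rfl | rfl)
    · exact cr_self _
    · have h1 := cr_smul_right (-1) u u
      rwa [neg_smul, one_smul, cr_self, smul_zero] at h1

/-- a vector orthogonal to `u` and `v` is a multiple of `cr u v`. -/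
theorem smul_of_orth {u v x : E3} (h : cr u v ≠ 0) (hu : inner ℝ u x = 0) (hv : inner ℝ v x = 0) :
    ∃ t : ℝ, x = t • cr u v := by
  have hw : inner ℝ (cr u v) (cr u v) ≠ 0 := fun h0 => h (inner_self_eq_zero.1 h0)
  refine ⟨inner ℝ (cr u v) x / inner ℝ (cr u v) (cr u v), ?_⟩
  have h1 : dt u v (cr u v) ≠ 0 := by
    rwa [← cr_inner]
  refine sub_eq_zero.1 (zero_of_three h1 ?_ ?_ ?_)
  · rw [inner_sub_right, inner_smul_right, hu, inner_cr u u v, dt_self12, mul_zero, sub_zero]
  · rw [inner_sub_right, inner_smul_right, hv, inner_cr v u v, dt_self13, mul_zero, sub_zero]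
  · rw [inner_sub_right, inner_smul_right, div_mul_cancel₀ _ hw, sub_self]

/-- If no nonzero vector is orthogonal to the set `S` then `S` contains three vectors with nonzero
determinant. -/
theorem exists_three {S : Set E3} (h : ∀ w : E3, w ≠ 0 → ∃ u ∈ S, inner ℝ u w ≠ 0) :
    ∃ u ∈ S, ∃ v ∈ S, ∃ w ∈ S, dt u v w ≠ 0 := by
  obtain ⟨w0, hw0, -, -⟩ := exists_orth2 0 0
  obtain ⟨u, hu, hu0⟩ := h w0 hw0
  obtain ⟨w1, hw1, huw, -⟩ := exists_orth2 u u
  obtain ⟨v, hv, hv0⟩ := h w1 hw1
  have hc : cr u v ≠ 0 := by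
    intro h0
    have h1 := cr_cr_right u u v
    have hz : cr u (0 : E3) = 0 := by
      have := cr_smul_right 0 u u
      rwa [zero_smul, zero_smul] at this
    rw [h0, hz] at h1
    have h2 := congrArg (fun y : E3 => inner ℝ y w1) h1
    simp only [inner_zero_left, inner_sub_left, inner_smul_left, conj_trivial, huw, mul_zero,
      zero_sub] at h2
    have h3 : inner ℝ u u = 0 := by
      rcases mul_eq_zero.1 (neg_eq_zero.1 h2.symm) with h4 | h4
      · exact h4
      · exact absurd h4 hv0
    have h4 : u = 0 := inner_self_eq_zero.1 h3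
    rw [h4, inner_zero_left] at hu0
    exact hu0 rfl
  obtain ⟨w, hw, hw0'⟩ := h (cr u v) hc
  refine ⟨u, hu, v, hv, w, hw, ?_⟩
  rw [dt_rot w u v, ← inner_cr]
  exact hw0'

end UF.FP
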