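import Pool.Agent.Work.MP_4c5ddc_co.FP.Sym
import Pool.Agent.Work.MP_4c5ddc_co.FP.Vli
import Pool.Agent.Work.MP_4c5ddc_co.FP.CmpN
import Pool.Agent.Work.MP_4c5ddc_co.FP.RMix
import Pool.Agent.Work.MP_4c5ddc_co.FP.RE
import Pool.Agent.Work.MP_4c5ddc_co.FP.RFar
import Pool.Agent.Work.MP_4c5ddc_co.FP.RSign
import Pool.Agent.Work.MP_4c5ddc_co.FP.RExt

/-!
# FP/RCase (M-L): the local lemma if no body is flat (assembly)

PROOF. `κ = m ^ 3 / 2048`, `c₂ = m ^ 3 / 2048`. `r_al` (aligned cubes): for the pair `(a, b)` take the direction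
`X` of `cr (a 0) (b 1)` (nonzero, because `dt (a 0) (b 1) (c 0) ≠ 0` by `Lin.sc`; `exists_dir`). If
`c₂ w ≤ ‖cr X gb‖ ≤ w / c₂` then `r_E` gives `Frm K (a 0) (flp b) c`, so `Fr K a b c` (`Frm.flip`). If
`c₂ w ≤ ‖cr X ga‖ ≤ w / c₂` then apply `r_E` to the reflected position `Aln.refl` (`flp b, flp a, flp c, gb, ga, gc`; the
direction of `cr (b 1) (a 0)` is `- X`) and get `Frm K (b 1) (flp (flp a)) (flp c)`, hence `Fr K a b c`. The same
for the pairs `(b, c)`, `(c, a)` with `Aln.rot` (and `Lin.rot`, `Fr.rot`). So suppose that all these ranges fail for all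
three pairs. By `far_of` `w < c₂ < 1 / 8`. ORIENTATION: replace `gb` by `- gb` if `inner ga gb < 0` and
`gc` by `- gc` if `inner ga gc < 0` (`Aln.negb`, `Aln.negc`; the norms `‖cr X gb‖` do not change). Then
`‖ga - gb‖ ≤ 2 w`, `‖ga - gc‖ ≤ 2 w` (`norm_sub_le_cr`), so `‖gb - gc‖ ≤ 4 w ≤ 1` and `0 ≤ inner gb gc`
(`‖gb - gc‖ ^ 2 = 2 - 2 inner gb gc`). Apply `r_far` to the three rotations (the inner products are symmetric) and `r_sign` to the three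
rotations: (using `dt_rot`) `0 < (c 0 · gb)(c 1 · ga)`, `0 < (a 0 · gc)(a 1 · gb)`, `0 < (b 0 · ga)(b 1 · gc)`. The three
numbers `a 0 · gc, b 0 · ga, c 0 · gb` are not zero (`aln_low`). If they have the same sign: `r_all`. Otherwise exactly one
has a sign different from the two others; if it is `c 0 · gb` apply `r_ext`: for `hbc` a vector `v` orthogonal to
`b 0` and `c 1` is a multiple of the direction `X` of the pair `(b, c)` (`smul_of_orth`, `Dir`), and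
`r_far` for that pair says `|dt gb X ga| ≤ 2 |dt X gc ga|`, i.e. `|dt ga gb X| ≤ 2 |dt ga X gc|`; the same for `hca` with the pair
`(c, a)`: `|dt X ga gb| ≤ 2 |dt gc X gb|`. If it is `a 0 · gc` or `b 0 · ga` apply `r_ext` to a rotation of the cube and the position.
`r_case`: choose `ga, gb, gc` with `exists_rg`; `r_mix` gives a facet with (N), then `cmp_of_N` (and `Frm.symm` where the
order of the two other colours is different) or an aligned position for the flipped cube (`Cube.flip` and rotations), and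
`Fr.flip`.
-/

set_option autoImplicit false

namespace UF.FP

private theorem rc_num {m : ℝ} (hm : 0 < m) (hm1 : m ≤ 1) : 0 < m ^ 3 / 2048 ∧
    m ^ 3 / 2048 ≤ m ^ 2 / 2048 ∧ m ^ 3 / 2048 ≤ m / 2048 ∧ m ^ 3 / 2048 ≤ 1 / 2048 ∧
    m ^ 3 / 2048 ≤ m ^ 3 / 200 ∧ m ^ 3 / 2048 ≤ m ^ 2 / 32 ∧ m ^ 3 / 2048 ≤ m ^ 2 / 16 := by
  have h1 : m ^ 3 ≤ m ^ 2 := pow_le_pow_of_le_one hm.le hm1 (by norm_num)
  have h2 : m ^ 3 ≤ m := by
    have := pow_le_pow_of_le_one hm.le hm1 (show 1 ≤ 3 by norm_num)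
    rwa [pow_one] at this
  have h3 : m ^ 3 ≤ 1 := pow_le_one₀ hm.le hm1
  have h4 : 0 < m ^ 3 := by positivity
  have h5 : 0 < m ^ 2 := by positivity
  refine ⟨by positivity, ?_, ?_, ?_, ?_, ?_, ?_⟩ <;> linarith

/-- one pair of colours: comparable frames or the far range. -/
private theorem rc_pair {m K w : ℝ} (hm : 0 < m) (hm1 : m ≤ 1)
    (hE : ∀ (κ w : ℝ) (a b c : Fin 2 → E3) (ga gb gc X : E3), Aln m κ w a b c ga gb gc → 0 ≤ κ →
      κ ≤ m ^ 2 / 16 → Dir (a 0) (b 1) X → m ^ 3 / 2048 * w ≤ ‖cr X gb‖ →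
      ‖cr X gb‖ ≤ w / (m ^ 3 / 2048) → Frm K (a 0) (flp b) c)
    {a b c : Fin 2 → E3} {ga gb gc : E3} (hl : Lin a b c)
    (h : Aln m (m ^ 3 / 2048) w a b c ga gb gc) :
    Fr K a b c ∨ ∃ X, Dir (a 0) (b 1) X ∧ w / (m ^ 3 / 2048) < ‖cr X gb‖ ∧
      w / (m ^ 3 / 2048) < ‖cr X ga‖ ∧ w < m ^ 3 / 2048 := by
  obtain ⟨hc0, -, hc1, -, -, -, hc16⟩ := rc_num hm hm1
  have hne : cr (a 0) (b 1) ≠ 0 := by
    intro h0
    have h1 := hl.sc 0 1
    rw [← cr_inner, h0, inner_zero_left, zero_mul] at h1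
    exact lt_irrefl _ h1
  obtain ⟨X, hX⟩ := exists_dir hne
  by_cases h1 : m ^ 3 / 2048 * w ≤ ‖cr X gb‖ ∧ ‖cr X gb‖ ≤ w / (m ^ 3 / 2048)
  · left
    exact Or.inl ⟨0, (hE _ w a b c ga gb gc X h hc0.le hc16 hX h1.1 h1.2).flip⟩
  by_cases h2 : m ^ 3 / 2048 * w ≤ ‖cr X ga‖ ∧ ‖cr X ga‖ ≤ w / (m ^ 3 / 2048)
  · left
    have hX' : Dir ((flp b) 0) ((flp a) 1) (-X) := by
      obtain ⟨x1, x2, x3, x4, x5⟩ := hX
      have e1 : (flp b) 0 = b 1 := rfl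
      have e2 : (flp a) 1 = a 0 := rfl
      rw [e1, e2]
      refine ⟨by rw [norm_neg]; exact x1, by rw [inner_neg_right, x3, neg_zero],
        by rw [inner_neg_right, x2, neg_zero], ?_, ?_⟩
      · rw [cr_anti]
        exact neg_ne_zero.2 x4
      · rw [norm_cr_comm, cr_anti, smul_neg]
        rw [← x5]
    have e3 : ‖cr (-X) ga‖ = ‖cr X ga‖ := by
      have : -X = (-1 : ℝ) • X := by rw [neg_one_smul]
      rw [this, cr_smul_left, norm_smul, norm_neg, norm_one, one_mul]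
    have h3 := hE _ w (flp b) (flp a) (flp c) gb ga gc (-X) h.refl hc0.le hc16 hX'
      (by rw [e3]; exact h2.1) (by rw [e3]; exact h2.2)
    have h4 : Frm K (b 1) a c := h3.flip.flip.symm.flip.symm
    exact Or.inr (Or.inl ⟨1, h4⟩)
  · right
    obtain ⟨k1, k2, k3⟩ := far_of h hm hm1 hc0 (by linarith) hX h1 h2
    exact ⟨X, hX, k1, k2, k3⟩

/-- exactly one sign differs. -/
private theorem rc_one {m w : ℝ} (hm : 0 < m) (hm1 : m ≤ 1) {a b c : Fin 2 → E3}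
    {A B C : Fin 2 → ℝ} {p : Fin 2 → Fin 2 → Fin 2 → E3} {ga gb gc Y Z : E3}
    (hc : Cube a b c A B C p) (h : Aln m (m ^ 3 / 2048) w a b c ga gb gc)
    (hA : 0 < inner ℝ (a 0) gc * inner ℝ (a 1) gb) (hC : 0 < inner ℝ (c 0) gb * inner ℝ (c 1) ga)
    (hAC : inner ℝ (a 0) gc * inner ℝ (c 0) gb < 0) (hBC : inner ℝ (b 0) ga * inner ℝ (c 0) gb < 0)
    (hY : Dir (b 0) (c 1) Y) (hY2 : |dt gb Y ga| ≤ 2 * |dt Y gc ga|)
    (hZ : Dir (c 0) (a 1) Z) (hZ2 : |dt Z ga gb| ≤ 2 * |dt gc Z gb|) : False := by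
  obtain ⟨hc0, -, -, -, h200, -, -⟩ := rc_num hm hm1
  refine r_ext hc h hm hm1 hc0.le h200 hA hC hAC hBC ?_ ?_
  · intro v hv1 hv2
    obtain ⟨-, -, -, y4, y5⟩ := hY
    obtain ⟨t, ht⟩ := smul_of_orth y4 hv1 hv2
    rw [y5, smul_smul] at ht
    obtain ⟨r, hr⟩ : ∃ r : ℝ, v = r • Y := ⟨_, ht⟩
    rw [hr, dt_smul3, dt_smul2, abs_mul, abs_mul, ← dt_rot ga gb Y, ← dt_rot ga Y gc]
    have h1 := mul_le_mul_of_nonneg_left hY2 (abs_nonneg r)
    linarith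
  · intro v hv1 hv2
    obtain ⟨-, -, -, y4, y5⟩ := hZ
    obtain ⟨t, ht⟩ := smul_of_orth y4 hv1 hv2
    rw [y5, smul_smul] at ht
    obtain ⟨r, hr⟩ : ∃ r : ℝ, v = r • Z := ⟨_, ht⟩
    rw [hr, dt_smul3, dt_smul1, abs_mul, abs_mul, dt_rot Z ga gb, dt_rot gc Z gb]
    have h1 := mul_le_mul_of_nonneg_left hZ2 (abs_nonneg r)
    linarith

/-- the far case, oriented. -/
private theorem rc_core {m w : ℝ} (hm : 0 < m) (hm1 : m ≤ 1) {a b c : Fin 2 → E3}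
    {A B C : Fin 2 → ℝ} {p : Fin 2 → Fin 2 → Fin 2 → E3} {ga gb gc X Y Z : E3}
    (hc : Cube a b c A B C p) (h : Aln m (m ^ 3 / 2048) w a b c ga gb gc)
    (hX : Dir (a 0) (b 1) X) (hX1 : w / (m ^ 3 / 2048) < ‖cr X gb‖)
    (hX2 : w / (m ^ 3 / 2048) < ‖cr X ga‖) (hY : Dir (b 0) (c 1) Y)
    (hY1 : w / (m ^ 3 / 2048) < ‖cr Y gc‖) (hY2 : w / (m ^ 3 / 2048) < ‖cr Y gb‖)
    (hZ : Dir (c 0) (a 1) Z) (hZ1 : w / (m ^ 3 / 2048) < ‖cr Z ga‖)
    (hZ2 : w / (m ^ 3 / 2048) < ‖cr Z gc‖) (hw : w < m ^ 3 / 2048) (hab : 0 ≤ inner ℝ ga gb)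
    (hac : 0 ≤ inner ℝ ga gc) : False := by
  obtain ⟨hc0, -, hc8, hc1, h200, h32, -⟩ := rc_num hm hm1
  have hbc : 0 ≤ inner ℝ gb gc := by
    have h1 := norm_sub_le_cr h.rga.ug h.rgb.ug hab
    have h2 := norm_sub_le_cr h.rga.ug h.rgc.ug hac
    rw [norm_cr_comm] at h2
    have h3 : ‖gb - gc‖ ≤ 4 * w := by
      have h4 : gb - gc = (ga - gc) - (ga - gb) := by abel
      rw [h4]
      refine (norm_sub_le _ _).trans ?_
      linarith [h.ab.2, h.ca.2]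
    have h5 : ‖gb - gc‖ ^ 2 ≤ 1 := by
      refine pow_le_one₀ (norm_nonneg _) ?_
      linarith
    rw [norm_sub_sq_real, h.rgb.ug, h.rgc.ug] at h5
    linarith
  have hca : 0 ≤ inner ℝ gc ga := by
    rw [real_inner_comm]
    exact hac
  obtain ⟨x1, x2, x3⟩ := r_far h hm hm1 hc0.le le_rfl hc0 le_rfl hX hX1 hX2 hab
  obtain ⟨y1, y2, y3⟩ := r_far h.rot hm hm1 hc0.le le_rfl hc0 le_rfl hY hY1 hY2 hbc
  obtain ⟨z1, z2, z3⟩ := r_far h.rot.rot hm hm1 hc0.le le_rfl hc0 le_rfl hZ hZ1 hZ2 hca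
  have sC := r_sign h hc.lin hm hc0.le h32 hX x1 x2 x3
  have sA := r_sign h.rot hc.lin.rot hm hc0.le h32 hY y1 y2 y3
  have sB := r_sign h.rot.rot hc.lin.rot.rot hm hc0.le h32 hZ z1 z2 z3
  have nA : inner ℝ (a 0) gc ≠ 0 := fun h0 => by rw [h0, zero_mul] at sA; exact lt_irrefl _ sA
  have nB : inner ℝ (b 0) ga ≠ 0 := fun h0 => by rw [h0, zero_mul] at sB; exact lt_irrefl _ sB
  have nC : inner ℝ (c 0) gb ≠ 0 := fun h0 => by rw [h0, zero_mul] at sC; exact lt_irrefl _ sC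
  have fin1 : inner ℝ (a 0) gc * inner ℝ (c 0) gb < 0 → inner ℝ (b 0) ga * inner ℝ (c 0) gb < 0 →
      False := fun k1 k2 => rc_one hm hm1 hc h sA sC k1 k2 hY y3 hZ z2
  have fin2 : inner ℝ (b 0) ga * inner ℝ (a 0) gc < 0 → inner ℝ (c 0) gb * inner ℝ (a 0) gc < 0 →
      False := fun k1 k2 => rc_one hm hm1 hc.rot h.rot sB sA k1 k2 hZ z3 hX x2
  have fin3 : inner ℝ (c 0) gb * inner ℝ (b 0) ga < 0 → inner ℝ (a 0) gc * inner ℝ (b 0) ga < 0 →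
      False := fun k1 k2 => rc_one hm hm1 hc.rot.rot h.rot.rot sC sB k1 k2 hX x3 hY y2
  rcases lt_or_gt_of_ne nA with qA | qA <;> rcases lt_or_gt_of_ne nB with qB | qB <;>
    rcases lt_or_gt_of_ne nC with qC | qC
  · exact r_all h hc.lin hm hc0.le h32 sA sB sC (mul_pos_of_neg_of_neg qA qB)
      (mul_pos_of_neg_of_neg qB qC)
  · exact fin1 (mul_neg_of_neg_of_pos qA qC) (mul_neg_of_neg_of_pos qB qC)
  · exact fin3 (mul_neg_of_neg_of_pos qC qB) (mul_neg_of_neg_of_pos qA qB)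
  · exact fin2 (mul_neg_of_pos_of_neg qB qA) (mul_neg_of_pos_of_neg qC qA)
  · exact fin2 (mul_neg_of_neg_of_pos qB qA) (mul_neg_of_neg_of_pos qC qA)
  · exact fin3 (mul_neg_of_pos_of_neg qC qB) (mul_neg_of_pos_of_neg qA qB)
  · exact fin1 (mul_neg_of_pos_of_neg qA qC) (mul_neg_of_pos_of_neg qB qC)
  · exact r_all h hc.lin hm hc0.le h32 sA sB sC (mul_pos qA qB) (mul_pos qB qC)

private theorem rc_neg (X g : E3) : ‖cr X (-g)‖ = ‖cr X g‖ := by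
  have : -g = (-1 : ℝ) • g := by rw [neg_one_smul]
  rw [this, cr_smul_right, norm_smul, norm_neg, norm_one, one_mul]

theorem r_al {m : ℝ} (hm : 0 < m) (hm1 : m ≤ 1) : ∃ K : ℝ, ∀ (w : ℝ) (a b c : Fin 2 → E3)
    (A B C : Fin 2 → ℝ) (p : Fin 2 → Fin 2 → Fin 2 → E3) (ga gb gc : E3), Cube a b c A B C p →
    Aln m (m ^ 3 / 2048) w a b c ga gb gc → Fr K a b c := by
  obtain ⟨hc0, -, -, -, -, -, -⟩ := rc_num hm hm1
  obtain ⟨K, hE⟩ := r_E hm hm1 hc0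
  refine ⟨K, ?_⟩
  intro w a b c A B C p ga gb gc hc h
  by_contra hcon
  obtain ⟨X, hX, hX1, hX2, hw⟩ := (rc_pair hm hm1 hE hc.lin h).resolve_left hcon
  obtain ⟨Y, hY, hY1, hY2, -⟩ := (rc_pair hm hm1 hE hc.lin.rot h.rot).resolve_left
    (fun h1 => hcon h1.rot)
  obtain ⟨Z, hZ, hZ1, hZ2, -⟩ := (rc_pair hm hm1 hE hc.lin.rot.rot h.rot.rot).resolve_left
    (fun h1 => hcon h1.rot.rot)
  rcases le_total 0 (inner ℝ ga gb) with hab | hab
  · rcases le_total 0 (inner ℝ ga gc) with hac | hac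
    · exact rc_core hm hm1 hc h hX hX1 hX2 hY hY1 hY2 hZ hZ1 hZ2 hw hab hac
    · exact rc_core hm hm1 hc h.negc hX hX1 hX2 hY (by rwa [rc_neg]) hY2 hZ hZ1
        (by rwa [rc_neg]) hw hab (by rw [inner_neg_right]; linarith)
  · rcases le_total 0 (inner ℝ ga gc) with hac | hac
    · exact rc_core hm hm1 hc h.negb hX (by rwa [rc_neg]) hX2 hY hY1 (by rwa [rc_neg]) hZ hZ1 hZ2
        hw (by rw [inner_neg_right]; linarith) hac
    · exact rc_core hm hm1 hc h.negb.negc hX (by rwa [rc_neg]) hX2 hY (by rwa [rc_neg])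
        (by rwa [rc_neg]) hZ hZ1 (by rwa [rc_neg]) hw (by rw [inner_neg_right]; linarith)
        (by rw [inner_neg_right]; linarith)

private def rcCube (a b c : Fin 2 → E3) : Prop :=
  ∃ (A B C : Fin 2 → ℝ) (p : Fin 2 → Fin 2 → Fin 2 → E3), Cube a b c A B C p

private theorem rcCube_rot {a b c : Fin 2 → E3} (h : rcCube a b c) : rcCube b c a := by
  obtain ⟨A, B, C, p, h⟩ := h
  exact ⟨_, _, _, _, h.rot⟩

private theorem rcCube_flb {a b c : Fin 2 → E3} (e : Bool) (h : rcCube a b c) :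
    rcCube (flb e a) b c := by
  obtain ⟨A, B, C, p, h⟩ := h
  cases e
  · exact ⟨_, _, _, _, h⟩
  · exact ⟨_, _, _, _, h.flip⟩

private theorem rcFr_flb {K : ℝ} {a b c : Fin 2 → E3} (e : Bool) (h : Fr K (flb e a) b c) :
    Fr K a b c := by
  cases e
  · exact h
  · exact h.flip

theorem r_case {m : ℝ} (hm : 0 < m) (hm1 : m ≤ 1) : ∃ K : ℝ, ∀ (a b c : Fin 2 → E3)
    (A B C : Fin 2 → ℝ) (p : Fin 2 → Fin 2 → Fin 2 → E3), Cube a b c A B C p →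
    m ≤ ‖cr (a 0) (a 1)‖ → m ≤ ‖cr (b 0) (b 1)‖ → m ≤ ‖cr (c 0) (c 1)‖ → Fr K a b c := by
  obtain ⟨hc0, -, -, -, -, -, hc16⟩ := rc_num hm hm1
  obtain ⟨K₂, hK₂⟩ := r_al hm hm1
  set K₁ : ℝ := (1 + 1 / (m ^ 3 / 2048)) ^ 2 / m ^ 2 with hK₁
  refine ⟨max K₁ K₂, ?_⟩
  intro a b c A B C p hc ha hb hcc
  obtain ⟨ga, hga⟩ := exists_rg hc.lin.ua hm ha
  obtain ⟨gb, hgb⟩ := exists_rg hc.lin.ub hm hb
  obtain ⟨gc, hgc⟩ := exists_rg hc.lin.uc hm hcc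
  rcases r_mix hm hm1 hc0 hc16 hga hgb hgc with ⟨i, hi⟩ | ⟨j, hj⟩ | ⟨k, hk⟩ | ⟨w, ea, eb, ec, h⟩
  · exact Or.inl ⟨i, (cmp_of_N hm hc0 (hc.lin.ua i) hgb hgc hi).mono (le_max_left _ _)⟩
  · exact Or.inr (Or.inl ⟨j,
      (cmp_of_N hm hc0 (hc.lin.ub j) hgc hga hj).symm.mono (le_max_left _ _)⟩)
  · exact Or.inr (Or.inr ⟨k,
      (cmp_of_N hm hc0 (hc.lin.uc k) hga hgb hk).mono (le_max_left _ _)⟩)
  · have h0 : rcCube a b c := ⟨A, B, C, p, hc⟩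
    have h1 : rcCube (flb ea a) b c := rcCube_flb ea h0
    have h2 : rcCube (flb eb b) c (flb ea a) := rcCube_flb eb (rcCube_rot h1)
    have h3 : rcCube (flb ec c) (flb ea a) (flb eb b) := rcCube_flb ec (rcCube_rot h2)
    obtain ⟨A', B', C', p', h4⟩ := rcCube_rot h3
    have f0 := hK₂ w _ _ _ A' B' C' p' ga gb gc h4 h
    have f1 : Fr K₂ a (flb eb b) (flb ec c) := rcFr_flb ea f0
    have f2 : Fr K₂ (flb eb b) (flb ec c) a := f1.rot.rot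
    have f3 : Fr K₂ b (flb ec c) a := rcFr_flb eb f2
    have f4 : Fr K₂ (flb ec c) a b := f3.rot.rot
    have f5 : Fr K₂ c a b := rcFr_flb ec f4
    exact (f5.rot.rot).mono (le_max_right _ _)

end UF.FP
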