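import Pool.Agent.Work.MP_4c5ddc_co.FP.Flat
import Pool.Agent.Work.MP_4c5ddc_co.FP.RCase
import Pool.Agent.Work.MP_4c5ddc_co.FP.FCase

/-!
# FP/Local (S-M): the local lemma for cubes without slabs (assembly)

PROOF. We may assume `k ≤ 1` (replace `k` by `min k 1`). `m = k ^ 3 / 200`. By `norm_cr_eq`
`‖cr (x 0) (x 1)‖ = ‖x 0 - x 1‖ * ‖x 0 + x 1‖ / 2`. If the three numbers `‖x 0 - x 1‖` are at least
`ϑ = m ^ 2 / 200` then the three cross products have norm `≥ ϑ k / 2` and `r_case` applies (with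
`ϑ k / 2`). Otherwise one of them, after a rotation (`Lin.rot`, `Fr.rot`) `‖a 0 - a 1‖`, is less than
`ϑ ≤ k ^ 2 / 100`. By `flat_lemma` (third body `c`) `‖b 0 - b 1‖ > k ^ 2 / 100`, and by
`flat_lemma` for `Lin a c b` (third body `b`) `‖c 0 - c 1‖ > k ^ 2 / 100`. So the cross products of `b` and `c` have
norm `≥ (k ^ 2 / 100) k / 2 = m`, and `f_case` applies. Take the maximum of the constants (`Fr.mono`).
-/

set_option autoImplicit false

namespace UF.FP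

theorem local_lemma {k : ℝ} (hk : 0 < k) : ∃ K : ℝ, ∀ (a b c : Fin 2 → E3)
    (A B C : Fin 2 → ℝ) (p : Fin 2 → Fin 2 → Fin 2 → E3), Cube a b c A B C p →
    k ≤ ‖a 0 + a 1‖ → k ≤ ‖b 0 + b 1‖ → k ≤ ‖c 0 + c 1‖ → Fr K a b c := by
  obtain ⟨q, hq0, hq1, hqk⟩ : ∃ q : ℝ, 0 < q ∧ q ≤ 1 ∧ q ≤ k :=
    ⟨min k 1, lt_min hk one_pos, min_le_right _ _, min_le_left _ _⟩
  have hq2 : q ^ 3 ≤ 1 := pow_le_one₀ hq0.le hq1
  have hm0 : 0 < q ^ 3 / 200 := by positivity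
  have hm1 : q ^ 3 / 200 ≤ 1 := by linarith
  obtain ⟨t, ht⟩ : ∃ t : ℝ, t = (q ^ 3 / 200) ^ 2 / 200 := ⟨_, rfl⟩
  have ht0 : 0 < t := by rw [ht]; positivity
  have ht1 : t ≤ 1 := by
    rw [ht]
    have h1 : (q ^ 3 / 200) ^ 2 ≤ 1 := pow_le_one₀ hm0.le hm1
    linarith
  have htq : t ≤ q ^ 2 / 100 := by
    have h1 : q ^ 6 ≤ q ^ 2 := pow_le_pow_of_le_one hq0.le hq1 (by norm_num)
    have h2 : t = q ^ 6 / 8000000 := by rw [ht]; ring
    have h3 : 0 < q ^ 2 := by positivity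
    rw [h2]
    linarith
  obtain ⟨K1, hK1⟩ := r_case (m := t * q / 2) (by positivity) (by
    have : t * q ≤ 1 := mul_le_one₀ ht1 hq0.le hq1
    linarith)
  obtain ⟨K2, hK2⟩ := f_case hm0 hm1
  have flatc : ∀ a b c : Fin 2 → E3, Lin a b c → q ≤ ‖b 0 + b 1‖ → q ≤ ‖c 0 + c 1‖ →
      ‖a 0 - a 1‖ < t → Fr K2 a b c := by
    intro a b c h hb hc hfl
    have h1 : q ^ 2 / 100 < ‖b 0 - b 1‖ := by
      rcases flat_lemma h hq0 hc with h2 | h2
      · linarith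
      · exact h2
    have h3 : q ^ 2 / 100 < ‖c 0 - c 1‖ := by
      rcases flat_lemma h.swap.rot hq0 hb with h2 | h2
      · linarith
      · exact h2
    have h4 : ∀ {x y : ℝ}, q ^ 2 / 100 < x → q ≤ y → q ^ 3 / 200 ≤ x * y / 2 := by
      intro x y hx hy
      have h5 : q ^ 2 / 100 * q ≤ x * y := mul_le_mul hx.le hy hq0.le (by
        have : 0 < q ^ 2 := by positivity
        linarith)
      have h6 : q ^ 2 / 100 * q = q ^ 3 / 100 := by ring
      linarith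
    refine hK2 a b c h (by rw [← ht]; exact hfl.le) ?_ ?_
    · rw [norm_cr_eq (h.ub 0) (h.ub 1)]
      exact h4 h1 hb
    · rw [norm_cr_eq (h.uc 0) (h.uc 1)]
      exact h4 h3 hc
  refine ⟨max K1 K2, fun a b c A B C p hcube ha hb hc => ?_⟩
  have h := hcube.lin
  have ha' := hqk.trans ha
  have hb' := hqk.trans hb
  have hc' := hqk.trans hc
  by_cases fa : ‖a 0 - a 1‖ < t
  · exact (flatc a b c h hb' hc' fa).mono (le_max_right _ _)
  by_cases fb : ‖b 0 - b 1‖ < t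
  · exact ((flatc b c a h.rot hc' ha' fb).rot).mono (le_max_right _ _)
  by_cases fc : ‖c 0 - c 1‖ < t
  · exact ((flatc c a b h.rot.rot ha' hb' fc).rot.rot).mono (le_max_right _ _)
  have h5 : ∀ {x y : ℝ}, ¬ x < t → q ≤ y → t * q / 2 ≤ x * y / 2 := by
    intro x y hx hy
    have := mul_le_mul (not_lt.mp hx) hy hq0.le (ht0.le.trans (not_lt.mp hx))
    linarith
  refine (hK1 a b c A B C p hcube ?_ ?_ ?_).mono (le_max_left _ _)
  · rw [norm_cr_eq (h.ua 0) (h.ua 1)]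
    exact h5 fa ha'
  · rw [norm_cr_eq (h.ub 0) (h.ub 1)]
    exact h5 fb hb'
  · rw [norm_cr_eq (h.uc 0) (h.uc 1)]
    exact h5 fc hc'

end UF.FP
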