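import Pool.Agent.Work.MP_4c5ddc_co.FP.Cap1

/-!
# FP/Cap3 (M): every cap contains a vertex of `K a ∩ K b`; at least two active normals

PROOF. `cap_vertex`: let `γ` be tight at `x ∈ Int3 F {a, b, c}`. By `int3_vertex` for `{a, b}` and the functional `γ` there is
`u ∈ Vx F {a, b}` with `γ · y ≤ γ · u` for all `y ∈ Int3 F {a, b}`; so `γ · u ≥ γ · x = F.h c γ`. If it is bigger we are done. Suppose
`γ · u = F.h c γ`. By `vx_notin` `u ∉ F.K c`, so `exit_tight` from `x` to `u` gives a point `e = x + τ • (u - x)` of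
`Int3 F {a, b, c}` and a normal `γ'` of `c`, tight at `e`, with `F.h c γ' < γ' · u`; so `γ' ≠ γ`. But
`γ · e = F.h c γ` as well (`γ · x = γ · u`), so `γ, γ'` are both tight at `e`: against `RF`.
`act_two`: `Int3 F {a, b}` has a vertex `u` (`int3_vertex`), `u ∉ F.K c`, so by `exit_tight` there is an active `γ`. By `int3_vertex` with the
functional `- γ` there is `u' ∈ Vx F {a, b}` with `γ · u' ≤ γ · y` for all `y ∈ Int3 F {a, b}`; `u' ∉ F.K c`, so `exit_tight` gives an active `γ'` with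
`F.h c γ' < γ' · u'`. If `γ' = γ` then `F.h c γ < γ · u' ≤ γ · x` for `x ∈ Int3 F {a, b, c}`, against `x ∈ F.K c`. So
`γ' ≠ γ` (`Finset.one_lt_card`).
-/

set_option autoImplicit false

namespace UF.FP

variable {n : ℕ} {α : ℝ} {s : ℕ} {F : Fam n}

private theorem sub_ab {a b c : Fin n} {x : E3} (hx : x ∈ Int3 F {a, b, c}) :
    x ∈ Int3 F {a, b} := by
  intro i hi
  refine hx i ?_
  simp only [Finset.mem_insert, Finset.mem_singleton] at hi ⊢
  tauto

theorem cap_vertex (hG : Good α s F) {a b c : Fin n} (hr : RF F {a, b, c}) {γ : E3}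
    (h1 : γ ∈ Act F {a, b, c} c) : ∃ u ∈ Vx F {a, b}, F.h c γ < inner ℝ γ u := by
  classical
  unfold Act at h1
  obtain ⟨hN, x, hx, ht⟩ := Finset.mem_filter.1 h1
  obtain ⟨u, hu, hmax⟩ := int3_vertex hG (t := {a, b}) ⟨a, by simp⟩ ⟨x, sub_ab hx⟩ γ
  have h2 := hmax x (sub_ab hx)
  rw [ht] at h2
  refine ⟨u, hu, lt_of_le_of_ne h2 ?_⟩
  intro he
  obtain ⟨τ, -, -, he', γ', -, hT, hlt⟩ := exit_tight hx hu.1 (vx_notin hr hu)
  have hne : γ' ≠ γ := by
    rintro rfl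
    rw [← he] at hlt
    exact lt_irrefl _ hlt
  have hT2 : F.Tight c γ (x + τ • (u - x)) := by
    refine ⟨hN, ?_⟩
    rw [inner_add_right, inner_smul_right, inner_sub_right, ht, ← he]
    ring
  exact hne (hr _ he' c (by simp) _ _ hT hT2)

theorem act_two (hG : Good α s F) {a b c : Fin n} (hr : RF F {a, b, c})
    (hne : (Int3 F {a, b, c}).Nonempty) : 2 ≤ (Act F {a, b, c} c).card := by
  classical
  obtain ⟨x, hx⟩ := hne
  obtain ⟨u, hu, -⟩ := int3_vertex hG (t := {a, b}) ⟨a, by simp⟩ ⟨x, sub_ab hx⟩ (0 : E3)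
  obtain ⟨-, -, -, -, γ, hγ, -, -⟩ := exit_tight hx hu.1 (vx_notin hr hu)
  obtain ⟨u', hu', hmax⟩ := int3_vertex hG (t := {a, b}) ⟨a, by simp⟩ ⟨x, sub_ab hx⟩ (-γ)
  obtain ⟨-, -, -, -, γ', hγ', -, hlt⟩ := exit_tight hx hu'.1 (vx_notin hr hu')
  have h1 : γ ≠ γ' := by
    rintro rfl
    have h2 := hmax x (sub_ab hx)
    rw [inner_neg_left, inner_neg_left] at h2
    have hN : γ ∈ F.N c := by
      unfold Act at hγ
      exact (Finset.mem_filter.1 hγ).1
    have h3 := mem_K.1 (hx c (by simp)) γ hN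
    linarith
  exact Finset.one_lt_card.2 ⟨γ, hγ, γ', hγ', h1⟩

end UF.FP
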