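import Pool.Agent.Work.MP_4c5ddc_co.FP.Six2

/-!
# FP/Six3 (M): a bounded nonempty ridge free `six` is a cube

PROOF. `p` from `six_vertices`; `la, lb, lc` from ridge freeness (if `a i'` were tight at `p i j k`, `i' ≠ i`, both would be
tight). `lin`: `sa`: for fixed `j, k` let `v = p 1 j k - p 0 j k`: `b j · v = c k · v = 0`, so `v = t • cr (b j) (c k)` (`smul_of_orth`, `cr (b j) (c k) ≠ 0` as `dt ≠ 0`);
`a 0 · v < 0` and `a 1 · v > 0` (`la`, `ta`), and `a i · v = t * dt (a i) (b j) (c k)`; the product of the two numbers `t * dt ...` is negative. `sb`, `sc` the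
same (use `dt_rot`, `dt_swap12` to bring the determinants to the form `b j · cr ..`). `bd`: if all six inner products with `v ≠ 0` are
nonpositive, then `p 0 0 0 + τ • v ∈ P` for all `τ ≥ 0`, and `P` is not bounded. `na`: suppose `a 0 · v > 0`, `a 1 · v > 0`, the others
`≤ 0`. Let `y(r) = (1 - r) • p 0 0 0 + r • p 1 0 0 ∈ P`, `r ∈ [0, 1]` (`P` is convex). The numbers `f i r = (A i - a i · y(r)) / (a i · v) ≥ 0` are continuous
in `r`, `f 0 0 = 0 ≤ f 1 0`, `f 1 1 = 0 ≤ f 0 1`; by the intermediate value theorem (both are affine) there is `r` with `f 0 r = f 1 r = τ ≥ 0`.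
Then `y(r) + τ • v ∈ P` and `a 0, a 1` are both tight there: against `ra`. The same for `nb` (with `p 0 0 0, p 0 1 0`) and `nc`.
-/

set_option autoImplicit false

namespace UF.FP

private theorem six_rot (a b c : Fin 2 → E3) (A B C : Fin 2 → ℝ) :
    six b c a B C A = six a b c A B C := by
  ext x
  unfold six
  simp only [Set.mem_setOf_eq]
  tauto

private theorem two_eq {a : Fin 2 → E3} {A : Fin 2 → ℝ} {x : E3}
    (h : inner ℝ (a 0) x = A 0 → inner ℝ (a 1) x = A 1 → False) {i i' : Fin 2}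
    (hi : inner ℝ (a i) x = A i) (hi' : inner ℝ (a i') x = A i') : i = i' := by
  fin_cases i <;> fin_cases i'
  · rfl
  · exact (h hi hi').elim
  · exact (h hi' hi).elim
  · rfl

private theorem exit_pos {S : Set E3} (hbd : Bornology.IsBounded S) {d : E3} (hd : d ≠ 0)
    (x : E3) : ∃ M : ℝ, 0 < M ∧ x + M • d ∉ S := by
  obtain ⟨R, hR⟩ := hbd.subset_closedBall x
  have hd' : 0 < ‖d‖ := norm_pos_iff.2 hd
  refine ⟨(|R| + 1) / ‖d‖, by positivity, fun h => ?_⟩
  have h1 := Metric.mem_closedBall.1 (hR h)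
  rw [dist_self_add_left, norm_smul, Real.norm_of_nonneg (by positivity),
    div_mul_cancel₀ _ hd'.ne'] at h1
  linarith [le_abs_self R]

private theorem opp {a0 a1 b c x y : E3} {A0 A1 : ℝ} (hd : dt a0 b c ≠ 0)
    (hb : inner ℝ b x = inner ℝ b y) (hc : inner ℝ c x = inner ℝ c y)
    (h0 : inner ℝ a0 x = A0) (h0' : inner ℝ a0 y < A0) (h1 : inner ℝ a1 y = A1)
    (h1' : inner ℝ a1 x < A1) : dt a0 b c * dt a1 b c < 0 := by
  have hcr : cr b c ≠ 0 := by
    intro h
    rw [← inner_cr, h, inner_zero_right] at hd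
    exact hd rfl
  obtain ⟨t, ht⟩ := smul_of_orth (x := y - x) hcr (by rw [inner_sub_right, hb, sub_self])
    (by rw [inner_sub_right, hc, sub_self])
  have e0 : inner ℝ a0 (y - x) = t * dt a0 b c := by rw [ht, inner_smul_right, inner_cr]
  have e1 : inner ℝ a1 (y - x) = t * dt a1 b c := by rw [ht, inner_smul_right, inner_cr]
  rw [inner_sub_right] at e0 e1
  have f0 : t * dt a0 b c < 0 := by linarith
  have f1 : 0 < t * dt a1 b c := by linarith
  have f2 : (t * dt a0 b c) * (t * dt a1 b c) < 0 := mul_neg_of_neg_of_pos f0 f1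
  have f3 : (t * dt a0 b c) * (t * dt a1 b c) = t ^ 2 * (dt a0 b c * dt a1 b c) := by ring
  rw [f3] at f2
  by_contra hcon
  push Not at hcon
  have := mul_nonneg (sq_nonneg t) hcon
  linarith

private theorem no_pos {a b c : Fin 2 → E3} {A B C : Fin 2 → ℝ}
    (ra : ∀ x ∈ six a b c A B C, inner ℝ (a 0) x = A 0 → inner ℝ (a 1) x = A 1 → False)
    {x y : E3} (hx : x ∈ six a b c A B C) (hy : y ∈ six a b c A B C)
    (h0 : inner ℝ (a 0) x = A 0) (h1 : inner ℝ (a 1) y = A 1) (v : E3)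
    (va : ∀ i, 0 < inner ℝ (a i) v) (vb : ∀ j, inner ℝ (b j) v ≤ 0)
    (vc : ∀ k, inner ℝ (c k) v ≤ 0) : False := by
  obtain ⟨xa, xb, xc⟩ := hx
  obtain ⟨ya, yb, yc⟩ := hy
  have hivt := intermediate_value_Icc (zero_le_one' ℝ)
    (f := fun r : ℝ => (A 0 - inner ℝ (a 0) x - r * (inner ℝ (a 0) y - inner ℝ (a 0) x)) *
      inner ℝ (a 1) v - (A 1 - inner ℝ (a 1) x - r * (inner ℝ (a 1) y - inner ℝ (a 1) x)) *
      inner ℝ (a 0) v) (by fun_prop)
  have hmem : (0 : ℝ) ∈ Set.Icc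
      ((A 0 - inner ℝ (a 0) x - (0 : ℝ) * (inner ℝ (a 0) y - inner ℝ (a 0) x)) *
      inner ℝ (a 1) v - (A 1 - inner ℝ (a 1) x - (0 : ℝ) * (inner ℝ (a 1) y - inner ℝ (a 1) x)) *
      inner ℝ (a 0) v)
      ((A 0 - inner ℝ (a 0) x - (1 : ℝ) * (inner ℝ (a 0) y - inner ℝ (a 0) x)) *
      inner ℝ (a 1) v - (A 1 - inner ℝ (a 1) x - (1 : ℝ) * (inner ℝ (a 1) y - inner ℝ (a 1) x)) *
      inner ℝ (a 0) v) := by
    constructor
    · have e1 : 0 ≤ (A 1 - inner ℝ (a 1) x) * inner ℝ (a 0) v :=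
        mul_nonneg (sub_nonneg.2 (xa 1)) (va 0).le
      rw [h0]
      linarith
    · have e1 : 0 ≤ (A 0 - inner ℝ (a 0) y) * inner ℝ (a 1) v :=
        mul_nonneg (sub_nonneg.2 (ya 0)) (va 1).le
      rw [h1]
      linarith
  obtain ⟨r, ⟨hr0, hr1⟩, hr⟩ := hivt hmem
  have hseg : ∀ u : E3, inner ℝ u (x + r • (y - x)) =
      inner ℝ u x + r * (inner ℝ u y - inner ℝ u x) := fun u => by
    rw [inner_add_right, inner_smul_right, inner_sub_right]
  have hle : ∀ (u : E3) (H : ℝ), inner ℝ u x ≤ H → inner ℝ u y ≤ H →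
      inner ℝ u (x + r • (y - x)) ≤ H := by
    intro u H h1 h2
    rw [hseg]
    nlinarith
  obtain ⟨τ, hτ⟩ : ∃ τ : ℝ, τ = (A 0 - inner ℝ (a 0) (x + r • (y - x))) / inner ℝ (a 0) v :=
    ⟨_, rfl⟩
  have hτ0 : 0 ≤ τ := by
    rw [hτ]
    exact div_nonneg (sub_nonneg.2 (hle _ _ (xa 0) (ya 0))) (va 0).le
  have t0 : τ * inner ℝ (a 0) v = A 0 - inner ℝ (a 0) (x + r • (y - x)) := by
    rw [hτ, div_mul_cancel₀ _ (va 0).ne']
  have t1 : τ * inner ℝ (a 1) v = A 1 - inner ℝ (a 1) (x + r • (y - x)) := by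
    have e1 : (A 0 - inner ℝ (a 0) (x + r • (y - x))) * inner ℝ (a 1) v =
        (A 1 - inner ℝ (a 1) (x + r • (y - x))) * inner ℝ (a 0) v := by
      rw [hseg, hseg]
      linarith
    have e2 : (τ * inner ℝ (a 1) v) * inner ℝ (a 0) v =
        (A 1 - inner ℝ (a 1) (x + r • (y - x))) * inner ℝ (a 0) v := by
      rw [← e1, ← t0]
      ring
    exact mul_right_cancel₀ (va 0).ne' e2
  have hz : x + r • (y - x) + τ • v ∈ six a b c A B C := by
    refine ⟨fun i => ?_, fun j => ?_, fun k => ?_⟩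
    · rw [inner_add_right, inner_smul_right]
      fin_cases i
      · exact (by linarith : inner ℝ (a 0) (x + r • (y - x)) + τ * inner ℝ (a 0) v ≤ A 0)
      · exact (by linarith : inner ℝ (a 1) (x + r • (y - x)) + τ * inner ℝ (a 1) v ≤ A 1)
    · rw [inner_add_right, inner_smul_right]
      have e1 := hle _ _ (xb j) (yb j)
      have e2 := mul_nonneg hτ0 (neg_nonneg.2 (vb j))
      linarith
    · rw [inner_add_right, inner_smul_right]
      have e1 := hle _ _ (xc k) (yc k)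
      have e2 := mul_nonneg hτ0 (neg_nonneg.2 (vc k))
      linarith
  refine ra _ hz ?_ ?_
  · rw [inner_add_right, inner_smul_right, t0]
    ring
  · rw [inner_add_right, inner_smul_right, t1]
    ring

theorem six_cube {a b c : Fin 2 → E3} {A B C : Fin 2 → ℝ} (ua : ∀ i, ‖a i‖ = 1)
    (ub : ∀ i, ‖b i‖ = 1) (uc : ∀ i, ‖c i‖ = 1)
    (hbd : Bornology.IsBounded (six a b c A B C)) (hne : (six a b c A B C).Nonempty)
    (ra : ∀ x ∈ six a b c A B C, inner ℝ (a 0) x = A 0 → inner ℝ (a 1) x = A 1 → False)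
    (rb : ∀ x ∈ six a b c A B C, inner ℝ (b 0) x = B 0 → inner ℝ (b 1) x = B 1 → False)
    (rc : ∀ x ∈ six a b c A B C, inner ℝ (c 0) x = C 0 → inner ℝ (c 1) x = C 1 → False) :
    ∃ p : Fin 2 → Fin 2 → Fin 2 → E3, Cube a b c A B C p := by
  obtain ⟨p, hp⟩ := six_vertices hbd hne ra rb rc
  have hin : ∀ i j k, p i j k ∈ six a b c A B C := fun i j k => (hp i j k).1
  have ta : ∀ i j k, inner ℝ (a i) (p i j k) = A i := fun i j k => (hp i j k).2.1
  have tb : ∀ i j k, inner ℝ (b j) (p i j k) = B j := fun i j k => (hp i j k).2.2.1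
  have tc : ∀ i j k, inner ℝ (c k) (p i j k) = C k := fun i j k => (hp i j k).2.2.2.1
  have hd : ∀ i j k, dt (a i) (b j) (c k) ≠ 0 := fun i j k => (hp i j k).2.2.2.2
  have la : ∀ i i' j k, i' ≠ i → inner ℝ (a i') (p i j k) < A i' := by
    intro i i' j k hne'
    refine lt_of_le_of_ne ((hin i j k).1 i') fun h => hne' ?_
    exact two_eq (ra _ (hin i j k)) h (ta i j k)
  have lb : ∀ i j j' k, j' ≠ j → inner ℝ (b j') (p i j k) < B j' := by
    intro i j j' k hne'
    refine lt_of_le_of_ne ((hin i j k).2.1 j') fun h => hne' ?_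
    exact two_eq (rb _ (hin i j k)) h (tb i j k)
  have lc : ∀ i j k k', k' ≠ k → inner ℝ (c k') (p i j k) < C k' := by
    intro i j k k' hne'
    refine lt_of_le_of_ne ((hin i j k).2.2 k') fun h => hne' ?_
    exact two_eq (rc _ (hin i j k)) h (tc i j k)
  refine ⟨p, ⟨⟨ua, ub, uc, ?_, ?_, ?_, ?_, ?_, ?_, ?_⟩, ta, tb, tc, la, lb, lc, ra, rb, rc⟩⟩
  · intro j k
    exact opp (hd 0 j k) ((tb 0 j k).trans (tb 1 j k).symm) ((tc 0 j k).trans (tc 1 j k).symm)
      (ta 0 j k) (la 1 0 j k (by decide)) (ta 1 j k) (la 0 1 j k (by decide))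
  · intro i k
    rw [← dt_rot, ← dt_rot (a i) (b 1) (c k)]
    have hd' : dt (b 0) (c k) (a i) ≠ 0 := by rw [dt_rot]; exact hd i 0 k
    exact opp hd' ((tc i 0 k).trans (tc i 1 k).symm) ((ta i 0 k).trans (ta i 1 k).symm)
      (tb i 0 k) (lb i 1 0 k (by decide)) (tb i 1 k) (lb i 0 1 k (by decide))
  · intro i j
    rw [dt_rot (c 0) (a i) (b j), dt_rot (c 1) (a i) (b j)]
    have hd' : dt (c 0) (a i) (b j) ≠ 0 := by rw [← dt_rot]; exact hd i j 0
    exact opp hd' ((ta i j 0).trans (ta i j 1).symm) ((tb i j 0).trans (tb i j 1).symm)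
      (tc i j 0) (lc i j 1 0 (by decide)) (tc i j 1) (lc i j 0 1 (by decide))
  · intro v hv va vb vc
    obtain ⟨M, hM, hout⟩ := exit_pos hbd hv (p 0 0 0)
    obtain ⟨xa, xb, xc⟩ := hin 0 0 0
    refine hout ⟨fun i => ?_, fun j => ?_, fun k => ?_⟩
    · rw [inner_add_right, inner_smul_right]
      have e1 := xa i
      have e2 := mul_nonneg hM.le (neg_nonneg.2 (va i))
      linarith
    · rw [inner_add_right, inner_smul_right]
      have e1 := xb j
      have e2 := mul_nonneg hM.le (neg_nonneg.2 (vb j))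
      linarith
    · rw [inner_add_right, inner_smul_right]
      have e1 := xc k
      have e2 := mul_nonneg hM.le (neg_nonneg.2 (vc k))
      linarith
  · intro v va vb vc
    exact no_pos ra (hin 0 0 0) (hin 1 0 0) (ta 0 0 0) (ta 1 0 0) v va vb vc
  · intro v va vb vc
    have e := six_rot a b c A B C
    exact no_pos (a := b) (b := c) (c := a) (A := B) (B := C) (C := A) (by rw [e]; exact rb)
      (by rw [e]; exact hin 0 0 0) (by rw [e]; exact hin 0 1 0) (tb 0 0 0) (tb 0 1 0) v vb vc va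
  · intro v va vb vc
    have e : six c a b C A B = six a b c A B C := by rw [six_rot, six_rot]
    exact no_pos (a := c) (b := a) (c := b) (A := C) (B := A) (C := B) (by rw [e]; exact rc)
      (by rw [e]; exact hin 0 0 0) (by rw [e]; exact hin 0 0 1) (tc 0 0 0) (tc 0 0 1) v vc va vb

end UF.FP
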