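import Pool.Agent.Work.MP_4c5ddc_co.FP.Six1
import Pool.Agent.Work.MP_4c5ddc_co.FP.Six3
import Pool.Agent.Work.MP_4c5ddc_co.FP.Cap3

/-!
# FP/Six4 (M): a clean triple without a body with three active normals is a cube

PROOF. `t = {ia, ib, ic}` (`Finset.card_eq_three`). `Int3 F t` is nonempty (the proper point, `bd_sub_int`). By `act_two` (for the three orders of the
bodies; `{ia, ib, ic} = {ib, ic, ia}` as finsets) every body has at least two active normals, by `hm` exactly two
(`Finset.card_eq_two`); let `a 0 ≠ a 1` be the active normals of `ia`, etc. (`![_, _]`). `Int3 F t = six a b c ...` by `int_eq_act`. It is bounded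
(`isCompact_Int3`), nonempty, and ridge free: if `a 0, a 1` are both tight at `x ∈ Int3 F t` then `a 0 = a 1` by `Clean.rf`. Apply `six_cube`
(`Good.unit`).
-/

set_option autoImplicit false

namespace UF.FP

variable {n : ℕ} {α : ℝ} {s : ℕ} {F : Fam n}

private theorem six4_pair {t : Finset (Fin n)} {i : Fin n} (h2 : 2 ≤ (Act F t i).card)
    (h3 : (Act F t i).card < 3) : ∃ a : Fin 2 → E3, a 0 ≠ a 1 ∧ (∀ k, a k ∈ F.N i) ∧
      (∀ ν, ν ∈ Act F t i ↔ ν = a 0 ∨ ν = a 1) := by
  classical
  obtain ⟨u, v, huv, he⟩ := Finset.card_eq_two.1 (le_antisymm (Nat.lt_succ_iff.1 h3) h2)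
  have hmem : ∀ ν, ν ∈ Act F t i ↔ ν = u ∨ ν = v := by
    intro ν
    rw [he, Finset.mem_insert, Finset.mem_singleton]
  have hN : ∀ ν, ν ∈ Act F t i → ν ∈ F.N i := by
    intro ν hν
    unfold Act at hν
    exact (Finset.mem_filter.1 hν).1
  refine ⟨![u, v], by simpa using huv, ?_, by simpa using hmem⟩
  intro k
  fin_cases k
  · exact hN u ((hmem u).2 (Or.inl rfl))
  · exact hN v ((hmem v).2 (Or.inr rfl))

theorem clean_cube (hG : Good α s F) {S t : Finset (Fin n)} (h : Clean F S t)
    (hm : ∀ i ∈ t, (Act F t i).card < 3) : ∃ (ia ib ic : Fin n) (a b c : Fin 2 → E3)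
      (p : Fin 2 → Fin 2 → Fin 2 → E3), t = {ia, ib, ic} ∧ CubeAt F ia ib ic a b c p := by
  classical
  obtain ⟨ia, ib, ic, hab, hac, hbc, rfl⟩ := Finset.card_eq_three.1 h.card
  obtain ⟨x, hx, hbx⟩ := h.prop
  have hne : (Int3 F {ia, ib, ic}).Nonempty := ⟨x, bd_sub_int hbx⟩
  have e1 : ({ib, ic, ia} : Finset (Fin n)) = {ia, ib, ic} := by
    ext z; simp only [Finset.mem_insert, Finset.mem_singleton]; tauto
  have e2 : ({ic, ia, ib} : Finset (Fin n)) = {ia, ib, ic} := by
    ext z; simp only [Finset.mem_insert, Finset.mem_singleton]; tauto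
  have hc2 : 2 ≤ (Act F {ia, ib, ic} ic).card := act_two hG h.rf hne
  have ha2 : 2 ≤ (Act F {ia, ib, ic} ia).card := by
    have := act_two (a := ib) (b := ic) (c := ia) hG (by rw [e1]; exact h.rf)
      (by rw [e1]; exact hne)
    rwa [e1] at this
  have hb2 : 2 ≤ (Act F {ia, ib, ic} ib).card := by
    have := act_two (a := ic) (b := ia) (c := ib) hG (by rw [e2]; exact h.rf)
      (by rw [e2]; exact hne)
    rwa [e2] at this
  have mia : ia ∈ ({ia, ib, ic} : Finset (Fin n)) := by simp
  have mib : ib ∈ ({ia, ib, ic} : Finset (Fin n)) := by simp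
  have mic : ic ∈ ({ia, ib, ic} : Finset (Fin n)) := by simp
  obtain ⟨a, a01, aN, aA⟩ := six4_pair ha2 (hm ia mia)
  obtain ⟨b, b01, bN, bA⟩ := six4_pair hb2 (hm ib mib)
  obtain ⟨c, c01, cN, cA⟩ := six4_pair hc2 (hm ic mic)
  have hint : Int3 F {ia, ib, ic} =
      six a b c (fun i => F.h ia (a i)) (fun i => F.h ib (b i)) (fun i => F.h ic (c i)) := by
    ext y
    rw [int_eq_act hne]
    constructor
    · intro hy
      refine ⟨?_, ?_, ?_⟩
      · intro k
        apply hy ia mia
        rw [aA]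
        fin_cases k <;> simp
      · intro k
        apply hy ib mib
        rw [bA]
        fin_cases k <;> simp
      · intro k
        apply hy ic mic
        rw [cA]
        fin_cases k <;> simp
    · rintro ⟨h1, h2, h3⟩ i hi ν hν
      rcases Finset.mem_insert.1 hi with hi | hi
      · subst hi
        rcases (aA ν).1 hν with h4 | h4 <;> rw [h4]
        · exact h1 0
        · exact h1 1
      · rcases Finset.mem_insert.1 hi with hi | hi
        · subst hi
          rcases (bA ν).1 hν with h4 | h4 <;> rw [h4]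
          · exact h2 0
          · exact h2 1
        · rw [Finset.mem_singleton] at hi
          subst hi
          rcases (cA ν).1 hν with h4 | h4 <;> rw [h4]
          · exact h3 0
          · exact h3 1
  have hcomp := isCompact_Int3 hG (t := {ia, ib, ic}) ⟨ia, mia⟩
  rw [hint] at hcomp
  have hne' := hne
  rw [hint] at hne'
  obtain ⟨p, hp⟩ := six_cube (fun i => hG.unit ia _ (aN i)) (fun i => hG.unit ib _ (bN i))
    (fun i => hG.unit ic _ (cN i)) hcomp.isBounded hne'
    (by
      intro y hy h0 h1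
      rw [← hint] at hy
      exact a01 (h.rf y hy ia mia _ _ ⟨aN 0, h0⟩ ⟨aN 1, h1⟩))
    (by
      intro y hy h0 h1
      rw [← hint] at hy
      exact b01 (h.rf y hy ib mib _ _ ⟨bN 0, h0⟩ ⟨bN 1, h1⟩))
    (by
      intro y hy h0 h1
      rw [← hint] at hy
      exact c01 (h.rf y hy ic mic _ _ ⟨cN 0, h0⟩ ⟨cN 1, h1⟩))
  exact ⟨ia, ib, ic, a, b, c, p, rfl, ⟨hab, hac, hbc, aN, bN, cN, hp, hint⟩⟩

end UF.FP
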