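import Pool.Agent.Work.MP_4c5ddc_co.FP.Slab
import Pool.Agent.Work.MP_4c5ddc_co.FP.Local
import Pool.Agent.Work.MP_4c5ddc_co.FP.Six4

/-!
# FP/Alt (M): the alternatives for a clean triple (assembly)

PROOF. If no body has three active normals then `clean_cube` gives `t = {ia, ib, ic}` and `CubeAt F ia ib ic a b c p`. `CubeAt` can be rotated and swapped (use `Cube.rot`, `Cube.swap`,
`{ia, ib, ic} = {ib, ic, ia}`; prove `CubeAt.rot : CubeAt F ib ic ia b c a _` as a private lemma). If `‖a 0 + a 1‖ < 1 / (2 α)`: `slab_alt`: `Long` or `Framed` (with `i = 0`). The same for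
`b` and `c` after a rotation. Otherwise `local_lemma` with `k = 1 / (2 α)`: `Fr K a b c`, in the first case `Framed K F t`, in the second one `Frm K (b j) a c`: use the swapped cube
`CubeAt F ib ia ic b a c _`; in the third one `Frm K (c k) a b`: use `CubeAt F ic ia ib c a b _`. `K` = the maximum of the two constants (`Frm.mono`). If `n = 0` or `α < 1`
there is no clean triple (`fat_one` for a body).
-/

set_option autoImplicit false

namespace UF.FP

private theorem alt_set1 {n : ℕ} (x y z : Fin n) : ({x, y, z} : Finset (Fin n)) = {y, z, x} := by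
  ext i
  simp only [Finset.mem_insert, Finset.mem_singleton]
  tauto

private theorem alt_set2 {n : ℕ} (x y z : Fin n) : ({x, y, z} : Finset (Fin n)) = {y, x, z} := by
  ext i
  simp only [Finset.mem_insert, Finset.mem_singleton]
  tauto

private theorem alt_rot {n : ℕ} {F : Fam n} {ia ib ic : Fin n} {a b c : Fin 2 → E3}
    {p : Fin 2 → Fin 2 → Fin 2 → E3} (h : CubeAt F ia ib ic a b c p) :
    CubeAt F ib ic ia b c a (fun j k i => p i j k) := by
  refine ⟨h.nbc, h.nab.symm, h.nac.symm, h.mb, h.mc, h.ma, h.cube.rot, ?_⟩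
  rw [← alt_set1, h.int]
  ext x
  simp only [six, Set.mem_setOf_eq]
  tauto

private theorem alt_swap {n : ℕ} {F : Fam n} {ia ib ic : Fin n} {a b c : Fin 2 → E3}
    {p : Fin 2 → Fin 2 → Fin 2 → E3} (h : CubeAt F ia ib ic a b c p) :
    CubeAt F ib ia ic b a c (fun j i k => p i j k) := by
  refine ⟨h.nab.symm, h.nbc, h.nac, h.mb, h.ma, h.mc, h.cube.swap, ?_⟩
  rw [← alt_set2, h.int]
  ext x
  simp only [six, Set.mem_setOf_eq]
  tauto

theorem clean_alt (α : ℝ) (s : ℕ) : ∃ K : ℝ, ∀ (n : ℕ) (F : Fam n), Good α s F →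
    ∀ S t : Finset (Fin n), Clean F S t → (∃ i ∈ t, 3 ≤ (Act F t i).card) ∨
      Long F ((1 / (2 * α)) ^ 2 / 8) t ∨ Framed K F t := by
  by_cases hα : 1 ≤ α
  swap
  · refine ⟨0, fun n F hG S t h => ?_⟩
    exfalso
    have h1 : t.Nonempty := by
      rw [← Finset.card_pos, h.card]
      norm_num
    obtain ⟨i, _⟩ := h1
    exact hα (fat_one (hG.fat i))
  obtain ⟨K₁, h₁⟩ := slab_alt α hα
  obtain ⟨K₂, h₂⟩ := local_lemma (k := 1 / (2 * α)) (by positivity)
  refine ⟨max K₁ K₂, ?_⟩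
  intro n F hG S t h
  by_cases hm : ∃ i ∈ t, 3 ≤ (Act F t i).card
  · exact Or.inl hm
  right
  push Not at hm
  obtain ⟨ia, ib, ic, a, b, c, p, ht, hc⟩ := clean_cube hG h hm
  subst ht
  by_cases ha : ‖a 0 + a 1‖ < 1 / (2 * α)
  · rcases h₁ n s F ia ib ic a b c p hG hc ha with h3 | h3
    · exact Or.inl h3
    · exact Or.inr ⟨ia, ib, ic, a, b, c, p, rfl, hc, 0, h3.mono (le_max_left _ _)⟩
  by_cases hb : ‖b 0 + b 1‖ < 1 / (2 * α)
  · have e1 : ({ia, ib, ic} : Finset (Fin n)) = {ib, ic, ia} := alt_set1 ia ib ic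
    rw [e1]
    rcases h₁ n s F ib ic ia b c a _ hG (alt_rot hc) hb with h3 | h3
    · exact Or.inl h3
    · exact Or.inr ⟨ib, ic, ia, b, c, a, _, rfl, alt_rot hc, 0, h3.mono (le_max_left _ _)⟩
  by_cases hcc : ‖c 0 + c 1‖ < 1 / (2 * α)
  · have e1 : ({ia, ib, ic} : Finset (Fin n)) = {ic, ia, ib} :=
      (alt_set1 ia ib ic).trans (alt_set1 ib ic ia)
    rw [e1]
    rcases h₁ n s F ic ia ib c a b _ hG (alt_rot (alt_rot hc)) hcc with h3 | h3
    · exact Or.inl h3
    · exact Or.inr ⟨ic, ia, ib, c, a, b, _, rfl, alt_rot (alt_rot hc), 0,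
        h3.mono (le_max_left _ _)⟩
  push Not at ha hb hcc
  right
  rcases h₂ a b c _ _ _ p hc.cube ha hb hcc with ⟨i, hi⟩ | ⟨j, hj⟩ | ⟨k, hk⟩
  · exact ⟨ia, ib, ic, a, b, c, p, rfl, hc, i, hi.mono (le_max_right _ _)⟩
  · exact ⟨ib, ia, ic, b, a, c, _, alt_set2 ia ib ic, alt_swap hc, j,
      hj.mono (le_max_right _ _)⟩
  · exact ⟨ic, ia, ib, c, a, b, _, (alt_set1 ia ib ic).trans (alt_set1 ib ic ia),
      alt_rot (alt_rot hc), k, hk.mono (le_max_right _ _)⟩

end UF.FP
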