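import Pool.Agent.Work.MP_4c5ddc_co.Stmt2

/-!
# FP/Gen (M): finite intersections of half spaces

PROOF. `exists_exit`: among the finitely many `i ∈ I` with `h i < ν i · z` (nonempty by `hz`) take one for which
`τ i = (h i - ν i · x) / (ν i · z - ν i · x)` is minimal (`Finset.exists_min_image`); the denominator is positive as `ν i · x ≤ h i < ν i · z`,
so `0 ≤ τ i < 1`. With `τ = τ i` all inequalities hold at `x + τ • (z - x)`: for `i'` with `h i' < ν i' · z` because
`τ ≤ τ i'`, for the others because `ν i' · x ≤ h i'` and `ν i' · z ≤ h i'`.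
`exists_vertex`: the set `P` is closed, convex, bounded, nonempty, hence compact. Let `g · y` have its maximum `M` on `P` and let
`P' = {y ∈ P | g · y = M}`: compact, convex, nonempty, so it has an extreme point `p`
(`IsCompact.extremePoints_nonempty`). Let `w ≠ 0` be orthogonal to all tight `ν i` (`i ∈ I`, `ν i · p = h i`). For small `τ > 0`
the points `p + τ • w`, `p - τ • w` are in `P` (the tight inequalities are kept, the others hold by continuity, finitely
many). As `g · (p ± τ w) ≤ M = g · p`, `g · w = 0`, so both points are in `P'`, and `p` is their midpoint: contradiction to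
`p ∈ extremePoints`.
-/

set_option autoImplicit false

namespace UF.FP

theorem exists_exit {ι : Type*} (I : Finset ι) (ν : ι → E3) (h : ι → ℝ) {x z : E3}
    (hx : ∀ i ∈ I, inner ℝ (ν i) x ≤ h i) (hz : ∃ i ∈ I, h i < inner ℝ (ν i) z) :
    ∃ τ : ℝ, 0 ≤ τ ∧ τ < 1 ∧ (∀ i ∈ I, inner ℝ (ν i) (x + τ • (z - x)) ≤ h i) ∧
      ∃ i ∈ I, inner ℝ (ν i) (x + τ • (z - x)) = h i ∧ h i < inner ℝ (ν i) z := by
  classical
  have hBne : (I.filter (fun i => h i < inner ℝ (ν i) z)).Nonempty := by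
    obtain ⟨i, hi, h1⟩ := hz
    exact ⟨i, Finset.mem_filter.2 ⟨hi, h1⟩⟩
  obtain ⟨i, hiB, hmin⟩ := Finset.exists_min_image (I.filter (fun i => h i < inner ℝ (ν i) z))
    (fun i => (h i - inner ℝ (ν i) x) / (inner ℝ (ν i) z - inner ℝ (ν i) x)) hBne
  obtain ⟨hi, hiz⟩ := Finset.mem_filter.1 hiB
  have hd : 0 < inner ℝ (ν i) z - inner ℝ (ν i) x := by
    have := hx i hi
    linarith
  obtain ⟨τ, hτ⟩ : ∃ τ : ℝ, τ = (h i - inner ℝ (ν i) x) / (inner ℝ (ν i) z - inner ℝ (ν i) x) :=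
    ⟨_, rfl⟩
  have h0 : 0 ≤ τ := by
    rw [hτ]
    exact div_nonneg (by have := hx i hi; linarith) hd.le
  have h1 : τ < 1 := by
    rw [hτ, div_lt_one hd]
    linarith
  have key : ∀ j, inner ℝ (ν j) (x + τ • (z - x)) =
      inner ℝ (ν j) x + τ * (inner ℝ (ν j) z - inner ℝ (ν j) x) := fun j => by
    rw [inner_add_right, inner_smul_right, inner_sub_right]
  refine ⟨τ, h0, h1, fun j hj => ?_, i, hi, ?_, hiz⟩
  · rw [key]
    have hxj := hx j hj
    by_cases hjz : h j < inner ℝ (ν j) z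
    · have h2 := hmin j (Finset.mem_filter.2 ⟨hj, hjz⟩)
      rw [← hτ] at h2
      have hdj : 0 < inner ℝ (ν j) z - inner ℝ (ν j) x := by linarith
      have h3 := (le_div_iff₀ hdj).1 h2
      linarith
    · push Not at hjz
      nlinarith
  · rw [key, hτ]
    field_simp
    ring

theorem exists_vertex {ι : Type*} (I : Finset ι) (ν : ι → E3) (h : ι → ℝ) (g : E3)
    (hb : Bornology.IsBounded {x : E3 | ∀ i ∈ I, inner ℝ (ν i) x ≤ h i})
    (hne : ∃ x : E3, ∀ i ∈ I, inner ℝ (ν i) x ≤ h i) :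
    ∃ p : E3, (∀ i ∈ I, inner ℝ (ν i) p ≤ h i) ∧
      (∀ y : E3, (∀ i ∈ I, inner ℝ (ν i) y ≤ h i) → inner ℝ g y ≤ inner ℝ g p) ∧
      ∀ w : E3, w ≠ 0 → ∃ i ∈ I, inner ℝ (ν i) p = h i ∧ inner ℝ (ν i) w ≠ 0 := by
  have hcl : IsClosed {x : E3 | ∀ i ∈ I, inner ℝ (ν i) x ≤ h i} := by
    have he : {x : E3 | ∀ i ∈ I, inner ℝ (ν i) x ≤ h i} =
        ⋂ i ∈ I, {x : E3 | inner ℝ (ν i) x ≤ h i} := by
      ext x
      simp
    rw [he]
    exact isClosed_biInter fun i _ => isClosed_le (by fun_prop) continuous_const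
  have hco : IsCompact {x : E3 | ∀ i ∈ I, inner ℝ (ν i) x ≤ h i} :=
    Metric.isCompact_of_isClosed_isBounded hcl hb
  have hgc : Continuous (fun y : E3 => inner ℝ g y) := by fun_prop
  obtain ⟨m, hm, hmax⟩ := hco.exists_isMaxOn hne hgc.continuousOn
  have hmax' : ∀ y : E3, (∀ i ∈ I, inner ℝ (ν i) y ≤ h i) → inner ℝ g y ≤ inner ℝ g m :=
    fun y hy => hmax hy
  have hco' : IsCompact ({x : E3 | ∀ i ∈ I, inner ℝ (ν i) x ≤ h i} ∩
      {y : E3 | inner ℝ g y = inner ℝ g m}) :=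
    hco.inter_right (isClosed_eq hgc continuous_const)
  obtain ⟨p, hp⟩ := hco'.extremePoints_nonempty ⟨m, hm, rfl⟩
  rw [mem_extremePoints] at hp
  obtain ⟨⟨hpI, hpg⟩, hpe⟩ := hp
  have hpI' : ∀ i ∈ I, inner ℝ (ν i) p ≤ h i := hpI
  have hpg' : inner ℝ g p = inner ℝ g m := hpg
  refine ⟨p, hpI', fun y hy => (hmax' y hy).trans hpg'.ge, fun w hw => ?_⟩
  by_contra hcon
  push Not at hcon
  have hev : ∀ᶠ t : ℝ in nhds 0, ∀ i ∈ I, inner ℝ (ν i) (p + t • w) ≤ h i := by
    rw [Filter.eventually_all_finset]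
    intro i hi
    rcases (hpI' i hi).lt_or_eq with h1 | h1
    · have hcont : Filter.Tendsto (fun t : ℝ => inner ℝ (ν i) (p + t • w)) (nhds 0)
          (nhds (inner ℝ (ν i) (p + (0 : ℝ) • w))) :=
        Continuous.tendsto (by fun_prop) 0
      rw [zero_smul, add_zero] at hcont
      exact (hcont.eventually_lt_const h1).mono fun t ht => ht.le
    · refine Filter.Eventually.of_forall fun t => ?_
      rw [inner_add_right, inner_smul_right, hcon i hi h1, mul_zero, add_zero]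
      exact h1.le
  obtain ⟨δ, hδ, hball⟩ := Metric.eventually_nhds_iff.1 hev
  have h1 : ∀ i ∈ I, inner ℝ (ν i) (p + (δ / 2) • w) ≤ h i := by
    apply hball
    rw [Real.dist_eq, sub_zero, abs_of_pos (by positivity)]
    linarith
  have h2 : ∀ i ∈ I, inner ℝ (ν i) (p + (-(δ / 2)) • w) ≤ h i := by
    apply hball
    rw [Real.dist_eq, sub_zero, abs_neg, abs_of_pos (by positivity)]
    linarith
  have g1 := hmax' _ h1
  have g2 := hmax' _ h2
  rw [inner_add_right, inner_smul_right, ← hpg'] at g1 g2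
  have g3 : inner ℝ g w = 0 := by
    have h3 : δ / 2 * inner ℝ g w ≤ 0 := by linarith
    have h4 : 0 ≤ δ / 2 * inner ℝ g w := by linarith
    have h5 : δ / 2 * inner ℝ g w = 0 := le_antisymm h3 h4
    rcases mul_eq_zero.1 h5 with h6 | h6
    · exact absurd h6 (by positivity)
    · exact h6
  have e1 : p + (δ / 2) • w ∈ {x : E3 | ∀ i ∈ I, inner ℝ (ν i) x ≤ h i} ∩
      {y : E3 | inner ℝ g y = inner ℝ g m} := by
    refine ⟨h1, ?_⟩
    show inner ℝ g (p + (δ / 2) • w) = inner ℝ g m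
    rw [inner_add_right, inner_smul_right, g3, mul_zero, add_zero, hpg']
  have e2 : p + (-(δ / 2)) • w ∈ {x : E3 | ∀ i ∈ I, inner ℝ (ν i) x ≤ h i} ∩
      {y : E3 | inner ℝ g y = inner ℝ g m} := by
    refine ⟨h2, ?_⟩
    show inner ℝ g (p + (-(δ / 2)) • w) = inner ℝ g m
    rw [inner_add_right, inner_smul_right, g3, mul_zero, add_zero, hpg']
  have h7 := (hpe _ e1 _ e2 ⟨1 / 2, 1 / 2, by norm_num, by norm_num, by norm_num, by module⟩).1
  have h8 : (δ / 2) • w = 0 := by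
    have := h7
    rwa [add_eq_left] at this
  rcases smul_eq_zero.1 h8 with h9 | h9
  · exact absurd h9 (by positivity)
  · exact hw h9

end UF.FP
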