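import Pool.Agent.Work.MP_4c5ddc_co.FP.DefsC
import Pool.Agent.Work.MP_4c5ddc_co.FP.Gen
import Pool.Agent.Work.MP_4c5ddc_co.FP.Vli

/-!
# FP/Bas (M): basic facts about the bodies and their intersections

PROOF. `CO.poly` facts (`CO.isClosed_poly`, `CO.convex_poly`, `CO.mem_interior_poly`, `CO.mem_frontier_poly`); the normals
are nonzero because they are unit vectors. `int3_iff`: unfold (`Finset.mem_sigma`). `fat_one`: `closedBall x r ⊆ closedBall y R`
gives `r ≤ R ≤ α r` (take the points `x ± r u` for a unit vector `u`: their distance `2 r` is at most `2 R`). `isCompact_K`: closed and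
contained in a closed ball. `int3_exit`: `exists_exit` for the index set `t.sigma F.N` (or for one body).
`int3_vertex`: `exists_vertex` for the same index set (`Vx`). `prp_three`: by `Good.nodir` and `exists_three` there are three
tight normals with nonzero determinant; two of them cannot belong to the same body (they would be equal by `Prp`, the
determinant `0`).
-/

set_option autoImplicit false

namespace UF.FP

variable {n : ℕ} {α : ℝ} {s : ℕ} {F : Fam n}

theorem mem_K {i : Fin n} {x : E3} : x ∈ F.K i ↔ ∀ ν ∈ F.N i, inner ℝ ν x ≤ F.h i ν := Iff.rfl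

theorem mem_bd {i : Fin n} {x : E3} : i ∈ F.bd x ↔ F.Bd i x := by
  classical
  simp [Fam.bd]

theorem int3_iff {t : Finset (Fin n)} {x : E3} :
    x ∈ Int3 F t ↔ ∀ q ∈ t.sigma F.N, inner ℝ q.2 x ≤ F.h q.1 q.2 := by
  constructor
  · intro hx q hq
    obtain ⟨h1, h2⟩ := Finset.mem_sigma.1 hq
    exact hx q.1 h1 q.2 h2
  · intro hx i hi ν hν
    exact hx ⟨i, ν⟩ (Finset.mem_sigma.2 ⟨hi, hν⟩)

theorem fat_one {K : Set E3} (h : Fat α K) : 1 ≤ α := by
  obtain ⟨x, y, r, R, hr, hR, h1, h2⟩ := h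
  have he : ‖(EuclideanSpace.single (0 : Fin 3) (1 : ℝ) : E3)‖ = 1 := by simp
  have ha : x + r • (EuclideanSpace.single (0 : Fin 3) (1 : ℝ) : E3) ∈ Metric.closedBall x r := by
    rw [Metric.mem_closedBall, dist_self_add_left, norm_smul, he, Real.norm_of_nonneg hr.le,
      mul_one]
  have hb : x - r • (EuclideanSpace.single (0 : Fin 3) (1 : ℝ) : E3) ∈ Metric.closedBall x r := by
    rw [Metric.mem_closedBall, dist_comm, dist_self_sub_right, norm_smul, he,
      Real.norm_of_nonneg hr.le, mul_one]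
  have ha' := Metric.mem_closedBall.1 (h2 (h1 ha))
  have hb' := Metric.mem_closedBall.1 (h2 (h1 hb))
  have h3 : dist (x + r • (EuclideanSpace.single (0 : Fin 3) (1 : ℝ) : E3))
      (x - r • (EuclideanSpace.single (0 : Fin 3) (1 : ℝ) : E3)) = 2 * r := by
    rw [dist_eq_norm]
    have : x + r • (EuclideanSpace.single (0 : Fin 3) (1 : ℝ) : E3) -
        (x - r • (EuclideanSpace.single (0 : Fin 3) (1 : ℝ) : E3)) =
        (2 * r) • (EuclideanSpace.single (0 : Fin 3) (1 : ℝ) : E3) := by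
      module
    rw [this, norm_smul, he, Real.norm_of_nonneg (by positivity), mul_one]
  have h4 := dist_triangle_right (x + r • (EuclideanSpace.single (0 : Fin 3) (1 : ℝ) : E3))
    (x - r • (EuclideanSpace.single (0 : Fin 3) (1 : ℝ) : E3)) y
  rw [h3] at h4
  have h5 : r ≤ α * r := by linarith
  by_contra hcon
  push Not at hcon
  have h6 : α * r < 1 * r := mul_lt_mul_of_pos_right hcon hr
  linarith

theorem convex_Int3 (t : Finset (Fin n)) : Convex ℝ (Int3 F t) := by
  intro x hx y hy a b ha hb hab i hi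
  exact CO.convex_poly (F.N i) (F.h i) (hx i hi) (hy i hi) ha hb hab

theorem isClosed_Int3 (t : Finset (Fin n)) : IsClosed (Int3 F t) := by
  have he : Int3 F t = ⋂ i ∈ t, F.K i := by
    ext x
    simp [Int3]
  rw [he]
  exact isClosed_biInter fun i _ => CO.isClosed_poly _ _

theorem isBounded_K (hG : Good α s F) (i : Fin n) : Bornology.IsBounded (F.K i) := by
  obtain ⟨x, y, r, R, hr, hR, h1, h2⟩ := hG.fat i
  exact Metric.isBounded_closedBall.subset h2

private theorem isBounded_Int3 (hG : Good α s F) {t : Finset (Fin n)} (ht : t.Nonempty) :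
    Bornology.IsBounded (Int3 F t) := by
  obtain ⟨i, hi⟩ := ht
  exact (isBounded_K hG i).subset fun x hx => hx i hi

theorem isCompact_Int3 (hG : Good α s F) {t : Finset (Fin n)} (ht : t.Nonempty) :
    IsCompact (Int3 F t) :=
  Metric.isCompact_of_isClosed_isBounded (isClosed_Int3 t) (isBounded_Int3 hG ht)

private theorem normal_ne (hG : Good α s F) (i : Fin n) : ∀ ν ∈ F.N i, ν ≠ 0 := by
  intro ν hν h0
  have := hG.unit i ν hν
  rw [h0, norm_zero] at this
  exact zero_ne_one this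

theorem mem_interior_K (hG : Good α s F) {i : Fin n} {x : E3} :
    x ∈ interior (F.K i) ↔ ∀ ν ∈ F.N i, inner ℝ ν x < F.h i ν :=
  CO.mem_interior_poly (normal_ne hG i)

theorem mem_frontier_K (hG : Good α s F) {i : Fin n} {x : E3} :
    x ∈ frontier (F.K i) ↔ F.Bd i x :=
  CO.mem_frontier_poly (normal_ne hG i)

/-- the last point of the segment `[x, z]` in `Int3 F t`. -/
theorem int3_exit {t : Finset (Fin n)} {x z : E3} (hx : x ∈ Int3 F t) (hz : z ∉ Int3 F t) :
    ∃ τ : ℝ, 0 ≤ τ ∧ τ < 1 ∧ x + τ • (z - x) ∈ Int3 F t ∧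
      ∃ i ∈ t, ∃ ν, F.Tight i ν (x + τ • (z - x)) ∧ F.h i ν < inner ℝ ν z := by
  have hz' : ∃ q ∈ t.sigma F.N, F.h q.1 q.2 < inner ℝ q.2 z := by
    by_contra hcon
    push Not at hcon
    exact hz (int3_iff.2 hcon)
  obtain ⟨τ, h0, h1, h2, q, hq, h3, h4⟩ := exists_exit (t.sigma F.N) (fun q => q.2)
    (fun q => F.h q.1 q.2) (int3_iff.1 hx) hz'
  obtain ⟨hq1, hq2⟩ := Finset.mem_sigma.1 hq
  exact ⟨τ, h0, h1, int3_iff.2 h2, q.1, hq1, q.2, ⟨hq2, h3⟩, h4⟩

/-- a vertex of the intersection at which the functional `g` is maximal. -/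
theorem int3_vertex (hG : Good α s F) {t : Finset (Fin n)} (ht : t.Nonempty)
    (hne : (Int3 F t).Nonempty) (g : E3) :
    ∃ p ∈ Vx F t, ∀ y ∈ Int3 F t, inner ℝ g y ≤ inner ℝ g p := by
  have he : {x : E3 | ∀ q ∈ t.sigma F.N, inner ℝ q.2 x ≤ F.h q.1 q.2} = Int3 F t := by
    ext x
    exact int3_iff.symm
  obtain ⟨p, h1, h2, h3⟩ := exists_vertex (t.sigma F.N) (fun q => q.2)
    (fun q => F.h q.1 q.2) g (by rw [he]; exact isBounded_Int3 hG ht)
    (by obtain ⟨x, hx⟩ := hne; exact ⟨x, int3_iff.1 hx⟩)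
  refine ⟨p, ⟨int3_iff.2 h1, fun w hw => ?_⟩, fun y hy => h2 y (int3_iff.1 hy)⟩
  obtain ⟨q, hq, h4, h5⟩ := h3 w hw
  obtain ⟨hq1, hq2⟩ := Finset.mem_sigma.1 hq
  exact ⟨q.1, hq1, q.2, ⟨hq2, h4⟩, h5⟩

theorem prp_three (hG : Good α s F) {x : E3} (hx : Prp F x) {i j k : Fin n}
    (hi : F.bd x = {i, j, k}) (hij : i ≠ j) (hik : i ≠ k) (hjk : j ≠ k) :
    ∃ u v w : E3, F.Tight i u x ∧ F.Tight j v x ∧ F.Tight k w x ∧ dt u v w ≠ 0 := by
  classical
  obtain ⟨hc, hu⟩ := hx
  have hmem : ∀ l, l ∈ F.bd x → ∃ ν, F.Tight l ν x := fun l hl => (mem_bd.1 hl).2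
  have hib : i ∈ F.bd x := by rw [hi]; simp
  have hjb : j ∈ F.bd x := by rw [hi]; simp
  have hkb : k ∈ F.bd x := by rw [hi]; simp
  obtain ⟨u, hu'⟩ := hmem i hib
  obtain ⟨v, hv'⟩ := hmem j hjb
  obtain ⟨w, hw'⟩ := hmem k hkb
  refine ⟨u, v, w, hu', hv', hw', fun h0 => ?_⟩
  have hex : ∃ u' ∈ ({u, v, w} : Set E3), ∃ v' ∈ ({u, v, w} : Set E3),
      ∃ w' ∈ ({u, v, w} : Set E3), dt u' v' w' ≠ 0 := by
    apply exists_three
    intro z hz
    obtain ⟨l, hl, ν, hν, hne⟩ := hG.nodir x hc z hz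
    refine ⟨ν, ?_, hne⟩
    have hl' := hl
    rw [hi] at hl'
    simp only [Finset.mem_insert, Finset.mem_singleton] at hl'
    rcases hl' with rfl | rfl | rfl
    · rw [hu _ hib ν u hν hu']; simp
    · rw [hu _ hjb ν v hν hv']; simp
    · rw [hu _ hkb ν w hν hw']; simp
  have e1 : dt u w v = 0 := by rw [dt_swap23, h0, neg_zero]
  have e2 : dt v u w = 0 := by rw [dt_swap12, h0, neg_zero]
  have e3 : dt v w u = 0 := by rw [dt_rot, h0]
  have e4 : dt w u v = 0 := by rw [← h0, ← dt_rot w u v]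
  have e5 : dt w v u = 0 := by rw [dt_swap23, e4, neg_zero]
  obtain ⟨u', h1, v', h2, w', h3, h4⟩ := hex
  simp only [Set.mem_insert_iff, Set.mem_singleton_iff] at h1 h2 h3
  rcases h1 with rfl | rfl | rfl <;> rcases h2 with rfl | rfl | rfl <;>
    rcases h3 with rfl | rfl | rfl <;>
    first
    | exact h4 (dt_self12 _ _)
    | exact h4 (dt_self13 _ _)
    | exact h4 (dt_self23 _ _)
    | exact h4 h0
    | exact h4 e1
    | exact h4 e2
    | exact h4 e3
    | exact h4 e4
    | exact h4 e5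

theorem bd_sub_int {t : Finset (Fin n)} {x : E3} (hx : F.bd x = t) : x ∈ Int3 F t := by
  intro i hi
  rw [← hx] at hi
  exact (mem_bd.1 hi).1

end UF.FP
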