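import Pool.Agent.Work.MP_4c5ddc_co.FP.Bas

/-!
# FP/Cap1 (M): the part of `K a ∩ K b` outside `K c` is covered by the caps

`t = {a, b, c}` is ridge free. The cap of an active normal `γ ∈ Act F t c` is `{z ∈ K a ∩ K b | F.h c γ < γ · z}`.

PROOF. `vx_notin`: by `exists_three` there are three tight normals `u, v, w` (of `a` or `b`) at `x` with `dt u v w ≠ 0`; two of them
belong to the same body. If `x ∈ F.K c` then `x ∈ Int3 F {a, b, c}` and by `RF` the two normals are equal,
so `dt = 0` (`dt_self12` etc.). `exit_cap`: `z` is not in `Int3 F {a, b, c}`; by `int3_exit` there is a point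
`e = x + τ • (z - x)` of `Int3 F {a, b, c}` with a tight normal `γ` of some body `i` with `F.h i γ < γ · z`; `i = c`
because `z` is in `K a` and `K b`. So `γ` is tight at `e`, i.e. `γ ∈ Act F {a, b, c} c`.
`exit_tight` is the same with the exit point.
-/

set_option autoImplicit false

namespace UF.FP

variable {n : ℕ} {α : ℝ} {s : ℕ} {F : Fam n}

theorem vx_notin {a b c : Fin n} (hr : RF F {a, b, c}) {x : E3} (hx : x ∈ Vx F {a, b}) :
    x ∉ F.K c := by
  classical
  intro hxc
  obtain ⟨hxi, hxv⟩ := hx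
  have hxa : x ∈ F.K a := hxi a (by simp)
  have hxb : x ∈ F.K b := hxi b (by simp)
  have h3 : x ∈ Int3 F {a, b, c} := by
    intro i hi
    simp only [Finset.mem_insert, Finset.mem_singleton] at hi
    rcases hi with rfl | rfl | rfl
    · exact hxa
    · exact hxb
    · exact hxc
  have hua : ∀ ν μ, F.Tight a ν x → F.Tight a μ x → ν = μ := hr x h3 a (by simp)
  have hub : ∀ ν μ, F.Tight b ν x → F.Tight b μ x → ν = μ := hr x h3 b (by simp)
  have hex : ∃ u ∈ {ν : E3 | F.Tight a ν x ∨ F.Tight b ν x},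
      ∃ v ∈ {ν : E3 | F.Tight a ν x ∨ F.Tight b ν x},
      ∃ w ∈ {ν : E3 | F.Tight a ν x ∨ F.Tight b ν x}, dt u v w ≠ 0 := by
    apply exists_three
    intro w hw
    obtain ⟨i, hi, ν, hν, hne⟩ := hxv w hw
    refine ⟨ν, ?_, hne⟩
    simp only [Finset.mem_insert, Finset.mem_singleton] at hi
    rcases hi with rfl | rfl
    · exact Or.inl hν
    · exact Or.inr hν
  obtain ⟨u, hu, v, hv, w, hw, hd⟩ := hex
  have huv : u ≠ v := by
    rintro rfl
    exact hd (dt_self12 _ _)
  have huw : u ≠ w := by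
    rintro rfl
    exact hd (dt_self13 _ _)
  have hvw : v ≠ w := by
    rintro rfl
    exact hd (dt_self23 _ _)
  rcases hu with hu | hu <;> rcases hv with hv | hv <;> rcases hw with hw | hw
  · exact huv (hua _ _ hu hv)
  · exact huv (hua _ _ hu hv)
  · exact huw (hua _ _ hu hw)
  · exact hvw (hub _ _ hv hw)
  · exact hvw (hua _ _ hv hw)
  · exact huw (hub _ _ hu hw)
  · exact huv (hub _ _ hu hv)
  · exact huv (hub _ _ hu hv)

/-- exit point with an active normal of `c`. -/
theorem exit_tight {a b c : Fin n} {x z : E3} (hx : x ∈ Int3 F {a, b, c})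
    (hz : z ∈ Int3 F {a, b}) (hzc : z ∉ F.K c) :
    ∃ τ : ℝ, 0 ≤ τ ∧ τ < 1 ∧ x + τ • (z - x) ∈ Int3 F {a, b, c} ∧
      ∃ γ ∈ Act F {a, b, c} c, F.Tight c γ (x + τ • (z - x)) ∧ F.h c γ < inner ℝ γ z := by
  classical
  have hz3 : z ∉ Int3 F {a, b, c} := fun h => hzc (h c (by simp))
  obtain ⟨τ, h0, h1, h2, i, hi, ν, h3, h4⟩ := int3_exit hx hz3
  have hic : i = c := by
    simp only [Finset.mem_insert, Finset.mem_singleton] at hi
    rcases hi with rfl | rfl | rfl
    · exact absurd (hz i (by simp) ν h3.1) (not_le.2 h4)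
    · exact absurd (hz i (by simp) ν h3.1) (not_le.2 h4)
    · rfl
  subst hic
  exact ⟨τ, h0, h1, h2, ν, Finset.mem_filter.2 ⟨h3.1, _, h2, h3.2⟩, h3, h4⟩

end UF.FP
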