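import Pool.Agent.Work.MP_4c5ddc_co.FP.Cap1

/-!
# FP/Cap2 (M-L): different caps are disjoint

PROOF. Suppose `γ ≠ γ'`. `γ, γ' ∈ Act F {a, b, c} c` are tight at points `x₀, x₁` of `I = Int3 F {a, b, c}` (convex, `convex_Int3`). Let
`x(r) = x₀ + r • (x₁ - x₀)`, `r ∈ [0, 1]`, in `I`. Let `M` be the finite set of the normals `m ∈ F.N c` with `F.h c m < m · z` (it contains `γ, γ'`), and for
`m ∈ M` put `τ m r = (F.h c m - m · x(r)) / (m · z - m · x(r))`: continuous in `r ∈ [0, 1]`, values in `[0, 1)` (the denominator is positive), and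
`e m r = x(r) + τ m r • (z - x(r))` is the point of the segment `[x(r), z]` with `m · e = F.h c m`. Let
`λ r = min over m ∈ M of τ m r` (`Finset.inf'`, continuous) and `e r = x(r) + λ r • (z - x(r))`. `e r ∈ I`: it is in `K a`, `K b` (convex, `z ∈ Int3 F {a, b}`), and the
inequalities of `c` hold: for `m ∈ M` as `λ r ≤ τ m r`, for the others as they hold at both ends. For `m ∈ M` the set
`A m = {r ∈ [0, 1] | λ r = τ m r}` is closed; it is the set of `r` such that `m` is tight at `e r`; by `RF` (`e r ∈ I`) the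
sets `A m` are pairwise disjoint, and they cover `[0, 1]`. `0 ∈ A γ` (`γ` is tight at `x₀`, so `τ γ 0 = 0 ≤ λ 0`) and
`1 ∈ A γ'`. So the closed sets `A γ` and `⋃ m ∈ M \ {γ}, A m` are disjoint, nonempty and cover `[0, 1]`, against connectedness
(`isPreconnected_Icc`, `isPreconnected_closed_iff`).
-/

set_option autoImplicit false

namespace UF.FP

variable {n : ℕ} {α : ℝ} {s : ℕ} {F : Fam n}

private theorem seg_K {i : Fin n} {x y : E3} (hx : x ∈ F.K i) (hy : y ∈ F.K i) {r : ℝ}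
    (h0 : 0 ≤ r) (h1 : r ≤ 1) : x + r • (y - x) ∈ F.K i := by
  rw [mem_K] at hx hy ⊢
  intro ν hν
  have a := hx ν hν
  have b := hy ν hν
  rw [inner_add_right, inner_smul_right, inner_sub_right]
  nlinarith

theorem caps_disjoint {a b c : Fin n} (hr : RF F {a, b, c}) {z : E3} (hz : z ∈ Int3 F {a, b})
    {γ γ' : E3} (h1 : γ ∈ Act F {a, b, c} c) (h2 : γ' ∈ Act F {a, b, c} c)
    (h3 : F.h c γ < inner ℝ γ z) (h4 : F.h c γ' < inner ℝ γ' z) : γ = γ' := by
  classical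
  by_contra hne
  unfold Act at h1 h2
  obtain ⟨h1N, x₀, hx₀, ht₀⟩ := Finset.mem_filter.1 h1
  obtain ⟨h2N, x₁, hx₁, ht₁⟩ := Finset.mem_filter.1 h2
  have hxr : ∀ r : ℝ, 0 ≤ r → r ≤ 1 → x₀ + r • (x₁ - x₀) ∈ Int3 F {a, b, c} :=
    fun r h0 h1 i hi => seg_K (hx₀ i hi) (hx₁ i hi) h0 h1
  have hc : c ∈ ({a, b, c} : Finset (Fin n)) := by simp
  obtain ⟨M, hM⟩ : ∃ M : Finset E3, M = (F.N c).filter (fun m => F.h c m < inner ℝ m z) := ⟨_, rfl⟩
  have hMN : ∀ m ∈ M, m ∈ F.N c ∧ F.h c m < inner ℝ m z := by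
    intro m hm
    rw [hM] at hm
    exact Finset.mem_filter.1 hm
  have hNM : ∀ m, m ∈ F.N c → F.h c m < inner ℝ m z → m ∈ M := by
    intro m hm h
    rw [hM]
    exact Finset.mem_filter.2 ⟨hm, h⟩
  obtain ⟨u, hu⟩ : ∃ u : E3 → ℝ → ℝ,
      u = fun m r => F.h c m - inner ℝ m (x₀ + r • (x₁ - x₀)) := ⟨_, rfl⟩
  obtain ⟨v, hv⟩ : ∃ v : E3 → ℝ → ℝ,
      v = fun m r => inner ℝ m z - inner ℝ m (x₀ + r • (x₁ - x₀)) := ⟨_, rfl⟩
  have hu0 : ∀ m ∈ F.N c, ∀ r : ℝ, 0 ≤ r → r ≤ 1 → 0 ≤ u m r := by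
    intro m hm r h0 h1
    have h5 := mem_K.1 (hxr r h0 h1 c hc) m hm
    simp only [hu]
    linarith
  have hv0 : ∀ m ∈ M, ∀ r : ℝ, 0 ≤ r → r ≤ 1 → 0 < v m r := by
    intro m hm r h0 h1
    have h5 := mem_K.1 (hxr r h0 h1 c hc) m (hMN m hm).1
    have h6 := (hMN m hm).2
    simp only [hv]
    linarith
  have huc : ∀ m, Continuous (u m) := by
    intro m
    rw [hu]
    fun_prop
  have hvc : ∀ m, Continuous (v m) := by
    intro m
    rw [hv]
    fun_prop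
  obtain ⟨A, hA⟩ : ∃ A : E3 → Set ℝ,
      A = fun m => {r | ∀ m' ∈ M, u m r * v m' r ≤ u m' r * v m r} := ⟨_, rfl⟩
  have hAm : ∀ m r, r ∈ A m ↔ ∀ m' ∈ M, u m r * v m' r ≤ u m' r * v m r := by
    intro m r
    rw [hA]
    rfl
  have hAc : ∀ m, IsClosed (A m) := by
    intro m
    have he : A m = ⋂ m' ∈ M, {r : ℝ | u m r * v m' r ≤ u m' r * v m r} := by
      ext r
      rw [hAm]
      simp
    rw [he]
    exact isClosed_biInter fun m' _ =>
      isClosed_le ((huc m).mul (hvc m')) ((huc m').mul (hvc m))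
  -- the two closed sets
  have hcov : Set.Icc (0 : ℝ) 1 ⊆ A γ ∪ ⋃ m ∈ M.erase γ, A m := by
    intro r hr
    have hγM : γ ∈ M := hNM γ h1N h3
    obtain ⟨m, hm, hmin⟩ := Finset.exists_min_image M (fun m => u m r / v m r) ⟨γ, hγM⟩
    have hmA : r ∈ A m := by
      rw [hAm]
      intro m' hm'
      have h5 := hmin m' hm'
      rw [div_le_div_iff₀ (hv0 m hm r hr.1 hr.2) (hv0 m' hm' r hr.1 hr.2)] at h5
      exact h5
    by_cases hmγ : m = γ
    · left
      rw [← hmγ]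
      exact hmA
    · right
      exact Set.mem_iUnion₂.2 ⟨m, Finset.mem_erase.2 ⟨hmγ, hm⟩, hmA⟩
  have hn1 : (Set.Icc (0 : ℝ) 1 ∩ A γ).Nonempty := by
    refine ⟨0, ⟨le_rfl, zero_le_one⟩, ?_⟩
    rw [hAm]
    intro m' hm'
    have h5 : u γ 0 = 0 := by
      simp only [hu]
      rw [zero_smul, add_zero, ht₀, sub_self]
    rw [h5, zero_mul]
    exact mul_nonneg (hu0 m' (hMN m' hm').1 0 le_rfl zero_le_one)
      (hv0 γ (hNM γ h1N h3) 0 le_rfl zero_le_one).le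
  have hn2 : (Set.Icc (0 : ℝ) 1 ∩ ⋃ m ∈ M.erase γ, A m).Nonempty := by
    refine ⟨1, ⟨zero_le_one, le_rfl⟩, ?_⟩
    refine Set.mem_iUnion₂.2 ⟨γ', Finset.mem_erase.2 ⟨fun h => hne h.symm, hNM γ' h2N h4⟩, ?_⟩
    rw [hAm]
    intro m' hm'
    have h5 : u γ' 1 = 0 := by
      simp only [hu]
      rw [one_smul, add_sub_cancel, ht₁, sub_self]
    rw [h5, zero_mul]
    exact mul_nonneg (hu0 m' (hMN m' hm').1 1 zero_le_one le_rfl)
      (hv0 γ' (hNM γ' h2N h4) 1 zero_le_one le_rfl).le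
  obtain ⟨r, hrI, hrγ, hrm⟩ := isPreconnected_closed_iff.1 (isPreconnected_Icc (a := (0 : ℝ))
    (b := 1)) (A γ) (⋃ m ∈ M.erase γ, A m) (hAc γ)
    (Set.Finite.isClosed_biUnion (Finset.finite_toSet (M.erase γ)) fun m _ => hAc m)
    hcov hn1 hn2
  obtain ⟨m, hm, hrm⟩ := Set.mem_iUnion₂.1 hrm
  obtain ⟨hmγ, hmM⟩ := Finset.mem_erase.1 hm
  rw [hAm] at hrγ hrm
  have hγM : γ ∈ M := hNM γ h1N h3
  have hvγ := hv0 γ hγM r hrI.1 hrI.2
  have hvm := hv0 m hmM r hrI.1 hrI.2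
  have huγ := hu0 γ h1N r hrI.1 hrI.2
  obtain ⟨l, hl⟩ : ∃ l : ℝ, l = u γ r / v γ r := ⟨_, rfl⟩
  have hl0 : 0 ≤ l := by rw [hl]; exact div_nonneg huγ hvγ.le
  have hl1 : l ≤ 1 := by
    rw [hl, div_le_one hvγ]
    simp only [hu, hv]
    linarith [(hMN γ hγM).2]
  have hlγ : l * v γ r = u γ r := by
    rw [hl]
    field_simp
  have hlm' : ∀ m' ∈ M, l * v m' r ≤ u m' r := by
    intro m' hm'
    have h5 := hrγ m' hm'
    rw [hl, div_mul_eq_mul_div, div_le_iff₀ hvγ]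
    exact h5
  have hlm : l * v m r = u m r := by
    refine le_antisymm (hlm' m hmM) ?_
    have h5 := hrm γ hγM
    rw [hl, div_mul_eq_mul_div, le_div_iff₀ hvγ]
    exact h5
  have hxK := hxr r hrI.1 hrI.2
  obtain ⟨x, hx⟩ : ∃ x : E3, x = x₀ + r • (x₁ - x₀) := ⟨_, rfl⟩
  rw [← hx] at hxK
  have hux : ∀ m, u m r = F.h c m - inner ℝ m x := by
    intro m
    rw [hu, hx]
  have hvx : ∀ m, v m r = inner ℝ m z - inner ℝ m x := by
    intro m
    rw [hv, hx]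
  have hin : ∀ m : E3, inner ℝ m (x + l • (z - x)) = inner ℝ m x + l * v m r := by
    intro m
    rw [inner_add_right, inner_smul_right, inner_sub_right, hvx]
  have he : x + l • (z - x) ∈ Int3 F {a, b, c} := by
    intro i hi
    have hi' : i = a ∨ i = b ∨ i = c := by simpa using hi
    have hxi := hxK i hi
    rcases hi' with h | h | h
    · exact seg_K hxi (hz i (by simp [h])) hl0 hl1
    · exact seg_K hxi (hz i (by simp [h])) hl0 hl1
    · subst h
      rw [mem_K] at hxi ⊢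
      intro ν hν
      rw [hin]
      by_cases hνM : F.h i ν < inner ℝ ν z
      · have h5 := hlm' ν (hNM ν hν hνM)
        rw [hux] at h5
        linarith
      · push Not at hνM
        have h5 := hxi ν hν
        rw [hvx]
        nlinarith
  have hT1 : F.Tight c γ (x + l • (z - x)) := by
    refine ⟨h1N, ?_⟩
    rw [hin, hlγ, hux]
    ring
  have hT2 : F.Tight c m (x + l • (z - x)) := by
    refine ⟨(hMN m hmM).1, ?_⟩
    rw [hin, hlm, hux]
    ring
  exact hmγ (hr _ he c hc m γ hT2 hT1)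

end UF.FP
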