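import Pool.Agent.Work.MP_4c5ddc_co.FP.Bas

/-!
# FP/Dis (M): the intersections of different clean triples are disjoint

PROOF. Suppose that `x` is in both. `Int3 F (t ∪ t')` is nonempty; let `p ∈ Vx F (t ∪ t')` (`int3_vertex` with any `g`). Then `p` is in
`Int3 F t` and in `Int3 F t'`, and no `w ≠ 0` is orthogonal to all tight normals of bodies of `t ∪ t'` at `p`.
Claim: `p ∈ Skel F t` or `p ∈ Skel F t'`. Otherwise any two tight normals of bodies of `t` at `p` are dependent (`linInd2`:
their cross product is `0`), so (unit vectors, `unit_pair`) all are `u` or `- u` for one `u` (or there are none, take `u = 0`); the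
same for `t'` with `u'`. By `exists_orth2` there is `w ≠ 0` orthogonal to `u` and `u'`, hence to all tight normals: contradiction.
Say `p ∈ Skel F t` (the other case is symmetric). As `t ≠ t'` have the same cardinality there is `d ∈ t'`, `d ∉ t`; `d ∈ S` by
`h'.sub` and `p ∈ F.K d`, against `h.empt`.
-/

set_option autoImplicit false

namespace UF.FP

variable {n : ℕ} {α : ℝ} {s : ℕ} {F : Fam n}

private theorem one_dir {t : Finset (Fin n)} (hG : Good α s F) {p : E3} (hp : p ∈ Int3 F t)
    (hs : p ∉ Skel F t) :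
    ∃ u : E3, ∀ i ∈ t, ∀ ν, F.Tight i ν p → ν = u ∨ ν = -u := by
  by_cases hne : ∃ i ∈ t, ∃ ν, F.Tight i ν p
  · obtain ⟨i, hi, u, hu⟩ := hne
    refine ⟨u, fun j hj ν hν => ?_⟩
    have hc : cr u ν = 0 := by
      by_contra hcr
      exact hs ⟨hp, i, hi, j, hj, u, ν, hu, hν, linInd2.2 hcr⟩
    exact (unit_pair (hG.unit i u hu.1) (hG.unit j ν hν.1)).1 hc
  · push Not at hne
    exact ⟨0, fun i hi ν hν => absurd hν (hne i hi ν)⟩

private theorem skel_or (hG : Good α s F) {t t' : Finset (Fin n)} {p : E3}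
    (hp : p ∈ Int3 F t) (hp' : p ∈ Int3 F t')
    (hv : ∀ w : E3, w ≠ 0 → ∃ i ∈ t ∪ t', ∃ ν, F.Tight i ν p ∧ inner ℝ ν w ≠ 0) :
    p ∈ Skel F t ∨ p ∈ Skel F t' := by
  by_contra hcon
  push Not at hcon
  obtain ⟨u, hu⟩ := one_dir hG hp hcon.1
  obtain ⟨u', hu'⟩ := one_dir hG hp' hcon.2
  obtain ⟨w, hw, h1, h2⟩ := exists_orth2 u u'
  obtain ⟨i, hi, ν, hν, hne⟩ := hv w hw
  rcases Finset.mem_union.1 hi with hi | hi
  · rcases hu i hi ν hν with rfl | rfl
    · exact hne h1
    · rw [inner_neg_left, h1, neg_zero] at hne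
      exact hne rfl
  · rcases hu' i hi ν hν with rfl | rfl
    · exact hne h2
    · rw [inner_neg_left, h2, neg_zero] at hne
      exact hne rfl

private theorem exists_diff {t t' : Finset (Fin n)} (hc : t.card = t'.card) (hne : t ≠ t') :
    ∃ d ∈ t', d ∉ t := by
  by_contra hcon
  push Not at hcon
  exact hne (Finset.eq_of_subset_of_card_le hcon hc.le).symm

theorem clean_disjoint (hG : Good α s F) {S t t' : Finset (Fin n)} (h : Clean F S t)
    (h' : Clean F S t') (hne : t ≠ t') {x : E3} (hx : x ∈ Int3 F t) : x ∉ Int3 F t' := by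
  classical
  intro hx'
  have hx2 : x ∈ Int3 F (t ∪ t') := by
    intro i hi
    rcases Finset.mem_union.1 hi with hi | hi
    · exact hx i hi
    · exact hx' i hi
  have htne : t.Nonempty := by
    rw [← Finset.card_pos, h.card]
    norm_num
  have hne2 : (t ∪ t').Nonempty := htne.mono Finset.subset_union_left
  obtain ⟨p, ⟨hp, hv⟩, _⟩ := int3_vertex hG hne2 ⟨x, hx2⟩ 0
  have hpt : p ∈ Int3 F t := fun i hi => hp i (Finset.mem_union_left _ hi)
  have hpt' : p ∈ Int3 F t' := fun i hi => hp i (Finset.mem_union_right _ hi)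
  rcases skel_or hG hpt hpt' hv with hs | hs
  · obtain ⟨d, hd, hdt⟩ := exists_diff (h.card.trans h'.card.symm) hne
    exact h.empt d (h'.sub hd) hdt p hs (hpt' d hd)
  · obtain ⟨d, hd, hdt⟩ := exists_diff (h'.card.trans h.card.symm) hne.symm
    exact h'.empt d (h.sub hd) hdt p hs (hpt d hd)

end UF.FP
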