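import Pool.Agent.Work.MP_4c5ddc_co.FP.Cap2
import Pool.Agent.Work.MP_4c5ddc_co.FP.Cap3
import Pool.Agent.Work.MP_4c5ddc_co.FP.Dis

/-!
# FP/Cap4 (M): partners with the same three vertices are equal

PROOF. Suppose `c ≠ c'`. `conn_cap` (used twice): if `Z ⊆ Int3 F {a, b}` is convex and `Z ∩ F.K c = ∅` then all points of `Z` lie in one cap of `c`: for
`z ∈ Z` there is by `exit_tight` (some point of `Int3 F {a, b, c}`, nonempty as the triple has a proper point) an active `γ` with `F.h c γ < γ · z`,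
unique by `caps_disjoint`; the sets `{z ∈ Z | F.h c γ < γ · z}` for active `γ` are relatively open, pairwise disjoint and cover the
connected set `Z`, so only one is nonempty.
Let `I' = Int3 F {a, b, c'}`: convex, contained in `Int3 F {a, b}`, and `I' ∩ F.K c = ∅` because a common point would be in
`Int3 F {a, b, c}` and in `Int3 F {a, b, c'}`, against `clean_disjoint` (`{a, b, c} ≠ {a, b, c'}`). So by `conn_cap` there is an active `γ` of `c`
with `F.h c γ < γ · z` for all `z ∈ I'`. As `γ₁, γ₂, γ₃` are different, at least two of the `uᵢ`, say `uᵢ, uⱼ`, have `γᵢ ≠ γ`, `γⱼ ≠ γ`, so by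
`caps_disjoint` `γ · uᵢ ≤ F.h c γ`, `γ · uⱼ ≤ F.h c γ`. The segment `[uᵢ, uⱼ]` lies in `Int3 F {a, b}` and in `{γ · z ≤ F.h c γ}`, so it does not
meet `I'`, i.e. it does not meet `F.K c'`. By `conn_cap` for `c'` it lies in one cap of `c'`, so `γ'ᵢ = γ'ⱼ` by
`caps_disjoint`, a contradiction.
-/

set_option autoImplicit false

namespace UF.FP

variable {n : ℕ} {α : ℝ} {s : ℕ} {F : Fam n}

private theorem seg_cap {a b c : Fin n} (hr : RF F {a, b, c})
    (hne : (Int3 F {a, b, c}).Nonempty) {z₀ z₁ : E3}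
    (h : ∀ z ∈ segment ℝ z₀ z₁, z ∈ Int3 F {a, b} ∧ z ∉ F.K c) {γ : E3}
    (hγ : γ ∈ Act F {a, b, c} c) (h0 : F.h c γ < inner ℝ γ z₀) : F.h c γ < inner ℝ γ z₁ := by
  classical
  by_contra h1
  obtain ⟨x, hx⟩ := hne
  have hcap : ∀ z ∈ segment ℝ z₀ z₁, ∃ γ' ∈ Act F {a, b, c} c, F.h c γ' < inner ℝ γ' z := by
    intro z hz
    obtain ⟨τ, -, -, -, γ', h2, -, h3⟩ := exit_tight hx (h z hz).1 (h z hz).2
    exact ⟨γ', h2, h3⟩
  have hop : ∀ m : E3, IsOpen {z : E3 | F.h c m < inner ℝ m z} := fun m =>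
    isOpen_lt continuous_const (by fun_prop)
  have hU : IsOpen (⋃ m ∈ (Act F {a, b, c} c).erase γ, {z : E3 | F.h c m < inner ℝ m z}) :=
    isOpen_biUnion fun m _ => hop m
  have hcov : segment ℝ z₀ z₁ ⊆ {z : E3 | F.h c γ < inner ℝ γ z} ∪
      ⋃ m ∈ (Act F {a, b, c} c).erase γ, {z : E3 | F.h c m < inner ℝ m z} := by
    intro z hz
    obtain ⟨γ', h2, h3⟩ := hcap z hz
    by_cases he : γ' = γ
    · left
      rw [← he]
      exact h3
    · right
      exact Set.mem_iUnion₂.2 ⟨γ', Finset.mem_erase.2 ⟨he, h2⟩, h3⟩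
  have hn1 : (segment ℝ z₀ z₁ ∩ {z : E3 | F.h c γ < inner ℝ γ z}).Nonempty :=
    ⟨z₀, left_mem_segment ℝ z₀ z₁, h0⟩
  have hn2 : (segment ℝ z₀ z₁ ∩
      ⋃ m ∈ (Act F {a, b, c} c).erase γ, {z : E3 | F.h c m < inner ℝ m z}).Nonempty := by
    refine ⟨z₁, right_mem_segment ℝ z₀ z₁, ?_⟩
    rcases hcov (right_mem_segment ℝ z₀ z₁) with h2 | h2
    · exact absurd h2 h1
    · exact h2
  obtain ⟨z, hz, hz1, hz2⟩ := (convex_segment z₀ z₁).isPreconnected _ _ (hop γ) hU hcov hn1 hn2
  obtain ⟨m, hm, hzm⟩ := Set.mem_iUnion₂.1 hz2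
  obtain ⟨hm1, hm2⟩ := Finset.mem_erase.1 hm
  exact hm1 (caps_disjoint hr (h z hz).1 hm2 hγ hzm hz1)

theorem partner_inj (hG : Good α s F) {S : Finset (Fin n)} {a b c c' : Fin n}
    (h : Clean F S {a, b, c}) (h' : Clean F S {a, b, c'}) {u γ γ' : Fin 3 → E3}
    (hu : ∀ i, u i ∈ Vx F {a, b}) (hγ : ∀ i, γ i ∈ Act F {a, b, c} c)
    (hγ' : ∀ i, γ' i ∈ Act F {a, b, c'} c') (hinj : Function.Injective γ)
    (hinj' : Function.Injective γ') (h1 : ∀ i, F.h c (γ i) < inner ℝ (γ i) (u i))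
    (h2 : ∀ i, F.h c' (γ' i) < inner ℝ (γ' i) (u i)) : c = c' := by
  classical
  by_contra hne
  obtain ⟨x, -, hx⟩ := h.prop
  obtain ⟨x', -, hx'⟩ := h'.prop
  have hxI : x ∈ Int3 F {a, b, c} := bd_sub_int hx
  have hxI' : x' ∈ Int3 F {a, b, c'} := bd_sub_int hx'
  have huI : ∀ i, u i ∈ Int3 F {a, b} := fun i => (hu i).1
  have hcne : c ≠ a ∧ c ≠ b := by
    have h3 := h.card
    constructor
    · rintro rfl
      have h4 : ({c, b, c} : Finset (Fin n)) = {b, c} := by
        ext y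
        simp only [Finset.mem_insert, Finset.mem_singleton]
        tauto
      rw [h4] at h3
      have := Finset.card_le_two (a := b) (b := c)
      omega
    · rintro rfl
      have h4 : ({a, c, c} : Finset (Fin n)) = {a, c} := by
        ext y
        simp only [Finset.mem_insert, Finset.mem_singleton]
        tauto
      rw [h4] at h3
      have := Finset.card_le_two (a := a) (b := c)
      omega
  have hts : ({a, b, c} : Finset (Fin n)) ≠ {a, b, c'} := by
    intro he
    have h3 : c ∈ ({a, b, c'} : Finset (Fin n)) := by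
      rw [← he]
      simp
    simp only [Finset.mem_insert, Finset.mem_singleton] at h3
    rcases h3 with h3 | h3 | h3
    · exact hcne.1 h3
    · exact hcne.2 h3
    · exact hne h3
  have hsub : ∀ (e : Fin n) (z : E3), z ∈ Int3 F {a, b, e} → z ∈ Int3 F {a, b} := by
    intro e z hz i hi
    refine hz i ?_
    simp only [Finset.mem_insert, Finset.mem_singleton] at hi ⊢
    tauto
  have hadd : ∀ (e : Fin n) (z : E3), z ∈ Int3 F {a, b} → z ∈ F.K e → z ∈ Int3 F {a, b, e} := by
    intro e z hz he i hi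
    simp only [Finset.mem_insert, Finset.mem_singleton] at hi
    rcases hi with hi | hi | hi
    · exact hz i (by simp [hi])
    · exact hz i (by simp [hi])
    · rw [hi]
      exact he
  have hdis : ∀ z ∈ Int3 F {a, b, c'}, z ∉ F.K c := by
    intro z hz hzc
    exact clean_disjoint hG h h' hts (hadd c z (hsub c' z hz) hzc) hz
  obtain ⟨τ, -, -, -, g, hg, -, hgx⟩ := exit_tight hxI (hsub c' x' hxI') (hdis x' hxI')
  have hall : ∀ z ∈ Int3 F {a, b, c'}, F.h c g < inner ℝ g z := by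
    intro z hz
    refine seg_cap h.rf ⟨x, hxI⟩ (z₀ := x') (z₁ := z) ?_ hg hgx
    intro y hy
    have h3 : y ∈ Int3 F {a, b, c'} := (convex_Int3 {a, b, c'}).segment_subset hxI' hz hy
    exact ⟨hsub c' y h3, hdis y h3⟩
  have hlow : ∀ i, γ i ≠ g → inner ℝ g (u i) ≤ F.h c g := by
    intro i hi
    by_contra h3
    push Not at h3
    exact hi (caps_disjoint h.rf (huI i) (hγ i) hg (h1 i) h3)
  have hfin : ∀ i j, γ i ≠ g → γ j ≠ g → i = j := by
    intro i j hi hj
    have hseg : ∀ z ∈ segment ℝ (u i) (u j), z ∈ Int3 F {a, b} ∧ z ∉ F.K c' := by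
      intro z hz
      have h3 : z ∈ Int3 F {a, b} := (convex_Int3 {a, b}).segment_subset (huI i) (huI j) hz
      refine ⟨h3, fun h4 => ?_⟩
      have h5 := hall z (hadd c' z h3 h4)
      obtain ⟨p, q, hp, hq, hpq, rfl⟩ := hz
      rw [inner_add_right, inner_smul_right, inner_smul_right] at h5
      have h6 := mul_le_mul_of_nonneg_left (hlow i hi) hp
      have h7 := mul_le_mul_of_nonneg_left (hlow j hj) hq
      have h8 : p * F.h c g + q * F.h c g = F.h c g := by rw [← add_mul, hpq, one_mul]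
      linarith
    have h3 := seg_cap h'.rf ⟨x', hxI'⟩ hseg (hγ' i) (h2 i)
    exact hinj' (caps_disjoint h'.rf (huI j) (hγ' i) (hγ' j) h3 (h2 j))
  by_cases e0 : γ 0 = g
  · have e1 : γ 1 ≠ g := fun e => by
      have := hinj (e.trans e0.symm)
      exact absurd this (by decide)
    have e2 : γ 2 ≠ g := fun e => by
      have := hinj (e.trans e0.symm)
      exact absurd this (by decide)
    exact absurd (hfin 1 2 e1 e2) (by decide)
  · by_cases e1 : γ 1 = g
    · have e2 : γ 2 ≠ g := fun e => by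
        have := hinj (e.trans e1.symm)
        exact absurd this (by decide)
      exact absurd (hfin 0 2 e0 e2) (by decide)
    · exact absurd (hfin 0 1 e0 e1) (by decide)

end UF.FP
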