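import Pool.Agent.Work.MP_4c5ddc_co.FP.Bas

/-!
# FP/VxC (S-M): the number of vertices of an intersection

PROOF. Let `X = t.sigma F.N` (a finite set with at most `t.card * s` elements). For `x ∈ Vx F t` by `exists_three` there are
`q₁, q₂, q₃ ∈ X`, tight at `x`, with `dt q₁.2 q₂.2 q₃.2 ≠ 0`. `x` is determined by `(q₁, q₂, q₃)` (`zero_of_three` for the difference
of two points with the same three equations). So choosing such a triple is an injection of `Vx F t` into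
`X × X × X` (as in `CO/Imp.lean`, or `Set.ncard_le_ncard_of_injOn`).
-/

set_option autoImplicit false

namespace UF.FP

variable {n : ℕ} {α : ℝ} {s : ℕ} {F : Fam n}

theorem vx_card (hG : Good α s F) (t : Finset (Fin n)) :
    (Vx F t).Finite ∧ (Vx F t).ncard ≤ (t.card * s) ^ 3 := by
  classical
  obtain ⟨X, hX⟩ : ∃ X : Finset (Σ _ : Fin n, E3), X = t.sigma F.N := ⟨_, rfl⟩
  have hXc : X.card ≤ t.card * s := by
    rw [hX, Finset.card_sigma]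
    exact (Finset.sum_le_card_nsmul t _ s fun i _ => hG.card i).trans (by rw [smul_eq_mul])
  obtain ⟨Q, hQ⟩ : ∃ Q : ((Σ _ : Fin n, E3) × (Σ _ : Fin n, E3) × (Σ _ : Fin n, E3)) → E3 → Prop,
      Q = fun q x => dt q.1.2 q.2.1.2 q.2.2.2 ≠ 0 ∧ inner ℝ q.1.2 x = F.h q.1.1 q.1.2 ∧
        inner ℝ q.2.1.2 x = F.h q.2.1.1 q.2.1.2 ∧ inner ℝ q.2.2.2 x = F.h q.2.2.1 q.2.2.2 :=
    ⟨_, rfl⟩
  have huniq : ∀ q x y, Q q x → Q q y → x = y := by
    intro q x y hx hy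
    rw [hQ] at hx hy
    obtain ⟨h0, h1, h2, h3⟩ := hx
    obtain ⟨-, h1', h2', h3'⟩ := hy
    refine sub_eq_zero.1 (zero_of_three h0 ?_ ?_ ?_)
    · rw [inner_sub_right, h1, h1', sub_self]
    · rw [inner_sub_right, h2, h2', sub_self]
    · rw [inner_sub_right, h3, h3', sub_self]
  have hex : ∀ x ∈ Vx F t, ∃ q ∈ X ×ˢ X ×ˢ X, Q q x := by
    intro x hx
    have h3 : ∃ u ∈ {ν : E3 | ∃ i ∈ t, F.Tight i ν x}, ∃ v ∈ {ν : E3 | ∃ i ∈ t, F.Tight i ν x},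
        ∃ w ∈ {ν : E3 | ∃ i ∈ t, F.Tight i ν x}, dt u v w ≠ 0 := by
      apply exists_three
      intro w hw
      obtain ⟨i, hi, ν, hν, hne⟩ := hx.2 w hw
      exact ⟨ν, ⟨i, hi, hν⟩, hne⟩
    obtain ⟨u, ⟨i, hi, hu⟩, v, ⟨j, hj, hv⟩, w, ⟨k, hk, hw⟩, hd⟩ := h3
    refine ⟨(⟨i, u⟩, ⟨j, v⟩, ⟨k, w⟩), ?_, ?_⟩
    · rw [Finset.mem_product, Finset.mem_product, hX]
      exact ⟨Finset.mem_sigma.2 ⟨hi, hu.1⟩, Finset.mem_sigma.2 ⟨hj, hv.1⟩,
        Finset.mem_sigma.2 ⟨hk, hw.1⟩⟩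
    · rw [hQ]
      exact ⟨hd, hu.2, hv.2, hw.2⟩
  obtain ⟨G, hG'⟩ : ∃ G : ((Σ _ : Fin n, E3) × (Σ _ : Fin n, E3) × (Σ _ : Fin n, E3)) → E3,
      ∀ q x, Q q x → G q = x := by
    refine ⟨fun q => if h : ∃ x, Q q x then h.choose else 0, fun q x hx => ?_⟩
    have h : ∃ x, Q q x := ⟨x, hx⟩
    simp only [dif_pos h]
    exact huniq q _ _ h.choose_spec hx
  have hsub : Vx F t ⊆ (((X ×ˢ X ×ˢ X).image G : Finset E3) : Set E3) := by
    intro x hx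
    obtain ⟨q, hq, hqx⟩ := hex x hx
    exact Finset.mem_coe.2 (Finset.mem_image.2 ⟨q, hq, hG' q x hqx⟩)
  have hfin : (((X ×ˢ X ×ˢ X).image G : Finset E3) : Set E3).Finite := Finset.finite_toSet _
  refine ⟨hfin.subset hsub, ?_⟩
  calc (Vx F t).ncard ≤ (((X ×ˢ X ×ˢ X).image G : Finset E3) : Set E3).ncard :=
        Set.ncard_le_ncard hsub hfin
    _ = ((X ×ˢ X ×ˢ X).image G).card := Set.ncard_coe_finset _
    _ ≤ (X ×ˢ X ×ˢ X).card := Finset.card_image_le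
    _ = X.card ^ 3 := by
        rw [Finset.card_product, Finset.card_product]
        ring
    _ ≤ (t.card * s) ^ 3 := Nat.pow_le_pow_left hXc 3

end UF.FP
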