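import Pool.Agent.Work.MP_4c5ddc_co.FP.Cap4
import Pool.Agent.Work.MP_4c5ddc_co.FP.VxC

/-!
# FP/Cap5 (M): the number of clean triples with at least three active normals of a body

PROOF. Fix `a, b`. For every `c` in the set `Q` of the `c ∈ S` with `Clean F S {a, b, c}` and `3 ≤ (Act F {a, b, c} c).card` choose an injective
`γ : Fin 3 → E3` with values in `Act F {a, b, c} c` (`Finset.exists_subset_card_eq`, `Finset.equivFin`) and by `cap_vertex` `u i ∈ Vx F {a, b}` with
`F.h c (γ i) < γ i · u i`. By `partner_inj` the map `c ↦ u` is injective on `Q`, so `Q.card ≤ ((Vx F {a, b}).ncard) ^ 3 ≤ ((2 s) ^ 3) ^ 3`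
(`vx_card`, `({a, b} : Finset _).card ≤ 2`). (Functions `Fin 3 → Vx` or triples.)
Every `t` in the set of the theorem is `{a, b, c}` with `c ∈ Q a b`, `a, b ∈ S` (take for `c` the body with at least three active
normals and for `a, b` the two others: `Finset.card_eq_three`), so the number is at most the sum over `(a, b) ∈ S × S` of `(Q a b).card`.
-/

set_option autoImplicit false

namespace UF.FP

variable {n : ℕ} {α : ℝ} {s : ℕ} {F : Fam n}

open scoped Classical in
private theorem q_card (hG : Good α s F) (S : Finset (Fin n)) (a b : Fin n) :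
    (S.filter fun c => Clean F S {a, b, c} ∧ 3 ≤ (Act F {a, b, c} c).card).card ≤
      (2 * s) ^ 9 := by
  have hex : ∀ c ∈ S.filter (fun c => Clean F S {a, b, c} ∧ 3 ≤ (Act F {a, b, c} c).card),
      ∃ u γ : Fin 3 → E3, (∀ i, u i ∈ Vx F {a, b}) ∧ (∀ i, γ i ∈ Act F {a, b, c} c) ∧
        Function.Injective γ ∧ ∀ i, F.h c (γ i) < inner ℝ (γ i) (u i) := by
    intro c hc
    obtain ⟨-, hcl, h3⟩ := Finset.mem_filter.1 hc
    obtain ⟨f⟩ : Nonempty (Fin 3 ↪ (Act F {a, b, c} c : Finset E3)) :=
      Function.Embedding.nonempty_of_card_le (by simpa using h3)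
    have hv : ∀ i : Fin 3, ∃ u ∈ Vx F {a, b}, F.h c (f i : E3) < inner ℝ (f i : E3) u :=
      fun i => cap_vertex hG hcl.rf (f i).2
    choose u hu hlt using hv
    exact ⟨u, fun i => (f i : E3), hu, fun i => (f i).2,
      fun i j hij => f.injective (Subtype.ext hij), hlt⟩
  choose! u γ hu hγ hinj hlt using hex
  obtain ⟨hfin, hcard⟩ := vx_card hG ({a, b} : Finset (Fin n))
  have h1 : (S.filter fun c => Clean F S {a, b, c} ∧ 3 ≤ (Act F {a, b, c} c).card).card ≤
      (Fintype.piFinset (fun _ : Fin 3 => hfin.toFinset)).card := by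
    refine Finset.card_le_card_of_injOn u (fun c hc => ?_) (fun c hc c' hc' he => ?_)
    · rw [Finset.mem_coe, Fintype.mem_piFinset]
      intro i
      rw [Set.Finite.mem_toFinset]
      exact hu c hc i
    · have hc1 := (Finset.mem_filter.1 hc).2.1
      have hc2 := (Finset.mem_filter.1 hc').2.1
      refine partner_inj hG hc1 hc2 (hu c hc) (hγ c hc) (hγ c' hc') (hinj c hc) (hinj c' hc')
        (hlt c hc) ?_
      intro i
      rw [he]
      exact hlt c' hc' i
  rw [Fintype.card_piFinset_const] at h1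
  have h2 : hfin.toFinset.card ≤ (2 * s) ^ 3 := by
    rw [← Set.ncard_eq_toFinset_card _ hfin]
    refine hcard.trans (Nat.pow_le_pow_left ?_ 3)
    exact Nat.mul_le_mul_right s Finset.card_le_two
  calc _ ≤ hfin.toFinset.card ^ 3 := h1
    _ ≤ ((2 * s) ^ 3) ^ 3 := Nat.pow_le_pow_left h2 3
    _ = (2 * s) ^ 9 := by rw [← pow_mul]

open scoped Classical in
theorem many_count (hG : Good α s F) (S : Finset (Fin n)) :
    ((S.powersetCard 3).filter fun t => Clean F S t ∧ ∃ i ∈ t, 3 ≤ (Act F t i).card).card ≤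
      (2 * s) ^ 9 * S.card ^ 2 := by
  have hsub : ((S.powersetCard 3).filter fun t => Clean F S t ∧ ∃ i ∈ t, 3 ≤ (Act F t i).card) ⊆
      (S ×ˢ S).biUnion (fun p => (S.filter fun c => Clean F S {p.1, p.2, c} ∧
        3 ≤ (Act F {p.1, p.2, c} c).card).image fun c => {p.1, p.2, c}) := by
    intro t ht
    obtain ⟨ht1, hcl, c, hc, h3⟩ := Finset.mem_filter.1 ht
    obtain ⟨htS, htc⟩ := Finset.mem_powersetCard.1 ht1
    have h2 : (t.erase c).card = 2 := by
      rw [Finset.card_erase_of_mem hc, htc]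
    obtain ⟨a, b, hab, he⟩ := Finset.card_eq_two.1 h2
    have ht' : t = {a, b, c} := by
      have h4 : insert c (t.erase c) = t := Finset.insert_erase hc
      rw [← h4, he]
      ext y
      simp only [Finset.mem_insert, Finset.mem_singleton]
      tauto
    have ha : a ∈ S := htS (by rw [ht']; simp)
    have hb : b ∈ S := htS (by rw [ht']; simp)
    refine Finset.mem_biUnion.2 ⟨(a, b), Finset.mem_product.2 ⟨ha, hb⟩, ?_⟩
    refine Finset.mem_image.2 ⟨c, Finset.mem_filter.2 ⟨htS hc, ?_⟩, ht'.symm⟩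
    rw [ht'] at hcl h3
    exact ⟨hcl, h3⟩
  refine (Finset.card_le_card hsub).trans (Finset.card_biUnion_le.trans ?_)
  refine (Finset.sum_le_card_nsmul _ _ ((2 * s) ^ 9) fun p _ =>
    Finset.card_image_le.trans (q_card hG S p.1 p.2)).trans ?_
  rw [Finset.card_product, smul_eq_mul]
  apply le_of_eq
  ring

end UF.FP
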