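import Pool.Agent.Work.MP_4c5ddc_co.FP.DefsP

/-!
# FP/Clsf (M): classes of frames

`mf k m` is the frame `(1, m 2^k), (0, 2^k)`: `nrm (mf k m) q = max |q.1 + m 2^k q.2| (2^k |q.2|)`.

PROOF. `exists_class`: `nrm` does not change if `ξ 0`, `ξ 1` are exchanged, so let `|(ξ 0).1| ≥ |(ξ 1).1|`; `p = (ξ 0).1 ≠ 0` because the wedge is not `0`. Put
`u = (ξ 0).2 / p`, `V = wd (ξ 0) (ξ 1)`, `v = |V| / p ^ 2 > 0`, `r = (ξ 1).1 / p`, `|r| ≤ 1`: `ev (ξ 0) q = p (q.1 + u q.2)`,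
`ev (ξ 1) q = r * ev (ξ 0) q + (V / p) * q.2`. So with `N' q = max |q.1 + u q.2| (v |q.2|)`: `nrm ξ q ≤ 2 |p| N' q` and `|p| N' q ≤ 2 nrm ξ q`
(`|p| v |q.2| = |V / p| |q.2| ≤ |ev (ξ 1) q| + |ev (ξ 0) q|`). Let `k` with `2^k ≤ v < 2^(k+1)` (`Int.log`, `exists_mem_Ico_zpow`) and `m = ⌊u / 2^k⌋`, so `0 ≤ u - m 2^k < 2^k`. Then
`N' q ≤ 2 nrm (mf k m) q` and `nrm (mf k m) q ≤ 2 N' q`. So `l = |p|` and the constant `4`.
`class_near`: let `l` be as in `Cn L (mf k m) (mf k' m')`. `q = (1, 0)`: both norms are `1`, so `1 ≤ L l`, `l ≤ L`. Hence (`*`) `nrm (mf k' m') q ≤ L ^ 2 nrm (mf k m) q` and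
`nrm (mf k m) q ≤ L ^ 2 nrm (mf k' m') q` for all `q`. `q = (- m 2^k, 1)`: `nrm (mf k m) q = 2^k`, so `2^k' ≤ L ^ 2 2^k` and `|m' 2^k' - m 2^k| ≤ L ^ 2 2^k`; symmetrically
`2^k ≤ L ^ 2 2^k'`. So `|k' - k| ≤ log2 (L ^ 2)`, finitely many (a number depending on `L`) values `k' - k`; and `|m' - m 2^(k-k')| ≤ L ^ 2 2^(k-k') ≤ L ^ 4`, so for given `k'` at most
`2 L ^ 4 + 1` values `m'`. The finset `Z` of all `(k', m')` with `Cn L (mf k m) (mf k' m')` is finite with at most `M` elements: state with `Finset`: every finset `Z` of such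
pairs has at most `M` elements (`Z ⊆` the image of a product of two intervals of integers).
`Cn_symm`, `Cn_trans`: `Cn L ξ ζ` gives `Cn L ζ ξ` with `l⁻¹`; `Cn L ξ ζ`, `Cn L' ζ χ` give `Cn (L * L') ξ χ` with the product.
-/

set_option autoImplicit false

namespace UF.FP

theorem Cn_symm {L : ℝ} {ξ ζ : Fin 2 → ℝ × ℝ} (h : Cn L ξ ζ) : Cn L ζ ξ := by
  obtain ⟨l, hl, h⟩ := h
  refine ⟨l⁻¹, inv_pos.2 hl, fun q => ?_⟩
  obtain ⟨h1, h2⟩ := h q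
  constructor
  · have e : L * (l⁻¹ * nrm ξ q) = L * nrm ξ q / l := by field_simp
    rw [e, le_div_iff₀ hl]
    linarith
  · have e : l⁻¹ * nrm ξ q = nrm ξ q / l := by field_simp
    rw [e, div_le_iff₀ hl]
    linarith

theorem Cn_trans {L L' : ℝ} (hL : 0 ≤ L) (hL' : 0 ≤ L') {ξ ζ χ : Fin 2 → ℝ × ℝ} (h : Cn L ξ ζ)
    (h' : Cn L' ζ χ) : Cn (L * L') ξ χ := by
  obtain ⟨l, hl, h⟩ := h
  obtain ⟨l', hl', h'⟩ := h'
  refine ⟨l * l', mul_pos hl hl', fun q => ?_⟩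
  obtain ⟨h1, h2⟩ := h q
  obtain ⟨h3, h4⟩ := h' q
  constructor
  · calc nrm ξ q ≤ L * (l * nrm ζ q) := h1
      _ ≤ L * (l * (L' * (l' * nrm χ q))) := by gcongr
      _ = L * L' * (l * l' * nrm χ q) := by ring
  · calc l * l' * nrm χ q = l * (l' * nrm χ q) := by ring
      _ ≤ l * (L' * nrm ζ q) := by gcongr
      _ = L' * (l * nrm ζ q) := by ring
      _ ≤ L' * (L * nrm ξ q) := by gcongr
      _ = L * L' * nrm ξ q := by ring

private theorem nrm_mf (k m : ℤ) (q : ℝ × ℝ) :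
    nrm (mf k m) q = max |q.1 + (m : ℝ) * 2 ^ k * q.2| (2 ^ k * |q.2|) := by
  have h2 : (0 : ℝ) < 2 ^ k := by positivity
  unfold nrm mf ev
  simp only [Matrix.cons_val_zero, Matrix.cons_val_one, one_mul, zero_mul, zero_add]
  rw [abs_mul, abs_of_pos h2]

private theorem class_aux (x y : ℝ × ℝ) (h : wd x y ≠ 0) (hxy : |y.1| ≤ |x.1|) :
    ∃ k m : ℤ, ∃ l : ℝ, 0 < l ∧ ∀ q, max |ev x q| |ev y q| ≤ 4 * (l * nrm (mf k m) q) ∧
      l * nrm (mf k m) q ≤ 4 * max |ev x q| |ev y q| := by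
  have hp : x.1 ≠ 0 := by
    intro h0
    rw [h0, abs_zero] at hxy
    have hy0 : y.1 = 0 := abs_nonpos_iff.1 hxy
    apply h
    unfold wd
    rw [h0, hy0]
    ring
  have hp' : 0 < |x.1| := abs_pos.2 hp
  have hV : 0 < |wd x y| := abs_pos.2 h
  obtain ⟨v, hv⟩ : ∃ v : ℝ, v = |wd x y| / |x.1| ^ 2 := ⟨_, rfl⟩
  have hv0 : 0 < v := by rw [hv]; positivity
  obtain ⟨u, hu⟩ : ∃ u : ℝ, u = x.2 / x.1 := ⟨_, rfl⟩
  obtain ⟨k, hk1, hk2⟩ := exists_mem_Ico_zpow hv0 (one_lt_two)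
  have h2k : (0 : ℝ) < 2 ^ k := by positivity
  rw [zpow_add_one₀ (two_ne_zero)] at hk2
  obtain ⟨m, hm⟩ : ∃ m : ℤ, m = ⌊u / 2 ^ k⌋ := ⟨_, rfl⟩
  have hm1 : (m : ℝ) * 2 ^ k ≤ u := by
    rw [← le_div_iff₀ h2k, hm]
    exact Int.floor_le _
  have hm2 : u < (m : ℝ) * 2 ^ k + 2 ^ k := by
    have h1 : u / 2 ^ k < (m : ℝ) + 1 := by
      rw [hm]
      exact Int.lt_floor_add_one _
    rw [div_lt_iff₀ h2k] at h1
    linarith
  refine ⟨k, m, |x.1|, hp', fun q => ?_⟩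
  rw [nrm_mf]
  obtain ⟨N1, hN1⟩ : ∃ N1 : ℝ, N1 = max |ev x q| |ev y q| := ⟨_, rfl⟩
  obtain ⟨N2, hN2⟩ : ∃ N2 : ℝ, N2 = max |q.1 + (m : ℝ) * 2 ^ k * q.2| (2 ^ k * |q.2|) := ⟨_, rfl⟩
  rw [← hN1, ← hN2]
  have a1 : |ev x q| ≤ N1 := by rw [hN1]; exact le_max_left _ _
  have a2 : |ev y q| ≤ N1 := by rw [hN1]; exact le_max_right _ _
  have b1 : |q.1 + (m : ℝ) * 2 ^ k * q.2| ≤ N2 := by rw [hN2]; exact le_max_left _ _
  have b2 : 2 ^ k * |q.2| ≤ N2 := by rw [hN2]; exact le_max_right _ _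
  have ex : |ev x q| = |x.1| * |q.1 + u * q.2| := by
    rw [← abs_mul]
    congr 1
    unfold ev
    rw [hu]
    field_simp
  have ey : ev y q = y.1 / x.1 * ev x q + wd x y / x.1 * q.2 := by
    unfold ev wd
    field_simp
    ring
  have hr : |y.1 / x.1| ≤ 1 := by
    rw [abs_div, div_le_one hp']
    exact hxy
  have hw : |wd x y / x.1 * q.2| = |x.1| * (v * |q.2|) := by
    rw [abs_mul, abs_div, hv]
    field_simp
  have hq2 : 0 ≤ |q.2| := abs_nonneg _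
  have hdiff : |(u - (m : ℝ) * 2 ^ k) * q.2| ≤ 2 ^ k * |q.2| := by
    rw [abs_mul]
    refine mul_le_mul_of_nonneg_right ?_ hq2
    rw [abs_le]
    constructor <;> linarith
  have c1 : |q.1 + u * q.2| ≤ |q.1 + (m : ℝ) * 2 ^ k * q.2| + 2 ^ k * |q.2| := by
    have e : q.1 + u * q.2 = (q.1 + (m : ℝ) * 2 ^ k * q.2) + (u - (m : ℝ) * 2 ^ k) * q.2 := by
      ring
    rw [e]
    exact (abs_add_le _ _).trans (by linarith)
  have c2 : |q.1 + (m : ℝ) * 2 ^ k * q.2| ≤ |q.1 + u * q.2| + 2 ^ k * |q.2| := by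
    have e : q.1 + (m : ℝ) * 2 ^ k * q.2 = (q.1 + u * q.2) - (u - (m : ℝ) * 2 ^ k) * q.2 := by
      ring
    rw [e]
    exact (abs_sub _ _).trans (by linarith)
  have c3 : v * |q.2| ≤ 2 * (2 ^ k * |q.2|) := by
    have := mul_le_mul_of_nonneg_right hk2.le hq2
    linarith
  have c4 : 2 ^ k * |q.2| ≤ v * |q.2| := mul_le_mul_of_nonneg_right hk1 hq2
  have hrx : |y.1 / x.1 * ev x q| ≤ |ev x q| := by
    rw [abs_mul]
    exact mul_le_of_le_one_left (abs_nonneg _) hr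
  constructor
  · -- nrm ξ ≤ 4 |p| N2
    have d1 : |ev x q| ≤ |x.1| * (2 * N2) := by
      rw [ex]
      exact mul_le_mul_of_nonneg_left (by linarith) hp'.le
    have d2 : |wd x y / x.1 * q.2| ≤ |x.1| * (2 * N2) := by
      rw [hw]
      exact mul_le_mul_of_nonneg_left (by linarith) hp'.le
    have d3 : |ev y q| ≤ |ev x q| + |wd x y / x.1 * q.2| := by
      rw [ey]
      refine (abs_add_le _ _).trans ?_
      rw [← ey] at *
      linarith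
    rw [hN1]
    have hN2' : 0 ≤ N2 := (abs_nonneg _).trans b1
    have hpN : 0 ≤ |x.1| * N2 := mul_nonneg hp'.le hN2'
    refine max_le ?_ ?_
    · linarith
    · linarith
  · have d1 : |x.1| * |q.1 + u * q.2| ≤ N1 := by rw [← ex]; exact a1
    have d2 : |x.1| * (v * |q.2|) ≤ 2 * N1 := by
      rw [← hw]
      have e : wd x y / x.1 * q.2 = ev y q - y.1 / x.1 * ev x q := by
        rw [ey]
        ring
      rw [e]
      exact (abs_sub _ _).trans (by linarith)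
    have d3 : |x.1| * (2 ^ k * |q.2|) ≤ 2 * N1 :=
      (mul_le_mul_of_nonneg_left c4 hp'.le).trans d2
    rw [hN2, mul_max_of_nonneg _ _ hp'.le]
    refine max_le ?_ ?_
    · have := mul_le_mul_of_nonneg_left c2 hp'.le
      have hN0 : 0 ≤ N1 := (abs_nonneg _).trans a1
      linarith
    · have hN0 : 0 ≤ N1 := (abs_nonneg _).trans a1
      linarith

theorem exists_class {ξ : Fin 2 → ℝ × ℝ} (h : wd (ξ 0) (ξ 1) ≠ 0) :
    ∃ k m : ℤ, Cn 4 ξ (mf k m) := by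
  rcases le_total |(ξ 1).1| |(ξ 0).1| with h1 | h1
  · obtain ⟨k, m, l, hl, H⟩ := class_aux (ξ 0) (ξ 1) h h1
    exact ⟨k, m, l, hl, H⟩
  · have h' : wd (ξ 1) (ξ 0) ≠ 0 := by
      intro h0
      apply h
      have : wd (ξ 0) (ξ 1) = -wd (ξ 1) (ξ 0) := by
        unfold wd
        ring
      rw [this, h0, neg_zero]
    obtain ⟨k, m, l, hl, H⟩ := class_aux (ξ 1) (ξ 0) h' h1
    refine ⟨k, m, l, hl, fun q => ?_⟩
    have := H q
    rw [max_comm] at this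
    exact this

private theorem near_aux {L : ℝ} (hL : 1 ≤ L) {k m k' m' : ℤ} (h : Cn L (mf k m) (mf k' m')) :
    (2 : ℝ) ^ k' ≤ L ^ 2 * 2 ^ k ∧ |(m' : ℝ) * 2 ^ k' - m * 2 ^ k| ≤ L ^ 2 * 2 ^ k := by
  obtain ⟨l, hl, H⟩ := h
  have h2k : (0 : ℝ) < 2 ^ k := by positivity
  have h2k' : (0 : ℝ) < 2 ^ k' := by positivity
  have h10 := (H (1, 0)).1
  rw [nrm_mf, nrm_mf] at h10
  simp only [mul_zero, add_zero, abs_one, abs_zero] at h10
  rw [max_eq_left zero_le_one] at h10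
  have hLl : 1 ≤ L * l := by linarith
  have hq := (H (-(m : ℝ) * 2 ^ k, 1)).2
  rw [nrm_mf, nrm_mf] at hq
  simp only [mul_one, abs_one] at hq
  have e0 : -(m : ℝ) * 2 ^ k + (m : ℝ) * 2 ^ k = 0 := by ring
  rw [e0, abs_zero, max_eq_right h2k.le] at hq
  obtain ⟨N, hN⟩ : ∃ N : ℝ, N = max |-(m : ℝ) * 2 ^ k + (m' : ℝ) * 2 ^ k'| (2 ^ k') := ⟨_, rfl⟩
  rw [← hN] at hq
  have hN0 : 0 ≤ N := by rw [hN]; exact (abs_nonneg _).trans (le_max_left _ _)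
  have hfin : N ≤ L ^ 2 * 2 ^ k := by
    calc N = 1 * N := (one_mul N).symm
      _ ≤ (L * l) * N := mul_le_mul_of_nonneg_right hLl hN0
      _ = L * (l * N) := by ring
      _ ≤ L * (L * 2 ^ k) := mul_le_mul_of_nonneg_left hq (by linarith)
      _ = L ^ 2 * 2 ^ k := by ring
  constructor
  · refine le_trans ?_ hfin
    rw [hN]
    exact le_max_right _ _
  · refine le_trans ?_ hfin
    rw [hN]
    refine le_trans (le_of_eq ?_) (le_max_left _ _)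
    congr 1
    ring

theorem class_near {L : ℝ} (hL : 1 ≤ L) : ∃ M : ℕ, ∀ (k m : ℤ) (Z : Finset (ℤ × ℤ)),
    (∀ z ∈ Z, Cn L (mf k m) (mf z.1 z.2)) → Z.card ≤ M := by
  classical
  obtain ⟨P, hP⟩ := pow_unbounded_of_one_lt (L ^ 2) (one_lt_two : (1 : ℝ) < 2)
  refine ⟨(2 * P + 1) * (2 * (2 ^ P * 2 ^ P) + 1), fun k m Z hZ => ?_⟩
  have key : ∀ z ∈ Z, z.1 ∈ Finset.Icc (k - P) (k + P) ∧
      z.2 ∈ Finset.Icc ⌈(m : ℝ) * 2 ^ (k - z.1) - (2 ^ P * 2 ^ P : ℕ)⌉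
        ⌊(m : ℝ) * 2 ^ (k - z.1) + (2 ^ P * 2 ^ P : ℕ)⌋ := by
    intro z hz
    obtain ⟨a1, a2⟩ := near_aux hL (hZ z hz)
    obtain ⟨b1, -⟩ := near_aux hL (Cn_symm (hZ z hz))
    have hk0 : (0 : ℝ) < 2 ^ k := by positivity
    have hz0 : (0 : ℝ) < 2 ^ z.1 := by positivity
    have c1 : z.1 ≤ k + P := by
      have : (2 : ℝ) ^ z.1 ≤ 2 ^ (k + P) := by
        rw [zpow_add₀ (two_ne_zero), zpow_natCast]
        nlinarith
      exact (zpow_le_zpow_iff_right₀ (one_lt_two)).1 this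
    have c2' : (2 : ℝ) ^ k ≤ 2 ^ (z.1 + P) := by
      rw [zpow_add₀ (two_ne_zero), zpow_natCast]
      nlinarith
    have c2 : k ≤ z.1 + P := (zpow_le_zpow_iff_right₀ (one_lt_two)).1 c2'
    refine ⟨Finset.mem_Icc.2 ⟨by linarith, c1⟩, ?_⟩
    have e1 : (2 : ℝ) ^ (k - z.1) = 2 ^ k / 2 ^ z.1 := zpow_sub₀ two_ne_zero _ _
    have e2 : (2 : ℝ) ^ (k - z.1) ≤ 2 ^ P := by
      rw [e1, div_le_iff₀ hz0]
      rw [zpow_add₀ (two_ne_zero), zpow_natCast] at c2'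
      linarith
    have e3 : |(z.2 : ℝ) - m * 2 ^ (k - z.1)| ≤ L ^ 2 * 2 ^ (k - z.1) := by
      have : (z.2 : ℝ) - m * 2 ^ (k - z.1) = ((z.2 : ℝ) * 2 ^ z.1 - m * 2 ^ k) / 2 ^ z.1 := by
        rw [e1]
        field_simp
      rw [this, abs_div, abs_of_pos hz0, e1, div_le_iff₀ hz0]
      calc |(z.2 : ℝ) * 2 ^ z.1 - m * 2 ^ k| ≤ L ^ 2 * 2 ^ k := a2
        _ = L ^ 2 * (2 ^ k / 2 ^ z.1) * 2 ^ z.1 := by field_simp
    have e4 : L ^ 2 * 2 ^ (k - z.1) ≤ ((2 ^ P * 2 ^ P : ℕ) : ℝ) := by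
      push_cast
      have h0 : (0 : ℝ) ≤ 2 ^ (k - z.1) := by positivity
      exact mul_le_mul hP.le e2 h0 (by positivity)
    have e5 := abs_le.1 (e3.trans e4)
    rw [Finset.mem_Icc]
    constructor
    · rw [Int.ceil_le]
      linarith [e5.1]
    · rw [Int.le_floor]
      linarith [e5.2]
  have hsub : Z ⊆ (Finset.Icc (k - P) (k + P)).biUnion fun k' =>
      (Finset.Icc ⌈(m : ℝ) * 2 ^ (k - k') - (2 ^ P * 2 ^ P : ℕ)⌉
        ⌊(m : ℝ) * 2 ^ (k - k') + (2 ^ P * 2 ^ P : ℕ)⌋).image fun m' => (k', m') := by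
    intro z hz
    obtain ⟨h1, h2⟩ := key z hz
    exact Finset.mem_biUnion.2 ⟨z.1, h1, Finset.mem_image.2 ⟨z.2, h2, rfl⟩⟩
  refine (Finset.card_le_card hsub).trans ?_
  refine (Finset.card_biUnion_le_card_mul _ _ (2 * (2 ^ P * 2 ^ P) + 1) ?_).trans ?_
  · intro k' _
    refine Finset.card_image_le.trans ?_
    rw [Int.card_Icc]
    have f1 := Int.floor_le ((m : ℝ) * 2 ^ (k - k') + (2 ^ P * 2 ^ P : ℕ))
    have f2 := Int.le_ceil ((m : ℝ) * 2 ^ (k - k') - (2 ^ P * 2 ^ P : ℕ))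
    have f3 : ((⌊(m : ℝ) * 2 ^ (k - k') + (2 ^ P * 2 ^ P : ℕ)⌋ -
        ⌈(m : ℝ) * 2 ^ (k - k') - (2 ^ P * 2 ^ P : ℕ)⌉ : ℤ) : ℝ) ≤
        ((2 * (2 ^ P * 2 ^ P : ℕ) : ℤ) : ℝ) := by
      push_cast at *
      linarith
    have f4 := Int.cast_le.1 f3
    rw [Int.toNat_le]
    push_cast at f4 ⊢
    linarith
  · gcongr
    rw [Int.card_Icc]
    omega

end UF.FP
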