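import Pool.Agent.Work.MP_4c5ddc_co.CO.Poly

/-!
# FP/Defs (FIXED): general fat polytopes, definitions

The bodies are `F.K i = {x | ∀ ν ∈ F.N i, inner ℝ ν x ≤ F.h i ν}` with unit normals
(`Good`). A PROPER triple point (`Prp`) is a point on the boundaries of exactly three bodies, each with exactly
one tight normal. `Imp`: the improper points. For a set `t` of (three) bodies `Int3 F t` is the
intersection of its bodies, `RF` (ridge free): at no point of the intersection does a body of `t` have two
tight normals; `Skel`: the points of the intersection with two linearly independent tight normals of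
bodies of `t` (for a clean triple: the vertices and edges of the intersection). A triple is CLEAN in
`S` if it is ridge free, has a proper triple point, and the other bodies of `S` do not meet its skeleton.
-/

set_option autoImplicit false

namespace UF.FP

/-- A family of `n` polyhedra: facet normals and heights. -/
structure Fam (n : ℕ) where
  /-- the facet normals -/
  N : Fin n → Finset E3
  /-- the heights of the facets -/
  h : Fin n → E3 → ℝ

variable {n : ℕ}

/-- The `i`-th body. -/
def Fam.K (F : Fam n) (i : Fin n) : Set E3 := CO.poly (F.N i) (F.h i)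

/-- `ν` is a tight normal of the body `i` at `x`. -/
def Fam.Tight (F : Fam n) (i : Fin n) (ν x : E3) : Prop := ν ∈ F.N i ∧ inner ℝ ν x = F.h i ν

/-- `x` is a boundary point of the body `i`. -/
def Fam.Bd (F : Fam n) (i : Fin n) (x : E3) : Prop := x ∈ F.K i ∧ ∃ ν, F.Tight i ν x

open scoped Classical in
/-- The bodies whose boundary contains `x`. -/
noncomputable def Fam.bd (F : Fam n) (x : E3) : Finset (Fin n) := Finset.univ.filter fun i => F.Bd i x

/-- The standing assumptions: unit normals, at most `s` facets, fat, at most three boundaries through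
a point, no direction orthogonal to all tight normals at a triple point, finitely many triple
points. -/
structure Good (α : ℝ) (s : ℕ) (F : Fam n) : Prop where
  unit : ∀ i, ∀ ν ∈ F.N i, ‖ν‖ = 1
  card : ∀ i, (F.N i).card ≤ s
  fat : ∀ i, Fat α (F.K i)
  three : ∀ x, (F.bd x).card ≤ 3
  nodir : ∀ x, (F.bd x).card = 3 → ∀ w : E3, w ≠ 0 → ∃ i ∈ F.bd x, ∃ ν, F.Tight i ν x ∧
    inner ℝ ν w ≠ 0
  fin : {x | (F.bd x).card = 3}.Finite

/-- Proper triple points: exactly three boundaries, one tight normal of each of the three bodies. -/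
def Prp (F : Fam n) (x : E3) : Prop :=
  (F.bd x).card = 3 ∧ ∀ i ∈ F.bd x, ∀ ν μ, F.Tight i ν x → F.Tight i μ x → ν = μ

/-- The improper points: on three planes with independent normals of at most two bodies. -/
def Imp (F : Fam n) : Set E3 :=
  {x | ∃ i j, ∃ ν₁ ν₂ ν₃ : E3, LinearIndependent ℝ ![ν₁, ν₂, ν₃] ∧ F.Tight i ν₁ x ∧
    F.Tight i ν₂ x ∧ F.Tight j ν₃ x}

open scoped Classical in
/-- The number of bodies of `S` containing `x` in the interior. -/
noncomputable def dep (F : Fam n) (S : Finset (Fin n)) (x : E3) : ℕ :=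
  (S.filter fun d => x ∈ interior (F.K d)).card

/-- The proper triple points of bodies of `S` of depth at most `k` in `S`. -/
def Vs (F : Fam n) (S : Finset (Fin n)) (k : ℕ) : Set E3 := {x | Prp F x ∧ F.bd x ⊆ S ∧ dep F S x ≤ k}

/-- The intersection of the bodies of `t`. -/
def Int3 (F : Fam n) (t : Finset (Fin n)) : Set E3 := {x | ∀ i ∈ t, x ∈ F.K i}

/-- `t` is ridge free. -/
def RF (F : Fam n) (t : Finset (Fin n)) : Prop :=
  ∀ x ∈ Int3 F t, ∀ i ∈ t, ∀ ν μ, F.Tight i ν x → F.Tight i μ x → ν = μ

/-- The skeleton of the intersection of the bodies of `t`. -/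
def Skel (F : Fam n) (t : Finset (Fin n)) : Set E3 :=
  {x | x ∈ Int3 F t ∧ ∃ i ∈ t, ∃ j ∈ t, ∃ ν μ, F.Tight i ν x ∧ F.Tight j μ x ∧
    LinearIndependent ℝ ![ν, μ]}

/-- `t` is a clean triple of `S`. -/
structure Clean (F : Fam n) (S t : Finset (Fin n)) : Prop where
  sub : t ⊆ S
  card : t.card = 3
  rf : RF F t
  prop : ∃ x, Prp F x ∧ F.bd x = t
  empt : ∀ d ∈ S, d ∉ t → ∀ x ∈ Skel F t, x ∉ F.K d

open scoped Classical in
/-- The number of clean triples of `S`. -/
noncomputable def nClean (F : Fam n) (S : Finset (Fin n)) : ℕ :=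
  ((S.powersetCard 3).filter fun t => Clean F S t).card

end UF.FP
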