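import Pool.Agent.Work.MP_4c5ddc_co.FP.Defs

/-!
# FP/DefsC (FIXED): cross product, cubes, comparable frames

`cr`, `dt`: cross product and determinant of vectors of `E3`. `Act F t i`: the normals of the body `i`
which are tight somewhere on the intersection of the bodies of `t`. `Cube a b c A B C p`: the
polyhedron `six a b c A B C` given by six inequalities (two of each colour `a, b, c`) is bounded, is
ridge free and has the eight vertices `p i j k`. `CubeAt`: the intersection of the three bodies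
`ia, ib, ic` is such a cube. `Frm C f y z`: the frames of the pairs of covectors `y` and
`z` on the plane orthogonal to `f` are comparable (`Cmp`), for one of the two normalisations `sc`.
-/

set_option autoImplicit false

namespace UF.FP

/-- The cross product. -/
noncomputable def cr (u v : E3) : E3 :=
  !₂[u 1 * v 2 - u 2 * v 1, u 2 * v 0 - u 0 * v 2, u 0 * v 1 - u 1 * v 0]

/-- The determinant. -/
noncomputable def dt (u v w : E3) : ℝ :=
  u 0 * (v 1 * w 2 - v 2 * w 1) + u 1 * (v 2 * w 0 - v 0 * w 2) + u 2 * (v 0 * w 1 - v 1 * w 0)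

variable {n : ℕ}

open scoped Classical in
/-- The normals of the body `i` which are tight at a point of the intersection of `t`. -/
noncomputable def Act (F : Fam n) (t : Finset (Fin n)) (i : Fin n) : Finset E3 :=
  (F.N i).filter fun ν => ∃ x ∈ Int3 F t, inner ℝ ν x = F.h i ν

/-- The vertices of the intersection of the bodies of `t`: points with spanning tight normals. -/
def Vx (F : Fam n) (t : Finset (Fin n)) : Set E3 :=
  {x | x ∈ Int3 F t ∧ ∀ w : E3, w ≠ 0 → ∃ i ∈ t, ∃ ν, F.Tight i ν x ∧ inner ℝ ν w ≠ 0}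

/-- The polyhedron given by six inequalities. -/
def six (a b c : Fin 2 → E3) (A B C : Fin 2 → ℝ) : Set E3 :=
  {x | (∀ i, inner ℝ (a i) x ≤ A i) ∧ (∀ j, inner ℝ (b j) x ≤ B j) ∧ ∀ k, inner ℝ (c k) x ≤ C k}

/-- The linear data of a cube: unit normals, alternating determinants, no direction on which all
six normals are nonpositive, no direction on which exactly one colour is positive. -/
structure Lin (a b c : Fin 2 → E3) : Prop where
  ua : ∀ i, ‖a i‖ = 1
  ub : ∀ i, ‖b i‖ = 1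
  uc : ∀ i, ‖c i‖ = 1
  sa : ∀ j k, dt (a 0) (b j) (c k) * dt (a 1) (b j) (c k) < 0
  sb : ∀ i k, dt (a i) (b 0) (c k) * dt (a i) (b 1) (c k) < 0
  sc : ∀ i j, dt (a i) (b j) (c 0) * dt (a i) (b j) (c 1) < 0
  bd : ∀ v : E3, v ≠ 0 → (∀ i, inner ℝ (a i) v ≤ 0) → (∀ j, inner ℝ (b j) v ≤ 0) →
    (∀ k, inner ℝ (c k) v ≤ 0) → False
  na : ∀ v : E3, (∀ i, 0 < inner ℝ (a i) v) → (∀ j, inner ℝ (b j) v ≤ 0) →
    (∀ k, inner ℝ (c k) v ≤ 0) → False
  nb : ∀ v : E3, (∀ i, inner ℝ (a i) v ≤ 0) → (∀ j, 0 < inner ℝ (b j) v) →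
    (∀ k, inner ℝ (c k) v ≤ 0) → False
  nc : ∀ v : E3, (∀ i, inner ℝ (a i) v ≤ 0) → (∀ j, inner ℝ (b j) v ≤ 0) →
    (∀ k, 0 < inner ℝ (c k) v) → False

/-- A cube: the six inequalities, the eight vertices `p i j k`, ridge free. -/
structure Cube (a b c : Fin 2 → E3) (A B C : Fin 2 → ℝ) (p : Fin 2 → Fin 2 → Fin 2 → E3) : Prop
    where
  lin : Lin a b c
  ta : ∀ i j k, inner ℝ (a i) (p i j k) = A i
  tb : ∀ i j k, inner ℝ (b j) (p i j k) = B j
  tc : ∀ i j k, inner ℝ (c k) (p i j k) = C k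
  la : ∀ i i' j k, i' ≠ i → inner ℝ (a i') (p i j k) < A i'
  lb : ∀ i j j' k, j' ≠ j → inner ℝ (b j') (p i j k) < B j'
  lc : ∀ i j k k', k' ≠ k → inner ℝ (c k') (p i j k) < C k'
  ra : ∀ x ∈ six a b c A B C, inner ℝ (a 0) x = A 0 → inner ℝ (a 1) x = A 1 → False
  rb : ∀ x ∈ six a b c A B C, inner ℝ (b 0) x = B 0 → inner ℝ (b 1) x = B 1 → False
  rc : ∀ x ∈ six a b c A B C, inner ℝ (c 0) x = C 0 → inner ℝ (c 1) x = C 1 → False

/-- The intersection of the bodies `ia, ib, ic` is a cube with the active normals `a, b, c`. -/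
structure CubeAt (F : Fam n) (ia ib ic : Fin n) (a b c : Fin 2 → E3)
    (p : Fin 2 → Fin 2 → Fin 2 → E3) : Prop where
  nab : ia ≠ ib
  nac : ia ≠ ic
  nbc : ib ≠ ic
  ma : ∀ i, a i ∈ F.N ia
  mb : ∀ i, b i ∈ F.N ib
  mc : ∀ i, c i ∈ F.N ic
  cube : Cube a b c (fun i => F.h ia (a i)) (fun i => F.h ib (b i)) (fun i => F.h ic (c i)) p
  int : Int3 F {ia, ib, ic} =
    six a b c (fun i => F.h ia (a i)) (fun i => F.h ib (b i)) (fun i => F.h ic (c i))

/-- Comparable scaled frames `σ y`, `τ z` on the plane orthogonal to `f`. -/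
def Cmp (C : ℝ) (f : E3) (y z : Fin 2 → E3) (σ τ : Fin 2 → ℝ) : Prop :=
  ∀ j k, (σ j * τ k * dt f (y j) (z k)) ^ 2 ≤
    C * (|σ 0 * σ 1 * dt f (y 0) (y 1)| * |τ 0 * τ 1 * dt f (z 0) (z 1)|)

/-- The two normalisations of a frame on the plane orthogonal to `f`. -/
noncomputable def sc (m : Bool) (f : E3) (y : Fin 2 → E3) (j : Fin 2) : ℝ :=
  if m then ‖cr f (y j)‖⁻¹ else 1

/-- The pairs `y`, `z` have comparable frames on the plane orthogonal to `f`. -/
def Frm (C : ℝ) (f : E3) (y z : Fin 2 → E3) : Prop :=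
  ∃ m m' : Bool, Cmp C f y z (sc m f y) (sc m' f z)

/-- Some facet of the cube has comparable frames of the two other colours. -/
def Fr (C : ℝ) (a b c : Fin 2 → E3) : Prop :=
  (∃ i, Frm C (a i) b c) ∨ (∃ j, Frm C (b j) a c) ∨ ∃ k, Frm C (c k) a b

/-- The swapped pair. -/
def flp {X : Type*} (x : Fin 2 → X) : Fin 2 → X := fun i => x (1 - i)

/-- `X` is the unit direction of the cross product of `u`, `v` (not zero). -/
def Dir (u v X : E3) : Prop :=
  ‖X‖ = 1 ∧ inner ℝ u X = 0 ∧ inner ℝ v X = 0 ∧ cr u v ≠ 0 ∧ cr u v = ‖cr u v‖ • X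

/-- Two unit normals `x`, the unit ridge direction `g`; `m` bounds the cross product from below. -/
structure Rg (m : ℝ) (x : Fin 2 → E3) (g : E3) : Prop where
  u : ∀ i, ‖x i‖ = 1
  ug : ‖g‖ = 1
  o : ∀ i, inner ℝ (x i) g = 0
  low : m ≤ ‖cr (x 0) (x 1)‖

/-- The aligned position: `a 0 = a_b`, `a 1 = a_c`, `b 0 = b_c`, `b 1 = b_a`, `c 0 = c_a`, `c 1 = c_b`
where `x_y` is the normal of the colour `x` which is nearly orthogonal to the ridge of `y`. -/
structure Aln (m κ w : ℝ) (a b c : Fin 2 → E3) (ga gb gc : E3) : Prop where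
  rga : Rg m a ga
  rgb : Rg m b gb
  rgc : Rg m c gc
  wpos : 0 < w
  ab : m / 4 * w ≤ ‖cr ga gb‖ ∧ ‖cr ga gb‖ ≤ w
  bc : m / 4 * w ≤ ‖cr gb gc‖ ∧ ‖cr gb gc‖ ≤ w
  ca : m / 4 * w ≤ ‖cr gc ga‖ ∧ ‖cr gc ga‖ ≤ w
  a0 : |inner ℝ (a 0) gb| ≤ κ * w
  a1 : |inner ℝ (a 1) gc| ≤ κ * w
  b0 : |inner ℝ (b 0) gc| ≤ κ * w
  b1 : |inner ℝ (b 1) ga| ≤ κ * w
  c0 : |inner ℝ (c 0) ga| ≤ κ * w
  c1 : |inner ℝ (c 1) gb| ≤ κ * w

/-- The transversality condition (N) for a facet normal `f` and two ridge directions. -/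
def Nn (κ : ℝ) (f g g' : E3) : Prop := κ * ‖cr g g'‖ ≤ |inner ℝ f g| ∧ κ * ‖cr g g'‖ ≤ |inner ℝ f g'|

end UF.FP
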