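import Pool.Agent.Work.MP_4c5ddc_co.FP.DefsC
import Pool.Agent.Work.MP_4c5ddc_co.CO.Defs

/-!
# FP/DefsP (FIXED): planar definitions for the counting part

Covectors `ξ` and points `q` of the plane are elements of `ℝ × ℝ`.
`Long F κ t`: on the line of two facets of two bodies `i, j` of `t` the intersection of `t` contains two points at distance at least
`κ * diam (K i)`. `Framed K F t`: the intersection is a cube with comparable frames at a facet of the first body.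
-/

set_option autoImplicit false

namespace UF.FP

/-- evaluation of a covector. -/
def ev (ξ q : ℝ × ℝ) : ℝ := ξ.1 * q.1 + ξ.2 * q.2

/-- the wedge of two covectors. -/
def wd (ξ ζ : ℝ × ℝ) : ℝ := ξ.1 * ζ.2 - ξ.2 * ζ.1

/-- the norm given by a frame. -/
noncomputable def nrm (ξ : Fin 2 → ℝ × ℝ) (q : ℝ × ℝ) : ℝ := max |ev (ξ 0) q| |ev (ξ 1) q|

/-- the model frames. -/
noncomputable def mf (k m : ℤ) : Fin 2 → ℝ × ℝ := ![(1, (m : ℝ) * 2 ^ k), (0, 2 ^ k)]

/-- the norms of the two frames are comparable up to a scalar. -/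
def Cn (L : ℝ) (ξ ζ : Fin 2 → ℝ × ℝ) : Prop :=
  ∃ l : ℝ, 0 < l ∧ ∀ q, nrm ξ q ≤ L * (l * nrm ζ q) ∧ l * nrm ζ q ≤ L * nrm ξ q

variable {n : ℕ}

/-- a long interval on the intersection line of two facets. -/
def Long (F : Fam n) (κ : ℝ) (t : Finset (Fin n)) : Prop :=
  ∃ i ∈ t, ∃ j ∈ t, i ≠ j ∧ ∃ ν μ x y : E3, cr ν μ ≠ 0 ∧ x ∈ Int3 F t ∧ y ∈ Int3 F t ∧
    F.Tight i ν x ∧ F.Tight i ν y ∧ F.Tight j μ x ∧ F.Tight j μ y ∧
    κ * Metric.diam (F.K i) ≤ dist x y

/-- a cube with comparable frames at a facet. -/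
def Framed (K : ℝ) (F : Fam n) (t : Finset (Fin n)) : Prop :=
  ∃ (ia ib ic : Fin n) (a b c : Fin 2 → E3) (p : Fin 2 → Fin 2 → Fin 2 → E3), t = {ia, ib, ic} ∧
    CubeAt F ia ib ic a b c p ∧ ∃ i, Frm K (a i) b c

end UF.FP
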