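import Pool.Agent.Work.MP_4c5ddc_co.FP.DefsP
import Pool.Agent.Work.MP_4c5ddc_co.CO.Cells

/-!
# FP/Single (M): the count for one frame (maximum norm)

PROOF. Use `CO.active_cells` with `η = c` and `D' = 2 * D + 2`. For `t ∈ T` let `p, q, v` be given by `h`, `m` the integer with `2^m ≤ dist p q < 2^(m+1)`
(`dist p q > 0`) and `κ t = (m, CO.cell c m v)`: it is active for `P` (`dist p v ≤ D dist p q ≤ 2 D 2^m`,
`dist q v ≤ dist q p + dist p v ≤ (D + 1) 2 2^m`). The map `t ↦ κ t` is injective on `T`: if `κ t = κ t'`, `t ≠ t'`, then `m = m'` and `v, v'` are in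
the same cell of mesh `c 2^m`, so `dist v v' ≤ c 2^m` (`Prod.dist_eq`, the difference of two numbers with the same floor is less than `1`), so `v` is in the closed ball of radius
`c dist p' q' ≥ c 2^m` around `v'`, contained in `Reg t'`; and `v ∈ Reg t`: against the disjointness. So `T.card ≤ N * P.card`.
-/

set_option autoImplicit false

namespace UF.FP

theorem single_count {c D : ℝ} (hc : 0 < c) (hD : 0 ≤ D) : ∃ N : ℕ, ∀ {τ : Type} (T : Finset τ)
    (P : Finset (ℝ × ℝ)) (Reg : τ → Set (ℝ × ℝ)),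
    (∀ t ∈ T, ∀ t' ∈ T, t ≠ t' → Disjoint (Reg t) (Reg t')) →
    (∀ t ∈ T, ∃ p ∈ P, ∃ q ∈ P, ∃ v : ℝ × ℝ, p ≠ q ∧ dist p v ≤ D * dist p q ∧
      ∀ x : ℝ × ℝ, dist x v ≤ c * dist p q → x ∈ Reg t) → T.card ≤ N * P.card := by
  classical
  obtain ⟨N, hN⟩ := CO.active_cells c (2 * D + 2) hc (by positivity)
  refine ⟨N, ?_⟩
  intro τ T P Reg hdis hT
  choose! p hp q hq v hv using hT
  set m : τ → ℤ := fun t => Int.log 2 (dist (p t) (q t)) with hm
  have hpos : ∀ t ∈ T, 0 < dist (p t) (q t) := fun t ht => dist_pos.2 (hv t ht).1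
  have hm1 : ∀ t ∈ T, (2 : ℝ) ^ m t ≤ dist (p t) (q t) := by
    intro t ht
    have := Int.zpow_log_le_self (b := 2) (by norm_num) (hpos t ht)
    push_cast at this
    exact this
  have hm2 : ∀ t ∈ T, dist (p t) (q t) < (2 : ℝ) ^ (m t + 1) := by
    intro t ht
    have := Int.lt_zpow_succ_log_self (b := 2) (by norm_num) (dist (p t) (q t))
    push_cast at this
    exact this
  set κ : τ → ℤ × (ℤ × ℤ) := fun t => (m t, CO.cell c (m t) (v t)) with hκ
  have hact : ∀ s ∈ T.image κ, CO.Active c (2 * D + 2) P s := by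
    intro s hs
    obtain ⟨t, ht, rfl⟩ := Finset.mem_image.1 hs
    have h1 := hm1 t ht
    have h2 := hm2 t ht
    have h3 := (hv t ht).2.1
    have hM : (0 : ℝ) < 2 ^ m t := zpow_pos (by norm_num) _
    have hM1 : (2 : ℝ) ^ (m t + 1) = 2 ^ m t * 2 := by rw [zpow_add₀ (by norm_num)]; norm_num
    have h4 : D * dist (p t) (q t) ≤ D * (2 ^ m t * 2) := by
      rw [← hM1]
      exact mul_le_mul_of_nonneg_left h2.le hD
    refine ⟨v t, p t, q t, hp t ht, hq t ht, rfl, h1, h2, ?_, ?_⟩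
    · show dist (p t) (v t) ≤ (2 * D + 2) * 2 ^ m t
      nlinarith
    · show dist (q t) (v t) ≤ (2 * D + 2) * 2 ^ m t
      have h5 := dist_triangle (q t) (p t) (v t)
      rw [dist_comm (q t) (p t)] at h5
      rw [hM1] at h2
      nlinarith
  have hinj : Set.InjOn κ (T : Set τ) := by
    intro t ht t' ht' he
    by_contra hne
    have ht : t ∈ T := ht
    have ht' : t' ∈ T := ht'
    simp only [hκ, Prod.mk.injEq] at he
    obtain ⟨he1, he2⟩ := he
    rw [← he1] at he2
    have hM : (0 : ℝ) < 2 ^ m t := zpow_pos (by norm_num) _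
    have hcM : 0 < c * 2 ^ m t := mul_pos hc hM
    unfold CO.cell at he2
    rw [Prod.mk.injEq] at he2
    have key : ∀ x y : ℝ, ⌊x / (c * 2 ^ m t)⌋ = ⌊y / (c * 2 ^ m t)⌋ → |x - y| ≤ c * 2 ^ m t := by
      intro x y h
      have h1 := Int.abs_sub_lt_one_of_floor_eq_floor h
      rw [← sub_div, abs_div, abs_of_pos hcM, div_lt_one hcM] at h1
      exact h1.le
    have hd : dist (v t) (v t') ≤ c * 2 ^ m t := by
      rw [Prod.dist_eq, Real.dist_eq, Real.dist_eq]
      exact max_le (key _ _ he2.1) (key _ _ he2.2)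
    have h1 : v t ∈ Reg t' := by
      apply (hv t' ht').2.2
      refine hd.trans ?_
      rw [he1]
      exact mul_le_mul_of_nonneg_left (hm1 t' ht') hc.le
    have h2 : v t ∈ Reg t := by
      apply (hv t ht).2.2
      rw [dist_self]
      exact mul_nonneg hc.le (hpos t ht).le
    exact Set.disjoint_left.1 (hdis t ht t' ht' hne) h2 h1
  rw [← Finset.card_image_of_injOn hinj]
  exact hN P _ hact

end UF.FP
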