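import Pool.Agent.Work.MP_4c5ddc_co.FP.Clsf
import Pool.Agent.Work.MP_4c5ddc_co.FP.Single

/-!
# FP/Multi (M-L): the count for many frames

PROOF. For `i ∈ J` let `κ i = (k, m)` be a class with `Cn 4 (ξ i) (mf k m)` (`exists_class`; choose a function `κ : ι → ℤ × ℤ`). For `t ∈ T` the classes
`κ t.1`, `κ t.2` satisfy `Cn (4 * L * 4) (mf ..) (mf ..)` (`Cn_symm`, `Cn_trans`). For two classes `z, z'` let `T z z'` be the set of the `t ∈ T` with `κ t.1 = z`, `κ t.2 = z'`, and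
`J z` the set of `i ∈ J` with `κ i = z`. CLAIM: `(T z z').card ≤ N₁ ((J z).card + (J z').card)` with `N₁` from `single_count` for `c / 16`, `16 * D`. Let
`z = (k, m)` and `Φ q = (q.1 + m 2^k q.2, 2^k q.2)`, a linear bijection of `ℝ × ℝ` with `dist (Φ q) (Φ q') = nrm (mf k m) (q - q')` (`Prod.dist_eq`). Apply `single_count` to
`T z z'`, the points `Φ (P i)`, `i ∈ J z ∪ J z'`, and the sets `Φ '' Reg t` (disjoint, as `Φ` is injective). For `t ∈ T z z'` let `l` be as in `Cn 4 (ξ t.1) (mf k m)`, `ρ = nrm (ξ t.1) (P t.2 - P t.1) > 0`,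
`d = nrm (mf k m) (P t.2 - P t.1)`: `ρ ≤ 4 l d`, `l d ≤ 4 ρ`, so `d > 0` and the two points are different. With `v` from the hypothesis:
`l * nrm (mf k m) (v - P t.1) ≤ 4 * nrm (ξ t.1) (v - P t.1) ≤ 4 D ρ ≤ 16 D l d`, so `dist (Φ v) (Φ (P t.1)) ≤ 16 D d`. If `dist (Φ x) (Φ v) ≤ (c / 16) d` then
`nrm (ξ t.1) (x - v) ≤ 4 l (c / 16) d ≤ (c / 4) * 4 ρ = c ρ` (as `l d ≤ 4 ρ`), so `x ∈ Reg t`.
SUM: `T` is the union of the `T z z'` over pairs of classes of `J` with `Cn (16 L)`. By `class_near` every `z` has at most `M` partners `z'` and (`Cn_symm`) every `z'` at most `M` partners `z`.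
So `T.card ≤ ∑ N₁ ((J z).card + (J z').card) ≤ 2 M N₁ J.card`.
-/

set_option autoImplicit false

namespace UF.FP

private noncomputable def mcF (k m : ℤ) (q : ℝ × ℝ) : ℝ × ℝ :=
  (q.1 + (m : ℝ) * 2 ^ k * q.2, 2 ^ k * q.2)

private noncomputable def mcG (k m : ℤ) (y : ℝ × ℝ) : ℝ × ℝ :=
  (y.1 - (m : ℝ) * y.2, y.2 / 2 ^ k)

private theorem mc_FG (k m : ℤ) (y : ℝ × ℝ) : mcF k m (mcG k m y) = y := by
  have h : (2 : ℝ) ^ k ≠ 0 := (zpow_pos (by norm_num) k).ne'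
  unfold mcF mcG
  ext
  · simp only
    field_simp
    ring
  · simp only
    field_simp

private theorem mc_dist (k m : ℤ) (q q' : ℝ × ℝ) :
    dist (mcF k m q) (mcF k m q') = nrm (mf k m) (q - q') := by
  rw [Prod.dist_eq, Real.dist_eq, Real.dist_eq]
  unfold nrm ev mf mcF
  simp only [Matrix.cons_val_zero, Matrix.cons_val_one, Prod.fst_sub, Prod.snd_sub]
  congr 2 <;> ring

private theorem mc_claim {c D : ℝ} (hc : 0 < c) (hD : 0 ≤ D) {N₁ : ℕ}
    (hN : ∀ {τ : Type} (T : Finset τ) (P : Finset (ℝ × ℝ)) (Reg : τ → Set (ℝ × ℝ)),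
      (∀ t ∈ T, ∀ t' ∈ T, t ≠ t' → Disjoint (Reg t) (Reg t')) →
      (∀ t ∈ T, ∃ p ∈ P, ∃ q ∈ P, ∃ v : ℝ × ℝ, p ≠ q ∧ dist p v ≤ 16 * D * dist p q ∧
        ∀ x : ℝ × ℝ, dist x v ≤ c / 16 * dist p q → x ∈ Reg t) → T.card ≤ N₁ * P.card)
    {ι : Type} [DecidableEq ι] (J₁ J₂ : Finset ι) (P : ι → ℝ × ℝ) (ξ : ι → Fin 2 → ℝ × ℝ)
    (T : Finset (ι × ι)) (Reg : ι × ι → Set (ℝ × ℝ)) (k m : ℤ)
    (hdis : ∀ t ∈ T, ∀ t' ∈ T, t ≠ t' → Disjoint (Reg t) (Reg t'))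
    (hJ : ∀ t ∈ T, t.1 ∈ J₁ ∧ t.2 ∈ J₂ ∧ Cn 4 (ξ t.1) (mf k m))
    (hT : ∀ t ∈ T, 0 < nrm (ξ t.1) (P t.2 - P t.1) ∧ ∃ v : ℝ × ℝ,
        nrm (ξ t.1) (v - P t.1) ≤ D * nrm (ξ t.1) (P t.2 - P t.1) ∧
        ∀ x : ℝ × ℝ, nrm (ξ t.1) (x - v) ≤ c * nrm (ξ t.1) (P t.2 - P t.1) → x ∈ Reg t) :
    T.card ≤ N₁ * (J₁.card + J₂.card) := by
  classical
  have hcard : ((J₁ ∪ J₂).image fun i => mcF k m (P i)).card ≤ J₁.card + J₂.card :=
    Finset.card_image_le.trans (Finset.card_union_le _ _)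
  refine (hN T ((J₁ ∪ J₂).image fun i => mcF k m (P i)) (fun t => mcG k m ⁻¹' Reg t) ?_ ?_).trans
    (Nat.mul_le_mul_left _ hcard)
  · intro t ht t' ht' hne
    exact (hdis t ht t' ht' hne).preimage _
  · intro t ht
    obtain ⟨h1, h2, l, hl, hcn⟩ := hJ t ht
    obtain ⟨hρ, v, hv1, hv2⟩ := hT t ht
    refine ⟨mcF k m (P t.1), Finset.mem_image.2 ⟨t.1, Finset.mem_union_left _ h1, rfl⟩,
      mcF k m (P t.2), Finset.mem_image.2 ⟨t.2, Finset.mem_union_right _ h2, rfl⟩,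
      mcF k m v, ?_, ?_, ?_⟩
    · intro he
      have h3 := mc_dist k m (P t.2) (P t.1)
      rw [he, dist_self] at h3
      have h4 := (hcn (P t.2 - P t.1)).1
      rw [← h3] at h4
      linarith
    · rw [dist_comm, dist_comm (mcF k m (P t.1)) (mcF k m (P t.2)), mc_dist, mc_dist]
      have h3 := (hcn (v - P t.1)).2
      have h4 := (hcn (P t.2 - P t.1)).1
      have h5 := mul_le_mul_of_nonneg_left h4 hD
      have h6 : l * nrm (mf k m) (v - P t.1) ≤ l * (16 * D * nrm (mf k m) (P t.2 - P t.1)) := by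
        linarith
      exact le_of_mul_le_mul_left h6 hl
    · intro x hx
      apply hv2
      rw [dist_comm (mcF k m (P t.1)) (mcF k m (P t.2)), mc_dist, ← mc_FG k m x, mc_dist] at hx
      have h3 := (hcn (mcG k m x - v)).1
      have h4 := (hcn (P t.2 - P t.1)).2
      have h5 := mul_le_mul_of_nonneg_left hx hl.le
      have h6 := mul_le_mul_of_nonneg_left h4 hc.le
      linarith

private theorem mc_sum {X : Type} [DecidableEq X] {ι : Type} [DecidableEq ι] (J : Finset ι)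
    (κ : ι → X) (R : Finset (X × X)) (M : ℕ) (g : X × X → X) (hg : ∀ b ∈ R, g b ∈ J.image κ)
    (hM : ∀ z ∈ J.image κ, (R.filter fun b => g b = z).card ≤ M) :
    ∑ b ∈ R, (J.filter fun i => κ i = g b).card ≤ M * J.card := by
  rw [← Finset.sum_fiberwise_of_maps_to hg]
  have h1 : ∀ z ∈ J.image κ, (∑ b ∈ R with g b = z, (J.filter fun i => κ i = g b).card)
      ≤ M * (J.filter fun i => κ i = z).card := by
    intro z hz
    have h2 : ∑ b ∈ R with g b = z, (J.filter fun i => κ i = g b).card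
        = ∑ b ∈ R with g b = z, (J.filter fun i => κ i = z).card := by
      apply Finset.sum_congr rfl
      intro b hb
      rw [(Finset.mem_filter.1 hb).2]
    rw [h2, Finset.sum_const, smul_eq_mul]
    exact Nat.mul_le_mul_right _ (hM z hz)
  refine (Finset.sum_le_sum h1).trans ?_
  rw [← Finset.mul_sum]
  apply Nat.mul_le_mul_left
  rw [← Finset.card_eq_sum_card_fiberwise (f := κ) (s := J) (t := J.image κ)
    (fun i hi => Finset.mem_image_of_mem κ hi)]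

theorem multi_count {L c D : ℝ} (hL : 1 ≤ L) (hc : 0 < c) (hD : 0 ≤ D) : ∃ N : ℕ,
    ∀ {ι : Type} [DecidableEq ι] (J : Finset ι) (P : ι → ℝ × ℝ) (ξ : ι → Fin 2 → ℝ × ℝ)
      (T : Finset (ι × ι)) (Reg : ι × ι → Set (ℝ × ℝ)),
      (∀ i ∈ J, wd (ξ i 0) (ξ i 1) ≠ 0) → (∀ t ∈ T, t.1 ∈ J ∧ t.2 ∈ J) →
      (∀ t ∈ T, ∀ t' ∈ T, t ≠ t' → Disjoint (Reg t) (Reg t')) →
      (∀ t ∈ T, Cn L (ξ t.1) (ξ t.2)) →
      (∀ t ∈ T, 0 < nrm (ξ t.1) (P t.2 - P t.1) ∧ ∃ v : ℝ × ℝ,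
        nrm (ξ t.1) (v - P t.1) ≤ D * nrm (ξ t.1) (P t.2 - P t.1) ∧
        ∀ x : ℝ × ℝ, nrm (ξ t.1) (x - v) ≤ c * nrm (ξ t.1) (P t.2 - P t.1) → x ∈ Reg t) →
      T.card ≤ N * J.card := by
  classical
  obtain ⟨N₁, hN₁⟩ := single_count (c := c / 16) (D := 16 * D) (by positivity) (by positivity)
  obtain ⟨M, hM⟩ := class_near (L := 4 * L * 4) (by linarith)
  refine ⟨N₁ * (2 * M), ?_⟩
  intro ι _ J P ξ T Reg hw hJ hdis hCn hT
  have hex : ∀ i, ∃ z : ℤ × ℤ, i ∈ J → Cn 4 (ξ i) (mf z.1 z.2) := by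
    intro i
    by_cases hi : i ∈ J
    · obtain ⟨k, m, h⟩ := exists_class (hw i hi)
      exact ⟨(k, m), fun _ => h⟩
    · exact ⟨(0, 0), fun h => absurd h hi⟩
  choose κ hκ using hex
  set R : Finset ((ℤ × ℤ) × (ℤ × ℤ)) := T.image fun t => (κ t.1, κ t.2) with hR
  have hL0 : (0 : ℝ) ≤ L := by linarith
  have hRcn : ∀ b ∈ R, Cn (4 * L * 4) (mf b.1.1 b.1.2) (mf b.2.1 b.2.2) ∧ b.1 ∈ J.image κ ∧
      b.2 ∈ J.image κ := by
    intro b hb
    obtain ⟨t, ht, rfl⟩ := Finset.mem_image.1 hb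
    refine ⟨?_, Finset.mem_image_of_mem κ (hJ t ht).1, Finset.mem_image_of_mem κ (hJ t ht).2⟩
    have h1 := Cn_symm (hκ t.1 (hJ t ht).1)
    have h2 := Cn_trans (by norm_num) hL0 h1 (hCn t ht)
    exact Cn_trans (by positivity) (by norm_num) h2 (hκ t.2 (hJ t ht).2)
  have hcl : ∀ b ∈ R, (T.filter fun t => (κ t.1, κ t.2) = b).card
      ≤ N₁ * ((J.filter fun i => κ i = b.1).card + (J.filter fun i => κ i = b.2).card) := by
    intro b _
    apply mc_claim hc hD hN₁ _ _ P ξ _ Reg b.1.1 b.1.2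
    · intro t ht t' ht' hne
      exact hdis t (Finset.mem_filter.1 ht).1 t' (Finset.mem_filter.1 ht').1 hne
    · intro t ht
      obtain ⟨ht, he⟩ := Finset.mem_filter.1 ht
      have e1 : κ t.1 = b.1 := by rw [← he]
      have e2 : κ t.2 = b.2 := by rw [← he]
      refine ⟨Finset.mem_filter.2 ⟨(hJ t ht).1, e1⟩, Finset.mem_filter.2 ⟨(hJ t ht).2, e2⟩, ?_⟩
      rw [← e1]
      exact hκ t.1 (hJ t ht).1
    · intro t ht
      exact hT t (Finset.mem_filter.1 ht).1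
  have hcard : T.card = ∑ b ∈ R, (T.filter fun t => (κ t.1, κ t.2) = b).card :=
    Finset.card_eq_sum_card_fiberwise (f := fun t : ι × ι => (κ t.1, κ t.2))
      (fun t ht => Finset.mem_image_of_mem _ ht)
  rw [hcard]
  refine (Finset.sum_le_sum hcl).trans ?_
  rw [← Finset.mul_sum, mul_assoc]
  apply Nat.mul_le_mul_left
  rw [Finset.sum_add_distrib]
  have s1 : ∑ b ∈ R, (J.filter fun i => κ i = b.1).card ≤ M * J.card := by
    apply mc_sum J κ R M Prod.fst (fun b hb => (hRcn b hb).2.1)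
    intro z _
    have hinj : Set.InjOn Prod.snd ((R.filter fun b => b.1 = z : Finset _) :
        Set ((ℤ × ℤ) × (ℤ × ℤ))) := by
      intro b hb b' hb' he
      rw [Finset.mem_coe, Finset.mem_filter] at hb hb'
      exact Prod.ext (hb.2.trans hb'.2.symm) he
    rw [← Finset.card_image_of_injOn hinj]
    apply hM z.1 z.2
    intro z' hz'
    obtain ⟨b, hb, rfl⟩ := Finset.mem_image.1 hz'
    obtain ⟨hb, he⟩ := Finset.mem_filter.1 hb
    rw [← he]
    exact (hRcn b hb).1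
  have s2 : ∑ b ∈ R, (J.filter fun i => κ i = b.2).card ≤ M * J.card := by
    apply mc_sum J κ R M Prod.snd (fun b hb => (hRcn b hb).2.2)
    intro z _
    have hinj : Set.InjOn Prod.fst ((R.filter fun b => b.2 = z : Finset _) :
        Set ((ℤ × ℤ) × (ℤ × ℤ))) := by
      intro b hb b' hb' he
      rw [Finset.mem_coe, Finset.mem_filter] at hb hb'
      exact Prod.ext he (hb.2.trans hb'.2.symm)
    rw [← Finset.card_image_of_injOn hinj]
    apply hM z.1 z.2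
    intro z' hz'
    obtain ⟨b, hb, rfl⟩ := Finset.mem_image.1 hz'
    obtain ⟨hb, he⟩ := Finset.mem_filter.1 hb
    rw [← he]
    exact Cn_symm (hRcn b hb).1
  calc _ ≤ M * J.card + M * J.card := Nat.add_le_add s1 s2
    _ = 2 * M * J.card := by ring

end UF.FP
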