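import Pool.Agent.Work.MP_4c5ddc_co.FP.FReg
import Pool.Agent.Work.MP_4c5ddc_co.FP.Multi
import Pool.Agent.Work.MP_4c5ddc_co.FP.Dis

/-!
# FP/FCnt (M-L): the number of framed clean triples at one facet

PROOF. Fix `ia` and `f ∈ F.N ia`, the frame `e₁, e₂` of `f` (`exists_frame`, `Good.unit`), `A = F.h ia f`. Let `ι = Fin n × E3 × E3 × Bool` and `J` the finset of the `(i, y₀, y₁, m)` with `i ∈ S`, `y₀, y₁ ∈ F.N i`,
`dt f y₀ y₁ ≠ 0`: at most `2 s ^ 2 S.card` elements. For `(i, y₀, y₁, m)` put `ξ = fr e₁ e₂ f ![y₀, y₁] m` and `P` = the point `q` of `ℝ × ℝ` with `inner y₀ (pt f A e₁ e₂ q) = F.h i y₀`, `inner y₁ (pt ..) = F.h i y₁`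
(it exists because the wedge `dt f y₀ y₁` is not zero: Cramer's rule in the plane; choose it). `wd (ξ 0) (ξ 1) = sc .. * sc .. * dt f y₀ y₁ ≠ 0` for elements of `J` (`cr f y₀ ≠ 0`, `cr f y₁ ≠ 0` since `dt f y₀ y₁ ≠ 0`).
For every `t` in the set of the theorem choose `ib, ic, a, b, c, p, i` and apply `frame_region` with `Pb`, `Pc` the points chosen for `(ib, b 0, b 1, m)` and `(ic, c 0, c 1, m')`: take the pair
`φ t = ((ib, b 0, b 1, m), (ic, c 0, c 1, m')) ∈ J × J`. `φ` is injective, because `t = {ia, ib, ic}`. Let `T` be the image of `φ` and `Reg (φ t) = {q | pt f A e₁ e₂ q ∈ Int3 F t}`; these sets are pairwise disjoint by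
`clean_disjoint`. All hypotheses of `multi_count` (with `L = 2 √(max K 1) ≥ 1`) hold. Note `![b 0, b 1] = b` (`List.ofFn`, `funext`, `Fin.forall_fin_two`). (If `c`, `D` of `frame_region` depend on `K` only, so does `N`; the constant of the
theorem is `N * 2 s ^ 2`.)
-/

set_option autoImplicit false

namespace UF.FP

private theorem vec2 (b : Fin 2 → E3) : ![b 0, b 1] = b := by
  funext i
  fin_cases i <;> rfl

private theorem sc_pos' (m : Bool) (f : E3) (y : Fin 2 → E3) (j : Fin 2) (h : cr f (y j) ≠ 0) :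
    0 < sc m f y j := by
  unfold sc
  split_ifs
  · exact inv_pos.2 (norm_pos_iff.2 h)
  · exact one_pos

private theorem cr_ne_left {f u v : E3} (h : dt f u v ≠ 0) : cr f u ≠ 0 := by
  intro h0
  apply h
  rw [← cr_inner, h0, inner_zero_left]

private theorem cr_ne_right {f u v : E3} (h : dt f u v ≠ 0) : cr f v ≠ 0 := by
  intro h0
  apply h
  rw [← neg_neg (dt f u v), ← dt_swap23, ← cr_inner, h0, inner_zero_left, neg_zero]

private theorem dt_ne_of {K : ℝ} {f : E3} {b c : Fin 2 → E3}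
    (hbc : ∀ j k, dt f (b j) (c k) ≠ 0) (h : Frm K f b c) :
    dt f (b 0) (b 1) ≠ 0 ∧ dt f (c 0) (c 1) ≠ 0 := by
  obtain ⟨m, m', hC⟩ := h
  have h1 := hC 0 0
  have hσ : 0 < sc m f b 0 := sc_pos' m f b 0 (cr_ne_left (hbc 0 0))
  have hτ : 0 < sc m' f c 0 := sc_pos' m' f c 0 (cr_ne_right (hbc 0 0))
  have h2 : 0 < (sc m f b 0 * sc m' f c 0 * dt f (b 0) (c 0)) ^ 2 := by
    have h3 : sc m f b 0 * sc m' f c 0 * dt f (b 0) (c 0) ≠ 0 :=
      mul_ne_zero (mul_pos hσ hτ).ne' (hbc 0 0)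
    positivity
  constructor
  · intro h0
    rw [h0, mul_zero, abs_zero, zero_mul, mul_zero] at h1
    exact absurd h1 (not_le.2 h2)
  · intro h0
    rw [h0, mul_zero, abs_zero, mul_zero, mul_zero] at h1
    exact absurd h1 (not_le.2 h2)

private theorem exists_pt (f e₁ e₂ : E3) (A : ℝ) {u v : E3}
    (h : wd (inner ℝ u e₁, inner ℝ u e₂) (inner ℝ v e₁, inner ℝ v e₂) ≠ 0) (p q : ℝ) :
    ∃ P : ℝ × ℝ, inner ℝ u (pt f A e₁ e₂ P) = p ∧ inner ℝ v (pt f A e₁ e₂ P) = q := by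
  have hin : ∀ (w : E3) (x : ℝ × ℝ), inner ℝ w (pt f A e₁ e₂ x) =
      A * inner ℝ w f + x.1 * inner ℝ w e₁ + x.2 * inner ℝ w e₂ := by
    intro w x
    rw [pt, inner_add_right, inner_add_right, inner_smul_right, inner_smul_right,
      inner_smul_right]
  obtain ⟨w, hw⟩ : ∃ w, w = inner ℝ u e₁ * inner ℝ v e₂ - inner ℝ u e₂ * inner ℝ v e₁ := ⟨_, rfl⟩
  have hw0 : w ≠ 0 := by
    rw [hw]
    exact h
  refine ⟨(((p - A * inner ℝ u f) * inner ℝ v e₂ - (q - A * inner ℝ v f) * inner ℝ u e₂) / w,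
    ((q - A * inner ℝ v f) * inner ℝ u e₁ - (p - A * inner ℝ u f) * inner ℝ v e₁) / w), ?_, ?_⟩
  · rw [hin]
    have h1 : ((p - A * inner ℝ u f) * inner ℝ v e₂ - (q - A * inner ℝ v f) * inner ℝ u e₂) / w *
        inner ℝ u e₁ + ((q - A * inner ℝ v f) * inner ℝ u e₁ -
          (p - A * inner ℝ u f) * inner ℝ v e₁) / w * inner ℝ u e₂ =
        (p - A * inner ℝ u f) * (w / w) := by
      rw [hw]
      ring
    rw [div_self hw0, mul_one] at h1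
    linarith
  · rw [hin]
    have h1 : ((p - A * inner ℝ u f) * inner ℝ v e₂ - (q - A * inner ℝ v f) * inner ℝ u e₂) / w *
        inner ℝ v e₁ + ((q - A * inner ℝ v f) * inner ℝ u e₁ -
          (p - A * inner ℝ u f) * inner ℝ v e₁) / w * inner ℝ v e₂ =
        (q - A * inner ℝ v f) * (w / w) := by
      rw [hw]
      ring
    rw [div_self hw0, mul_one] at h1
    linarith

open scoped Classical in
theorem facet_count (K : ℝ) (s : ℕ) : ∃ N : ℕ, ∀ (n : ℕ) (α : ℝ) (F : Fam n), Good α s F →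
    ∀ (S : Finset (Fin n)) (ia : Fin n) (f : E3), f ∈ F.N ia →
      ((S.powersetCard 3).filter fun t => Clean F S t ∧ ∃ (ib ic : Fin n) (a b c : Fin 2 → E3)
        (p : Fin 2 → Fin 2 → Fin 2 → E3), t = {ia, ib, ic} ∧ CubeAt F ia ib ic a b c p ∧
        ∃ i, a i = f ∧ Frm K (a i) b c).card ≤ N * S.card := by
  obtain ⟨c₀, D, hc, hD, H⟩ := frame_region K
  have hL : (1 : ℝ) ≤ 2 * √(max K 1) := by
    have h1 : (1 : ℝ) ≤ √(max K 1) := Real.one_le_sqrt.2 (le_max_right _ _)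
    linarith
  obtain ⟨N, hN⟩ := multi_count hL hc hD
  refine ⟨N * (s * (s * 2)), ?_⟩
  intro n α F hG S ia f hf
  obtain ⟨e₁, e₂, he1, he2, hf1, hf2, he12, hdec, hdt⟩ := exists_frame (hG.unit ia f hf)
  have hex : ∀ (i : Fin n) (y₀ y₁ : E3), ∃ P : ℝ × ℝ, dt f y₀ y₁ ≠ 0 →
      inner ℝ y₀ (pt f (F.h ia f) e₁ e₂ P) = F.h i y₀ ∧
        inner ℝ y₁ (pt f (F.h ia f) e₁ e₂ P) = F.h i y₁ := by
    intro i y₀ y₁
    by_cases h : dt f y₀ y₁ = 0
    · exact ⟨0, fun h' => absurd h h'⟩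
    · rw [hdt] at h
      obtain ⟨P, h1, h2⟩ := exists_pt f e₁ e₂ (F.h ia f) h (F.h i y₀) (F.h i y₁)
      exact ⟨P, fun _ => ⟨h1, h2⟩⟩
  choose Q hQ using hex
  obtain ⟨J, hJ⟩ : ∃ J : Finset (Σ _ : Fin n, E3 × (E3 × Bool)),
      J = (S.sigma fun i => F.N i ×ˢ (F.N i ×ˢ (Finset.univ : Finset Bool))).filter
        fun z => dt f z.2.1 z.2.2.1 ≠ 0 := ⟨_, rfl⟩
  have hmJ : ∀ (i : Fin n) (y₀ y₁ : E3) (m : Bool), i ∈ S → y₀ ∈ F.N i → y₁ ∈ F.N i →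
      dt f y₀ y₁ ≠ 0 → (⟨i, y₀, y₁, m⟩ : Σ _ : Fin n, E3 × (E3 × Bool)) ∈ J := by
    intro i y₀ y₁ m h1 h2 h3 h4
    rw [hJ]
    refine Finset.mem_filter.2 ⟨Finset.mem_sigma.2 ⟨h1, ?_⟩, h4⟩
    exact Finset.mem_product.2 ⟨h2, Finset.mem_product.2 ⟨h3, Finset.mem_univ _⟩⟩
  have hJd : ∀ z ∈ J, dt f z.2.1 z.2.2.1 ≠ 0 := by
    intro z hz
    rw [hJ] at hz
    exact (Finset.mem_filter.1 hz).2
  have hJc : J.card ≤ S.card * (s * (s * 2)) := by
    rw [hJ]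
    refine (Finset.card_filter_le _ _).trans ?_
    rw [Finset.card_sigma]
    refine (Finset.sum_le_card_nsmul _ _ (s * (s * 2)) fun i _ => ?_).trans (by
      rw [smul_eq_mul])
    rw [Finset.card_product, Finset.card_product]
    exact Nat.mul_le_mul (hG.card i) (Nat.mul_le_mul (hG.card i) (by simp))
  obtain ⟨T₀, hT₀⟩ : ∃ T₀ : Finset (Finset (Fin n)), T₀ =
      ((S.powersetCard 3).filter fun t => Clean F S t ∧ ∃ (ib ic : Fin n) (a b c : Fin 2 → E3)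
        (p : Fin 2 → Fin 2 → Fin 2 → E3), t = {ia, ib, ic} ∧ CubeAt F ia ib ic a b c p ∧
        ∃ i, a i = f ∧ Frm K (a i) b c) := ⟨_, rfl⟩
  rw [← hT₀]
  have hcl : ∀ t ∈ T₀, Clean F S t := by
    intro t ht
    rw [hT₀] at ht
    exact (Finset.mem_filter.1 ht).2.1
  have hφ : ∀ t ∈ T₀, ∃ z : (Σ _ : Fin n, E3 × (E3 × Bool)) × (Σ _ : Fin n, E3 × (E3 × Bool)),
      z.1 ∈ J ∧ z.2 ∈ J ∧ t = {ia, z.1.1, z.2.1} ∧
      Cn (2 * √(max K 1)) (fr e₁ e₂ f ![z.1.2.1, z.1.2.2.1] z.1.2.2.2)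
        (fr e₁ e₂ f ![z.2.2.1, z.2.2.2.1] z.2.2.2.2) ∧
      0 < nrm (fr e₁ e₂ f ![z.1.2.1, z.1.2.2.1] z.1.2.2.2)
        (Q z.2.1 z.2.2.1 z.2.2.2.1 - Q z.1.1 z.1.2.1 z.1.2.2.1) ∧ ∃ v : ℝ × ℝ,
        nrm (fr e₁ e₂ f ![z.1.2.1, z.1.2.2.1] z.1.2.2.2) (v - Q z.1.1 z.1.2.1 z.1.2.2.1) ≤
          D * nrm (fr e₁ e₂ f ![z.1.2.1, z.1.2.2.1] z.1.2.2.2)
            (Q z.2.1 z.2.2.1 z.2.2.2.1 - Q z.1.1 z.1.2.1 z.1.2.2.1) ∧
        ∀ x : ℝ × ℝ, nrm (fr e₁ e₂ f ![z.1.2.1, z.1.2.2.1] z.1.2.2.2) (x - v) ≤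
          c₀ * nrm (fr e₁ e₂ f ![z.1.2.1, z.1.2.2.1] z.1.2.2.2)
            (Q z.2.1 z.2.2.1 z.2.2.2.1 - Q z.1.1 z.1.2.1 z.1.2.2.1) →
          pt f (F.h ia f) e₁ e₂ x ∈ Int3 F t := by
    intro t ht
    have hclt := hcl t ht
    rw [hT₀] at ht
    obtain ⟨-, -, ib, ic, a, b, c, p, htt, hCA, i, hai, hFr⟩ := Finset.mem_filter.1 ht
    have hibS : ib ∈ S := hclt.sub (by rw [htt]; simp)
    have hicS : ic ∈ S := hclt.sub (by rw [htt]; simp)
    have hbc : ∀ j k, dt f (b j) (c k) ≠ 0 := by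
      intro j k h0
      have h1 := hCA.cube.lin.sc i j
      rw [hai] at h1
      fin_cases k
      · simp only [Fin.zero_eta] at h0
        rw [h0, zero_mul] at h1
        exact lt_irrefl _ h1
      · simp only [Fin.mk_one] at h0
        rw [h0, mul_zero] at h1
        exact lt_irrefl _ h1
    have hd := dt_ne_of hbc (by rw [← hai]; exact hFr)
    have hQb := hQ ib (b 0) (b 1) hd.1
    have hQc := hQ ic (c 0) (c 1) hd.2
    obtain ⟨m, m', -, -, hCn, hpos, v, hv, hx⟩ := H a b c (fun i => F.h ia (a i))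
      (fun i => F.h ib (b i)) (fun i => F.h ic (c i)) p i e₁ e₂ (Q ib (b 0) (b 1))
      (Q ic (c 0) (c 1)) hCA.cube he1 he2 (by rw [hai]; exact hf1) (by rw [hai]; exact hf2) he12
      (by rw [hai]; exact hdec) (by rw [hai]; exact hdt)
      (by
        intro j
        rw [hai]
        fin_cases j
        · exact hQb.1
        · exact hQb.2)
      (by
        intro k
        rw [hai]
        fin_cases k
        · exact hQc.1
        · exact hQc.2) hFr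
    simp only [hai] at hCn hpos hv hx
    refine ⟨(⟨ib, b 0, b 1, m⟩, ⟨ic, c 0, c 1, m'⟩),
      hmJ ib _ _ m hibS (hCA.mb 0) (hCA.mb 1) hd.1,
      hmJ ic _ _ m' hicS (hCA.mc 0) (hCA.mc 1) hd.2, htt, ?_, ?_, v, ?_, ?_⟩
    · show Cn (2 * √(max K 1)) (fr e₁ e₂ f ![b 0, b 1] m) (fr e₁ e₂ f ![c 0, c 1] m')
      rw [vec2, vec2]
      exact hCn
    · show 0 < nrm (fr e₁ e₂ f ![b 0, b 1] m) (Q ic (c 0) (c 1) - Q ib (b 0) (b 1))
      rw [vec2]
      exact hpos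
    · show nrm (fr e₁ e₂ f ![b 0, b 1] m) (v - Q ib (b 0) (b 1)) ≤
        D * nrm (fr e₁ e₂ f ![b 0, b 1] m) (Q ic (c 0) (c 1) - Q ib (b 0) (b 1))
      rw [vec2]
      exact hv
    · intro x hxv
      have hxv' : nrm (fr e₁ e₂ f ![b 0, b 1] m) (x - v) ≤
        c₀ * nrm (fr e₁ e₂ f ![b 0, b 1] m) (Q ic (c 0) (c 1) - Q ib (b 0) (b 1)) := hxv
      rw [vec2] at hxv'
      rw [htt, hCA.int]
      exact hx x hxv'
  have : Nonempty (Σ _ : Fin n, E3 × (E3 × Bool)) := ⟨⟨ia, 0, 0, true⟩⟩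
  choose! φ hφ1 hφ2 hφ3 hφ4 hφ5 hφ6 using hφ
  have hinj : Set.InjOn φ (T₀ : Set (Finset (Fin n))) := by
    intro t ht t' ht' he
    rw [hφ3 t ht, hφ3 t' ht', he]
  have hmain := hN J (fun z => Q z.1 z.2.1 z.2.2.1) (fun z => fr e₁ e₂ f ![z.2.1, z.2.2.1] z.2.2.2)
    (T₀.image φ) (fun z => {q | pt f (F.h ia f) e₁ e₂ q ∈ Int3 F {ia, z.1.1, z.2.1}})
    (by
      intro z hz
      have h1 := hJd z hz
      have h2 : wd (fr e₁ e₂ f ![z.2.1, z.2.2.1] z.2.2.2 0)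
          (fr e₁ e₂ f ![z.2.1, z.2.2.1] z.2.2.2 1) =
          sc z.2.2.2 f ![z.2.1, z.2.2.1] 0 * sc z.2.2.2 f ![z.2.1, z.2.2.1] 1 *
            dt f z.2.1 z.2.2.1 := by
        rw [hdt]
        simp only [fr, co, wd, Matrix.cons_val_zero, Matrix.cons_val_one]
        ring
      rw [h2]
      have h3 : 0 < sc z.2.2.2 f ![z.2.1, z.2.2.1] 0 :=
        sc_pos' _ _ _ 0 (cr_ne_left (v := z.2.2.1) h1)
      have h4 : 0 < sc z.2.2.2 f ![z.2.1, z.2.2.1] 1 :=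
        sc_pos' _ _ _ 1 (cr_ne_right (u := z.2.1) h1)
      exact mul_ne_zero (mul_pos h3 h4).ne' h1)
    (by
      intro z hz
      obtain ⟨t, ht, rfl⟩ := Finset.mem_image.1 hz
      exact ⟨hφ1 t ht, hφ2 t ht⟩)
    (by
      intro z hz z' hz' hne
      obtain ⟨t, ht, rfl⟩ := Finset.mem_image.1 hz
      obtain ⟨t', ht', rfl⟩ := Finset.mem_image.1 hz'
      rw [Set.disjoint_left]
      intro q hq hq'
      have hq1 : pt f (F.h ia f) e₁ e₂ q ∈ Int3 F {ia, (φ t).1.1, (φ t).2.1} := hq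
      have hq2 : pt f (F.h ia f) e₁ e₂ q ∈ Int3 F {ia, (φ t').1.1, (φ t').2.1} := hq'
      rw [← hφ3 t ht] at hq1
      rw [← hφ3 t' ht'] at hq2
      have htt : t ≠ t' := fun h => hne (by rw [h])
      exact clean_disjoint hG (hcl t ht) (hcl t' ht') htt hq1 hq2)
    (by
      intro z hz
      obtain ⟨t, ht, rfl⟩ := Finset.mem_image.1 hz
      exact hφ4 t ht)
    (by
      intro z hz
      obtain ⟨t, ht, rfl⟩ := Finset.mem_image.1 hz
      refine ⟨hφ5 t ht, ?_⟩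
      obtain ⟨v, hv1, hv2⟩ := hφ6 t ht
      refine ⟨v, hv1, fun x hx => ?_⟩
      show pt f (F.h ia f) e₁ e₂ x ∈ Int3 F {ia, (φ t).1.1, (φ t).2.1}
      rw [← hφ3 t ht]
      exact hv2 x hx)
  rw [Finset.card_image_of_injOn hinj] at hmain
  calc T₀.card ≤ N * J.card := hmain
    _ ≤ N * (S.card * (s * (s * 2))) := Nat.mul_le_mul_left N hJc
    _ = N * (s * (s * 2)) * S.card := by ring

end UF.FP
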