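import Mathlib

/-!
# FP/Quad (M): a square inside a quadrilateral with the vertices on the axes

The quadrilateral is `{x ≥ 0, y ≥ 0, h k + u k * x + v k * y ≥ 0 (k = 0, 1)}`; the line `k` passes through the points `(0, ty k)` and
`(tx k, 0)` of the positive axes; the two lines meet at `(π₁, π₂)`; `|u k|, |v k| ≤ L` and `|u 0 * v 1 - u 1 * v 0| = 1`.

PROOF. `ty 0 ≠ ty 1` (otherwise `h 0 + v 0 * ty 0 = 0` and `> 0`). The statement is symmetric under exchanging the two lines (`k ↔ 1 - k`), so let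
`ty 0 < ty 1`. `h 0 + v 0 y` vanishes at `ty 0` and is positive at `ty 1`: `v 0 > 0`, `h 0 < 0`. `h 1 + v 1 y` vanishes at
`ty 1` and is positive at `ty 0`: `v 1 < 0`, `h 1 > 0`. From `h k + u k * tx k = 0`: `u 0 > 0`, `u 1 < 0`.
`(π₁, π₂) ≠ 0` as `h 0 ≠ 0`, so `ρ > 0`. Not both `π₁ ≥ 0` and `π₂ ≥ 0`: `tx 0 < tx 1`, because `h 1 + u 1 * tx 0 > 0`; then
`π₁ / tx 0 + π₂ / ty 0 = 1` and `π₁ / tx 1 + π₂ / ty 1 = 1` (divide the line equations by `- h k`; `u k = - h k / tx k`, `v k = - h k / ty k`), but the second sum is strictly smaller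
than the first one. By the symmetry exchanging the coordinates (`u ↔ v`, `tx ↔ ty`, `π₁ ↔ π₂`) let `π₂ < 0` (and then `π₁ > 0`, because
`u 0 π₁ + v 0 π₂ = - h 0 > 0`). Let `det = u 0 * v 1 - u 1 * v 0`. The point `(0, ty 0)` is on the line `0`, so
`(0, ty 0) - (π₁, π₂) = μ (- v 0, u 0)` with `μ = π₁ / v 0 > 0`. The slack of the line `1` at `(0, ty 0)` is
`u 1 * (- π₁) + v 1 * (ty 0 - π₂) = μ * det > 0`, so `det = 1` and the slack is `μ`. `- u 1 * v 0 = 1 + u 0 * |v 1| ≥ 1`, so `v 0 ≥ 1 / L`; so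
`μ ≤ L π₁ ≤ L ρ` and `ty 0 = μ u 0 + π₂ ≤ L ^ 2 ρ`. `π₁ = μ v 0 ≤ L μ`, `|π₂| = μ u 0 - ty 0 ≤ L μ`: `ρ ≤ L μ`.
Take `(x, y) = (δ ρ, ty 0 + δ ρ)` with `δ = 1 / (4 L ^ 2)`. For `|x' - x|, |y' - y| ≤ ρ / (8 L ^ 4)` (`≤ δ ρ / (2 L ^ 2)`): `x', y' ≥ δ ρ - δ ρ / 2 ≥ 0`; the slack of the line `0` is
at least `(u 0 + v 0) δ ρ - 2 L ρ / (8 L ^ 4)`, and `1 = |det| ≤ L (u 0 + v 0)`, so it is at least
`ρ / (4 L ^ 3) - ρ / (4 L ^ 3) = 0`; the slack of the line `1` is at least `μ - 2 L δ ρ - 2 L ρ / (8 L ^ 4) ≥ ρ / L - ρ / (2 L) - ρ / (4 L ^ 3) ≥ 0`. `|x| ≤ ρ`, `|y| ≤ (L ^ 2 + 1) ρ`.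
-/

set_option autoImplicit false

namespace UF.FP

private theorem quad_core {L : ℝ} (hL : 1 ≤ L) {u0 u1 v0 v1 h0 h1 ty0 p q : ℝ} (hu0 : u0 ≤ L)
    (hu1 : -L ≤ u1) (hv0 : v0 ≤ L) (hv1 : -L ≤ v1) (hdet : |u0 * v1 - u1 * v0| = 1)
    (pu0 : 0 < u0) (pu1 : u1 < 0) (pv0 : 0 < v0) (pv1 : v1 < 0) (ph0 : h0 < 0) (hy0 : 0 < ty0)
    (e0 : h0 + v0 * ty0 = 0) (s : 0 < h1 + v1 * ty0) (l0 : h0 + u0 * p + v0 * q = 0)
    (l1 : h1 + u1 * p + v1 * q = 0) (hq : q < 0) :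
    0 < max |p| |q| ∧ ∃ x y : ℝ, |x| ≤ (L ^ 2 + 1) * max |p| |q| ∧
      |y| ≤ (L ^ 2 + 1) * max |p| |q| ∧ ∀ x' y' : ℝ, |x' - x| ≤ max |p| |q| / (8 * L ^ 4) →
        |y' - y| ≤ max |p| |q| / (8 * L ^ 4) →
          0 ≤ x' ∧ 0 ≤ y' ∧ 0 ≤ h0 + u0 * x' + v0 * y' ∧ 0 ≤ h1 + u1 * x' + v1 * y' := by
  have hp : 0 < p := by
    have h1 : 0 < u0 * p := by linarith [mul_pos pv0 (neg_pos.2 hq)]
    exact (pos_iff_pos_of_mul_pos h1).1 pu0
  obtain ⟨μ, hμ⟩ : ∃ μ, p = μ * v0 := ⟨p / v0, by field_simp⟩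
  have hμ0 : 0 < μ := by
    rw [hμ] at hp
    exact (pos_iff_pos_of_mul_pos hp).2 pv0
  have hty : ty0 - q = μ * u0 := by
    have h1 : v0 * (ty0 - q) = v0 * (μ * u0) := by
      rw [hμ] at l0
      linear_combination e0 - l0
    exact mul_left_cancel₀ pv0.ne' h1
  have hs : h1 + v1 * ty0 = μ * (u0 * v1 - u1 * v0) := by
    rw [hμ] at l1
    linear_combination l1 + v1 * hty
  have hd : u0 * v1 - u1 * v0 = 1 := by
    rw [hs] at s
    have := (pos_iff_pos_of_mul_pos s).1 hμ0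
    rwa [abs_of_pos this] at hdet
  rw [hd, mul_one] at hs
  have hLv : 1 ≤ L * v0 := by
    linarith [mul_pos pu0 (neg_pos.2 pv1), mul_nonneg (by linarith : 0 ≤ L + u1) pv0.le]
  obtain ⟨ρ, hρ⟩ : ∃ ρ, ρ = max |p| |q| := ⟨_, rfl⟩
  have r1 : p ≤ ρ := by rw [hρ]; exact (le_abs_self p).trans (le_max_left _ _)
  have r2 : ρ ≤ L * μ := by
    rw [hρ]
    apply max_le
    · rw [abs_of_pos hp, hμ, mul_comm L μ]
      exact mul_le_mul_of_nonneg_left hv0 hμ0.le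
    · rw [abs_of_neg hq]
      have := mul_le_mul_of_nonneg_left hu0 hμ0.le
      linarith
  have r0 : 0 < ρ := lt_of_lt_of_le hp r1
  have hL0 : 0 < L := by linarith
  have r3 : μ ≤ L * ρ := by
    have k1 := mul_le_mul_of_nonneg_left hLv hμ0.le
    have k2 := mul_le_mul_of_nonneg_left r1 hL0.le
    rw [hμ] at k2
    linarith
  have hty0 : ty0 ≤ L ^ 2 * ρ := by
    have k1 := mul_le_mul_of_nonneg_left hu0 hμ0.le
    have k2 := mul_le_mul_of_nonneg_left r3 hL0.le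
    linarith
  rw [← hρ]
  refine ⟨r0, ?_⟩
  have hL2 : 1 ≤ L ^ 2 := one_le_pow₀ hL
  obtain ⟨ε, hε⟩ : ∃ ε, ε = ρ / (8 * L ^ 4) := ⟨_, rfl⟩
  obtain ⟨η, hη⟩ : ∃ η, η = ρ / (4 * L ^ 2) := ⟨_, rfl⟩
  have hη0 : 0 < η := by rw [hη]; positivity
  have hε0 : 0 < ε := by rw [hε]; positivity
  have hηρ : ρ = 4 * L ^ 2 * η := by rw [hη]; field_simp
  have hεη : η = 2 * L ^ 2 * ε := by rw [hη, hε]; field_simp; norm_num
  have hε2 : ε ≤ η / 2 := by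
    have := mul_le_mul_of_nonneg_right hL2 hε0.le
    linarith
  have hηρ' : η ≤ ρ := by
    have := mul_le_mul_of_nonneg_right hL2 hη0.le
    linarith
  have hLρ : 0 ≤ L ^ 2 * ρ := by positivity
  rw [← hε]
  refine ⟨η, ty0 + η, ?_, ?_, ?_⟩
  · rw [abs_of_pos hη0]
    linarith
  · rw [abs_of_pos (by linarith)]
    linarith
  · intro x' y' hx' hy'
    rw [abs_le] at hx' hy'
    have x0 : 0 ≤ x' := by linarith
    have y0 : 0 ≤ y' - ty0 := by linarith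
    have x1 : x' ≤ 3 / 2 * η := by linarith
    have y1 : y' - ty0 ≤ 3 / 2 * η := by linarith
    refine ⟨x0, by linarith, ?_, ?_⟩
    · linarith [mul_nonneg pu0.le x0, mul_nonneg pv0.le y0]
    · have k1 : 4 * (L * η) ≤ μ := by
        have : L * (4 * (L * η)) ≤ L * μ := by
          rw [hηρ] at r2
          linarith
        exact le_of_mul_le_mul_left this (by linarith)
      have k2 : -(L * (3 / 2 * η)) ≤ u1 * x' := by
        have a := mul_nonneg (by linarith : 0 ≤ L + u1) x0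
        have b := mul_le_mul_of_nonneg_left x1 hL0.le
        linarith
      have k3 : -(L * (3 / 2 * η)) ≤ v1 * (y' - ty0) := by
        have a := mul_nonneg (by linarith : 0 ≤ L + v1) y0
        have b := mul_le_mul_of_nonneg_left y1 hL0.le
        linarith
      have k4 : 0 < L * η := by positivity
      linarith

private theorem quad_main {L : ℝ} (hL : 1 ≤ L) {u0 u1 v0 v1 h0 h1 tx0 tx1 ty0 ty1 p q : ℝ}
    (hu0 : |u0| ≤ L) (hu1 : |u1| ≤ L) (hv0 : |v0| ≤ L) (hv1 : |v1| ≤ L)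
    (hdet : |u0 * v1 - u1 * v0| = 1) (x0 : 0 < tx0) (x1 : 0 < tx1) (y0 : 0 < ty0) (y1 : 0 < ty1)
    (ex0 : h0 + u0 * tx0 = 0) (ex1 : h1 + u1 * tx1 = 0) (ey0 : h0 + v0 * ty0 = 0)
    (ey1 : h1 + v1 * ty1 = 0) (sx1 : 0 < h1 + u1 * tx0)
    (sy0 : 0 < h0 + v0 * ty1) (sy1 : 0 < h1 + v1 * ty0) (l0 : h0 + u0 * p + v0 * q = 0)
    (l1 : h1 + u1 * p + v1 * q = 0) (hlt : ty0 < ty1) :
    0 < max |p| |q| ∧ ∃ x y : ℝ, |x| ≤ (L ^ 2 + 1) * max |p| |q| ∧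
      |y| ≤ (L ^ 2 + 1) * max |p| |q| ∧ ∀ x' y' : ℝ, |x' - x| ≤ max |p| |q| / (8 * L ^ 4) →
        |y' - y| ≤ max |p| |q| / (8 * L ^ 4) →
          0 ≤ x' ∧ 0 ≤ y' ∧ 0 ≤ h0 + u0 * x' + v0 * y' ∧ 0 ≤ h1 + u1 * x' + v1 * y' := by
  have d : 0 < ty1 - ty0 := sub_pos.2 hlt
  have pv0 : 0 < v0 := by
    have : 0 < v0 * (ty1 - ty0) := by linarith
    exact (pos_iff_pos_of_mul_pos this).2 d
  have pv1 : v1 < 0 := by
    have : 0 < (-v1) * (ty1 - ty0) := by linarith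
    have := (pos_iff_pos_of_mul_pos this).2 d
    linarith
  have ph0 : h0 < 0 := by
    have := mul_pos pv0 y0
    linarith
  have ph1 : 0 < h1 := by
    have := mul_pos (neg_pos.2 pv1) y1
    linarith
  have pu0 : 0 < u0 := by
    have : 0 < u0 * tx0 := by linarith
    exact (pos_iff_pos_of_mul_pos this).2 x0
  have pu1 : u1 < 0 := by
    have : 0 < (-u1) * tx1 := by linarith
    have := (pos_iff_pos_of_mul_pos this).2 x1
    linarith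
  rw [abs_le] at hu0 hu1 hv0 hv1
  by_cases hq : q < 0
  · exact quad_core hL hu0.2 hu1.1 hv0.2 hv1.1 hdet pu0 pu1 pv0 pv1 ph0 y0 ey0 sy1 l0 l1 hq
  · push Not at hq
    have hp : p < 0 := by
      by_contra hp
      push Not at hp
      have k1 : (h1 * u0 - h0 * u1) * p + (h1 * v0 - h0 * v1) * q = 0 := by
        linear_combination h1 * l0 - h0 * l1
      have k2 : h1 * u0 - h0 * u1 = u0 * (h1 + u1 * tx0) := by
        linear_combination (-u1) * ex0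
      have k3 : h1 * v0 - h0 * v1 = v0 * (h1 + v1 * ty0) := by
        linear_combination (-v1) * ey0
      have k4 : 0 < u0 * (h1 + u1 * tx0) := mul_pos pu0 sx1
      have k5 : 0 < v0 * (h1 + v1 * ty0) := mul_pos pv0 sy1
      rw [k2, k3] at k1
      have k6 : u0 * (h1 + u1 * tx0) * p = 0 := by
        have a := mul_nonneg k4.le hp
        have b := mul_nonneg k5.le hq
        linarith
      have k7 : v0 * (h1 + v1 * ty0) * q = 0 := by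
        have a := mul_nonneg k4.le hp
        have b := mul_nonneg k5.le hq
        linarith
      have k8 : p = 0 := (mul_eq_zero.1 k6).resolve_left k4.ne'
      have k9 : q = 0 := (mul_eq_zero.1 k7).resolve_left k5.ne'
      rw [k8, k9] at l0
      linarith
    have hdet' : |v0 * u1 - v1 * u0| = 1 := by
      rw [← hdet, abs_sub_comm]
      congr 1
      ring
    obtain ⟨g1, x, y, g2, g3, g4⟩ := quad_core (p := q) (q := p) hL hv0.2 hv1.1 hu0.2 hu1.1 hdet' pv0 pv1 pu0 pu1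
      ph0 x0 ex0 sx1 (by linarith) (by linarith) hp
    rw [max_comm |q| |p|] at g1 g2 g3 g4
    refine ⟨g1, y, x, g3, g2, ?_⟩
    intro x' y' hx' hy'
    obtain ⟨f1, f2, f3, f4⟩ := g4 y' x' hy' hx'
    exact ⟨f2, f1, by linarith, by linarith⟩

theorem quad {L : ℝ} (hL : 1 ≤ L) {u v h tx ty : Fin 2 → ℝ} {π₁ π₂ : ℝ}
    (hu : ∀ k, |u k| ≤ L) (hv : ∀ k, |v k| ≤ L) (hdet : |u 0 * v 1 - u 1 * v 0| = 1)
    (hx : ∀ k, 0 < tx k) (hy : ∀ k, 0 < ty k) (ex : ∀ k, h k + u k * tx k = 0)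
    (ey : ∀ k, h k + v k * ty k = 0) (sx : ∀ k k', k' ≠ k → 0 < h k' + u k' * tx k)
    (sy : ∀ k k', k' ≠ k → 0 < h k' + v k' * ty k) (hπ : ∀ k, h k + u k * π₁ + v k * π₂ = 0) :
    0 < max |π₁| |π₂| ∧ ∃ x y : ℝ, |x| ≤ (L ^ 2 + 1) * max |π₁| |π₂| ∧
      |y| ≤ (L ^ 2 + 1) * max |π₁| |π₂| ∧ ∀ x' y' : ℝ, |x' - x| ≤ max |π₁| |π₂| / (8 * L ^ 4) →
        |y' - y| ≤ max |π₁| |π₂| / (8 * L ^ 4) →
          0 ≤ x' ∧ 0 ≤ y' ∧ ∀ k, 0 ≤ h k + u k * x' + v k * y' := by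
  have e01 : (1 : Fin 2) ≠ 0 := by decide
  have e10 : (0 : Fin 2) ≠ 1 := by decide
  have hne : ty 0 ≠ ty 1 := by
    intro h1
    have h2 := sy 1 0 e10
    rw [← h1, ey 0] at h2
    exact lt_irrefl _ h2
  rcases lt_or_gt_of_ne hne with hlt | hgt
  · obtain ⟨g1, x, y, g2, g3, g4⟩ := quad_main hL (hu 0) (hu 1) (hv 0) (hv 1) hdet (hx 0) (hx 1)
      (hy 0) (hy 1) (ex 0) (ex 1) (ey 0) (ey 1) (sx 0 1 e01) (sy 1 0 e10) (sy 0 1 e01) (hπ 0)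
      (hπ 1) hlt
    refine ⟨g1, x, y, g2, g3, ?_⟩
    intro x' y' hx' hy'
    obtain ⟨f1, f2, f3, f4⟩ := g4 x' y' hx' hy'
    refine ⟨f1, f2, ?_⟩
    rw [Fin.forall_fin_two]
    exact ⟨f3, f4⟩
  · have hdet' : |u 1 * v 0 - u 0 * v 1| = 1 := by
      rw [← hdet, abs_sub_comm]
    obtain ⟨g1, x, y, g2, g3, g4⟩ := quad_main hL (hu 1) (hu 0) (hv 1) (hv 0) hdet' (hx 1) (hx 0)
      (hy 1) (hy 0) (ex 1) (ex 0) (ey 1) (ey 0) (sx 1 0 e10) (sy 0 1 e01) (sy 1 0 e10) (hπ 1)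
      (hπ 0) hgt
    refine ⟨g1, x, y, g2, g3, ?_⟩
    intro x' y' hx' hy'
    obtain ⟨f1, f2, f3, f4⟩ := g4 x' y' hx' hy'
    refine ⟨f1, f2, ?_⟩
    rw [Fin.forall_fin_two]
    exact ⟨f4, f3⟩

end UF.FP
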