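import Pool.Agent.Work.MP_4c5ddc_co.FP.DefsP
import Pool.Agent.Work.MP_4c5ddc_co.FP.Quad

/-!
# FP/QReg (M): the planar region of a framed facet

PROOF. `V = wd (ξ 0) (ξ 1)`, `W = wd (ζ 0) (ζ 1)`, both nonzero. `l = √(|V| / |W|) > 0`.
`cmp_nrm`: `V • ζ k = (wd (ζ k) (ξ 1)) • ξ 0 + (wd (ξ 0) (ζ k)) • ξ 1` (identity of vectors of the plane), so
`|V| * |ev (ζ k) q| ≤ (|wd (ζ k) (ξ 1)| + |wd (ξ 0) (ζ k)|) * nrm ξ q ≤ 2 * √(K |V| |W|) * nrm ξ q`, i.e. `l * nrm ζ q ≤ 2 √K nrm ξ q`. The same with `ξ, ζ` exchanged.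
`quad_region`: put `L = √K` (so `1 ≤ L`). Coordinates of a point `q`: `x = β 0 - ev (ξ 0) q`, `y = β 1 - ev (ξ 1) q` (a bijection `ℝ × ℝ → ℝ × ℝ` since `V ≠ 0`; `Pb` has coordinates `(0, 0)`,
and `nrm ξ (q - q') = max |x - x'| |y - y'|`). With `ζ k = U k • ξ 0 + V k • ξ 1`, `U k = wd (ζ k) (ξ 1) / V`, `V k = wd (ξ 0) (ζ k) / V`, one has
`l * (γ k - ev (ζ k) q) = h k + u k * x + v k * y` with `u k = l * U k`, `v k = l * V k`, `h k = l * (γ k - ev (ζ k) Pb)`. `|u k|, |v k| ≤ L` by `hC`;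
`u 0 * v 1 - u 1 * v 0 = l ^ 2 * W / V = ± 1`. Apply `quad` with `ty k` = the `y` coordinate of `q 0 k` (its `x` coordinate is `0` because `ev (ξ 0) (q 0 k) = β 0`; the `y` coordinate is
positive by `h1`), `tx k` = the `x` coordinate of `q 1 k` (its `y` coordinate is `0`), `(π₁, π₂)` = the coordinates of `Pc`. `v` of the conclusion is the point with the coordinates `(x, y)` of `quad`.
Constants: `c = 1 / (8 L ^ 4)`, `D = L ^ 2 + 1`.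
-/

set_option autoImplicit false

namespace UF.FP

private theorem ev_expand (ξ ζ : Fin 2 → ℝ × ℝ) (k : Fin 2) (q : ℝ × ℝ) :
    wd (ξ 0) (ξ 1) * ev (ζ k) q =
      wd (ζ k) (ξ 1) * ev (ξ 0) q + wd (ξ 0) (ζ k) * ev (ξ 1) q := by
  simp only [wd, ev]
  ring

private theorem wd_anti (a b : ℝ × ℝ) : wd a b = -wd b a := by
  simp only [wd]
  ring

/-- the bound for the wedges -/
private theorem wd_le {K : ℝ} (hK : 0 < K) {ξ ζ : Fin 2 → ℝ × ℝ}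
    (hC : ∀ j k, (wd (ξ j) (ζ k)) ^ 2 ≤ K * (|wd (ξ 0) (ξ 1)| * |wd (ζ 0) (ζ 1)|))
    (j k : Fin 2) : |wd (ξ j) (ζ k)| ≤
      √K * (√|wd (ξ 0) (ξ 1)| * √|wd (ζ 0) (ζ 1)|) := by
  have h1 : √K * (√|wd (ξ 0) (ξ 1)| * √|wd (ζ 0) (ζ 1)|) =
      √(K * (|wd (ξ 0) (ξ 1)| * |wd (ζ 0) (ζ 1)|)) := by
    rw [Real.sqrt_mul hK.le, Real.sqrt_mul (abs_nonneg _)]
  rw [h1]
  apply Real.le_sqrt_of_sq_le
  rw [sq_abs]
  exact hC j k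

private theorem half {K : ℝ} (hK : 0 < K) {ξ ζ : Fin 2 → ℝ × ℝ}
    (hC : ∀ j k, (wd (ξ j) (ζ k)) ^ 2 ≤ K * (|wd (ξ 0) (ξ 1)| * |wd (ζ 0) (ζ 1)|))
    (q : ℝ × ℝ) : |wd (ξ 0) (ξ 1)| * nrm ζ q ≤
      2 * (√K * (√|wd (ξ 0) (ξ 1)| * √|wd (ζ 0) (ζ 1)|)) * nrm ξ q := by
  obtain ⟨R, hR⟩ : ∃ R, R = √K * (√|wd (ξ 0) (ξ 1)| * √|wd (ζ 0) (ζ 1)|) := ⟨_, rfl⟩
  rw [← hR]
  have hR0 : 0 ≤ R := by rw [hR]; positivity
  have hn0 : |ev (ξ 0) q| ≤ nrm ξ q := le_max_left _ _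
  have hn1 : |ev (ξ 1) q| ≤ nrm ξ q := le_max_right _ _
  have key : ∀ k : Fin 2, |wd (ξ 0) (ξ 1)| * |ev (ζ k) q| ≤ 2 * R * nrm ξ q := by
    intro k
    rw [← abs_mul, ev_expand]
    have h1 : |wd (ζ k) (ξ 1)| ≤ R := by
      rw [wd_anti, abs_neg, hR]
      exact wd_le hK hC 1 k
    have h2 : |wd (ξ 0) (ζ k)| ≤ R := by
      rw [hR]
      exact wd_le hK hC 0 k
    calc |wd (ζ k) (ξ 1) * ev (ξ 0) q + wd (ξ 0) (ζ k) * ev (ξ 1) q|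
        ≤ |wd (ζ k) (ξ 1) * ev (ξ 0) q| + |wd (ξ 0) (ζ k) * ev (ξ 1) q| := abs_add_le _ _
      _ = |wd (ζ k) (ξ 1)| * |ev (ξ 0) q| + |wd (ξ 0) (ζ k)| * |ev (ξ 1) q| := by
          rw [abs_mul, abs_mul]
      _ ≤ R * nrm ξ q + R * nrm ξ q :=
          add_le_add (mul_le_mul h1 hn0 (abs_nonneg _) hR0) (mul_le_mul h2 hn1 (abs_nonneg _) hR0)
      _ = 2 * R * nrm ξ q := by ring
  rw [nrm, mul_max_of_nonneg _ _ (abs_nonneg _)]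
  exact max_le (key 0) (key 1)

theorem cmp_nrm {K : ℝ} (hK : 0 < K) {ξ ζ : Fin 2 → ℝ × ℝ} (hξ : wd (ξ 0) (ξ 1) ≠ 0)
    (hζ : wd (ζ 0) (ζ 1) ≠ 0) (hC : ∀ j k, (wd (ξ j) (ζ k)) ^ 2 ≤
      K * (|wd (ξ 0) (ξ 1)| * |wd (ζ 0) (ζ 1)|)) : Cn (2 * √K) ξ ζ := by
  have hp : 0 < √|wd (ξ 0) (ξ 1)| := Real.sqrt_pos.2 (abs_pos.2 hξ)
  have hr : 0 < √|wd (ζ 0) (ζ 1)| := Real.sqrt_pos.2 (abs_pos.2 hζ)
  have hp2 : √|wd (ξ 0) (ξ 1)| * √|wd (ξ 0) (ξ 1)| = |wd (ξ 0) (ξ 1)| :=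
    Real.mul_self_sqrt (abs_nonneg _)
  have hr2 : √|wd (ζ 0) (ζ 1)| * √|wd (ζ 0) (ζ 1)| = |wd (ζ 0) (ζ 1)| :=
    Real.mul_self_sqrt (abs_nonneg _)
  have hC' : ∀ j k, (wd (ζ j) (ξ k)) ^ 2 ≤ K * (|wd (ζ 0) (ζ 1)| * |wd (ξ 0) (ξ 1)|) := by
    intro j k
    rw [wd_anti, neg_sq, mul_comm |wd (ζ 0) (ζ 1)|]
    exact hC k j
  refine ⟨√|wd (ξ 0) (ξ 1)| / √|wd (ζ 0) (ζ 1)|, by positivity, fun q => ?_⟩
  have h1 := half hK hC q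
  have h2 := half hK hC' q
  obtain ⟨a, ha⟩ : ∃ a, a = √|wd (ξ 0) (ξ 1)| := ⟨_, rfl⟩
  obtain ⟨b, hb⟩ : ∃ b, b = √|wd (ζ 0) (ζ 1)| := ⟨_, rfl⟩
  rw [← ha] at h1 h2 hp hp2 ⊢
  rw [← hb] at h1 h2 hr hr2 ⊢
  rw [← hp2] at h1
  rw [← hr2] at h2
  constructor
  · have h3 : b * nrm ξ q ≤ 2 * (√K * a) * nrm ζ q := by
      have h4 : b * (b * nrm ξ q) ≤ b * (2 * (√K * a) * nrm ζ q) := by
        calc b * (b * nrm ξ q) = b * b * nrm ξ q := by ring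
          _ ≤ 2 * (√K * (b * a)) * nrm ζ q := h2
          _ = b * (2 * (√K * a) * nrm ζ q) := by ring
      exact le_of_mul_le_mul_left h4 hr
    calc nrm ξ q = (b * nrm ξ q) / b := by field_simp
      _ ≤ (2 * (√K * a) * nrm ζ q) / b := div_le_div_of_nonneg_right h3 hr.le
      _ = 2 * √K * (a / b * nrm ζ q) := by ring
  · have h3 : a * nrm ζ q ≤ 2 * (√K * b) * nrm ξ q := by
      have h4 : a * (a * nrm ζ q) ≤ a * (2 * (√K * b) * nrm ξ q) := by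
        calc a * (a * nrm ζ q) = a * a * nrm ζ q := by ring
          _ ≤ 2 * (√K * (a * b)) * nrm ξ q := h1
          _ = a * (2 * (√K * b) * nrm ξ q) := by ring
      exact le_of_mul_le_mul_left h4 hp
    calc a / b * nrm ζ q = (a * nrm ζ q) / b := by ring
      _ ≤ (2 * (√K * b) * nrm ξ q) / b := div_le_div_of_nonneg_right h3 hr.le
      _ = 2 * √K * nrm ξ q := by field_simp

theorem quad_region {K : ℝ} (hK : 1 ≤ K) : ∃ c D : ℝ, 0 < c ∧ 0 ≤ D ∧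
    ∀ (ξ ζ : Fin 2 → ℝ × ℝ) (β γ : Fin 2 → ℝ) (q : Fin 2 → Fin 2 → ℝ × ℝ) (Pb Pc : ℝ × ℝ),
      wd (ξ 0) (ξ 1) ≠ 0 → wd (ζ 0) (ζ 1) ≠ 0 →
      (∀ j k, (wd (ξ j) (ζ k)) ^ 2 ≤ K * (|wd (ξ 0) (ξ 1)| * |wd (ζ 0) (ζ 1)|)) →
      (∀ j k, ev (ξ j) (q j k) = β j) → (∀ j k, ev (ζ k) (q j k) = γ k) →
      (∀ j j' k, j' ≠ j → ev (ξ j') (q j k) < β j') →
      (∀ j k k', k' ≠ k → ev (ζ k') (q j k) < γ k') → (∀ j, ev (ξ j) Pb = β j) →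
      (∀ k, ev (ζ k) Pc = γ k) → 0 < nrm ξ (Pc - Pb) ∧ ∃ v : ℝ × ℝ,
        nrm ξ (v - Pb) ≤ D * nrm ξ (Pc - Pb) ∧ ∀ x : ℝ × ℝ, nrm ξ (x - v) ≤ c * nrm ξ (Pc - Pb) →
          (∀ j, ev (ξ j) x ≤ β j) ∧ ∀ k, ev (ζ k) x ≤ γ k := by
  have hK0 : 0 < K := by linarith
  have hL : 1 ≤ √K := Real.one_le_sqrt.2 hK
  refine ⟨1 / (8 * √K ^ 4), √K ^ 2 + 1, by positivity, by positivity, ?_⟩
  intro ξ ζ β γ q Pb Pc hξ hζ hC h1 h2 h3 h4 h5 h6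
  obtain ⟨V, hV⟩ : ∃ V, V = wd (ξ 0) (ξ 1) := ⟨_, rfl⟩
  obtain ⟨W, hW⟩ : ∃ W, W = wd (ζ 0) (ζ 1) := ⟨_, rfl⟩
  have hV0 : V ≠ 0 := by rw [hV]; exact hξ
  have hW0 : W ≠ 0 := by rw [hW]; exact hζ
  have hp : 0 < √|V| := Real.sqrt_pos.2 (abs_pos.2 hV0)
  have hr : 0 < √|W| := Real.sqrt_pos.2 (abs_pos.2 hW0)
  have hp2 : √|V| * √|V| = |V| := Real.mul_self_sqrt (abs_nonneg _)
  have hr2 : √|W| * √|W| = |W| := Real.mul_self_sqrt (abs_nonneg _)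
  obtain ⟨l, hl⟩ : ∃ l, l = √|V| / √|W| := ⟨_, rfl⟩
  have hl0 : 0 < l := by rw [hl]; positivity
  have hl2 : l * l = |V| / |W| := by
    rw [hl, div_mul_div_comm, hp2, hr2]
  -- the coefficients
  have hsub : ∀ (a x y : ℝ × ℝ), ev a (x - y) = ev a x - ev a y := by
    intro a x y
    simp only [ev, Prod.fst_sub, Prod.snd_sub]
    ring
  have hid : ∀ (k : Fin 2) (x : ℝ × ℝ), l * (γ k - ev (ζ k) x) =
      l * (γ k - ev (ζ k) Pb) + (l * (wd (ζ k) (ξ 1) / V)) * (β 0 - ev (ξ 0) x) +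
        (l * (wd (ξ 0) (ζ k) / V)) * (β 1 - ev (ξ 1) x) := by
    intro k x
    have e1 : ev (ζ k) x = (wd (ζ k) (ξ 1) * ev (ξ 0) x + wd (ξ 0) (ζ k) * ev (ξ 1) x) / V := by
      rw [eq_div_iff hV0, mul_comm, hV]
      exact ev_expand ξ ζ k x
    have e2 : ev (ζ k) Pb = (wd (ζ k) (ξ 1) * β 0 + wd (ξ 0) (ζ k) * β 1) / V := by
      rw [eq_div_iff hV0, mul_comm, hV, ← h5 0, ← h5 1]
      exact ev_expand ξ ζ k Pb
    rw [e1, e2]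
    ring
  have hul : ∀ k, |l * (wd (ζ k) (ξ 1) / V)| ≤ √K := by
    intro k
    have e1 : |wd (ζ k) (ξ 1)| ≤ √K * (√|V| * √|W|) := by
      rw [wd_anti, abs_neg, hV, hW]
      exact wd_le hK0 hC 1 k
    have hV1 : 0 < |V| := abs_pos.2 hV0
    rw [abs_mul, abs_div, abs_of_pos hl0, hl]
    rw [div_mul_div_comm, div_le_iff₀ (by positivity)]
    calc √|V| * |wd (ζ k) (ξ 1)| ≤ √|V| * (√K * (√|V| * √|W|)) :=
          mul_le_mul_of_nonneg_left e1 hp.le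
      _ = √K * (√|W| * (√|V| * √|V|)) := by ring
      _ = √K * (√|W| * |V|) := by rw [hp2]
  have hvl : ∀ k, |l * (wd (ξ 0) (ζ k) / V)| ≤ √K := by
    intro k
    have e1 : |wd (ξ 0) (ζ k)| ≤ √K * (√|V| * √|W|) := by
      rw [hV, hW]
      exact wd_le hK0 hC 0 k
    have hV1 : 0 < |V| := abs_pos.2 hV0
    rw [abs_mul, abs_div, abs_of_pos hl0, hl]
    rw [div_mul_div_comm, div_le_iff₀ (by positivity)]
    calc √|V| * |wd (ξ 0) (ζ k)| ≤ √|V| * (√K * (√|V| * √|W|)) :=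
          mul_le_mul_of_nonneg_left e1 hp.le
      _ = √K * (√|W| * (√|V| * √|V|)) := by ring
      _ = √K * (√|W| * |V|) := by rw [hp2]
  have hdet : |(l * (wd (ζ 0) (ξ 1) / V)) * (l * (wd (ξ 0) (ζ 1) / V)) -
      (l * (wd (ζ 1) (ξ 1) / V)) * (l * (wd (ξ 0) (ζ 0) / V))| = 1 := by
    have e1 : (l * (wd (ζ 0) (ξ 1) / V)) * (l * (wd (ξ 0) (ζ 1) / V)) -
      (l * (wd (ζ 1) (ξ 1) / V)) * (l * (wd (ξ 0) (ζ 0) / V)) = (l * l) * (W / V) := by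
      have e2 : wd (ζ 0) (ξ 1) * wd (ξ 0) (ζ 1) - wd (ζ 1) (ξ 1) * wd (ξ 0) (ζ 0) = V * W := by
        rw [hV, hW]
        simp only [wd]
        ring
      have e3 : (l * (wd (ζ 0) (ξ 1) / V)) * (l * (wd (ξ 0) (ζ 1) / V)) -
        (l * (wd (ζ 1) (ξ 1) / V)) * (l * (wd (ξ 0) (ζ 0) / V)) =
          (l * l) * ((wd (ζ 0) (ξ 1) * wd (ξ 0) (ζ 1) - wd (ζ 1) (ξ 1) * wd (ξ 0) (ζ 0)) /
            (V * V)) := by ring
      rw [e3, e2]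
      congr 1
      field_simp
    rw [e1, abs_mul, abs_div, abs_of_pos (mul_pos hl0 hl0), hl2]
    have hVa : |V| ≠ 0 := abs_ne_zero.2 hV0
    have hWa : |W| ≠ 0 := abs_ne_zero.2 hW0
    field_simp
  have hX0 : ∀ k, β 0 - ev (ξ 0) (q 0 k) = 0 := fun k => by rw [h1 0 k, sub_self]
  have hY1 : ∀ k, β 1 - ev (ξ 1) (q 1 k) = 0 := fun k => by rw [h1 1 k, sub_self]
  obtain ⟨hρ, x, y, hx, hy, hxy⟩ := quad hL
    (u := fun k => l * (wd (ζ k) (ξ 1) / V)) (v := fun k => l * (wd (ξ 0) (ζ k) / V))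
    (h := fun k => l * (γ k - ev (ζ k) Pb)) (tx := fun k => β 0 - ev (ξ 0) (q 1 k))
    (ty := fun k => β 1 - ev (ξ 1) (q 0 k)) (π₁ := β 0 - ev (ξ 0) Pc)
    (π₂ := β 1 - ev (ξ 1) Pc) hul hvl hdet
    (fun k => sub_pos.2 (h3 1 0 k (by decide))) (fun k => sub_pos.2 (h3 0 1 k (by decide)))
    (fun k => by
      have e := hid k (q 1 k)
      rw [hY1 k, h2 1 k, sub_self, mul_zero, mul_zero, add_zero] at e
      exact e.symm)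
    (fun k => by
      have e := hid k (q 0 k)
      rw [hX0 k, h2 0 k, sub_self, mul_zero, mul_zero, add_zero] at e
      exact e.symm)
    (fun k k' hk => by
      have e := hid k' (q 1 k)
      rw [hY1 k, mul_zero, add_zero] at e
      rw [← e]
      exact mul_pos hl0 (sub_pos.2 (h4 1 k k' hk)))
    (fun k k' hk => by
      have e := hid k' (q 0 k)
      rw [hX0 k, mul_zero, add_zero] at e
      rw [← e]
      exact mul_pos hl0 (sub_pos.2 (h4 0 k k' hk)))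
    (fun k => by
      have e := hid k Pc
      rw [h6 k, sub_self, mul_zero] at e
      exact e.symm)
  have hn : nrm ξ (Pc - Pb) = max |β 0 - ev (ξ 0) Pc| |β 1 - ev (ξ 1) Pc| := by
    rw [nrm, hsub, hsub, h5 0, h5 1, abs_sub_comm, abs_sub_comm (ev (ξ 1) Pc)]
  rw [hn]
  refine ⟨hρ, (((β 0 - x) * (ξ 1).2 - (β 1 - y) * (ξ 0).2) / V,
    ((ξ 0).1 * (β 1 - y) - (ξ 1).1 * (β 0 - x)) / V), ?_⟩
  have e0 : ev (ξ 0) (((β 0 - x) * (ξ 1).2 - (β 1 - y) * (ξ 0).2) / V,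
      ((ξ 0).1 * (β 1 - y) - (ξ 1).1 * (β 0 - x)) / V) = β 0 - x := by
    have e : ev (ξ 0) (((β 0 - x) * (ξ 1).2 - (β 1 - y) * (ξ 0).2) / V,
      ((ξ 0).1 * (β 1 - y) - (ξ 1).1 * (β 0 - x)) / V) = (β 0 - x) * (wd (ξ 0) (ξ 1) / V) := by
      simp only [ev, wd]
      ring
    rw [e, ← hV, div_self hV0, mul_one]
  have e1 : ev (ξ 1) (((β 0 - x) * (ξ 1).2 - (β 1 - y) * (ξ 0).2) / V,
      ((ξ 0).1 * (β 1 - y) - (ξ 1).1 * (β 0 - x)) / V) = β 1 - y := by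
    have e : ev (ξ 1) (((β 0 - x) * (ξ 1).2 - (β 1 - y) * (ξ 0).2) / V,
      ((ξ 0).1 * (β 1 - y) - (ξ 1).1 * (β 0 - x)) / V) = (β 1 - y) * (wd (ξ 0) (ξ 1) / V) := by
      simp only [ev, wd]
      ring
    rw [e, ← hV, div_self hV0, mul_one]
  constructor
  · rw [nrm, hsub, hsub, e0, e1, h5 0, h5 1]
    refine max_le ?_ ?_
    · rw [show β 0 - x - β 0 = -x by ring, abs_neg]
      exact hx
    · rw [show β 1 - y - β 1 = -y by ring, abs_neg]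
      exact hy
  · intro z hz
    rw [nrm, hsub, hsub, e0, e1] at hz
    have hz0 : |(β 0 - ev (ξ 0) z) - x| ≤
        max |β 0 - ev (ξ 0) Pc| |β 1 - ev (ξ 1) Pc| / (8 * √K ^ 4) := by
      rw [show (β 0 - ev (ξ 0) z) - x = -(ev (ξ 0) z - (β 0 - x)) by ring, abs_neg]
      refine (le_max_left _ _).trans (hz.trans (le_of_eq ?_))
      ring
    have hz1 : |(β 1 - ev (ξ 1) z) - y| ≤
        max |β 0 - ev (ξ 0) Pc| |β 1 - ev (ξ 1) Pc| / (8 * √K ^ 4) := by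
      rw [show (β 1 - ev (ξ 1) z) - y = -(ev (ξ 1) z - (β 1 - y)) by ring, abs_neg]
      refine (le_max_right _ _).trans (hz.trans (le_of_eq ?_))
      ring
    obtain ⟨g0, g1, g2⟩ := hxy _ _ hz0 hz1
    constructor
    · intro j
      fin_cases j
      · exact sub_nonneg.1 g0
      · exact sub_nonneg.1 g1
    · intro k
      have g3 := g2 k
      rw [← hid k z] at g3
      exact sub_nonneg.1 (nonneg_of_mul_nonneg_right g3 hl0)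

end UF.FP
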