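import Pool.Agent.Work.MP_4c5ddc_co.FP.Frame
import Pool.Agent.Work.MP_4c5ddc_co.FP.QReg

/-!
# FP/FReg (M-L): the region of a framed facet

`f = a i` is a facet normal of the cube, `e₁, e₂` as in `exists_frame`; the point of the plane `{x | f · x = A i}` with the coordinates `q` is `pt f (A i) e₁ e₂ q`. A covector `u` of `E3` becomes
`co e₁ e₂ t u = (t * (u · e₁), t * (u · e₂))` (scaled by `t`).

PROOF. `Frm K f b c` gives `m, m'` with `Cmp K f b c (sc m f b) (sc m' f c)`. `σ j = sc m f b j`, `τ k = sc m' f c k` are positive: `cr f (b j) ≠ 0` because `dt f (b j) (c k) ≠ 0` (`Lin.sc`).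
`ξ j = co e₁ e₂ (σ j) (b j)`, `ζ k = co e₁ e₂ (τ k) (c k)`; by `exists_frame` `wd (ξ j) (ζ k) = σ j * τ k * dt f (b j) (c k)` etc., so the hypothesis `Cmp` is exactly the condition on the wedges in `quad_region` (for
`max K 1`). The wedges `wd (ξ 0) (ξ 1)`, `wd (ζ 0) (ζ 1)` are nonzero: otherwise by `Cmp` `dt f (b 0) (c 0) = 0`. With `q j k` = the coordinates `(e₁ · p, e₂ · p)` of the vertex `p i j k` (which lies on the plane, `f · p = A i`) and
`β j = σ j * (B j - (A i) * (b j · f))`, `γ k` similarly: for `x = pt f (A i) e₁ e₂ q`: `σ j * (b j · x) = ev (ξ j) q + σ j * (A i) * (b j · f)`, so `b j · x ≤ B j` iff `ev (ξ j) q ≤ β j`, equality and strict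
inequality in the same way. `Pb`, `Pc` are the hypotheses `hPb`, `hPc`. `quad_region` gives `v`. It remains: if `x = pt f (A i) e₁ e₂ q` satisfies the four inequalities of `b` and `c` then `x ∈ six a b c A B C`: `f = a i` is tight at `x`. Suppose
`a (1 - i) · x > A (1 - i)`. Let `y = p i 0 0`, where `a (1 - i) · y < A (1 - i)` (`Cube.la`). On the segment `[y, x]` there is a point `z` with `a (1 - i) · z = A (1 - i)`; `a i · z = A i` and the inequalities of `b, c`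
hold at `z` (convexity). So `z ∈ six` with `a 0, a 1` both tight: against `Cube.ra`.
The last claim `Cn (2 * √(max K 1))` is `cmp_nrm`.
-/

set_option autoImplicit false

namespace UF.FP

/-- the point with the coordinates `q` of the plane `f · x = A`. -/
noncomputable def pt (f : E3) (A : ℝ) (e₁ e₂ : E3) (q : ℝ × ℝ) : E3 := A • f + q.1 • e₁ + q.2 • e₂

/-- the scaled covector on the plane. -/
noncomputable def co (e₁ e₂ : E3) (t : ℝ) (u : E3) : ℝ × ℝ := (t * inner ℝ u e₁, t * inner ℝ u e₂)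

/-- the frame on the plane orthogonal to `f`. -/
noncomputable def fr (e₁ e₂ f : E3) (y : Fin 2 → E3) (m : Bool) (j : Fin 2) : ℝ × ℝ :=
  co e₁ e₂ (sc m f y j) (y j)

private theorem inner_pt (f : E3) (A : ℝ) (e₁ e₂ : E3) (q : ℝ × ℝ) (u : E3) :
    inner ℝ u (pt f A e₁ e₂ q) =
      A * inner ℝ u f + q.1 * inner ℝ u e₁ + q.2 * inner ℝ u e₂ := by
  rw [pt, inner_add_right, inner_add_right, inner_smul_right, inner_smul_right, inner_smul_right]

private theorem ev_co (f : E3) (A : ℝ) (e₁ e₂ : E3) (t : ℝ) (u : E3) (q : ℝ × ℝ) :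
    ev (co e₁ e₂ t u) q = t * (inner ℝ u (pt f A e₁ e₂ q) - A * inner ℝ u f) := by
  rw [inner_pt]
  simp only [ev, co]
  ring

private theorem wd_co (e₁ e₂ : E3) (s t : ℝ) (u v : E3) :
    wd (co e₁ e₂ s u) (co e₁ e₂ t v) =
      s * t * wd (inner ℝ u e₁, inner ℝ u e₂) (inner ℝ v e₁, inner ℝ v e₂) := by
  simp only [wd, co]
  ring

private theorem sc_pos (m : Bool) (f : E3) (y : Fin 2 → E3) (j : Fin 2) (h : cr f (y j) ≠ 0) :
    0 < sc m f y j := by
  unfold sc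
  split_ifs
  · exact inv_pos.2 (norm_pos_iff.2 h)
  · exact one_pos

theorem frame_region (K : ℝ) : ∃ c D : ℝ, 0 < c ∧ 0 ≤ D ∧ ∀ (a b c' : Fin 2 → E3)
    (A B C : Fin 2 → ℝ) (p : Fin 2 → Fin 2 → Fin 2 → E3) (i : Fin 2) (e₁ e₂ : E3)
    (Pb Pc : ℝ × ℝ), Cube a b c' A B C p → ‖e₁‖ = 1 → ‖e₂‖ = 1 → inner ℝ (a i) e₁ = 0 →
    inner ℝ (a i) e₂ = 0 → inner ℝ e₁ e₂ = 0 →
    (∀ x : E3, x = (inner ℝ (a i) x) • (a i) + (inner ℝ e₁ x) • e₁ + (inner ℝ e₂ x) • e₂) →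
    (∀ u v : E3, dt (a i) u v = wd (inner ℝ u e₁, inner ℝ u e₂) (inner ℝ v e₁, inner ℝ v e₂)) →
    (∀ j, inner ℝ (b j) (pt (a i) (A i) e₁ e₂ Pb) = B j) →
    (∀ k, inner ℝ (c' k) (pt (a i) (A i) e₁ e₂ Pc) = C k) →
    Frm K (a i) b c' → ∃ m m' : Bool, dt (a i) (b 0) (b 1) ≠ 0 ∧ dt (a i) (c' 0) (c' 1) ≠ 0 ∧
      Cn (2 * √(max K 1)) (fr e₁ e₂ (a i) b m) (fr e₁ e₂ (a i) c' m') ∧
      0 < nrm (fr e₁ e₂ (a i) b m) (Pc - Pb) ∧ ∃ v : ℝ × ℝ,
        nrm (fr e₁ e₂ (a i) b m) (v - Pb) ≤ D * nrm (fr e₁ e₂ (a i) b m) (Pc - Pb) ∧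
        ∀ x : ℝ × ℝ, nrm (fr e₁ e₂ (a i) b m) (x - v) ≤ c * nrm (fr e₁ e₂ (a i) b m) (Pc - Pb) →
          pt (a i) (A i) e₁ e₂ x ∈ six a b c' A B C := by
  obtain ⟨c, D, hc, hD, H⟩ := quad_region (K := max K 1) (le_max_right _ _)
  refine ⟨c, D, hc, hD, ?_⟩
  intro a b c' A B C p i e₁ e₂ Pb Pc hQ he1 he2 hf1 hf2 he12 hdec hdt hPb hPc hF
  obtain ⟨m, m', hCmp⟩ := hF
  -- determinants
  have hdbc : ∀ j k, dt (a i) (b j) (c' k) ≠ 0 := by
    intro j k h0
    have h1 := hQ.lin.sc i j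
    fin_cases k
    · simp only [Fin.zero_eta] at h0
      rw [h0, zero_mul] at h1
      exact lt_irrefl _ h1
    · simp only [Fin.mk_one] at h0
      rw [h0, mul_zero] at h1
      exact lt_irrefl _ h1
  have hcb : ∀ j, cr (a i) (b j) ≠ 0 := by
    intro j h0
    apply hdbc j 0
    rw [← cr_inner, h0, inner_zero_left]
  have hcc : ∀ k, cr (a i) (c' k) ≠ 0 := by
    intro k h0
    apply hdbc 0 k
    rw [← neg_neg (dt (a i) (b 0) (c' k)), ← dt_swap23, ← cr_inner, h0, inner_zero_left, neg_zero]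
  have hσ : ∀ j, 0 < sc m (a i) b j := fun j => sc_pos m (a i) b j (hcb j)
  have hτ : ∀ k, 0 < sc m' (a i) c' k := fun k => sc_pos m' (a i) c' k (hcc k)
  -- the wedges
  have w1 : ∀ j k, wd (fr e₁ e₂ (a i) b m j) (fr e₁ e₂ (a i) c' m' k) =
      sc m (a i) b j * sc m' (a i) c' k * dt (a i) (b j) (c' k) := by
    intro j k
    rw [fr, fr, wd_co, hdt]
  have w2 : wd (fr e₁ e₂ (a i) b m 0) (fr e₁ e₂ (a i) b m 1) =
      sc m (a i) b 0 * sc m (a i) b 1 * dt (a i) (b 0) (b 1) := by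
    rw [fr, fr, wd_co, hdt]
  have w3 : wd (fr e₁ e₂ (a i) c' m' 0) (fr e₁ e₂ (a i) c' m' 1) =
      sc m' (a i) c' 0 * sc m' (a i) c' 1 * dt (a i) (c' 0) (c' 1) := by
    rw [fr, fr, wd_co, hdt]
  have hC : ∀ j k, (wd (fr e₁ e₂ (a i) b m j) (fr e₁ e₂ (a i) c' m' k)) ^ 2 ≤
      max K 1 * (|wd (fr e₁ e₂ (a i) b m 0) (fr e₁ e₂ (a i) b m 1)| *
        |wd (fr e₁ e₂ (a i) c' m' 0) (fr e₁ e₂ (a i) c' m' 1)|) := by
    intro j k
    rw [w1, w2, w3]
    refine (hCmp j k).trans ?_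
    exact mul_le_mul_of_nonneg_right (le_max_left _ _) (by positivity)
  have hw00 : 0 < (wd (fr e₁ e₂ (a i) b m 0) (fr e₁ e₂ (a i) c' m' 0)) ^ 2 := by
    rw [w1]
    have h1 : sc m (a i) b 0 * sc m' (a i) c' 0 * dt (a i) (b 0) (c' 0) ≠ 0 :=
      mul_ne_zero (mul_pos (hσ 0) (hτ 0)).ne' (hdbc 0 0)
    positivity
  have hξ : wd (fr e₁ e₂ (a i) b m 0) (fr e₁ e₂ (a i) b m 1) ≠ 0 := by
    intro h0
    have h1 := hC 0 0
    rw [h0, abs_zero, zero_mul, mul_zero] at h1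
    exact absurd h1 (not_le.2 hw00)
  have hζ : wd (fr e₁ e₂ (a i) c' m' 0) (fr e₁ e₂ (a i) c' m' 1) ≠ 0 := by
    intro h0
    have h1 := hC 0 0
    rw [h0, abs_zero, mul_zero, mul_zero] at h1
    exact absurd h1 (not_le.2 hw00)
  refine ⟨m, m', ?_, ?_, cmp_nrm (lt_of_lt_of_le one_pos (le_max_right _ _)) hξ hζ hC, ?_⟩
  · intro h0
    apply hξ
    rw [w2, h0, mul_zero]
  · intro h0
    apply hζ
    rw [w3, h0, mul_zero]
  -- the vertices
  have hpt : ∀ j k, pt (a i) (A i) e₁ e₂ (inner ℝ e₁ (p i j k), inner ℝ e₂ (p i j k)) =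
      p i j k := by
    intro j k
    have h1 := hdec (p i j k)
    rw [hQ.ta i j k] at h1
    exact h1.symm
  have hb : ∀ j (q : ℝ × ℝ), ev (fr e₁ e₂ (a i) b m j) q = sc m (a i) b j *
      (inner ℝ (b j) (pt (a i) (A i) e₁ e₂ q) - A i * inner ℝ (b j) (a i)) := by
    intro j q
    rw [fr, ev_co (a i) (A i)]
  have hc' : ∀ k (q : ℝ × ℝ), ev (fr e₁ e₂ (a i) c' m' k) q = sc m' (a i) c' k *
      (inner ℝ (c' k) (pt (a i) (A i) e₁ e₂ q) - A i * inner ℝ (c' k) (a i)) := by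
    intro k q
    rw [fr, ev_co (a i) (A i)]
  obtain ⟨hpos, v, hv, hx⟩ := H (fr e₁ e₂ (a i) b m) (fr e₁ e₂ (a i) c' m')
    (fun j => sc m (a i) b j * (B j - A i * inner ℝ (b j) (a i)))
    (fun k => sc m' (a i) c' k * (C k - A i * inner ℝ (c' k) (a i)))
    (fun j k => (inner ℝ e₁ (p i j k), inner ℝ e₂ (p i j k))) Pb Pc hξ hζ hC
    (fun j k => by rw [hb, hpt, hQ.tb i j k]) (fun j k => by rw [hc', hpt, hQ.tc i j k])
    (fun j j' k hj => by
      rw [hb, hpt]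
      exact mul_lt_mul_of_pos_left (sub_lt_sub_right (hQ.lb i j j' k hj) _) (hσ j'))
    (fun j k k' hk => by
      rw [hc', hpt]
      exact mul_lt_mul_of_pos_left (sub_lt_sub_right (hQ.lc i j k k' hk) _) (hτ k'))
    (fun j => by rw [hb, hPb j]) (fun k => by rw [hc', hPc k])
  refine ⟨hpos, v, hv, ?_⟩
  intro x hxv
  obtain ⟨h1, h2⟩ := hx x hxv
  have h3 : ∀ j, inner ℝ (b j) (pt (a i) (A i) e₁ e₂ x) ≤ B j := by
    intro j
    have h4 := h1 j
    rw [hb] at h4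
    have h5 := le_of_mul_le_mul_left h4 (hσ j)
    linarith
  have h4 : ∀ k, inner ℝ (c' k) (pt (a i) (A i) e₁ e₂ x) ≤ C k := by
    intro k
    have h4 := h2 k
    rw [hc'] at h4
    have h5 := le_of_mul_le_mul_left h4 (hτ k)
    linarith
  have hai : inner ℝ (a i) (pt (a i) (A i) e₁ e₂ x) = A i := by
    rw [inner_pt, hf1, hf2, real_inner_self_eq_norm_sq, hQ.lin.ua i]
    ring
  obtain ⟨X, hX⟩ : ∃ X, X = pt (a i) (A i) e₁ e₂ x := ⟨_, rfl⟩
  rw [← hX] at h3 h4 hai ⊢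
  have hother : ∀ i', i' ≠ i → inner ℝ (a i') X ≤ A i' := by
    intro i' hi'
    by_contra hcon
    push Not at hcon
    have hy := hQ.la i i' 0 0 hi'
    have hden : 0 < inner ℝ (a i') X - inner ℝ (a i') (p i 0 0) := by linarith
    obtain ⟨t, ht⟩ : ∃ t, t = (A i' - inner ℝ (a i') (p i 0 0)) /
        (inner ℝ (a i') X - inner ℝ (a i') (p i 0 0)) := ⟨_, rfl⟩
    have ht0 : 0 ≤ t := by
      rw [ht]
      exact div_nonneg (by linarith) hden.le
    have ht1 : t ≤ 1 := by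
      rw [ht, div_le_one hden]
      linarith
    have hz : ∀ u : E3, inner ℝ u (p i 0 0 + t • (X - p i 0 0)) =
        inner ℝ u (p i 0 0) + t * (inner ℝ u X - inner ℝ u (p i 0 0)) := by
      intro u
      rw [inner_add_right, inner_smul_right, inner_sub_right]
    have hzi : inner ℝ (a i) (p i 0 0 + t • (X - p i 0 0)) = A i := by
      rw [hz, hai, hQ.ta]
      ring
    have hzi' : inner ℝ (a i') (p i 0 0 + t • (X - p i 0 0)) = A i' := by
      rw [hz, ht]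
      field_simp
      ring
    have hall : ∀ l, inner ℝ (a l) (p i 0 0 + t • (X - p i 0 0)) ≤ A l := by
      intro l
      by_cases hl : l = i
      · rw [hl, hzi]
      · have hl' : l = i' := by omega
        rw [hl', hzi']
    have hmem : p i 0 0 + t • (X - p i 0 0) ∈ six a b c' A B C := by
      refine ⟨hall, fun j => ?_, fun k => ?_⟩
      · rw [hz]
        have e1 := h3 j
        have e2 : inner ℝ (b j) (p i 0 0) ≤ B j := by
          by_cases hj : j = 0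
          · rw [hj, hQ.tb]
          · exact (hQ.lb i 0 j 0 hj).le
        nlinarith
      · rw [hz]
        have e1 := h4 k
        have e2 : inner ℝ (c' k) (p i 0 0) ≤ C k := by
          by_cases hk : k = 0
          · rw [hk, hQ.tc]
          · exact (hQ.lc i 0 0 k hk).le
        nlinarith
    by_cases hi0 : i = 0
    · have hi1 : i' = 1 := by omega
      rw [hi0] at hzi hmem hzi'
      rw [hi1] at hzi'
      exact hQ.ra _ hmem hzi hzi'
    · have hi1 : i = 1 := by omega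
      have hi0' : i' = 0 := by omega
      rw [hi1] at hzi hmem hzi'
      rw [hi0'] at hzi'
      exact hQ.ra _ hmem hzi' hzi
  refine ⟨fun l => ?_, h3, h4⟩
  by_cases hl : l = i
  · rw [hl, hai]
  · exact hother l hl

end UF.FP
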