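import Pool.Agent.Work.MP_4c5ddc_co.FP.Bas

/-!
# FP/GoodOf (M): general position gives the standing assumptions

PROOF. `F.K i` has unit normals, so `mem_frontier_poly` gives `x ∈ frontier (F.K i) ↔ F.Bd i x`, and `(F.bd x : Set _) = idx F.K x`; `three` from `h3` (`Set.ncard_coe_finset`). `fin`: if `(F.bd x).card = 3` then `x` is in the finite
set `frontier (F.K i) ∩ frontier (F.K j) ∩ frontier (F.K k)` for some different `i, j, k` (`Finset.card_eq_three`): a finite union (`GenPos`, second part). `nodir`: as `no_dir` in `CO/Dich.lean` (private there, copy its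
proof): if `w ≠ 0` is orthogonal to all tight normals at `x` of the three bodies of `F.bd x` then for all small `|τ|` the point `x + τ • w` is on the three frontiers, against the
finiteness.
-/

set_option autoImplicit false

namespace UF.FP

private theorem go_ne {n : ℕ} {F : Fam n} (hu : ∀ i, ∀ ν ∈ F.N i, ‖ν‖ = 1) (i : Fin n) :
    ∀ ν ∈ F.N i, ν ≠ 0 := by
  intro ν hν h0
  have := hu i ν hν
  rw [h0, norm_zero] at this
  exact zero_ne_one this

private theorem go_fr {n : ℕ} {F : Fam n} (hu : ∀ i, ∀ ν ∈ F.N i, ‖ν‖ = 1) {i : Fin n} {x : E3} :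
    x ∈ frontier (F.K i) ↔ F.Bd i x := CO.mem_frontier_poly (go_ne hu i)

private theorem go_dir {n : ℕ} {F : Fam n} (hu : ∀ i, ∀ ν ∈ F.N i, ‖ν‖ = 1) (hG : GenPos F.K)
    {x : E3} {i j k : Fin n} (hij : i ≠ j) (hik : i ≠ k) (hjk : j ≠ k)
    (hi : F.Bd i x) (hj : F.Bd j x) (hk : F.Bd k x) {w : E3} (hw : w ≠ 0) :
    ∃ a, (a = i ∨ a = j ∨ a = k) ∧ ∃ ν, F.Tight a ν x ∧ inner ℝ ν w ≠ 0 := by
  by_contra hcon
  have hcon' : ∀ a, (a = i ∨ a = j ∨ a = k) → ∀ ν, F.Tight a ν x → inner ℝ ν w = 0 := by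
    intro a ha ν h1
    by_contra h2
    exact hcon ⟨a, ha, ν, h1, h2⟩
  have key : ∀ a, (a = i ∨ a = j ∨ a = k) → F.Bd a x →
      ∀ᶠ τ : ℝ in nhds 0, x + τ • w ∈ frontier (F.K a) := by
    intro a ha hva
    obtain ⟨hp, ν0, hν0, ht0⟩ := hva
    have h1 : ∀ᶠ τ : ℝ in nhds 0, ∀ ν ∈ F.N a, inner ℝ ν (x + τ • w) ≤ F.h a ν := by
      rw [Filter.eventually_all_finset]
      intro ν hν
      rcases lt_or_eq_of_le (hp ν hν) with hlt | heq
      · have hc : Continuous fun τ : ℝ => inner ℝ ν (x + τ • w) := by fun_prop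
        have h2 : inner ℝ ν (x + (0 : ℝ) • w) < F.h a ν := by simpa using hlt
        exact (hc.continuousAt.eventually_lt continuousAt_const h2).mono fun τ hτ => hτ.le
      · refine Filter.Eventually.of_forall fun τ => ?_
        rw [inner_add_right, inner_smul_right, hcon' a ha ν ⟨hν, heq⟩, mul_zero, add_zero]
        exact heq.le
    refine h1.mono fun τ hτ => (go_fr hu).2 ⟨hτ, ν0, hν0, ?_⟩
    rw [inner_add_right, inner_smul_right, hcon' a ha ν0 ⟨hν0, ht0⟩, mul_zero, add_zero]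
    exact ht0
  have h3 := ((key i (Or.inl rfl) hi).and (key j (Or.inr (Or.inl rfl)) hj)).and
    (key k (Or.inr (Or.inr rfl)) hk)
  have hfin := hG.2 i j k hij hik hjk
  have hinf : {τ : ℝ | x + τ • w ∈ frontier (F.K i) ∩ frontier (F.K j) ∩
      frontier (F.K k)}.Infinite := infinite_of_mem_nhds 0 h3
  apply hinf
  refine Set.Finite.preimage (f := fun τ : ℝ => x + τ • w) ?_ hfin
  intro y _ z _ hyz
  have h4 : (y - z) • w = 0 := by
    rw [sub_smul, sub_eq_zero]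
    exact add_left_cancel hyz
  rcases smul_eq_zero.1 h4 with h5 | h5
  · linarith
  · exact absurd h5 hw

theorem good_of {n : ℕ} {α : ℝ} {s : ℕ} {F : Fam n} (hu : ∀ i, ∀ ν ∈ F.N i, ‖ν‖ = 1)
    (hc : ∀ i, (F.N i).card ≤ s) (hf : ∀ i, Fat α (F.K i)) (hG : GenPos F.K)
    (h3 : ∀ x, (idx F.K x).ncard ≤ 3) : Good α s F := by
  classical
  have hbd : ∀ x, ((F.bd x : Finset (Fin n)) : Set (Fin n)) = idx F.K x := by
    intro x
    ext i
    rw [Finset.mem_coe, mem_bd]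
    exact (go_fr hu).symm
  refine ⟨hu, hc, hf, ?_, ?_, ?_⟩
  · intro x
    have h := h3 x
    rwa [← hbd x, Set.ncard_coe_finset] at h
  · intro x hx w hw
    obtain ⟨i, j, k, hij, hik, hjk, hbx⟩ := Finset.card_eq_three.1 hx
    have hi : F.Bd i x := mem_bd.1 (by rw [hbx]; simp)
    have hj : F.Bd j x := mem_bd.1 (by rw [hbx]; simp)
    have hk : F.Bd k x := mem_bd.1 (by rw [hbx]; simp)
    obtain ⟨a, ha, ν, h1, h2⟩ := go_dir hu hG hij hik hjk hi hj hk hw
    refine ⟨a, ?_, ν, h1, h2⟩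
    rw [hbx]
    simpa using ha
  · have hfin : (⋃ i : Fin n, ⋃ j : Fin n, ⋃ k : Fin n, {x : E3 | i ≠ j ∧ i ≠ k ∧ j ≠ k ∧
        x ∈ frontier (F.K i) ∩ frontier (F.K j) ∩ frontier (F.K k)}).Finite := by
      refine Set.finite_iUnion fun i => Set.finite_iUnion fun j => Set.finite_iUnion fun k => ?_
      by_cases h : i ≠ j ∧ i ≠ k ∧ j ≠ k
      · exact (hG.2 i j k h.1 h.2.1 h.2.2).subset fun x hx => hx.2.2.2
      · exact Set.finite_empty.subset fun x hx => h ⟨hx.1, hx.2.1, hx.2.2.1⟩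
    refine hfin.subset fun x hx => ?_
    obtain ⟨i, j, k, hij, hik, hjk, hbx⟩ := Finset.card_eq_three.1 hx
    have hi : F.Bd i x := mem_bd.1 (by rw [hbx]; simp)
    have hj : F.Bd j x := mem_bd.1 (by rw [hbx]; simp)
    have hk : F.Bd k x := mem_bd.1 (by rw [hbx]; simp)
    exact Set.mem_iUnion.2 ⟨i, Set.mem_iUnion.2 ⟨j, Set.mem_iUnion.2 ⟨k, hij, hik, hjk,
      ⟨(go_fr hu).2 hi, (go_fr hu).2 hj⟩, (go_fr hu).2 hk⟩⟩⟩

end UF.FP
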