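import Pool.Agent.Work.MP_4c5ddc_co.FP.Bas

/-!
# FP/Nrmz (M): unit normals

PROOF. For `K = {x | ∀ l, inner (ν l) x ≤ h l}` (at most `s` half spaces) nonempty: let `N` be the image of the set of the indices `l` with `ν l ≠ 0` under `l ↦ ‖ν l‖⁻¹ • ν l` and for `u ∈ N` let `H u` be the minimum of
`h l / ‖ν l‖` over the `l` with `ν l ≠ 0` and `‖ν l‖⁻¹ • ν l = u` (`Finset.inf'`; `0` for `u ∉ N`). Then `K = CO.poly N H`: for `ν l ≠ 0` the inequality `inner (ν l) x ≤ h l` is equivalent to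
`inner (‖ν l‖⁻¹ • ν l) x ≤ h l / ‖ν l‖`; for `ν l = 0` it says `0 ≤ h l`, which holds because `K` is nonempty.
-/

set_option autoImplicit false

namespace UF.FP

theorem exists_unit {s : ℕ} {K : Set E3} (ν : Fin s → E3) (h : Fin s → ℝ)
    (hK : K = {x | ∀ l, inner ℝ (ν l) x ≤ h l}) (hne : K.Nonempty) :
    ∃ (N : Finset E3) (H : E3 → ℝ), (∀ u ∈ N, ‖u‖ = 1) ∧ N.card ≤ s ∧ K = CO.poly N H := by
  classical
  obtain ⟨y, hy⟩ := hne
  rw [hK] at hy
  let g : Fin s → E3 := fun l => ‖ν l‖⁻¹ • ν l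
  let L : E3 → Finset (Fin s) := fun u => Finset.univ.filter (fun l => ν l ≠ 0 ∧ g l = u)
  let H : E3 → ℝ := fun u =>
    if hu : (L u).Nonempty then (L u).inf' hu (fun l => h l / ‖ν l‖) else 0
  have hH : ∀ (u : E3) (hu : (L u).Nonempty), H u = (L u).inf' hu (fun l => h l / ‖ν l‖) :=
    fun u hu => dif_pos hu
  have hmemL : ∀ l, ν l ≠ 0 → l ∈ L (g l) := fun l hl =>
    Finset.mem_filter.2 ⟨Finset.mem_univ _, hl, rfl⟩
  refine ⟨(Finset.univ.filter (fun l => ν l ≠ 0)).image g, H, ?_, ?_, ?_⟩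
  · intro u hu
    obtain ⟨l, hl, rfl⟩ := Finset.mem_image.1 hu
    have hl0 := (Finset.mem_filter.1 hl).2
    show ‖‖ν l‖⁻¹ • ν l‖ = 1
    rw [norm_smul, norm_inv, norm_norm, inv_mul_cancel₀ (norm_ne_zero_iff.2 hl0)]
  · refine Finset.card_image_le.trans ((Finset.card_filter_le _ _).trans ?_)
    rw [Finset.card_univ, Fintype.card_fin]
  · rw [hK]
    ext x
    constructor
    · intro hx u hu
      obtain ⟨l, hl, rfl⟩ := Finset.mem_image.1 hu
      have hl0 := (Finset.mem_filter.1 hl).2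
      have hne : (L (g l)).Nonempty := ⟨l, hmemL l hl0⟩
      show inner ℝ (g l) x ≤ H (g l)
      rw [hH (g l) hne]
      apply Finset.le_inf'
      intro l' hl'
      obtain ⟨-, h1, h2⟩ := Finset.mem_filter.1 hl'
      rw [← h2]
      show inner ℝ (‖ν l'‖⁻¹ • ν l') x ≤ h l' / ‖ν l'‖
      rw [real_inner_smul_left, inv_mul_eq_div]
      exact div_le_div_of_nonneg_right (hx l') (norm_nonneg _)
    · intro hx l
      by_cases hl0 : ν l = 0
      · have h1 := hy l
        rw [hl0, inner_zero_left] at h1 ⊢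
        exact h1
      · have hne : (L (g l)).Nonempty := ⟨l, hmemL l hl0⟩
        have hu : g l ∈ (Finset.univ.filter (fun l => ν l ≠ 0)).image g :=
          Finset.mem_image_of_mem g (Finset.mem_filter.2 ⟨Finset.mem_univ _, hl0⟩)
        have h1 : inner ℝ (g l) x ≤ H (g l) := hx (g l) hu
        rw [hH (g l) hne] at h1
        have h2 : (L (g l)).inf' hne (fun l => h l / ‖ν l‖) ≤ h l / ‖ν l‖ :=
          Finset.inf'_le (fun l => h l / ‖ν l‖) (hmemL l hl0)
        have h3 : inner ℝ (g l) x = inner ℝ (ν l) x / ‖ν l‖ := by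
          show inner ℝ (‖ν l‖⁻¹ • ν l) x = inner ℝ (ν l) x / ‖ν l‖
          rw [real_inner_smul_left, inv_mul_eq_div]
        rw [h3] at h1
        exact (div_le_div_iff_of_pos_right (norm_pos_iff.2 hl0)).1 (h1.trans h2)

end UF.FP
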