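import Pool.Agent.Work.MP_4c5ddc_co.CO.SemiP

/-!
# FP/ObjP (S-M): fat polyhedra with at most s facets are objects

PROOF. As `CO.obj_poly` (`CO/SemiP.lean`), but the description complexity must be the same for all `N` with at most `s` elements: `max s 1`. Enumerate `N` by `Fin N.card`; for `i : Fin (max s 1)` with `i < N.card` take the polynomial of
the `i`-th half space, otherwise `0`; copy the proof. (Or: from `CO.obj_poly` get `Obj α (max N.card 1)`: not needed.)
-/

set_option autoImplicit false

namespace UF.FP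

/-- the polynomial of one half space -/
private noncomputable def ohsp (h : E3 → ℝ) (ν : E3) : MvPolynomial (Fin 3) ℝ :=
  (∑ j : Fin 3, MvPolynomial.C (ν j) * MvPolynomial.X j) - MvPolynomial.C (h ν)

private theorem ohsp_deg (h : E3 → ℝ) (ν : E3) : (ohsp h ν).totalDegree ≤ 1 := by
  unfold ohsp
  refine (MvPolynomial.totalDegree_sub _ _).trans (max_le ?_ ?_)
  · refine (MvPolynomial.totalDegree_finset_sum _ _).trans ?_
    apply Finset.sup_le
    intro j _
    refine (MvPolynomial.totalDegree_mul _ _).trans ?_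
    rw [MvPolynomial.totalDegree_C, MvPolynomial.totalDegree_X]
  · rw [MvPolynomial.totalDegree_C]
    exact Nat.zero_le _

private theorem ohsp_eval (h : E3 → ℝ) (ν x : E3) :
    MvPolynomial.eval (fun j => x j) (ohsp h ν) = inner ℝ ν x - h ν := by
  unfold ohsp
  rw [map_sub, map_sum, MvPolynomial.eval_C, PiLp.inner_apply]
  congr 1
  apply Finset.sum_congr rfl
  intro j _
  rw [map_mul, MvPolynomial.eval_C, MvPolynomial.eval_X]
  simp [mul_comm]

theorem obj_poly' (α : ℝ) (s : ℕ) {N : Finset E3} (hN : N.card ≤ s) {h : E3 → ℝ}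
    (hF : Fat α (CO.poly N h)) : Obj α (max s 1) (CO.poly N h) := by
  classical
  refine ⟨?_, CO.convex_poly N h, hF, ?_⟩
  · obtain ⟨x, y, r, R, _, _, _, hsub⟩ := hF
    exact (isCompact_closedBall y R).of_isClosed_subset (CO.isClosed_poly N h) hsub
  · refine ⟨fun i => if hi : (i : ℕ) < N.card then ohsp h (N.equivFin.symm ⟨i, hi⟩ : E3) else 0,
      {σ | ∀ i : Fin (max s 1), (i : ℕ) < N.card → σ i ≠ 1}, ?_, ?_⟩
    · intro i
      dsimp only
      split_ifs with hi
      · exact (ohsp_deg h _).trans (le_max_right _ _)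
      · rw [MvPolynomial.totalDegree_zero]
        exact Nat.zero_le _
    · intro x
      rw [Set.mem_setOf_eq]
      constructor
      · intro hx i hi
        beta_reduce
        rw [dif_pos hi, ohsp_eval]
        intro h1
        rw [sign_eq_one_iff] at h1
        have h2 := hx _ (N.equivFin.symm ⟨i, hi⟩).2
        linarith
      · intro hx ν hν
        set k : Fin N.card := N.equivFin ⟨ν, hν⟩ with hk
        have hk2 : (k : ℕ) < max s 1 := lt_of_lt_of_le k.2 (hN.trans (le_max_left _ _))
        have h1 := hx ⟨k, hk2⟩ k.2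
        beta_reduce at h1
        rw [dif_pos k.2, ohsp_eval] at h1
        have h3 : (N.equivFin.symm ⟨((⟨(k : ℕ), hk2⟩ : Fin (max s 1)) : ℕ), k.2⟩ : E3) = ν := by
          have h4 : (⟨((⟨(k : ℕ), hk2⟩ : Fin (max s 1)) : ℕ), k.2⟩ : Fin N.card) = k := rfl
          rw [h4, hk, Equiv.symm_apply_apply]
        rw [h3] at h1
        by_contra h5
        rw [not_le] at h5
        apply h1
        rw [sign_eq_one_iff]
        linarith

end UF.FP
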