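import Pool.Agent.Work.MP_4c5ddc_co.FP.AStp

/-!
# FP/PartA: reduction to clean triples (assembly of the blocks of part (A))

PROOF. Let `A` be the maximum of `|V(S)| / |S| ^ (2 + ε)` over the nonempty `S`; by `step`
`A ≤ A / 4 + C`, so `A ≤ 2 C`.
-/

set_option autoImplicit false

namespace UF.FP

theorem vs_empty {n : ℕ} (F : Fam n) (k : ℕ) : Vs F ∅ k = ∅ := by
  ext x
  simp only [Vs, Set.mem_setOf_eq, Set.mem_empty_iff_false, iff_false]
  rintro ⟨hx, hs, -⟩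
  have := hx.1
  rw [Finset.subset_empty.1 hs] at this
  simp at this

theorem reduction_le (α : ℝ) (s : ℕ) (ε C₀ : ℝ) (hε : 0 < ε) (h1 : ε ≤ 1) : ∃ C : ℝ, 0 ≤ C ∧
    ∀ (n : ℕ) (F : Fam n), Good α s F →
      (∀ S : Finset (Fin n), (nClean F S : ℝ) ≤ C₀ * (S.card : ℝ) ^ 2) →
      ((Vs F Finset.univ 0).ncard : ℝ) ≤ C * (n : ℝ) ^ (2 + ε) := by
  obtain ⟨C, hC0, hC⟩ := step s ε (max C₀ 0) hε h1 (le_max_right _ _)
  refine ⟨2 * C, by positivity, fun n F hF hcl => ?_⟩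
  have hcl' : ∀ S : Finset (Fin n), (nClean F S : ℝ) ≤ max C₀ 0 * (S.card : ℝ) ^ 2 := fun S =>
    (hcl S).trans (mul_le_mul_of_nonneg_right (le_max_left _ _) (by positivity))
  let f : Finset (Fin n) → ℝ := fun S => ((Vs F S 0).ncard : ℝ) / (S.card : ℝ) ^ (2 + ε)
  obtain ⟨S₀, -, hS₀⟩ := Finset.exists_max_image (Finset.univ : Finset (Finset (Fin n))) f
    ⟨∅, Finset.mem_univ _⟩
  have hpow : ∀ S : Finset (Fin n), S.Nonempty → (0 : ℝ) < (S.card : ℝ) ^ (2 + ε) := by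
    intro S hS
    exact Real.rpow_pos_of_pos (by exact_mod_cast hS.card_pos) _
  have hA0 : 0 ≤ f S₀ := by positivity
  have hA : ∀ S : Finset (Fin n), ((Vs F S 0).ncard : ℝ) ≤ f S₀ * (S.card : ℝ) ^ (2 + ε) := by
    intro S
    rcases S.eq_empty_or_nonempty with rfl | hS
    · rw [vs_empty]
      simp only [Set.ncard_empty, Nat.cast_zero]
      positivity
    · rw [← div_le_iff₀ (hpow S hS)]
      exact hS₀ S (Finset.mem_univ _)
  have hst := hC α n F hF hcl' (f S₀) hA0 hA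
  have hbound : f S₀ ≤ 2 * C := by
    rcases S₀.eq_empty_or_nonempty with h0 | hne
    · have : f S₀ = 0 := by simp only [f, h0, vs_empty, Set.ncard_empty, Nat.cast_zero, zero_div]
      rw [this]
      positivity
    · have h2 := hst S₀
      have hp := hpow S₀ hne
      have hcard : (1 : ℝ) ≤ S₀.card := by exact_mod_cast hne.card_pos
      have h3 : (S₀.card : ℝ) ^ 2 ≤ (S₀.card : ℝ) ^ (2 + ε) := by
        rw [← Real.rpow_natCast]
        exact Real.rpow_le_rpow_of_exponent_le hcard (by push_cast; linarith)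
      have h4 : f S₀ * (S₀.card : ℝ) ^ (2 + ε) = (Vs F S₀ 0).ncard := by
        simp only [f]
        field_simp
      rw [← h4] at h2
      have h5 : f S₀ * (S₀.card : ℝ) ^ (2 + ε)
          ≤ (f S₀ / 4 + C) * (S₀.card : ℝ) ^ (2 + ε) := by
        calc f S₀ * (S₀.card : ℝ) ^ (2 + ε)
            ≤ f S₀ / 4 * (S₀.card : ℝ) ^ (2 + ε) + C * (S₀.card : ℝ) ^ 2 := h2
          _ ≤ f S₀ / 4 * (S₀.card : ℝ) ^ (2 + ε) + C * (S₀.card : ℝ) ^ (2 + ε) := by
              gcongr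
          _ = _ := by ring
      have h6 := le_of_mul_le_mul_right h5 hp
      linarith
  calc ((Vs F Finset.univ 0).ncard : ℝ)
      ≤ f S₀ * ((Finset.univ : Finset (Fin n)).card : ℝ) ^ (2 + ε) := hA _
    _ ≤ 2 * C * (n : ℝ) ^ (2 + ε) := by
        rw [Finset.card_univ, Fintype.card_fin]
        gcongr

theorem reduction (α : ℝ) (s : ℕ) (ε C₀ : ℝ) (hε : 0 < ε) : ∃ C : ℝ, ∀ (n : ℕ) (F : Fam n),
    Good α s F → (∀ S : Finset (Fin n), (nClean F S : ℝ) ≤ C₀ * (S.card : ℝ) ^ 2) →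
      ((Vs F Finset.univ 0).ncard : ℝ) ≤ C * (n : ℝ) ^ (2 + ε) := by
  obtain ⟨C, hC0, hC⟩ := reduction_le α s (min ε 1) C₀ (lt_min hε one_pos) (min_le_right _ _)
  refine ⟨C, fun n F hF hcl => (hC n F hF hcl).trans ?_⟩
  refine mul_le_mul_of_nonneg_left ?_ hC0
  rcases Nat.eq_zero_or_pos n with rfl | hn
  · rw [Nat.cast_zero, Real.zero_rpow, Real.zero_rpow]
    · linarith
    · have := lt_min hε one_pos
      linarith
  · refine Real.rpow_le_rpow_of_exponent_le (by exact_mod_cast hn) ?_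
    have := min_le_left ε 1
    linarith

end UF.FP
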