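import Pool.Agent.Work.MP_4c5ddc_co.FP.Bas

/-!
# FP/SlabL (S-M): slabs are wide

PROOF. Let `closedBall x r ⊆ K ⊆ closedBall y R`, `R ≤ α r`, `r > 0`; `α ≥ 1` (`fat_one`). `Metric.diam K ≤ 2 R ≤ 2 α r`. The point `x + r • u`
is in `K`, so `u · x + r ≤ A`; similarly `v · x + r ≤ B`. So `u · p ≥ u · x + r`, `v · p' ≥ v · x + r`, and
`u · (p - p') = (u · p - u · x) - u · (p' - x) ≥ r + v · (p' - x) - (u + v) · (p' - x) ≥ 2 r - ‖u + v‖ * ‖p' - x‖ ≥ 2 r - (1 / (2 α)) * 2 R ≥ r`.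
So `2 α (u · (p - p')) ≥ 2 α r ≥ diam K`. `diam_pos`: the two points `x ± r u` of `K`.
-/

set_option autoImplicit false

namespace UF.FP

theorem slab_len {α : ℝ} {K : Set E3} (hK : Fat α K) {u v p p' : E3} {A B : ℝ} (hu : ‖u‖ = 1)
    (hv : ‖v‖ = 1) (huv : ‖u + v‖ ≤ 1 / (2 * α)) (hA : ∀ x ∈ K, inner ℝ u x ≤ A)
    (hB : ∀ x ∈ K, inner ℝ v x ≤ B) (hp : p ∈ K) (hp' : p' ∈ K) (hpA : inner ℝ u p = A)
    (hpB : inner ℝ v p' = B) : Metric.diam K ≤ 2 * α * inner ℝ u (p - p') := by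
  have hα := fat_one hK
  obtain ⟨x, y, r, R, hr, hR, h1, h2⟩ := hK
  have hα0 : 0 < α := by linarith
  have hR0 : 0 ≤ R := dist_nonneg.trans (Metric.mem_closedBall.1 (h2 hp))
  have hdiam : Metric.diam K ≤ 2 * R :=
    (Metric.diam_mono h2 Metric.isBounded_closedBall).trans (Metric.diam_closedBall hR0)
  have key : ∀ w : E3, ‖w‖ = 1 → x + r • w ∈ K := by
    intro w hw
    apply h1
    rw [Metric.mem_closedBall, dist_self_add_left, norm_smul, hw, Real.norm_of_nonneg hr.le,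
      mul_one]
  have hxK : x ∈ K := h1 (Metric.mem_closedBall_self hr.le)
  have e1 := hA _ (key u hu)
  have e2 := hB _ (key v hv)
  rw [inner_add_right, inner_smul_right, real_inner_self_eq_norm_sq, hu] at e1
  rw [inner_add_right, inner_smul_right, real_inner_self_eq_norm_sq, hv] at e2
  have e3 : ‖p' - x‖ ≤ 2 * R := by
    rw [← dist_eq_norm]
    have := dist_triangle_right p' x y
    have := Metric.mem_closedBall.1 (h2 hp')
    have := Metric.mem_closedBall.1 (h2 hxK)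
    linarith
  have e4 : inner ℝ (u + v) (p' - x) ≤ r := by
    calc inner ℝ (u + v) (p' - x) ≤ ‖u + v‖ * ‖p' - x‖ := real_inner_le_norm _ _
      _ ≤ 1 / (2 * α) * (2 * R) := mul_le_mul huv e3 (norm_nonneg _) (by positivity)
      _ = R / α := by field_simp
      _ ≤ r := by rw [div_le_iff₀ hα0]; linarith
  rw [inner_add_left, inner_sub_right, inner_sub_right] at e4
  have e5 : r ≤ inner ℝ u (p - p') := by
    rw [inner_sub_right]
    linarith
  have e6 : 2 * α * r ≤ 2 * α * inner ℝ u (p - p') :=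
    mul_le_mul_of_nonneg_left e5 (by positivity)
  linarith

theorem diam_pos {α : ℝ} {K : Set E3} (hK : Fat α K) : 0 < Metric.diam K := by
  obtain ⟨x, y, r, R, hr, hR, h1, h2⟩ := hK
  have he : ‖(EuclideanSpace.single (0 : Fin 3) (1 : ℝ) : E3)‖ = 1 := by simp
  have hxK : x ∈ K := h1 (Metric.mem_closedBall_self hr.le)
  have hyK : x + r • (EuclideanSpace.single (0 : Fin 3) (1 : ℝ) : E3) ∈ K := by
    apply h1
    rw [Metric.mem_closedBall, dist_self_add_left, norm_smul, he, Real.norm_of_nonneg hr.le,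
      mul_one]
  have h3 := Metric.dist_le_diam_of_mem (Metric.isBounded_closedBall.subset h2) hyK hxK
  rw [dist_self_add_left, norm_smul, he, Real.norm_of_nonneg hr.le, mul_one] at h3
  linarith

end UF.FP
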