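import Pool.Agent.Work.MP_4c5ddc_co.FP.Lng1
import Pool.Agent.Work.MP_4c5ddc_co.FP.Dis
import Pool.Agent.Work.MP_4c5ddc_co.FP.SlabL
import Pool.Agent.Work.MP_4c5ddc_co.FP.DefsP

/-!
# FP/Lng2 (M): the number of clean triples with a long interval

PROOF. For every `t` in the set choose `i, j, ν, μ, x, y` as in `Long`; `(i, ν)` is in `S.sigma F.N` (`i ∈ t ⊆ S`, `Tight` contains `ν ∈ F.N i`), and so is `(j, μ)`; this finset has at most `s * S.card` elements. For a fixed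
`q = ((i, ν), (j, μ))` the set of the `t` with this choice has at most `⌊1 / κ⌋₊ + 1` elements by `line_count` with `I t = Int3 F t` (convex, pairwise disjoint by `clean_disjoint`),
`δ = Metric.diam (F.K i) > 0` (`diam_pos`), all points `x t, y t` are in the bounded set `F.K i`. So the number is at most `(s * S.card) ^ 2 * (⌊1 / κ⌋₊ + 1)`
(`Finset.card_le_mul_card_image` or `card_eq_sum_card_fiberwise`).
-/

set_option autoImplicit false

namespace UF.FP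

variable {n : ℕ} {α : ℝ} {s : ℕ} {F : Fam n}

open scoped Classical in
theorem long_count (hG : Good α s F) {κ : ℝ} (hκ : 0 < κ) (S : Finset (Fin n)) :
    ((S.powersetCard 3).filter fun t => Clean F S t ∧ Long F κ t).card ≤
      (⌊1 / κ⌋₊ + 1) * s ^ 2 * S.card ^ 2 := by
  set T := (S.powersetCard 3).filter fun t => Clean F S t ∧ Long F κ t with hT
  have hTm : ∀ t, t ∈ T ↔ t ∈ S.powersetCard 3 ∧ Clean F S t ∧ Long F κ t := by
    intro t
    rw [hT, Finset.mem_filter]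
  have hdat : ∀ t ∈ T, ∃ (q : (Σ _ : Fin n, E3) × (Σ _ : Fin n, E3)) (x y : E3),
      (q.1 ∈ S.sigma F.N ∧ q.2 ∈ S.sigma F.N) ∧ cr q.1.2 q.2.2 ≠ 0 ∧
      (x ∈ Int3 F t ∧ y ∈ Int3 F t) ∧
      (inner ℝ q.1.2 x = F.h q.1.1 q.1.2 ∧ inner ℝ q.2.2 x = F.h q.2.1 q.2.2) ∧
      (inner ℝ q.1.2 y = F.h q.1.1 q.1.2 ∧ inner ℝ q.2.2 y = F.h q.2.1 q.2.2) ∧
      q.1.1 ∈ t ∧ κ * Metric.diam (F.K q.1.1) ≤ dist x y := by
    intro t ht
    obtain ⟨-, hcl, i, hi, j, hj, -, ν, μ, x, y, h1, h2, h3, h4, h5, h6, h7, h8⟩ := (hTm t).1 ht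
    refine ⟨(⟨i, ν⟩, ⟨j, μ⟩), x, y, ⟨?_, ?_⟩, h1, ⟨h2, h3⟩, ⟨h4.2, h6.2⟩, ⟨h5.2, h7.2⟩, hi, h8⟩
    · exact Finset.mem_sigma.2 ⟨hcl.sub hi, h4.1⟩
    · exact Finset.mem_sigma.2 ⟨hcl.sub hj, h6.1⟩
  rcases T.eq_empty_or_nonempty with h0 | ⟨t0, ht0⟩
  · rw [h0, Finset.card_empty]
    exact Nat.zero_le _
  haveI : Nonempty ((Σ _ : Fin n, E3) × (Σ _ : Fin n, E3)) := by
    obtain ⟨q, -⟩ := hdat t0 ht0
    exact ⟨q⟩
  choose! q x y hq using hdat
  have hcs : (S.sigma F.N).card ≤ s * S.card := by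
    rw [Finset.card_sigma]
    calc ∑ a ∈ S, (F.N a).card ≤ ∑ _a ∈ S, s := Finset.sum_le_sum fun i _ => hG.card i
      _ = s * S.card := by rw [Finset.sum_const, smul_eq_mul, mul_comm]
  have himg : (T.image q).card ≤ (s * S.card) ^ 2 := by
    have h1 : T.image q ⊆ (S.sigma F.N) ×ˢ (S.sigma F.N) := by
      intro z hz
      obtain ⟨t, ht, rfl⟩ := Finset.mem_image.1 hz
      exact Finset.mem_product.2 (hq t ht).1
    refine (Finset.card_le_card h1).trans ?_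
    rw [Finset.card_product, sq]
    exact Nat.mul_le_mul hcs hcs
  have hfib : ∀ z ∈ T.image q, (T.filter fun t => q t = z).card ≤ ⌊1 / κ⌋₊ + 1 := by
    intro z hz
    obtain ⟨t₁, ht₁, hz₁⟩ := Finset.mem_image.1 hz
    have hm : ∀ t ∈ T.filter (fun t => q t = z), t ∈ T ∧ q t = z := fun t ht =>
      Finset.mem_filter.1 ht
    have hpt : ∀ t ∈ T.filter (fun t => q t = z), x t ∈ F.K z.1.1 ∧ y t ∈ F.K z.1.1 := by
      intro t ht
      obtain ⟨h1, h2⟩ := hm t ht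
      obtain ⟨-, -, ⟨h3, h4⟩, -, -, h5, -⟩ := hq t h1
      rw [h2] at h5
      exact ⟨h3 _ h5, h4 _ h5⟩
    have hb := isBounded_K hG z.1.1
    refine line_count hκ (diam_pos (hG.fat z.1.1)) (T.filter fun t => q t = z) (Int3 F) x y
      (ν := z.1.2) (μ := z.2.2) (h := F.h z.1.1 z.1.2) (h' := F.h z.2.1 z.2.2) ?_ ?_ ?_ ?_ ?_ ?_
      ?_ ?_ ?_
    · rw [← hz₁]
      exact (hq t₁ ht₁).2.1
    · exact fun t _ => convex_Int3 t
    · intro t ht t' ht' hne
      rw [Set.disjoint_left]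
      intro p hp
      exact clean_disjoint hG ((hTm t).1 (hm t ht).1).2.1 ((hTm t').1 (hm t' ht').1).2.1 hne hp
    · exact fun t ht => (hq t (hm t ht).1).2.2.1.1
    · exact fun t ht => (hq t (hm t ht).1).2.2.1.2
    · intro t ht
      have h1 := (hq t (hm t ht).1).2.2.2.1
      rwa [(hm t ht).2] at h1
    · intro t ht
      have h1 := (hq t (hm t ht).1).2.2.2.2.1
      rwa [(hm t ht).2] at h1
    · intro t ht
      have h1 := (hq t (hm t ht).1).2.2.2.2.2.2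
      rwa [(hm t ht).2] at h1
    · intro t ht t' ht'
      exact ⟨Metric.dist_le_diam_of_mem hb (hpt t ht).1 (hpt t' ht').1,
        Metric.dist_le_diam_of_mem hb (hpt t ht).1 (hpt t' ht').2,
        Metric.dist_le_diam_of_mem hb (hpt t ht).2 (hpt t' ht').2⟩
  have h1 := Finset.card_le_mul_card_image (f := q) T (⌊1 / κ⌋₊ + 1) hfib
  refine h1.trans ((Nat.mul_le_mul_left _ himg).trans (le_of_eq ?_))
  ring

end UF.FP
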