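import Pool.Agent.Work.MP_4c5ddc_co.FP.Alt
import Pool.Agent.Work.MP_4c5ddc_co.FP.Cap5
import Pool.Agent.Work.MP_4c5ddc_co.FP.Lng2
import Pool.Agent.Work.MP_4c5ddc_co.FP.FCnt

/-!
# FP/PartBC (M): the number of clean triples is quadratic (assembly of the parts (B), (C))

PROOF. By `clean_alt` every clean triple of `S` is counted by `many_count`, by `long_count` (`κ = (1 / (2 α)) ^ 2 / 8 > 0` if `α ≥ 1`; if `α < 1` or `n = 0` there are no clean triples by `fat_one`) or is `Framed K F t`; in the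
last case it is counted by `facet_count` for some `ia ∈ S` (`ia ∈ t ⊆ S`) and `f = a i ∈ F.N ia` (`CubeAt.ma`): at most `S.card * s` pairs `(ia, f)`, each with at most `N * S.card` triples. So
`C₀ = (2 s) ^ 9 + (⌊1 / κ⌋₊ + 1) s ^ 2 + s N`.
-/

set_option autoImplicit false

namespace UF.FP

theorem clean_bound (α : ℝ) (s : ℕ) : ∃ C₀ : ℝ, ∀ (n : ℕ) (F : Fam n), Good α s F →
    ∀ S : Finset (Fin n), (nClean F S : ℝ) ≤ C₀ * (S.card : ℝ) ^ 2 := by
  classical
  obtain ⟨K, hK⟩ := clean_alt α s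
  obtain ⟨N, hN⟩ := facet_count K s
  obtain ⟨κ, hκe⟩ : ∃ κ : ℝ, κ = (1 / (2 * α)) ^ 2 / 8 := ⟨_, rfl⟩
  refine ⟨((2 * s) ^ 9 + (⌊1 / κ⌋₊ + 1) * s ^ 2 + s * N : ℕ), fun n F hF S => ?_⟩
  suffices h : nClean F S ≤ ((2 * s) ^ 9 + (⌊1 / κ⌋₊ + 1) * s ^ 2 + s * N) * S.card ^ 2 by
    exact_mod_cast h
  rcases S.eq_empty_or_nonempty with hS | ⟨i₀, -⟩
  · have : nClean F S = 0 := by
      unfold nClean
      rw [Finset.card_eq_zero, Finset.filter_eq_empty_iff]
      intro t ht _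
      obtain ⟨h1, h2⟩ := Finset.mem_powersetCard.1 ht
      rw [hS, Finset.subset_empty] at h1
      rw [h1] at h2
      simp at h2
    rw [this]
    exact Nat.zero_le _
  have hα : 1 ≤ α := fat_one (hF.fat i₀)
  have hκ : 0 < κ := by
    rw [hκe]
    positivity
  let T0 : Finset (Finset (Fin n)) := (S.powersetCard 3).filter fun t => Clean F S t
  let T1 : Finset (Finset (Fin n)) := (S.powersetCard 3).filter fun t =>
    Clean F S t ∧ ∃ i ∈ t, 3 ≤ (Act F t i).card
  let T2 : Finset (Finset (Fin n)) := (S.powersetCard 3).filter fun t =>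
    Clean F S t ∧ Long F κ t
  let G : (Fin n × E3) → Finset (Finset (Fin n)) := fun e =>
    (S.powersetCard 3).filter fun t => Clean F S t ∧ ∃ (ib ic : Fin n) (a b c : Fin 2 → E3)
        (p : Fin 2 → Fin 2 → Fin 2 → E3), t = {e.1, ib, ic} ∧ CubeAt F e.1 ib ic a b c p ∧
        ∃ i, a i = e.2 ∧ Frm K (a i) b c
  let J : Finset (Fin n × E3) := S.biUnion fun i => (F.N i).image fun f => (i, f)
  let T3 : Finset (Finset (Fin n)) := J.biUnion G
  have hJ : J.card ≤ s * S.card := by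
    calc J.card ≤ ∑ i ∈ S, ((F.N i).image fun f => (i, f)).card := Finset.card_biUnion_le
      _ ≤ ∑ _i ∈ S, s := Finset.sum_le_sum fun i _ =>
          Finset.card_image_le.trans (hF.card i)
      _ = s * S.card := by rw [Finset.sum_const, smul_eq_mul, mul_comm]
  have hT1 : T1.card ≤ (2 * s) ^ 9 * S.card ^ 2 := many_count hF S
  have hT2 : T2.card ≤ (⌊1 / κ⌋₊ + 1) * s ^ 2 * S.card ^ 2 := long_count hF hκ S
  have hT3 : T3.card ≤ s * N * S.card ^ 2 := by
    calc T3.card ≤ ∑ e ∈ J, (G e).card := Finset.card_biUnion_le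
      _ ≤ ∑ _e ∈ J, N * S.card := by
          refine Finset.sum_le_sum fun e he => ?_
          obtain ⟨i, hi, he'⟩ := Finset.mem_biUnion.1 he
          obtain ⟨f, hf, rfl⟩ := Finset.mem_image.1 he'
          exact hN n α F hF S i f hf
      _ = J.card * (N * S.card) := by rw [Finset.sum_const, smul_eq_mul]
      _ ≤ s * S.card * (N * S.card) := Nat.mul_le_mul_right _ hJ
      _ = s * N * S.card ^ 2 := by ring
  have hsub : T0 ⊆ T1 ∪ T2 ∪ T3 := by
    intro t ht
    obtain ⟨hm, hcl⟩ := Finset.mem_filter.1 ht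
    rw [Finset.mem_union, Finset.mem_union]
    rcases hK n F hF S t hcl with h | h | h
    · left; left
      exact Finset.mem_filter.2 ⟨hm, hcl, h⟩
    · left; right
      rw [← hκe] at h
      exact Finset.mem_filter.2 ⟨hm, hcl, h⟩
    · right
      obtain ⟨ia, ib, ic, a, b, c, p, hte, hcube, i, hfr⟩ := h
      rw [Finset.mem_biUnion]
      refine ⟨(ia, a i), ?_, Finset.mem_filter.2 ⟨hm, hcl, ib, ic, a, b, c, p, hte, hcube, i,
        rfl, hfr⟩⟩
      rw [Finset.mem_biUnion]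
      refine ⟨ia, hcl.sub ?_, Finset.mem_image.2 ⟨a i, hcube.ma i, rfl⟩⟩
      rw [hte]
      simp
  calc nClean F S = T0.card := rfl
    _ ≤ (T1 ∪ T2 ∪ T3).card := Finset.card_le_card hsub
    _ ≤ T1.card + T2.card + T3.card :=
        (Finset.card_union_le _ _).trans (Nat.add_le_add_right (Finset.card_union_le _ _) _)
    _ ≤ (2 * s) ^ 9 * S.card ^ 2 + (⌊1 / κ⌋₊ + 1) * s ^ 2 * S.card ^ 2 + s * N * S.card ^ 2 :=
        Nat.add_le_add (Nat.add_le_add hT1 hT2) hT3
    _ = _ := by ring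

end UF.FP
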