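import Pool.Agent.Work.MP_4c5ddc_co.FP.Bas

/-!
# FP/VDich (M): vertices are proper points of depth zero or improper points; the number of improper points

PROOF. `vert_sub`: let `x ∈ vertices F.K`, on the frontiers of `i, j, k`. By `Good.three` and `mem_frontier_K` `F.bd x = {i, j, k}` (three different elements, card `≤ 3`). `x` is in no interior of a body (`x ∈ frontier (⋃ i, F.K i)`, the
interior of a body is contained in the interior of the union), so `dep F univ x = 0`. If `Prp F x` then `x ∈ Vs F univ 0`. Otherwise some body `a ∈ F.bd x` has two different tight normals `ν ≠ μ`. Claim: `x ∈ Imp F`.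
If `μ ≠ - ν` then `cr ν μ ≠ 0` (`unit_pair`); by `nodir` for `w = cr ν μ` there is a tight normal `l` of a body `b ∈ F.bd x` with `inner l (cr ν μ) ≠ 0`, i.e. `dt l ν μ ≠ 0`: `ν, μ, l` are independent
(`linInd3`), `x ∈ Imp F` with `i = a`, `j = b`. `μ = - ν` is impossible: `F.K a` would be contained in the plane `{y | ν · y = ν · x}`, but it contains a ball (`Fat`).
`imp_card`: as in `CO/Imp.lean`: `x` is determined by `((i, ν₁), (i, ν₂), (j, ν₃))` (`CO.coord_inj` or `zero_of_three`); the number of such data is at most `n s * s * n s`.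
-/

set_option autoImplicit false

namespace UF.FP

variable {n : ℕ} {α : ℝ} {s : ℕ} {F : Fam n}

private theorem vd_opp (hG : Good α s F) {a : Fin n} {x ν : E3} (h1 : F.Tight a ν x)
    (h2 : F.Tight a (-ν) x) : False := by
  have hK : ∀ y ∈ F.K a, inner ℝ ν y = inner ℝ ν x := by
    intro y hy
    have e1 := hy ν h1.1
    have e2 := hy (-ν) h2.1
    rw [← h1.2] at e1
    rw [← h2.2, inner_neg_left, inner_neg_left] at e2
    linarith
  obtain ⟨x0, y0, r, R, hr, hR, hb, hb2⟩ := hG.fat a
  have hu := hG.unit a ν h1.1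
  have e1 := hK x0 (hb (Metric.mem_closedBall_self hr.le))
  have e2 := hK (x0 + r • ν) (hb (by
    rw [Metric.mem_closedBall, dist_self_add_left, norm_smul, hu, Real.norm_of_nonneg hr.le,
      mul_one]))
  rw [inner_add_right, inner_smul_right, real_inner_self_eq_norm_sq, hu, e1] at e2
  linarith

theorem vert_sub (hG : Good α s F) : vertices F.K ⊆ Imp F ∪ Vs F Finset.univ 0 := by
  classical
  rintro x ⟨hx, i, j, k, hij, hik, hjk, hi, hj, hk⟩
  have hib : i ∈ F.bd x := mem_bd.2 ((mem_frontier_K hG).1 hi)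
  have hjb : j ∈ F.bd x := mem_bd.2 ((mem_frontier_K hG).1 hj)
  have hkb : k ∈ F.bd x := mem_bd.2 ((mem_frontier_K hG).1 hk)
  have hsub : ({i, j, k} : Finset (Fin n)) ⊆ F.bd x := by
    intro l hl
    simp only [Finset.mem_insert, Finset.mem_singleton] at hl
    rcases hl with rfl | rfl | rfl <;> assumption
  have h3 : ({i, j, k} : Finset (Fin n)).card = 3 :=
    Finset.card_eq_three.2 ⟨i, j, k, hij, hik, hjk, rfl⟩
  have hcard : (F.bd x).card = 3 := by
    have h4 := Finset.card_le_card hsub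
    rw [h3] at h4
    exact le_antisymm (hG.three x) h4
  by_cases hP : Prp F x
  · right
    refine ⟨hP, Finset.subset_univ _, ?_⟩
    have h4 : dep F Finset.univ x = 0 := by
      unfold dep
      rw [Finset.card_eq_zero, Finset.filter_eq_empty_iff]
      intro d _ hd
      exact hx.2 (interior_mono (Set.subset_iUnion F.K d) hd)
    rw [h4]
  · left
    have hP' : ∃ a ∈ F.bd x, ∃ ν μ, F.Tight a ν x ∧ F.Tight a μ x ∧ ν ≠ μ := by
      by_contra hcon
      push Not at hcon
      exact hP ⟨hcard, hcon⟩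
    obtain ⟨a, ha, ν, μ, hν, hμ, hne⟩ := hP'
    have hcr : cr ν μ ≠ 0 := by
      intro h0
      rcases (unit_pair (hG.unit a ν hν.1) (hG.unit a μ hμ.1)).1 h0 with h4 | h4
      · exact hne h4.symm
      · rw [h4] at hμ
        exact vd_opp hG hν hμ
    obtain ⟨b, hb, l, hl, hl0⟩ := hG.nodir x hcard (cr ν μ) hcr
    rw [inner_cr, ← dt_rot] at hl0
    exact ⟨a, b, ν, μ, l, linInd3.2 hl0, hν, hμ, hl⟩

theorem imp_card (hG : Good α s F) : (Imp F).Finite ∧ (Imp F).ncard ≤ s ^ 3 * n ^ 2 := by
  classical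
  let R : Fin n × Fin n → E3 × E3 × E3 → E3 → Prop := fun p t v =>
    LinearIndependent ℝ ![t.1, t.2.1, t.2.2] ∧ inner ℝ t.1 v = F.h p.1 t.1 ∧
      inner ℝ t.2.1 v = F.h p.1 t.2.1 ∧ inner ℝ t.2.2 v = F.h p.2 t.2.2
  let f : Fin n × Fin n → E3 × E3 × E3 → E3 := fun p t =>
    if hv : ∃ v, R p t v then hv.choose else 0
  let X : Finset E3 := (Finset.univ : Finset (Fin n × Fin n)).biUnion
    (fun p => (F.N p.1 ×ˢ (F.N p.1 ×ˢ F.N p.2)).image (f p))
  have hsub : Imp F ⊆ (X : Set E3) := by
    rintro v ⟨a, b, ν₁, ν₂, ν₃, hl, e1, e2, e3⟩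
    rw [Finset.mem_coe]
    refine Finset.mem_biUnion.2 ⟨(a, b), Finset.mem_univ _, ?_⟩
    refine Finset.mem_image.2 ⟨(ν₁, ν₂, ν₃), ?_, ?_⟩
    · simp only [Finset.mem_product]
      exact ⟨e1.1, e2.1, e3.1⟩
    · have hv : ∃ w, R (a, b) (ν₁, ν₂, ν₃) w := ⟨v, hl, e1.2, e2.2, e3.2⟩
      have hF : f (a, b) (ν₁, ν₂, ν₃) = hv.choose := dif_pos hv
      rw [hF]
      obtain ⟨h0, f1, f2, f3⟩ := hv.choose_spec
      have h4 : dt ν₁ ν₂ ν₃ ≠ 0 := linInd3.1 hl
      rw [← sub_eq_zero]
      apply zero_of_three h4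
      · rw [inner_sub_right, e1.2, sub_eq_zero]
        exact f1
      · rw [inner_sub_right, e2.2, sub_eq_zero]
        exact f2
      · rw [inner_sub_right, e3.2, sub_eq_zero]
        exact f3
  have hfin : (X : Set E3).Finite := Finset.finite_toSet X
  refine ⟨hfin.subset hsub, ?_⟩
  have h1 : (Imp F).ncard ≤ X.card := by
    rw [← Set.ncard_coe_finset X]
    exact Set.ncard_le_ncard hsub hfin
  have h2 : X.card ≤ (Finset.univ : Finset (Fin n × Fin n)).card * (s * (s * s)) := by
    apply Finset.card_biUnion_le_card_mul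
    intro p _
    refine Finset.card_image_le.trans ?_
    rw [Finset.card_product, Finset.card_product]
    exact Nat.mul_le_mul (hG.card _) (Nat.mul_le_mul (hG.card _) (hG.card _))
  rw [Finset.card_univ, Fintype.card_prod, Fintype.card_fin] at h2
  refine (h1.trans h2).trans (le_of_eq ?_)
  ring

theorem vs_finite (hG : Good α s F) (S : Finset (Fin n)) (k : ℕ) : (Vs F S k).Finite :=
  hG.fin.subset fun _ hx => hx.1.1

end UF.FP
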