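import Pool.Agent.Work.MP_4c5ddc_co.Tot
import Pool.Agent.Work.MP_4c5ddc_co.FP.Nrmz
import Pool.Agent.Work.MP_4c5ddc_co.FP.GoodOf
import Pool.Agent.Work.MP_4c5ddc_co.FP.VDich
import Pool.Agent.Work.MP_4c5ddc_co.FP.ObjP
import Pool.Agent.Work.MP_4c5ddc_co.FP.PartA
import Pool.Agent.Work.MP_4c5ddc_co.FP.PartBC

/-!
# FP/Final (M): the union of fat polytopes (assembly)

PROOF. `exists_unit` for every body (nonempty by `Fat`) gives `F : Fam n` with `K = F.K`, unit normals and at most `s` facets. `good_of`. `reduction` with `C₀` of `clean_bound`: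
`(Vs F univ 0).ncard ≤ C n^(2+ε)`. `vert_sub`, `imp_card`: `(vertices K).ncard ≤ s ^ 3 n ^ 2 + C n^(2+ε)`, `n ^ 2 ≤ n^(2+ε)` for `n ≥ 1` (`Real.rpow_le_rpow_of_exponent_le`, `Real.rpow_natCast`; for `n = 0` everything is empty:
`vertices` is empty and by `total_bound` the numbers of components are `0`). `obj_poly'` and `total_bound` (`Tot.lean`) bound the numbers of edges and faces, as in `CO/Fin.lean`.
-/

set_option autoImplicit false

namespace UF.FP

theorem final (α ε : ℝ) (s : ℕ) (hε : 0 < ε) : ∃ C : ℝ, ∀ (n : ℕ) (K : Fin n → Set E3),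
    (∀ i, ∃ (ν : Fin s → E3) (h : Fin s → ℝ), K i = {x | ∀ l, inner ℝ (ν l) x ≤ h l}) →
    (∀ i, Fat α (K i)) → GenPos K → (∀ x, (idx K x).ncard ≤ 3) →
      (vertices K).Finite ∧ (comps (stratum K 2)).Finite ∧ (comps (stratum K 1)).Finite ∧
        (complexity K : ℝ) ≤ C * (n : ℝ) ^ (2 + ε) := by
  classical
  obtain ⟨A, hA⟩ := total_bound α (max s 1)
  obtain ⟨C₀, hC₀⟩ := clean_bound α s
  obtain ⟨C₁, hC₁⟩ := reduction α s ε C₀ hε
  refine ⟨(1 + (A : ℝ)) * ((s : ℝ) ^ 3 + |C₁|) + A, fun n K hK hfat hG h3 => ?_⟩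
  have hne : ∀ i, (K i).Nonempty := by
    intro i
    obtain ⟨x, y, r, R, hr, -, h1, -⟩ := hfat i
    exact ⟨x, h1 (Metric.mem_closedBall_self hr.le)⟩
  have hex : ∀ i, ∃ (N : Finset E3) (H : E3 → ℝ), (∀ u ∈ N, ‖u‖ = 1) ∧ N.card ≤ s ∧
      K i = CO.poly N H := by
    intro i
    obtain ⟨ν, h, hi⟩ := hK i
    exact exists_unit ν h hi (hne i)
  choose N H hunit hcard hKe using hex
  let F : Fam n := ⟨N, H⟩
  have hFK : F.K = K := by
    funext i
    exact (hKe i).symm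
  have hgood : Good α s F := good_of hunit hcard (fun i => by rw [hFK]; exact hfat i)
    (by rw [hFK]; exact hG) (by rw [hFK]; exact h3)
  have hVs := hC₁ n F hgood (fun S => hC₀ n F hgood S)
  obtain ⟨hIf, hIc⟩ := imp_card hgood
  have hsub := vert_sub hgood
  rw [hFK] at hsub
  have hVfin : (Vs F Finset.univ 0).Finite := vs_finite hgood _ _
  have hVf : (vertices K).Finite := (hIf.union hVfin).subset hsub
  have hVc : (vertices K).ncard ≤ s ^ 3 * n ^ 2 + (Vs F Finset.univ 0).ncard :=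
    (Set.ncard_le_ncard hsub (hIf.union hVfin)).trans
      ((Set.ncard_union_le _ _).trans (Nat.add_le_add_right hIc _))
  have hobj : ∀ i, Obj α (max s 1) (K i) := by
    intro i
    rw [hKe i]
    refine obj_poly' α s (hcard i) ?_
    rw [← hKe i]
    exact hfat i
  obtain ⟨h1, h2, h12⟩ := hA n K hobj hG h3
  refine ⟨hVf, h2, h1, ?_⟩
  have hcomp : complexity K ≤ (1 + A) * (vertices K).ncard + A * n ^ 2 := by
    unfold complexity
    have e : (1 + A) * (vertices K).ncard + A * n ^ 2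
        = (vertices K).ncard + A * (n ^ 2 + (vertices K).ncard) := by ring
    rw [e]
    omega
  have hcomp' : (complexity K : ℝ) ≤ (1 + (A : ℝ)) * ((vertices K).ncard : ℝ)
      + A * (n : ℝ) ^ 2 := by exact_mod_cast hcomp
  have hVc' : ((vertices K).ncard : ℝ) ≤ (s : ℝ) ^ 3 * (n : ℝ) ^ 2
      + ((Vs F Finset.univ 0).ncard : ℝ) := by exact_mod_cast hVc
  have hpow : (n : ℝ) ^ 2 ≤ (n : ℝ) ^ (2 + ε) := by
    rcases Nat.eq_zero_or_pos n with rfl | hn
    · rw [Nat.cast_zero]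
      have : (0 : ℝ) ≤ (0 : ℝ) ^ (2 + ε) := Real.rpow_nonneg le_rfl _
      simpa using this
    · rw [← Real.rpow_natCast]
      exact Real.rpow_le_rpow_of_exponent_le (by exact_mod_cast hn) (by push_cast; linarith)
  have hP0 : (0 : ℝ) ≤ (n : ℝ) ^ (2 + ε) := Real.rpow_nonneg (by positivity) _
  have hVs' : ((Vs F Finset.univ 0).ncard : ℝ) ≤ |C₁| * (n : ℝ) ^ (2 + ε) :=
    hVs.trans (mul_le_mul_of_nonneg_right (le_abs_self _) hP0)
  have hV2 : ((vertices K).ncard : ℝ) ≤ ((s : ℝ) ^ 3 + |C₁|) * (n : ℝ) ^ (2 + ε) := by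
    calc ((vertices K).ncard : ℝ) ≤ (s : ℝ) ^ 3 * (n : ℝ) ^ 2
          + ((Vs F Finset.univ 0).ncard : ℝ) := hVc'
      _ ≤ (s : ℝ) ^ 3 * (n : ℝ) ^ (2 + ε) + |C₁| * (n : ℝ) ^ (2 + ε) := by gcongr
      _ = _ := by ring
  calc (complexity K : ℝ) ≤ (1 + (A : ℝ)) * ((vertices K).ncard : ℝ) + A * (n : ℝ) ^ 2 := hcomp'
    _ ≤ (1 + (A : ℝ)) * (((s : ℝ) ^ 3 + |C₁|) * (n : ℝ) ^ (2 + ε)) + A * (n : ℝ) ^ (2 + ε) := by
        gcongr
    _ = _ := by ring

end UF.FP
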