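import Pool.Agent.Work.MP_4c5ddc_co.FP.Vin

/-!
# FP/Flat (M): at most one of the three bodies is flat

PROOF. Suppose that `‖a 0 - a 1‖ ≤ k ^ 2 / 100` and `‖b 0 - b 1‖ ≤ k ^ 2 / 100`; `k ≤ ‖c 0 + c 1‖`, note
`k ≤ 2`. Put `m = c 0 + c 1`. Then `inner (c i) m = 1 + inner (c 0) (c 1) = ‖m‖ ^ 2 / 2 ≥ k ^ 2 / 2` for
both `i`. There is a unit vector `u` with `|inner (a 0) u| ≥ 1 / √2`, `|inner (b 0) u| ≥ 1 / √2`: the normalised
`a 0 + b 0` if `inner (a 0) (b 0) ≥ 0` (its inner product with both is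
`√((1 + inner (a 0) (b 0)) / 2)`), otherwise the normalised `a 0 - b 0`. For `t ∈ {0, τ, 2 τ}`, `τ = k ^ 2 / 8`, let
`ν = m + t • u`. The numbers `inner (a 0) ν` for two different `t` differ by at least
`τ / √2 > k ^ 2 / 16`, so at most one of the three `t` has `|inner (a 0) ν| ≤ k ^ 2 / 32`; the same for `b 0`. So there is
a `t` with `|inner (a 0) ν| > k ^ 2 / 32`, `|inner (b 0) ν| > k ^ 2 / 32`. `‖ν‖ ≤ 2 + k ^ 2 / 4 ≤ 3`, so
`|inner (a 0 - a 1) ν| ≤ 3 k ^ 2 / 100 < k ^ 2 / 32` and `inner (a 0) ν`, `inner (a 1) ν` have the same strict sign; the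
same for `b`. Moreover `inner (c i) ν ≥ k ^ 2 / 2 - 2 τ > 0`. The signs of `(a, b, c)` at `ν` are
`(-, -, +)`: against `nc`; `(+, -, +)`: at `-ν` they are `(-, +, -)`, against `nb`; `(-, +, +)`: at `-ν` against `na`;
`(+, +, +)`: at `-ν` all negative, against `bd` (`ν ≠ 0`).
-/

set_option autoImplicit false

namespace UF.FP

private theorem fl_u {x y : E3} (hx : ‖x‖ = 1) (hy : ‖y‖ = 1) : ∃ u : E3, ‖u‖ = 1 ∧
    1 / 2 ≤ (inner ℝ x u) ^ 2 ∧ 1 / 2 ≤ (inner ℝ y u) ^ 2 := by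
  have hxx : inner ℝ x x = (1 : ℝ) := by rw [real_inner_self_eq_norm_sq, hx]; norm_num
  have hyy : inner ℝ y y = (1 : ℝ) := by rw [real_inner_self_eq_norm_sq, hy]; norm_num
  rcases le_total 0 (inner ℝ x y : ℝ) with hp | hp
  · have hs : ‖x + y‖ ^ 2 = 2 + 2 * inner ℝ x y := by
      rw [norm_add_sq_real, hx, hy]; ring
    have hs0 : 0 < ‖x + y‖ := by
      by_contra hcon
      have h0 : ‖x + y‖ = 0 := le_antisymm (not_lt.mp hcon) (norm_nonneg _)
      rw [h0] at hs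
      nlinarith
    have e1 : inner ℝ x (x + y) = ‖x + y‖ ^ 2 / 2 := by rw [inner_add_right, hxx, hs]; ring
    have e2 : inner ℝ y (x + y) = ‖x + y‖ ^ 2 / 2 := by
      rw [inner_add_right, hyy, hs, real_inner_comm]; ring
    refine ⟨‖x + y‖⁻¹ • (x + y), ?_, ?_, ?_⟩
    · rw [norm_smul, norm_inv, norm_norm, inv_mul_cancel₀ hs0.ne']
    · rw [inner_smul_right, e1]
      have e3 : ‖x + y‖⁻¹ * (‖x + y‖ ^ 2 / 2) = ‖x + y‖ / 2 := by field_simp
      rw [e3]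
      nlinarith
    · rw [inner_smul_right, e2]
      have e3 : ‖x + y‖⁻¹ * (‖x + y‖ ^ 2 / 2) = ‖x + y‖ / 2 := by field_simp
      rw [e3]
      nlinarith
  · have hs : ‖x - y‖ ^ 2 = 2 - 2 * inner ℝ x y := by
      rw [norm_sub_sq_real, hx, hy]; ring
    have hs0 : 0 < ‖x - y‖ := by
      by_contra hcon
      have h0 : ‖x - y‖ = 0 := le_antisymm (not_lt.mp hcon) (norm_nonneg _)
      rw [h0] at hs
      nlinarith
    have e1 : inner ℝ x (x - y) = ‖x - y‖ ^ 2 / 2 := by rw [inner_sub_right, hxx, hs]; ring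
    have e2 : inner ℝ y (x - y) = -(‖x - y‖ ^ 2 / 2) := by
      rw [inner_sub_right, hyy, hs, real_inner_comm]; ring
    refine ⟨‖x - y‖⁻¹ • (x - y), ?_, ?_, ?_⟩
    · rw [norm_smul, norm_inv, norm_norm, inv_mul_cancel₀ hs0.ne']
    · rw [inner_smul_right, e1]
      have e3 : ‖x - y‖⁻¹ * (‖x - y‖ ^ 2 / 2) = ‖x - y‖ / 2 := by field_simp
      rw [e3]
      nlinarith
    · rw [inner_smul_right, e2]
      have e3 : ‖x - y‖⁻¹ * (-(‖x - y‖ ^ 2 / 2)) = -(‖x - y‖ / 2) := by field_simp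
      rw [e3]
      nlinarith

private theorem fl_two {α p τ t t' : ℝ} (hτ : 0 < τ) (hp : 1 / 2 ≤ p ^ 2) (ht : τ ≤ t' - t)
    (h : |α + t * p| ≤ τ / 4) (h' : |α + t' * p| ≤ τ / 4) : False := by
  rw [abs_le] at h h'
  have h1 : |(t' - t) * p| ≤ τ / 2 := by
    rw [abs_le]
    constructor <;> nlinarith [h.1, h.2, h'.1, h'.2]
  have h2 : ((t' - t) * p) ^ 2 ≤ (τ / 2) ^ 2 := by
    rw [← sq_abs]
    exact pow_le_pow_left₀ (abs_nonneg _) h1 2
  have h3 : τ ^ 2 ≤ (t' - t) ^ 2 := pow_le_pow_left₀ hτ.le ht 2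
  have h4 : τ ^ 2 * (1 / 2) ≤ (t' - t) ^ 2 * p ^ 2 := mul_le_mul h3 hp (by norm_num) (sq_nonneg _)
  nlinarith [pow_pos hτ 2]

private theorem fl_t {α β p q τ : ℝ} (hτ : 0 < τ) (hp : 1 / 2 ≤ p ^ 2) (hq : 1 / 2 ≤ q ^ 2) :
    ∃ t : ℝ, 0 ≤ t ∧ t ≤ 2 * τ ∧ τ / 4 < |α + t * p| ∧ τ / 4 < |β + t * q| := by
  by_contra hcon
  push Not at hcon
  have k : ∀ t, 0 ≤ t → t ≤ 2 * τ → |α + t * p| ≤ τ / 4 ∨ |β + t * q| ≤ τ / 4 := by
    intro t h0 h1
    by_cases h : |α + t * p| ≤ τ / 4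
    · exact Or.inl h
    · exact Or.inr (hcon t h0 h1 (not_le.mp h))
  rcases k 0 le_rfl (by linarith) with h0 | h0 <;> rcases k τ hτ.le (by linarith) with h1 | h1 <;>
    rcases k (2 * τ) (by linarith) le_rfl with h2 | h2
  · exact fl_two hτ hp (by linarith) h0 h1
  · exact fl_two hτ hp (by linarith) h0 h1
  · exact fl_two hτ hp (by linarith) h0 h2
  · exact fl_two hτ hq (by linarith) h1 h2
  · exact fl_two hτ hp (by linarith) h1 h2
  · exact fl_two hτ hq (by linarith) h0 h2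
  · exact fl_two hτ hq (by linarith) h0 h1
  · exact fl_two hτ hq (by linarith) h0 h1

theorem flat_lemma {a b c : Fin 2 → E3} (h : Lin a b c) {k : ℝ} (hk : 0 < k)
    (hc : k ≤ ‖c 0 + c 1‖) : k ^ 2 / 100 < ‖a 0 - a 1‖ ∨ k ^ 2 / 100 < ‖b 0 - b 1‖ := by
  by_contra hcon
  push Not at hcon
  obtain ⟨ha, hb⟩ := hcon
  have hcc : ∀ i, inner ℝ (c i) (c i) = (1 : ℝ) := fun i => by
    rw [real_inner_self_eq_norm_sq, h.uc]; norm_num
  have hm2 : ‖c 0 + c 1‖ ^ 2 = 2 + 2 * inner ℝ (c 0) (c 1) := by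
    rw [norm_add_sq_real, h.uc, h.uc]; ring
  have hmle : ‖c 0 + c 1‖ ≤ 2 := by
    have := norm_add_le (c 0) (c 1)
    rw [h.uc, h.uc] at this
    linarith
  have hk2 : k ≤ 2 := hc.trans hmle
  have hksq : k ^ 2 ≤ ‖c 0 + c 1‖ ^ 2 := pow_le_pow_left₀ hk.le hc 2
  have hcm : ∀ i, k ^ 2 / 2 ≤ inner ℝ (c i) (c 0 + c 1) := by
    intro i
    have e0 : inner ℝ (c 0) (c 0 + c 1) = ‖c 0 + c 1‖ ^ 2 / 2 := by
      rw [inner_add_right, hcc, hm2]; ring
    have e1 : inner ℝ (c 1) (c 0 + c 1) = ‖c 0 + c 1‖ ^ 2 / 2 := by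
      rw [inner_add_right, hcc, hm2, real_inner_comm]; ring
    rcases (show i = 0 ∨ i = 1 by omega) with hi | hi
    · rw [hi, e0]; linarith
    · rw [hi, e1]; linarith
  obtain ⟨u, hu, hpa, hpb⟩ := fl_u (h.ua 0) (h.ub 0)
  have hτ : 0 < k ^ 2 / 8 := by positivity
  obtain ⟨t, ht0, ht1, hta, htb⟩ := fl_t (α := inner ℝ (a 0) (c 0 + c 1))
    (β := inner ℝ (b 0) (c 0 + c 1)) hτ hpa hpb
  obtain ⟨ν, hν⟩ : ∃ ν : E3, ν = (c 0 + c 1) + t • u := ⟨_, rfl⟩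
  have ea : inner ℝ (a 0) ν = inner ℝ (a 0) (c 0 + c 1) + t * inner ℝ (a 0) u := by
    rw [hν, inner_add_right, inner_smul_right]
  have eb : inner ℝ (b 0) ν = inner ℝ (b 0) (c 0 + c 1) + t * inner ℝ (b 0) u := by
    rw [hν, inner_add_right, inner_smul_right]
  rw [← ea] at hta
  rw [← eb] at htb
  have hνn : ‖ν‖ ≤ 3 := by
    rw [hν]
    refine (norm_add_le _ _).trans ?_
    rw [norm_smul, hu, mul_one, Real.norm_of_nonneg ht0]
    nlinarith
  have hcν : ∀ i, 0 < inner ℝ (c i) ν := by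
    intro i
    rw [hν, inner_add_right, inner_smul_right]
    have h1 : |inner ℝ (c i) u| ≤ 1 := by
      have := abs_real_inner_le_norm (c i) u
      rwa [h.uc, hu, mul_one] at this
    have h2 := (abs_le.mp h1).1
    have h3 := hcm i
    have h4 : -t ≤ t * inner ℝ (c i) u := by nlinarith
    have h5 : 0 < k ^ 2 := by positivity
    linarith
  have sgn : ∀ x : Fin 2 → E3, ‖x 0 - x 1‖ ≤ k ^ 2 / 100 → k ^ 2 / 8 / 4 < |inner ℝ (x 0) ν| →
      (∀ i, 0 < inner ℝ (x i) ν) ∨ (∀ i, inner ℝ (x i) ν < 0) := by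
    intro x hx hxν
    have h1 : |inner ℝ (x 0) ν - inner ℝ (x 1) ν| ≤ k ^ 2 / 100 * 3 := by
      rw [← inner_sub_left]
      refine (abs_real_inner_le_norm _ _).trans ?_
      exact mul_le_mul hx hνn (norm_nonneg _) (by positivity)
    rw [abs_le] at h1
    have h5 : 0 < k ^ 2 := by positivity
    rcases lt_abs.mp hxν with h2 | h2
    · left
      intro i
      rcases (show i = 0 ∨ i = 1 by omega) with hi | hi
      · rw [hi]; linarith
      · rw [hi]; linarith [h1.2]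
    · right
      intro i
      rcases (show i = 0 ∨ i = 1 by omega) with hi | hi
      · rw [hi]; linarith
      · rw [hi]; linarith [h1.1]
  have hneg : ∀ x : E3, inner ℝ x (-ν) = -inner ℝ x ν := fun x => inner_neg_right _ _
  rcases sgn a ha hta with h1 | h1 <;> rcases sgn b hb htb with h2 | h2
  · refine h.bd (-ν) ?_ (fun i => ?_) (fun i => ?_) (fun i => ?_)
    · intro h0
      have h3 := hcν 0
      rw [neg_eq_zero.mp h0, inner_zero_right] at h3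
      exact lt_irrefl _ h3
    · rw [hneg]; linarith [h1 i]
    · rw [hneg]; linarith [h2 i]
    · rw [hneg]; linarith [hcν i]
  · refine h.nb (-ν) (fun i => ?_) (fun i => ?_) (fun i => ?_)
    · rw [hneg]; linarith [h1 i]
    · rw [hneg]; linarith [h2 i]
    · rw [hneg]; linarith [hcν i]
  · refine h.na (-ν) (fun i => ?_) (fun i => ?_) (fun i => ?_)
    · rw [hneg]; linarith [h1 i]
    · rw [hneg]; linarith [h2 i]
    · rw [hneg]; linarith [hcν i]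
  · exact h.nc ν (fun i => (h1 i).le) (fun i => (h2 i).le) hcν

end UF.FP
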