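import Pool.Agent.Work.MP_4c5ddc_co.FP.DefsC

/-!
# FP/Vec (S-M): algebraic identities for the cross product and the determinant in `E3`

PROOF. Everything in coordinates: `inner_eq` (`PiLp.inner_apply`, `Fin.sum_univ_three`,
`RCLike`/`conj` simp), unfold `cr`, `dt`; equalities of vectors by `ext i; fin_cases i` and `simp`,
`ring`. `norm_sq`: `‖u‖ ^ 2 = inner ℝ u u`.
-/

set_option autoImplicit false

namespace UF.FP

private theorem ie (u v : E3) : inner ℝ u v = u 0 * v 0 + u 1 * v 1 + u 2 * v 2 := by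
  simp only [PiLp.inner_apply, Fin.sum_univ_three, RCLike.inner_apply, conj_trivial]
  ring

private theorem c0 (u v : E3) : cr u v 0 = u 1 * v 2 - u 2 * v 1 := rfl

private theorem c1 (u v : E3) : cr u v 1 = u 2 * v 0 - u 0 * v 2 := rfl

private theorem c2 (u v : E3) : cr u v 2 = u 0 * v 1 - u 1 * v 0 := rfl

private theorem e3 {u v : E3} (h0 : u 0 = v 0) (h1 : u 1 = v 1) (h2 : u 2 = v 2) : u = v := by
  ext i
  fin_cases i
  · exact h0
  · exact h1
  · exact h2

private theorem nsq (u : E3) : ‖u‖ ^ 2 = u 0 * u 0 + u 1 * u 1 + u 2 * u 2 := by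
  rw [← real_inner_self_eq_norm_sq, ie]

theorem inner_eq (u v : E3) : inner ℝ u v = u 0 * v 0 + u 1 * v 1 + u 2 * v 2 := by
  exact ie u v

theorem inner_cr (u v w : E3) : inner ℝ u (cr v w) = dt u v w := by
  rw [ie, c0, c1, c2, dt]

theorem cr_inner (u v w : E3) : inner ℝ (cr u v) w = dt u v w := by
  rw [ie, c0, c1, c2, dt]
  ring

theorem dt_swap12 (u v w : E3) : dt v u w = -dt u v w := by
  unfold dt
  ring

theorem dt_swap23 (u v w : E3) : dt u w v = -dt u v w := by
  unfold dt
  ring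

theorem dt_rot (u v w : E3) : dt v w u = dt u v w := by
  unfold dt
  ring

theorem dt_self12 (u w : E3) : dt u u w = 0 := by
  unfold dt
  ring

theorem dt_self13 (u w : E3) : dt u w u = 0 := by
  unfold dt
  ring

theorem dt_self23 (u w : E3) : dt w u u = 0 := by
  unfold dt
  ring

theorem dt_add1 (u u' v w : E3) : dt (u + u') v w = dt u v w + dt u' v w := by
  simp only [dt, PiLp.add_apply]
  ring

theorem dt_sub1 (u u' v w : E3) : dt (u - u') v w = dt u v w - dt u' v w := by
  simp only [dt, PiLp.sub_apply]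
  ring

theorem dt_smul1 (t : ℝ) (u v w : E3) : dt (t • u) v w = t * dt u v w := by
  simp only [dt, PiLp.smul_apply, smul_eq_mul]
  ring

theorem dt_sub2 (u v v' w : E3) : dt u (v - v') w = dt u v w - dt u v' w := by
  simp only [dt, PiLp.sub_apply]
  ring

theorem dt_smul2 (t : ℝ) (u v w : E3) : dt u (t • v) w = t * dt u v w := by
  simp only [dt, PiLp.smul_apply, smul_eq_mul]
  ring

theorem dt_sub3 (u v w w' : E3) : dt u v (w - w') = dt u v w - dt u v w' := by
  simp only [dt, PiLp.sub_apply]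
  ring

theorem dt_smul3 (t : ℝ) (u v w : E3) : dt u v (t • w) = t * dt u v w := by
  simp only [dt, PiLp.smul_apply, smul_eq_mul]
  ring

theorem cr_anti (u v : E3) : cr v u = -cr u v := by
  apply e3 <;> simp only [PiLp.neg_apply, c0, c1, c2] <;> ring

theorem cr_self (u : E3) : cr u u = 0 := by
  apply e3 <;> simp only [PiLp.zero_apply, c0, c1, c2] <;> ring

theorem cr_smul_left (t : ℝ) (u v : E3) : cr (t • u) v = t • cr u v := by
  apply e3 <;> simp only [PiLp.smul_apply, smul_eq_mul, c0, c1, c2] <;> ring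

theorem cr_smul_right (t : ℝ) (u v : E3) : cr u (t • v) = t • cr u v := by
  apply e3 <;> simp only [PiLp.smul_apply, smul_eq_mul, c0, c1, c2] <;> ring

theorem cr_add_left (u u' v : E3) : cr (u + u') v = cr u v + cr u' v := by
  apply e3 <;> simp only [PiLp.add_apply, c0, c1, c2] <;> ring

theorem cr_add_right (u v v' : E3) : cr u (v + v') = cr u v + cr u v' := by
  apply e3 <;> simp only [PiLp.add_apply, c0, c1, c2] <;> ring

theorem cr_sub_left (u u' v : E3) : cr (u - u') v = cr u v - cr u' v := by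
  apply e3 <;> simp only [PiLp.sub_apply, c0, c1, c2] <;> ring

theorem cr_sub_right (u v v' : E3) : cr u (v - v') = cr u v - cr u v' := by
  apply e3 <;> simp only [PiLp.sub_apply, c0, c1, c2] <;> ring

theorem norm_cr_comm (u v : E3) : ‖cr v u‖ = ‖cr u v‖ := by
  rw [cr_anti, norm_neg]

/-- `(x × y) × v = (x · v) y - (y · v) x`. -/
theorem cr_cr_left (x y v : E3) : cr (cr x y) v = (inner ℝ x v) • y - (inner ℝ y v) • x := by
  rw [ie, ie]
  apply e3 <;> simp only [PiLp.sub_apply, PiLp.smul_apply, smul_eq_mul, c0, c1, c2] <;> ring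

/-- `u × (v × w) = (u · w) v - (u · v) w`. -/
theorem cr_cr_right (u v w : E3) : cr u (cr v w) = (inner ℝ u w) • v - (inner ℝ u v) • w := by
  rw [ie, ie]
  apply e3 <;> simp only [PiLp.sub_apply, PiLp.smul_apply, smul_eq_mul, c0, c1, c2] <;> ring

theorem inner_cr_cr (u v w z : E3) :
    inner ℝ (cr u v) (cr w z) = inner ℝ u w * inner ℝ v z - inner ℝ u z * inner ℝ v w := by
  simp only [ie, c0, c1, c2]
  ring

theorem norm_cr_sq (u v : E3) : ‖cr u v‖ ^ 2 = ‖u‖ ^ 2 * ‖v‖ ^ 2 - (inner ℝ u v) ^ 2 := by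
  rw [nsq, nsq, nsq, ie, c0, c1, c2]
  ring

/-- Cramer's rule. -/
theorem cramer (x y z v : E3) :
    dt x y z • v = dt v y z • x + dt x v z • y + dt x y v • z := by
  apply e3 <;> simp only [PiLp.add_apply, PiLp.smul_apply, smul_eq_mul, dt] <;> ring

/-- The Grassmann-Pluecker relation in a plane orthogonal to `f`. -/
theorem pluecker (f u v w z : E3) :
    dt f u v * dt f w z - dt f u w * dt f v z + dt f u z * dt f v w = 0 := by
  unfold dt
  ring

/-- `(f × u) · (f × w)`, `(f × v) · ...`: the planar identity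
`|e|^2 (v ∧ w) = (e · v) (e ∧ w) - (e ∧ v) (e · w)` for the projections orthogonal to a unit vector `f`. -/
theorem planar (f e v w : E3) (hf : ‖f‖ = 1) :
    ‖cr f e‖ ^ 2 * dt f v w =
      inner ℝ (cr f e) (cr f v) * dt f e w - dt f e v * inner ℝ (cr f e) (cr f w) := by
  have hf2 : f 0 * f 0 + f 1 * f 1 + f 2 * f 2 = 1 := by
    rw [← nsq, hf]
    norm_num
  have key : ‖cr f e‖ ^ 2 * dt f v w -
      (inner ℝ (cr f e) (cr f v) * dt f e w - dt f e v * inner ℝ (cr f e) (cr f w)) = 0 := by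
    rw [nsq]
    simp only [ie, c0, c1, c2, dt]
    ring
  linarith

end UF.FP
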