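import Pool.Agent.Work.MP_4c5ddc_co.FP.DefsP
import Pool.Agent.Work.MP_4c5ddc_co.FP.Vec
import Pool.Agent.Work.MP_4c5ddc_co.FP.Vli

/-!
# FP/Frame (S-M): orthonormal coordinates of the plane orthogonal to a unit vector

PROOF. For a unit vector `f` let `e₁` be a unit vector orthogonal to `f` (normalise `cr f v` for a basis vector `v` not parallel to `f`; `exists_orth2` of `FP/Vli` may be used too) and
`e₂ = cr f e₁`. Then `f, e₁, e₂` are orthonormal (`norm_cr_sq`, `inner_cr`). `x = (f · x) • f + (e₁ · x) • e₁ + (e₂ · x) • e₂` (three orthonormal vectors in dimension `3`: the difference is orthogonal to the three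
vectors; or `cramer` with `dt f e₁ e₂ = 1`). `dt f u v = (e₁ · u) (e₂ · v) - (e₂ · u) (e₁ · v)`: expand `u, v` in the basis (`dt` multilinear) with `dt f e₁ e₂ = f · cr e₁ e₂ = ‖cr f e₁‖ ^ 2 = 1`.
-/

set_option autoImplicit false

namespace UF.FP

theorem exists_frame {f : E3} (hf : ‖f‖ = 1) : ∃ e₁ e₂ : E3, ‖e₁‖ = 1 ∧ ‖e₂‖ = 1 ∧
    inner ℝ f e₁ = 0 ∧ inner ℝ f e₂ = 0 ∧ inner ℝ e₁ e₂ = 0 ∧
    (∀ x : E3, x = (inner ℝ f x) • f + (inner ℝ e₁ x) • e₁ + (inner ℝ e₂ x) • e₂) ∧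
    ∀ u v : E3, dt f u v = wd (inner ℝ u e₁, inner ℝ u e₂) (inner ℝ v e₁, inner ℝ v e₂) := by
  obtain ⟨w, hw0, hw, -⟩ := exists_orth2 f f
  obtain ⟨e₁, he1⟩ : ∃ e₁ : E3, e₁ = ‖w‖⁻¹ • w := ⟨_, rfl⟩
  have n1 : ‖e₁‖ = 1 := by
    rw [he1, norm_smul, norm_inv, norm_norm, inv_mul_cancel₀ (norm_ne_zero_iff.2 hw0)]
  have o1 : inner ℝ f e₁ = 0 := by
    rw [he1, inner_smul_right, hw, mul_zero]
  have o1' : inner ℝ e₁ f = 0 := by
    rw [real_inner_comm]
    exact o1
  obtain ⟨e₂, he2⟩ : ∃ e₂ : E3, e₂ = cr f e₁ := ⟨_, rfl⟩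
  have n2 : ‖e₂‖ = 1 := by
    have h1 := norm_cr_sq f e₁
    rw [hf, n1, o1, ← he2] at h1
    have h2 : ‖e₂‖ ^ 2 = 1 := by
      rw [h1]
      norm_num
    exact (pow_eq_one_iff_of_nonneg (norm_nonneg _) two_ne_zero).1 h2
  have o2 : inner ℝ f e₂ = 0 := by
    rw [he2, inner_cr, dt_self12]
  have o3 : inner ℝ e₁ e₂ = 0 := by
    rw [he2, inner_cr, dt_self13]
  have i1 : inner ℝ e₁ e₁ = (1 : ℝ) := by rw [real_inner_self_eq_norm_sq, n1]; norm_num
  have i2 : inner ℝ e₂ e₂ = (1 : ℝ) := by rw [real_inner_self_eq_norm_sq, n2]; norm_num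
  have i0 : inner ℝ f f = (1 : ℝ) := by rw [real_inner_self_eq_norm_sq, hf]; norm_num
  have o2' : inner ℝ e₂ f = 0 := by
    rw [real_inner_comm]
    exact o2
  have o3' : inner ℝ e₂ e₁ = 0 := by
    rw [real_inner_comm]
    exact o3
  have hdt : dt f e₁ e₂ ≠ 0 := by
    rw [← cr_inner, ← he2, i2]
    exact one_ne_zero
  refine ⟨e₁, e₂, n1, n2, o1, o2, o3, ?_, ?_⟩
  · intro x
    rw [← sub_eq_zero]
    apply zero_of_three hdt
    · rw [inner_sub_right, inner_add_right, inner_add_right, inner_smul_right, inner_smul_right,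
        inner_smul_right, i0, o1, o2]
      ring
    · rw [inner_sub_right, inner_add_right, inner_add_right, inner_smul_right, inner_smul_right,
        inner_smul_right, i1, o1', o3]
      ring
    · rw [inner_sub_right, inner_add_right, inner_add_right, inner_smul_right, inner_smul_right,
        inner_smul_right, i2, o2', o3']
      ring
  · intro u v
    have h1 := inner_cr_cr u v e₁ e₂
    have h2 : cr e₁ e₂ = f := by
      rw [he2, cr_cr_right, i1, o1', one_smul, zero_smul, sub_zero]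
    rw [h2, cr_inner, dt_rot f u v] at h1
    rw [h1]
    unfold wd
    ring

end UF.FP
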