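import Pool.Agent.Work.MP_4c5ddc_co.FP.Vli

/-!
# FP/Lng1 (M): disjoint long intervals on a line

PROOF. All points `x t`, `y t` lie on the line `{z | ν · z = h, μ · z = h'}`; with the unit vector `e = ‖cr ν μ‖⁻¹ • cr ν μ` two points `z, z'` of the line satisfy
`z - z' = (e · (z - z')) • e` (`smul_of_orth`), so `dist z z' = |e · z - e · z'|` and a point of the line is between two others iff its value `e · z` is. For `t ∈ T` let `lo t = min (e · x t) (e · y t)`,
`hi t = max ..`, so `hi t - lo t = dist (x t) (y t) ≥ κ δ > 0`. For `t ≠ t'` in `T` the intervals `[lo t, hi t]`, `[lo t', hi t']` are disjoint (a common value is a common point of the convex sets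
`I t`, `I t'`). Let `lo t₀` be the smallest of the `lo t` (if `T` is not empty). For all `t`: `hi t - lo t₀ ≤ δ` (a distance of two of the points). The map `t ↦ ⌊(lo t - lo t₀) / (κ δ)⌋₊` has values in
`{0, ..., ⌊1 / κ⌋₊}` and is injective on `T`: for `lo t < lo t'` one has `hi t < lo t'` (disjoint, `lo t' ≤ hi t` would give a common value), so `lo t' - lo t > κ δ`. Hence
`T.card ≤ ⌊1 / κ⌋₊ + 1`.
-/

set_option autoImplicit false

namespace UF.FP

theorem line_count {κ δ : ℝ} (hκ : 0 < κ) (hδ : 0 < δ) {τ : Type} (T : Finset τ) (I : τ → Set E3)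
    (x y : τ → E3) {ν μ : E3} {h h' : ℝ} (hνμ : cr ν μ ≠ 0) (hc : ∀ t ∈ T, Convex ℝ (I t))
    (hd : ∀ t ∈ T, ∀ t' ∈ T, t ≠ t' → Disjoint (I t) (I t')) (hx : ∀ t ∈ T, x t ∈ I t)
    (hy : ∀ t ∈ T, y t ∈ I t) (h1 : ∀ t ∈ T, inner ℝ ν (x t) = h ∧ inner ℝ μ (x t) = h')
    (h2 : ∀ t ∈ T, inner ℝ ν (y t) = h ∧ inner ℝ μ (y t) = h')
    (h3 : ∀ t ∈ T, κ * δ ≤ dist (x t) (y t))
    (h4 : ∀ t ∈ T, ∀ t' ∈ T, dist (x t) (x t') ≤ δ ∧ dist (x t) (y t') ≤ δ ∧
      dist (y t) (y t') ≤ δ) : T.card ≤ ⌊1 / κ⌋₊ + 1 := by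
  classical
  have hn : 0 < ‖cr ν μ‖ := norm_pos_iff.2 hνμ
  set e : E3 := ‖cr ν μ‖⁻¹ • cr ν μ with he
  have hen : ‖e‖ = 1 := by
    rw [he, norm_smul, norm_inv, norm_norm, inv_mul_cancel₀ hn.ne']
  have hee : inner ℝ e e = (1 : ℝ) := by
    rw [real_inner_self_eq_norm_sq, hen, one_pow]
  -- points of the line
  have hline : ∀ z z' : E3, inner ℝ ν z = h → inner ℝ μ z = h' → inner ℝ ν z' = h →
      inner ℝ μ z' = h' → z - z' = (inner ℝ e z - inner ℝ e z') • e := by
    intro z z' a1 a2 a3 a4
    obtain ⟨t, ht⟩ := smul_of_orth hνμ (x := z - z') (by rw [inner_sub_right, a1, a3, sub_self])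
      (by rw [inner_sub_right, a2, a4, sub_self])
    have h5 : z - z' = (t * ‖cr ν μ‖) • e := by
      rw [he, smul_smul, mul_assoc, mul_inv_cancel₀ hn.ne', mul_one]
      exact ht
    have h6 : inner ℝ e z - inner ℝ e z' = t * ‖cr ν μ‖ := by
      rw [← inner_sub_right, h5, inner_smul_right, hee, mul_one]
    rw [h6]
    exact h5
  have hdist : ∀ z z' : E3, inner ℝ ν z = h → inner ℝ μ z = h' → inner ℝ ν z' = h →
      inner ℝ μ z' = h' → dist z z' = |inner ℝ e z - inner ℝ e z'| := by
    intro z z' a1 a2 a3 a4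
    have h5 : ‖z - z'‖ = ‖(inner ℝ e z - inner ℝ e z') • e‖ := congrArg _ (hline z z' a1 a2 a3 a4)
    rw [dist_eq_norm, h5, norm_smul, hen, mul_one, Real.norm_eq_abs]
  set lo : τ → ℝ := fun t => min (inner ℝ e (x t)) (inner ℝ e (y t)) with hlo
  set hi : τ → ℝ := fun t => max (inner ℝ e (x t)) (inner ℝ e (y t)) with hhi
  have hlen : ∀ t ∈ T, lo t + κ * δ ≤ hi t := by
    intro t ht
    have h5 := h3 t ht
    rw [hdist _ _ (h1 t ht).1 (h1 t ht).2 (h2 t ht).1 (h2 t ht).2] at h5
    have h6 : hi t - lo t = |inner ℝ e (x t) - inner ℝ e (y t)| := by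
      change max (inner ℝ e (x t)) (inner ℝ e (y t)) - min (inner ℝ e (x t)) (inner ℝ e (y t)) = _
      rw [max_sub_min_eq_abs, abs_sub_comm]
    linarith
  -- common values are common points
  have hcov : ∀ t ∈ T, ∀ c : ℝ, lo t ≤ c → c ≤ hi t →
      x t + (c - inner ℝ e (x t)) • e ∈ I t := by
    intro t ht c hc1 hc2
    have hl := hline (y t) (x t) (h2 t ht).1 (h2 t ht).2 (h1 t ht).1 (h1 t ht).2
    by_cases heq : inner ℝ e (y t) = inner ℝ e (x t)
    · have hc3 : c = inner ℝ e (x t) := by
        have e1 : lo t = inner ℝ e (x t) := by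
          change min (inner ℝ e (x t)) (inner ℝ e (y t)) = _
          rw [heq, min_self]
        have e2 : hi t = inner ℝ e (x t) := by
          change max (inner ℝ e (x t)) (inner ℝ e (y t)) = _
          rw [heq, max_self]
        linarith
      rw [hc3, sub_self, zero_smul, add_zero]
      exact hx t ht
    · have hne : inner ℝ e (y t) - inner ℝ e (x t) ≠ 0 := sub_ne_zero.2 heq
      have h5 := (hc t ht).add_smul_sub_mem (hx t ht) (hy t ht)
        (t := (c - inner ℝ e (x t)) / (inner ℝ e (y t) - inner ℝ e (x t))) (by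
          rcases lt_or_gt_of_ne heq with hlt | hgt
          · have e1 : lo t = inner ℝ e (y t) := min_eq_right hlt.le
            have e2 : hi t = inner ℝ e (x t) := max_eq_left hlt.le
            constructor
            · apply div_nonneg_of_nonpos
              · linarith
              · linarith
            · rw [div_le_one_of_neg (by linarith)]
              linarith
          · have e1 : lo t = inner ℝ e (x t) := min_eq_left (le_of_lt hgt)
            have e2 : hi t = inner ℝ e (y t) := max_eq_right (le_of_lt hgt)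
            constructor
            · apply div_nonneg
              · linarith
              · linarith
            · rw [div_le_one (by linarith)]
              linarith)
      rw [hl, smul_smul, div_mul_cancel₀ _ hne] at h5
      exact h5
  have hsep : ∀ t ∈ T, ∀ t' ∈ T, t ≠ t' → lo t ≤ lo t' → lo t + κ * δ < lo t' := by
    intro t ht t' ht' hne hle
    by_contra hcon
    push Not at hcon
    have h5 := hcov t ht (lo t') hle (hcon.trans (hlen t ht))
    have h6 := hcov t' ht' (lo t') le_rfl (by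
      have := hlen t' ht'
      have h7 : 0 < κ * δ := mul_pos hκ hδ
      linarith)
    have h7 : x t + (lo t' - inner ℝ e (x t)) • e = x t' + (lo t' - inner ℝ e (x t')) • e := by
      have h8 := hline (x t) (x t') (h1 t ht).1 (h1 t ht).2 (h1 t' ht').1 (h1 t' ht').2
      have h9 : x t = x t' + (inner ℝ e (x t) - inner ℝ e (x t')) • e := by
        rw [← h8]
        abel
      calc x t + (lo t' - inner ℝ e (x t)) • e =
            x t' + (inner ℝ e (x t) - inner ℝ e (x t')) • e + (lo t' - inner ℝ e (x t)) • e := by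
            rw [← h9]
        _ = _ := by
            rw [add_assoc, ← add_smul]
            congr 2
            ring
    rw [h7] at h5
    exact Set.disjoint_left.1 (hd t ht t' ht' hne) h5 h6
  rcases T.eq_empty_or_nonempty with hT | hT
  · rw [hT, Finset.card_empty]
    exact Nat.zero_le _
  obtain ⟨t₀, ht₀, hmin⟩ := Finset.exists_min_image T lo hT
  have hκδ : 0 < κ * δ := mul_pos hκ hδ
  have hup : ∀ t ∈ T, lo t - lo t₀ ≤ δ := by
    intro t ht
    obtain ⟨d1, d2, d3⟩ := h4 t ht t₀ ht₀
    obtain ⟨-, d4, -⟩ := h4 t₀ ht₀ t ht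
    rw [hdist _ _ (h1 t ht).1 (h1 t ht).2 (h1 t₀ ht₀).1 (h1 t₀ ht₀).2] at d1
    rw [hdist _ _ (h1 t ht).1 (h1 t ht).2 (h2 t₀ ht₀).1 (h2 t₀ ht₀).2] at d2
    have k1 : lo t ≤ inner ℝ e (x t) := min_le_left _ _
    have k2 := (abs_le.1 d1).2
    have k3 := (abs_le.1 d2).2
    rcases min_choice (inner ℝ e (x t₀)) (inner ℝ e (y t₀)) with k4 | k4
    · have k5 : lo t₀ = inner ℝ e (x t₀) := k4
      linarith
    · have k5 : lo t₀ = inner ℝ e (y t₀) := k4
      linarith
  have hcard : T.card ≤ (Finset.range (⌊1 / κ⌋₊ + 1)).card := by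
    refine Finset.card_le_card_of_injOn (fun t => ⌊(lo t - lo t₀) / (κ * δ)⌋₊) ?_ ?_
    · intro t ht
      rw [Finset.mem_coe, Finset.mem_range]
      refine Nat.lt_succ_of_le (Nat.floor_le_floor ?_)
      rw [div_le_div_iff₀ hκδ hκ, one_mul]
      have := hup t ht
      nlinarith
    · have key : ∀ t ∈ T, ∀ t' ∈ T, lo t ≤ lo t' →
          ⌊(lo t - lo t₀) / (κ * δ)⌋₊ = ⌊(lo t' - lo t₀) / (κ * δ)⌋₊ → t = t' := by
        intro t ht t' ht' hle heq
        by_contra hne
        have h5 := hsep t ht t' ht' hne hle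
        have h6 : (lo t - lo t₀) / (κ * δ) + 1 < (lo t' - lo t₀) / (κ * δ) := by
          rw [← sub_pos, ← sub_sub, ← sub_div]
          have h7 : 1 < (lo t' - lo t₀ - (lo t - lo t₀)) / (κ * δ) := by
            rw [one_lt_div hκδ]
            linarith
          linarith
        have h7 : 0 ≤ (lo t - lo t₀) / (κ * δ) :=
          div_nonneg (sub_nonneg.2 (hmin t ht)) hκδ.le
        have h8 := Nat.floor_le h7
        have h9 := Nat.lt_floor_add_one ((lo t' - lo t₀) / (κ * δ))
        rw [← heq] at h9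
        linarith
      intro t ht t' ht' heq
      rcases le_total (lo t) (lo t') with hle | hle
      · exact key t ht t' ht' hle heq
      · exact (key t' ht' t ht hle heq.symm).symm
  rwa [Finset.card_range] at hcard

end UF.FP
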