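import Pool.Agent.Work.MP_4c5ddc_co.FP.Vec

/-!
# FP/Sym (M): the symmetries of `Lin`, `Cube`, `Frm`, `Fr`, `Aln`

PROOF. Permute the fields. The determinants change by a sign or are equal (`dt_swap12`, `dt_rot`,
`dt_swap23`), products of two of them are unchanged. For the flip note that `1 - (0 : Fin 2) = 1`,
`1 - (1 : Fin 2) = 0`, `1 - (1 - i) = i`; a quantifier over `i : Fin 2` can be moved with `i := 1 - i`;
`six (flp a) b c (flp A) B C = six a b c A B C`. `Frm`: swap the roles of `m, m'`;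
`Cmp` is symmetric because `dt f y z = - dt f z y`; `|dt f (y 1) (y 0)| = |dt f (y 0) (y 1)|`;
`sc m f (flp y) j = sc m f y (1 - j)`. The sign changes of `ga, gb, gc` in `Aln` do not change absolute
values and norms (`norm_neg`, `cr_smul_left` with `-1`).
-/

set_option autoImplicit false

namespace UF.FP

private theorem one_sub_zero' : (1 - 0 : Fin 2) = 1 := rfl

private theorem one_sub_one' : (1 - 1 : Fin 2) = 0 := rfl

private theorem flp0 {X : Type*} (x : Fin 2 → X) : flp x 0 = x 1 := rfl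

private theorem flp1 {X : Type*} (x : Fin 2 → X) : flp x 1 = x 0 := rfl

private theorem flpflp (i : Fin 2) : (1 - (1 - i) : Fin 2) = i := by
  fin_cases i <;> rfl

private theorem allf {P : Fin 2 → Prop} (h : ∀ i, P (1 - i)) : ∀ i, P i := fun i => by
  have := h (1 - i)
  rwa [flpflp] at this

private theorem dtp (u u' v v' w w' : E3) : dt v u w * dt v' u' w' = dt u v w * dt u' v' w' := by
  rw [dt_swap12 u v w, dt_swap12 u' v' w']
  ring

private theorem six_flip (a b c : Fin 2 → E3) (A B C : Fin 2 → ℝ) :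
    six (flp a) b c (flp A) B C = six a b c A B C := by
  ext x
  constructor
  · rintro ⟨h1, h2, h3⟩
    exact ⟨allf h1, h2, h3⟩
  · rintro ⟨h1, h2, h3⟩
    exact ⟨fun i => h1 (1 - i), h2, h3⟩

private theorem six_swap {a b c : Fin 2 → E3} {A B C : Fin 2 → ℝ} {x : E3}
    (h : x ∈ six b a c B A C) : x ∈ six a b c A B C :=
  ⟨h.2.1, h.1, h.2.2⟩

private theorem six_rot {a b c : Fin 2 → E3} {A B C : Fin 2 → ℝ} {x : E3}
    (h : x ∈ six b c a B C A) : x ∈ six a b c A B C :=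
  ⟨h.2.2, h.1, h.2.1⟩

private theorem Rg.flip {m : ℝ} {x : Fin 2 → E3} {g : E3} (h : Rg m x g) : Rg m (flp x) g :=
  ⟨fun i => h.u (1 - i), h.ug, fun i => h.o (1 - i), by
    rw [flp0, flp1, norm_cr_comm]
    exact h.low⟩

private theorem Rg.neg {m : ℝ} {x : Fin 2 → E3} {g : E3} (h : Rg m x g) : Rg m x (-g) :=
  ⟨h.u, by rw [norm_neg]; exact h.ug, fun i => by rw [inner_neg_right, h.o, neg_zero], h.low⟩

private theorem cr_neg_left' (u v : E3) : ‖cr (-u) v‖ = ‖cr u v‖ := by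
  have := cr_smul_left (-1) u v
  rw [neg_smul, one_smul, neg_smul, one_smul] at this
  rw [this, norm_neg]

private theorem cr_neg_right' (u v : E3) : ‖cr u (-v)‖ = ‖cr u v‖ := by
  rw [norm_cr_comm, cr_neg_left', norm_cr_comm]

theorem Lin.swap {a b c : Fin 2 → E3} (h : Lin a b c) : Lin b a c := by
  refine ⟨h.ub, h.ua, h.uc, ?_, ?_, ?_, ?_, ?_, ?_, ?_⟩
  · intro i k
    rw [dtp]
    exact h.sb i k
  · intro j k
    rw [dtp]
    exact h.sa j k
  · intro j i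
    rw [dtp]
    exact h.sc i j
  · exact fun v hv h1 h2 h3 => h.bd v hv h2 h1 h3
  · exact fun v h1 h2 h3 => h.nb v h2 h1 h3
  · exact fun v h1 h2 h3 => h.na v h2 h1 h3
  · exact fun v h1 h2 h3 => h.nc v h2 h1 h3

theorem Lin.rot {a b c : Fin 2 → E3} (h : Lin a b c) : Lin b c a := by
  refine ⟨h.ub, h.uc, h.ua, ?_, ?_, ?_, ?_, ?_, ?_, ?_⟩
  · intro k i
    rw [dt_rot (a i) (b 0) (c k), dt_rot (a i) (b 1) (c k)]
    exact h.sb i k
  · intro j i
    rw [dt_rot (a i) (b j) (c 0), dt_rot (a i) (b j) (c 1)]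
    exact h.sc i j
  · intro j k
    rw [dt_rot (a 0) (b j) (c k), dt_rot (a 1) (b j) (c k)]
    exact h.sa j k
  · exact fun v hv h1 h2 h3 => h.bd v hv h3 h1 h2
  · exact fun v h1 h2 h3 => h.nb v h3 h1 h2
  · exact fun v h1 h2 h3 => h.nc v h3 h1 h2
  · exact fun v h1 h2 h3 => h.na v h3 h1 h2

theorem Lin.flip {a b c : Fin 2 → E3} (h : Lin a b c) : Lin (flp a) b c := by
  refine ⟨fun i => h.ua (1 - i), h.ub, h.uc, ?_, ?_, ?_, ?_, ?_, ?_, ?_⟩
  · intro j k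
    rw [flp0, flp1, mul_comm]
    exact h.sa j k
  · exact fun i k => h.sb (1 - i) k
  · exact fun i j => h.sc (1 - i) j
  · exact fun v hv h1 h2 h3 => h.bd v hv (allf h1) h2 h3
  · exact fun v h1 h2 h3 => h.na v (allf h1) h2 h3
  · exact fun v h1 h2 h3 => h.nb v (allf h1) h2 h3
  · exact fun v h1 h2 h3 => h.nc v (allf h1) h2 h3

theorem Cube.swap {a b c : Fin 2 → E3} {A B C : Fin 2 → ℝ} {p : Fin 2 → Fin 2 → Fin 2 → E3}
    (h : Cube a b c A B C p) : Cube b a c B A C (fun j i k => p i j k) := by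
  exact ⟨h.lin.swap, fun j i k => h.tb i j k, fun j i k => h.ta i j k, fun j i k => h.tc i j k,
    fun j j' i k hj => h.lb i j j' k hj, fun j i i' k hi => h.la i i' j k hi,
    fun j i k k' hk => h.lc i j k k' hk, fun x hx => h.rb x (six_swap hx),
    fun x hx => h.ra x (six_swap hx), fun x hx => h.rc x (six_swap hx)⟩

theorem Cube.rot {a b c : Fin 2 → E3} {A B C : Fin 2 → ℝ} {p : Fin 2 → Fin 2 → Fin 2 → E3}
    (h : Cube a b c A B C p) : Cube b c a B C A (fun j k i => p i j k) := by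
  exact ⟨h.lin.rot, fun j k i => h.tb i j k, fun j k i => h.tc i j k, fun j k i => h.ta i j k,
    fun j j' k i hj => h.lb i j j' k hj, fun j k k' i hk => h.lc i j k k' hk,
    fun j k i i' hi => h.la i i' j k hi, fun x hx => h.rb x (six_rot hx),
    fun x hx => h.rc x (six_rot hx), fun x hx => h.ra x (six_rot hx)⟩

theorem Cube.flip {a b c : Fin 2 → E3} {A B C : Fin 2 → ℝ} {p : Fin 2 → Fin 2 → Fin 2 → E3}
    (h : Cube a b c A B C p) : Cube (flp a) b c (flp A) B C (fun i j k => p (1 - i) j k) := by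
  refine ⟨h.lin.flip, fun i j k => h.ta (1 - i) j k, fun i j k => h.tb (1 - i) j k,
    fun i j k => h.tc (1 - i) j k, ?_, fun i j j' k hj => h.lb (1 - i) j j' k hj,
    fun i j k k' hk => h.lc (1 - i) j k k' hk, ?_, ?_, ?_⟩
  · intro i i' j k hi
    refine h.la (1 - i) (1 - i') j k ?_
    intro h1
    apply hi
    rw [← flpflp i', h1, flpflp]
  · intro x hx h1 h2
    rw [six_flip] at hx
    exact h.ra x hx h2 h1
  · intro x hx h1 h2
    rw [six_flip] at hx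
    exact h.rb x hx h1 h2
  · intro x hx h1 h2
    rw [six_flip] at hx
    exact h.rc x hx h1 h2

theorem Frm.symm {K : ℝ} {f : E3} {y z : Fin 2 → E3} (h : Frm K f y z) : Frm K f z y := by
  obtain ⟨m, m', h⟩ := h
  refine ⟨m', m, ?_⟩
  intro k j
  have h1 := h j k
  have h2 : sc m' f z k * sc m f y j * dt f (z k) (y j) =
      -(sc m f y j * sc m' f z k * dt f (y j) (z k)) := by
    rw [dt_swap23 f (y j) (z k)]
    ring
  have h3 : |sc m' f z 0 * sc m' f z 1 * dt f (z 0) (z 1)| *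
      |sc m f y 0 * sc m f y 1 * dt f (y 0) (y 1)| =
      |sc m f y 0 * sc m f y 1 * dt f (y 0) (y 1)| *
      |sc m' f z 0 * sc m' f z 1 * dt f (z 0) (z 1)| := mul_comm _ _
  rw [h2, neg_sq, h3]
  exact h1

theorem Frm.flip {K : ℝ} {f : E3} {y z : Fin 2 → E3} (h : Frm K f (flp y) z) : Frm K f y z := by
  obtain ⟨m, m', h⟩ := h
  refine ⟨m, m', ?_⟩
  have hsc : ∀ j, sc m f (flp y) j = sc m f y (1 - j) := fun j => rfl
  intro j k
  have h1 := h (1 - j) k
  rw [hsc, hsc, hsc, flpflp, one_sub_zero', one_sub_one'] at h1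
  have h2 : flp y (1 - j) = y j := by
    change y (1 - (1 - j)) = y j
    rw [flpflp]
  rw [h2, flp0, flp1, dt_swap23 f (y 0) (y 1), mul_neg, abs_neg, mul_comm (sc m f y 1)] at h1
  exact h1

theorem Frm.mono {K K' : ℝ} {f : E3} {y z : Fin 2 → E3} (h : Frm K f y z) (hK : K ≤ K') :
    Frm K' f y z := by
  obtain ⟨m, m', h⟩ := h
  exact ⟨m, m', fun j k => (h j k).trans (mul_le_mul_of_nonneg_right hK (by positivity))⟩

theorem Fr.swap {K : ℝ} {a b c : Fin 2 → E3} (h : Fr K b a c) : Fr K a b c := by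
  rcases h with ⟨i, h⟩ | ⟨i, h⟩ | ⟨i, h⟩
  · exact Or.inr (Or.inl ⟨i, h⟩)
  · exact Or.inl ⟨i, h⟩
  · exact Or.inr (Or.inr ⟨i, h.symm⟩)

theorem Fr.rot {K : ℝ} {a b c : Fin 2 → E3} (h : Fr K b c a) : Fr K a b c := by
  rcases h with ⟨i, h⟩ | ⟨i, h⟩ | ⟨i, h⟩
  · exact Or.inr (Or.inl ⟨i, h.symm⟩)
  · exact Or.inr (Or.inr ⟨i, h.symm⟩)
  · exact Or.inl ⟨i, h⟩

theorem Fr.flip {K : ℝ} {a b c : Fin 2 → E3} (h : Fr K (flp a) b c) : Fr K a b c := by
  rcases h with ⟨i, h⟩ | ⟨i, h⟩ | ⟨i, h⟩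
  · exact Or.inl ⟨1 - i, h⟩
  · exact Or.inr (Or.inl ⟨i, h.flip⟩)
  · exact Or.inr (Or.inr ⟨i, h.flip⟩)

theorem Fr.mono {K K' : ℝ} {a b c : Fin 2 → E3} (h : Fr K a b c) (hK : K ≤ K') : Fr K' a b c := by
  rcases h with ⟨i, h⟩ | ⟨i, h⟩ | ⟨i, h⟩
  · exact Or.inl ⟨i, h.mono hK⟩
  · exact Or.inr (Or.inl ⟨i, h.mono hK⟩)
  · exact Or.inr (Or.inr ⟨i, h.mono hK⟩)

theorem Aln.rot {m κ w : ℝ} {a b c : Fin 2 → E3} {ga gb gc : E3}
    (h : Aln m κ w a b c ga gb gc) : Aln m κ w b c a gb gc ga := by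
  exact ⟨h.rgb, h.rgc, h.rga, h.wpos, h.bc, h.ca, h.ab, h.b0, h.b1, h.c0, h.c1, h.a0, h.a1⟩

theorem Aln.refl {m κ w : ℝ} {a b c : Fin 2 → E3} {ga gb gc : E3}
    (h : Aln m κ w a b c ga gb gc) : Aln m κ w (flp b) (flp a) (flp c) gb ga gc := by
  refine ⟨h.rgb.flip, h.rga.flip, h.rgc.flip, h.wpos, ?_, ?_, ?_, h.b1, h.b0, h.a1, h.a0, h.c1, h.c0⟩
  · rw [norm_cr_comm]
    exact h.ab
  · rw [norm_cr_comm]
    exact h.ca
  · rw [norm_cr_comm]
    exact h.bc

theorem Aln.negb {m κ w : ℝ} {a b c : Fin 2 → E3} {ga gb gc : E3}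
    (h : Aln m κ w a b c ga gb gc) : Aln m κ w a b c ga (-gb) gc := by
  refine ⟨h.rga, h.rgb.neg, h.rgc, h.wpos, ?_, ?_, h.ca, ?_, h.a1, h.b0, h.b1, h.c0, ?_⟩
  · rw [cr_neg_right']
    exact h.ab
  · rw [cr_neg_left']
    exact h.bc
  · rw [inner_neg_right, abs_neg]
    exact h.a0
  · rw [inner_neg_right, abs_neg]
    exact h.c1

theorem Aln.negc {m κ w : ℝ} {a b c : Fin 2 → E3} {ga gb gc : E3}
    (h : Aln m κ w a b c ga gb gc) : Aln m κ w a b c ga gb (-gc) := by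
  refine ⟨h.rga, h.rgb, h.rgc.neg, h.wpos, h.ab, ?_, ?_, h.a0, ?_, ?_, h.b1, h.c0, h.c1⟩
  · rw [cr_neg_right']
    exact h.bc
  · rw [cr_neg_left']
    exact h.ca
  · rw [inner_neg_right, abs_neg]
    exact h.a1
  · rw [inner_neg_right, abs_neg]
    exact h.b0

end UF.FP
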