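import Pool.Agent.Work.MP_4c5ddc_co.FP.Nfl
import Pool.Agent.Work.MP_4c5ddc_co.FP.CmpN
import Pool.Agent.Work.MP_4c5ddc_co.FP.Sym

/-!
# FP/Ndl (M): needles have comparable frames

All distances of vertices are at most `δ`, the body `a` is a slab (`a 0 · (p 0 j k' - p 1 j k') ≥ k δ`), `b, c` are wedges, and the edges
`p i j 0, p i j 1` and `p i 0 k', p i 1 k'` are short.

PROOF. `b 0 ≠ b 1`, more precisely `cr (b 0) (b 1) ≠ 0` and `cr (c 0) (c 1) ≠ 0`: by `norm_cr_eq` and the wedge condition it is enough that `c 0 ≠ c 1`, which follows from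
`Lin.sc`. Let `gc` be a unit vector orthogonal to `c 0, c 1` (`Rg` with `m = ‖cr (c 0) (c 1)‖`, `exists_rg`), `X = ‖cr (c 0) (c 1)‖`.
`side` (for `c`): let `v = p i j 0 - p i j 1`: `c 0 · v = s' > 0` (`c 0` is tight at `p i j 0`), `c 1 · v = - s < 0`. `‖cr (cr (c 0) (c 1)) v‖ = ‖s' • c 1 + s • c 0‖` (`cr_cr_left`) `≥ (s + s') ‖c 0 + c 1‖ / 2` (inner product
with `(c 0 + c 1) / ‖c 0 + c 1‖`, `inner (c 0) (c 0 + c 1) = ‖c 0 + c 1‖ ^ 2 / 2`) and it is `≤ X ‖v‖ ≤ X (k ^ 2 / 8) δ`. So `s, s' ≤ X (k / 4) δ`. Here `s` is the slack of `p i j 0` at `c 1` and `s'` the slack of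
`p i j 1` at `c 0`. Now `v = p 0 j k' - p 1 j k'`: one of `c 0 · v, c 1 · v` is `0` (`c k'` is tight at both), the other one is a difference of two slacks in `[0, X (k / 4) δ]`. So `‖cr (cr (c 0) (c 1)) v‖ ≤ X (k / 4) δ`
(`cr_cr_left`), so `‖cr gc v‖ ≤ (k / 4) δ` (`cr_eq_smul`). `v = (v · gc) • gc + v'`, `‖v'‖ = ‖cr v gc‖ ≤ (k / 4) δ`, `|v · gc| ≤ ‖v‖ ≤ δ`, `a 0 · v ≥ k δ`: so
`|a 0 · gc| δ ≥ (3 / 4) k δ`, `|a 0 · gc| ≥ k / 2`. Similarly `|a 0 · gb| ≥ k / 2`.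
By `nfl` with `f = a 0`, `k₁ = k / 2` (and for `b, c` exchanged): `‖b 0 - b 1‖ ≥ k ^ 5 / 256`, `‖c 0 - c 1‖ ≥ k ^ 5 / 256`, so by `norm_cr_eq` both cross products have norm
`≥ k ^ 6 / 512 = m`. `Nn (k / 2) (a 0) gb gc` (`‖cr gb gc‖ ≤ 1`). `cmp_of_N`.
-/

set_option autoImplicit false

namespace UF.FP

private theorem ndlSlack {k δ : ℝ} (hk : 0 < k) {x y P Q : E3} {X Y : ℝ} (hx : ‖x‖ = 1) (hy : ‖y‖ = 1)
    (hxy : k ≤ ‖x + y‖) (hP : inner ℝ x P = X) (hQ : inner ℝ y Q = Y) (hQx : inner ℝ x Q < X)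
    (hPy : inner ℝ y P < Y) (hd : dist P Q ≤ k ^ 2 / 8 * δ) :
    Y - inner ℝ y P ≤ ‖cr x y‖ * (k / 4 * δ) := by
  obtain ⟨v, hv⟩ : ∃ v : E3, v = P - Q := ⟨_, rfl⟩
  have e1 : inner ℝ x v = X - inner ℝ x Q := by rw [hv, inner_sub_right, hP]
  have e2 : inner ℝ y v = -(Y - inner ℝ y P) := by rw [hv, inner_sub_right, hQ]; ring
  obtain ⟨s, hs⟩ : ∃ s : ℝ, s = Y - inner ℝ y P := ⟨_, rfl⟩
  obtain ⟨s', hs'⟩ : ∃ s' : ℝ, s' = X - inner ℝ x Q := ⟨_, rfl⟩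
  have hs0 : 0 < s := by rw [hs]; linarith
  have hs'0 : 0 < s' := by rw [hs']; linarith
  rw [← hs'] at e1
  rw [← hs] at e2
  have e3 : cr (cr x y) v = s' • y + s • x := by
    rw [cr_cr_left, e1, e2, neg_smul, sub_neg_eq_add]
  have hv1 : ‖cr (cr x y) v‖ ≤ ‖cr x y‖ * (k ^ 2 / 8 * δ) := by
    refine (norm_cr_le _ _).trans (mul_le_mul_of_nonneg_left ?_ (norm_nonneg _))
    rw [hv, ← dist_eq_norm]
    exact hd
  have hn : ‖x + y‖ ^ 2 = 2 + 2 * inner ℝ x y := by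
    rw [norm_add_sq_real, hx, hy]; ring
  have hin : inner ℝ (cr (cr x y) v) (x + y) = (s + s') * (‖x + y‖ ^ 2 / 2) := by
    rw [e3, inner_add_right, inner_add_left, inner_add_left, inner_smul_left, inner_smul_left,
      inner_smul_left, inner_smul_left, real_inner_self_eq_norm_sq, real_inner_self_eq_norm_sq,
      hx, hy, hn, real_inner_comm y x]
    simp only [conj_trivial]
    rw [real_inner_comm x y]
    ring
  have hxy0 : 0 < ‖x + y‖ := by linarith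
  have hcs : (s + s') * (‖x + y‖ ^ 2 / 2) ≤ ‖cr (cr x y) v‖ * ‖x + y‖ := by
    rw [← hin]; exact real_inner_le_norm _ _
  have h5 : (s + s') * (‖x + y‖ / 2) ≤ ‖cr (cr x y) v‖ := by
    refine le_of_mul_le_mul_right ?_ hxy0
    calc (s + s') * (‖x + y‖ / 2) * ‖x + y‖ = (s + s') * (‖x + y‖ ^ 2 / 2) := by ring
      _ ≤ _ := hcs
  have h6 : s * (k / 2) ≤ ‖cr x y‖ * (k ^ 2 / 8 * δ) := by
    refine le_trans ?_ (h5.trans hv1)
    have : s * (k / 2) ≤ (s + s') * (k / 2) := by nlinarith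
    refine this.trans ?_
    exact mul_le_mul_of_nonneg_left (by linarith) (by linarith)
  rw [← hs]
  have h7 : 0 < k / 2 := by linarith
  refine le_of_mul_le_mul_right ?_ h7
  calc s * (k / 2) ≤ ‖cr x y‖ * (k ^ 2 / 8 * δ) := h6
    _ = ‖cr x y‖ * (k / 4 * δ) * (k / 2) := by ring

private theorem ndlSide {k δ : ℝ} (hk : 0 < k) (hδ : 0 < δ) {f x y g P0 P1 Q0 Q1 : E3}
    {X Y : ℝ} (hf : ‖f‖ = 1) (hx : ‖x‖ = 1) (hy : ‖y‖ = 1) (hg : ‖g‖ = 1) (hxg : inner ℝ x g = 0)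
    (hyg : inner ℝ y g = 0) (hcr : cr x y ≠ 0) (hxy : k ≤ ‖x + y‖)
    (hP0 : inner ℝ x P0 = X) (hP1 : inner ℝ x P1 = X) (hQ0 : inner ℝ y Q0 = Y)
    (hQ1 : inner ℝ y Q1 = Y) (hQ0x : inner ℝ x Q0 < X) (hQ1x : inner ℝ x Q1 < X)
    (hP0y : inner ℝ y P0 < Y) (hP1y : inner ℝ y P1 < Y) (hd0 : dist P0 Q0 ≤ k ^ 2 / 8 * δ)
    (hd1 : dist P1 Q1 ≤ k ^ 2 / 8 * δ) (hd : dist P0 P1 ≤ δ) (hw : k * δ ≤ inner ℝ f (P0 - P1)) :
    k / 2 ≤ |inner ℝ f g| := by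
  have s0 := ndlSlack hk hx hy hxy hP0 hQ0 hQ0x hP0y hd0
  have s1 := ndlSlack hk hx hy hxy hP1 hQ1 hQ1x hP1y hd1
  obtain ⟨v, hv⟩ : ∃ v : E3, v = P0 - P1 := ⟨_, rfl⟩
  have e1 : inner ℝ x v = 0 := by rw [hv, inner_sub_right, hP0, hP1, sub_self]
  have e2 : |inner ℝ y v| ≤ ‖cr x y‖ * (k / 4 * δ) := by
    rw [hv, inner_sub_right, abs_le]
    constructor <;> linarith
  have hX : 0 < ‖cr x y‖ := norm_pos_iff.2 hcr
  have h1 := norm_cr_mul hx hy hg hxg hyg v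
  rw [e1, abs_zero, zero_add] at h1
  have h2 : ‖cr v g‖ ≤ k / 4 * δ := le_of_mul_le_mul_left (h1.trans e2) hX
  have hvn : ‖v‖ ≤ δ := by rw [hv, ← dist_eq_norm]; exact hd
  obtain ⟨w, hw'⟩ : ∃ w : E3, w = v - (inner ℝ v g : ℝ) • g := ⟨_, rfl⟩
  have hwn : ‖w‖ = ‖cr v g‖ := by
    have h3 : ‖w‖ ^ 2 = ‖cr v g‖ ^ 2 := by
      rw [norm_cr_sq, hg, hw', norm_sub_sq_real, inner_smul_right, norm_smul, hg, mul_one,
        Real.norm_eq_abs, sq_abs]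
      ring
    exact (pow_left_inj₀ (norm_nonneg _) (norm_nonneg _) (by norm_num)).1 h3
  have h4 : inner ℝ f v = inner ℝ v g * inner ℝ f g + inner ℝ f w := by
    rw [hw', inner_sub_right, inner_smul_right]
    ring
  have h5 : inner ℝ f w ≤ k / 4 * δ := by
    refine (real_inner_le_norm f w).trans ?_
    rw [hf, one_mul, hwn]
    exact h2
  have h6 : inner ℝ v g * inner ℝ f g ≤ δ * |inner ℝ f g| := by
    calc inner ℝ v g * inner ℝ f g ≤ |inner ℝ v g * inner ℝ f g| := le_abs_self _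
      _ = |inner ℝ v g| * |inner ℝ f g| := abs_mul _ _
      _ ≤ δ * |inner ℝ f g| := by
        refine mul_le_mul_of_nonneg_right ?_ (abs_nonneg _)
        refine (abs_real_inner_le_norm v g).trans ?_
        rw [hg, mul_one]
        exact hvn
  rw [← hv] at hw
  have h7 : k * δ ≤ δ * |inner ℝ f g| + k / 4 * δ := by linarith
  have h8 : (k / 2) * δ ≤ |inner ℝ f g| * δ := by nlinarith
  exact le_of_mul_le_mul_right h8 hδ

private theorem ndlNe {k : ℝ} (hk : 0 < k) {x y : E3} (hx : ‖x‖ = 1) (hy : ‖y‖ = 1)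
    (hxy : k ≤ ‖x + y‖) (hne : x ≠ y) : cr x y ≠ 0 := by
  intro h
  have := norm_cr_eq hx hy
  rw [h, norm_zero] at this
  have h1 : 0 < ‖x - y‖ := norm_pos_iff.2 (sub_ne_zero.2 hne)
  have h2 : 0 < ‖x + y‖ := by linarith
  have := mul_pos h1 h2
  linarith

theorem needle {k : ℝ} (hk : 0 < k) (hk1 : k ≤ 1) : ∃ K : ℝ, ∀ (a b c : Fin 2 → E3)
    (A B C : Fin 2 → ℝ) (p : Fin 2 → Fin 2 → Fin 2 → E3) (δ : ℝ), Cube a b c A B C p → 0 < δ →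
    (∀ i j l i' j' l', dist (p i j l) (p i' j' l') ≤ δ) →
    (∀ j l, k * δ ≤ inner ℝ (a 0) (p 0 j l - p 1 j l)) → k ≤ ‖b 0 + b 1‖ → k ≤ ‖c 0 + c 1‖ →
    (∀ i j, dist (p i j 0) (p i j 1) ≤ k ^ 2 / 8 * δ) →
    (∀ i l, dist (p i 0 l) (p i 1 l) ≤ k ^ 2 / 8 * δ) → Frm K (a 0) b c := by
  refine ⟨(1 + 1 / (k / 2)) ^ 2 / (k ^ 6 / 512) ^ 2, ?_⟩
  intro a b c A B C p δ h hδ hdist hslab hb hc hdc hdb
  have hL := h.lin
  have hcne : c 0 ≠ c 1 := by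
    intro e
    have := hL.sc 0 0
    rw [e] at this
    nlinarith [mul_self_nonneg (dt (a 0) (b 0) (c 1))]
  have hbne : b 0 ≠ b 1 := by
    intro e
    have := hL.sb 0 0
    rw [e] at this
    nlinarith [mul_self_nonneg (dt (a 0) (b 1) (c 0))]
  have hccr := ndlNe hk (hL.uc 0) (hL.uc 1) hc hcne
  have hbcr := ndlNe hk (hL.ub 0) (hL.ub 1) hb hbne
  obtain ⟨gc, hgc⟩ := exists_rg hL.uc (norm_pos_iff.2 hccr) le_rfl
  obtain ⟨gb, hgb⟩ := exists_rg hL.ub (norm_pos_iff.2 hbcr) le_rfl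
  have fc : k / 2 ≤ |inner ℝ (a 0) gc| :=
    ndlSide hk hδ (hL.ua 0) (hL.uc 0) (hL.uc 1) hgc.ug (hgc.o 0) (hgc.o 1) hccr hc
      (P0 := p 0 0 0) (P1 := p 1 0 0) (Q0 := p 0 0 1) (Q1 := p 1 0 1)
      (h.tc 0 0 0) (h.tc 1 0 0) (h.tc 0 0 1) (h.tc 1 0 1)
      (h.lc 0 0 1 0 (by decide)) (h.lc 1 0 1 0 (by decide)) (h.lc 0 0 0 1 (by decide))
      (h.lc 1 0 0 1 (by decide)) (hdc 0 0) (hdc 1 0) (hdist 0 0 0 1 0 0) (hslab 0 0)
  have fb : k / 2 ≤ |inner ℝ (a 0) gb| :=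
    ndlSide hk hδ (hL.ua 0) (hL.ub 0) (hL.ub 1) hgb.ug (hgb.o 0) (hgb.o 1) hbcr hb
      (P0 := p 0 0 0) (P1 := p 1 0 0) (Q0 := p 0 1 0) (Q1 := p 1 1 0)
      (h.tb 0 0 0) (h.tb 1 0 0) (h.tb 0 1 0) (h.tb 1 1 0)
      (h.lb 0 1 0 0 (by decide)) (h.lb 1 1 0 0 (by decide)) (h.lb 0 0 1 0 (by decide))
      (h.lb 1 0 1 0 (by decide)) (hdb 0 0) (hdb 1 0) (hdist 0 0 0 1 0 0) (hslab 0 0)
  have hk2 : 0 < k / 2 := by linarith
  have hB := nfl (c := c) hk hk2 (hL.ua 0) hL.ub hL.uc hgb.ug hgc.ug hgb.o hgc.o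
    (fun i => hL.sb 0 i) (fun j => hL.sc 0 j) fb fc hc
  have hC := nfl (c := b) hk hk2 (hL.ua 0) hL.uc hL.ub hgc.ug hgb.ug hgc.o hgb.o
    (fun i => by
      rw [dt_swap23 (a 0) (b i) (c 0), dt_swap23 (a 0) (b i) (c 1), neg_mul_neg]
      exact hL.sc 0 i)
    (fun j => by
      rw [dt_swap23 (a 0) (b 0) (c j), dt_swap23 (a 0) (b 1) (c j), neg_mul_neg]
      exact hL.sb 0 j) fc fb hb
  have hm : 0 < k ^ 6 / 512 := by positivity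
  have low : ∀ x y : E3, ‖x‖ = 1 → ‖y‖ = 1 → k ≤ ‖x + y‖ → (k / 2) ^ 4 * k / 16 ≤ ‖x - y‖ →
      k ^ 6 / 512 ≤ ‖cr x y‖ := by
    intro x y hx hy h1 h2
    rw [norm_cr_eq hx hy]
    calc k ^ 6 / 512 = ((k / 2) ^ 4 * k / 16) * k / 2 := by ring
      _ ≤ ‖x - y‖ * ‖x + y‖ / 2 := by
        refine div_le_div_of_nonneg_right ?_ (by norm_num)
        exact mul_le_mul h2 h1 hk.le (norm_nonneg _)
  have hRb : Rg (k ^ 6 / 512) b gb :=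
    ⟨hL.ub, hgb.ug, hgb.o, low _ _ (hL.ub 0) (hL.ub 1) hb hB⟩
  have hRc : Rg (k ^ 6 / 512) c gc :=
    ⟨hL.uc, hgc.ug, hgc.o, low _ _ (hL.uc 0) (hL.uc 1) hc hC⟩
  have hcrle : ‖cr gb gc‖ ≤ 1 := by
    have := norm_cr_le gb gc
    rwa [hgb.ug, hgc.ug, mul_one] at this
  have hN : Nn (k / 2) (a 0) gb gc := by
    constructor
    · nlinarith
    · nlinarith
  have _ := hk1
  exact cmp_of_N hm hk2 (hL.ua 0) hRb hRc hN

end UF.FP
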