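import Pool.Agent.Work.MP_4c5ddc_co.FP.Vin

/-!
# FP/Nfl (M): in a needle the two wedges are not flat

Here `f` is a unit vector, `‖c 0 + c 1‖ ≥ k`, the determinants `dt f (b j) (c i)` alternate.

PROOF. Suppose `β = ‖b 0 - b 1‖ < k₁ ^ 4 * k / 16`. (`k, k₁ ≤ 2`; note `k₁ ≤ 1` as `|f · gb| ≤ 1`.)
(1) `|dt f (b j) (c i)| ≤ β` for all `j, i`: for fixed `i` the numbers for `j = 0, 1` have opposite signs and their difference is `dt f (b 0 - b 1) (c i)`.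
(2) `cr (cr (c 0) f) (cr (c 1) f) = ± (inner f (cr (c 0) (c 1))) • f` (`cr_cr_right`, `dt`), so
`|f · cr (c 0) (c 1)| * ‖cr (b 0) f‖ = ‖cr (b 0) (cr (cr (c 0) f) (cr (c 1) f))‖ ≤ |dt (b 0) (c 1) f| + |dt (b 0) (c 0) f| ≤ 2 β`. `‖cr (b 0) f‖ ≥ |f · gb| ≥ k₁` (`abs_inner_le_cr` for
`u = gb`, `g = b 0`) and `|f · cr (c 0) (c 1)| = ‖cr (c 0) (c 1)‖ * |f · gc| ≥ k₁ ‖cr (c 0) (c 1)‖`. So `‖cr (c 0) (c 1)‖ ≤ 2 β / k₁ ^ 2`, and by `norm_cr_eq`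
`‖c 0 - c 1‖ ≤ 4 β / (k₁ ^ 2 k) < k₁ ^ 2 / 4`.
(3) `e j i = inner (cr f (b j)) (cr f (c i))`. `(e 0 i) ^ 2 = ‖cr f (b 0)‖ ^ 2 ‖cr f (c i)‖ ^ 2 - (dt f (b 0) (c i)) ^ 2 ≥ k₁ ^ 4 - β ^ 2 ≥ k₁ ^ 4 / 4` (norm of `cr (cr f (b 0)) (cr f (c i)) = ± dt .. • f`, `norm_cr_sq`), so
`|e 0 i| ≥ k₁ ^ 2 / 2`; `|e 0 0 - e 0 1| ≤ ‖c 0 - c 1‖ < k₁ ^ 2 / 4`, so `e 0 0`, `e 0 1` have the same sign.
(4) `g = inner (cr f (b 0)) (cr f (b 1)) ≥ ‖cr f (b 0)‖ ^ 2 - β ≥ k₁ ^ 2 - β > 0`.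
(5) By `planar` with `e = b 0`, `v = b 1`, `w = c i`: `‖cr f (b 0)‖ ^ 2 * dt f (b 1) (c i) = g * dt f (b 0) (c i) - dt f (b 0) (b 1) * e 0 i`. As `dt f (b 1) (c i)` and
`dt f (b 0) (c i)` have opposite strict signs, `dt f (b 0) (b 1) * e 0 i` has the sign of `dt f (b 0) (c i)`. For `i = 0, 1` these signs are opposite (`hc`), but `e 0 0`, `e 0 1` have
the same sign: contradiction.
-/

set_option autoImplicit false

namespace UF.FP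

private theorem nflCr1 {f b : E3} (hf : ‖f‖ = 1) (hb : ‖b‖ = 1) : ‖cr f b‖ ≤ 1 := by
  have := norm_cr_le f b
  rwa [hf, hb, mul_one] at this

private theorem nflAbs {x y β : ℝ} (h : x * y < 0) (hd : |x - y| ≤ β) : |x| ≤ β ∧ |y| ≤ β := by
  rcases lt_trichotomy x 0 with hx | hx | hx
  · have hy : 0 < y := by nlinarith
    rw [abs_of_neg (by linarith)] at hd
    rw [abs_of_neg hx, abs_of_pos hy]
    constructor <;> linarith
  · rw [hx, zero_mul] at h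
    exact absurd h (lt_irrefl _)
  · have hy : y < 0 := by nlinarith
    rw [abs_of_pos (by linarith)] at hd
    rw [abs_of_pos hx, abs_of_neg hy]
    constructor <;> linarith

private theorem nflLow {k₁ : ℝ} (hk1 : 0 < k₁) {f b g : E3} (hg : ‖g‖ = 1) (hb : ‖b‖ = 1)
    (ho : inner ℝ b g = 0) (h : k₁ ≤ |inner ℝ f g|) : k₁ ^ 2 ≤ ‖cr f b‖ ^ 2 := by
  have h1 : |inner ℝ g f| ≤ ‖cr f b‖ := abs_inner_le_cr hg hb (by rw [real_inner_comm]; exact ho)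
  rw [real_inner_comm] at h1
  exact pow_le_pow_left₀ hk1.le (h.trans h1) 2

private theorem nflE {f b c : E3} (hf : ‖f‖ = 1) :
    inner ℝ (cr f b) (cr f c) ^ 2 = ‖cr f b‖ ^ 2 * ‖cr f c‖ ^ 2 - dt f b c ^ 2 := by
  have h1 : cr (cr f b) (cr f c) = dt f b c • f := by
    rw [cr_cr_right, cr_inner, cr_inner, dt_self13, zero_smul, sub_zero]
  have h2 := norm_cr_sq (cr f b) (cr f c)
  rw [h1, norm_smul, hf, mul_one, Real.norm_eq_abs, sq_abs] at h2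
  linarith

theorem nfl {k k₁ : ℝ} {f gb gc : E3} {b c : Fin 2 → E3} (hk : 0 < k) (hk1 : 0 < k₁)
    (hf : ‖f‖ = 1) (ub : ∀ j, ‖b j‖ = 1) (uc : ∀ j, ‖c j‖ = 1) (ugb : ‖gb‖ = 1) (ugc : ‖gc‖ = 1)
    (ob : ∀ j, inner ℝ (b j) gb = 0) (oc : ∀ j, inner ℝ (c j) gc = 0)
    (hb : ∀ i, dt f (b 0) (c i) * dt f (b 1) (c i) < 0)
    (hc : ∀ j, dt f (b j) (c 0) * dt f (b j) (c 1) < 0)
    (h1 : k₁ ≤ |inner ℝ f gb|) (h2 : k₁ ≤ |inner ℝ f gc|) (h3 : k ≤ ‖c 0 + c 1‖) :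
    k₁ ^ 4 * k / 16 ≤ ‖b 0 - b 1‖ := by
  by_contra hlt
  rw [not_le] at hlt
  obtain ⟨β, hβ⟩ : ∃ β : ℝ, β = ‖b 0 - b 1‖ := ⟨_, rfl⟩
  rw [← hβ] at hlt
  have hβ0 : 0 ≤ β := by rw [hβ]; exact norm_nonneg _
  have hk2 : k ≤ 2 := by
    refine h3.trans ((norm_add_le _ _).trans ?_)
    rw [uc, uc]
    norm_num
  have hk11 : k₁ ≤ 1 := by
    refine h1.trans ((abs_real_inner_le_norm f gb).trans ?_)
    rw [hf, ugb]
    norm_num
  have hk12 : 0 < k₁ ^ 2 := by positivity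
  have hk12' : k₁ ^ 2 ≤ 1 := pow_le_one₀ hk1.le hk11
  have hk4 : k₁ ^ 4 = k₁ ^ 2 * k₁ ^ 2 := by ring
  have hβ8 : β ≤ k₁ ^ 2 / 8 := by
    have : k₁ ^ 4 * k ≤ k₁ ^ 2 * 2 := by
      rw [hk4, mul_assoc]
      refine mul_le_mul_of_nonneg_left ?_ hk12.le
      nlinarith
    linarith
  -- (1)
  have s1 : ∀ i, |dt f (b 0) (c i)| ≤ β ∧ |dt f (b 1) (c i)| ≤ β := by
    intro i
    refine nflAbs (hb i) ?_
    rw [← dt_sub2, ← dt_rot]
    refine (abs_dt_le _ _ _).trans ?_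
    rw [← hβ]
    refine mul_le_of_le_one_right hβ0 ?_
    rw [norm_cr_comm]
    exact nflCr1 hf (uc i)
  -- (2)
  have nb : k₁ ^ 2 ≤ ‖cr f (b 0)‖ ^ 2 := nflLow hk1 ugb (ub 0) (ob 0) h1
  have nc : ∀ i, k₁ ^ 2 ≤ ‖cr f (c i)‖ ^ 2 := fun i => nflLow hk1 ugc (uc i) (oc i) h2
  have hcd : ‖c 0 - c 1‖ < k₁ ^ 2 / 4 := by
    have e1 : cr (cr (c 0) f) (cr (c 1) f) = dt (c 0) (c 1) f • f := by
      rw [cr_cr_right, cr_inner, cr_inner, dt_self23, zero_smul, dt_swap23 (c 0) (c 1) f, neg_smul,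
        sub_neg_eq_add, zero_add]
    have e2 : cr (b 0) (cr (cr (c 0) f) (cr (c 1) f)) = dt (b 0) (c 1) f • cr (c 0) f -
        dt (b 0) (c 0) f • cr (c 1) f := by
      rw [cr_cr_right, inner_cr, inner_cr]
    have e3 : ‖cr (b 0) (cr (cr (c 0) f) (cr (c 1) f))‖ = |dt f (c 0) (c 1)| * ‖cr f (b 0)‖ := by
      rw [e1, cr_smul_right, norm_smul, Real.norm_eq_abs, dt_rot f (c 0) (c 1), norm_cr_comm f (b 0)]
    have e4 : ‖cr (b 0) (cr (cr (c 0) f) (cr (c 1) f))‖ ≤ 2 * β := by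
      rw [e2]
      refine (norm_sub_le _ _).trans ?_
      rw [norm_smul, norm_smul, Real.norm_eq_abs, Real.norm_eq_abs, dt_rot f (b 0) (c 1),
        dt_rot f (b 0) (c 0), norm_cr_comm f (c 0), norm_cr_comm f (c 1)]
      have q0 := (s1 0).1
      have q1 := (s1 1).1
      have r0 := nflCr1 hf (uc 0)
      have r1 := nflCr1 hf (uc 1)
      have t0 := mul_le_mul q1 r0 (norm_nonneg _) hβ0
      have t1 := mul_le_mul q0 r1 (norm_nonneg _) hβ0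
      linarith
    have e5 : |dt f (c 0) (c 1)| = ‖cr (c 0) (c 1)‖ * |inner ℝ f gc| :=
      abs_dt_eq ugc (oc 0) (oc 1) f
    have e6 : k₁ ≤ ‖cr f (b 0)‖ := by
      have := abs_le_of_sq_le_sq nb (norm_nonneg _)
      exact (le_abs_self _).trans this
    have e7 : ‖cr (c 0) (c 1)‖ * k₁ ^ 2 ≤ 2 * β := by
      rw [e3, e5] at e4
      refine le_trans ?_ e4
      have a1 : ‖cr (c 0) (c 1)‖ * k₁ ≤ ‖cr (c 0) (c 1)‖ * |inner ℝ f gc| :=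
        mul_le_mul_of_nonneg_left h2 (norm_nonneg _)
      have a2 := mul_le_mul a1 e6 hk1.le (mul_nonneg (norm_nonneg _) (abs_nonneg _))
      calc ‖cr (c 0) (c 1)‖ * k₁ ^ 2 = ‖cr (c 0) (c 1)‖ * k₁ * k₁ := by ring
        _ ≤ _ := a2
    rw [norm_cr_eq (uc 0) (uc 1)] at e7
    have e8 : ‖c 0 - c 1‖ * k / 2 * k₁ ^ 2 ≤ 2 * β := by
      refine le_trans ?_ e7
      refine mul_le_mul_of_nonneg_right ?_ hk12.le
      exact div_le_div_of_nonneg_right (mul_le_mul_of_nonneg_left h3 (norm_nonneg _)) (by norm_num)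
    have e9 : (‖c 0 - c 1‖) * (k * k₁ ^ 2) < (k₁ ^ 2 / 4) * (k * k₁ ^ 2) := by
      calc ‖c 0 - c 1‖ * (k * k₁ ^ 2) = 2 * (‖c 0 - c 1‖ * k / 2 * k₁ ^ 2) := by ring
        _ ≤ 2 * (2 * β) := by linarith
        _ < 2 * (2 * (k₁ ^ 4 * k / 16)) := by linarith
        _ = (k₁ ^ 2 / 4) * (k * k₁ ^ 2) := by ring
    exact lt_of_mul_lt_mul_right e9 (by positivity)
  -- (3)
  have hE : ∀ i, k₁ ^ 2 / 2 ≤ |inner ℝ (cr f (b 0)) (cr f (c i))| := by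
    intro i
    have a1 := nflE (b := b 0) (c := c i) hf
    have a2 : dt f (b 0) (c i) ^ 2 ≤ (k₁ ^ 2 / 8) ^ 2 := by
      rw [← sq_abs]
      exact pow_le_pow_left₀ (abs_nonneg _) ((s1 i).1.trans hβ8) 2
    have a3 : k₁ ^ 2 * k₁ ^ 2 ≤ ‖cr f (b 0)‖ ^ 2 * ‖cr f (c i)‖ ^ 2 :=
      mul_le_mul nb (nc i) hk12.le (by positivity)
    have a4 : (k₁ ^ 2 / 2) ^ 2 ≤ |inner ℝ (cr f (b 0)) (cr f (c i))| ^ 2 := by
      rw [sq_abs, a1]
      nlinarith [mul_pos hk12 hk12]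
    exact (pow_le_pow_iff_left₀ (by positivity) (abs_nonneg _) (by norm_num)).1 a4
  obtain ⟨e0, he0⟩ : ∃ e0 : ℝ, e0 = inner ℝ (cr f (b 0)) (cr f (c 0)) := ⟨_, rfl⟩
  obtain ⟨e1, he1⟩ : ∃ e1 : ℝ, e1 = inner ℝ (cr f (b 0)) (cr f (c 1)) := ⟨_, rfl⟩
  have hE0 := hE 0
  have hE1 := hE 1
  rw [← he0] at hE0
  rw [← he1] at hE1
  have hed : |e0 - e1| < k₁ ^ 2 / 4 := by
    rw [he0, he1, ← inner_sub_right, ← cr_sub_right]
    refine lt_of_le_of_lt ((abs_real_inner_le_norm _ _).trans ?_) hcd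
    have a1 := nflCr1 hf (ub 0)
    have a2 := norm_cr_le f (c 0 - c 1)
    rw [hf, one_mul] at a2
    have a3 := mul_le_mul a1 a2 (norm_nonneg _) zero_le_one
    rwa [one_mul] at a3
  have he : 0 < e0 * e1 := by
    rcases lt_trichotomy e0 0 with h | h | h
    · rw [abs_of_neg h] at hE0
      have : e1 < 0 := by
        by_contra hn
        rw [not_lt] at hn
        rw [abs_of_nonneg hn] at hE1
        have := (abs_lt.1 hed).1
        linarith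
      nlinarith
    · rw [h, abs_zero] at hE0
      linarith
    · rw [abs_of_pos h] at hE0
      have : 0 < e1 := by
        by_contra hn
        rw [not_lt] at hn
        rw [abs_of_nonpos hn] at hE1
        have := (abs_lt.1 hed).2
        linarith
      positivity
  -- (4)
  obtain ⟨g, hg⟩ : ∃ g : ℝ, g = inner ℝ (cr f (b 0)) (cr f (b 1)) := ⟨_, rfl⟩
  have hg0 : 0 < g := by
    have a0 : g = ‖cr f (b 0)‖ ^ 2 - inner ℝ (cr f (b 0)) (cr f (b 0 - b 1)) := by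
      rw [cr_sub_right, inner_sub_right, real_inner_self_eq_norm_sq, hg]
      ring
    have a1 := nflCr1 hf (ub 0)
    have a2 := norm_cr_le f (b 0 - b 1)
    rw [hf, one_mul, ← hβ] at a2
    have a3 := real_inner_le_norm (cr f (b 0)) (cr f (b 0 - b 1))
    have a4 := mul_le_mul a1 a2 (norm_nonneg _) zero_le_one
    rw [one_mul] at a4
    linarith
  -- (5)
  have hN : 0 < ‖cr f (b 0)‖ ^ 2 := lt_of_lt_of_le hk12 nb
  have hD : ∀ i, 0 < dt f (b 0) (b 1) * inner ℝ (cr f (b 0)) (cr f (c i)) * dt f (b 0) (c i) := by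
    intro i
    have a1 := planar f (b 0) (b 1) (c i) hf
    rw [← hg] at a1
    have a2 := hb i
    have a3 : dt f (b 0) (b 1) * inner ℝ (cr f (b 0)) (cr f (c i)) * dt f (b 0) (c i) =
        g * dt f (b 0) (c i) ^ 2 - ‖cr f (b 0)‖ ^ 2 * (dt f (b 0) (c i) * dt f (b 1) (c i)) := by
      linear_combination (dt f (b 0) (c i)) * a1
    rw [a3]
    have a4 : 0 ≤ g * dt f (b 0) (c i) ^ 2 := by positivity
    have a5 : ‖cr f (b 0)‖ ^ 2 * (dt f (b 0) (c i) * dt f (b 1) (c i)) < 0 :=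
      mul_neg_of_pos_of_neg hN a2
    linarith
  have d0 := hD 0
  have d1 := hD 1
  rw [← he0] at d0
  rw [← he1] at d1
  have d2 := mul_pos d0 d1
  have d3 := hc 0
  have d4 : dt f (b 0) (b 1) * e0 * dt f (b 0) (c 0) * (dt f (b 0) (b 1) * e1 * dt f (b 0) (c 1)) =
      (dt f (b 0) (b 1) ^ 2 * (e0 * e1)) * (dt f (b 0) (c 0) * dt f (b 0) (c 1)) := by ring
  rw [d4] at d2
  have d5 : 0 ≤ dt f (b 0) (b 1) ^ 2 * (e0 * e1) := by positivity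
  have := mul_nonpos_of_nonneg_of_nonpos d5 d3.le
  linarith

end UF.FP
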