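import Pool.Agent.Work.MP_4c5ddc_co.FP.Vin

/-!
# FP/RLow (M): consequences of the aligned position

PROOF. `aln_low`: by `norm_cr_mul` with `v = gc`: `m * ‖cr gc ga‖ ≤ |a 0 · gc| + |a 1 · gc| ≤ |a 0 · gc| + κ w`
and `‖cr gc ga‖ ≥ (m / 4) w`, `κ ≤ m ^ 2 / 8`. The same with `gb`. `aln_gam` (no division): with
`Z = cr ga gb`: `cr (a 0) Z = (a 0 · gb) • ga` (`cr_cr_right`, `a 0 · ga = 0`), so
`Z = (a 0 · Z) • a 0 - (a 0 · gb) • cr (a 0) ga` (from `cr_cr_right (a 0) (a 0) Z`, `‖a 0‖ = 1`). Hence for `X` with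
`a 0 · X = 0`: `dt ga gb X = Z · X = - (a 0 · gb) * dt (a 0) ga X` and `|dt (a 0) ga X| ≤ ‖cr ga X‖` (`abs_dt_le`,
`‖a 0‖ = 1`).
`aln_det`: `dt ga gb gc = Z · gc = (a 0 · Z) (a 0 · gc) - (a 0 · gb) dt (a 0) ga gc`; `|a 0 · Z| ^ 2 = ‖Z‖ ^ 2 - (a 0 · gb) ^ 2`
(norm of `cr (a 0) Z` and `norm_cr_sq`), so `|a 0 · Z| ≥ ‖Z‖ - |a 0 · gb| ≥ (m / 4 - κ) w ≥ (m / 8) w`;
`|dt (a 0) ga gc| ≤ ‖cr ga gc‖ ≤ w`. So `|dt ga gb gc| ≥ (m / 8) (m ^ 2 / 8) w ^ 2 - κ w ^ 2 ≥ (m ^ 3 / 128) w ^ 2`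
for `κ ≤ m ^ 3 / 128`. Upper bound: `gc = (gc · ga) • ga + e`, `‖e‖ = ‖cr gc ga‖ ≤ w`, `dt ga gb gc = e · Z`.
`aln_cr`: `‖cr (a 0) Z‖ = |a 0 · gb| ≤ κ w` and the same for `b 1` (`|b 1 · ga| ≤ κ w`); with the unit vector `μ = Z / ‖Z‖`
`‖cr (a 0) μ‖ ≤ κ w / ((m / 4) w) = 4 κ / m`, the same for `b 1`; `cr_tri`.
-/

set_option autoImplicit false

namespace UF.FP

variable {m κ w : ℝ} {a b c : Fin 2 → E3} {ga gb gc : E3}

theorem aln_low (h : Aln m κ w a b c ga gb gc) (hm : 0 < m) (hκ : κ ≤ m ^ 2 / 8) :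
    m ^ 2 / 8 * w ≤ |inner ℝ (a 0) gc| ∧ m ^ 2 / 8 * w ≤ |inner ℝ (a 1) gb| := by
  have hw := h.wpos
  have hκw : κ * w ≤ m ^ 2 / 8 * w := mul_le_mul_of_nonneg_right hκ hw.le
  have key : ∀ v : E3, m / 4 * w ≤ ‖cr v ga‖ →
      m ^ 2 / 4 * w ≤ |inner ℝ (a 0) v| + |inner ℝ (a 1) v| := by
    intro v hv
    have h1 := norm_cr_mul (h.rga.u 0) (h.rga.u 1) h.rga.ug (h.rga.o 0) (h.rga.o 1) v
    have h2 : m * (m / 4 * w) ≤ ‖cr (a 0) (a 1)‖ * ‖cr v ga‖ :=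
      mul_le_mul h.rga.low hv (by positivity) (norm_nonneg _)
    have h3 : m * (m / 4 * w) = m ^ 2 / 4 * w := by ring
    linarith
  have e1 : m ^ 2 / 4 * w = m ^ 2 / 8 * w + m ^ 2 / 8 * w := by ring
  constructor
  · have h1 := key gc h.ca.1
    have h2 := h.a1
    linarith
  · have h1 := key gb (by rw [norm_cr_comm]; exact h.ab.1)
    have h2 := h.a0
    linarith

private theorem aln_Z (h : Aln m κ w a b c ga gb gc) :
    cr (a 0) (cr ga gb) = (inner ℝ (a 0) gb) • ga ∧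
      cr ga gb = (inner ℝ (a 0) (cr ga gb)) • a 0 - (inner ℝ (a 0) gb) • cr (a 0) ga := by
  have h1 : cr (a 0) (cr ga gb) = (inner ℝ (a 0) gb) • ga := by
    rw [cr_cr_right, h.rga.o 0, zero_smul, sub_zero]
  refine ⟨h1, ?_⟩
  have h2 := cr_cr_right (a 0) (a 0) (cr ga gb)
  rw [h1, cr_smul_right, real_inner_self_eq_norm_sq, h.rga.u 0, one_pow, one_smul] at h2
  rw [h2]
  abel

private theorem aln_dt (h : Aln m κ w a b c ga gb gc) (X : E3) :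
    dt ga gb X = inner ℝ (a 0) (cr ga gb) * inner ℝ (a 0) X - inner ℝ (a 0) gb * dt (a 0) ga X := by
  rw [← cr_inner ga gb X]
  conv_lhs => rw [(aln_Z h).2]
  rw [inner_sub_left, real_inner_smul_left, real_inner_smul_left, cr_inner]

private theorem abs_dt_a (h : Aln m κ w a b c ga gb gc) (X : E3) : |dt (a 0) ga X| ≤ ‖cr X ga‖ := by
  have h1 := abs_dt_le (a 0) ga X
  rw [h.rga.u 0, one_mul] at h1
  rw [norm_cr_comm]
  exact h1

theorem aln_gam (h : Aln m κ w a b c ga gb gc) {X : E3} (hX : inner ℝ (a 0) X = 0) :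
    |dt ga gb X| ≤ κ * w * ‖cr X ga‖ := by
  rw [aln_dt h X, hX, mul_zero, zero_sub, abs_neg, abs_mul]
  exact mul_le_mul h.a0 (abs_dt_a h X) (abs_nonneg _) ((abs_nonneg _).trans h.a0)

private theorem dt_upper {u v z : E3} (hu : ‖u‖ = 1) : |dt u v z| ≤ ‖cr u v‖ * ‖cr z u‖ := by
  have h1 : dt u v z = inner ℝ (cr u v) (z - (inner ℝ z u) • u) := by
    rw [inner_sub_right, real_inner_smul_right, cr_inner, cr_inner, dt_self13, mul_zero, sub_zero]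
  have h2 : ‖z - (inner ℝ z u) • u‖ ^ 2 = ‖cr z u‖ ^ 2 := by
    rw [norm_cr_sq, norm_sub_sq_real, real_inner_smul_right, norm_smul, hu, Real.norm_eq_abs, mul_one,
      sq_abs]
    ring
  have h3 : ‖z - (inner ℝ z u) • u‖ = ‖cr z u‖ :=
    (sq_eq_sq₀ (norm_nonneg _) (norm_nonneg _)).mp h2
  rw [h1, ← h3]
  exact abs_real_inner_le_norm _ _

theorem aln_det (h : Aln m κ w a b c ga gb gc) (hm : 0 < m) (hm1 : m ≤ 1) (hκ0 : 0 ≤ κ)
    (hκ : κ ≤ m ^ 3 / 128) : m ^ 3 / 128 * w ^ 2 ≤ |dt ga gb gc| ∧ |dt ga gb gc| ≤ w ^ 2 := by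
  have hw := h.wpos
  have hm2 : m ^ 2 ≤ m := by nlinarith
  have hm3 : m ^ 3 ≤ m ^ 2 := by nlinarith [sq_nonneg m]
  have hκ1 : κ ≤ m ^ 2 / 8 := by linarith [sq_nonneg m]
  have hκ2 : κ ≤ m / 8 := by linarith
  constructor
  · obtain ⟨l1, l2⟩ := aln_low h hm hκ1
    obtain ⟨p, hp⟩ : ∃ p : ℝ, p = inner ℝ (a 0) gb := ⟨_, rfl⟩
    obtain ⟨z, hz⟩ : ∃ z : ℝ, z = inner ℝ (a 0) (cr ga gb) := ⟨_, rfl⟩
    have hpa : |p| ≤ κ * w := by rw [hp]; exact h.a0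
    have hn : ‖cr (a 0) (cr ga gb)‖ = |p| := by
      rw [(aln_Z h).1, norm_smul, h.rga.ug, mul_one, Real.norm_eq_abs, hp]
    have hsq := norm_cr_sq (a 0) (cr ga gb)
    rw [hn, h.rga.u 0, ← hz, sq_abs, one_pow, one_mul] at hsq
    have hZ := h.ab.1
    have hZp : |p| ≤ ‖cr ga gb‖ := by
      have : κ * w ≤ m / 4 * w := mul_le_mul_of_nonneg_right (by linarith) hw.le
      linarith
    have hzl : ‖cr ga gb‖ - |p| ≤ |z| := by
      apply abs_le_of_sq_le_sq' _ (abs_nonneg _) |>.2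
      rw [sq_abs]
      have h3 : z ^ 2 = ‖cr ga gb‖ ^ 2 - |p| ^ 2 := by rw [sq_abs]; linarith
      rw [h3]
      nlinarith [abs_nonneg p, norm_nonneg (cr ga gb)]
    have hzl2 : m / 8 * w ≤ |z| := by
      have h3 : κ * w ≤ m / 8 * w := mul_le_mul_of_nonneg_right hκ2 hw.le
      have h4 : m / 4 * w = m / 8 * w + m / 8 * w := by ring
      linarith
    have hd : |dt (a 0) ga gc| ≤ w := (abs_dt_a h gc).trans h.ca.2
    have hpd : |p * dt (a 0) ga gc| ≤ κ * w * w := by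
      rw [abs_mul]
      exact mul_le_mul hpa hd (abs_nonneg _) (by positivity)
    have hzd : m / 8 * w * (m ^ 2 / 8 * w) ≤ |z * inner ℝ (a 0) gc| := by
      rw [abs_mul]
      exact mul_le_mul hzl2 l1 (by positivity) (abs_nonneg _)
    have hdt := aln_dt h gc
    rw [← hp, ← hz] at hdt
    have h5 : |z * inner ℝ (a 0) gc| - |p * dt (a 0) ga gc| ≤ |dt ga gb gc| := by
      rw [hdt]
      exact abs_sub_abs_le_abs_sub _ _
    have h6 : κ * w * w ≤ m ^ 3 / 128 * w ^ 2 := by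
      have : κ * w * w = κ * w ^ 2 := by ring
      rw [this]
      exact mul_le_mul_of_nonneg_right hκ (sq_nonneg w)
    have h7 : m / 8 * w * (m ^ 2 / 8 * w) = m ^ 3 / 128 * w ^ 2 + m ^ 3 / 128 * w ^ 2 := by ring
    linarith
  · refine (dt_upper h.rga.ug).trans ?_
    rw [sq]
    exact mul_le_mul h.ab.2 h.ca.2 (norm_nonneg _) hw.le

theorem aln_cr (h : Aln m κ w a b c ga gb gc) (hm : 0 < m) (hκ0 : 0 ≤ κ) :
    ‖cr (a 0) (b 1)‖ ≤ 8 * κ / m := by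
  have hw := h.wpos
  have hZ := h.ab.1
  have hZ0 : 0 < ‖cr ga gb‖ := by
    have : 0 < m / 4 * w := by positivity
    linarith
  have h1 : ‖cr (a 0) (cr ga gb)‖ ≤ κ * w := by
    rw [(aln_Z h).1, norm_smul, h.rga.ug, mul_one, Real.norm_eq_abs]
    exact h.a0
  have h2 : ‖cr (b 1) (cr ga gb)‖ ≤ κ * w := by
    rw [cr_cr_right, h.rgb.o 1, zero_smul, zero_sub, norm_neg, norm_smul, h.rgb.ug, mul_one,
      Real.norm_eq_abs]
    exact h.b1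
  have hμ : ‖(‖cr ga gb‖⁻¹) • cr ga gb‖ = 1 := by
    rw [norm_smul, norm_inv, norm_norm, inv_mul_cancel₀ hZ0.ne']
  have h3 : ∀ u : E3, ‖cr u (cr ga gb)‖ ≤ κ * w → ‖cr u ((‖cr ga gb‖⁻¹) • cr ga gb)‖ ≤ 4 * κ / m := by
    intro u hu
    rw [cr_smul_right, norm_smul, norm_inv, norm_norm, inv_mul_le_iff₀ hZ0]
    refine hu.trans ?_
    have h4 : m / 4 * w * (4 * κ / m) = κ * w := by
      field_simp
    rw [← h4]
    exact mul_le_mul_of_nonneg_right hZ (by positivity)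
  have h5 := cr_tri (h.rga.u 0) (h.rgb.u 1) hμ
  have h6 := h3 (a 0) h1
  have h7 := h3 (b 1) h2
  have h7' : ‖cr (‖cr ga gb‖⁻¹ • cr ga gb) (b 1)‖ ≤ 4 * κ / m := by
    rw [norm_cr_comm]; exact h7
  have h8 : 8 * κ / m = 4 * κ / m + 4 * κ / m := by ring
  rw [h8]
  linarith

end UF.FP
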