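import Pool.Agent.Work.MP_4c5ddc_co.FP.Bas

/-!
# FP/Six1 (S-M): the intersection is given by the active normals

PROOF. `Int3 F t ⊆` the set: an active normal of `i ∈ t` is in `F.N i`. Conversely let `x` satisfy the inequalities of all active
normals and suppose `x ∉ Int3 F t`. Take `y ∈ Int3 F t` (`hne`); by `int3_exit` (from `y` to `x`) there is a point `e ∈ Int3 F t` and a tight normal `ν` of
some `i ∈ t` at `e` with `F.h i ν < ν · x`. `ν` is active (`Act`), so `ν · x ≤ F.h i ν`: contradiction.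
-/

set_option autoImplicit false

namespace UF.FP

variable {n : ℕ} {F : Fam n}

theorem int_eq_act {t : Finset (Fin n)} (hne : (Int3 F t).Nonempty) (x : E3) :
    x ∈ Int3 F t ↔ ∀ i ∈ t, ∀ ν ∈ Act F t i, inner ℝ ν x ≤ F.h i ν := by
  classical
  constructor
  · intro hx i hi ν hν
    exact hx i hi ν (Finset.mem_filter.1 hν).1
  · intro hx
    by_contra hcon
    obtain ⟨y, hy⟩ := hne
    obtain ⟨τ, h0, h1, h2, i, hi, ν, h3, h4⟩ := int3_exit hy hcon
    exact absurd (hx i hi ν (Finset.mem_filter.2 ⟨h3.1, _, h2, h3.2⟩)) (not_le.2 h4)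

end UF.FP
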