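import Pool.Agent.Work.MP_4c5ddc_co.FP.Gen
import Pool.Agent.Work.MP_4c5ddc_co.FP.Vli

/-!
# FP/Six2 (M-L): the eight vertices

`P = six a b c A B C` is bounded, nonempty and ridge free (at no point of `P` both inequalities of one colour are tight).

PROOF. Say that `x ∈ P` is a vertex of type `(i, j, k)` if `a i, b j, c k` are tight at `x` and `dt (a i) (b j) (c k) ≠ 0`; then by the ridge
freeness the other three inequalities are strict at `x`.
(1) There is a vertex of some type: `exists_vertex` (index set `Fin 3 × Fin 2` or `Fin 2 ⊕ Fin 2 ⊕ Fin 2`, all of it, `g = 0`)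
gives a point `p ∈ P` such that no `w ≠ 0` is orthogonal to all tight normals. By ridge freeness there is at most one tight
normal of each colour; if a colour has none, `exists_orth2` for the (at most two) others gives a contradiction; so there are
exactly three, `a i, b j, c k`, and `dt ≠ 0` (if `dt (a i) (b j) (c k) = 0` then there is `w ≠ 0` orthogonal to the three: otherwise `exists_three`
for the set of these three vectors gives a nonzero determinant of three of them, which is `± dt` or has two equal entries).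
(2) If there is a vertex `x` of type `(i, j, k)` then there is one of type `(1 - i, j, k)`: let `d = ± cr (b j) (c k)` with `a i · d < 0`
(nonzero because `dt ≠ 0`); `b j · d = c k · d = 0`. As `P` is bounded, `x + M • d ∉ P` for some `M > 0`; `exists_exit` from `x` to `z = x + M • d`: a point
`e = x + τ • (z - x) ∈ P` and a normal tight at `e` which is violated at `z`, so its inner product with `d` is positive; hence it is not `a i, b j, c k`.
`b j` and `c k` are tight at `e`, so by ridge freeness it is not the other `b` or the other `c`. So it is `a (1 - i)`, with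
`a (1 - i) · d > 0`. `dt (a (1 - i)) (b j) (c k) = a (1 - i) · cr (b j) (c k) ≠ 0`. So `e` is a vertex of type `(1 - i, j, k)`. The same for
the colours `b`, `c` (permute the colours).
(3) So all eight types occur; choose `p i j k`.
-/

set_option autoImplicit false

namespace UF.FP

private def Ver (a b c : Fin 2 → E3) (A B C : Fin 2 → ℝ) (i j k : Fin 2) (x : E3) : Prop :=
  x ∈ six a b c A B C ∧ inner ℝ (a i) x = A i ∧ inner ℝ (b j) x = B j ∧ inner ℝ (c k) x = C k ∧
    dt (a i) (b j) (c k) ≠ 0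

private theorem six_rot (a b c : Fin 2 → E3) (A B C : Fin 2 → ℝ) :
    six b c a B C A = six a b c A B C := by
  ext x
  unfold six
  simp only [Set.mem_setOf_eq]
  tauto

private theorem ver_rot {a b c : Fin 2 → E3} {A B C : Fin 2 → ℝ} {i j k : Fin 2} {x : E3} :
    Ver b c a B C A j k i x ↔ Ver a b c A B C i j k x := by
  unfold Ver
  rw [six_rot, dt_rot]
  tauto

private theorem two_eq {a : Fin 2 → E3} {A : Fin 2 → ℝ} {x : E3}
    (h : inner ℝ (a 0) x = A 0 → inner ℝ (a 1) x = A 1 → False) {i i' : Fin 2}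
    (hi : inner ℝ (a i) x = A i) (hi' : inner ℝ (a i') x = A i') : i = i' := by
  fin_cases i <;> fin_cases i'
  · rfl
  · exact (h hi hi').elim
  · exact (h hi' hi).elim
  · rfl

private theorem exit_pos {S : Set E3} (hbd : Bornology.IsBounded S) {d : E3} (hd : d ≠ 0)
    (x : E3) : ∃ M : ℝ, 0 < M ∧ x + M • d ∉ S := by
  obtain ⟨R, hR⟩ := hbd.subset_closedBall x
  have hd' : 0 < ‖d‖ := norm_pos_iff.2 hd
  refine ⟨(|R| + 1) / ‖d‖, by positivity, fun h => ?_⟩
  have h1 := Metric.mem_closedBall.1 (hR h)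
  rw [dist_self_add_left, norm_smul, Real.norm_of_nonneg (by positivity),
    div_mul_cancel₀ _ hd'.ne'] at h1
  linarith [le_abs_self R]

private theorem six_sum {a b c : Fin 2 → E3} {A B C : Fin 2 → ℝ} {x : E3} :
    x ∈ six a b c A B C ↔ ∀ q ∈ (Finset.univ : Finset (Fin 2 ⊕ Fin 2 ⊕ Fin 2)),
      inner ℝ (Sum.elim a (Sum.elim b c) q) x ≤ Sum.elim A (Sum.elim B C) q := by
  unfold six
  simp only [Set.mem_setOf_eq, Finset.mem_univ, forall_true_left, Sum.forall, Sum.elim_inl,
    Sum.elim_inr]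

private theorem flip_a {a b c : Fin 2 → E3} {A B C : Fin 2 → ℝ}
    (hbd : Bornology.IsBounded (six a b c A B C))
    (rb : ∀ x ∈ six a b c A B C, inner ℝ (b 0) x = B 0 → inner ℝ (b 1) x = B 1 → False)
    (rc : ∀ x ∈ six a b c A B C, inner ℝ (c 0) x = C 0 → inner ℝ (c 1) x = C 1 → False)
    {i j k : Fin 2} {x : E3} (hx : Ver a b c A B C i j k x) :
    ∃ y, Ver a b c A B C (1 - i) j k y := by
  obtain ⟨h6, ha, hb, hc, hd⟩ := hx
  obtain ⟨s, hs⟩ : ∃ s : ℝ, s * dt (a i) (b j) (c k) < 0 :=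
    ⟨-dt (a i) (b j) (c k), by
      have := mul_self_pos.2 hd
      linarith⟩
  obtain ⟨d, hdd⟩ : ∃ d : E3, d = s • cr (b j) (c k) := ⟨_, rfl⟩
  have hin : ∀ u : E3, inner ℝ u d = s * dt u (b j) (c k) := fun u => by
    rw [hdd, inner_smul_right, inner_cr]
  have had : inner ℝ (a i) d < 0 := by rw [hin]; exact hs
  have hbd0 : inner ℝ (b j) d = 0 := by rw [hin, dt_self12, mul_zero]
  have hcd0 : inner ℝ (c k) d = 0 := by rw [hin, dt_self13, mul_zero]
  have hd0 : d ≠ 0 := by
    intro h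
    rw [h, inner_zero_right] at had
    exact lt_irrefl _ had
  obtain ⟨M, hM0, hM⟩ := exit_pos hbd hd0 x
  have hz : ∃ q ∈ (Finset.univ : Finset (Fin 2 ⊕ Fin 2 ⊕ Fin 2)),
      Sum.elim A (Sum.elim B C) q < inner ℝ (Sum.elim a (Sum.elim b c) q) (x + M • d) := by
    by_contra hcon
    push Not at hcon
    exact hM (six_sum.2 hcon)
  obtain ⟨τ, h0, h1, h2, q, -, h3, h4⟩ := exists_exit _ _ _ (six_sum.1 h6) hz
  have he := six_sum.2 h2
  rw [add_sub_cancel_left] at he h3
  have hval : ∀ u : E3, inner ℝ u (x + τ • M • d) = inner ℝ u x + τ * (M * inner ℝ u d) :=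
    fun u => by rw [inner_add_right, inner_smul_right, inner_smul_right]
  have hbe : inner ℝ (b j) (x + τ • M • d) = B j := by rw [hval, hbd0, hb]; ring
  have hce : inner ℝ (c k) (x + τ • M • d) = C k := by rw [hval, hcd0, hc]; ring
  have hpos : 0 < inner ℝ (Sum.elim a (Sum.elim b c) q) d := by
    have h5 := six_sum.1 h6 q (Finset.mem_univ _)
    rw [inner_add_right, inner_smul_right] at h4
    have h6 : 0 < M * inner ℝ (Sum.elim a (Sum.elim b c) q) d := by linarith
    exact (mul_pos_iff_of_pos_left hM0).1 h6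
  rcases q with i' | j' | k'
  · simp only [Sum.elim_inl] at hpos h3
    have hii : i' = 1 - i := by
      have : i' ≠ i := by
        rintro rfl
        linarith
      fin_cases i <;> fin_cases i' <;> simp_all
    subst hii
    refine ⟨_, he, h3, hbe, hce, fun h => ?_⟩
    rw [hin, h, mul_zero] at hpos
    exact lt_irrefl _ hpos
  · simp only [Sum.elim_inl, Sum.elim_inr] at hpos h3
    have := two_eq (rb _ he) h3 hbe
    subst this
    linarith
  · simp only [Sum.elim_inr] at hpos h3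
    have := two_eq (rc _ he) h3 hce
    subst this
    linarith

private theorem exists_ver {a b c : Fin 2 → E3} {A B C : Fin 2 → ℝ}
    (hbd : Bornology.IsBounded (six a b c A B C)) (hne : (six a b c A B C).Nonempty)
    (ra : ∀ x ∈ six a b c A B C, inner ℝ (a 0) x = A 0 → inner ℝ (a 1) x = A 1 → False)
    (rb : ∀ x ∈ six a b c A B C, inner ℝ (b 0) x = B 0 → inner ℝ (b 1) x = B 1 → False)
    (rc : ∀ x ∈ six a b c A B C, inner ℝ (c 0) x = C 0 → inner ℝ (c 1) x = C 1 → False) :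
    ∃ i j k x, Ver a b c A B C i j k x := by
  have hset : {x : E3 | ∀ q ∈ (Finset.univ : Finset (Fin 2 ⊕ Fin 2 ⊕ Fin 2)),
      inner ℝ (Sum.elim a (Sum.elim b c) q) x ≤ Sum.elim A (Sum.elim B C) q} =
      six a b c A B C := by
    ext x
    exact six_sum.symm
  obtain ⟨x0, hx0⟩ := hne
  obtain ⟨p, hp, -, hv⟩ := exists_vertex (Finset.univ : Finset (Fin 2 ⊕ Fin 2 ⊕ Fin 2))
    (Sum.elim a (Sum.elim b c)) (Sum.elim A (Sum.elim B C)) 0 (by rw [hset]; exact hbd)
    ⟨x0, six_sum.1 hx0⟩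
  have hp6 := six_sum.2 hp
  have hex : ∃ u ∈ {u : E3 | (∃ i, u = a i ∧ inner ℝ (a i) p = A i) ∨
        (∃ j, u = b j ∧ inner ℝ (b j) p = B j) ∨ ∃ k, u = c k ∧ inner ℝ (c k) p = C k},
      ∃ v ∈ {u : E3 | (∃ i, u = a i ∧ inner ℝ (a i) p = A i) ∨
        (∃ j, u = b j ∧ inner ℝ (b j) p = B j) ∨ ∃ k, u = c k ∧ inner ℝ (c k) p = C k},
      ∃ w ∈ {u : E3 | (∃ i, u = a i ∧ inner ℝ (a i) p = A i) ∨
        (∃ j, u = b j ∧ inner ℝ (b j) p = B j) ∨ ∃ k, u = c k ∧ inner ℝ (c k) p = C k},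
      dt u v w ≠ 0 := by
    apply exists_three
    intro w hw
    obtain ⟨q, -, h1, h2⟩ := hv w hw
    rcases q with i | j | k
    · exact ⟨a i, Or.inl ⟨i, rfl, h1⟩, h2⟩
    · exact ⟨b j, Or.inr (Or.inl ⟨j, rfl, h1⟩), h2⟩
    · exact ⟨c k, Or.inr (Or.inr ⟨k, rfl, h1⟩), h2⟩
  have ta : ∀ i i' : Fin 2, inner ℝ (a i) p = A i → inner ℝ (a i') p = A i' → i = i' :=
    fun i i' h h' => two_eq (ra p hp6) h h'
  have tb : ∀ i i' : Fin 2, inner ℝ (b i) p = B i → inner ℝ (b i') p = B i' → i = i' :=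
    fun i i' h h' => two_eq (rb p hp6) h h'
  have tc : ∀ i i' : Fin 2, inner ℝ (c i) p = C i → inner ℝ (c i') p = C i' → i = i' :=
    fun i i' h h' => two_eq (rc p hp6) h h'
  obtain ⟨u, hu, v, hv', w, hw, hd⟩ := hex
  rcases hu with ⟨i, rfl, h1⟩ | ⟨i, rfl, h1⟩ | ⟨i, rfl, h1⟩ <;>
    rcases hv' with ⟨j, rfl, h2⟩ | ⟨j, rfl, h2⟩ | ⟨j, rfl, h2⟩ <;>
    rcases hw with ⟨k, rfl, h3⟩ | ⟨k, rfl, h3⟩ | ⟨k, rfl, h3⟩
  · exact absurd (by rw [ta i j h1 h2]; exact dt_self12 _ _) hd
  · exact absurd (by rw [ta i j h1 h2]; exact dt_self12 _ _) hd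
  · exact absurd (by rw [ta i j h1 h2]; exact dt_self12 _ _) hd
  · exact absurd (by rw [ta i k h1 h3]; exact dt_self13 _ _) hd
  · exact absurd (by rw [tb j k h2 h3]; exact dt_self23 _ _) hd
  · exact ⟨i, j, k, p, hp6, h1, h2, h3, hd⟩
  · exact absurd (by rw [ta i k h1 h3]; exact dt_self13 _ _) hd
  · refine ⟨i, k, j, p, hp6, h1, h3, h2, ?_⟩
    rw [dt_swap23]
    exact neg_ne_zero.2 hd
  · exact absurd (by rw [tc j k h2 h3]; exact dt_self23 _ _) hd
  · exact absurd (by rw [ta j k h2 h3]; exact dt_self23 _ _) hd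
  · exact absurd (by rw [tb i k h1 h3]; exact dt_self13 _ _) hd
  · refine ⟨j, i, k, p, hp6, h2, h1, h3, ?_⟩
    rw [dt_swap12]
    exact neg_ne_zero.2 hd
  · exact absurd (by rw [tb i j h1 h2]; exact dt_self12 _ _) hd
  · exact absurd (by rw [tb i j h1 h2]; exact dt_self12 _ _) hd
  · exact absurd (by rw [tb i j h1 h2]; exact dt_self12 _ _) hd
  · refine ⟨k, i, j, p, hp6, h3, h1, h2, ?_⟩
    rw [← dt_rot]
    exact hd
  · exact absurd (by rw [tb i k h1 h3]; exact dt_self13 _ _) hd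
  · exact absurd (by rw [tc j k h2 h3]; exact dt_self23 _ _) hd
  · exact absurd (by rw [ta j k h2 h3]; exact dt_self23 _ _) hd
  · refine ⟨j, k, i, p, hp6, h2, h3, h1, ?_⟩
    rw [dt_rot]
    exact hd
  · exact absurd (by rw [tc i k h1 h3]; exact dt_self13 _ _) hd
  · refine ⟨k, j, i, p, hp6, h3, h2, h1, ?_⟩
    rw [← dt_rot, dt_swap12]
    exact neg_ne_zero.2 hd
  · exact absurd (by rw [tb j k h2 h3]; exact dt_self23 _ _) hd
  · exact absurd (by rw [tc i k h1 h3]; exact dt_self13 _ _) hd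
  · exact absurd (by rw [tc i j h1 h2]; exact dt_self12 _ _) hd
  · exact absurd (by rw [tc i j h1 h2]; exact dt_self12 _ _) hd
  · exact absurd (by rw [tc i j h1 h2]; exact dt_self12 _ _) hd

private theorem eq_or (i i' : Fin 2) : i' = i ∨ i' = 1 - i := by
  fin_cases i <;> fin_cases i' <;> simp

private theorem all_a {a b c : Fin 2 → E3} {A B C : Fin 2 → ℝ}
    (hbd : Bornology.IsBounded (six a b c A B C))
    (rb : ∀ x ∈ six a b c A B C, inner ℝ (b 0) x = B 0 → inner ℝ (b 1) x = B 1 → False)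
    (rc : ∀ x ∈ six a b c A B C, inner ℝ (c 0) x = C 0 → inner ℝ (c 1) x = C 1 → False)
    {i j k : Fin 2} (hx : ∃ x, Ver a b c A B C i j k x) (i' : Fin 2) :
    ∃ y, Ver a b c A B C i' j k y := by
  rcases eq_or i i' with rfl | rfl
  · exact hx
  · obtain ⟨x, hx⟩ := hx
    exact flip_a hbd rb rc hx

theorem six_vertices {a b c : Fin 2 → E3} {A B C : Fin 2 → ℝ}
    (hbd : Bornology.IsBounded (six a b c A B C)) (hne : (six a b c A B C).Nonempty)
    (ra : ∀ x ∈ six a b c A B C, inner ℝ (a 0) x = A 0 → inner ℝ (a 1) x = A 1 → False)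
    (rb : ∀ x ∈ six a b c A B C, inner ℝ (b 0) x = B 0 → inner ℝ (b 1) x = B 1 → False)
    (rc : ∀ x ∈ six a b c A B C, inner ℝ (c 0) x = C 0 → inner ℝ (c 1) x = C 1 → False) :
    ∃ p : Fin 2 → Fin 2 → Fin 2 → E3, ∀ i j k, p i j k ∈ six a b c A B C ∧
      inner ℝ (a i) (p i j k) = A i ∧ inner ℝ (b j) (p i j k) = B j ∧
      inner ℝ (c k) (p i j k) = C k ∧ dt (a i) (b j) (c k) ≠ 0 := by
  obtain ⟨i, j, k, hx⟩ := exists_ver hbd hne ra rb rc
  have key : ∀ i' j' k', ∃ y, Ver a b c A B C i' j' k' y := by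
    intro i' j' k'
    have h1 := all_a hbd rb rc hx i'
    have h2 : ∃ y, Ver b c a B C A j k i' y := by
      obtain ⟨y, hy⟩ := h1
      exact ⟨y, ver_rot.2 hy⟩
    have hbd2 : Bornology.IsBounded (six b c a B C A) := by rw [six_rot]; exact hbd
    have h3 := all_a hbd2 (by rw [six_rot]; exact rc) (by rw [six_rot]; exact ra) h2 j'
    have h4 : ∃ y, Ver c a b C A B k i' j' y := by
      obtain ⟨y, hy⟩ := h3
      exact ⟨y, ver_rot.2 hy⟩
    have hbd3 : Bornology.IsBounded (six c a b C A B) := by rw [six_rot]; exact hbd2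
    have h5 := all_a hbd3 (by rw [six_rot, six_rot]; exact ra)
      (by rw [six_rot, six_rot]; exact rb) h4 k'
    obtain ⟨y, hy⟩ := h5
    exact ⟨y, ver_rot.1 (ver_rot.1 hy)⟩
  choose p hp using key
  exact ⟨p, fun i j k => hp i j k⟩

end UF.FP
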