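import Pool.Agent.Work.MP_4c5ddc_co.FP.SlabL
import Pool.Agent.Work.MP_4c5ddc_co.FP.Ndl
import Pool.Agent.Work.MP_4c5ddc_co.FP.DefsP

/-!
# FP/Slab (M): a cube with a slab has a long interval or a framed facet

PROOF. `k = 1 / (2 α)`, `α ≥ 1` (`fat_one`), so `k ≤ 1 / 2`. `δ = Metric.diam (F.K ia) > 0`. All `p i j l` are in `Int3 F {ia, ib, ic}` (`CubeAt.int`), hence in the three bodies; distances of points of a
bounded set are at most its diameter (`Metric.dist_le_diam_of_mem`, `isBounded_K`). `slab_len` for `F.K ia`, `u = a 0`, `v = a 1`, `p = p 0 j l`, `p' = p 1 j l`: `δ ≤ 2 α (a 0 · (p 0 j l - p 1 j l))`, i.e.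
`k δ ≤ a 0 · (p 0 j l - p 1 j l)`. In particular `k δ ≤ dist ≤ Metric.diam (F.K ic)`, the same for `ib`.
(1) If `‖c 0 + c 1‖ < k`: `slab_len` for `F.K ic`, `u = c 0`, `v = c 1`, `p = p 0 0 0`, `p' = p 0 0 1`: `dist (p 0 0 0) (p 0 0 1) ≥ c 0 · (..) ≥ k * diam (F.K ic) ≥ k ^ 2 δ`. So `Long` with `i = ia`, `j = ib`, `ν = a 0`, `μ = b 0`
(`cr (a 0) (b 0) ≠ 0` by `Lin.sc`, `k ^ 2 / 8 ≤ k ^ 2`). (2) If `‖b 0 + b 1‖ < k`: the same with `p 0 0 0`, `p 0 1 0` and `i = ia`, `j = ic`.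
(3) Otherwise, if some `dist (p i j 0) (p i j 1) > k ^ 2 / 8 δ`: `Long` with `ia, ib`, `a i, b j`; if some `dist (p i 0 l) (p i 1 l) > k ^ 2 / 8 δ`: `Long` with `ia, ic`, `a i, c l`. Otherwise `needle`.
-/

set_option autoImplicit false

namespace UF.FP

private theorem slabMem {n : ℕ} {F : Fam n} {ia ib ic : Fin n} {a b c : Fin 2 → E3}
    {p : Fin 2 → Fin 2 → Fin 2 → E3} (h : CubeAt F ia ib ic a b c p) (i j l : Fin 2) :
    p i j l ∈ Int3 F {ia, ib, ic} := by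
  rw [h.int]
  refine ⟨fun i' => ?_, fun j' => ?_, fun l' => ?_⟩
  · by_cases hi : i' = i
    · rw [hi]
      exact (h.cube.ta i j l).le
    · exact (h.cube.la i i' j l hi).le
  · by_cases hi : j' = j
    · rw [hi]
      exact (h.cube.tb i j l).le
    · exact (h.cube.lb i j j' l hi).le
  · by_cases hi : l' = l
    · rw [hi]
      exact (h.cube.tc i j l).le
    · exact (h.cube.lc i j l l' hi).le

private theorem slabLong1 {n : ℕ} {F : Fam n} {ia ib ic : Fin n} {a b c : Fin 2 → E3}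
    {p : Fin 2 → Fin 2 → Fin 2 → E3} (h : CubeAt F ia ib ic a b c p) {κ : ℝ} (i j : Fin 2)
    (hd : κ * Metric.diam (F.K ia) ≤ dist (p i j 0) (p i j 1)) : Long F κ {ia, ib, ic} := by
  refine ⟨ia, by simp, ib, by simp, h.nab, a i, b j, p i j 0, p i j 1, ?_, slabMem h _ _ _,
    slabMem h _ _ _, ⟨h.ma i, h.cube.ta i j 0⟩, ⟨h.ma i, h.cube.ta i j 1⟩,
    ⟨h.mb j, h.cube.tb i j 0⟩, ⟨h.mb j, h.cube.tb i j 1⟩, hd⟩
  intro h0
  have h1 := h.cube.lin.sc i j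
  rw [← cr_inner, h0, inner_zero_left, zero_mul] at h1
  exact lt_irrefl _ h1

private theorem slabLong2 {n : ℕ} {F : Fam n} {ia ib ic : Fin n} {a b c : Fin 2 → E3}
    {p : Fin 2 → Fin 2 → Fin 2 → E3} (h : CubeAt F ia ib ic a b c p) {κ : ℝ} (i l : Fin 2)
    (hd : κ * Metric.diam (F.K ia) ≤ dist (p i 0 l) (p i 1 l)) : Long F κ {ia, ib, ic} := by
  refine ⟨ia, by simp, ic, by simp, h.nac, a i, c l, p i 0 l, p i 1 l, ?_, slabMem h _ _ _,
    slabMem h _ _ _, ⟨h.ma i, h.cube.ta i 0 l⟩, ⟨h.ma i, h.cube.ta i 1 l⟩,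
    ⟨h.mc l, h.cube.tc i 0 l⟩, ⟨h.mc l, h.cube.tc i 1 l⟩, hd⟩
  intro h0
  have h1 := h.cube.lin.sb i l
  have h2 : dt (a i) (b 0) (c l) = 0 := by
    rw [← neg_eq_zero, ← dt_swap23, ← cr_inner, h0, inner_zero_left]
  rw [h2, zero_mul] at h1
  exact lt_irrefl _ h1

private theorem slabW {α : ℝ} {s n : ℕ} {F : Fam n} (hG : Good α s F) (hα : 1 ≤ α) {i : Fin n}
    {u v x y : E3} (hu : u ∈ F.N i) (hv : v ∈ F.N i) (huv : ‖u + v‖ < 1 / (2 * α))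
    (hx : F.Tight i u x) (hy : F.Tight i v y) (hxK : x ∈ F.K i) (hyK : y ∈ F.K i) :
    1 / (2 * α) * Metric.diam (F.K i) ≤ inner ℝ u (x - y) := by
  have h1 := slab_len (hG.fat i) (hG.unit i u hu) (hG.unit i v hv) huv.le
    (A := F.h i u) (B := F.h i v) (fun z hz => hz u hu) (fun z hz => hz v hv) hxK hyK hx.2 hy.2
  have h2 : 0 < 2 * α := by linarith
  rw [one_div, inv_mul_le_iff₀ h2]
  exact h1

private theorem slabI {u x y : E3} (hu : ‖u‖ = 1) : inner ℝ u (x - y) ≤ dist x y := by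
  have h1 := real_inner_le_norm u (x - y)
  rw [hu, one_mul] at h1
  rw [dist_eq_norm]
  exact h1

theorem slab_alt (α : ℝ) (hα : 1 ≤ α) : ∃ K : ℝ, ∀ (n s : ℕ) (F : Fam n) (ia ib ic : Fin n)
    (a b c : Fin 2 → E3) (p : Fin 2 → Fin 2 → Fin 2 → E3), Good α s F →
    CubeAt F ia ib ic a b c p → ‖a 0 + a 1‖ < 1 / (2 * α) →
    Long F ((1 / (2 * α)) ^ 2 / 8) {ia, ib, ic} ∨ Frm K (a 0) b c := by
  have h2 : 0 < 2 * α := by linarith
  have hk : 0 < 1 / (2 * α) := by positivity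
  have hk1 : 1 / (2 * α) ≤ 1 := by
    rw [div_le_one h2]
    linarith
  obtain ⟨K, hK⟩ := needle hk hk1
  refine ⟨K, ?_⟩
  intro n s F ia ib ic a b c p hG h hab
  obtain ⟨k, hkd⟩ : ∃ k : ℝ, k = 1 / (2 * α) := ⟨_, rfl⟩
  rw [← hkd] at hk hk1 hK hab ⊢
  obtain ⟨δ, hδd⟩ : ∃ δ : ℝ, δ = Metric.diam (F.K ia) := ⟨_, rfl⟩
  have hδ : 0 < δ := by
    rw [hδd]
    exact diam_pos (hG.fat ia)
  have hmem := slabMem h
  have hKa : ∀ i j l, p i j l ∈ F.K ia := fun i j l => hmem i j l ia (by simp)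
  have hKb : ∀ i j l, p i j l ∈ F.K ib := fun i j l => hmem i j l ib (by simp)
  have hKc : ∀ i j l, p i j l ∈ F.K ic := fun i j l => hmem i j l ic (by simp)
  have hslab : ∀ j l, k * δ ≤ inner ℝ (a 0) (p 0 j l - p 1 j l) := by
    intro j l
    rw [hkd] at hab ⊢
    rw [hδd]
    exact slabW hG hα (h.ma 0) (h.ma 1) hab ⟨h.ma 0, h.cube.ta 0 j l⟩ ⟨h.ma 1, h.cube.ta 1 j l⟩
      (hKa 0 j l) (hKa 1 j l)
  have hkk : k ^ 2 / 8 * δ ≤ k * (k * δ) := by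
    have : 0 ≤ k * (k * δ) := by positivity
    nlinarith
  have hda : k * δ ≤ dist (p 0 0 0) (p 1 0 0) :=
    (hslab 0 0).trans (slabI (hG.unit ia _ (h.ma 0)))
  by_cases hc : ‖c 0 + c 1‖ < k
  · left
    refine slabLong1 h 0 0 ?_
    rw [← hδd]
    have h1 : k * δ ≤ Metric.diam (F.K ic) :=
      hda.trans (Metric.dist_le_diam_of_mem (isBounded_K hG ic) (hKc _ _ _) (hKc _ _ _))
    have h3 : k * Metric.diam (F.K ic) ≤ inner ℝ (c 0) (p 0 0 0 - p 0 0 1) := by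
      rw [hkd] at hc ⊢
      exact slabW hG hα (h.mc 0) (h.mc 1) hc ⟨h.mc 0, h.cube.tc 0 0 0⟩ ⟨h.mc 1, h.cube.tc 0 0 1⟩
        (hKc 0 0 0) (hKc 0 0 1)
    exact hkk.trans ((mul_le_mul_of_nonneg_left h1 hk.le).trans
      (h3.trans (slabI (hG.unit ic _ (h.mc 0)))))
  by_cases hb : ‖b 0 + b 1‖ < k
  · left
    refine slabLong2 h 0 0 ?_
    rw [← hδd]
    have h1 : k * δ ≤ Metric.diam (F.K ib) :=
      hda.trans (Metric.dist_le_diam_of_mem (isBounded_K hG ib) (hKb _ _ _) (hKb _ _ _))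
    have h3 : k * Metric.diam (F.K ib) ≤ inner ℝ (b 0) (p 0 0 0 - p 0 1 0) := by
      rw [hkd] at hb ⊢
      exact slabW hG hα (h.mb 0) (h.mb 1) hb ⟨h.mb 0, h.cube.tb 0 0 0⟩ ⟨h.mb 1, h.cube.tb 0 1 0⟩
        (hKb 0 0 0) (hKb 0 1 0)
    exact hkk.trans ((mul_le_mul_of_nonneg_left h1 hk.le).trans
      (h3.trans (slabI (hG.unit ib _ (h.mb 0)))))
  by_cases hL : Long F (k ^ 2 / 8) {ia, ib, ic}
  · exact Or.inl hL
  right
  refine hK a b c _ _ _ p δ h.cube hδ ?_ hslab (not_lt.1 hb) (not_lt.1 hc) ?_ ?_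
  · intro i j l i' j' l'
    rw [hδd]
    exact Metric.dist_le_diam_of_mem (isBounded_K hG ia) (hKa _ _ _) (hKa _ _ _)
  · intro i j
    by_contra hcon
    refine hL (slabLong1 h i j ?_)
    rw [← hδd]
    exact (not_le.1 hcon).le
  · intro i l
    by_contra hcon
    refine hL (slabLong2 h i l ?_)
    rw [← hδd]
    exact (not_le.1 hcon).le

end UF.FP
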