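import Pool.Agent.Work.MP_4c5ddc_co.FP.Vec

/-!
# FP/Vin (M): inequalities for unit vectors, cross products and determinants

PROOF. Use the identities of `FP/Vec`.
`norm_cr_le`: from `norm_cr_sq`. `abs_dt_le`: Cauchy-Schwarz for `inner_cr`.
`cr_tri`: with `z` unit, `u = (inner u z) • z + u'`, `u' = u - (inner u z) • z`,
`‖u'‖ = ‖cr u z‖` (both squares are `1 - (inner u z) ^ 2`), `cr u v = (inner u z) • cr z v + cr u' v`.
`abs_inner_le_cr`: `v = (inner v g) • g + v'`, `‖v'‖ = ‖cr v g‖`, `inner u v = inner u v'`.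
`abs_inner_le_add`: the same decomposition of `v` along `g` for unit `v`, `g`:
`inner u v = (inner v g) * inner u g + inner u v'`, `‖v'‖ = ‖cr v g‖`.
`cr_eq_smul`: `cr g (cr x y) = 0` by `cr_cr_right`, so by `cr_cr_right g g (cr x y)` and `‖g‖ = 1`
`cr x y = (inner g (cr x y)) • g`. `norm_cr_mul`: `cr (cr x y) v` has by `cr_eq_smul` the norm
`‖cr x y‖ * ‖cr g v‖`, and by `cr_cr_left` the norm at most `|inner x v| + |inner y v|`.
`abs_dt_eq`: `dt v x y = inner v (cr x y)` and `cr_eq_smul`.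
`abs_dt_le_add`: with `x ⊥ g`, `y ⊥ g'`: `dt f x y = inner f (cr x y)`; `y = (inner y g) • g + (inner y x) • x + (inner y q) • q`
with the orthonormal frame `g, x, q = cr x g` (write `y` in it: `cr x y = (inner y g) • cr x g + (inner y q) • cr x q`,
`cr x q = cr x (cr x g) = - g`), so `dt f x y = (inner y g) * inner f q - (inner y q) * inner f g`, and
`|inner y g| ≤ ‖cr g g'‖` by `abs_inner_le_cr`.
`norm_sub_le_cr`: `‖u - v‖ ^ 2 = 2 (1 - inner u v)`, `‖cr u v‖ ^ 2 = (1 - inner u v) (1 + inner u v)`.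
`norm_cr_eq`: `‖cr x y‖ ^ 2 = (1 - inner x y) (1 + inner x y) = ‖x - y‖ ^ 2 * ‖x + y‖ ^ 2 / 4`.
`cr_norm_of_orth`: `u, v` orthogonal to the unit vector `β`: `cr u v = ± ‖cr u v‖ • β` (by
`cr_eq_smul`), `cr a (cr u v) = (inner a v) • u - (inner a u) • v`.
-/

set_option autoImplicit false

namespace UF.FP

private theorem le_of_sq {a b : ℝ} (hb : 0 ≤ b) (h : a ^ 2 ≤ b ^ 2) : a ≤ b :=
  (le_abs_self a).trans (by rw [← abs_of_nonneg hb]; exact sq_le_sq.1 h)

private theorem eq_of_sq {a b : ℝ} (ha : 0 ≤ a) (hb : 0 ≤ b) (h : a ^ 2 = b ^ 2) : a = b :=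
  le_antisymm (le_of_sq hb h.le) (le_of_sq ha h.ge)

private theorem resid {u z : E3} (hz : ‖z‖ = 1) : ‖u - (inner ℝ u z) • z‖ = ‖cr u z‖ := by
  refine eq_of_sq (norm_nonneg _) (norm_nonneg _) ?_
  rw [norm_cr_sq, hz, norm_sub_sq_real, inner_smul_right, norm_smul, hz, Real.norm_eq_abs, mul_one,
    sq_abs]
  ring

private theorem cr_zero_right (u : E3) : cr u 0 = 0 := by
  have := cr_smul_right 0 u u
  rwa [zero_smul, zero_smul] at this

private theorem abs_inner_le_one {u v : E3} (hu : ‖u‖ = 1) (hv : ‖v‖ = 1) : |inner ℝ u v| ≤ 1 := by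
  have := abs_real_inner_le_norm u v
  rwa [hu, hv, mul_one] at this

theorem norm_cr_le (u v : E3) : ‖cr u v‖ ≤ ‖u‖ * ‖v‖ := by
  refine le_of_sq (by positivity) ?_
  rw [norm_cr_sq, mul_pow]
  linarith [sq_nonneg (inner ℝ u v)]

theorem abs_dt_le (u v w : E3) : |dt u v w| ≤ ‖u‖ * ‖cr v w‖ := by
  rw [← inner_cr]
  exact abs_real_inner_le_norm _ _

theorem cr_tri {u v z : E3} (hu : ‖u‖ = 1) (hv : ‖v‖ = 1) (hz : ‖z‖ = 1) :
    ‖cr u v‖ ≤ ‖cr u z‖ + ‖cr z v‖ := by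
  set a : ℝ := inner ℝ u z with ha
  have h1 : cr u v = a • cr z v + cr (u - a • z) v := by
    rw [cr_sub_left, cr_smul_left, add_sub_cancel]
  have h2 : |a| ≤ 1 := abs_inner_le_one hu hz
  have h3 : ‖cr (u - a • z) v‖ ≤ ‖cr u z‖ := by
    refine (norm_cr_le _ _).trans ?_
    rw [hv, mul_one, ha, resid hz]
  have h4 : ‖a • cr z v‖ ≤ ‖cr z v‖ := by
    rw [norm_smul, Real.norm_eq_abs]
    exact mul_le_of_le_one_left (norm_nonneg _) h2
  rw [h1]
  refine (norm_add_le _ _).trans ?_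
  linarith

theorem abs_inner_le_cr {u g v : E3} (hu : ‖u‖ = 1) (hg : ‖g‖ = 1) (h : inner ℝ u g = 0) :
    |inner ℝ u v| ≤ ‖cr v g‖ := by
  have h1 : inner ℝ u v = inner ℝ u (v - (inner ℝ v g) • g) := by
    rw [inner_sub_right, inner_smul_right, h, mul_zero, sub_zero]
  rw [h1]
  refine (abs_real_inner_le_norm _ _).trans ?_
  rw [hu, one_mul, resid hg]

theorem abs_inner_le_add {u v g : E3} (hu : ‖u‖ = 1) (hv : ‖v‖ = 1) (hg : ‖g‖ = 1) :
    |inner ℝ u v| ≤ |inner ℝ u g| + ‖cr v g‖ := by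
  have h1 : inner ℝ u v = inner ℝ v g * inner ℝ u g + inner ℝ u (v - (inner ℝ v g) • g) := by
    rw [inner_sub_right, inner_smul_right, add_sub_cancel]
  have h2 : |inner ℝ u (v - (inner ℝ v g) • g)| ≤ ‖cr v g‖ := by
    refine (abs_real_inner_le_norm _ _).trans ?_
    rw [hu, one_mul, resid hg]
  have h3 : |inner ℝ v g * inner ℝ u g| ≤ |inner ℝ u g| := by
    rw [abs_mul]
    exact mul_le_of_le_one_left (abs_nonneg _) (abs_inner_le_one hv hg)
  rw [h1]
  refine (abs_add_le _ _).trans ?_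
  linarith

theorem cr_eq_smul {x y g : E3} (hg : ‖g‖ = 1) (hx : inner ℝ x g = 0) (hy : inner ℝ y g = 0) :
    cr x y = (inner ℝ g (cr x y)) • g := by
  have h1 : cr g (cr x y) = 0 := by
    rw [cr_cr_right, real_inner_comm, hy, zero_smul, real_inner_comm, hx, zero_smul, sub_zero]
  have h2 := cr_cr_right g g (cr x y)
  rw [h1, cr_zero_right, real_inner_self_eq_norm_sq, hg, one_pow, one_smul] at h2
  exact (sub_eq_zero.1 h2.symm).symm

theorem norm_cr_mul {x y g : E3} (hx : ‖x‖ = 1) (hy : ‖y‖ = 1) (hg : ‖g‖ = 1)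
    (hxg : inner ℝ x g = 0) (hyg : inner ℝ y g = 0) (v : E3) :
    ‖cr x y‖ * ‖cr v g‖ ≤ |inner ℝ x v| + |inner ℝ y v| := by
  have h1 := cr_eq_smul hg hxg hyg
  have h2 : ‖cr x y‖ = |inner ℝ g (cr x y)| := by
    have := congrArg norm h1
    rwa [norm_smul, hg, mul_one, Real.norm_eq_abs] at this
  have h3 : ‖cr (cr x y) v‖ = ‖cr x y‖ * ‖cr v g‖ := by
    have h4 : cr (cr x y) v = (inner ℝ g (cr x y)) • cr g v := by
      rw [← cr_smul_left, ← h1]
    rw [h4, norm_smul, Real.norm_eq_abs, ← h2, norm_cr_comm v g]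
  rw [← h3, cr_cr_left]
  refine (norm_sub_le _ _).trans ?_
  rw [norm_smul, norm_smul, hx, hy, mul_one, mul_one, Real.norm_eq_abs, Real.norm_eq_abs]

theorem abs_dt_eq {x y g : E3} (hg : ‖g‖ = 1) (hxg : inner ℝ x g = 0) (hyg : inner ℝ y g = 0)
    (v : E3) : |dt v x y| = ‖cr x y‖ * |inner ℝ v g| := by
  have h1 := cr_eq_smul hg hxg hyg
  have h2 : ‖cr x y‖ = |inner ℝ g (cr x y)| := by
    have := congrArg norm h1
    rwa [norm_smul, hg, mul_one, Real.norm_eq_abs] at this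
  rw [← inner_cr, h2, ← abs_mul]
  congr 1
  nth_rewrite 1 [h1]
  rw [inner_smul_right]

theorem abs_dt_le_add {f x y g g' : E3} (hf : ‖f‖ = 1) (hx : ‖x‖ = 1) (hy : ‖y‖ = 1)
    (hg : ‖g‖ = 1) (hg' : ‖g'‖ = 1) (hxg : inner ℝ x g = 0) (hyg : inner ℝ y g' = 0) :
    |dt f x y| ≤ |inner ℝ f g| + ‖cr g g'‖ := by
  set q : E3 := cr x g with hq
  have hxx : inner ℝ x x = 1 := by
    rw [real_inner_self_eq_norm_sq, hx, one_pow]
  have hgg : inner ℝ g g = 1 := by
    rw [real_inner_self_eq_norm_sq, hg, one_pow]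
  have hxq : cr x q = -g := by
    rw [hq, cr_cr_right, hxg, zero_smul, hxx, one_smul, zero_sub]
  have hqn : ‖q‖ = 1 := by
    refine eq_of_sq (norm_nonneg _) zero_le_one ?_
    rw [hq, norm_cr_sq, hx, hg, hxg]
    norm_num
  have h1 := cramer g x q y
  have h2 : dt g x q = -1 := by
    rw [← inner_cr, hxq, inner_neg_right, hgg]
  have h3 : dt y x q = -inner ℝ y g := by
    rw [← inner_cr, hxq, inner_neg_right]
  have h4 : dt g x y = -inner ℝ y q := by
    rw [← cr_inner, cr_anti, inner_neg_left, real_inner_comm]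
  rw [h2, h3, h4] at h1
  have h5 : cr x y = (inner ℝ y g) • q - (inner ℝ y q) • g := by
    have h6 := congrArg (cr x) h1
    rw [cr_add_right, cr_add_right, cr_smul_right, cr_smul_right, cr_smul_right, cr_smul_right,
      cr_self, smul_zero, add_zero, hxq, ← hq] at h6
    have h7 : cr x y = -((-1 : ℝ) • cr x y) := by
      rw [neg_smul, one_smul, neg_neg]
    rw [h7, h6]
    module
  have h8 : dt f x y = inner ℝ y g * inner ℝ f q - inner ℝ y q * inner ℝ f g := by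
    rw [← inner_cr, h5, inner_sub_right, inner_smul_right, inner_smul_right]
  have h9 : |inner ℝ y g| ≤ ‖cr g g'‖ := abs_inner_le_cr hy hg' hyg
  have h10 : |inner ℝ f q| ≤ 1 := abs_inner_le_one hf hqn
  have h11 : |inner ℝ y q| ≤ 1 := abs_inner_le_one hy hqn
  rw [h8]
  refine (abs_sub _ _).trans ?_
  rw [abs_mul, abs_mul]
  have h12 : |inner ℝ y g| * |inner ℝ f q| ≤ |inner ℝ y g| :=
    mul_le_of_le_one_right (abs_nonneg _) h10
  have h13 : |inner ℝ y q| * |inner ℝ f g| ≤ |inner ℝ f g| :=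
    mul_le_of_le_one_left (abs_nonneg _) h11
  linarith

theorem norm_sub_le_cr {u v : E3} (hu : ‖u‖ = 1) (hv : ‖v‖ = 1) (h : 0 ≤ inner ℝ u v) :
    ‖u - v‖ ≤ 2 * ‖cr u v‖ := by
  have h1 : ‖u - v‖ ^ 2 = 2 * (1 - inner ℝ u v) := by
    rw [norm_sub_sq_real, hu, hv]
    ring
  have h2 : ‖cr u v‖ ^ 2 = (1 - inner ℝ u v) * (1 + inner ℝ u v) := by
    rw [norm_cr_sq, hu, hv]
    ring
  have h3 : inner ℝ u v ≤ 1 := (le_abs_self _).trans (abs_inner_le_one hu hv)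
  refine le_of_sq (by positivity) ?_
  rw [mul_pow, h1, h2]
  nlinarith [mul_nonneg (sub_nonneg.2 h3) h]

/-- the same without the sign condition: one of `v`, `-v` is near `u`. -/
theorem exists_sign {u v : E3} (hu : ‖u‖ = 1) (hv : ‖v‖ = 1) :
    ∃ e : ℝ, (e = 1 ∨ e = -1) ∧ ‖u - e • v‖ ≤ 2 * ‖cr u v‖ := by
  rcases le_total 0 (inner ℝ u v) with h | h
  · exact ⟨1, Or.inl rfl, by rw [one_smul]; exact norm_sub_le_cr hu hv h⟩
  · refine ⟨-1, Or.inr rfl, ?_⟩
    have h1 : 0 ≤ inner ℝ u (-v) := by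
      rw [inner_neg_right]
      linarith
    have h2 := norm_sub_le_cr hu (by rw [norm_neg]; exact hv) h1
    have h3 : cr u (-v) = -cr u v := by
      have := cr_smul_right (-1) u v
      rwa [neg_smul, one_smul, neg_smul, one_smul] at this
    rw [h3, norm_neg] at h2
    rwa [neg_smul, one_smul]

theorem norm_cr_eq {x y : E3} (hx : ‖x‖ = 1) (hy : ‖y‖ = 1) :
    ‖cr x y‖ = ‖x - y‖ * ‖x + y‖ / 2 := by
  refine eq_of_sq (norm_nonneg _) (by positivity) ?_
  rw [div_pow, mul_pow, norm_sub_sq_real, norm_add_sq_real, norm_cr_sq, hx, hy]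
  ring

theorem cr_norm_of_orth {u v β a : E3} (hβ : ‖β‖ = 1) (hu : ‖u‖ = 1) (hv : ‖v‖ = 1)
    (huβ : inner ℝ u β = 0) (hvβ : inner ℝ v β = 0) :
    ‖cr u v‖ * ‖cr a β‖ ≤ |inner ℝ a u| + |inner ℝ a v| := by
  have h1 := norm_cr_mul hu hv hβ huβ hvβ a
  rwa [real_inner_comm, real_inner_comm a v] at h1

theorem exists_dir {u v : E3} (h : cr u v ≠ 0) : ∃ X, Dir u v X := by
  have hn : ‖cr u v‖ ≠ 0 := norm_ne_zero_iff.2 h
  refine ⟨‖cr u v‖⁻¹ • cr u v, ?_, ?_, ?_, h, ?_⟩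
  · rw [norm_smul, norm_inv, norm_norm, inv_mul_cancel₀ hn]
  · rw [inner_smul_right, inner_cr, dt_self12, mul_zero]
  · rw [inner_smul_right, inner_cr, dt_self13, mul_zero]
  · rw [smul_smul, mul_inv_cancel₀ hn, one_smul]

/-- the unit ridge direction of a nonflat pair. -/
theorem exists_rg {m : ℝ} {x : Fin 2 → E3} (hx : ∀ i, ‖x i‖ = 1) (hm : 0 < m)
    (h : m ≤ ‖cr (x 0) (x 1)‖) : ∃ g, Rg m x g := by
  have h0 : cr (x 0) (x 1) ≠ 0 := by
    intro h0
    rw [h0, norm_zero] at h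
    linarith
  obtain ⟨g, hg, h1, h2, -, -⟩ := exists_dir h0
  refine ⟨g, hx, hg, ?_, h⟩
  intro i
  fin_cases i
  · exact h1
  · exact h2

end UF.FP
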